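import Mathlib

/-!
# Definitions: compound matrices

`Lam k A` is the matrix of `Λ^k A` in a redundant form (indexed by all functions `Fin k → ι`; it is
`A^{⊗k}` composed with the projection onto antisymmetric tensors, so `Lam k 1` is a projection).
`dLam k M` is the derivation induced by `M` on `Λ^k`.
-/

open scoped Matrix

noncomputable section

namespace SBX

variable {ι : Type} [Fintype ι] [DecidableEq ι]

/-- `Λ^k A`, redundant form. -/
def Lam (k : ℕ) (A : Matrix ι ι ℝ) : Matrix (Fin k → ι) (Fin k → ι) ℝ :=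
  fun f g => ((k.factorial : ℝ))⁻¹ * (A.submatrix f g).det

/-- The derivation of `Λ^k` induced by `M`, redundant form. -/
def dLam (k : ℕ) (M : Matrix ι ι ℝ) : Matrix (Fin k → ι) (Fin k → ι) ℝ :=
  fun f g => ((k.factorial : ℝ))⁻¹ * ∑ l : Fin k,
    (((1 : Matrix ι ι ℝ).submatrix f g).updateRow l fun m => M (f l) (g m)).det

/-- `∑_{i ≥ 0} rank M^(2i+1)`. -/
def rkM (M : Matrix ι ι ℝ) : ℕ := ∑ i ∈ Finset.range (Fintype.card ι), (M ^ (2 * i + 1)).rank

end SBX
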