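import Pool.Agent.SBD.Sm
import Pool.Agent.SBX.Mx

/-!
# MP_15c9d8_al, exact value : definitions
-/

open MeasureTheory Filter Topology
open scoped ENNReal NNReal Matrix

noncomputable section

namespace SBD

variable {N : ℕ} {G : Type} [Group G] [TopologicalSpace G]
  {H : Type} [NormedAddCommGroup H] [InnerProductSpace ℂ H]

/-- `ad ξ : X ↦ ξX - Xξ` on all matrices. -/
def adE (ξ : Mat N) : Mat N →ₗ[ℝ] Mat N := LinearMap.mulLeft ℝ ξ - LinearMap.mulRight ℝ ξ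

/-- `∑_{i ≥ 0} rank (ad ξ |_𝔤)^(2i+1)`. -/
def rk (L : LieData N G) (ξ : Mat N) : ℕ :=
  ∑ i ∈ Finset.range (Module.finrank ℝ L.𝔤), Module.finrank ℝ (L.𝔤.map (adE ξ ^ (2 * i + 1)))

/-- The asymptotic cone of `π`: the `ξ ∈ 𝔤` such that there are unit vectors `v` and `t → 0+` with
`t dπ(X)v - i tr(ξX) v → 0` for all `X ∈ 𝔤` (approximate joint eigenvectors at high energy). -/
def AC (L : LieData N G) (π : G →* (H ≃ₗᵢ[ℂ] H)) : Set (Mat N) :=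
  {ξ | ξ ∈ L.𝔤 ∧ ∀ ε : ℝ, 0 < ε → ∃ t : ℝ, 0 < t ∧ t < ε ∧ ∃ v : H, ‖v‖ = 1 ∧
    ∀ X ∈ L.𝔤, ∃ y : H, HasDerivAt (fun s : ℝ => π (L.e (s • X)) v) y 0 ∧
      ‖(t : ℂ) • y - (Complex.I * ((ξ * X).trace : ℝ)) • v‖ ≤ ε * Real.sqrt (fsq X)}

/-- The maximum of `rk` over the asymptotic cone. -/
def nu (L : LieData N G) (π : G →* (H ≃ₗᵢ[ℂ] H)) : ℕ := sSup (rk L '' AC L π)

variable {L : LieData N G}

/-- Index set of the orthonormal basis of `𝔤`. -/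
abbrev Bases.J (B : Bases L) : Type := Fin B.m ⊕ Fin B.n

/-- The orthonormal basis of `𝔤`. -/
def Bases.b (B : Bases L) : B.J → Mat N := Sum.elim B.Z B.P

/-- The element with coordinates `x`. -/
def Bases.co (B : Bases L) (x : B.J → ℝ) : Mat N := ∑ i, x i • B.b i

/-- The matrix of `Ad g` on `𝔤`. -/
def AdM (B : Bases L) (g : G) : Matrix B.J B.J ℝ :=
  fun i j => fip (B.b i) (L.ι g * B.b j * L.ι g⁻¹)

/-- The matrix of `ad X` on `𝔤`. -/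
def adM (B : Bases L) (X : Mat N) : Matrix B.J B.J ℝ :=
  fun i j => fip (B.b i) (X * B.b j - B.b j * X)

/-- `δ(g) = det(1 + Ad(g)ᵀ Ad(g))^{1/2}`, comparable to `e^{2ρ(μ(g))}`. -/
def dl (B : Bases L) (g : G) : ℝ := Real.sqrt (1 + (AdM B g)ᵀ * AdM B g).det

end SBD
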