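import Pool.Agent.SBX.Mx

/-!
# Row SBX-E01 : compound matrices (Cauchy–Binet)

`Lam k A f g = det (A.submatrix f g) / k!` for `f g : Fin k → ι`.

* `Lam_mul` : `det((AB)_{f,h}) = ∑_π sgn π ∏_l (AB)_{f l, h (π l)} = ∑_π sgn π ∏_l ∑_j A_{f l, j} B_{j, h(π l)}
  = ∑_{g : Fin k → ι} (∏_l A_{f l, g l}) det(B_{g,h})` (`Finset.prod_univ_sum`, or
  `Matrix.det_mul_row`/multilinearity of `det` in the rows).  For `τ ∈ S_k` substitute `g = g ∘ τ`:
  `det(B_{g∘τ,h}) = sgn τ det(B_{g,h})` (`Matrix.det_permute`), so summing over `τ`: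
  `k! det((AB)_{f,h}) = ∑_g (∑_τ sgn τ ∏_l A_{f l, g(τ l)}) det(B_{g,h}) = ∑_g det(A_{f,g}) det(B_{g,h})`.
* `Lam_transpose` : `Matrix.det_transpose`.
* `det_one_add_sq` : (i) for every matrix `M`: `det(1 + M) = ∑_{k ≤ card ι} (k!)⁻¹ ∑_{f : Fin k → ι} det(M_{f,f})`
  (the sum of all principal minors `∑_S det M_{S,S}`, expansion of the multilinear function `det` in the
  rows of `1 + M`; `f` non-injective gives `0` (two equal rows), and the injective `f` with image `S` are
  `k!` many with the same value).  (ii) with `M = AᵀA`: `det((AᵀA)_{f,f}) = (1/k!) ∑_g det(Aᵀ_{f,g})det(A_{g,f})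
  = (1/k!) ∑_g det(A_{g,f})²` (the identity of `Lam_mul`), so the `k`-th term is
  `(k!)⁻² ∑_{f,g} det(A_{g,f})² = ∑_{f,g} (Lam k A g f)²`.
* `Lam_le` : one term of this sum of nonnegative terms.
-/

open scoped Matrix

noncomputable section

namespace SBX

variable {ι : Type} [Fintype ι] [DecidableEq ι]

private theorem E01_expand (k : ℕ) (A : Matrix (Fin k) ι ℝ) (B : Matrix ι (Fin k) ℝ) :
    (A * B).det = ∑ g : Fin k → ι, (∏ l, A l (g l)) * (B.submatrix g id).det := by
  have h1 : (A * B) = (fun l => ∑ j, A l j • B j) := by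
    funext l m
    rw [Matrix.mul_apply, Finset.sum_apply]
    rfl
  have h2 := (Matrix.detRowAlternating (n := Fin k) (R := ℝ)).toMultilinearMap.map_sum
    (fun l j => A l j • B j)
  have h3 : (A * B).det = ∑ g : Fin k → ι,
      (Matrix.detRowAlternating (n := Fin k) (R := ℝ)).toMultilinearMap
        (fun l => A l (g l) • B (g l)) := by
    rw [← h2, ← h1]
    rfl
  rw [h3]
  refine Finset.sum_congr rfl fun g _ => ?_
  rw [MultilinearMap.map_smul_univ]
  rfl

private theorem E01_CB (k : ℕ) (A : Matrix (Fin k) ι ℝ) (B : Matrix ι (Fin k) ℝ) :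
    (k.factorial : ℝ) * (A * B).det =
      ∑ g : Fin k → ι, (A.submatrix id g).det * (B.submatrix g id).det := by
  have h1 : ∀ τ : Equiv.Perm (Fin k), (A * B).det = ∑ g : Fin k → ι,
      ((Equiv.Perm.sign τ : ℤ) : ℝ) * (∏ l, A l (g (τ l))) * (B.submatrix g id).det := by
    intro τ
    rw [E01_expand]
    rw [← Equiv.sum_comp (Equiv.arrowCongr (τ⁻¹ : Equiv.Perm (Fin k)) (Equiv.refl ι))]
    refine Finset.sum_congr rfl fun g _ => ?_
    have e1 : (Equiv.arrowCongr (τ⁻¹ : Equiv.Perm (Fin k)) (Equiv.refl ι)) g = g ∘ τ := by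
      funext l
      rfl
    rw [e1]
    have e2 : B.submatrix (g ∘ τ) id = (B.submatrix g id).submatrix τ id := rfl
    rw [e2, Matrix.det_permute]
    simp only [Function.comp_apply]
    ring
  have h2 : (k.factorial : ℝ) * (A * B).det = ∑ τ : Equiv.Perm (Fin k), (A * B).det := by
    rw [Finset.sum_const, Finset.card_univ, Fintype.card_perm, Fintype.card_fin, nsmul_eq_mul]
  rw [h2, Finset.sum_congr rfl fun τ _ => h1 τ, Finset.sum_comm]
  refine Finset.sum_congr rfl fun g _ => ?_
  rw [← Finset.sum_mul]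
  congr 1
  rw [← Matrix.det_transpose, Matrix.det_apply']
  rfl

private theorem E01_CBsub (k : ℕ) (A B : Matrix ι ι ℝ) (f h : Fin k → ι) :
    (k.factorial : ℝ) * ((A * B).submatrix f h).det =
      ∑ g : Fin k → ι, (A.submatrix f g).det * (B.submatrix g h).det := by
  have e : (A * B).submatrix f h = (A.submatrix f id) * (B.submatrix id h) := by
    ext i j
    simp [Matrix.mul_apply]
  rw [e, E01_CB]
  rfl

theorem Lam_mul (k : ℕ) (A B : Matrix ι ι ℝ) : Lam k (A * B) = Lam k A * Lam k B := by
  ext f h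
  have hk : (k.factorial : ℝ) ≠ 0 := by positivity
  have h1 := E01_CBsub k A B f h
  have h2 : ((A * B).submatrix f h).det = (k.factorial : ℝ)⁻¹ *
      ∑ g : Fin k → ι, (A.submatrix f g).det * (B.submatrix g h).det := by
    rw [← h1]
    field_simp
  rw [Matrix.mul_apply]
  unfold Lam
  rw [h2, Finset.mul_sum, Finset.mul_sum]
  refine Finset.sum_congr rfl fun g _ => ?_
  ring

theorem Lam_transpose (k : ℕ) (A : Matrix ι ι ℝ) : (Lam k A)ᵀ = Lam k Aᵀ := by
  ext f g
  show ((k.factorial : ℝ))⁻¹ * (A.submatrix g f).det = ((k.factorial : ℝ))⁻¹ * (Aᵀ.submatrix f g).det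
  rw [← Matrix.det_transpose (A.submatrix g f), Matrix.transpose_submatrix]

private theorem E01_minors (M : Matrix ι ι ℝ) : (1 + M).det =
    ∑ s : Finset ι, (M.submatrix (Subtype.val : s → ι) (Subtype.val : s → ι)).det := by
  have h1 := (Matrix.detRowAlternating (n := ι) (R := ℝ)).map_add_univ M (1 : Matrix ι ι ℝ)
  have h2 : (1 + M).det = (Matrix.detRowAlternating (n := ι) (R := ℝ)) (M + (1 : Matrix ι ι ℝ)) := by
    rw [add_comm]
    rfl
  rw [h2]
  refine h1.trans (Finset.sum_congr rfl fun s _ => ?_)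
  exact Matrix.det_piecewise_one_eq_submatrix_det M s

private theorem E01_fib (M : Matrix ι ι ℝ) (k : ℕ) :
    ∑ f : Fin k → ι, (M.submatrix f f).det = (k.factorial : ℝ) *
      ∑ s ∈ Finset.univ.powersetCard k,
        (M.submatrix (Subtype.val : s → ι) (Subtype.val : s → ι)).det := by
  classical
  have h1 : ∑ f : Fin k → ι, (M.submatrix f f).det =
      ∑ f ∈ Finset.univ.filter (fun f : Fin k → ι => Function.Injective f),
        (M.submatrix f f).det := by
    rw [Finset.sum_filter]
    refine Finset.sum_congr rfl fun f _ => ?_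
    split_ifs with hf
    · rfl
    · rw [Function.Injective] at hf
      push Not at hf
      obtain ⟨i, j, hij, hne⟩ := hf
      refine Matrix.det_zero_of_row_eq hne ?_
      funext m
      simp [hij]
  rw [h1, Finset.mul_sum]
  rw [← Finset.sum_fiberwise_of_maps_to (g := fun f : Fin k → ι => Finset.univ.image f)
    (t := Finset.univ.powersetCard k)]
  · refine Finset.sum_congr rfl fun s hs => ?_
    have hcard : s.card = k := (Finset.mem_powersetCard.1 hs).2
    have h2 : ∑ f ∈ (Finset.univ.filter (fun f : Fin k → ι => Function.Injective f)).filter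
        (fun f => Finset.univ.image f = s), (M.submatrix f f).det =
        ∑ _e : (Fin k ≃ s), (M.submatrix (Subtype.val : s → ι) (Subtype.val : s → ι)).det := by
      symm
      refine Finset.sum_bij (fun (e : Fin k ≃ s) _ => (Subtype.val ∘ e : Fin k → ι)) ?_ ?_ ?_ ?_
      · intro e _
        rw [Finset.mem_filter, Finset.mem_filter]
        refine ⟨⟨Finset.mem_univ _, Subtype.val_injective.comp e.injective⟩, ?_⟩
        ext x
        rw [Finset.mem_image]
        constructor
        · rintro ⟨i, _, rfl⟩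
          exact (e i).2
        · intro hx
          exact ⟨e.symm ⟨x, hx⟩, Finset.mem_univ _, by simp⟩
      · intro e _ e' _ h
        ext i
        exact congrFun h i
      · intro f hf
        rw [Finset.mem_filter, Finset.mem_filter] at hf
        have hmem : ∀ i, f i ∈ s := fun i => by
          rw [← hf.2]
          exact Finset.mem_image_of_mem _ (Finset.mem_univ _)
        have hbij : Function.Bijective (fun i => (⟨f i, hmem i⟩ : s)) := by
          constructor
          · intro i j hij
            exact hf.1.2 (congrArg Subtype.val hij)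
          · rintro ⟨x, hx⟩
            rw [← hf.2, Finset.mem_image] at hx
            obtain ⟨i, _, hi⟩ := hx
            exact ⟨i, Subtype.ext hi⟩
        exact ⟨Equiv.ofBijective _ hbij, Finset.mem_univ _, rfl⟩
      · intro e _
        rw [← Matrix.det_submatrix_equiv_self e]
        rfl
    rw [h2, Finset.sum_const, Finset.card_univ, nsmul_eq_mul]
    congr 2
    rw [Fintype.card_equiv (Fintype.equivFinOfCardEq (by simpa using hcard)).symm,
      Fintype.card_fin]
  · intro f hf
    rw [Finset.mem_filter] at hf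
    rw [Finset.mem_powersetCard]
    exact ⟨Finset.subset_univ _, by rw [Finset.card_image_of_injective _ hf.2]; simp⟩

theorem det_one_add_sq (A : Matrix ι ι ℝ) : (1 + Aᵀ * A).det =
    ∑ k ∈ Finset.range (Fintype.card ι + 1), ∑ f : Fin k → ι, ∑ g : Fin k → ι,
      (Lam k A f g) ^ 2 := by
  rw [E01_minors, ← Finset.powerset_univ, Finset.sum_powerset, Finset.card_univ]
  refine Finset.sum_congr rfl fun k _ => ?_
  have hk : (k.factorial : ℝ) ≠ 0 := by positivity
  have h1 := E01_fib (Aᵀ * A) k
  have h2 : ∑ s ∈ Finset.univ.powersetCard k,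
      ((Aᵀ * A).submatrix (Subtype.val : s → ι) (Subtype.val : s → ι)).det
      = (k.factorial : ℝ)⁻¹ * ∑ f : Fin k → ι, ((Aᵀ * A).submatrix f f).det := by
    rw [h1]
    field_simp
  rw [h2, Finset.mul_sum, Finset.sum_comm]
  refine Finset.sum_congr rfl fun f _ => ?_
  have h3 := E01_CBsub k Aᵀ A f f
  have h4 : ((Aᵀ * A).submatrix f f).det = (k.factorial : ℝ)⁻¹ *
      ∑ g : Fin k → ι, (Aᵀ.submatrix f g).det * (A.submatrix g f).det := by
    rw [← h3]
    field_simp
  rw [h4, Finset.mul_sum, Finset.mul_sum]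
  refine Finset.sum_congr rfl fun g _ => ?_
  unfold Lam
  rw [← Matrix.transpose_submatrix, Matrix.det_transpose]
  ring

/-- `‖Λ^k A‖ ≤ det(1+AᵀA)^{1/2}` (entrywise; also for `k > card ι`, where `Lam k A = 0`). -/
theorem Lam_le (k : ℕ) (A : Matrix ι ι ℝ) (f g : Fin k → ι) :
    |Lam k A f g| ≤ Real.sqrt (1 + Aᵀ * A).det := by
  by_cases hk : k ≤ Fintype.card ι
  · apply Real.abs_le_sqrt
    rw [det_one_add_sq]
    have s1 : (Lam k A f g) ^ 2 ≤ ∑ g : Fin k → ι, (Lam k A f g) ^ 2 :=
      Finset.single_le_sum (f := fun g => (Lam k A f g) ^ 2) (fun _ _ => sq_nonneg _)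
        (Finset.mem_univ g)
    have s2 : ∑ g : Fin k → ι, (Lam k A f g) ^ 2 ≤
        ∑ f : Fin k → ι, ∑ g : Fin k → ι, (Lam k A f g) ^ 2 :=
      Finset.single_le_sum (f := fun f => ∑ g : Fin k → ι, (Lam k A f g) ^ 2)
        (fun _ _ => Finset.sum_nonneg fun _ _ => sq_nonneg _) (Finset.mem_univ f)
    have s3 := Finset.single_le_sum (s := Finset.range (Fintype.card ι + 1))
      (f := fun k => ∑ f : Fin k → ι, ∑ g : Fin k → ι, (Lam k A f g) ^ 2)
      (fun _ _ => Finset.sum_nonneg fun _ _ => Finset.sum_nonneg fun _ _ => sq_nonneg _)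
      (Finset.mem_range.2 (Nat.lt_succ_of_le hk))
    exact s1.trans (s2.trans s3)
  · have hf : ¬ Function.Injective f := fun hf => hk (by
      simpa using Fintype.card_le_of_injective f hf)
    rw [Function.Injective] at hf
    push Not at hf
    obtain ⟨i, j, hij, hne⟩ := hf
    have h0 : (A.submatrix f g).det = 0 := by
      refine Matrix.det_zero_of_row_eq hne ?_
      funext m
      simp [hij]
    unfold Lam
    rw [h0, mul_zero, abs_zero]
    exact Real.sqrt_nonneg _

end SBX
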