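import Pool.Agent.SBX.E01

/-!
# Row SBX-E02 : the derivation `dLam k M`

Write `T(M)_{f,g} = ∑_l M_{f l, g l} ∏_{m ≠ l} δ_{f m, g m}` (the derivation on the full tensor power) and
`P = Lam k 1` (`P_{f,g} = (1/k!) ∑_π sgn π [f = g ∘ π]`, the antisymmetrizer).  Expanding the determinants:
`dLam k M = T(M) P`, and `T(M) P = P T(M)` (conjugation by a permutation `π` of the slots fixes `T(M)`),
`P² = P` (`Lam_mul`), `Pᵀ = P`.  `T(M) T(M') - T(M') T(M) = T(M M' - M' M)`: for different slots the factors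
commute, for the same slot one gets the matrix commutator.
* `dLam_add`, `dLam_smul` : `T` is linear.
* `dLam_lie` : `(T P)(T' P) = T T' P`.
* `dLam_transpose` : `(T(M)P)ᵀ = P T(Mᵀ) = T(Mᵀ) P`.
* `dLam_proj` : `P T P = T P`.
* `Lam_exp` : with `K(A)_{f,g} = ∏_l A_{f l, g l}` (multiplicative) `Lam k A = K(A) P`, and
  `K(exp M) = exp(T(M))` because `t ↦ K(exp(tM))` has derivative `T(M) K(exp(tM))` (product rule in each
  entry) and value `1` at `0` (uniqueness for the linear ODE `Y' = T(M) Y`; e.g. `exp(-tT(M))K(exp(tM))` has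
  derivative `0`).  `exp(T) P = exp(T P) P` since `T` and `P` commute and `P² = P` (power series:
  `T^j P = (TP)^j P`).
* `Lam_conj` : `K(A) T(M) K(A') = T(A M A')` if `A A' = 1` (in the slots `m ≠ l` one gets `A A' = 1`).
-/

open scoped Matrix

noncomputable section

namespace SBX

variable {ι : Type} [Fintype ι] [DecidableEq ι]

/-- tensor product of the matrices `A m` -/
def E02_KK {k : ℕ} (A : Fin k → Matrix ι ι ℝ) : Matrix (Fin k → ι) (Fin k → ι) ℝ :=
  fun f g => ∏ m, A m (f m) (g m)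

/-- `M` in the slot `l`, `1` in the other slots -/
def E02_u {k : ℕ} (l : Fin k) (M : Matrix ι ι ℝ) : Fin k → Matrix ι ι ℝ :=
  fun m => if m = l then M else 1

/-- the derivation on the full tensor power -/
def E02_T (k : ℕ) (M : Matrix ι ι ℝ) : Matrix (Fin k → ι) (Fin k → ι) ℝ :=
  ∑ l : Fin k, E02_KK (E02_u l M)

/-- permutation of the slots -/
def E02_Q {k : ℕ} (π : Equiv.Perm (Fin k)) : Matrix (Fin k → ι) (Fin k → ι) ℝ :=
  fun f g => if f ∘ π = g then 1 else 0

theorem E02_KK_mul {k : ℕ} (A B : Fin k → Matrix ι ι ℝ) :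
    E02_KK A * E02_KK B = E02_KK (fun m => A m * B m) := by
  ext f g
  simp only [Matrix.mul_apply, E02_KK, ← Finset.prod_mul_distrib]
  rw [Finset.prod_univ_sum, Fintype.piFinset_univ]

theorem E02_KK_one {k : ℕ} : E02_KK (fun _ : Fin k => (1 : Matrix ι ι ℝ)) = 1 := by
  ext f g
  simp only [E02_KK, Matrix.one_apply]
  by_cases h : f = g
  · subst h
    simp
  · rw [if_neg h]
    obtain ⟨m, hm⟩ : ∃ m, f m ≠ g m := by
      by_contra hc
      push Not at hc
      exact h (funext hc)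
    exact Finset.prod_eq_zero (Finset.mem_univ m) (if_neg hm)

theorem E02_KK_transpose {k : ℕ} (A : Fin k → Matrix ι ι ℝ) :
    (E02_KK A)ᵀ = E02_KK (fun m => (A m)ᵀ) := by
  ext f g
  simp only [Matrix.transpose_apply, E02_KK]

theorem E02_KK_Q {k : ℕ} (A : Fin k → Matrix ι ι ℝ) (π : Equiv.Perm (Fin k)) (f g : Fin k → ι) :
    (E02_KK A * (E02_Q π : Matrix (Fin k → ι) (Fin k → ι) ℝ)) f g =
      ∏ i, A (π i) (f (π i)) (g i) := by
  have h1 : ∀ h : Fin k → ι, (h ∘ π = g) ↔ h = g ∘ π.symm := by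
    intro h
    constructor
    · rintro rfl
      funext i
      simp
    · rintro rfl
      funext i
      simp
  simp only [Matrix.mul_apply, E02_Q, h1, mul_ite, mul_one, mul_zero, Finset.sum_ite_eq',
    Finset.sum_ite_eq, Finset.mem_univ, if_true, E02_KK]
  rw [← Equiv.prod_comp π]
  simp

theorem E02_Q_KK {k : ℕ} (A : Fin k → Matrix ι ι ℝ) (π : Equiv.Perm (Fin k)) (f g : Fin k → ι) :
    ((E02_Q π : Matrix (Fin k → ι) (Fin k → ι) ℝ) * E02_KK A) f g =
      ∏ i, A i (f (π i)) (g i) := by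
  simp only [Matrix.mul_apply, E02_Q, ite_mul, one_mul, zero_mul, Finset.sum_ite_eq,
    Finset.mem_univ, if_true, E02_KK, Function.comp_apply]

theorem E02_P_eq (k : ℕ) : Lam k (1 : Matrix ι ι ℝ) =
    ((k.factorial : ℝ))⁻¹ • ∑ π : Equiv.Perm (Fin k),
      (((Equiv.Perm.sign π : ℤˣ) : ℤ) : ℝ) • (E02_Q π : Matrix (Fin k → ι) (Fin k → ι) ℝ) := by
  ext f g
  simp only [Lam, Matrix.smul_apply, Matrix.sum_apply, smul_eq_mul, Matrix.det_apply']
  congr 1
  refine Finset.sum_congr rfl fun π _ => ?_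
  congr 1
  simp only [Matrix.submatrix_apply, Matrix.one_apply, E02_Q]
  by_cases h : f ∘ π = g
  · subst h
    simp
  · rw [if_neg h]
    obtain ⟨m, hm⟩ : ∃ m, f (π m) ≠ g m := by
      by_contra hc
      push Not at hc
      exact h (funext hc)
    exact Finset.prod_eq_zero (Finset.mem_univ m) (if_neg hm)

theorem E02_Lam_eq (k : ℕ) (A : Matrix ι ι ℝ) :
    Lam k A = E02_KK (fun _ => A) * Lam k 1 := by
  rw [E02_P_eq, Matrix.mul_smul, Finset.mul_sum]
  ext f g
  simp only [Lam, Matrix.smul_apply, Matrix.sum_apply, smul_eq_mul, Matrix.det_apply',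
    Matrix.mul_smul, E02_KK_Q, Matrix.submatrix_apply]

theorem E02_dLam_eq (k : ℕ) (M : Matrix ι ι ℝ) :
    dLam k M = E02_T k M * Lam k 1 := by
  rw [E02_P_eq, Matrix.mul_smul, Finset.mul_sum, E02_T]
  ext f g
  simp only [dLam, Matrix.smul_apply, Matrix.sum_apply, smul_eq_mul, Matrix.det_apply',
    Matrix.mul_smul, Finset.sum_mul, E02_KK_Q]
  congr 1
  rw [Finset.sum_comm]
  apply Finset.sum_congr rfl
  intro π _
  apply Finset.sum_congr rfl
  intro l _
  congr 1
  apply Finset.prod_congr rfl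
  intro i _
  rw [Matrix.updateRow_apply]
  by_cases h : π i = l
  · subst h
    simp [E02_u]
  · simp [E02_u, h]

theorem E02_KK_P_comm (k : ℕ) (A : Fin k → Matrix ι ι ℝ)
    (hA : ∀ π : Equiv.Perm (Fin k), A ∘ π = A) : E02_KK A * Lam k 1 = Lam k 1 * E02_KK A := by
  rw [E02_P_eq, Matrix.mul_smul, Matrix.smul_mul, Finset.mul_sum, Finset.sum_mul]
  congr 1
  refine Finset.sum_congr rfl fun π _ => ?_
  rw [Matrix.mul_smul, Matrix.smul_mul]
  congr 1
  ext f g
  rw [E02_KK_Q, E02_Q_KK]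
  refine Finset.prod_congr rfl fun i _ => ?_
  have := congrFun (hA π) i
  simp only [Function.comp_apply] at this
  rw [this]

theorem E02_K_P_comm (k : ℕ) (A : Matrix ι ι ℝ) :
    E02_KK (fun _ : Fin k => A) * Lam k 1 = Lam k 1 * E02_KK (fun _ => A) :=
  E02_KK_P_comm k _ (fun _ => rfl)

theorem E02_T_P_comm (k : ℕ) (M : Matrix ι ι ℝ) :
    E02_T k M * Lam k 1 = Lam k 1 * E02_T k M := by
  rw [E02_P_eq, Matrix.mul_smul, Matrix.smul_mul, Finset.mul_sum, Finset.sum_mul]
  congr 1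
  refine Finset.sum_congr rfl fun π _ => ?_
  rw [Matrix.mul_smul, Matrix.smul_mul]
  congr 1
  rw [E02_T, Finset.sum_mul, Finset.mul_sum]
  ext f g
  simp only [Matrix.sum_apply, E02_KK_Q, E02_Q_KK]
  rw [← Equiv.sum_comp π]
  refine Finset.sum_congr rfl fun l _ => ?_
  refine Finset.prod_congr rfl fun i _ => ?_
  simp [E02_u]

theorem E02_PP (k : ℕ) : Lam k (1 : Matrix ι ι ℝ) * Lam k 1 = Lam k 1 := by
  rw [← Lam_mul, one_mul]

theorem E02_KK_u_lin {k : ℕ} (l : Fin k) (a b : ℝ) (M M' : Matrix ι ι ℝ) :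
    E02_KK (E02_u l (a • M + b • M')) = a • E02_KK (E02_u l M) + b • E02_KK (E02_u l M') := by
  ext f g
  simp only [E02_KK, Matrix.add_apply, Matrix.smul_apply, smul_eq_mul]
  have key : ∀ X : Matrix ι ι ℝ, ∏ m, E02_u l X m (f m) (g m) =
      X (f l) (g l) * ∏ m ∈ Finset.univ.erase l, (1 : Matrix ι ι ℝ) (f m) (g m) := by
    intro X
    rw [← Finset.mul_prod_erase Finset.univ _ (Finset.mem_univ l)]
    congr 1
    · simp [E02_u]
    · refine Finset.prod_congr rfl fun m hm => ?_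
      rw [E02_u, if_neg (Finset.ne_of_mem_erase hm)]
  rw [key, key, key]
  simp only [Matrix.add_apply, Matrix.smul_apply, smul_eq_mul]
  ring

theorem E02_T_lin (k : ℕ) (a b : ℝ) (M M' : Matrix ι ι ℝ) :
    E02_T k (a • M + b • M') = a • E02_T k M + b • E02_T k M' := by
  simp only [E02_T, E02_KK_u_lin, Finset.sum_add_distrib, Finset.smul_sum]

theorem E02_u_mul {k : ℕ} (l : Fin k) (M M' : Matrix ι ι ℝ) :
    E02_KK (E02_u l M) * E02_KK (E02_u l M') = E02_KK (E02_u l (M * M')) := by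
  rw [E02_KK_mul]
  congr 1
  funext m
  by_cases h : m = l <;> simp [E02_u, h]

theorem E02_u_comm {k : ℕ} (l l' : Fin k) (h : l ≠ l') (M M' : Matrix ι ι ℝ) :
    E02_KK (E02_u l M) * E02_KK (E02_u l' M') = E02_KK (E02_u l' M') * E02_KK (E02_u l M) := by
  rw [E02_KK_mul, E02_KK_mul]
  congr 1
  funext m
  by_cases h1 : m = l
  · have h2 : m ≠ l' := fun h2 => h (h1.symm.trans h2)
    simp [E02_u, h1, h2, h]
  · by_cases h2 : m = l'
    · simp [E02_u, h1, h2, Ne.symm h]
    · simp [E02_u, h1, h2]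

theorem E02_T_lie (k : ℕ) (M M' : Matrix ι ι ℝ) :
    E02_T k (M * M' - M' * M) = E02_T k M * E02_T k M' - E02_T k M' * E02_T k M := by
  have h0 : M * M' - M' * M = (1 : ℝ) • (M * M') + (-1 : ℝ) • (M' * M) := by
    simp [sub_eq_add_neg]
  have h1 : E02_T k M * E02_T k M' = ∑ l : Fin k, ∑ l' : Fin k,
      E02_KK (E02_u l M) * E02_KK (E02_u l' M') := by
    rw [E02_T, E02_T, Finset.sum_mul_sum]
  have h2 : E02_T k M' * E02_T k M = ∑ l : Fin k, ∑ l' : Fin k,
      E02_KK (E02_u l' M') * E02_KK (E02_u l M) := by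
    rw [E02_T, E02_T, Finset.sum_mul_sum, Finset.sum_comm]
  rw [h0, E02_T_lin, h1, h2, ← Finset.sum_sub_distrib]
  have h3 : ∀ l : Fin k, (∑ l' : Fin k, E02_KK (E02_u l M) * E02_KK (E02_u l' M')) -
      (∑ l' : Fin k, E02_KK (E02_u l' M') * E02_KK (E02_u l M)) =
      E02_KK (E02_u l (M * M')) - E02_KK (E02_u l (M' * M)) := by
    intro l
    rw [← Finset.sum_sub_distrib, Finset.sum_eq_single l]
    · rw [E02_u_mul, E02_u_mul]
    · intro l' _ hl'
      rw [E02_u_comm l l' (Ne.symm hl'), sub_self]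
    · intro h
      exact absurd (Finset.mem_univ l) h
  rw [Finset.sum_congr rfl fun l _ => h3 l, Finset.sum_sub_distrib, E02_T, E02_T]
  simp [sub_eq_add_neg]

theorem E02_T_transpose (k : ℕ) (M : Matrix ι ι ℝ) : (E02_T k M)ᵀ = E02_T k Mᵀ := by
  rw [E02_T, E02_T, Matrix.transpose_sum]
  refine Finset.sum_congr rfl fun l _ => ?_
  rw [E02_KK_transpose]
  congr 1
  funext m
  by_cases h : m = l <;> simp [E02_u, h]

/-- `X ↦ KK (u l X)` as a ring homomorphism -/
def E02_phi {k : ℕ} (l : Fin k) :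
    Matrix ι ι ℝ →+* Matrix (Fin k → ι) (Fin k → ι) ℝ where
  toFun X := E02_KK (E02_u l X)
  map_one' := by
    rw [← E02_KK_one]
    congr 1
    funext m
    simp [E02_u]
  map_mul' X Y := (E02_u_mul l X Y).symm
  map_zero' := by
    have := E02_KK_u_lin l 0 0 (0 : Matrix ι ι ℝ) 0
    simpa using this
  map_add' X Y := by
    have := E02_KK_u_lin l 1 1 X Y
    simpa using this

theorem E02_phi_continuous {k : ℕ} (l : Fin k) :
    Continuous (E02_phi l : Matrix ι ι ℝ → Matrix (Fin k → ι) (Fin k → ι) ℝ) := by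
  refine continuous_matrix fun f g => ?_
  change Continuous fun X : Matrix ι ι ℝ => ∏ m, E02_u l X m (f m) (g m)
  refine continuous_finsetProd _ fun m _ => ?_
  by_cases h : m = l
  · simp only [E02_u, h, if_true]
    exact continuous_id.matrix_elem _ _
  · simp only [E02_u, h, if_false]
    exact continuous_const

set_option backward.isDefEq.respectTransparency false in
open scoped Matrix.Norms.Operator in
theorem E02_hasSum_exp {n : Type} [Fintype n] [DecidableEq n] (T : Matrix n n ℝ) :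
    HasSum (fun j : ℕ => ((j.factorial : ℝ)⁻¹) • T ^ j) (NormedSpace.exp T) :=
  NormedSpace.exp_series_hasSum_exp' (𝕂 := ℝ) T

theorem E02_exp_phi {k : ℕ} (l : Fin k) (M : Matrix ι ι ℝ) :
    NormedSpace.exp (E02_KK (E02_u l M)) = E02_KK (E02_u l (NormedSpace.exp M)) := by
  have h1 := (E02_hasSum_exp M).map (E02_phi l) (E02_phi_continuous l)
  have h2 := E02_hasSum_exp (E02_KK (E02_u l M))
  have h3 : (E02_phi l) ∘ (fun j : ℕ => ((j.factorial : ℝ)⁻¹) • M ^ j) =
      fun j : ℕ => ((j.factorial : ℝ)⁻¹) • (E02_KK (E02_u l M)) ^ j := by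
    funext j
    have h4 : (E02_phi l) (M ^ j) = (E02_KK (E02_u l M)) ^ j := map_pow (E02_phi l) M j
    have h5 := E02_KK_u_lin l ((j.factorial : ℝ)⁻¹) 0 (M ^ j) 0
    simp only [zero_smul, add_zero] at h5
    rw [← h4]
    exact h5
  rw [h3] at h1
  exact h2.unique h1

theorem E02_exp_T (k : ℕ) (M : Matrix ι ι ℝ) :
    NormedSpace.exp (E02_T k M) = E02_KK (fun _ => NormedSpace.exp M) := by
  have key : ∀ s : Finset (Fin k), NormedSpace.exp (∑ l ∈ s, E02_KK (E02_u l M)) =
      E02_KK (fun m => if m ∈ s then NormedSpace.exp M else 1) := by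
    intro s
    induction s using Finset.induction_on with
    | empty =>
      simp [E02_KK_one]
    | insert a s ha ih =>
      rw [Finset.sum_insert ha, Matrix.exp_add_of_commute, ih, E02_exp_phi, E02_KK_mul]
      · congr 1
        funext m
        by_cases h1 : m = a
        · subst h1
          simp [E02_u, ha]
        · simp [E02_u, h1]
      · refine Commute.sum_right _ _ _ fun l hl => ?_
        exact E02_u_comm a l (fun h => ha (h ▸ hl)) M M
  have := key Finset.univ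
  simpa [E02_T] using this

theorem E02_exp_P {n : Type} [Fintype n] [DecidableEq n] (T P : Matrix n n ℝ)
    (hc : T * P = P * T) (hP : P * P = P) :
    NormedSpace.exp T * P = NormedSpace.exp (T * P) * P := by
  have hpow : ∀ j : ℕ, T ^ j * P = (T * P) ^ j * P := by
    intro j
    induction j with
    | zero => simp
    | succ j ih =>
      rw [pow_succ', pow_succ', mul_assoc, mul_assoc, ← ih]
      have h2 : P * (T ^ j * P) = T ^ j * P := by
        have h3 : Commute P (T ^ j) := (Commute.pow_right (show Commute P T from hc.symm) j)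
        rw [← mul_assoc, h3.eq, mul_assoc, hP]
      rw [mul_assoc, h2]
  have h1 := (E02_hasSum_exp T).mul_right P
  have h2 := (E02_hasSum_exp (T * P)).mul_right P
  have h3 : (fun n : ℕ => ((n.factorial : ℝ)⁻¹ • T ^ n) * P) =
      fun n : ℕ => ((n.factorial : ℝ)⁻¹ • (T * P) ^ n) * P := by
    funext j
    rw [smul_mul_assoc, smul_mul_assoc, hpow]
  rw [h3] at h1
  exact h1.unique h2


theorem dLam_add (k : ℕ) (M M' : Matrix ι ι ℝ) : dLam k (M + M') = dLam k M + dLam k M' := by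
  rw [E02_dLam_eq, E02_dLam_eq, E02_dLam_eq]
  have := E02_T_lin k 1 1 M M'
  simp only [one_smul] at this
  rw [this, add_mul]

theorem dLam_smul (k : ℕ) (c : ℝ) (M : Matrix ι ι ℝ) : dLam k (c • M) = c • dLam k M := by
  rw [E02_dLam_eq, E02_dLam_eq]
  have := E02_T_lin k c 0 M 0
  simp only [zero_smul, add_zero] at this
  rw [this, Matrix.smul_mul]

theorem dLam_lie (k : ℕ) (M M' : Matrix ι ι ℝ) :
    dLam k (M * M' - M' * M) = dLam k M * dLam k M' - dLam k M' * dLam k M := by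
  have h : ∀ X Y : Matrix ι ι ℝ, dLam k X * dLam k Y = E02_T k X * E02_T k Y * Lam k 1 := by
    intro X Y
    rw [E02_dLam_eq, E02_dLam_eq, mul_assoc, ← mul_assoc (Lam k 1), ← E02_T_P_comm, mul_assoc,
      E02_PP, ← mul_assoc]
  rw [h, h, E02_dLam_eq, E02_T_lie, sub_mul]

theorem dLam_transpose (k : ℕ) (M : Matrix ι ι ℝ) : (dLam k M)ᵀ = dLam k Mᵀ := by
  rw [E02_dLam_eq, E02_dLam_eq, Matrix.transpose_mul, Lam_transpose, Matrix.transpose_one,
    E02_T_transpose, E02_T_P_comm]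

theorem dLam_proj (k : ℕ) (M : Matrix ι ι ℝ) :
    Lam k 1 * dLam k M = dLam k M ∧ dLam k M * Lam k 1 = dLam k M := by
  constructor
  · rw [E02_dLam_eq, ← mul_assoc, ← E02_T_P_comm, mul_assoc, E02_PP]
  · rw [E02_dLam_eq, mul_assoc, E02_PP]

theorem Lam_exp (k : ℕ) (M : Matrix ι ι ℝ) :
    Lam k (NormedSpace.exp M) = NormedSpace.exp (dLam k M) * Lam k 1 := by
  rw [E02_Lam_eq, ← E02_exp_T, E02_dLam_eq]
  exact E02_exp_P _ _ (E02_T_P_comm k M) (E02_PP k)

theorem Lam_conj (k : ℕ) (A A' M : Matrix ι ι ℝ) (h : A * A' = 1) :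
    Lam k A * dLam k M * Lam k A' = dLam k (A * M * A') := by
  have h1 : E02_KK (fun _ : Fin k => A) * E02_T k M * E02_KK (fun _ => A') =
      E02_T k (A * M * A') := by
    rw [E02_T, E02_T, Finset.mul_sum, Finset.sum_mul]
    refine Finset.sum_congr rfl fun l _ => ?_
    rw [E02_KK_mul, E02_KK_mul]
    congr 1
    funext m
    by_cases hm : m = l
    · simp [E02_u, hm]
    · simp [E02_u, hm, h]
  rw [E02_Lam_eq k A, E02_Lam_eq k A', E02_dLam_eq, E02_dLam_eq, ← h1]
  rw [mul_assoc (E02_KK fun _ => A), ← mul_assoc (Lam k 1), ← E02_T_P_comm,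
    mul_assoc (E02_T k M), E02_PP, mul_assoc (E02_KK fun _ => A), mul_assoc (E02_T k M),
    ← mul_assoc (Lam k 1), ← E02_K_P_comm, mul_assoc (E02_KK fun _ => A'), E02_PP]
  simp only [mul_assoc]

end SBX
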