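import Mathlib

/-!
# Row SBX-E03 : eigenvalues of the neutral element

Let `h, x, y` be square matrices over `ℂ` with `hx - xh = 2x`, `h = xy - yx` and `x^{n+1} = 0`.  Then every
eigenvalue of `h` has real part `≤ n`.

PROOF.  (1) Let `x v = 0` and `v = x^j z`.  From `hx^i = x^i h + 2i x^i`:
`y x^j = x^j y - ∑_{i<j} x^i h x^{j-1-i} = x^j y - j x^{j-1} h - j(j-1) x^{j-1}`, so (using `x v = x^{j+1}z = 0`)
`h v = x y v - y x v = x y x^j z = x^{j+1} y z - j x^j h z - j(j-1) x^j z`, and `x^j h z = (h - 2j) x^j z = h v - 2j v`; hence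
`(j+1) h v = x^{j+1} y z + (2j² - j(j-1)) v = x^{j+1} y z + j(j+1) v`, i.e. `h v = j v + x^{j+1} (y z)/(j+1)`.
(2) Let `v ≠ 0`, `h v = c v`, and `x v = 0`.  Let `j` be maximal with `v ∈ range x^j + …`: precisely consider
`N_j = ker x ∩ range x^j` (decreasing, `h`-stable: `h x = x h + 2 x`, `h x^j = x^j(h + 2j)`), `N_{n+1} = 0`.  Let
`j` be maximal with `v ∈ N_j` (`j ≤ n`).  By (1) `(h - j) v ∈ range x^{j+1}`, and `(h-j)v ∈ ker x`, so
`(c - j) v ∈ N_{j+1}`; as `v ∉ N_{j+1}`, `c = j`.  So `c = j ≤ n`.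
(3) General eigenvector `v ≠ 0`, `h v = c v`: let `i` be maximal with `x^i v ≠ 0`; `x^i v` is an eigenvector in
`ker x` with eigenvalue `c + 2i`.  So `c = j - 2i` with `j ≤ n`, `Re c ≤ n`.
-/

open scoped Matrix

noncomputable section

namespace SBX

theorem E03_hx {ι : Type} [Fintype ι] [DecidableEq ι] (h x : Matrix ι ι ℂ)
    (h1 : h * x - x * h = (2 : ℂ) • x) (i : ℕ) :
    h * x ^ i = x ^ i * h + (2 * (i : ℂ)) • x ^ i := by
  have h1' : h * x = x * h + (2 : ℂ) • x := by rw [← h1]; abel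
  induction i with
  | zero => simp
  | succ i ih =>
    rw [pow_succ, ← mul_assoc, ih, add_mul, mul_assoc (x ^ i) h x, h1', mul_add, ← mul_assoc,
      smul_mul_assoc, mul_smul_comm, ← pow_succ, add_assoc, ← add_smul]
    congr 2
    push_cast
    ring

theorem E03_yx {ι : Type} [Fintype ι] [DecidableEq ι] (h x y : Matrix ι ι ℂ)
    (h1 : h * x - x * h = (2 : ℂ) • x) (h2 : h = x * y - y * x) (j : ℕ) :
    y * x ^ (j + 1) = x ^ (j + 1) * y - ((j : ℂ) + 1) • (x ^ j * h) -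
      (((j : ℂ) + 1) * j) • x ^ j := by
  have h1' : h * x = x * h + (2 : ℂ) • x := by rw [← h1]; abel
  have h2' : y * x = x * y - h := by rw [h2]; abel
  induction j with
  | zero =>
    rw [zero_add, pow_one, pow_zero, h2', one_mul]
    simp
  | succ j ih =>
    rw [pow_succ x (j + 1), ← mul_assoc, ih, sub_mul, sub_mul, mul_assoc (x ^ (j + 1)) y x, h2',
      mul_sub, smul_mul_assoc, smul_mul_assoc, mul_assoc (x ^ j) h x, h1', mul_add,
      mul_smul_comm, ← mul_assoc (x ^ j) x h, ← pow_succ, ← mul_assoc, smul_add, smul_smul]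
    push_cast
    module

/-- the key computation -/
theorem E03_key {ι : Type} [Fintype ι] [DecidableEq ι] (h x y : Matrix ι ι ℂ)
    (h1 : h * x - x * h = (2 : ℂ) • x) (h2 : h = x * y - y * x) (j : ℕ) (z : ι → ℂ)
    (hz : x ^ (j + 1) *ᵥ z = 0) :
    ((j : ℂ) + 1) • (h *ᵥ (x ^ j *ᵥ z) - (j : ℂ) • (x ^ j *ᵥ z)) = x ^ (j + 1) *ᵥ (y *ᵥ z) := by
  have e1 := congrArg (fun A : Matrix ι ι ℂ => A *ᵥ z) (E03_yx h x y h1 h2 j)
  have e2 := congrArg (fun A : Matrix ι ι ℂ => A *ᵥ z) (E03_hx h x h1 j)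
  simp only [Matrix.sub_mulVec, Matrix.add_mulVec, Matrix.smul_mulVec,
    ← Matrix.mulVec_mulVec, hz, Matrix.mulVec_zero] at e1 e2
  rw [e2]
  have e3 : x ^ (j + 1) *ᵥ (y *ᵥ z) = ((j : ℂ) + 1) • (x ^ j *ᵥ (h *ᵥ z)) +
      (((j : ℂ) + 1) * j) • (x ^ j *ᵥ z) := by
    have := e1
    rw [eq_comm, sub_sub, sub_eq_zero] at this
    exact this
  rw [e3]
  module

theorem eig_le {ι : Type} [Fintype ι] [DecidableEq ι] (h x y : Matrix ι ι ℂ) (n : ℕ)
    (h1 : h * x - x * h = (2 : ℂ) • x) (h2 : h = x * y - y * x) (hn : x ^ (n + 1) = 0)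
    (c : ℂ) (v : ι → ℂ) (hv : v ≠ 0) (hc : h *ᵥ v = c • v) : c.re ≤ n := by
  classical
  -- the eigenvector in the kernel of `x`
  have hex : ∃ i : ℕ, x ^ (i + 1) *ᵥ v = 0 := ⟨n, by rw [hn, Matrix.zero_mulVec]⟩
  set i := Nat.find hex with hi
  have hi1 : x ^ (i + 1) *ᵥ v = 0 := Nat.find_spec hex
  have hi2 : x ^ i *ᵥ v ≠ 0 := by
    rcases Nat.eq_zero_or_pos i with h0 | hpos
    · rw [h0, pow_zero, Matrix.one_mulVec]; exact hv
    · intro hcon
      have := Nat.find_min hex (m := i - 1) (by omega)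
      apply this
      rw [Nat.sub_add_cancel hpos]
      exact hcon
  set u := x ^ i *ᵥ v with hu
  have hxu : x *ᵥ u = 0 := by
    rw [hu, Matrix.mulVec_mulVec, ← pow_succ']; exact hi1
  have hhu : h *ᵥ u = (c + 2 * i) • u := by
    have e2 := congrArg (fun A : Matrix ι ι ℂ => A *ᵥ v) (E03_hx h x h1 i)
    simp only [Matrix.add_mulVec, Matrix.smul_mulVec, ← Matrix.mulVec_mulVec] at e2
    rw [hu, e2, hc, Matrix.mulVec_smul, add_smul]
  -- the largest power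
  have hex2 : ∃ j : ℕ, ¬ ∃ z : ι → ℂ, x ^ (j + 1) *ᵥ z = u := by
    refine ⟨n, ?_⟩
    rintro ⟨z, hz⟩
    rw [hn, Matrix.zero_mulVec] at hz
    exact hi2 hz.symm
  set j := Nat.find hex2 with hj
  have hj1 : ¬ ∃ z : ι → ℂ, x ^ (j + 1) *ᵥ z = u := Nat.find_spec hex2
  have hjn : j ≤ n := by
    apply Nat.find_min' hex2
    rintro ⟨z, hz⟩
    rw [hn, Matrix.zero_mulVec] at hz
    exact hi2 hz.symm
  obtain ⟨z, hz⟩ : ∃ z : ι → ℂ, x ^ j *ᵥ z = u := by
    rcases Nat.eq_zero_or_pos j with h0 | hpos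
    · exact ⟨u, by rw [h0, pow_zero, Matrix.one_mulVec]⟩
    · have := Nat.find_min hex2 (m := j - 1) (by omega)
      rw [not_not, Nat.sub_add_cancel hpos] at this
      exact this
  have hz0 : x ^ (j + 1) *ᵥ z = 0 := by
    rw [pow_succ', ← Matrix.mulVec_mulVec, hz, hxu]
  have key := E03_key h x y h1 h2 j z hz0
  rw [hz, hhu, ← sub_smul, smul_smul] at key
  have hcj : c + 2 * i = j := by
    by_contra hne
    apply hj1
    have hne' : ((j : ℂ) + 1) * (c + 2 * i - j) ≠ 0 := by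
      apply mul_ne_zero
      · exact_mod_cast Nat.succ_ne_zero j
      · exact sub_ne_zero.mpr hne
    refine ⟨(((j : ℂ) + 1) * (c + 2 * i - j))⁻¹ • (y *ᵥ z), ?_⟩
    rw [Matrix.mulVec_smul, ← key, smul_smul, inv_mul_cancel₀ hne', one_smul]
  have hre : c.re + 2 * (i : ℝ) = j := by
    have := congrArg Complex.re hcj
    simpa using this
  have hjn' : (j : ℝ) ≤ n := by exact_mod_cast hjn
  have hi0 : (0 : ℝ) ≤ i := by positivity
  linarith

end SBX
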