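import Mathlib

/-!
# Row SBX-E04 : growth of `exp(τM)`

Let `M` be a real square matrix all of whose complex eigenvalues have real part `≤ ν`.  Then for every
`δ > 0` the entries of `exp(τM)`, `τ ≥ 0`, are `≤ C e^{(ν+δ)τ}`.

PROOF.  Work in the Banach algebra of complex matrices (any of the normed ring structures, e.g.
`Matrix.linftyOpNormedRing`, `Matrix.linftyOpNormedAlgebra`).  Let `E = exp(M)` (complexified;
`exp` commutes with `Matrix.map` of the embedding).  If `μ ∈ spectrum E` there is `v ≠ 0` with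
`E v = μ v`; `W = ker(E - μ) ≠ 0` is stable under `M` (which commutes with `E`), so `M` has an eigenvector
`w ∈ W`, `M w = λ w`, and then `E w = e^λ w`, `μ = e^λ`, `|μ| = e^{Re λ} ≤ e^ν`.  So the spectral radius
of `E` is `≤ e^ν` and by Gelfand's formula (`spectrum.pow_nnnorm_pow_one_div_tendsto_nhds_spectralRadius`)
`‖E^j‖ ≤ e^{(ν+δ)j}` for `j ≥ j₀`, so `‖E^j‖ ≤ C₁ e^{(ν+δ)j}` for all `j ∈ ℕ`.  For `τ ≥ 0`, `j = ⌊τ⌋`:
`exp(τM) = E^j exp((τ-j)M)` and `‖exp((τ-j)M)‖ ≤ e^{‖M‖}`; `e^{(ν+δ)j} ≤ e^{(ν+δ)τ} e^{|ν+δ|}`.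
-/

open scoped Matrix

noncomputable section

namespace SBX

open Filter Topology in
private theorem E04_growth {A : Type} [NormedRing A] [NormedAlgebra ℂ A] [CompleteSpace A]
    (x : A) (ν : ℝ)
    (h : spectralRadius ℂ (NormedSpace.exp x) ≤ ENNReal.ofReal (Real.exp ν))
    (δ : ℝ) (hδ : 0 < δ) :
    ∃ C : ℝ, 0 < C ∧ ∀ τ : ℝ, 0 ≤ τ →
      ‖NormedSpace.exp ((τ : ℂ) • x)‖ ≤ C * Real.exp ((ν + δ) * τ) := by
  let _ : NormedAlgebra ℚ A := NormedAlgebra.restrictScalars ℚ ℂ A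
  set E : A := NormedSpace.exp x with hE
  set b : ℝ := Real.exp (ν + δ) with hb
  have hb0 : 0 < b := Real.exp_pos _
  -- Gelfand
  have h1 := spectrum.pow_norm_pow_one_div_tendsto_nhds_spectralRadius E
  have h2 : spectralRadius ℂ E < ENNReal.ofReal b :=
    lt_of_le_of_lt h ((ENNReal.ofReal_lt_ofReal_iff hb0).2 (Real.exp_lt_exp.2 (by linarith)))
  have h3 := (h1.eventually (gt_mem_nhds h2)).and (eventually_ge_atTop 1)
  obtain ⟨n0, hn0⟩ := eventually_atTop.1 h3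
  have h4 : ∀ n ≥ n0, ‖E ^ n‖ ≤ b ^ n := by
    intro n hn
    obtain ⟨h5, h6⟩ := hn0 n hn
    have h7 : ‖E ^ n‖ ^ (1 / n : ℝ) < b := (ENNReal.ofReal_lt_ofReal_iff hb0).1 h5
    have h8 : (‖E ^ n‖ ^ (1 / n : ℝ)) ^ n ≤ b ^ n :=
      pow_le_pow_left₀ (Real.rpow_nonneg (norm_nonneg _) _) h7.le n
    have h9 : (‖E ^ n‖ ^ (1 / n : ℝ)) ^ n = ‖E ^ n‖ := by
      rw [← Real.rpow_natCast, ← Real.rpow_mul (norm_nonneg _), one_div,
        inv_mul_cancel₀ (Nat.cast_ne_zero.2 (by omega)), Real.rpow_one]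
    rwa [h9] at h8
  have h5 : ∃ C₁ : ℝ, 0 < C₁ ∧ ∀ n : ℕ, ‖E ^ n‖ ≤ C₁ * b ^ n := by
    refine ⟨1 + ∑ k ∈ Finset.range n0, ‖E ^ k‖ / b ^ k, ?_, ?_⟩
    · have : 0 ≤ ∑ k ∈ Finset.range n0, ‖E ^ k‖ / b ^ k :=
        Finset.sum_nonneg fun k _ => by positivity
      linarith
    · intro n
      have h0 : 0 ≤ ∑ k ∈ Finset.range n0, ‖E ^ k‖ / b ^ k :=
        Finset.sum_nonneg fun k _ => by positivity
      have hbn : 0 < b ^ n := by positivity
      by_cases hn : n0 ≤ n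
      · have := h4 n hn
        nlinarith
      · have h6 : ‖E ^ n‖ / b ^ n ≤ ∑ k ∈ Finset.range n0, ‖E ^ k‖ / b ^ k :=
          Finset.single_le_sum (f := fun k => ‖E ^ k‖ / b ^ k) (fun k _ => by positivity)
            (Finset.mem_range.2 (by omega))
        have h7 : ‖E ^ n‖ / b ^ n ≤ 1 + ∑ k ∈ Finset.range n0, ‖E ^ k‖ / b ^ k := by linarith
        exact (div_le_iff₀ hbn).1 h7
  obtain ⟨C₁, hC₁, h6⟩ := h5
  -- the bound on the unit interval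
  have h7 : ∃ C₂ : ℝ, ∀ s ∈ Set.Icc (0 : ℝ) 1, ‖NormedSpace.exp ((s : ℂ) • x)‖ ≤ C₂ := by
    apply IsCompact.exists_bound_of_continuousOn isCompact_Icc
    have hc : Continuous fun s : ℝ => NormedSpace.exp ((s : ℂ) • x) :=
      NormedSpace.exp_continuous.comp (by fun_prop)
    exact hc.continuousOn
  obtain ⟨C₂, h8⟩ := h7
  have hC₂ : 0 ≤ C₂ := le_trans (norm_nonneg _) (h8 0 (by simp))
  refine ⟨C₁ * (C₂ + 1) * Real.exp |ν + δ|, by positivity, ?_⟩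
  intro τ hτ
  set j : ℕ := ⌊τ⌋₊ with hj
  have hj1 : (j : ℝ) ≤ τ := Nat.floor_le hτ
  have hj2 : τ < j + 1 := Nat.lt_floor_add_one τ
  have e1 : (τ : ℂ) • x = j • x + ((τ - j : ℝ) : ℂ) • x := by
    rw [← Nat.cast_smul_eq_nsmul ℂ j x, ← add_smul]
    push_cast
    congr 1
    ring
  have e2 : NormedSpace.exp ((τ : ℂ) • x) =
      E ^ j * NormedSpace.exp (((τ - j : ℝ) : ℂ) • x) := by
    rw [e1, NormedSpace.exp_add_of_commute, NormedSpace.exp_nsmul]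
    exact ((Commute.refl x).smul_left j).smul_right _
  have e3 : b ^ j ≤ Real.exp |ν + δ| * Real.exp ((ν + δ) * τ) := by
    rw [hb, ← Real.exp_nat_mul, ← Real.exp_add]
    apply Real.exp_le_exp.2
    have h9 : |(ν + δ) * (j - τ)| ≤ |ν + δ| * 1 := by
      rw [abs_mul]
      apply mul_le_mul_of_nonneg_left _ (abs_nonneg _)
      rw [abs_le]
      constructor <;> linarith
    have h10 := le_abs_self ((ν + δ) * (j - τ))
    nlinarith
  rw [e2]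
  calc ‖E ^ j * NormedSpace.exp (((τ - j : ℝ) : ℂ) • x)‖
      ≤ ‖E ^ j‖ * ‖NormedSpace.exp (((τ - j : ℝ) : ℂ) • x)‖ := norm_mul_le _ _
    _ ≤ (C₁ * b ^ j) * (C₂ + 1) := by
        apply mul_le_mul (h6 j) _ (norm_nonneg _) (by positivity)
        have := h8 (τ - j) ⟨by linarith, by linarith⟩
        linarith
    _ ≤ (C₁ * (Real.exp |ν + δ| * Real.exp ((ν + δ) * τ))) * (C₂ + 1) := by
        apply mul_le_mul_of_nonneg_right _ (by linarith)
        exact mul_le_mul_of_nonneg_left e3 hC₁.le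
    _ = C₁ * (C₂ + 1) * Real.exp |ν + δ| * Real.exp ((ν + δ) * τ) := by ring

section

open scoped Matrix.Norms.Operator

private theorem E04_pow {ι : Type} [Fintype ι] [DecidableEq ι] (M : Matrix ι ι ℂ) (c : ℂ)
    (w : ι → ℂ) (h : M *ᵥ w = c • w) (n : ℕ) : (M ^ n) *ᵥ w = c ^ n • w := by
  induction n with
  | zero => simp
  | succ n ih =>
    rw [pow_succ, ← Matrix.mulVec_mulVec, h, Matrix.mulVec_smul, ih, smul_smul, pow_succ]
    congr 1
    ring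

open scoped Nat in
private theorem E04_exp_eig {ι : Type} [Fintype ι] [DecidableEq ι] (M : Matrix ι ι ℂ) (c : ℂ)
    (w : ι → ℂ) (h : M *ᵥ w = c • w) : (NormedSpace.exp M) *ᵥ w = Complex.exp c • w := by
  have h1 := NormedSpace.exp_series_hasSum_exp' (𝕂 := ℂ) M
  have hc : Continuous fun N : Matrix ι ι ℂ => N *ᵥ w := by fun_prop
  have h2 := h1.map (Matrix.mulVecBilin ℂ ℂ |>.flip w) (by exact hc)
  have h3 : HasSum (fun n : ℕ => ((n ! : ℂ)⁻¹ * c ^ n) • w) (Complex.exp c • w) := by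
    rw [Complex.exp_eq_exp_ℂ]
    have h4 := NormedSpace.exp_series_hasSum_exp' (𝕂 := ℂ) c
    simp only [smul_eq_mul] at h4
    exact h4.smul_const w
  have h5 : (fun n : ℕ => ((n ! : ℂ)⁻¹ * c ^ n) • w) =
      (Matrix.mulVecBilin ℂ ℂ |>.flip w) ∘ (fun n : ℕ => ((n ! : ℂ)⁻¹) • M ^ n) := by
    funext n
    simp only [Function.comp]
    rw [map_smul]
    change _ = ((n ! : ℂ)⁻¹) • ((M ^ n) *ᵥ w)
    rw [E04_pow M c w h n, smul_smul]
  rw [h5] at h3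
  exact h2.unique h3

private theorem E04_spec {ι : Type} [Fintype ι] [DecidableEq ι] (M : Matrix ι ι ℂ) (ν : ℝ)
    (h : ∀ (c : ℂ) (v : ι → ℂ), v ≠ 0 → M *ᵥ v = c • v → c.re ≤ ν) :
    spectralRadius ℂ (NormedSpace.exp M) ≤ ENNReal.ofReal (Real.exp ν) := by
  refine iSup₂_le fun k hk => ?_
  have hv : ∃ v : ι → ℂ, v ≠ 0 ∧ (NormedSpace.exp M) *ᵥ v = k • v := by
    rw [spectrum.mem_iff, Matrix.isUnit_iff_isUnit_det, isUnit_iff_ne_zero, not_not] at hk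
    obtain ⟨v, hv, hv2⟩ := Matrix.exists_mulVec_eq_zero_iff.2 hk
    refine ⟨v, hv, ?_⟩
    rw [Matrix.sub_mulVec, Algebra.algebraMap_eq_smul_one, Matrix.smul_mulVec,
      Matrix.one_mulVec] at hv2
    exact (sub_eq_zero.1 hv2).symm
  obtain ⟨v, hv0, hv1⟩ := hv
  have hcomm : M * NormedSpace.exp M = NormedSpace.exp M * M :=
    ((Commute.refl M).exp_right).eq
  set W : Submodule ℂ (ι → ℂ) :=
    LinearMap.ker (Matrix.toLin' (NormedSpace.exp M) - k • LinearMap.id) with hW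
  have hmem : ∀ w : ι → ℂ, w ∈ W ↔ (NormedSpace.exp M) *ᵥ w = k • w := by
    intro w
    rw [hW, LinearMap.mem_ker, LinearMap.sub_apply, LinearMap.smul_apply, LinearMap.id_apply,
      Matrix.toLin'_apply, sub_eq_zero]
  have hst : ∀ w ∈ W, Matrix.toLin' M w ∈ W := by
    intro w hw
    rw [hmem] at hw ⊢
    rw [Matrix.toLin'_apply, Matrix.mulVec_mulVec, ← hcomm, ← Matrix.mulVec_mulVec, hw,
      Matrix.mulVec_smul]
  have : Nontrivial W :=
    ⟨⟨⟨v, (hmem v).2 hv1⟩, 0, fun h0 => hv0 (congrArg Subtype.val h0)⟩⟩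
  obtain ⟨c, hc⟩ := Module.End.exists_eigenvalue ((Matrix.toLin' M).restrict hst)
  obtain ⟨w, hw⟩ := hc.exists_hasEigenvector
  have hw0 : (w : ι → ℂ) ≠ 0 := fun h0 => hw.2 (Subtype.ext h0)
  have hw1 : M *ᵥ (w : ι → ℂ) = c • (w : ι → ℂ) := by
    have := congrArg Subtype.val hw.apply_eq_smul
    rw [LinearMap.coe_restrict_apply, Matrix.toLin'_apply] at this
    exact this
  have hw2 := E04_exp_eig M c w hw1
  have hw3 := (hmem w).1 w.2
  rw [hw2] at hw3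
  have hk1 : Complex.exp c = k := by
    have : (Complex.exp c - k) • (w : ι → ℂ) = 0 := by rw [sub_smul, hw3, sub_self]
    exact sub_eq_zero.1 ((smul_eq_zero.1 this).resolve_right hw0)
  have hk2 : ‖k‖ ≤ Real.exp ν := by
    rw [← hk1, Complex.norm_exp]
    exact Real.exp_le_exp.2 (h c w hw0 hw1)
  rw [← ENNReal.ofReal_coe_nnreal, coe_nnnorm]
  exact ENNReal.ofReal_le_ofReal hk2

private theorem E04_entry {ι : Type} [Fintype ι] [DecidableEq ι] (M : Matrix ι ι ℂ) (i j : ι) :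
    ‖M i j‖ ≤ ‖M‖ := by
  have h1 : ‖M i j‖₊ ≤ ‖M‖₊ := by
    rw [Matrix.linfty_opNNNorm_def]
    exact (Finset.single_le_sum (f := fun j => ‖M i j‖₊) (fun _ _ => zero_le)
      (Finset.mem_univ j)).trans (Finset.le_sup (f := fun i => ∑ j, ‖M i j‖₊) (Finset.mem_univ i))
  exact h1

private theorem E04_map {ι : Type} [Fintype ι] [DecidableEq ι] (M : Matrix ι ι ℝ) :
    (NormedSpace.exp M).map ((↑) : ℝ → ℂ) = NormedSpace.exp (M.map ((↑) : ℝ → ℂ)) := by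
  have hc : Continuous (Complex.ofRealHom.mapMatrix : Matrix ι ι ℝ →+* Matrix ι ι ℂ) :=
    Continuous.matrix_map continuous_id Complex.continuous_ofReal
  exact NormedSpace.map_exp (Complex.ofRealHom.mapMatrix : Matrix ι ι ℝ →+* Matrix ι ι ℂ) hc M

private theorem E04_main {ι : Type} [Fintype ι] [DecidableEq ι] (M : Matrix ι ι ℝ) (ν : ℝ)
    (h : ∀ (c : ℂ) (v : ι → ℂ), v ≠ 0 → (M.map ((↑) : ℝ → ℂ)) *ᵥ v = c • v → c.re ≤ ν)
    (δ : ℝ) (hδ : 0 < δ) :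
    ∃ C : ℝ, 0 < C ∧ ∀ τ : ℝ, 0 ≤ τ → ∀ i j : ι,
      |(NormedSpace.exp (τ • M)) i j| ≤ C * Real.exp ((ν + δ) * τ) := by
  obtain ⟨C, hC, h1⟩ := E04_growth (M.map ((↑) : ℝ → ℂ)) ν (E04_spec _ ν h) δ hδ
  refine ⟨C, hC, fun τ hτ i j => ?_⟩
  have e : ((τ • M).map ((↑) : ℝ → ℂ)) = (τ : ℂ) • (M.map ((↑) : ℝ → ℂ)) := by
    ext a b
    simp
  have h2 := h1 τ hτ
  rw [← e] at h2
  have h2' : ‖(NormedSpace.exp (τ • M)).map ((↑) : ℝ → ℂ)‖ ≤ C * Real.exp ((ν + δ) * τ) := by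
    rw [E04_map]
    exact h2
  have h3 := E04_entry ((NormedSpace.exp (τ • M)).map ((↑) : ℝ → ℂ)) i j
  rw [Matrix.map_apply, Complex.norm_real, Real.norm_eq_abs] at h3
  exact h3.trans h2'

end

theorem exp_growth {ι : Type} [Fintype ι] [DecidableEq ι] (M : Matrix ι ι ℝ) (ν : ℝ)
    (h : ∀ (c : ℂ) (v : ι → ℂ), v ≠ 0 → (M.map ((↑) : ℝ → ℂ)) *ᵥ v = c • v → c.re ≤ ν)
    (δ : ℝ) (hδ : 0 < δ) :
    ∃ C : ℝ, 0 < C ∧ ∀ τ : ℝ, 0 ≤ τ → ∀ i j : ι,
      |(NormedSpace.exp (τ • M)) i j| ≤ C * Real.exp ((ν + δ) * τ) :=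
  E04_main M ν h δ hδ

end SBX
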