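import Mathlib

/-!
# Row SBX-E05 : Jordan basis of a nilpotent matrix, with an `sl₂` structure

For a nilpotent real matrix `M` (index type `ι`) there are an invertible matrix `Q`, a Jordan type
`b : κ → ℕ` (`κ` finite, all `b i ≥ 1`) and a bijection `ι ≃ Σ i : κ, Fin (b i)` such that in the new basis
`f_{i,j}`, `0 ≤ j < b i`: `M f_{i,j} = f_{i,j+1}` for `j + 1 < b i` and `M f_{i,b_i-1} = 0`.

PROOF.  The `ℝ[X]`-module `ι → ℝ` with `X` acting by `M` is finitely generated and torsion (killed by a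
power of `X`), so by the structure theorem over a PID
(`Module.equiv_directSum_of_isTorsion` / `Module.torsion_by_prime_power_decomposition` for the prime `X`)
it is `⊕ ℝ[X]/(X^{b_i})`; the basis `1, X, …, X^{b_i - 1}` of each summand is the basis.  (Or by induction
on the nilpotency degree / the dimension, elementary linear algebra.)
The statement is in matrix form: `M * Q = Q * J`, `J` the Jordan matrix in the index `Σ i, Fin (b i)`.
-/

open scoped Matrix

noncomputable section

namespace SBX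

open Polynomial DirectSum in
/-- chains of vectors from the structure theorem -/
theorem E05_chains {ι : Type} [Fintype ι] [DecidableEq ι] (M : Matrix ι ι ℝ)
    (hM : IsNilpotent M) :
    ∃ (d : ℕ) (k : Fin d → ℕ) (F : Fin d → ℕ → ι → ℝ),
      (∀ i j, M *ᵥ F i j = F i (j + 1)) ∧ (∀ i j, k i ≤ j → F i j = 0) ∧
      (LinearIndependent ℝ fun u : Σ i : Fin d, Fin (k i) => F u.1 u.2) ∧
      ⊤ ≤ Submodule.span ℝ (Set.range fun u : Σ i : Fin d, Fin (k i) => F u.1 u.2) := by
  classical
  obtain ⟨N, hN⟩ := hM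
  set f : (ι → ℝ) →ₗ[ℝ] (ι → ℝ) := Matrix.toLin' M with hf
  have hfN : f ^ N = 0 := by
    rw [hf, ← Matrix.toLin'_pow, hN, map_zero]
  have htors : Module.IsTorsion' (Module.AEval' f) (Submonoid.powers (X : ℝ[X])) := by
    intro m
    refine ⟨⟨X ^ N, ⟨N, rfl⟩⟩, ?_⟩
    obtain ⟨m, rfl⟩ := (Module.AEval'.of f).surjective m
    show (X ^ N : ℝ[X]) • Module.AEval'.of f m = 0
    rw [Module.AEval'.X_pow_smul_of, hfN, zero_smul, map_zero]
  obtain ⟨d, k, ⟨e⟩⟩ :=
    Module.torsion_by_prime_power_decomposition (p := (X : ℝ[X])) Polynomial.irreducible_X htors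
  let g : Fin d → ℝ[X] → Module.AEval' f := fun i p =>
    e.symm (DirectSum.lof ℝ[X] (Fin d) (fun i => ℝ[X] ⧸ ℝ[X] ∙ (X : ℝ[X]) ^ (k i : ℕ)) i
      (Submodule.Quotient.mk p))
  have gadd : ∀ i p q, g i (p + q) = g i p + g i q := by
    intro i p q
    simp only [g, Submodule.Quotient.mk_add, map_add]
  have gsmul : ∀ i (p q : ℝ[X]), g i (p * q) = p • g i q := by
    intro i p q
    simp only [g]
    rw [← smul_eq_mul, Submodule.Quotient.mk_smul, map_smul, map_smul]
  have gzero : ∀ i, g i 0 = 0 := by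
    intro i
    simp only [g, Submodule.Quotient.mk_zero, map_zero]
  have gsum : ∀ (i : Fin d) (s : Finset ℕ) (c : ℕ → ℝ[X]),
      g i (∑ j ∈ s, c j) = ∑ j ∈ s, g i (c j) := by
    intro i s c
    induction s using Finset.induction_on with
    | empty => simp [gzero]
    | insert a s ha ih => rw [Finset.sum_insert ha, Finset.sum_insert ha, gadd, ih]
  have gk : ∀ i (p : ℝ[X]), X ^ k i ∣ p → g i p = 0 := by
    rintro i p ⟨q, rfl⟩
    have h1 : (Submodule.Quotient.mk (X ^ k i * q) : ℝ[X] ⧸ ℝ[X] ∙ (X : ℝ[X]) ^ (k i : ℕ)) = 0 := by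
      rw [Submodule.Quotient.mk_eq_zero, Submodule.mem_span_singleton]
      exact ⟨q, by rw [smul_eq_mul, mul_comm]⟩
    simp only [g]
    rw [h1, map_zero, map_zero]
  have gC : ∀ i (a : ℝ) (q : ℝ[X]), g i (C a * q) = a • g i q := by
    intro i a q
    rw [gsmul]
    exact (algebraMap_smul ℝ[X] a (g i q))
  let F : Fin d → ℕ → ι → ℝ := fun i j => (Module.AEval'.of f).symm (g i (X ^ j))
  have hFC : ∀ i (p : ℝ[X]), (Module.AEval'.of f).symm (g i p) =
      ∑ j ∈ Finset.range (p.natDegree + 1), p.coeff j • F i j := by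
    intro i p
    conv_lhs => rw [p.as_sum_range_C_mul_X_pow]
    rw [gsum, map_sum]
    refine Finset.sum_congr rfl fun j _ => ?_
    rw [gC, map_smul]
  refine ⟨d, k, F, ?_, ?_, ?_, ?_⟩
  · intro i j
    have h1 : g i (X ^ (j + 1)) = (X : ℝ[X]) • g i (X ^ j) := by
      rw [← gsmul, pow_succ']
    show M *ᵥ (Module.AEval'.of f).symm (g i (X ^ j)) =
      (Module.AEval'.of f).symm (g i (X ^ (j + 1)))
    rw [h1, Module.AEval'.of_symm_X_smul, hf, Matrix.toLin'_apply]
  · intro i j hj
    show (Module.AEval'.of f).symm (g i (X ^ j)) = 0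
    rw [gk i _ (pow_dvd_pow X hj), map_zero]
  · rw [Fintype.linearIndependent_iff]
    intro c hc
    -- the polynomials
    let P : Fin d → ℝ[X] := fun i => ∑ j : Fin (k i), C (c ⟨i, j⟩) * X ^ (j : ℕ)
    have h1 : ∑ i, g i (P i) = 0 := by
      have h2 : (Module.AEval'.of f).symm (∑ i, g i (P i)) = 0 := by
        rw [map_sum, ← hc, Fintype.sum_sigma]
        refine Finset.sum_congr rfl fun i _ => ?_
        have h3 : g i (P i) = ∑ j : Fin (k i), c ⟨i, j⟩ • g i (X ^ (j : ℕ)) := by
          have h4 : ∀ s : Finset (Fin (k i)), g i (∑ j ∈ s, C (c ⟨i, j⟩) * X ^ (j : ℕ)) =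
              ∑ j ∈ s, c ⟨i, j⟩ • g i (X ^ (j : ℕ)) := by
            intro s
            induction s using Finset.induction_on with
            | empty => simp [gzero]
            | insert a s ha ih => rw [Finset.sum_insert ha, Finset.sum_insert ha, gadd, ih, gC]
          exact h4 _
        rw [h3, map_sum]
        refine Finset.sum_congr rfl fun j _ => ?_
        rw [map_smul]
      exact (Module.AEval'.of f).symm.map_eq_zero_iff.mp h2
    have h5 : ∑ i, DirectSum.lof ℝ[X] (Fin d)
        (fun i => ℝ[X] ⧸ ℝ[X] ∙ (X : ℝ[X]) ^ (k i : ℕ)) i (Submodule.Quotient.mk (P i)) = 0 := by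
      have h6 : e.symm (∑ i, DirectSum.lof ℝ[X] (Fin d)
        (fun i => ℝ[X] ⧸ ℝ[X] ∙ (X : ℝ[X]) ^ (k i : ℕ)) i (Submodule.Quotient.mk (P i))) = 0 := by
        rw [map_sum]; exact h1
      exact e.symm.map_eq_zero_iff.mp h6
    rintro ⟨i, j⟩
    have h7 := congrArg (DirectSum.component ℝ[X] (Fin d)
        (fun i => ℝ[X] ⧸ ℝ[X] ∙ (X : ℝ[X]) ^ (k i : ℕ)) i) h5
    rw [map_sum, map_zero, Finset.sum_eq_single i] at h7
    · rw [DirectSum.component.lof_self, Submodule.Quotient.mk_eq_zero,
        Submodule.mem_span_singleton] at h7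
      obtain ⟨q, hq⟩ := h7
      rw [smul_eq_mul] at hq
      have h8 : (P i).coeff j = c ⟨i, j⟩ := by
        simp only [P, Polynomial.finsetSum_coeff, Polynomial.coeff_C_mul, Polynomial.coeff_X_pow]
        rw [Finset.sum_eq_single j]
        · simp
        · intro b _ hb
          rw [if_neg, mul_zero]
          intro h
          exact hb (Fin.ext h.symm)
        · intro h; exact absurd (Finset.mem_univ _) h
      rw [← h8, ← hq, Polynomial.coeff_mul_X_pow', if_neg (by have := j.2; omega)]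
    · intro b _ hb
      rw [DirectSum.component.of, dif_neg hb]
    · intro h; exact absurd (Finset.mem_univ _) h
  · intro v _
    have h1 : ∀ w : ⨁ i : Fin d, ℝ[X] ⧸ ℝ[X] ∙ (X : ℝ[X]) ^ (k i : ℕ),
        (Module.AEval'.of f).symm (e.symm w) ∈
          Submodule.span ℝ (Set.range fun u : Σ i : Fin d, Fin (k i) => F u.1 u.2) := by
      intro w
      induction w using DirectSum.induction_on with
      | zero => rw [map_zero, map_zero]; exact zero_mem _
      | of i x =>
        obtain ⟨p, rfl⟩ := Submodule.Quotient.mk_surjective _ x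
        have h2 : (Module.AEval'.of f).symm (e.symm (DirectSum.of
          (fun i => ℝ[X] ⧸ ℝ[X] ∙ (X : ℝ[X]) ^ (k i : ℕ)) i (Submodule.Quotient.mk p))) =
            (Module.AEval'.of f).symm (g i p) := rfl
        rw [h2, hFC]
        refine Submodule.sum_mem _ fun j _ => Submodule.smul_mem _ _ ?_
        by_cases hj : j < k i
        · exact Submodule.subset_span ⟨⟨i, ⟨j, hj⟩⟩, rfl⟩
        · have h3 : F i j = 0 := by
            show (Module.AEval'.of f).symm (g i (X ^ j)) = 0
            rw [gk i _ (pow_dvd_pow X (not_lt.mp hj)), map_zero]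
          rw [h3]
          exact zero_mem _
      | add x y hx hy => rw [map_add, map_add]; exact add_mem hx hy
    have h2 := h1 (e (Module.AEval'.of f v))
    rw [e.symm_apply_apply, LinearEquiv.symm_apply_apply] at h2
    exact h2

theorem jordan {ι : Type} [Fintype ι] [DecidableEq ι] (M : Matrix ι ι ℝ) (hM : IsNilpotent M) :
    ∃ (q : ℕ) (b : Fin q → ℕ) (Q : Matrix ι (Σ i : Fin q, Fin (b i)) ℝ)
      (Q' : Matrix (Σ i : Fin q, Fin (b i)) ι ℝ), (∀ i, 1 ≤ b i) ∧ Q * Q' = 1 ∧ Q' * Q = 1 ∧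
      M * Q = Q * Matrix.of fun (u v : Σ i : Fin q, Fin (b i)) =>
        if u.1 = v.1 ∧ (u.2 : ℕ) = (v.2 : ℕ) + 1 then (1 : ℝ) else 0 := by
  classical
  obtain ⟨d, k, F, hF1, hF2, hLI, hsp⟩ := E05_chains M hM
  -- the nonempty chains
  let S : Type := {i : Fin d // 1 ≤ k i}
  let q : ℕ := Fintype.card S
  let τ : Fin q ≃ S := (Fintype.equivFin S).symm
  let b : Fin q → ℕ := fun i => k (τ i).1
  let G : (Σ i : Fin q, Fin (b i)) → ι → ℝ := fun u => F (τ u.1).1 u.2
  have hb1 : ∀ i, 1 ≤ b i := fun i => (τ i).2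
  have hGLI : LinearIndependent ℝ G := by
    have hinj : Function.Injective (fun u : Σ i : Fin q, Fin (b i) =>
        (⟨(τ u.1).1, u.2⟩ : Σ i : Fin d, Fin (k i))) := by
      rintro ⟨i, j⟩ ⟨i', j'⟩ h
      simp only [Sigma.mk.injEq] at h
      obtain ⟨h1, h2⟩ := h
      have h3 : i = i' := τ.injective (Subtype.ext h1)
      subst h3
      simp only [heq_eq_eq] at h2
      rw [h2]
    exact hLI.comp _ hinj
  have hGsp : ⊤ ≤ Submodule.span ℝ (Set.range G) := by
    refine hsp.trans (Submodule.span_mono ?_)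
    rintro _ ⟨⟨i, j⟩, rfl⟩
    have hi : 1 ≤ k i := by have := j.2; omega
    obtain ⟨i', hi'⟩ := τ.surjective ⟨i, hi⟩
    have hi'' : (τ i').1 = i := by rw [hi']
    subst hi''
    exact ⟨⟨i', j⟩, rfl⟩
  let B : Module.Basis (Σ i : Fin q, Fin (b i)) ℝ (ι → ℝ) := Module.Basis.mk hGLI hGsp
  have hB : ∀ u, B u = G u := fun u => Module.Basis.mk_apply hGLI hGsp u
  refine ⟨q, b, Matrix.of fun x u => G u x, Matrix.of fun u y => B.repr (Pi.single y 1) u, hb1,
    ?_, ?_, ?_⟩
  · ext x y
    rw [Matrix.mul_apply]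
    simp only [Matrix.of_apply]
    have h := congrFun (B.sum_repr (Pi.single y (1 : ℝ))) x
    rw [Finset.sum_apply] at h
    simp only [Pi.smul_apply, smul_eq_mul, hB] at h
    rw [Matrix.one_apply]
    calc ∑ u, G u x * B.repr (Pi.single y 1) u = ∑ u, B.repr (Pi.single y 1) u * G u x :=
          Finset.sum_congr rfl fun u _ => mul_comm _ _
      _ = (Pi.single y (1 : ℝ) : ι → ℝ) x := h
      _ = if x = y then 1 else 0 := by rw [Pi.single_apply]
  · ext u v
    rw [Matrix.mul_apply]
    simp only [Matrix.of_apply]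
    have h1 : G v = ∑ y, G v y • (Pi.single y (1 : ℝ) : ι → ℝ) := by
      ext z
      rw [Finset.sum_apply]
      simp [Pi.single_apply]
    have h2 : B.repr (G v) u = ∑ y, B.repr (Pi.single y 1) u * G v y := by
      conv_lhs => rw [h1]
      rw [map_sum, Finsupp.finsetSum_apply]
      refine Finset.sum_congr rfl fun y _ => ?_
      rw [map_smul, Finsupp.smul_apply, smul_eq_mul, mul_comm]
    rw [← h2, ← hB, B.repr_self, Finsupp.single_apply, Matrix.one_apply]
    simp only [eq_comm]
  · ext x v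
    rw [Matrix.mul_apply, Matrix.mul_apply]
    simp only [Matrix.of_apply]
    have h1 : ∑ y, M x y * G v y = F (τ v.1).1 ((v.2 : ℕ) + 1) x := by
      have := congrFun (hF1 (τ v.1).1 v.2) x
      rw [← this]
      rfl
    rw [h1]
    by_cases hv : (v.2 : ℕ) + 1 < b v.1
    · rw [Finset.sum_eq_single (⟨v.1, ⟨(v.2 : ℕ) + 1, hv⟩⟩ : Σ i : Fin q, Fin (b i))]
      · rw [if_pos ⟨rfl, rfl⟩, mul_one]
      · rintro ⟨i, j⟩ _ hne
        rw [if_neg, mul_zero]
        rintro ⟨h2, h3⟩
        apply hne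
        simp only at h2 h3
        subst h2
        congr 1
        exact Fin.ext h3
      · intro h; exact absurd (Finset.mem_univ _) h
    · rw [hF2 _ _ (not_lt.mp hv), Pi.zero_apply, eq_comm]
      refine Finset.sum_eq_zero fun w _ => ?_
      rw [if_neg, mul_zero]
      rintro ⟨h2, h3⟩
      have h4 := w.2.2
      rw [h3] at h4
      exact hv (lt_of_lt_of_eq h4 (congrArg b h2))

end SBX
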