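import Pool.Agent.SBX.E02
import Pool.Agent.SBX.E03
import Pool.Agent.SBX.E05

/-!
# Row SBX-E06 : nilpotency degree on the exterior powers `= ∑_{i odd} rank M^i`

`M` nilpotent, `n = rkM M = ∑_{i<card ι} rank M^{2i+1}`.

PROOF.  By E05 `M = Q J Q'`, `J` the Jordan matrix on the index set `κ = Σ i, Fin (b i)` (`card κ = card ι` since
`Q` is invertible).  `rank M^j = rank J^j = ∑_i max(b_i - j, 0)` (`J^j` maps `f_{i,l}` to `f_{i,l+j}`: a partial
permutation matrix), and `M^j = 0` for `j ≥ card ι`, so
`n = ∑_i ∑_{j odd} max(b_i - j, 0) = ∑_i ⌊b_i²/4⌋`.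
Weights: `wt(i,l) = 2l - (b_i - 1)`.  The sum of the positive weights is `∑_i ⌊b_i²/4⌋ = n`, the sum of the
negative ones is `-n`.
(a) `dLam k (M)^{n+1} = 0` : `dLam k M = Lam k Q · dLam k J · Lam k Q'` (the statement `Lam_conj` with
non-square `Q`; or transport `J` to the index type `ι` by a bijection `ι ≃ κ` first so that `Q` is square).
`dLam k J f g ≠ 0` implies `∑_l wt(f l) = ∑_l wt(g l) + 2` (in the formula `dLam = T P`, or directly in the
determinants: some permutation `π` and slot `l` with `J_{f l, g(π l)} ≠ 0`, `f m = g (π m)` for `m ≠ l`), and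
it is `0` unless `f`, `g` are injective (equal rows/columns; `Lam k 1 * dLam = dLam`, `Lam k 1 f g = 0` for
`f` not injective).  For injective `f` the total weight is in `[-n, n]`.  So `(dLam k J)^{n+1} = 0`.
(b) some `k ≤ card ι` has `dLam k M ^ n ≠ 0` : let `h = diag(wt)` and `y f_{i,l} = -l(b_i - l) f_{i,l-1}`; then
`hJ - Jh = 2J` and `Jy - yJ = h`: on `f_{i,l}`: `Jy f_{i,l} = -l(b_i-l) f_{i,l}`,
`yJ f_{i,l} = -(l+1)(b_i-l-1) f_{i,l}`, the difference is `(l+1)(b_i-l-1) - l(b_i-l) = b_i - 1 - 2l = -wt`.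
So take `y f_{i,l} = +l(b_i-l) f_{i,l-1}`: `Jy - yJ = l(b_i-l) - (l+1)(b_i-l-1) = 2l+1-b_i = wt`. Good.
Let `k` be the number of positive weights and `f : Fin k → κ` an injective enumeration of them: the
vector `v = Lam k 1 (·, f) ≠ 0` (column of `Lam k 1`) satisfies `dLam k h v = n v` (`dLam k h` is
`∑ wt(f l)` times `Lam k 1` in the column `f`).  By E03 applied to the complexifications of
`dLam k h, dLam k J, dLam k y` (relations by `dLam_lie`): if `(dLam k J)^n = 0`, `n ≥ 1`, then
`n ≤ n - 1`, a contradiction.  If `n = 0` take `k = 0`: `(dLam 0 M)^0 = 1 ≠ 0`.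
-/

open scoped Matrix

noncomputable section

namespace SBX

variable {ι : Type} [Fintype ι] [DecidableEq ι]

private theorem E06_card {m n : Type} [Fintype m] [Fintype n] [DecidableEq m] [DecidableEq n]
    (Q : Matrix m n ℝ) (Q' : Matrix n m ℝ) (h : Q * Q' = 1) :
    Fintype.card m ≤ Fintype.card n := by
  have h1 : (Q * Q').rank = Fintype.card m := by rw [h, Matrix.rank_one]
  have h2 := Matrix.rank_mul_le_left Q Q'
  have h3 := Matrix.rank_le_card_width Q
  omega

private theorem E06_G : ∀ b : ℕ, ∑ l ∈ Finset.range b, max (2 * (l : ℝ) - (b : ℝ) + 1) 0 =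
    ((∑ l ∈ Finset.range b, (l + 1) / 2 : ℕ) : ℝ)
  | 0 => by simp
  | 1 => by simp
  | b + 2 => by
    have ih := E06_G b
    have h1 : ∑ l ∈ Finset.range (b + 2), max (2 * (l : ℝ) - ((b + 2 : ℕ) : ℝ) + 1) 0 =
        ∑ l ∈ Finset.range b, max (2 * (l : ℝ) - (b : ℝ) + 1) 0 + ((b : ℝ) + 1) := by
      rw [Finset.sum_range_succ', Finset.sum_range_succ]
      have h2 : max (2 * ((0 : ℕ) : ℝ) - ((b + 2 : ℕ) : ℝ) + 1) 0 = 0 := by
        apply max_eq_right
        push_cast
        have : (0 : ℝ) ≤ b := Nat.cast_nonneg b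
        linarith
      have h3 : max (2 * ((b + 1 : ℕ) : ℝ) - ((b + 2 : ℕ) : ℝ) + 1) 0 = (b : ℝ) + 1 := by
        rw [max_eq_left]
        · push_cast; ring
        · push_cast
          have : (0 : ℝ) ≤ b := Nat.cast_nonneg b
          linarith
      rw [h2, h3, add_zero]
      congr 1
      apply Finset.sum_congr rfl
      intro l _
      congr 1
      push_cast
      ring
    rw [h1, ih, Finset.sum_range_succ, Finset.sum_range_succ]
    have h4 : (b + 1) / 2 + (b + 1 + 1) / 2 = b + 1 := by omega
    rw [add_assoc, h4]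
    push_cast
    ring

private theorem E06_min (b : ℕ) : ∑ l ∈ Finset.range b, min (2 * (l : ℝ) - (b : ℝ) + 1) 0 =
    -((∑ l ∈ Finset.range b, (l + 1) / 2 : ℕ) : ℝ) := by
  rw [← E06_G]
  have h1 : ∑ l ∈ Finset.range b, (2 * (l : ℝ) - (b : ℝ) + 1) = 0 := by
    have h2 : ∀ m : ℕ, ∑ l ∈ Finset.range m, (2 * (l : ℝ) - (b : ℝ) + 1) =
        (m : ℝ) * ((m : ℝ) - b) := by
      intro m
      induction m with
      | zero => simp
      | succ m ih =>
        rw [Finset.sum_range_succ, ih]
        push_cast
        ring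
    rw [h2]
    ring
  have h3 : ∑ l ∈ Finset.range b, (min (2 * (l : ℝ) - (b : ℝ) + 1) 0 +
      max (2 * (l : ℝ) - (b : ℝ) + 1) 0) =
      ∑ l ∈ Finset.range b, (2 * (l : ℝ) - (b : ℝ) + 1) := by
    apply Finset.sum_congr rfl
    intro l _
    rw [min_add_max, add_zero]
  rw [h1, Finset.sum_add_distrib] at h3
  linarith

/-- Jordan data in the index type `ι` -/
private theorem E06_data (M : Matrix ι ι ℝ) (hM : IsNilpotent M) :
    ∃ (P P' J h y : Matrix ι ι ℝ) (wt : ι → ℝ), P * P' = 1 ∧ P' * P = 1 ∧ M = P * J * P' ∧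
      h = Matrix.diagonal wt ∧ h * J - J * h = (2 : ℝ) • J ∧ h = J * y - y * J ∧
      ∑ u, max (wt u) 0 = rkM M ∧ ∑ u, min (wt u) 0 = -(rkM M : ℝ) := by
  classical
  obtain ⟨q, b, Q, Q', hb, hQ, hQ', hJ⟩ := jordan M hM
  have hcard : Fintype.card ι = Fintype.card (Σ i : Fin q, Fin (b i)) :=
    le_antisymm (E06_card Q Q' hQ) (E06_card Q' Q hQ')
  obtain ⟨e⟩ : Nonempty (ι ≃ (Σ i : Fin q, Fin (b i))) := Fintype.card_eq.1 hcard
  set JK : Matrix (Σ i : Fin q, Fin (b i)) (Σ i : Fin q, Fin (b i)) ℝ :=
    Matrix.of fun (u v : Σ i : Fin q, Fin (b i)) =>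
      if u.1 = v.1 ∧ (u.2 : ℕ) = (v.2 : ℕ) + 1 then (1 : ℝ) else 0 with hJK
  set blk : ι → Fin q := fun u => (e u).1 with hblk
  set pos : ι → ℕ := fun u => ((e u).2 : ℕ) with hpos
  have plt : ∀ u, pos u < b (blk u) := fun u => (e u).2.2
  have inj : ∀ u v, blk u = blk v → pos u = pos v → u = v := by
    intro u v h1 h2
    apply e.injective
    refine Sigma.ext h1 ?_
    exact (Fin.heq_ext_iff (congrArg b h1)).2 h2
  have surj : ∀ (i : Fin q) (l : ℕ), l < b i → ∃ u, blk u = i ∧ pos u = l := by
    intro i l hl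
    have h1 := e.apply_symm_apply ⟨i, ⟨l, hl⟩⟩
    refine ⟨e.symm ⟨i, ⟨l, hl⟩⟩, ?_, ?_⟩
    · change (e (e.symm ⟨i, ⟨l, hl⟩⟩)).1 = i
      rw [h1]
    · change ((e (e.symm ⟨i, ⟨l, hl⟩⟩)).2 : ℕ) = l
      rw [h1]
  have sum_e : ∀ F : Fin q → ℕ → ℝ, ∑ u, F (blk u) (pos u) =
      ∑ i, ∑ l ∈ Finset.range (b i), F i l := by
    intro F
    have h1 : ∑ u, F (blk u) (pos u) = ∑ w : (Σ i : Fin q, Fin (b i)), F w.1 (w.2 : ℕ) :=
      Equiv.sum_comp e (fun w => F w.1 (w.2 : ℕ))
    rw [h1, Fintype.sum_sigma]
    apply Finset.sum_congr rfl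
    intro i _
    rw [Finset.sum_range]
  set J : Matrix ι ι ℝ := fun u v => if blk u = blk v ∧ pos u = pos v + 1 then 1 else 0 with hJd
  set y : Matrix ι ι ℝ := fun u v => if blk u = blk v ∧ pos v = pos u + 1 then
    (pos v : ℝ) * ((b (blk v) : ℝ) - pos v) else 0 with hyd
  set wt : ι → ℝ := fun u => 2 * (pos u : ℝ) - (b (blk u) : ℝ) + 1 with hwt
  set P : Matrix ι ι ℝ := Q.submatrix id e with hP
  set P' : Matrix ι ι ℝ := Q'.submatrix e id with hP'
  have hJs : J = JK.submatrix e e := by
    ext u v
    rfl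
  have hPP' : P * P' = 1 := by
    rw [hP, hP', Matrix.submatrix_mul_equiv, hQ, Matrix.submatrix_one _ Function.injective_id]
  have hP'P : P' * P = 1 := mul_eq_one_comm.1 hPP'
  have hMP : M = P * J * P' := by
    have h1 : M = Q * JK * Q' := by
      rw [← hJ, Matrix.mul_assoc, hQ, Matrix.mul_one]
    rw [hP, hP', hJs, Matrix.submatrix_mul_equiv, Matrix.submatrix_mul_equiv, ← h1,
      Matrix.submatrix_id_id]
  -- powers of `J`
  have hJp : ∀ j : ℕ, ∀ u v, (J ^ j) u v = if blk u = blk v ∧ pos u = pos v + j then 1 else 0 := by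
    intro j
    induction j with
    | zero =>
      intro u v
      rw [pow_zero, Matrix.one_apply]
      by_cases huv : u = v
      · subst huv; simp
      · rw [if_neg huv, if_neg]
        rintro ⟨h1, h2⟩
        exact huv (inj _ _ h1 (by omega))
    | succ j ih =>
      intro u v
      rw [pow_succ, Matrix.mul_apply]
      by_cases h : blk u = blk v ∧ pos u = pos v + (j + 1)
      · rw [if_pos h]
        have hlt : pos v + 1 < b (blk v) := by
          have := plt u
          rw [h.1] at this
          omega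
        obtain ⟨w, hw1, hw2⟩ := surj (blk v) (pos v + 1) hlt
        rw [Finset.sum_eq_single w]
        · rw [ih, if_pos ⟨by rw [hw1, h.1], by omega⟩, one_mul]
          exact if_pos ⟨hw1, hw2⟩
        · intro w' _ hne
          by_cases h' : blk w' = blk v ∧ pos w' = pos v + 1
          · exfalso
            exact hne (inj _ _ (by rw [h'.1, hw1]) (by omega))
          · have : J w' v = 0 := if_neg h'
            rw [this, mul_zero]
        · intro h'
          exact absurd (Finset.mem_univ _) h'
      · rw [if_neg h]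
        apply Finset.sum_eq_zero
        intro w _
        rw [ih]
        by_cases h1 : blk u = blk w ∧ pos u = pos w + j
        · by_cases h2 : blk w = blk v ∧ pos w = pos v + 1
          · exact absurd ⟨by rw [h1.1, h2.1], by omega⟩ h
          · have : J w v = 0 := if_neg h2
            rw [this, mul_zero]
        · rw [if_neg h1, zero_mul]
  have hrank : ∀ j : ℕ, (M ^ j).rank = (Finset.univ.filter fun u => j ≤ pos u).card := by
    intro j
    have h1 : M ^ j = P * J ^ j * P' := by
      induction j with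
      | zero => rw [pow_zero, pow_zero, Matrix.mul_one, hPP']
      | succ j ih =>
        rw [pow_succ, ih, hMP, pow_succ]
        calc P * J ^ j * P' * (P * J * P') = P * J ^ j * (P' * P) * J * P' := by
              simp only [Matrix.mul_assoc]
          _ = P * (J ^ j * J) * P' := by
              rw [hP'P, Matrix.mul_one]; simp only [Matrix.mul_assoc]
    have hu : IsUnit P.det := by
      rw [← Matrix.isUnit_iff_isUnit_det]
      exact ⟨⟨P, P', hPP', hP'P⟩, rfl⟩
    have hu' : IsUnit P'.det := by
      rw [← Matrix.isUnit_iff_isUnit_det]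
      exact ⟨⟨P', P, hP'P, hPP'⟩, rfl⟩
    rw [h1, Matrix.rank_mul_eq_left_of_isUnit_det _ _ hu',
      Matrix.rank_mul_eq_right_of_isUnit_det _ _ hu, ← Matrix.rank_self_mul_transpose]
    have h2 : J ^ j * (J ^ j)ᵀ = Matrix.diagonal fun u => if j ≤ pos u then (1 : ℝ) else 0 := by
      ext u u'
      rw [Matrix.mul_apply, Matrix.diagonal_apply]
      by_cases huu : u = u'
      · subst huu
        rw [if_pos rfl]
        by_cases hj : j ≤ pos u
        · rw [if_pos hj]
          obtain ⟨w, hw1, hw2⟩ := surj (blk u) (pos u - j) (by have := plt u; omega)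
          rw [Finset.sum_eq_single w]
          · rw [Matrix.transpose_apply, hJp, if_pos ⟨hw1.symm, by omega⟩, one_mul]
          · intro w' _ hne
            rw [Matrix.transpose_apply, hJp, if_neg, zero_mul]
            rintro ⟨h3, h4⟩
            exact hne (inj _ _ (by rw [← h3, hw1]) (by omega))
          · intro h'
            exact absurd (Finset.mem_univ _) h'
        · rw [if_neg hj]
          apply Finset.sum_eq_zero
          intro w _
          rw [Matrix.transpose_apply, hJp, if_neg, zero_mul]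
          rintro ⟨_, h4⟩
          omega
      · rw [if_neg huu]
        apply Finset.sum_eq_zero
        intro w _
        rw [Matrix.transpose_apply, hJp, hJp]
        by_cases h3 : blk u = blk w ∧ pos u = pos w + j
        · rw [if_pos h3, one_mul, if_neg]
          rintro ⟨h4, h5⟩
          exact huu (inj _ _ (by rw [h3.1, h4]) (by omega))
        · rw [if_neg h3, zero_mul]
    rw [h2, Matrix.rank_diagonal, Fintype.card_subtype]
    congr 1
    ext u
    simp only [Finset.mem_filter, Finset.mem_univ, true_and, ne_eq]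
    by_cases hj : j ≤ pos u
    · simp [hj]
    · simp [hj]
  have hposc : ∀ u, pos u < Fintype.card ι := by
    intro u
    have h1 : b (blk u) ≤ ∑ i, b i :=
      Finset.single_le_sum (f := b) (fun _ _ => Nat.zero_le _) (Finset.mem_univ _)
    have h2 : Fintype.card (Σ i : Fin q, Fin (b i)) = ∑ i, b i := by
      rw [Fintype.card_sigma]
      simp
    have := plt u
    omega
  have hrk : (rkM M : ℝ) = ∑ i, ((∑ l ∈ Finset.range (b i), (l + 1) / 2 : ℕ) : ℝ) := by
    have h1 : rkM M = ∑ u, (pos u + 1) / 2 := by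
      unfold rkM
      have h2 : ∀ i ∈ Finset.range (Fintype.card ι), (M ^ (2 * i + 1)).rank =
          ∑ u, if 2 * i + 1 ≤ pos u then 1 else 0 := by
        intro i _
        rw [hrank, Finset.card_filter]
      rw [Finset.sum_congr rfl h2, Finset.sum_comm]
      apply Finset.sum_congr rfl
      intro u _
      rw [← Finset.card_filter]
      have h3 : (Finset.range (Fintype.card ι)).filter (fun i => 2 * i + 1 ≤ pos u) =
          Finset.range ((pos u + 1) / 2) := by
        ext i
        simp only [Finset.mem_filter, Finset.mem_range]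
        have := hposc u
        omega
      rw [h3, Finset.card_range]
    rw [h1]
    push_cast
    have h4 := sum_e (fun _ l => (((l + 1) / 2 : ℕ) : ℝ))
    exact h4
  refine ⟨P, P', J, Matrix.diagonal wt, y, wt, hPP', hP'P, hMP, rfl, ?_, ?_, ?_, ?_⟩
  · ext u v
    rw [Matrix.sub_apply, Matrix.diagonal_mul, Matrix.mul_diagonal, Matrix.smul_apply, smul_eq_mul]
    by_cases h : blk u = blk v ∧ pos u = pos v + 1
    · have h1 : J u v = 1 := if_pos h
      rw [h1]
      simp only [hwt]
      rw [h.1, h.2]
      push_cast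
      ring
    · have h1 : J u v = 0 := if_neg h
      rw [h1]
      ring
  · have hJy : J * y = Matrix.diagonal fun u => (pos u : ℝ) * ((b (blk u) : ℝ) - pos u) := by
      ext u v
      rw [Matrix.mul_apply, Matrix.diagonal_apply]
      by_cases huv : u = v
      · subst huv
        rw [if_pos rfl]
        rcases Nat.eq_zero_or_pos (pos u) with h0 | h0
        · rw [h0, Nat.cast_zero, zero_mul]
          apply Finset.sum_eq_zero
          intro w _
          have : J u w = 0 := if_neg (by rintro ⟨_, h2⟩; omega)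
          rw [this, zero_mul]
        · obtain ⟨w, hw1, hw2⟩ := surj (blk u) (pos u - 1) (by have := plt u; omega)
          rw [Finset.sum_eq_single w]
          · have h1 : J u w = 1 := if_pos ⟨hw1.symm, by omega⟩
            have h2 : y w u = (pos u : ℝ) * ((b (blk u) : ℝ) - pos u) :=
              if_pos ⟨hw1, by omega⟩
            rw [h1, h2, one_mul]
          · intro w' _ hne
            have : J u w' = 0 := if_neg (by
              rintro ⟨h1, h2⟩
              exact hne (inj _ _ (by rw [← h1, hw1]) (by omega)))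
            rw [this, zero_mul]
          · intro h'
            exact absurd (Finset.mem_univ _) h'
      · rw [if_neg huv]
        apply Finset.sum_eq_zero
        intro w _
        by_cases h1 : blk u = blk w ∧ pos u = pos w + 1
        · have : y w v = 0 := if_neg (by
            rintro ⟨h2, h3⟩
            exact huv (inj _ _ (by rw [h1.1, h2]) (by omega)))
          rw [this, mul_zero]
        · have : J u w = 0 := if_neg h1
          rw [this, zero_mul]
    have hyJ : y * J = Matrix.diagonal fun u =>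
        ((pos u : ℝ) + 1) * ((b (blk u) : ℝ) - pos u - 1) := by
      ext u v
      rw [Matrix.mul_apply, Matrix.diagonal_apply]
      by_cases huv : u = v
      · subst huv
        rw [if_pos rfl]
        by_cases h0 : pos u + 1 < b (blk u)
        · obtain ⟨w, hw1, hw2⟩ := surj (blk u) (pos u + 1) h0
          rw [Finset.sum_eq_single w]
          · have h1 : J w u = 1 := if_pos ⟨hw1, hw2⟩
            have h2 : y u w = (pos w : ℝ) * ((b (blk w) : ℝ) - pos w) :=
              if_pos ⟨hw1.symm, hw2⟩
            rw [h1, h2, mul_one, hw1, hw2]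
            push_cast
            ring
          · intro w' _ hne
            have : J w' u = 0 := if_neg (by
              rintro ⟨h1, h2⟩
              exact hne (inj _ _ (by rw [h1, hw1]) (by omega)))
            rw [this, mul_zero]
          · intro h'
            exact absurd (Finset.mem_univ _) h'
        · have h1 : b (blk u) = pos u + 1 := by
            have := plt u
            omega
          have h2 : ((b (blk u) : ℝ) - pos u - 1) = 0 := by
            rw [h1]
            push_cast
            ring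
          rw [h2, mul_zero]
          apply Finset.sum_eq_zero
          intro w _
          have : y u w = 0 := if_neg (by
            rintro ⟨h3, h4⟩
            have := plt w
            rw [← h3] at this
            omega)
          rw [this, zero_mul]
      · rw [if_neg huv]
        apply Finset.sum_eq_zero
        intro w _
        by_cases h1 : blk u = blk w ∧ pos w = pos u + 1
        · have : J w v = 0 := if_neg (by
            rintro ⟨h2, h3⟩
            exact huv (inj _ _ (by rw [h1.1, h2]) (by omega)))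
          rw [this, mul_zero]
        · have : y u w = 0 := if_neg h1
          rw [this, zero_mul]
    rw [hJy, hyJ, Matrix.diagonal_sub]
    congr 1
    ext u
    simp only [hwt]
    ring
  · have h1 := sum_e (fun i l => max (2 * (l : ℝ) - (b i : ℝ) + 1) 0)
    rw [hrk]
    refine h1.trans ?_
    apply Finset.sum_congr rfl
    intro i _
    exact E06_G (b i)
  · have h1 := sum_e (fun i l => min (2 * (l : ℝ) - (b i : ℝ) + 1) 0)
    rw [hrk, ← Finset.sum_neg_distrib]
    refine h1.trans ?_
    apply Finset.sum_congr rfl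
    intro i _
    exact E06_min (b i)

private theorem E06_Lam1 (k : ℕ) (f g : Fin k → ι) : Lam k 1 f g = Lam k 1 g f := by
  have h := Lam_transpose k (1 : Matrix ι ι ℝ)
  rw [Matrix.transpose_one] at h
  have h1 : (Lam k (1 : Matrix ι ι ℝ))ᵀ f g = Lam k 1 f g := by rw [h]
  rw [← h1, Matrix.transpose_apply]

omit [Fintype ι] in
/-- the diagonal derivation -/
private theorem E06_diag (k : ℕ) (wt : ι → ℝ) (f g : Fin k → ι) :
    dLam k (Matrix.diagonal wt) f g = (∑ l, wt (f l)) * Lam k 1 f g := by
  unfold dLam Lam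
  have h1 : ∀ l : Fin k, (((1 : Matrix ι ι ℝ).submatrix f g).updateRow l
      fun m => Matrix.diagonal wt (f l) (g m)).det =
      wt (f l) * ((1 : Matrix ι ι ℝ).submatrix f g).det := by
    intro l
    have h2 : (fun m => Matrix.diagonal wt (f l) (g m)) =
        wt (f l) • ((1 : Matrix ι ι ℝ).submatrix f g) l := by
      ext m
      rw [Pi.smul_apply, smul_eq_mul, Matrix.submatrix_apply, Matrix.diagonal_apply,
        Matrix.one_apply]
      split_ifs <;> ring
    rw [h2, Matrix.det_updateRow_smul, Matrix.updateRow_eq_self]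
  rw [Finset.sum_congr rfl fun l _ => h1 l, ← Finset.sum_mul]
  ring

private theorem E06_diag' (k : ℕ) (wt : ι → ℝ) (f g : Fin k → ι) :
    dLam k (Matrix.diagonal wt) f g = Lam k 1 f g * (∑ l, wt (g l)) := by
  have h := dLam_transpose k (Matrix.diagonal wt)
  rw [Matrix.diagonal_transpose] at h
  have h1 : (dLam k (Matrix.diagonal wt))ᵀ f g = dLam k (Matrix.diagonal wt) f g := by rw [h]
  rw [← h1, Matrix.transpose_apply, E06_diag, E06_Lam1, mul_comm]

omit [Fintype ι] in
private theorem E06_inj (k : ℕ) (f g : Fin k → ι) (hf : ¬ Function.Injective f) :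
    Lam k 1 f g = 0 := by
  unfold Lam
  rw [Function.Injective] at hf
  push Not at hf
  obtain ⟨a, c, h1, h2⟩ := hf
  rw [Matrix.det_zero_of_row_eq h2, mul_zero]
  ext m
  rw [Matrix.submatrix_apply, Matrix.submatrix_apply, h1]

private theorem E06_le {k : ℕ} {f : Fin k → ι} (hf : Function.Injective f) (wt : ι → ℝ) :
    ∑ l, wt (f l) ≤ ∑ u, max (wt u) 0 ∧ ∑ u, min (wt u) 0 ≤ ∑ l, wt (f l) := by
  have h1 : ∑ l, wt (f l) = ∑ u ∈ Finset.univ.image f, wt u := by
    rw [Finset.sum_image fun a _ c _ h => hf h]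
  constructor
  · rw [h1]
    calc ∑ u ∈ Finset.univ.image f, wt u ≤ ∑ u ∈ Finset.univ.image f, max (wt u) 0 :=
          Finset.sum_le_sum fun u _ => le_max_left _ _
      _ ≤ ∑ u, max (wt u) 0 :=
          Finset.sum_le_sum_of_subset_of_nonneg (Finset.subset_univ _)
            fun u _ _ => le_max_right _ _
  · rw [h1]
    calc ∑ u, min (wt u) 0 ≤ ∑ u ∈ Finset.univ.image f, min (wt u) 0 := by
          have h2 := Finset.sum_le_sum_of_subset_of_nonneg
            (f := fun u => -min (wt u) 0) (Finset.subset_univ (Finset.univ.image f))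
            fun u _ _ => by
              have := min_le_right (wt u) 0
              linarith
          rw [Finset.sum_neg_distrib, Finset.sum_neg_distrib] at h2
          linarith
      _ ≤ ∑ u ∈ Finset.univ.image f, wt u := Finset.sum_le_sum fun u _ => min_le_left _ _

private theorem E06_comm {m : Type} [Fintype m] [DecidableEq m] (H X : Matrix m m ℝ)
    (h : H * X - X * H = (2 : ℝ) • X) (j : ℕ) :
    H * X ^ j - X ^ j * H = (2 * (j : ℝ)) • X ^ j := by
  induction j with
  | zero => simp
  | succ j ih =>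
    have e1 : H * X ^ (j + 1) - X ^ (j + 1) * H =
        (H * X ^ j - X ^ j * H) * X + X ^ j * (H * X - X * H) := by
      rw [pow_succ]
      noncomm_ring
    rw [e1, ih, h, Matrix.smul_mul, Matrix.mul_smul, ← pow_succ, ← add_smul]
    congr 1
    push_cast
    ring

/-- powers of a conjugate -/
private theorem E06_conj (k : ℕ) {P P' J M : Matrix ι ι ℝ} (h1 : P * P' = 1) (h2 : P' * P = 1)
    (h3 : M = P * J * P') (j : ℕ) :
    dLam k M ^ (j + 1) = Lam k P * dLam k J ^ (j + 1) * Lam k P' := by
  have h4 : dLam k M = Lam k P * dLam k J * Lam k P' := by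
    rw [h3]
    exact (Lam_conj k P P' J h1).symm
  induction j with
  | zero => rw [zero_add, pow_one, pow_one, h4]
  | succ j ih =>
    rw [pow_succ, ih, h4]
    have h5 : Lam k P' * Lam k P = Lam k 1 := by rw [← Lam_mul, h2]
    calc Lam k P * dLam k J ^ (j + 1) * Lam k P' * (Lam k P * dLam k J * Lam k P')
        = Lam k P * dLam k J ^ (j + 1) * ((Lam k P' * Lam k P) * dLam k J) * Lam k P' := by
          simp only [Matrix.mul_assoc]
      _ = Lam k P * dLam k J ^ (j + 1 + 1) * Lam k P' := by
          rw [h5, (dLam_proj k J).1, pow_succ (dLam k J) (j + 1)]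
          simp only [Matrix.mul_assoc]

private theorem E06_lie (k : ℕ) {J h : Matrix ι ι ℝ} (hJ : h * J - J * h = (2 : ℝ) • J) :
    dLam k h * dLam k J - dLam k J * dLam k h = (2 : ℝ) • dLam k J := by
  rw [← dLam_lie, hJ, dLam_smul]

theorem dLam_pow_eq_zero (M : Matrix ι ι ℝ) (hM : IsNilpotent M) (k : ℕ) :
    dLam k M ^ (rkM M + 1) = 0 := by
  obtain ⟨P, P', J, h, y, wt, h1, h2, h3, h4, h5, h6, h7, h8⟩ := E06_data M hM
  rw [E06_conj k h1 h2 h3]
  have hz : dLam k J ^ (rkM M + 1) = 0 := by
    ext f g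
    rw [Matrix.zero_apply]
    by_contra hne
    set X := dLam k J with hX
    have hL : Lam k 1 * X ^ (rkM M + 1) = X ^ (rkM M + 1) := by
      rw [pow_succ', ← Matrix.mul_assoc, (dLam_proj k J).1]
    have hR : X ^ (rkM M + 1) * Lam k 1 = X ^ (rkM M + 1) := by
      rw [pow_succ, Matrix.mul_assoc, (dLam_proj k J).2]
    have hc := E06_comm _ _ (E06_lie k h5) (rkM M + 1)
    rw [← hX] at hc
    have e1 : (dLam k h * X ^ (rkM M + 1)) f g = (∑ l, wt (f l)) * (X ^ (rkM M + 1)) f g := by
      conv_rhs => rw [← hL]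
      rw [Matrix.mul_apply, Matrix.mul_apply, Finset.mul_sum]
      apply Finset.sum_congr rfl
      intro g' _
      rw [h4, E06_diag, mul_assoc]
    have e2 : (X ^ (rkM M + 1) * dLam k h) f g = (X ^ (rkM M + 1)) f g * (∑ l, wt (g l)) := by
      conv_rhs => rw [← hR]
      rw [Matrix.mul_apply, Matrix.mul_apply, Finset.sum_mul]
      apply Finset.sum_congr rfl
      intro g' _
      rw [h4, E06_diag', mul_assoc]
    have e3 := congrFun (congrFun hc f) g
    rw [Matrix.sub_apply, e1, e2, Matrix.smul_apply, smul_eq_mul] at e3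
    have e4 : (∑ l, wt (f l)) - (∑ l, wt (g l)) = 2 * ((rkM M + 1 : ℕ) : ℝ) := by
      apply mul_right_cancel₀ hne
      linarith
    have hfi : Function.Injective f := by
      by_contra hf
      apply hne
      rw [← hL, Matrix.mul_apply]
      apply Finset.sum_eq_zero
      intro g' _
      rw [E06_inj k f g' hf, zero_mul]
    have hgi : Function.Injective g := by
      by_contra hg
      apply hne
      rw [← hR, Matrix.mul_apply]
      apply Finset.sum_eq_zero
      intro g' _
      rw [E06_Lam1, E06_inj k g g' hg, mul_zero]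
    have b1 := (E06_le hfi wt).1
    have b2 := (E06_le hgi wt).2
    rw [h7] at b1
    rw [h8] at b2
    push_cast at e4
    linarith
  rw [hz, Matrix.mul_zero, Matrix.zero_mul]

theorem dLam_pow_ne_zero (M : Matrix ι ι ℝ) (hM : IsNilpotent M) :
    ∃ k : ℕ, dLam k M ^ (rkM M) ≠ 0 := by
  obtain ⟨P, P', J, h, y, wt, h1, h2, h3, h4, h5, h6, h7, h8⟩ := E06_data M hM
  rcases Nat.eq_zero_or_pos (rkM M) with h0 | h0
  · refine ⟨0, ?_⟩
    rw [h0, pow_zero]
    intro h9
    have := congrFun (congrFun h9 (fun i => i.elim0)) (fun i => i.elim0)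
    rw [Matrix.one_apply_eq, Matrix.zero_apply] at this
    exact one_ne_zero this
  classical
  obtain ⟨n, hn⟩ : ∃ n, rkM M = n + 1 := ⟨rkM M - 1, by omega⟩
  set S : Finset ι := Finset.univ.filter fun u => 0 < wt u with hS
  set k := S.card with hk
  set f : Fin k → ι := fun l => (S.equivFin.symm l : ι) with hf
  have hfi : Function.Injective f := by
    intro a c hac
    apply S.equivFin.symm.injective
    exact Subtype.ext hac
  have hsum : ∑ l, wt (f l) = rkM M := by
    rw [← h7]
    have e1 : ∑ l, wt (f l) = ∑ u : S, wt u := Equiv.sum_comp S.equivFin.symm (fun u : S => wt u)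
    rw [e1, Finset.sum_coe_sort S wt, hS, Finset.sum_filter]
    apply Finset.sum_congr rfl
    intro u _
    by_cases hu : 0 < wt u
    · rw [if_pos hu, max_eq_left hu.le]
    · rw [if_neg hu, max_eq_right (not_lt.1 hu)]
  refine ⟨k, ?_⟩
  intro hzero
  -- `dLam k J ^ (n + 1) = 0`
  have hJ0 : dLam k J ^ (n + 1) = 0 := by
    have h9 : J = P' * M * P := by
      rw [h3]
      calc J = (P' * P) * J * (P' * P) := by rw [h2, Matrix.one_mul, Matrix.mul_one]
        _ = P' * (P * J * P') * P := by simp only [Matrix.mul_assoc]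
    rw [E06_conj k h2 h1 h9, ← hn, hzero, Matrix.mul_zero, Matrix.zero_mul]
  let φ : Matrix (Fin k → ι) (Fin k → ι) ℝ →+* Matrix (Fin k → ι) (Fin k → ι) ℂ :=
    Complex.ofRealHom.mapMatrix
  have hφ : ∀ A i j, φ A i j = ((A i j : ℝ) : ℂ) := fun A i j => rfl
  have c1 : φ (dLam k h) * φ (dLam k J) - φ (dLam k J) * φ (dLam k h) =
      (2 : ℂ) • φ (dLam k J) := by
    rw [← map_mul, ← map_mul, ← map_sub, E06_lie k h5]
    ext i j
    rw [hφ, Matrix.smul_apply, Matrix.smul_apply, hφ, smul_eq_mul, smul_eq_mul,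
      Complex.ofReal_mul]
    norm_num
  have c2 : φ (dLam k h) = φ (dLam k J) * φ (dLam k y) - φ (dLam k y) * φ (dLam k J) := by
    rw [← map_mul, ← map_mul, ← map_sub, ← dLam_lie, ← h6]
  have c3 : φ (dLam k J) ^ (n + 1) = 0 := by
    rw [← map_pow, hJ0, map_zero]
  set v : (Fin k → ι) → ℂ := fun g => ((Lam k 1 g f : ℝ) : ℂ) with hv
  have c4 : v ≠ 0 := by
    intro h9
    have h10 : ((Lam k 1 f f : ℝ) : ℂ) = 0 := congrFun h9 f
    have h11 : Lam k 1 f f = 0 := by exact_mod_cast h10
    unfold Lam at h11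
    have h12 : (1 : Matrix ι ι ℝ).submatrix f f = 1 := Matrix.submatrix_one _ hfi
    rw [h12, Matrix.det_one, mul_one] at h11
    exact (inv_ne_zero (Nat.cast_ne_zero.2 (Nat.factorial_ne_zero k))) h11
  have c5 : φ (dLam k h) *ᵥ v = ((rkM M : ℝ) : ℂ) • v := by
    ext g
    have h9 : (dLam k h * Lam k (1 : Matrix ι ι ℝ)) g f = Lam k 1 g f * (rkM M : ℝ) := by
      rw [(dLam_proj k h).2, h4, E06_diag', hsum]
    rw [Matrix.mul_apply] at h9
    have h10 : (φ (dLam k h) *ᵥ v) g = ∑ g', ((dLam k h g g' : ℝ) : ℂ) * ((Lam k 1 g' f : ℝ) : ℂ) :=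
      rfl
    rw [h10, Pi.smul_apply, smul_eq_mul, hv]
    have h11 : ((∑ g', dLam k h g g' * Lam k 1 g' f : ℝ) : ℂ) =
        ((Lam k 1 g f * rkM M : ℝ) : ℂ) := by rw [h9]
    push_cast at h11 ⊢
    rw [h11, mul_comm]
  have c6 := eig_le _ _ _ n c1 c2 c3 _ v c4 c5
  rw [Complex.ofReal_re, hn] at c6
  push_cast at c6
  linarith

end SBX
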