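import Pool.Agent.SBX.V01

/-!
# Row SBX-E07 : Jacobson–Morozov (first half) and the rank function

* `tr_nil` : let `A` be nilpotent and `[A,[A,B]] = 0`.  Then `tr(AB) = 0`.
  PROOF.  Over `ℂ`.  `C = AB - BA` commutes with `A`.  `C` is nilpotent: `e^{tA}Be^{-tA} = B + tC` (derivative
  `[A, ·]`, `[A,C] = 0`), so `tr((B+tC)^n) = tr(B^n)` for all `t`, so (leading coefficient) `tr(C^n) = 0` for all
  `n ≥ 1`, so `C` is nilpotent.  (Or Kleinecke–Shirokov: Mathlib may have it.)  Now let `ABx = λx`, `x ≠ 0`, and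
  `x_k = A^kx`; let `p` be maximal with `x_p ≠ 0`.  `BA^k = A^kB - kA^{k-1}C`, so
  `Bx_{k+1} = BA^{k+1}x = A^{k}(AB)x - (k+1)A^kCx = λx_k - (k+1)Cx_k`.  With `k = p`, `x_{p+1} = 0`:
  `Cx_p = λ/(p+1) x_p`, so `λ = 0` as `C` is nilpotent.  So `AB` has only the eigenvalue `0`, and `tr(AB) = 0`.
* `exists_h` : the form `tr(XY)` on `𝔤` is nondegenerate (`tr(XᵀX) = fsq X`, `Xᵀ ∈ 𝔤`).  The operator
  `T = (ad ξ)²` on `𝔤` is symmetric for it: `tr([ξ,X]Y) = -tr(X[ξ,Y])`.  So `range T = (ker T)^⊥`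
  (finite dimension), and `ξ ∈ (ker T)^⊥` by `tr_nil`.  So `ξ = [ξ,[ξ,y']]`, `y' ∈ 𝔤`; `y = -2y'`,
  `h = [ξ,y]`: `[h,ξ] = -[ξ,h] = 2[ξ,[ξ,y']] = 2ξ`.
* `rk_eq` : `adM B ξ` is the matrix of `adE ξ|_𝔤` in the basis `b`; the rank of a power of the matrix is the
  dimension of the image of `𝔤` (`card_J`).
* `nil_ad` : `ξ^k = 0` implies `(ad ξ)^{2k} = 0` (`ad ξ = ` left mult. `-` right mult., which commute).
-/

open MeasureTheory Filter Topology
open scoped ENNReal NNReal Matrix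

noncomputable section

namespace SBD

variable {N : ℕ} {G : Type} [Group G] [TopologicalSpace G] [IsTopologicalGroup G]
  [LocallyCompactSpace G] [T2Space G]

/-- a matrix with `tr (q(C) C) = 0` for all polynomials `q` is nilpotent -/
theorem e07_nil (C : Mat N) (h : ∀ q : Polynomial ℝ, (Polynomial.aeval C q * C).trace = 0) :
    IsNilpotent C := by
  have hint : IsIntegral ℝ C := Algebra.IsIntegral.isIntegral C
  have hp0 : minpoly ℝ C ≠ 0 := minpoly.ne_zero hint
  obtain ⟨g, hg, hnd⟩ :=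
    (minpoly ℝ C).exists_eq_pow_rootMultiplicity_mul_and_not_dvd hp0 0
  set m := (minpoly ℝ C).rootMultiplicity 0 with hm
  rw [Polynomial.C_0, sub_zero] at hg hnd
  have hmin : Polynomial.aeval C (minpoly ℝ C) = 0 := minpoly.aeval ℝ C
  have hz : C ^ m * Polynomial.aeval C g = 0 := by
    rw [hg, map_mul, map_pow, Polynomial.aeval_X] at hmin
    exact hmin
  have hcop : IsCoprime ((Polynomial.X : Polynomial ℝ) ^ (m + 1)) g := by
    refine IsCoprime.pow_left ?_
    exact (Polynomial.irreducible_X.coprime_iff_not_dvd).2 hnd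
  obtain ⟨a, b, hab⟩ := hcop
  have hab' : Polynomial.aeval C a * C ^ (m + 1) + Polynomial.aeval C b * Polynomial.aeval C g =
      1 := by
    have := congrArg (Polynomial.aeval C) hab
    simpa using this
  have hcomm : ∀ q r : Polynomial ℝ, Polynomial.aeval C q * Polynomial.aeval C r =
      Polynomial.aeval C r * Polynomial.aeval C q := by
    intro q r
    rw [← map_mul, mul_comm, map_mul]
  have hC : ∀ q : Polynomial ℝ, ∀ k : ℕ, C ^ k * Polynomial.aeval C q =
      Polynomial.aeval C q * C ^ k := by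
    intro q k
    have := hcomm (Polynomial.X ^ k) q
    rwa [map_pow, Polynomial.aeval_X] at this
  set e : Mat N := Polynomial.aeval C a * C ^ (m + 1) with he
  have hgb : Polynomial.aeval C b * Polynomial.aeval C g = 1 - e := by
    rw [← hab']
    abel
  have hee : e * (1 - e) = 0 := by
    rw [← hgb, he, pow_succ', mul_assoc, mul_assoc, hcomm b g, ← mul_assoc (C ^ m), hz, zero_mul,
      mul_zero, mul_zero]
  have hidem : IsIdempotentElem e := by
    have : e * e = e := by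
      rw [mul_sub, mul_one] at hee
      exact (sub_eq_zero.1 hee).symm
    exact this
  have htr : e.trace = 0 := by
    have := h (a * Polynomial.X ^ m)
    rw [map_mul, map_pow, Polynomial.aeval_X, mul_assoc, ← pow_succ] at this
    exact this
  have he0 : e = 0 := by
    have h1 : IsIdempotentElem (Matrix.toLin' e) := by
      show Matrix.toLin' e * Matrix.toLin' e = Matrix.toLin' e
      rw [Module.End.mul_eq_comp, ← Matrix.toLin'_mul, hidem.eq]
    have h2 : LinearMap.trace ℝ (Fin N → ℝ) (Matrix.toLin' e) = 0 := by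
      rw [Matrix.trace_toLin'_eq, htr]
    have h3 := LinearMap.IsIdempotentElem.eq_zero_of_trace_eq_zero h1 h2
    exact Matrix.toLin'.injective (by rw [h3, map_zero])
  refine ⟨m, ?_⟩
  have h1 : Polynomial.aeval C b * Polynomial.aeval C g = 1 := by rw [hgb, he0, sub_zero]
  calc C ^ m = C ^ m * (Polynomial.aeval C b * Polynomial.aeval C g) := by rw [h1, mul_one]
    _ = C ^ m * Polynomial.aeval C g * Polynomial.aeval C b := by
      rw [hcomm b g, mul_assoc]
    _ = 0 := by rw [hz, zero_mul]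

theorem e07_comm {A B C : Mat N} (hC : C = A * B - B * A) (hAC : A * C = C * A) (i : ℕ) :
    A ^ (i + 1) * B = B * A ^ (i + 1) + ((i + 1 : ℕ) : ℝ) • (A ^ i * C) := by
  have hAiC : ∀ j : ℕ, A ^ j * C = C * A ^ j := fun j => (Commute.pow_left hAC j).eq
  have hAB : A * B = B * A + C := by rw [hC]; abel
  induction i with
  | zero => simp [hAB]
  | succ i ih =>
    calc A ^ (i + 1 + 1) * B = A * (A ^ (i + 1) * B) := by rw [pow_succ', mul_assoc]
      _ = A * B * A ^ (i + 1) + ((i + 1 : ℕ) : ℝ) • (A ^ (i + 1) * C) := by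
        rw [ih, mul_add, mul_smul_comm, ← mul_assoc, ← mul_assoc A, ← pow_succ']
      _ = B * A ^ (i + 1 + 1) + ((i + 1 + 1 : ℕ) : ℝ) • (A ^ (i + 1) * C) := by
        rw [hAB, add_mul, mul_assoc B, ← pow_succ' A, ← hAiC, add_assoc]
        congr 1
        push_cast
        module

theorem e07_AB {A B C : Mat N} (hC : C = A * B - B * A) (hAC : A * C = C * A) {K M : ℕ}
    (hA : A ^ K = 0) (hM : C ^ M = 0) : IsNilpotent (A * B) := by
  have hAiC : ∀ j : ℕ, A ^ j * C = C * A ^ j := fun j => (Commute.pow_left hAC j).eq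
  have step : ∀ (i : ℕ) (x : Mat N), A ^ (i + 1) * x = 0 → ∀ n : ℕ,
      A ^ (i + 1) * ((A * B) ^ n * x) = 0 ∧
      A ^ i * ((A * B) ^ n * x) = ((i + 1 : ℕ) : ℝ) ^ n • (C ^ n * (A ^ i * x)) := by
    intro i x hx n
    induction n with
    | zero => simp [hx]
    | succ n ih =>
      obtain ⟨h1, h2⟩ := ih
      set y : Mat N := (A * B) ^ n * x with hy
      have e1 : (A * B) ^ (n + 1) * x = A * B * y := by rw [hy, pow_succ', mul_assoc]
      have e2 : A ^ i * (A * B * y) = A ^ (i + 1) * B * y := by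
        rw [pow_succ]
        simp only [mul_assoc]
      have e3 : A ^ i * (A * B * y) = ((i + 1 : ℕ) : ℝ) • (C * (A ^ i * y)) := by
        rw [e2, e07_comm hC hAC i, add_mul, mul_assoc B, h1, mul_zero, zero_add, smul_mul_assoc,
          hAiC, mul_assoc]
      constructor
      · rw [e1, pow_succ', mul_assoc, e3, mul_smul_comm, ← mul_assoc A C, hAC, mul_assoc C A,
          ← mul_assoc A, ← pow_succ', h1, mul_zero, smul_zero]
      · rw [e1, e3, h2, mul_smul_comm, smul_smul, ← mul_assoc C, ← pow_succ' C, ← pow_succ' ((i + 1 : ℕ) : ℝ)]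
  have down : ∀ (i : ℕ) (x : Mat N), A ^ i * x = 0 → (A * B) ^ (M * i) * x = 0 := by
    intro i
    induction i with
    | zero => intro x hx; simpa using hx
    | succ i ih =>
      intro x hx
      have h1 := (step i x hx M).2
      rw [hM, zero_mul, smul_zero] at h1
      have h2 := ih _ h1
      rw [← mul_assoc, ← pow_add] at h2
      rw [Nat.mul_succ]
      exact h2
  refine ⟨M * K, ?_⟩
  have := down K 1 (by rw [hA, zero_mul])
  rwa [mul_one] at this

theorem tr_nil (A B : Mat N) (hA : IsNilpotent A)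
    (h : A * (A * B - B * A) = (A * B - B * A) * A) : (A * B).trace = 0 := by
  obtain ⟨K, hK⟩ := hA
  set C : Mat N := A * B - B * A with hC
  have hq : ∀ q : Polynomial ℝ, (Polynomial.aeval C q * C).trace = 0 := by
    intro q
    have hcomm : A * Polynomial.aeval C q = Polynomial.aeval C q * A := by
      induction q using Polynomial.induction_on' with
      | add p q hp hq => rw [map_add, mul_add, add_mul, hp, hq]
      | monomial n a =>
        rw [Polynomial.aeval_monomial, mul_assoc, ← (Commute.pow_right h n).eq, ← mul_assoc,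
          ← mul_assoc, Algebra.commutes]
    have e : Polynomial.aeval C q * C = A * (Polynomial.aeval C q * B) -
        (Polynomial.aeval C q * B) * A := by
      rw [hC, mul_sub, ← hC, ← mul_assoc A, hcomm]
      simp only [mul_assoc]
    rw [e, Matrix.trace_sub, Matrix.trace_mul_comm, sub_self]
  obtain ⟨M, hM⟩ := e07_nil C hq
  exact (Matrix.isNilpotent_trace_of_isNilpotent (e07_AB hC h hK hM)).eq_zero

theorem e07_fip_sub (X Y Z : Mat N) : fip (X - Y) Z = fip X Z - fip Y Z := by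
  unfold fip
  rw [Matrix.transpose_sub, Matrix.sub_mul, Matrix.trace_sub]

theorem e07_fip_comm (X Y : Mat N) : fip X Y = fip Y X := by
  rw [P01_fip_eq, P01_fip_eq]
  exact Finset.sum_congr rfl fun p _ => mul_comm _ _

theorem e07_fsq_zero {X : Mat N} (h : fip X X = 0) : X = 0 := by
  rw [P01_fip_eq] at h
  ext i j
  have h1 := (Finset.sum_eq_zero_iff_of_nonneg (fun p _ => mul_self_nonneg _)).1 h (i, j)
    (Finset.mem_univ _)
  simpa using h1

theorem exists_h (L : LieData N G) {ξ : Mat N} (hξ : ξ ∈ L.𝔤) (hn : IsNilpotent ξ) :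
    ∃ h ∈ L.𝔤, ∃ y ∈ L.𝔤, h * ξ - ξ * h = (2 : ℝ) • ξ ∧ h = ξ * y - y * ξ := by
  let W : Submodule ℝ (Mat N) := L.𝔤.map (adE ξ ∘ₗ adE ξ)
  have hadE : ∀ X : Mat N, adE ξ X = ξ * X - X * ξ := fun X => rfl
  have hadm : ∀ X ∈ L.𝔤, adE ξ X ∈ L.𝔤 := fun X hX => by
    rw [hadE]
    exact L.bracket_mem ξ hξ X hX
  have hWg : ∀ X ∈ W, X ∈ L.𝔤 := by
    rintro _ ⟨X, hX, rfl⟩
    exact hadm _ (hadm X hX)
  obtain ⟨m, Z, hZ1, hZ2, hZ3⟩ := P01_basis W
  set w : Mat N := ∑ j, fip (Z j) ξ • Z j with hw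
  have hwW : w ∈ W := W.sum_mem fun j _ => W.smul_mem _ (hZ1 j)
  have hwg : w ∈ L.𝔤 := hWg w hwW
  set u : Mat N := ξ - w with hu
  have hug : u ∈ L.𝔤 := L.𝔤.sub_mem hξ hwg
  have hfs : ∀ (X : Mat N) (c : Fin m → ℝ), fip X (∑ j, c j • Z j) = ∑ j, c j * fip X (Z j) := by
    intro X c
    unfold fip
    rw [Matrix.mul_sum, Matrix.trace_sum]
    refine Finset.sum_congr rfl fun j _ => ?_
    rw [Matrix.mul_smul, Matrix.trace_smul, smul_eq_mul]
  have huZ : ∀ j, fip u (Z j) = 0 := by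
    intro j
    rw [hu, e07_fip_sub, e07_fip_comm w, hw, hfs]
    simp only [hZ2]
    simp [e07_fip_comm ξ]
  have huW : ∀ X ∈ W, fip u X = 0 := by
    intro X hX
    rw [hZ3 X hX, hfs]
    simp [huZ]
  have huad : ∀ X ∈ L.𝔤, fip u (adE ξ (adE ξ X)) = 0 := fun X hX =>
    huW _ ⟨X, hX, rfl⟩
  -- the double commutator of `uᵀ` is zero
  have htr : ∀ X : Mat N, fip u (adE ξ (adE ξ X)) =
      ((adE ξ (adE ξ uᵀ)) * X).trace := by
    intro X
    have key : ∀ P Q : Mat N, (P * adE ξ Q).trace = -((adE ξ P) * Q).trace := by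
      intro P Q
      rw [hadE, hadE, Matrix.mul_sub, Matrix.sub_mul, Matrix.trace_sub, Matrix.trace_sub,
        Matrix.mul_assoc ξ P Q, Matrix.trace_mul_comm ξ (P * Q), Matrix.mul_assoc P Q ξ,
        Matrix.mul_assoc P ξ Q]
      ring
    unfold fip
    rw [key, key, neg_neg]
  have hz : adE ξ (adE ξ uᵀ) = 0 := by
    have hmem : adE ξ (adE ξ uᵀ) ∈ L.𝔤 := hadm _ (hadm _ (L.transpose_mem u hug))
    have h1 := huad _ (L.transpose_mem _ hmem)
    rw [htr] at h1
    apply e07_fsq_zero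
    unfold fip
    rw [Matrix.trace_mul_comm]
    exact h1
  have hu0 : u = 0 := by
    apply e07_fsq_zero
    have h1 : (ξ * uᵀ).trace = 0 := by
      refine tr_nil ξ uᵀ hn ?_
      have := hz
      rw [hadE, hadE] at this
      exact sub_eq_zero.1 this
    have h2 : fip u ξ = 0 := by
      unfold fip
      rw [Matrix.trace_mul_comm]
      exact h1
    have h3 : fip u w = 0 := huW w hwW
    have h4 : fip u u = fip u ξ - fip u w := by
      conv_lhs => rw [hu]
      rw [e07_fip_comm, e07_fip_sub, e07_fip_comm ξ, e07_fip_comm w]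
    rw [h4, h2, h3, sub_zero]
  have hξW : ξ ∈ W := by
    have : ξ = w := sub_eq_zero.1 hu0
    rw [this]
    exact hwW
  obtain ⟨y, hy, hyξ⟩ := hξW
  have hyξ' : adE ξ (adE ξ y) = ξ := hyξ
  refine ⟨(-2 : ℝ) • adE ξ y, L.𝔤.smul_mem _ (hadm y hy), (-2 : ℝ) • y, L.𝔤.smul_mem _ hy, ?_, ?_⟩
  · have h1 : ξ * adE ξ y - adE ξ y * ξ = ξ := by rw [← hadE]; exact hyξ'
    rw [smul_mul_assoc, mul_smul_comm, ← smul_sub]
    have h2 : adE ξ y * ξ - ξ * adE ξ y = -ξ := by rw [← neg_sub, h1]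
    rw [h2]
    module
  · rw [hadE, mul_smul_comm, smul_mul_assoc, smul_sub]

/-- the coordinates as a linear map -/
def e07_co {L : LieData N G} (B : Bases L) : (B.J → ℝ) →ₗ[ℝ] Mat N where
  toFun := B.co
  map_add' x y := by
    simp only [Bases.co, Pi.add_apply, add_smul, Finset.sum_add_distrib]
  map_smul' t x := by
    simp only [Bases.co, Pi.smul_apply, smul_eq_mul, mul_smul, Finset.smul_sum, RingHom.id_apply]

theorem e07_co_apply {L : LieData N G} (B : Bases L) (x : B.J → ℝ) : e07_co B x = B.co x := rfl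

theorem e07_co_inj {L : LieData N G} (B : Bases L) : Function.Injective (e07_co B) := by
  intro x y h
  funext i
  rw [← fip_co B x i, ← fip_co B y i]
  exact congrArg (fip (B.b i)) h

theorem e07_co_range {L : LieData N G} (B : Bases L) : LinearMap.range (e07_co B) = L.𝔤 := by
  ext X
  constructor
  · rintro ⟨x, rfl⟩
    exact co_mem B x
  · intro hX
    exact ⟨fun i => fip (B.b i) X, (b_basis B hX).symm⟩

theorem e07_co_ad {L : LieData N G} (B : Bases L) {ξ : Mat N} (hξ : ξ ∈ L.𝔤) (x : B.J → ℝ) :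
    e07_co B (Matrix.mulVec (adM B ξ) x) = adE ξ (e07_co B x) := by
  have h1 : adE ξ (e07_co B x) ∈ L.𝔤 := L.bracket_mem ξ hξ _ (co_mem B x)
  rw [b_basis B h1]
  show ∑ i, (Matrix.mulVec (adM B ξ) x) i • B.b i = _
  refine Finset.sum_congr rfl fun i _ => ?_
  congr 1
  show _ = fip (B.b i) (ξ * B.co x - B.co x * ξ)
  rw [adM_coord B hξ (co_mem B x)]
  show ∑ j, adM B ξ i j * x j = _
  refine Finset.sum_congr rfl fun j _ => ?_
  rw [fip_co]

theorem e07_co_pow {L : LieData N G} (B : Bases L) {ξ : Mat N} (hξ : ξ ∈ L.𝔤) (k : ℕ)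
    (x : B.J → ℝ) :
    e07_co B (Matrix.mulVec (adM B ξ ^ k) x) = (adE ξ ^ k) (e07_co B x) := by
  induction k generalizing x with
  | zero => simp
  | succ k ih =>
    rw [pow_succ, ← Matrix.mulVec_mulVec, ih, e07_co_ad B hξ, pow_succ, Module.End.mul_apply]

theorem e07_finrank {L : LieData N G} (B : Bases L) {ξ : Mat N} (hξ : ξ ∈ L.𝔤) (k : ℕ) :
    Module.finrank ℝ (L.𝔤.map (adE ξ ^ k)) = (adM B ξ ^ k).rank := by
  have h1 : L.𝔤.map (adE ξ ^ k) =
      (LinearMap.range (adM B ξ ^ k).mulVecLin).map (e07_co B) := by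
    rw [← e07_co_range B]
    ext X
    constructor
    · rintro ⟨_, ⟨x, rfl⟩, rfl⟩
      refine ⟨(adM B ξ ^ k).mulVecLin x, ⟨x, rfl⟩, ?_⟩
      rw [Matrix.mulVecLin_apply, e07_co_pow B hξ]
    · rintro ⟨_, ⟨x, rfl⟩, rfl⟩
      refine ⟨e07_co B x, ⟨x, rfl⟩, ?_⟩
      rw [Matrix.mulVecLin_apply, e07_co_pow B hξ]
  rw [h1, Matrix.rank]
  exact (Submodule.equivMapOfInjective (e07_co B) (e07_co_inj B) _).symm.finrank_eq

theorem rk_eq {L : LieData N G} (B : Bases L) {ξ : Mat N} (hξ : ξ ∈ L.𝔤) :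
    rk L ξ = SBX.rkM (adM B ξ) := by
  unfold rk SBX.rkM
  rw [card_J B]
  exact Finset.sum_congr rfl fun i _ => e07_finrank B hξ _

theorem nil_ad {L : LieData N G} (B : Bases L) {ξ : Mat N} (hξ : ξ ∈ L.𝔤)
    (hn : IsNilpotent ξ) : IsNilpotent (adM B ξ) := by
  obtain ⟨k, hk⟩ := hn
  have h1 : IsNilpotent (LinearMap.mulLeft ℝ ξ) :=
    ⟨k, by rw [LinearMap.pow_mulLeft, hk, LinearMap.mulLeft_zero_eq_zero]⟩
  have h2 : IsNilpotent (LinearMap.mulRight ℝ ξ) :=
    ⟨k, by rw [LinearMap.pow_mulRight, hk, LinearMap.mulRight_zero_eq_zero]⟩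
  have h3 : IsNilpotent (adE ξ) := by
    unfold adE
    exact (LinearMap.commute_mulLeft_right ξ ξ).isNilpotent_sub h1 h2
  obtain ⟨m, hm⟩ := h3
  refine ⟨m, ?_⟩
  have h4 : Matrix.mulVecLin (adM B ξ ^ m) = 0 := by
    refine LinearMap.ext fun x => e07_co_inj B ?_
    rw [Matrix.mulVecLin_apply, e07_co_pow B hξ, hm]
    simp
  exact Matrix.toLin'.injective (by rw [Matrix.toLin'_apply', h4, map_zero])

end SBD
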