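import Pool.Agent.SBX.V01
import Pool.Agent.SBX.E02

/-!
# Row SBX-V02 : basic properties of `δ(g) = det(1 + Ad(g)ᵀAd(g))^{1/2}`

Everything from `det_one_add_sq` (E01): `dl g ^ 2 = ∑_k ‖Lam k (AdM g)‖_F²` (`‖·‖_F` = Frobenius norm).
* `dl_sq` : `1 + AᵀA` is positive definite.
* `one_le_dl` : the term `k = 0` is `1` (`Lam 0 A = 1`).
* `dl_mul_le` : `Lam_mul` and `‖XY‖_F ≤ ‖X‖_F‖Y‖_F`: `∑_k ‖L_k(g)‖²‖L_k(h)‖² ≤ (∑‖L_k(g)‖²)(∑‖L_k(h)‖²)`.
* `dl_inv` : `|det AdM g| = 1` : for `k ∈ K` orthogonal; `det AdM(e X) = det exp(adM X) = exp(tr adM X) = 1`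
  (`Matrix.det_exp`, `tr_adM`); `L.polar`.  With `A = AdM g`:
  `1 + A⁻ᵀA⁻¹ = A⁻ᵀ(AᵀA + 1)A⁻¹`, take determinants.
* `dl_K_left/right` : `AdM(kg) = AdM k AdM g`, `(AdM k)ᵀAdM k = 1`; `det(1 + kᵀAᵀAk) = det(kᵀ(1+AᵀA)k)`.
* `dl_line` : `Lam k (AdM(g e(tX))) = Lam k (AdM g) exp(t dLam k (adM X)) Lam k 1`; `Lam k 1` is a symmetric
  projection, so `‖Lam k(AdM(g e(tX)))‖_F ≤ ‖Lam k (AdM g)‖_F e^{|t| ‖dLam k (adM X)‖_op}` and
  `‖dLam k (adM X)‖ ≤ c √(fsq X)` for all `k ≤ card J` (`dLam`, `adM` linear, `adM_le`; finite dimension).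
-/

open MeasureTheory Filter Topology
open scoped ENNReal NNReal Matrix

noncomputable section

namespace SBD

variable {N : ℕ} {G : Type} [Group G] [TopologicalSpace G] [IsTopologicalGroup G]
  [LocallyCompactSpace G] [T2Space G]

variable {L : LieData N G} (B : Bases L)

private theorem V02_sq_le {a b : ℝ} (h : a ^ 2 ≤ b ^ 2) (hb : 0 ≤ b) : a ≤ b :=
  abs_le_of_sq_le_sq' h hb |>.2

section V02aux

variable {κ : Type} [Fintype κ] [DecidableEq κ]

private def V02_FS (M : Matrix κ κ ℝ) : ℝ := ∑ i, ∑ j, M i j ^ 2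

private theorem V02_FS_nonneg (M : Matrix κ κ ℝ) : 0 ≤ V02_FS M :=
  Finset.sum_nonneg fun _ _ => Finset.sum_nonneg fun _ _ => sq_nonneg _

open scoped Matrix.Norms.Frobenius in
private theorem V02_FS_norm (M : Matrix κ κ ℝ) : V02_FS M = ‖M‖ ^ 2 := by
  rw [Matrix.frobenius_norm_def]
  have h0 : (0 : ℝ) ≤ ∑ i, ∑ j, ‖M i j‖ ^ (2 : ℝ) :=
    Finset.sum_nonneg fun _ _ => Finset.sum_nonneg fun _ _ => by positivity
  rw [← Real.sqrt_eq_rpow, Real.sq_sqrt h0]
  unfold V02_FS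
  refine Finset.sum_congr rfl fun i _ => Finset.sum_congr rfl fun j _ => ?_
  rw [Real.rpow_two, Real.norm_eq_abs, sq_abs]

open scoped Matrix.Norms.Frobenius in
private theorem V02_FS_mul (M M' : Matrix κ κ ℝ) : V02_FS (M * M') ≤ V02_FS M * V02_FS M' := by
  rw [V02_FS_norm, V02_FS_norm, V02_FS_norm, ← mul_pow]
  exact pow_le_pow_left₀ (norm_nonneg _) (norm_mul_le _ _) 2

open scoped Matrix.Norms.Frobenius in
private theorem V02_norm_mul_exp (Y D : Matrix κ κ ℝ) :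
    ‖Y * NormedSpace.exp D‖ ≤ ‖Y‖ * Real.exp ‖D‖ := by
  have h1 : HasSum (fun n : ℕ => ((n.factorial : ℝ)⁻¹) • D ^ n) (NormedSpace.exp D) :=
    NormedSpace.exp_series_hasSum_exp' D
  have h2 : HasSum (fun n : ℕ => Y * (((n.factorial : ℝ)⁻¹) • D ^ n)) (Y * NormedSpace.exp D) :=
    h1.mul_left Y
  have h3 : HasSum (fun n : ℕ => ((n.factorial : ℝ)⁻¹) • ‖D‖ ^ n) (NormedSpace.exp ‖D‖) :=
    NormedSpace.exp_series_hasSum_exp' ‖D‖
  rw [← Real.exp_eq_exp_ℝ] at h3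
  have h4 := h3.mul_left ‖Y‖
  have h5 : ∀ n : ℕ, ‖Y * D ^ n‖ ≤ ‖Y‖ * ‖D‖ ^ n := by
    intro n
    induction n with
    | zero => simp
    | succ n ih =>
      rw [pow_succ, ← mul_assoc, pow_succ, ← mul_assoc]
      exact (norm_mul_le _ _).trans (mul_le_mul_of_nonneg_right ih (norm_nonneg _))
  refine h2.norm_le_of_bounded h4 fun n => ?_
  rw [mul_smul_comm, norm_smul, smul_eq_mul, Real.norm_eq_abs, abs_of_nonneg (by positivity)]
  calc ((n.factorial : ℝ)⁻¹) * ‖Y * D ^ n‖ ≤ ((n.factorial : ℝ)⁻¹) * (‖Y‖ * ‖D‖ ^ n) :=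
        mul_le_mul_of_nonneg_left (h5 n) (by positivity)
    _ = ‖Y‖ * (((n.factorial : ℝ)⁻¹) * ‖D‖ ^ n) := by ring

open scoped Matrix.Norms.Frobenius in
private theorem V02_FS_exp (Y D : Matrix κ κ ℝ) (s : ℝ) (hs : ‖D‖ ≤ s) :
    V02_FS (Y * NormedSpace.exp D) ≤ V02_FS Y * Real.exp s ^ 2 := by
  rw [V02_FS_norm, V02_FS_norm, ← mul_pow]
  refine pow_le_pow_left₀ (norm_nonneg _) ((V02_norm_mul_exp Y D).trans ?_) 2
  exact mul_le_mul_of_nonneg_left (Real.exp_le_exp.2 hs) (norm_nonneg _)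

private theorem V02_comm_exp (P D : Matrix κ κ ℝ) (h : P * D = D * P) :
    P * NormedSpace.exp D = NormedSpace.exp D * P := by
  open scoped Matrix.Norms.Frobenius in
  exact (Commute.exp_right (show Commute P D from h)).eq

private theorem V02_diag (M : Matrix κ κ ℝ) (hM : Mᵀ = M) :
    (NormedSpace.exp M).det = Real.exp M.trace := by
  have hH : M.IsHermitian := by
    rw [Matrix.IsHermitian, Matrix.conjTranspose_eq_transpose_of_trivial, hM]
  have h1 := hH.spectral_theorem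
  set U : Matrix κ κ ℝ := (hH.eigenvectorUnitary : Matrix κ κ ℝ) with hU
  have hUU : U * Uᴴ = 1 := by
    have := Matrix.mem_unitaryGroup_iff.1 hH.eigenvectorUnitary.2
    simpa [Matrix.star_eq_conjTranspose] using this
  have hUU' : Uᴴ * U = 1 := by
    have := Matrix.mem_unitaryGroup_iff'.1 hH.eigenvectorUnitary.2
    simpa [Matrix.star_eq_conjTranspose] using this
  have h2 : M = U * Matrix.diagonal hH.eigenvalues * Uᴴ := by
    rw [Unitary.conjStarAlgAut_apply] at h1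
    simpa [Matrix.star_eq_conjTranspose, Function.comp_def] using h1
  have hinv : U⁻¹ = Uᴴ := Matrix.inv_eq_right_inv hUU
  have hunit : IsUnit U := by
    rw [Matrix.isUnit_iff_isUnit_det]
    exact Matrix.isUnit_det_of_right_inverse hUU
  have h3 : NormedSpace.exp M = U * Matrix.diagonal (fun i => Real.exp (hH.eigenvalues i)) * Uᴴ := by
    conv_lhs => rw [h2, ← hinv]
    rw [Matrix.exp_conj U _ hunit, Matrix.exp_diagonal, hinv]
    congr 2
    congr 1
    ext i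
    rw [Real.exp_eq_exp_ℝ]
    exact Pi.coe_exp _ i
  have h4 : (U * Matrix.diagonal (fun i => Real.exp (hH.eigenvalues i)) * Uᴴ).det =
      ∏ i, Real.exp (hH.eigenvalues i) := by
    rw [Matrix.det_mul, Matrix.det_mul, mul_comm U.det, mul_assoc, ← Matrix.det_mul, hUU,
      Matrix.det_one, mul_one, Matrix.det_diagonal]
  have h5 : M.trace = ∑ i, hH.eigenvalues i := by
    conv_lhs => rw [h2]
    rw [Matrix.mul_assoc, Matrix.trace_mul_comm, Matrix.mul_assoc, hUU', Matrix.mul_one,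
      Matrix.trace_diagonal]
  rw [h3, h4, h5, Real.exp_sum]

end V02aux

private theorem V02_det_nonneg (g : G) : 0 ≤ (1 + (AdM B g)ᵀ * AdM B g).det := by
  rw [SBX.det_one_add_sq]
  exact Finset.sum_nonneg fun _ _ => Finset.sum_nonneg fun _ _ =>
    Finset.sum_nonneg fun _ _ => sq_nonneg _

theorem dl_sq (g : G) : dl B g ^ 2 = (1 + (AdM B g)ᵀ * AdM B g).det := by
  unfold dl
  exact Real.sq_sqrt (V02_det_nonneg B g)

private theorem V02_dl_sum (g : G) : dl B g ^ 2 =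
    ∑ k ∈ Finset.range (Fintype.card B.J + 1), V02_FS (SBX.Lam k (AdM B g)) := by
  rw [dl_sq, SBX.det_one_add_sq]
  rfl

private theorem V02_dl_nonneg (g : G) : 0 ≤ dl B g := Real.sqrt_nonneg _

theorem one_le_dl (g : G) : 1 ≤ dl B g := by
  have h1 : (1 : ℝ) ≤ dl B g ^ 2 := by
    rw [V02_dl_sum]
    have h2 : V02_FS (SBX.Lam 0 (AdM B g)) = 1 := by
      unfold V02_FS SBX.Lam
      simp
    calc (1 : ℝ) = V02_FS (SBX.Lam 0 (AdM B g)) := h2.symm
      _ ≤ _ := Finset.single_le_sum (f := fun k => V02_FS (SBX.Lam k (AdM B g)))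
          (fun k _ => V02_FS_nonneg _) (by simp)
  have h3 := V02_dl_nonneg B g
  nlinarith

theorem dl_cont : Continuous (dl B) := by
  unfold dl
  have h := AdM_cont B
  exact Real.continuous_sqrt.comp
    ((continuous_const.add (h.matrix_transpose.matrix_mul h)).matrix_det)

theorem dl_mul_le (g h : G) : dl B (g * h) ≤ dl B g * dl B h := by
  have h0 : dl B (g * h) ^ 2 ≤ (dl B g * dl B h) ^ 2 := by
    rw [mul_pow, V02_dl_sum, V02_dl_sum, V02_dl_sum]
    calc ∑ k ∈ Finset.range (Fintype.card B.J + 1), V02_FS (SBX.Lam k (AdM B (g * h)))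
        ≤ ∑ k ∈ Finset.range (Fintype.card B.J + 1),
          V02_FS (SBX.Lam k (AdM B g)) * V02_FS (SBX.Lam k (AdM B h)) := by
          refine Finset.sum_le_sum fun k _ => ?_
          rw [AdM_mul, SBX.Lam_mul]
          exact V02_FS_mul _ _
      _ ≤ ∑ k ∈ Finset.range (Fintype.card B.J + 1),
          V02_FS (SBX.Lam k (AdM B g)) *
            ∑ l ∈ Finset.range (Fintype.card B.J + 1), V02_FS (SBX.Lam l (AdM B h)) := by
          refine Finset.sum_le_sum fun k hk => ?_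
          refine mul_le_mul_of_nonneg_left ?_ (V02_FS_nonneg _)
          exact Finset.single_le_sum (f := fun l => V02_FS (SBX.Lam l (AdM B h)))
            (fun l _ => V02_FS_nonneg _) hk
      _ = _ := by rw [Finset.sum_mul]
  exact V02_sq_le h0 (mul_nonneg (V02_dl_nonneg B g) (V02_dl_nonneg B h))

private theorem V02_det_sq (g : G) : (AdM B g).det ^ 2 = 1 := by
  obtain ⟨k, X, hX, hXt, hk, rfl⟩ := L.polar g
  rw [AdM_mul, Matrix.det_mul, AdM_e B hX, V02_diag _ (by rw [adM_t, hXt]), tr_adM, Real.exp_zero,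
    mul_one]
  have h1 := (AdM_K B (show k ∈ L.K from hk)).1
  have h2 := congrArg Matrix.det h1
  rw [Matrix.det_mul, Matrix.det_transpose, Matrix.det_one] at h2
  rw [sq]
  exact h2

theorem dl_inv (g : G) : dl B g⁻¹ = dl B g := by
  unfold dl
  congr 1
  have h1 := (AdM_inv B g).1
  have h2 : 1 + (AdM B g⁻¹)ᵀ * AdM B g⁻¹ =
      (AdM B g⁻¹)ᵀ * (1 + (AdM B g)ᵀ * AdM B g) * AdM B g⁻¹ := by
    have h3 : (AdM B g⁻¹)ᵀ * (AdM B g)ᵀ = 1 := by
      rw [← Matrix.transpose_mul, h1, Matrix.transpose_one]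
    rw [Matrix.mul_add, Matrix.add_mul, Matrix.mul_one, ← Matrix.mul_assoc, h3, Matrix.one_mul, h1,
      add_comm]
  rw [h2, Matrix.det_mul, Matrix.det_mul, Matrix.det_transpose]
  have h4 := V02_det_sq B g⁻¹
  calc (AdM B g⁻¹).det * (1 + (AdM B g)ᵀ * AdM B g).det * (AdM B g⁻¹).det
      = (AdM B g⁻¹).det ^ 2 * (1 + (AdM B g)ᵀ * AdM B g).det := by ring
    _ = _ := by rw [h4, one_mul]

theorem dl_K_left {k : G} (hk : k ∈ L.K) (g : G) : dl B (k * g) = dl B g := by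
  unfold dl
  congr 2
  have h1 := (AdM_K B hk).1
  rw [AdM_mul, Matrix.transpose_mul]
  calc 1 + (AdM B g)ᵀ * (AdM B k)ᵀ * (AdM B k * AdM B g)
      = 1 + (AdM B g)ᵀ * ((AdM B k)ᵀ * AdM B k) * AdM B g := by simp only [Matrix.mul_assoc]
    _ = _ := by rw [h1, Matrix.mul_one]

theorem dl_K_right {k : G} (hk : k ∈ L.K) (g : G) : dl B (g * k) = dl B g := by
  unfold dl
  congr 1
  have h1 := (AdM_K B hk).1
  have h2 : 1 + (AdM B (g * k))ᵀ * AdM B (g * k) =
      (AdM B k)ᵀ * (1 + (AdM B g)ᵀ * AdM B g) * AdM B k := by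
    rw [AdM_mul, Matrix.transpose_mul, Matrix.mul_add, Matrix.add_mul, Matrix.mul_one, h1]
    simp only [Matrix.mul_assoc]
  rw [h2, Matrix.det_mul, Matrix.det_mul, mul_comm ((AdM B k)ᵀ).det, mul_assoc, ← Matrix.det_mul,
    h1, Matrix.det_one, mul_one]

set_option backward.isDefEq.respectTransparency false in
open scoped Matrix.Norms.Frobenius in
private theorem V02_dLam_bound {κ : Type} [Fintype κ] [DecidableEq κ] (k : ℕ) :
    ∃ C : ℝ, 0 ≤ C ∧ ∀ M : Matrix κ κ ℝ, ‖SBX.dLam k M‖ ≤ C * ‖M‖ := by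
  let f : Matrix κ κ ℝ →ₗ[ℝ] Matrix (Fin k → κ) (Fin k → κ) ℝ :=
    { toFun := SBX.dLam k
      map_add' := SBX.dLam_add k
      map_smul' := fun c M => SBX.dLam_smul k c M }
  refine ⟨‖LinearMap.toContinuousLinearMap f‖, norm_nonneg _, fun M => ?_⟩
  exact (LinearMap.toContinuousLinearMap f).le_opNorm M

open scoped Matrix.Norms.Frobenius in
theorem dl_line : ∃ c : ℝ, 0 ≤ c ∧ ∀ X ∈ L.𝔤, ∀ (g : G) (t : ℝ),
    dl B (g * L.e (t • X)) ≤ Real.exp (c * |t| * Real.sqrt (fsq X)) * dl B g := by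
  obtain ⟨C0, hC0, hC0'⟩ := adM_le B
  have hk := fun k : ℕ => V02_dLam_bound (κ := B.J) k
  choose C hC hC' using hk
  set c : ℝ := (∑ k ∈ Finset.range (Fintype.card B.J + 1), C k) * Real.sqrt C0 with hc
  refine ⟨c, mul_nonneg (Finset.sum_nonneg fun k _ => hC k) (Real.sqrt_nonneg _), ?_⟩
  intro X hX g t
  have hM : ‖adM B X‖ ≤ Real.sqrt C0 * Real.sqrt (fsq X) := by
    rw [← Real.sqrt_mul hC0.le]
    apply Real.le_sqrt_of_sq_le
    rw [← V02_FS_norm]
    exact hC0' X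
  have hmain : dl B (g * L.e (t • X)) ^ 2 ≤
      (Real.exp (c * |t| * Real.sqrt (fsq X)) * dl B g) ^ 2 := by
    rw [mul_pow, V02_dl_sum, V02_dl_sum, Finset.mul_sum]
    refine Finset.sum_le_sum fun k hk => ?_
    have htX : t • X ∈ L.𝔤 := L.𝔤.smul_mem t hX
    have h1 : SBX.Lam k (AdM B (g * L.e (t • X))) =
        SBX.Lam k (AdM B g) * NormedSpace.exp (t • SBX.dLam k (adM B X)) := by
      rw [AdM_mul, AdM_e B htX, adM_smul, SBX.Lam_mul, SBX.Lam_exp, SBX.dLam_smul]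
      have hcom : SBX.Lam k (1 : Matrix B.J B.J ℝ) * (t • SBX.dLam k (adM B X)) =
          (t • SBX.dLam k (adM B X)) * SBX.Lam k (1 : Matrix B.J B.J ℝ) := by
        rw [mul_smul_comm, smul_mul_assoc, (SBX.dLam_proj k (adM B X)).1,
          (SBX.dLam_proj k (adM B X)).2]
      rw [← V02_comm_exp _ _ hcom, ← Matrix.mul_assoc, ← SBX.Lam_mul, Matrix.mul_one]
    rw [h1, mul_comm (Real.exp _ ^ 2)]
    apply V02_FS_exp
    rw [norm_smul, Real.norm_eq_abs]
    have h2 : C k ≤ ∑ k ∈ Finset.range (Fintype.card B.J + 1), C k :=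
      Finset.single_le_sum (fun l _ => hC l) hk
    calc |t| * ‖SBX.dLam k (adM B X)‖ ≤ |t| * (C k * ‖adM B X‖) :=
          mul_le_mul_of_nonneg_left (hC' k _) (abs_nonneg _)
      _ ≤ |t| * ((∑ k ∈ Finset.range (Fintype.card B.J + 1), C k) *
            (Real.sqrt C0 * Real.sqrt (fsq X))) := by
          refine mul_le_mul_of_nonneg_left ?_ (abs_nonneg _)
          exact mul_le_mul h2 hM (norm_nonneg _) ((hC k).trans h2)
      _ = c * |t| * Real.sqrt (fsq X) := by rw [hc]; ring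
  exact V02_sq_le hmain (mul_nonneg (Real.exp_pos _).le (V02_dl_nonneg B g))

end SBD
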