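import Pool.Agent.SBX.E07
import Pool.Agent.SBX.E06
import Pool.Agent.SBX.E04
import Pool.Agent.SBX.V02

/-!
# Row SBX-E08 : `δ(e(τh)) ≤ C e^{τ(rk ξ + η)}`

PROOF.  `dl(e(τh))² = ∑_k ‖Lam k (AdM(e(τh)))‖_F²` (`det_one_add_sq`), `AdM(e(τh)) = exp(τ adM h)`,
`Lam k (exp(τ adM h)) = exp(τ dLam k (adM h)) Lam k 1` (`Lam_exp`, `dLam_smul`, `adM_smul`).  Let
`x = dLam k (adM ξ)`, `y' = dLam k (adM y)`, `h' = dLam k (adM h)` (complexified): `h'x - xh' = 2x`,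
`h' = xy' - y'x` (`adM_lie`, `dLam_lie`, linearity), and `x^{n+1} = 0`, `n = rkM(adM ξ) = rk ξ` (E06, E07).  By
E03 every complex eigenvalue of `h'` has real part `≤ n`, so by E04 the entries of `exp(τh')` are
`≤ C e^{(n+η)τ}`.
-/

open MeasureTheory Filter Topology
open scoped ENNReal NNReal Matrix

noncomputable section

namespace SBD

variable {N : ℕ} {G : Type} [Group G] [TopologicalSpace G] [IsTopologicalGroup G]
  [LocallyCompactSpace G] [T2Space G]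

theorem dl_h {L : LieData N G} (B : Bases L) {ξ h y : Mat N} (hξ : ξ ∈ L.𝔤) (hh : h ∈ L.𝔤)
    (hy : y ∈ L.𝔤) (hn : IsNilpotent ξ) (h1 : h * ξ - ξ * h = (2 : ℝ) • ξ)
    (h2 : h = ξ * y - y * ξ) (η : ℝ) (hη : 0 < η) :
    ∃ C : ℝ, 0 < C ∧ ∀ τ : ℝ, 0 ≤ τ →
      dl B (L.e (τ • h)) ≤ C * Real.exp (((rk L ξ : ℝ) + η) * τ) := by
  have heig : ∀ (k : ℕ) (c : ℂ) (v : (Fin k → B.J) → ℂ), v ≠ 0 →
      ((SBX.dLam k (adM B h)).map ((↑) : ℝ → ℂ)) *ᵥ v = c • v → c.re ≤ (rk L ξ : ℝ) := by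
    intro k c v hv hc
    have e1 : SBX.dLam k (adM B h) * SBX.dLam k (adM B ξ)
        - SBX.dLam k (adM B ξ) * SBX.dLam k (adM B h) = (2 : ℝ) • SBX.dLam k (adM B ξ) := by
      rw [← SBX.dLam_lie, ← adM_lie B hh hξ, h1, adM_smul, SBX.dLam_smul]
    have e2 : SBX.dLam k (adM B h) = SBX.dLam k (adM B ξ) * SBX.dLam k (adM B y)
        - SBX.dLam k (adM B y) * SBX.dLam k (adM B ξ) := by
      rw [← SBX.dLam_lie, ← adM_lie B hξ hy, ← h2]
    have e3 : SBX.dLam k (adM B ξ) ^ (rk L ξ + 1) = 0 := by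
      rw [rk_eq B hξ]
      exact SBX.dLam_pow_eq_zero _ (nil_ad B hξ hn) k
    have f1 := congrArg (Complex.ofRealHom.mapMatrix (m := Fin k → B.J)) e1
    have f2 := congrArg (Complex.ofRealHom.mapMatrix (m := Fin k → B.J)) e2
    have f3 := congrArg (Complex.ofRealHom.mapMatrix (m := Fin k → B.J)) e3
    rw [map_sub, map_mul, map_mul] at f1 f2
    rw [map_pow, map_zero] at f3
    have f4 : Complex.ofRealHom.mapMatrix (m := Fin k → B.J)
        ((2 : ℝ) • SBX.dLam k (adM B ξ)) =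
        (2 : ℂ) • Complex.ofRealHom.mapMatrix (m := Fin k → B.J) (SBX.dLam k (adM B ξ)) := by
      ext i j
      simp [RingHom.mapMatrix_apply, Matrix.map_apply, Matrix.smul_apply]
    rw [f4] at f1
    exact SBX.eig_le _ _ _ (rk L ξ) f1 f2 f3 c v hv hc
  choose C hC0 hC using fun k : ℕ =>
    SBX.exp_growth (SBX.dLam k (adM B h)) (rk L ξ : ℝ) (heig k) η hη
  set E : ℝ → ℝ := fun τ => Real.exp (((rk L ξ : ℝ) + η) * τ) with hE
  have hEpos : ∀ τ, 0 < E τ := fun τ => Real.exp_pos _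
  set D : (k : ℕ) → (Fin k → B.J) → (Fin k → B.J) → ℝ := fun k f g =>
    ∑ g' : Fin k → B.J, C k * |SBX.Lam k (1 : Matrix B.J B.J ℝ) g' g| with hD
  have hLam : ∀ τ : ℝ, 0 ≤ τ → ∀ (k : ℕ) (f g : Fin k → B.J),
      |SBX.Lam k (AdM B (L.e (τ • h))) f g| ≤ D k f g * E τ := by
    intro τ hτ k f g
    have e1 : SBX.Lam k (AdM B (L.e (τ • h))) =
        NormedSpace.exp (τ • SBX.dLam k (adM B h)) * SBX.Lam k 1 := by
      rw [AdM_e B (L.𝔤.smul_mem τ hh), SBX.Lam_exp, adM_smul, SBX.dLam_smul]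
    rw [e1, Matrix.mul_apply]
    refine (Finset.abs_sum_le_sum_abs _ _).trans ?_
    rw [hD, Finset.sum_mul]
    refine Finset.sum_le_sum fun g' _ => ?_
    rw [abs_mul]
    have e2 := hC k τ hτ f g'
    calc |NormedSpace.exp (τ • SBX.dLam k (adM B h)) f g'| * |SBX.Lam k 1 g' g|
        ≤ (C k * E τ) * |SBX.Lam k 1 g' g| :=
          mul_le_mul_of_nonneg_right e2 (abs_nonneg _)
      _ = C k * |SBX.Lam k 1 g' g| * E τ := by ring
  set SS : ℝ := ∑ k ∈ Finset.range (Fintype.card B.J + 1), ∑ f : Fin k → B.J,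
    ∑ g : Fin k → B.J, (D k f g) ^ 2 with hS
  have hS0 : 0 ≤ SS := by
    refine Finset.sum_nonneg fun k _ => Finset.sum_nonneg fun f _ =>
      Finset.sum_nonneg fun g _ => sq_nonneg _
  refine ⟨Real.sqrt SS + 1, by positivity, ?_⟩
  intro τ hτ
  have hdet : (1 + (AdM B (L.e (τ • h)))ᵀ * AdM B (L.e (τ • h))).det ≤ SS * (E τ) ^ 2 := by
    rw [SBX.det_one_add_sq, hS, Finset.sum_mul]
    refine Finset.sum_le_sum fun k _ => ?_
    rw [Finset.sum_mul]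
    refine Finset.sum_le_sum fun f _ => ?_
    rw [Finset.sum_mul]
    refine Finset.sum_le_sum fun g _ => ?_
    rw [← mul_pow]
    refine sq_le_sq' ?_ ?_
    · exact (abs_le.mp (hLam τ hτ k f g)).1
    · exact (abs_le.mp (hLam τ hτ k f g)).2
  have hfin : dl B (L.e (τ • h)) ≤ Real.sqrt SS * E τ := by
    unfold dl
    refine (Real.sqrt_le_sqrt hdet).trans ?_
    rw [Real.sqrt_mul hS0, Real.sqrt_sq (hEpos τ).le]
  have h3 : Real.sqrt SS * E τ ≤ (Real.sqrt SS + 1) * E τ :=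
    mul_le_mul_of_nonneg_right (by linarith) (hEpos τ).le
  exact hfin.trans h3

end SBD
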