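import Pool.Agent.SBX.U07
import Pool.Agent.SBX.Defs

/-!
# Row SBX-L01 : points of the asymptotic cone are coherent limit points (frequency cutoff)

PROOF.  Let `ξ ∈ AC`, `M = √(fsq ξ)`, `m = A.m`, and `C₁ = 1 + m(M+1)²`, `C = 16C₁ + 1`.  Given `0 < ε ≤ 1` (WLOG), take
`t < ε'` (to be chosen, `ε' ≤ 1/2`, `ε' ≤ ε/4`), `v`, `‖v‖ = 1`, `y_X` from `ξ ∈ AC` with `ε'`.  `R = 1/t`.
`‖y_X‖ ≤ (M+1)√(fsq X) R`.  By `cheb` for `y = v`, `yd i = y_{Z_i}`: for every `Λ ≥ 1` with `v_Λ ∈ low Λ` the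
orthogonal projection of `v`: `Λ‖v - v_Λ‖² ≤ 1 + m(M+1)²R² ≤ C₁R²`.  So for `Λ ≥ 4C₁R²`, `‖v_Λ‖² ≥ 3/4`.
Let `C₂` be the constant of `band` (A03).  For `Λ ∈ [4C₁R²,8C₁R²]` let `win(Λ)` be the sum of the `eig l` with
`|l - Λ| ≤ 3C₂√Λ`.  The intervals for `Λ_k = 4C₁R² + 7C₂√(8C₁)R k`, `0 ≤ k < k₀`, `k₀ ≥ c R`, are disjoint, so (Bessel)
some `Λ = Λ_k` has `‖proj_{win(Λ)}v‖² ≤ 1/k₀ ≤ C₃/R`.
Put `v' = v_Λ ∈ low Λ ⊆ low(CR²)`.  Claim: `‖D(X)v' - P_Λy_X‖ ≤ C₄√(fsq X)R·(C₃/R)^{1/2}` (`P_Λ` = projection to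
`low Λ`).  For `u ∈ V` with `‖u‖ ≤ 1`: `⟨u,D(X)v'⟩ = -⟨P_ΛD(X)u,v⟩` and `⟨u,P_Λy_X⟩ = ⟨P_Λu,y_X⟩ = -⟨D(X)P_Λu,v⟩`
(skewness between `V` and `v`, as in U07), so the difference is `⟨(1-P_Λ)D(X)P_Λu - P_ΛD(X)(1-P_Λ)u, v⟩`.  By `band`
`(1-P_Λ)D(X)P_Λu = (1-P_Λ)D(X)P_{win}P_Λu` and it lies in `win(Λ)`; similarly the other term
`P_ΛD(X)(1-P_Λ)u = P_ΛD(X)P_{win}(1-P_Λ)u ∈ win(Λ)` (an `l > Λ` with `l - C₂√l ≤ Λ` has `l ≤ Λ + 3C₂√Λ` for `Λ` large);
by A04 their norms are `≤ C_5√(fsq X)√(2Λ)‖u‖`.  Pairing with `v`, only `proj_{win}v` matters.  This gives the claim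
(`V` is dense / take `u = D(X)v' - P_Λy_X ∈ V`).
So `‖R⁻¹D(X)v' - i tr(ξX)v'‖ ≤ ‖P_Λ(R⁻¹y_X - i tr(ξX)v)‖ + C₆R^{-1/2}√(fsq X) ≤ (ε' + C₆ε'^{1/2})√(fsq X)`; divide by
`‖v'‖ ≥ ½`.  Choose `ε'` small.
`coh_ac` : `t = 1/R`, `v` itself, `y = D X v` (`hP.dif`).
`zero_ac` : `v` a unit vector of `KFin`, `y = D X v`, `t` small (`X ↦ D X v` is bounded: finite dimension).
-/

open MeasureTheory Filter Topology
open scoped ENNReal NNReal Matrix

noncomputable section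

namespace SBD

variable {N : ℕ} {G : Type} [Group G] [TopologicalSpace G] [IsTopologicalGroup G]
  [LocallyCompactSpace G] [T2Space G]
variable {H : Type} [NormedAddCommGroup H] [InnerProductSpace ℂ H] [CompleteSpace H]

/-- skewness with a differentiable vector -/
private theorem l01_skew (L : LieData N G) (π : G →* (H ≃ₗᵢ[ℂ] H)) (A : LieRep N (KFin L π))
    (hP : IsPkg L π A) (X : Mat N) (hX : X ∈ L.𝔤) (w : KFin L π) (y y1 : H)
    (hy : HasDerivAt (fun t : ℝ => π (L.e (t • X)) y) y1 0) :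
    inner ℂ ((A.D X w : KFin L π) : H) y = -inner ℂ (w : H) y1 := by
  have h1 := HasDerivAt.inner ℂ (hP.dif X hX w) hy
  have h2 : (fun t : ℝ => inner ℂ (π (L.e (t • X)) (w : H)) (π (L.e (t • X)) y)) =
      fun _ => inner ℂ (w : H) y := by
    funext t
    exact (π (L.e (t • X))).inner_map_map _ _
  rw [h2] at h1
  have h3 := h1.unique (hasDerivAt_const (0 : ℝ) (inner ℂ (w : H) y))
  rw [zero_smul, e_zero, map_one] at h3
  have h4 : inner ℂ (w : H) y1 + inner ℂ ((A.D X w : KFin L π) : H) y = 0 := h3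
  exact eq_neg_of_add_eq_zero_right h4

/-- existence of the projection to `low R` -/
private theorem l01_ex (L : LieData N G) (π : G →* (H ≃ₗᵢ[ℂ] H)) (A : LieRep N (KFin L π))
    (hP : IsPkg L π A) (R : ℝ) (x : H) :
    ∃ p ∈ A.low R, ∀ u ∈ A.low R, inner ℂ ((u : KFin L π) : H) (x - ((p : KFin L π) : H)) = 0 := by
  have hfin : FiniteDimensional ℂ (A.low R) := hP.adm.fin R
  let WR : Submodule ℂ H := (A.low R).map (KFin L π).subtype
  have hWf : FiniteDimensional ℂ WR := inferInstanceAs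
    (FiniteDimensional ℂ ((A.low R).map (KFin L π).subtype))
  obtain ⟨p, hp, hpe⟩ := WR.starProjection_apply_mem x
  refine ⟨p, hp, fun u hu => ?_⟩
  have h0 : ((p : KFin L π) : H) = WR.starProjection x := hpe
  rw [h0]
  have h1 : (u : H) ∈ WR := ⟨u, hu, rfl⟩
  exact (Submodule.mem_orthogonal WR _).1 (WR.sub_starProjection_mem_orthogonal x) _ h1

private theorem l01_r {u x p : H} (h : inner ℂ u (x - p) = 0) : inner ℂ u x = inner ℂ u p := by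
  rw [inner_sub_right, sub_eq_zero] at h
  exact h

private theorem l01_l {u x p : H} (h : inner ℂ u (x - p) = 0) : inner ℂ x u = inner ℂ p u := by
  rw [← inner_conj_symm, l01_r h, inner_conj_symm]

private theorem l01_pyth {x p : H} (h : inner ℂ p (x - p) = 0) :
    ‖x‖ ^ 2 = ‖p‖ ^ 2 + ‖x - p‖ ^ 2 := by
  have h2 := norm_add_sq_eq_norm_sq_add_norm_sq_of_inner_eq_zero p (x - p) h
  rw [add_sub_cancel] at h2
  rw [sq, sq, sq]
  exact h2

private theorem l01_le {x p : H} (h : inner ℂ p (x - p) = 0) : ‖p‖ ≤ ‖x‖ := by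
  have h1 := l01_pyth h
  have h2 := sq_nonneg ‖x - p‖
  exact (pow_le_pow_iff_left₀ (norm_nonneg _) (norm_nonneg _) two_ne_zero).1 (by linarith)

/-- the commutator estimate -/
private theorem l01_core (L : LieData N G) (π : G →* (H ≃ₗᵢ[ℂ] H)) (A : LieRep N (KFin L π))
    (hP : IsPkg L π A) (X : Mat N) (hX : X ∈ L.𝔤) (v y : H)
    (hy : HasDerivAt (fun t : ℝ => π (L.e (t • X)) v) y 0) (a c b B : ℝ) (hac : a ≤ c)
    (hcb : c ≤ b) (h1 : ∀ x ∈ A.low a, A.D X x ∈ A.low c)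
    (h2 : ∀ x ∈ A.low c, A.D X x ∈ A.low b) (hB0 : 0 ≤ B)
    (h3 : ∀ x ∈ A.low b, ‖A.D X x‖ ≤ B * ‖x‖)
    (va vc vb yc : KFin L π) (hva : va ∈ A.low a) (hvc : vc ∈ A.low c) (hvb : vb ∈ A.low b)
    (hyc : yc ∈ A.low c)
    (pa : ∀ u ∈ A.low a, inner ℂ ((u : KFin L π) : H) (v - (va : H)) = 0)
    (pc : ∀ u ∈ A.low c, inner ℂ ((u : KFin L π) : H) (v - (vc : H)) = 0)
    (pb : ∀ u ∈ A.low b, inner ℂ ((u : KFin L π) : H) (v - (vb : H)) = 0)
    (py : ∀ u ∈ A.low c, inner ℂ ((u : KFin L π) : H) (y - (yc : H)) = 0) :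
    ‖A.D X vc - yc‖ ≤ 2 * B * ‖vb - va‖ := by
  have hXA : X ∈ A.𝔤 := by
    rw [hP.g_eq]
    exact hX
  have hsk : ∀ w : KFin L π, inner ℂ ((A.D X w : KFin L π) : H) v = -inner ℂ (w : H) y :=
    fun w => l01_skew L π A hP X hX w v y hy
  have hss : ∀ u w : KFin L π, inner ℂ ((A.D X u : KFin L π) : H) (w : H) =
      -inner ℂ (u : H) ((A.D X w : KFin L π) : H) := fun u w => A.skew X hXA u w
  set z : KFin L π := A.D X vc - yc with hz
  have hzb : z ∈ A.low b := Submodule.sub_mem _ (h2 _ hvc) (A.low_mono hcb hyc)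
  obtain ⟨zc, hzc, pz⟩ := l01_ex L π A hP c (z : H)
  obtain ⟨qc, hqc, pq⟩ := l01_ex L π A hP c ((A.D X z : KFin L π) : H)
  set E : KFin L π := A.D X zc - qc with hE
  have hEb : E ∈ A.low b := Submodule.sub_mem _ (h2 _ hzc) (A.low_mono hcb hqc)
  have e1 : inner ℂ (z : H) (z : H) = inner ℂ (E : H) v := by
    have t0 : (z : H) = ((A.D X vc : KFin L π) : H) - (yc : H) := by
      rw [hz, Submodule.coe_sub]
    have t1 : inner ℂ (z : H) ((A.D X vc : KFin L π) : H) =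
        -inner ℂ ((A.D X z : KFin L π) : H) (vc : H) := by
      rw [hss z vc, neg_neg]
    have t2 : inner ℂ ((A.D X z : KFin L π) : H) (vc : H) = inner ℂ (qc : H) (vc : H) :=
      l01_l (pq vc hvc)
    have t3 : inner ℂ (qc : H) v = inner ℂ (qc : H) (vc : H) := l01_r (pc qc hqc)
    have t4 : inner ℂ (z : H) (yc : H) = inner ℂ (zc : H) (yc : H) := l01_l (pz yc hyc)
    have t5 : inner ℂ (zc : H) y = inner ℂ (zc : H) (yc : H) := l01_r (py zc hzc)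
    have t6 := hsk zc
    calc inner ℂ (z : H) (z : H)
        = inner ℂ (z : H) (((A.D X vc : KFin L π) : H) - (yc : H)) := by rw [← t0]
      _ = inner ℂ ((A.D X zc : KFin L π) : H) v - inner ℂ (qc : H) v := by
          rw [inner_sub_right, t1, t2, t4, t6, t3, t5]
          ring
      _ = inner ℂ (E : H) v := by
          rw [hE, Submodule.coe_sub, inner_sub_left]
  have e2 : inner ℂ (E : H) v = inner ℂ (E : H) (vb : H) := l01_r (pb E hEb)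
  have e3 : inner ℂ (va : H) (E : H) = 0 := by
    have t1 : inner ℂ (va : H) ((A.D X zc : KFin L π) : H) =
        -inner ℂ ((A.D X va : KFin L π) : H) (zc : H) := by
      rw [hss va zc, neg_neg]
    have t2 : inner ℂ ((A.D X va : KFin L π) : H) (z : H) =
        inner ℂ ((A.D X va : KFin L π) : H) (zc : H) := l01_r (pz _ (h1 _ hva))
    have t3 : inner ℂ (va : H) ((A.D X z : KFin L π) : H) = inner ℂ (va : H) (qc : H) :=
      l01_r (pq _ (A.low_mono hac hva))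
    have t4 := hss va z
    rw [hE, Submodule.coe_sub, inner_sub_right, t1, ← t2, ← t3, t4]
    ring
  have e4 : inner ℂ (E : H) (va : H) = 0 := by
    rw [← inner_conj_symm, e3, map_zero]
  have e5 : ‖(z : H)‖ ^ 2 ≤ ‖(E : H)‖ * ‖(vb : H) - (va : H)‖ := by
    have t1 : inner ℂ (z : H) (z : H) = inner ℂ (E : H) ((vb : H) - (va : H)) := by
      rw [inner_sub_right, e4, sub_zero, e1, e2]
    have t2 : ‖(z : H)‖ ^ 2 = ‖inner ℂ (z : H) (z : H)‖ := by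
      rw [inner_self_eq_norm_sq_to_K, norm_pow]
      congr 1
      exact ((RCLike.norm_ofReal _).trans (abs_norm _)).symm
    rw [t2, t1]
    exact norm_inner_le_norm _ _
  have e6 : ‖(E : H)‖ ≤ 2 * B * ‖(z : H)‖ := by
    have t1 : ‖((A.D X zc : KFin L π) : H)‖ ≤ B * ‖(zc : H)‖ := h3 zc (A.low_mono hcb hzc)
    have t2 : ‖(zc : H)‖ ≤ ‖(z : H)‖ := l01_le (pz zc hzc)
    have t3 : ‖(qc : H)‖ ≤ ‖((A.D X z : KFin L π) : H)‖ := l01_le (pq qc hqc)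
    have t4 : ‖((A.D X z : KFin L π) : H)‖ ≤ B * ‖(z : H)‖ := h3 z hzb
    have t5 := mul_le_mul_of_nonneg_left t2 hB0
    have t6 : ‖(E : H)‖ ≤ ‖((A.D X zc : KFin L π) : H)‖ + ‖(qc : H)‖ := by
      rw [hE, Submodule.coe_sub]
      exact norm_sub_le _ _
    linarith
  have e7 : ‖(z : H)‖ ^ 2 ≤ ‖(z : H)‖ * (2 * B * ‖(vb : H) - (va : H)‖) := by
    refine e5.trans ((mul_le_mul_of_nonneg_right e6 (norm_nonneg _)).trans (le_of_eq ?_))
    ring
  show ‖(z : H)‖ ≤ 2 * B * ‖(vb : H) - (va : H)‖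
  by_cases h0 : ‖(z : H)‖ = 0
  · rw [h0]
    positivity
  · have h4 : 0 < ‖(z : H)‖ := lt_of_le_of_ne (norm_nonneg _) (Ne.symm h0)
    rw [sq] at e7
    exact le_of_mul_le_mul_left e7 h4

/-- pigeonhole -/
private theorem l01_pigeon (L : LieData N G) (π : G →* (H ≃ₗᵢ[ℂ] H)) (A : LieRep N (KFin L π))
    (v : H) (hv : ‖v‖ = 1) (Λ : ℕ → ℝ) (hΛ : Monotone Λ) (p : ℕ → KFin L π)
    (hp : ∀ k, p k ∈ A.low (Λ k))
    (ho : ∀ k, ∀ u ∈ A.low (Λ k), inner ℂ ((u : KFin L π) : H) (v - (p k : H)) = 0) (n : ℕ)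
    (hn : 0 < n) : ∃ k < n, ‖(p (k + 1) : H) - (p k : H)‖ ^ 2 ≤ 1 / n := by
  have h1 : ∀ k, ‖(p (k + 1) : H) - (p k : H)‖ ^ 2 = ‖(p (k + 1) : H)‖ ^ 2 - ‖(p k : H)‖ ^ 2 := by
    intro k
    have t1 : p k ∈ A.low (Λ (k + 1)) := A.low_mono (hΛ (Nat.le_succ k)) (hp k)
    have t2 : inner ℂ (p k : H) ((p (k + 1) : H) - (p k : H)) = 0 := by
      rw [inner_sub_right, ← l01_r (ho (k + 1) (p k) t1), ← l01_r (ho k (p k) (hp k)), sub_self]
    have t3 := l01_pyth t2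
    linarith
  have h2 : ∑ k ∈ Finset.range n, ‖(p (k + 1) : H) - (p k : H)‖ ^ 2 ≤
      ∑ k ∈ Finset.range n, (1 / n : ℝ) := by
    rw [Finset.sum_congr rfl fun k _ => h1 k, Finset.sum_range_sub (fun k => ‖(p k : H)‖ ^ 2),
      Finset.sum_const, Finset.card_range, nsmul_eq_mul]
    have t1 : ‖(p n : H)‖ ≤ 1 := by
      rw [← hv]
      exact l01_le (ho n (p n) (hp n))
    have t2 : (n : ℝ) * (1 / n) = 1 := by
      have : (n : ℝ) ≠ 0 := by positivity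
      field_simp
    rw [t2]
    have t3 := norm_nonneg (p n : H)
    have t4 := sq_nonneg ‖(p 0 : H)‖
    nlinarith
  obtain ⟨k, hk, hle⟩ := Finset.exists_le_of_sum_le (Finset.nonempty_range_iff.2 hn.ne') h2
  exact ⟨k, Finset.mem_range.1 hk, hle⟩

/-- the band of `D X` -/
private theorem l01_band {V : Type} [NormedAddCommGroup V] [InnerProductSpace ℂ V]
    (A : LieRep N V) {C : ℝ} (hC : 1 ≤ C)
    (hb : ∀ X ∈ A.𝔤, ∀ lam : ℝ, ∀ ψ ∈ A.eig lam,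
      ∃ (s : Finset ℝ) (f : ℝ → V),
        (∀ l ∈ s, |l - lam| ≤ C * Real.sqrt lam ∧ f l ∈ A.eig l) ∧ A.D X ψ = ∑ l ∈ s, f l)
    {a c S : ℝ} (hS : 0 ≤ S) (ha : a ≤ S ^ 2) (hac : a + C * S ≤ c) {X : Mat N} (hX : X ∈ A.𝔤)
    {ψ : V} (hψ : ψ ∈ A.low a) : A.D X ψ ∈ A.low c := by
  unfold LieRep.low at hψ
  induction hψ using Submodule.iSup_induction' with
  | mem lam x hx =>
    obtain ⟨s, f, hf, hs⟩ := hb X hX lam x hx
    rw [hs]
    refine Submodule.sum_mem _ fun l hl => ?_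
    obtain ⟨h1, h2⟩ := hf l hl
    refine A.eig_le_low ?_ h2
    have h3 : (lam : ℝ) ≤ a := lam.2
    have h4 : Real.sqrt lam ≤ S := by
      rw [Real.sqrt_le_left hS]
      exact h3.trans ha
    have h5 : l - lam ≤ C * Real.sqrt lam := le_trans (le_abs_self _) h1
    have h6 : C * Real.sqrt lam ≤ C * S := mul_le_mul_of_nonneg_left h4 (by linarith)
    linarith
  | zero =>
    rw [map_zero]
    exact Submodule.zero_mem _
  | add x y _ _ hx hy =>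
    rw [map_add]
    exact Submodule.add_mem _ hx hy

/-- Cauchy-Schwarz for the trace -/
private theorem l01_cs (ξ X : Mat N) :
    |(ξ * X).trace| ≤ Real.sqrt (fsq ξ) * Real.sqrt (fsq X) := by
  have h0 : ∀ Y : Mat N, fsq Y = ∑ i, ∑ j, Y i j ^ 2 := by
    intro Y
    unfold fsq fip
    rw [Matrix.trace, Finset.sum_comm]
    refine Finset.sum_congr rfl fun i _ => ?_
    rw [Matrix.diag_apply, Matrix.mul_apply]
    refine Finset.sum_congr rfl fun j _ => ?_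
    rw [Matrix.transpose_apply, sq]
  have h1 : (ξ * X).trace = ∑ q : Fin N × Fin N, ξ q.1 q.2 * X q.2 q.1 := by
    rw [Matrix.trace, Fintype.sum_prod_type]
    refine Finset.sum_congr rfl fun i _ => ?_
    rw [Matrix.diag_apply, Matrix.mul_apply]
  have h2 : fsq ξ = ∑ q : Fin N × Fin N, ξ q.1 q.2 ^ 2 := by
    rw [h0, Fintype.sum_prod_type]
  have h3 : fsq X = ∑ q : Fin N × Fin N, X q.2 q.1 ^ 2 := by
    rw [h0, Fintype.sum_prod_type, Finset.sum_comm]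
  have h4 : 0 ≤ fsq ξ := by
    rw [h2]
    exact Finset.sum_nonneg fun q _ => sq_nonneg _
  rw [← Real.sqrt_mul h4]
  apply Real.abs_le_sqrt
  rw [h1, h2, h3]
  exact Finset.sum_mul_sq_le_sq_mul_sq _ _ _

private theorem l01_fsq_Z {V : Type} [NormedAddCommGroup V] [InnerProductSpace ℂ V]
    (A : LieRep N V) (i : Fin A.m) : fsq (A.Z i) = 1 := by
  have h := A.Z_o i i
  rw [if_pos rfl] at h
  exact h

theorem ac_coh (L : LieData N G) (π : G →* (H ≃ₗᵢ[ℂ] H)) (A : LieRep N (KFin L π))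
    (hP : IsPkg L π A) (hV : ∃ u ∈ KFin L π, u ≠ 0) (ξ : Mat N) (hξ : ξ ∈ AC L π) :
    ∃ C : ℝ, 1 ≤ C ∧ A.Coh C ξ := by
  obtain ⟨hξg, hAC⟩ := hξ
  obtain ⟨C₂, hC₂, hband⟩ := A.band hP.adm
  obtain ⟨C₅, hC₅, hnorm⟩ := A.norm_D_le hP.adm
  set M : ℝ := Real.sqrt (fsq ξ) with hM
  have hM0 : 0 ≤ M := Real.sqrt_nonneg _
  set C₁ : ℝ := 1 + A.m * (M + 1) ^ 2 with hC₁
  have hC₁1 : 1 ≤ C₁ := by
    have : 0 ≤ (A.m : ℝ) * (M + 1) ^ 2 := by positivity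
    linarith
  set K : ℝ := 4 * C₁ with hK
  have hK1 : 4 ≤ K := by linarith
  refine ⟨2 * K, by linarith, ?_, ?_⟩
  · rw [hP.g_eq]
    exact hξg
  intro ε hε
  -- the number of windows
  obtain ⟨n, hn⟩ := exists_nat_gt ((16 * C₅ * K / ε) ^ 2)
  have hn0 : 0 < n := by
    have : (0 : ℝ) < n := lt_of_le_of_lt (sq_nonneg _) hn
    exact_mod_cast this
  have hn0' : (0 : ℝ) < n := by exact_mod_cast hn0
  set ε' : ℝ := min (min 1 (ε / 4)) (1 / (4 * C₂ * n)) with hε'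
  have hε'0 : 0 < ε' := by positivity
  have hε'1 : ε' ≤ 1 := (min_le_left _ _).trans (min_le_left _ _)
  have hε'2 : ε' ≤ ε / 4 := (min_le_left _ _).trans (min_le_right _ _)
  have hε'3 : ε' ≤ 1 / (4 * C₂ * n) := min_le_right _ _
  obtain ⟨t, ht0, htε, v, hv, hvX⟩ := hAC ε' hε'0
  set R : ℝ := 1 / t with hR
  have hR0 : 0 < R := by positivity
  have hRt : R * t = 1 := by
    rw [hR]
    field_simp
  have hR1 : 1 ≤ R := by
    rw [hR, le_div_iff₀ ht0]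
    linarith
  have hRε : 1 / ε ≤ R := by
    rw [hR]
    exact one_div_le_one_div_of_le ht0 (by linarith)
  have hRn : 4 * C₂ * n ≤ R := by
    have h1 : t ≤ 1 / (4 * C₂ * n) := by linarith
    rw [hR, le_div_iff₀ ht0]
    rw [le_div_iff₀ (by positivity)] at h1
    linarith
  -- the derivatives
  have hyb : ∀ X ∈ L.𝔤, ∀ y : H,
      ‖(t : ℂ) • y - (Complex.I * ((ξ * X).trace : ℝ)) • v‖ ≤ ε' * Real.sqrt (fsq X) →
      ‖y‖ ≤ (M + 1) * R * Real.sqrt (fsq X) := by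
    intro X hX y hy
    have h1 : ‖(Complex.I * ((ξ * X).trace : ℝ)) • v‖ ≤ M * Real.sqrt (fsq X) := by
      rw [norm_smul, hv, mul_one, norm_mul, Complex.norm_I, one_mul, Complex.norm_real,
        Real.norm_eq_abs]
      exact l01_cs ξ X
    have h2 : ‖(t : ℂ) • y‖ ≤ ε' * Real.sqrt (fsq X) + M * Real.sqrt (fsq X) := by
      have h3 : (t : ℂ) • y = ((t : ℂ) • y - (Complex.I * ((ξ * X).trace : ℝ)) • v) +
        (Complex.I * ((ξ * X).trace : ℝ)) • v := by abel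
      rw [h3]
      exact (norm_add_le _ _).trans (add_le_add hy h1)
    rw [norm_smul, Complex.norm_real, Real.norm_of_nonneg ht0.le] at h2
    have h4 : ε' * Real.sqrt (fsq X) ≤ 1 * Real.sqrt (fsq X) :=
      mul_le_mul_of_nonneg_right hε'1 (Real.sqrt_nonneg _)
    have h5 : t * ‖y‖ ≤ (M + 1) * Real.sqrt (fsq X) := by linarith
    calc ‖y‖ = R * (t * ‖y‖) := by rw [← mul_assoc, hRt, one_mul]
      _ ≤ R * ((M + 1) * Real.sqrt (fsq X)) := mul_le_mul_of_nonneg_left h5 hR0.le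
      _ = _ := by ring
  have hZ : ∀ i, A.Z i ∈ L.𝔤 := fun i => by
    rw [← hP.g_eq]
    exact A.Z_mem i
  choose yd hyd hyd' using fun i => hvX (A.Z i) (hZ i)
  have hydn : ∑ i, ‖yd i‖ ^ 2 ≤ A.m * ((M + 1) ^ 2 * R ^ 2) := by
    have h1 : ∀ i ∈ (Finset.univ : Finset (Fin A.m)), ‖yd i‖ ^ 2 ≤ (M + 1) ^ 2 * R ^ 2 := by
      intro i _
      have h2 := hyb (A.Z i) (hZ i) (yd i) (hyd' i)
      rw [l01_fsq_Z, Real.sqrt_one, mul_one] at h2
      have h3 := pow_le_pow_left₀ (norm_nonneg _) h2 2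
      rw [mul_pow] at h3
      exact h3
    have h4 := Finset.sum_le_card_nsmul _ _ _ h1
    rw [Finset.card_univ, Fintype.card_fin, nsmul_eq_mul] at h4
    exact h4
  have hhalf : ∀ Λ : ℝ, K * R ^ 2 ≤ Λ → ∀ p ∈ A.low Λ,
      (∀ u ∈ A.low Λ, inner ℂ ((u : KFin L π) : H) (v - ((p : KFin L π) : H)) = 0) →
      1 / 2 ≤ ‖((p : KFin L π) : H)‖ := by
    intro Λ hΛ p hp hpo
    have hΛ0 : 0 < Λ := lt_of_lt_of_le (by positivity) hΛ
    obtain ⟨p', hp', hpo', hch⟩ := cheb L π A hP hV v yd hyd Λ hΛ0.le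
    -- `p` is at least as close
    have h1 : ‖v - (p : H)‖ ≤ ‖v - (p' : H)‖ := by
      have h2 : inner ℂ (v - (p : H)) ((p : H) - (p' : H)) = 0 := by
        have h3 := hpo (p - p') (Submodule.sub_mem _ hp hp')
        rw [← inner_conj_symm]
        rw [Submodule.coe_sub] at h3
        rw [h3, map_zero]
      have h4 := norm_add_sq_eq_norm_sq_add_norm_sq_of_inner_eq_zero _ _ h2
      rw [sub_add_sub_cancel] at h4
      have h5 : ‖v - (p : H)‖ ^ 2 ≤ ‖v - (p' : H)‖ ^ 2 := by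
        rw [sq, sq, h4]
        have := mul_self_nonneg ‖(p : H) - (p' : H)‖
        linarith
      exact (pow_le_pow_iff_left₀ (norm_nonneg _) (norm_nonneg _) two_ne_zero).1 h5
    have h6 : K * R ^ 2 * ‖v - (p : H)‖ ^ 2 ≤ C₁ * R ^ 2 := by
      have h7 : ‖v - (p : H)‖ ^ 2 ≤ ‖v - (p' : H)‖ ^ 2 := pow_le_pow_left₀ (norm_nonneg _) h1 2
      have h8 : K * R ^ 2 * ‖v - (p : H)‖ ^ 2 ≤ Λ * ‖v - (p' : H)‖ ^ 2 :=
        mul_le_mul hΛ h7 (sq_nonneg _) hΛ0.le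
      refine h8.trans (hch.trans ?_)
      rw [hv]
      have h9 : 1 ≤ R ^ 2 := one_le_pow₀ hR1
      have h10 : (1 : ℝ) ^ 2 + ∑ i, ‖yd i‖ ^ 2 ≤ R ^ 2 + A.m * ((M + 1) ^ 2 * R ^ 2) := by
        linarith
      refine h10.trans (le_of_eq ?_)
      rw [hC₁]
      ring
    have h11 : ‖v - (p : H)‖ ^ 2 ≤ (1 / 2) ^ 2 := by
      have h12 : 0 < C₁ * R ^ 2 := by positivity
      have h13 : C₁ * R ^ 2 * (4 * ‖v - (p : H)‖ ^ 2) ≤ C₁ * R ^ 2 * 1 := by
        rw [hK] at h6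
        linarith
      have h14 := le_of_mul_le_mul_left h13 h12
      linarith
    have h15 : ‖v - (p : H)‖ ≤ 1 / 2 :=
      (pow_le_pow_iff_left₀ (norm_nonneg _) (by norm_num) two_ne_zero).1 h11
    have h16 : ‖v‖ ≤ ‖v - (p : H)‖ + ‖(p : H)‖ := by
      have := norm_add_le (v - (p : H)) (p : H)
      rwa [sub_add_cancel] at this
    rw [hv] at h16
    linarith
  -- the windows
  set S : ℝ := K * R with hS
  have hS0 : 0 ≤ S := by positivity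
  have hS2 : 2 * K * R ^ 2 ≤ S ^ 2 := by
    rw [hS, mul_pow]
    have : 2 * K ≤ K ^ 2 := by nlinarith
    exact mul_le_mul_of_nonneg_right this (sq_nonneg _)
  set w : ℝ := C₂ * S with hw
  have hw0 : 0 ≤ w := by positivity
  let Λ : ℕ → ℝ := fun k => K * R ^ 2 + k * (2 * w)
  have hΛm : Monotone Λ := by
    intro i j hij
    have h1 : (i : ℝ) ≤ j := by exact_mod_cast hij
    have h2 := mul_le_mul_of_nonneg_right h1 (by linarith : (0 : ℝ) ≤ 2 * w)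
    show K * R ^ 2 + i * (2 * w) ≤ K * R ^ 2 + j * (2 * w)
    linarith
  have hΛS : ∀ k : ℕ, Λ (k + 1) = Λ k + 2 * w := by
    intro k
    show K * R ^ 2 + ((k + 1 : ℕ) : ℝ) * (2 * w) = K * R ^ 2 + (k : ℝ) * (2 * w) + 2 * w
    push_cast
    ring
  have hΛ0 : ∀ k, K * R ^ 2 ≤ Λ k := by
    intro k
    show K * R ^ 2 ≤ K * R ^ 2 + (k : ℝ) * (2 * w)
    have : 0 ≤ (k : ℝ) * (2 * w) := by positivity
    linarith
  have hΛn : Λ n ≤ 2 * K * R ^ 2 := by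
    show K * R ^ 2 + (n : ℝ) * (2 * w) ≤ 2 * K * R ^ 2
    have h1 : (n : ℝ) * (2 * w) = (4 * C₂ * n) * (K * R) / 2 := by
      rw [hw, hS]
      ring
    have h2 : (4 * C₂ * n) * (K * R) ≤ R * (K * R) := mul_le_mul_of_nonneg_right hRn hS0
    have h3 : 0 ≤ R * (K * R) := by positivity
    rw [h1]
    nlinarith
  choose p hp hpo using fun k => l01_ex L π A hP (Λ k) v
  obtain ⟨k, hk, hle⟩ := l01_pigeon L π A v hv Λ hΛm p hp hpo n hn0
  have hb : Λ (k + 1) ≤ 2 * K * R ^ 2 := (hΛm (Nat.succ_le_of_lt hk)).trans hΛn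
  set a : ℝ := Λ k with ha
  set c : ℝ := a + w with hc
  have hbc : Λ (k + 1) = c + w := by
    rw [hΛS, hc]
    ring
  obtain ⟨vc, hvc, pc⟩ := l01_ex L π A hP c v
  have hcK : K * R ^ 2 ≤ c := (hΛ0 k).trans (by rw [hc]; linarith)
  have hcb : c ≤ 2 * K * R ^ 2 := by
    rw [hbc] at hb
    linarith
  have hvc2 := hhalf c hcK vc hvc pc
  have hvc0 : 0 < ‖(vc : H)‖ := by linarith
  have hest : ∀ X ∈ A.𝔤, ‖((R⁻¹ : ℝ) : ℂ) • A.D X vc -
      (Complex.I * ((ξ * X).trace : ℝ)) • vc‖ ≤ ε / 2 * Real.sqrt (fsq X) := by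
    intro X hXA
    have hX : X ∈ L.𝔤 := by
      rw [← hP.g_eq]
      exact hXA
    obtain ⟨y, hy, hyl⟩ := hvX X hX
    obtain ⟨yc, hyc, pyc⟩ := l01_ex L π A hP c y
    have hc1 := l01_core L π A hP X hX v y hy a c (Λ (k + 1))
      (C₅ * Real.sqrt (fsq X) * Real.sqrt (Λ (k + 1))) (by rw [hc]; linarith)
      (by rw [hbc]; linarith)
      (fun x hx => l01_band A hC₂ hband hS0
        (by linarith [(hΛm (Nat.le_succ k)).trans hb] : a ≤ S ^ 2) le_rfl hXA hx)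
      (fun x hx => l01_band A hC₂ hband hS0 (hcb.trans hS2) (le_of_eq hbc.symm) hXA hx)
      (by positivity)
      (fun x hx => hnorm X hXA (Λ (k + 1))
        (le_trans (by nlinarith [one_le_pow₀ (n := 2) hR1]) (hΛ0 (k + 1))) x hx)
      (p k) vc (p (k + 1)) yc (hp k) hvc (hp (k + 1)) hyc (hpo k) pc (hpo (k + 1)) pyc
    have hq0 : 0 ≤ Real.sqrt (fsq X) := Real.sqrt_nonneg _
    -- first part
    have h1 : ‖A.D X vc - yc‖ ≤ R * (ε / 8 * Real.sqrt (fsq X)) := by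
      refine hc1.trans ?_
      have h2 : Real.sqrt (Λ (k + 1)) ≤ S := by
        rw [Real.sqrt_le_left hS0]
        exact hb.trans hS2
      have h3 : ‖p (k + 1) - p k‖ ≤ ε / (16 * C₅ * K) := by
        have h4 : ‖p (k + 1) - p k‖ ^ 2 ≤ 1 / n := hle
        have h5 : 1 / (n : ℝ) ≤ (ε / (16 * C₅ * K)) ^ 2 := by
          have h6 : (ε / (16 * C₅ * K)) ^ 2 = 1 / (16 * C₅ * K / ε) ^ 2 := by
            have : (16 * C₅ * K) ≠ 0 := by positivity
            field_simp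
          rw [h6]
          exact one_div_le_one_div_of_le (by positivity) hn.le
        exact (pow_le_pow_iff_left₀ (norm_nonneg _) (by positivity) two_ne_zero).1 (h4.trans h5)
      have h7 : C₅ * Real.sqrt (fsq X) * Real.sqrt (Λ (k + 1)) ≤ C₅ * Real.sqrt (fsq X) * S :=
        mul_le_mul_of_nonneg_left h2 (by positivity)
      have h8 : 2 * (C₅ * Real.sqrt (fsq X) * Real.sqrt (Λ (k + 1))) * ‖p (k + 1) - p k‖ ≤
          2 * (C₅ * Real.sqrt (fsq X) * S) * (ε / (16 * C₅ * K)) :=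
        mul_le_mul (by linarith) h3 (norm_nonneg _) (by positivity)
      refine h8.trans (le_of_eq ?_)
      rw [hS]
      have : K ≠ 0 := by positivity
      field_simp
      ring
    -- second part
    have h2 : ‖((R⁻¹ : ℝ) : ℂ) • yc - (Complex.I * ((ξ * X).trace : ℝ)) • vc‖ ≤
        ε' * Real.sqrt (fsq X) := by
      have hRi : R⁻¹ = t := by
        rw [hR, one_div, inv_inv]
      rw [hRi]
      have h3 : ∀ u ∈ A.low c, inner ℂ ((u : KFin L π) : H)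
          (((t : ℂ) • y - (Complex.I * ((ξ * X).trace : ℝ)) • v) -
          ((((t : ℝ) : ℂ) • yc - (Complex.I * ((ξ * X).trace : ℝ)) • vc : KFin L π) : H)) = 0 := by
        intro u hu
        have h4 : ((t : ℂ) • y - (Complex.I * ((ξ * X).trace : ℝ)) • v) -
            ((((t : ℝ) : ℂ) • yc - (Complex.I * ((ξ * X).trace : ℝ)) • vc : KFin L π) : H) =
            (t : ℂ) • (y - (yc : H)) - (Complex.I * ((ξ * X).trace : ℝ)) • (v - (vc : H)) := by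
          rw [Submodule.coe_sub, Submodule.coe_smul, Submodule.coe_smul, smul_sub, smul_sub]
          abel
        rw [h4, inner_sub_right, inner_smul_right, inner_smul_right, pyc u hu, pc u hu]
        ring
      have h5 := l01_le (h3 _ (Submodule.sub_mem _ (Submodule.smul_mem _ _ hyc)
        (Submodule.smul_mem _ _ hvc)))
      exact h5.trans hyl
    have h3 : ((R⁻¹ : ℝ) : ℂ) • A.D X vc - (Complex.I * ((ξ * X).trace : ℝ)) • vc =
        ((R⁻¹ : ℝ) : ℂ) • (A.D X vc - yc) +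
        (((R⁻¹ : ℝ) : ℂ) • yc - (Complex.I * ((ξ * X).trace : ℝ)) • vc) := by
      rw [smul_sub]
      abel
    rw [h3]
    refine (norm_add_le _ _).trans ?_
    have h4 : ‖((R⁻¹ : ℝ) : ℂ) • (A.D X vc - yc)‖ ≤ ε / 8 * Real.sqrt (fsq X) := by
      rw [norm_smul, Complex.norm_real, Real.norm_of_nonneg (by positivity : (0 : ℝ) ≤ R⁻¹)]
      calc R⁻¹ * ‖A.D X vc - yc‖ ≤ R⁻¹ * (R * (ε / 8 * Real.sqrt (fsq X))) :=
            mul_le_mul_of_nonneg_left h1 (by positivity)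
        _ = ε / 8 * Real.sqrt (fsq X) := by
            rw [← mul_assoc, inv_mul_cancel₀ hR0.ne', one_mul]
    have h5 : ε' * Real.sqrt (fsq X) ≤ ε / 4 * Real.sqrt (fsq X) :=
      mul_le_mul_of_nonneg_right hε'2 hq0
    have h6 : 0 ≤ ε * Real.sqrt (fsq X) := by positivity
    linarith
  refine ⟨R, hR1, hRε, ((‖vc‖⁻¹ : ℝ) : ℂ) • vc, ?_, ?_, ?_⟩
  · exact Submodule.smul_mem _ _ (A.low_mono hcb hvc)
  · rw [norm_smul, Complex.norm_real, Real.norm_of_nonneg (inv_nonneg.2 (norm_nonneg _))]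
    exact inv_mul_cancel₀ hvc0.ne'
  · intro X hX
    have h1 : ((R⁻¹ : ℝ) : ℂ) • A.D X (((‖vc‖⁻¹ : ℝ) : ℂ) • vc) -
        (Complex.I * ((ξ * X).trace : ℝ)) • (((‖vc‖⁻¹ : ℝ) : ℂ) • vc) =
        ((‖vc‖⁻¹ : ℝ) : ℂ) • (((R⁻¹ : ℝ) : ℂ) • A.D X vc -
        (Complex.I * ((ξ * X).trace : ℝ)) • vc) := by
      rw [map_smul, smul_sub, smul_comm ((R⁻¹ : ℝ) : ℂ) ((‖vc‖⁻¹ : ℝ) : ℂ) (A.D X vc),
        smul_comm (Complex.I * ((ξ * X).trace : ℝ)) ((‖vc‖⁻¹ : ℝ) : ℂ) vc]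
    rw [h1, norm_smul, Complex.norm_real, Real.norm_of_nonneg (inv_nonneg.2 (norm_nonneg _))]
    have h2 : ‖vc‖⁻¹ ≤ 2 := by
      have h3 : (1 / 2 : ℝ) ≤ ‖vc‖ := hvc2
      calc ‖vc‖⁻¹ ≤ (1 / 2 : ℝ)⁻¹ := inv_anti₀ (by norm_num) h3
        _ = 2 := by norm_num
    calc ‖vc‖⁻¹ * ‖((R⁻¹ : ℝ) : ℂ) • A.D X vc - (Complex.I * ((ξ * X).trace : ℝ)) • vc‖
        ≤ 2 * (ε / 2 * Real.sqrt (fsq X)) :=
          mul_le_mul h2 (hest X hX) (norm_nonneg _) (by norm_num)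
      _ = ε * Real.sqrt (fsq X) := by ring

theorem coh_ac (L : LieData N G) (π : G →* (H ≃ₗᵢ[ℂ] H)) (A : LieRep N (KFin L π))
    (hP : IsPkg L π A) (C : ℝ) (ξ : Mat N) (h : A.Coh C ξ) : ξ ∈ AC L π := by
  obtain ⟨hξ, hc⟩ := h
  refine ⟨by rw [← hP.g_eq]; exact hξ, fun ε hε => ?_⟩
  obtain ⟨R, hR1, hRε, v, hv, hvn, hX⟩ := hc (ε / 2) (by linarith)
  have hR0 : 0 < R := by linarith
  refine ⟨R⁻¹, by positivity, ?_, (v : H), hvn, fun X hXg => ?_⟩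
  · have h1 : R⁻¹ ≤ ε / 2 := by
      rw [one_div] at hRε
      exact inv_le_of_inv_le₀ (by linarith) hRε
    linarith
  · refine ⟨_, hP.dif X hXg v, ?_⟩
    have h1 := hX X (by rw [hP.g_eq]; exact hXg)
    have h2 : ε / 2 * Real.sqrt (fsq X) ≤ ε * Real.sqrt (fsq X) :=
      mul_le_mul_of_nonneg_right (by linarith) (Real.sqrt_nonneg _)
    exact h1.trans h2

theorem zero_ac (L : LieData N G) (π : G →* (H ≃ₗᵢ[ℂ] H)) (A : LieRep N (KFin L π))
    (hP : IsPkg L π A) (hV : ∃ u ∈ KFin L π, u ≠ 0) : (0 : Mat N) ∈ AC L π := by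
  obtain ⟨u, hu, hu0⟩ := hV
  obtain ⟨C₅, hC₅, hnorm⟩ := A.norm_D_le hP.adm
  refine ⟨Submodule.zero_mem _, fun ε hε => ?_⟩
  have hun : 0 < ‖u‖ := norm_pos_iff.2 hu0
  set v : KFin L π := ((‖u‖⁻¹ : ℝ) : ℂ) • (⟨u, hu⟩ : KFin L π) with hv
  have hvn : ‖(v : H)‖ = 1 := by
    rw [hv, Submodule.coe_smul, norm_smul, Complex.norm_real,
      Real.norm_of_nonneg (inv_nonneg.2 (norm_nonneg _))]
    exact inv_mul_cancel₀ hun.ne'
  obtain ⟨R₀, hR₀, hvR⟩ := A.exists_low hP.adm v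
  have hs0 : 0 < C₅ * Real.sqrt R₀ := by
    have : 0 < Real.sqrt R₀ := Real.sqrt_pos.2 (by linarith)
    positivity
  set t : ℝ := min (ε / 2) (ε / (C₅ * Real.sqrt R₀)) with ht
  have ht0 : 0 < t := by positivity
  refine ⟨t, ht0, lt_of_le_of_lt (min_le_left _ _) (by linarith), (v : H), hvn, fun X hX => ?_⟩
  refine ⟨_, hP.dif X hX v, ?_⟩
  rw [Matrix.zero_mul, Matrix.trace_zero, Complex.ofReal_zero, mul_zero, zero_smul, sub_zero,
    norm_smul, Complex.norm_real, Real.norm_of_nonneg ht0.le]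
  have h1 : ‖((A.D X v : KFin L π) : H)‖ ≤ C₅ * Real.sqrt (fsq X) * Real.sqrt R₀ * ‖(v : H)‖ :=
    hnorm X (by rw [hP.g_eq]; exact hX) R₀ hR₀ v hvR
  rw [hvn, mul_one] at h1
  have h2 : t * (C₅ * Real.sqrt R₀) ≤ ε := by
    have h3 : t ≤ ε / (C₅ * Real.sqrt R₀) := min_le_right _ _
    rwa [le_div_iff₀ hs0] at h3
  calc t * ‖((A.D X v : KFin L π) : H)‖ ≤ t * (C₅ * Real.sqrt (fsq X) * Real.sqrt R₀) :=
        mul_le_mul_of_nonneg_left h1 ht0.le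
    _ = (t * (C₅ * Real.sqrt R₀)) * Real.sqrt (fsq X) := by ring
    _ ≤ ε * Real.sqrt (fsq X) := mul_le_mul_of_nonneg_right h2 (Real.sqrt_nonneg _)

end SBD
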