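import Pool.Agent.SBD.C12

/-!
# Row SBX-L09 : `p^∞_w ≲ p^r_{w''}` for all finite `r`

As C12 (`compare4`).  `w = π(f)w''`, `w'' ∈ KFin` (`hP.smooth`), `f ≥ 0` continuous with compact support,
`∫f = 1`, `f ≤ c`.  For `v ∈ H`, `m = mc π w v`, `m'' = mc π w'' v`: `m(g) = ∫f(x)m''(x⁻¹g)dx`, so by Jensen
(`∫f = 1`, `r ≥ 1`) `|m(g)|^r ≤ ∫f(x)|m''(x⁻¹g)|^rdx ≤ c∫|m''|^r` (inversion and right invariance), hence
`‖m‖_∞ ≤ c^{1/r}‖m''‖_r` (if `‖m''‖_r = ∞` nothing to prove; `C = max(1, c^{1/r})`).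
-/

open MeasureTheory Filter Topology
open scoped ENNReal NNReal Matrix

noncomputable section

namespace SBD

variable {N : ℕ} {G : Type} [Group G] [TopologicalSpace G] [IsTopologicalGroup G]
  [LocallyCompactSpace G] [T2Space G]
variable [SecondCountableTopology G] [MeasurableSpace G] [BorelSpace G]
variable {H : Type} [NormedAddCommGroup H] [InnerProductSpace ℂ H] [CompleteSpace H]

omit [IsTopologicalGroup G] [LocallyCompactSpace G] [T2Space G] [Group G]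
  [SecondCountableTopology G] in
/-- Jensen's inequality with exponent `r ≥ 1` -/
private theorem L09_jensen (μ : Measure G) (f : G → ℝ) (hf : Continuous f)
    (hint : ∫⁻ x, ENNReal.ofReal (f x) ∂μ = 1) (F : G → ℂ) (hF : Continuous F) (r : ℝ)
    (hr : 1 ≤ r) :
    (∫⁻ x, ENNReal.ofReal (f x) * ‖F x‖ₑ ∂μ) ^ r ≤
      ∫⁻ x, ENNReal.ofReal (f x) * ‖F x‖ₑ ^ r ∂μ := by
  have hr0 : 0 < r := lt_of_lt_of_le one_pos hr
  have hfm : Measurable fun x => ENNReal.ofReal (f x) := hf.measurable.ennreal_ofReal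
  set ν : Measure G := μ.withDensity fun x => ENNReal.ofReal (f x) with hν
  have : IsProbabilityMeasure ν := ⟨by
    rw [hν, withDensity_apply _ MeasurableSet.univ, setLIntegral_univ]
    exact hint⟩
  have h := eLpNorm_le_eLpNorm_of_exponent_le (p := 1) (q := ENNReal.ofReal r) (μ := ν) (f := F)
    (by rw [← ENNReal.ofReal_one]; exact ENNReal.ofReal_le_ofReal hr)
    hF.aestronglyMeasurable
  rw [eLpNorm_one_eq_lintegral_enorm,
    eLpNorm_eq_lintegral_rpow_enorm_toReal (ENNReal.ofReal_pos.2 hr0).ne' ENNReal.ofReal_ne_top,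
    ENNReal.toReal_ofReal hr0.le] at h
  have h1 : ∫⁻ x, ‖F x‖ₑ ∂ν = ∫⁻ x, ENNReal.ofReal (f x) * ‖F x‖ₑ ∂μ :=
    lintegral_withDensity_eq_lintegral_mul μ hfm hF.enorm.measurable
  have h2 : ∫⁻ x, ‖F x‖ₑ ^ r ∂ν = ∫⁻ x, ENNReal.ofReal (f x) * ‖F x‖ₑ ^ r ∂μ :=
    lintegral_withDensity_eq_lintegral_mul μ hfm (hF.enorm.measurable.pow_const _)
  rw [h1, h2] at h
  calc (∫⁻ x, ENNReal.ofReal (f x) * ‖F x‖ₑ ∂μ) ^ r
      ≤ ((∫⁻ x, ENNReal.ofReal (f x) * ‖F x‖ₑ ^ r ∂μ) ^ (1 / r)) ^ r :=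
        ENNReal.rpow_le_rpow h hr0.le
    _ = ∫⁻ x, ENNReal.ofReal (f x) * ‖F x‖ₑ ^ r ∂μ := by
        rw [← ENNReal.rpow_mul, one_div, inv_mul_cancel₀ hr0.ne', ENNReal.rpow_one]

theorem compare_top (L : LieData N G) (π : G →* (H ≃ₗᵢ[ℂ] H)) (A : LieRep N (KFin L π))
    (hP : IsPkg L π A) (μ : Measure G) [μ.IsHaarMeasure] [μ.IsMulRightInvariant] (w : H)
    (hw : w ∈ KFin L π) :
    ∃ w'' ∈ KFin L π, ∀ r : ℝ, 1 ≤ r → ∃ C : ℝ≥0, ∀ v : H,
      pr π μ w ∞ v ≤ C * pr π μ w'' (ENNReal.ofReal r) v := by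
  obtain ⟨f, Lf, hB, w2, hw2, hww⟩ := hP.smooth μ w hw Set.univ Filter.univ_mem
  have : μ.IsInvInvariant := isInvInvariant (G := G) μ
  obtain ⟨c0, hc0⟩ := hB.cont.bounded_above_of_compact_support hB.supp
  set c : ℝ≥0 := c0.toNNReal with hc
  have hfc : ∀ x, ENNReal.ofReal (f x) ≤ (c : ℝ≥0∞) := by
    intro x
    have h1 : f x ≤ c0 := (le_abs_self _).trans (hc0 x)
    rw [hc]
    exact ENNReal.ofReal_le_ofReal h1
  have hfi : Integrable f μ := hB.cont.integrable_of_hasCompactSupport hB.supp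
  have hint : ∫⁻ x, ENNReal.ofReal (f x) ∂μ = 1 := by
    rw [← ofReal_integral_eq_lintegral_ofReal hfi (Filter.Eventually.of_forall hB.nonneg), hB.int,
      ENNReal.ofReal_one]
  refine ⟨w2, hw2, fun r hr => ⟨c ^ (1 / r), fun v => ?_⟩⟩
  have hr0 : 0 < r := lt_of_lt_of_le one_pos hr
  have hmc : ∀ u : H, Continuous (mc π u v) := fun u => continuous_const.inner (hP.cont v)
  set m : G → ℂ := mc π w v with hm
  set m2 : G → ℂ := mc π w2 v with hm2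
  set I : ℝ≥0∞ := ∫⁻ x, ‖m2 x‖ₑ ^ r ∂μ with hI
  have hconv : ∀ g, m g = ∫ x, ((f x : ℝ) : ℂ) * m2 (x⁻¹ * g) ∂μ := by
    intro g
    change inner ℂ w (π g v) = _
    rw [hww, sm_inner π hP.cont μ f hB.cont hB.supp]
    refine integral_congr_ae (Filter.Eventually.of_forall fun x => ?_)
    change ((f x : ℝ) : ℂ) * inner ℂ (π x w2) (π g v) =
      ((f x : ℝ) : ℂ) * inner ℂ w2 (π (x⁻¹ * g) v)
    congr 1
    have h1 : π g v = π x (π (x⁻¹ * g) v) := by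
      have h2 : π g = π x * π (x⁻¹ * g) := by
        rw [← map_mul]
        congr 1
        group
      rw [h2]
      rfl
    rw [h1, LinearIsometryEquiv.inner_map_map]
  have hshift : ∀ g, Continuous fun x : G => m2 (x⁻¹ * g) := fun g =>
    (hmc w2).comp (continuous_inv.mul continuous_const)
  have hpt : ∀ g, ‖m g‖ₑ ^ r ≤
      ∫⁻ x, ENNReal.ofReal (f x) * ‖m2 (x⁻¹ * g)‖ₑ ^ r ∂μ := by
    intro g
    refine le_trans ?_ (L09_jensen μ f hB.cont hint _ (hshift g) r hr)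
    refine ENNReal.rpow_le_rpow ?_ hr0.le
    rw [hconv g]
    refine (enorm_integral_le_lintegral_enorm _).trans_eq ?_
    refine lintegral_congr fun x => ?_
    rw [enorm_mul]
    congr 1
    rw [← ofReal_norm, Complex.norm_real, Real.norm_of_nonneg (hB.nonneg x)]
  have hsup : ∀ g, ‖m g‖ₑ ^ r ≤ c * I := by
    intro g
    refine (hpt g).trans ?_
    calc ∫⁻ x, ENNReal.ofReal (f x) * ‖m2 (x⁻¹ * g)‖ₑ ^ r ∂μ
        ≤ ∫⁻ x, (c : ℝ≥0∞) * ‖m2 (x⁻¹ * g)‖ₑ ^ r ∂μ := by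
          refine lintegral_mono fun x => ?_
          gcongr
          exact hfc x
      _ = c * ∫⁻ x, ‖m2 (x⁻¹ * g)‖ₑ ^ r ∂μ :=
          lintegral_const_mul' _ _ ENNReal.coe_ne_top
      _ = c * I := by
          congr 1
          rw [lintegral_inv_eq_self (μ := μ) (fun x => ‖m2 (x * g)‖ₑ ^ r), hI,
            lintegral_mul_right_eq_self (μ := μ) (fun x => ‖m2 x‖ₑ ^ r) g]
  have hfin : pr π μ w2 (ENNReal.ofReal r) v = I ^ (1 / r) := by
    change eLpNorm m2 (ENNReal.ofReal r) μ = _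
    rw [eLpNorm_eq_lintegral_rpow_enorm_toReal (ENNReal.ofReal_pos.2 hr0).ne'
      ENNReal.ofReal_ne_top, ENNReal.toReal_ofReal hr0.le]
  rw [hfin]
  change eLpNorm m ∞ μ ≤ _
  rw [eLpNorm_exponent_top]
  refine eLpNormEssSup_le_of_ae_enorm_bound (Filter.Eventually.of_forall fun g => ?_)
  have hr1 : 0 ≤ 1 / r := by positivity
  rw [ENNReal.coe_rpow_of_nonneg _ hr1, ← ENNReal.mul_rpow_of_nonneg _ _ hr1]
  calc ‖m g‖ₑ = (‖m g‖ₑ ^ r) ^ (1 / r) := by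
        rw [← ENNReal.rpow_mul, one_div, mul_inv_cancel₀ hr0.ne', ENNReal.rpow_one]
    _ ≤ (c * I) ^ (1 / r) := ENNReal.rpow_le_rpow (hsup g) hr1

end SBD
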