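import Pool.Agent.SBX.L08
import Pool.Agent.SBX.L09
import Pool.Agent.SBD.P16

/-!
# Row SBX-L10 : the lower bound `d_→([q],[p^r]) ≥ (rk ξ/4)(1 - 2/r)`

`n = rk ξ`; `n = 0` is trivial.  Let `t = ofReal s` be in the set defining `dTo L π qn (pr π μ w r)`: `s ≥ 0`,
`‖u‖ ≤ C₀ p^r(v)` whenever `u ∈ V`, `Sob L π s u v`.
Let `x ∈ low(CR²)`, `‖x‖ = 1`; `x = ∑_{l∈T}f l` (`mem_low_iff`, `l ≤ CR²`; WLOG `l ≥ 1`: `eig_ge`); put
`u = ∑l^{-s/2}f l`; `Sob L π s u x` by `sob_iff` (P16), and `‖u‖ ≥ (CR²)^{-s/2}‖x‖` (`norm_sq_sum`).  So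
`(CR²)^{-s/2} ≤ C₀p^r_w(x)`.
Case `r < ∞`: `r = ofReal r'`; `small_vecQ`: `(CR²)^{-s/2} ≤ C₀C'R^{-(n/4)(1-2/r')+δ}` for arbitrarily large `R`, so
`s ≥ (n/4)(1-2/r') - δ` for every `δ > 0`.  (`1 - 2/r` in `ℝ≥0∞` is `ofReal(1 - 2/r')`.)
Case `r = ∞`: `w''` from `compare_top`; for every finite `r' > 2`: `(CR²)^{-s/2} ≤ C₀C p^{r'}_{w''}(x) ≤
C''R^{-(n/4)(1-2/r')+δ}` with `small_vecQ` for `w''`, so `s ≥ (n/4)(1-2/r')`; let `r' → ∞`.
-/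

open MeasureTheory Filter Topology
open scoped ENNReal NNReal Matrix

noncomputable section

namespace SBD

variable {N : ℕ} {G : Type} [Group G] [TopologicalSpace G] [IsTopologicalGroup G]
  [LocallyCompactSpace G] [T2Space G]
variable [SecondCountableTopology G] [MeasurableSpace G] [BorelSpace G]
variable {H : Type} [NormedAddCommGroup H] [InnerProductSpace ℂ H] [CompleteSpace H]

/-- the norm of `D_{-s} x` for `x` in `low Λ` -/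
private theorem L10_norm (L : LieData N G) (π : G →* (H ≃ₗᵢ[ℂ] H))
    (A : LieRep N (KFin L π)) (hP : IsPkg L π A) (s : ℝ) (hs : 0 ≤ s) (Λ : ℝ) (x : KFin L π)
    (hx : x ∈ A.low Λ) (hx1 : ‖x‖ = 1) :
    ∃ u : H, u ∈ KFin L π ∧ Sob L π s u (x : H) ∧ 1 ≤ Λ ∧ Λ ^ (-(s / 2)) ≤ ‖u‖ := by
  classical
  obtain ⟨T, f, hf, hxT⟩ := A.mem_low_iff.1 hx
  have h1 : ∑ l ∈ T, f l = ∑ l ∈ T.filter (fun l => 1 ≤ l), f l := by
    symm
    refine Finset.sum_subset (Finset.filter_subset _ _) fun l hl hn => ?_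
    by_contra h0
    exact hn (Finset.mem_filter.mpr ⟨hl, LieRep.eig_ge A (hf l hl).2 h0⟩)
  set T' := T.filter (fun l => 1 ≤ l) with hT'
  have hT'1 : ∀ l ∈ T', 1 ≤ l ∧ l ≤ Λ ∧ f l ∈ A.eig l := fun l hl =>
    ⟨(Finset.mem_filter.1 hl).2, (hf l (Finset.mem_filter.1 hl).1).1,
      (hf l (Finset.mem_filter.1 hl).1).2⟩
  have hxT' : x = ∑ l ∈ T', f l := hxT.trans h1
  have hne : T'.Nonempty := by
    rw [Finset.nonempty_iff_ne_empty]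
    intro h0
    rw [h0, Finset.sum_empty] at hxT'
    rw [hxT', norm_zero] at hx1
    exact zero_ne_one hx1
  have hΛ : 1 ≤ Λ := by
    obtain ⟨l, hl⟩ := hne
    exact (hT'1 l hl).1.trans (hT'1 l hl).2.1
  have hΛ0 : 0 < Λ := by linarith
  have hu : ∀ l ∈ T', (((l ^ (-(s / 2)) : ℝ) : ℂ) • f l) ∈ A.eig l := fun l hl =>
    Submodule.smul_mem _ _ (hT'1 l hl).2.2
  refine ⟨((∑ l ∈ T', ((l ^ (-(s / 2)) : ℝ) : ℂ) • f l : KFin L π) : H), Subtype.property _, ?_, hΛ, ?_⟩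
  · rw [sob_iff L π A hP]
    refine ⟨T', fun l => ((l ^ (-(s / 2)) : ℝ) : ℂ) • f l, fun l hl => ⟨(hT'1 l hl).1, hu l hl⟩, rfl, ?_⟩
    rw [hxT']
    congr 1
    refine Finset.sum_congr rfl fun l hl => ?_
    have hl0 : 0 < l := lt_of_lt_of_le one_pos (hT'1 l hl).1
    rw [smul_smul, ← Complex.ofReal_mul, ← Real.rpow_add hl0, add_neg_cancel, Real.rpow_zero,
      Complex.ofReal_one, one_smul]
  · have h2 : ‖(∑ l ∈ T', ((l ^ (-(s / 2)) : ℝ) : ℂ) • f l : KFin L π)‖ ^ 2 =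
        ∑ l ∈ T', ‖((l ^ (-(s / 2)) : ℝ) : ℂ) • f l‖ ^ 2 := A.norm_sq_sum T' _ hu
    have h3 : ‖x‖ ^ 2 = ∑ l ∈ T', ‖f l‖ ^ 2 := by
      rw [hxT']
      exact A.norm_sq_sum T' _ fun l hl => (hT'1 l hl).2.2
    have h4 : (Λ ^ (-(s / 2))) ^ 2 ≤ ‖(∑ l ∈ T', ((l ^ (-(s / 2)) : ℝ) : ℂ) • f l : KFin L π)‖ ^ 2 := by
      have h5 : (Λ ^ (-(s / 2))) ^ 2 = (Λ ^ (-(s / 2))) ^ 2 * ∑ l ∈ T', ‖f l‖ ^ 2 := by
        rw [← h3, hx1]
        ring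
      rw [h5, h2, Finset.mul_sum]
      refine Finset.sum_le_sum fun l hl => ?_
      have hl0 : 0 < l := lt_of_lt_of_le one_pos (hT'1 l hl).1
      rw [norm_smul, Complex.norm_real, Real.norm_of_nonneg (Real.rpow_nonneg hl0.le _), mul_pow]
      have h6 : Λ ^ (-(s / 2)) ≤ l ^ (-(s / 2)) :=
        Real.rpow_le_rpow_of_nonpos hl0 (hT'1 l hl).2.1 (by linarith)
      have h7 : 0 ≤ Λ ^ (-(s / 2)) := Real.rpow_nonneg hΛ0.le _
      gcongr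
    have h8 := (sq_le_sq₀ (Real.rpow_nonneg hΛ0.le _) (norm_nonneg _)).1 h4
    exact h8

/-- the main step -/
private theorem L10_main (L : LieData N G) (π : G →* (H ≃ₗᵢ[ℂ] H))
    (A : LieRep N (KFin L π)) (hP : IsPkg L π A) (μ : Measure G) (w : H) (r : ℝ≥0∞) (θ C : ℝ)
    (hC : 1 ≤ C)
    (hx : ∀ δ : ℝ, 0 < δ → ∃ C' : ℝ, 0 < C' ∧ ∀ R₀ : ℝ, ∃ R : ℝ, R₀ ≤ R ∧ 1 ≤ R ∧
      ∃ x ∈ A.low (C * R ^ 2), ‖x‖ = 1 ∧ pr π μ w r (x : H) ≤ ENNReal.ofReal (C' * R ^ (-θ + δ)))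
    (s : ℝ) (hs : 0 ≤ s) (C0 : ℝ≥0)
    (hC0 : ∀ u v : H, u ∈ KFin L π → Sob L π s u v → qn u ≤ C0 * pr π μ w r v) : θ ≤ s := by
  by_contra hcon
  push Not at hcon
  set δ : ℝ := (θ - s) / 2 with hδ
  have hδ0 : 0 < δ := by
    rw [hδ]
    linarith
  obtain ⟨C', hC', hCx⟩ := hx δ hδ0
  have hlim : Filter.Tendsto (fun x : ℝ => x ^ δ) Filter.atTop Filter.atTop :=
    tendsto_rpow_atTop hδ0
  obtain ⟨R₀, hR₀⟩ := Filter.eventually_atTop.1 (hlim.eventually_gt_atTop ((C0 : ℝ) * C' * C ^ (s / 2)))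
  obtain ⟨R, hR0, hR1, x, hxl, hx1, hxp⟩ := hCx R₀
  have hRpos : 0 < R := by linarith
  have hCpos : 0 < C := by linarith
  obtain ⟨u, huK, hsob, _, hnu⟩ := L10_norm L π A hP s hs (C * R ^ 2) x hxl hx1
  have h1 := hC0 u (x : H) huK hsob
  have h2 : ENNReal.ofReal ((C * R ^ 2) ^ (-(s / 2))) ≤ qn u := by
    unfold qn
    rw [← ofReal_norm]
    exact ENNReal.ofReal_le_ofReal hnu
  have h3 : ENNReal.ofReal ((C * R ^ 2) ^ (-(s / 2))) ≤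
      ENNReal.ofReal ((C0 : ℝ) * (C' * R ^ (-θ + δ))) := by
    refine (h2.trans h1).trans ?_
    rw [ENNReal.ofReal_mul (NNReal.coe_nonneg C0), ENNReal.ofReal_coe_nnreal]
    gcongr
  have h4 : (C * R ^ 2) ^ (-(s / 2)) ≤ (C0 : ℝ) * (C' * R ^ (-θ + δ)) := by
    refine (ENNReal.ofReal_le_ofReal_iff ?_).1 h3
    have := Real.rpow_nonneg hRpos.le (-θ + δ)
    positivity
  have h5 : (C * R ^ 2) ^ (-(s / 2)) = (C ^ (s / 2))⁻¹ * R ^ (-s) := by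
    rw [Real.mul_rpow hCpos.le (by positivity), Real.rpow_neg hCpos.le, ← Real.rpow_natCast R 2,
      ← Real.rpow_mul hRpos.le]
    congr 2
    push_cast
    ring
  rw [h5] at h4
  have hCs : 0 < C ^ (s / 2) := Real.rpow_pos_of_pos hCpos _
  have h6 : R ^ δ ≤ (C0 : ℝ) * C' * C ^ (s / 2) := by
    have h7 : R ^ (-s) ≤ C ^ (s / 2) * ((C0 : ℝ) * (C' * R ^ (-θ + δ))) := by
      rw [inv_mul_le_iff₀ hCs] at h4
      exact h4
    have h8 : R ^ δ = R ^ (-s) * R ^ (θ - δ) := by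
      rw [← Real.rpow_add hRpos]
      congr 1
      rw [hδ]
      ring
    have h9 : R ^ (-θ + δ) * R ^ (θ - δ) = 1 := by
      rw [← Real.rpow_add hRpos]
      have : -θ + δ + (θ - δ) = 0 := by ring
      rw [this, Real.rpow_zero]
    have h10 : 0 ≤ R ^ (θ - δ) := Real.rpow_nonneg hRpos.le _
    calc R ^ δ = R ^ (-s) * R ^ (θ - δ) := h8
      _ ≤ (C ^ (s / 2) * ((C0 : ℝ) * (C' * R ^ (-θ + δ)))) * R ^ (θ - δ) :=
          mul_le_mul_of_nonneg_right h7 h10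
      _ = (C0 : ℝ) * C' * C ^ (s / 2) * (R ^ (-θ + δ) * R ^ (θ - δ)) := by ring
      _ = (C0 : ℝ) * C' * C ^ (s / 2) := by rw [h9, mul_one]
  have h11 := hR₀ R hR0
  linarith

theorem lowerQ (L : LieData N G) (B : Bases L) (π : G →* (H ≃ₗᵢ[ℂ] H))
    (A : LieRep N (KFin L π)) (hP : IsPkg L π A) (μ : Measure G) [μ.IsHaarMeasure]
    [μ.IsMulRightInvariant] (ht : Tempered L π μ) (C : ℝ) (hC : 1 ≤ C) (ξ : Mat N)
    (hξ : A.Coh C ξ) (r : ℝ≥0∞) (hr : 2 < r) (w : H) (hw : w ∈ KFin L π) :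
    ENNReal.ofReal ((rk L ξ : ℝ) / 4) * (1 - 2 / r) ≤ dTo L π qn (pr π μ w r) := by
  rcases Nat.eq_zero_or_pos (rk L ξ) with hn | hn
  · rw [hn, Nat.cast_zero, zero_div, ENNReal.ofReal_zero, zero_mul]
    exact zero_le
  unfold dTo
  refine le_sInf ?_
  rintro t ⟨s, hs, rfl, C0, hC0⟩
  have hnr : (0 : ℝ) < (rk L ξ : ℝ) / 4 := by positivity
  rcases eq_or_ne r ⊤ with hrt | hrt
  · obtain ⟨w2, hw2, hcmp⟩ := compare_top L π A hP μ w hw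
    have hmain : ∀ ρ : ℝ, 2 < ρ → (rk L ξ : ℝ) / 4 * (1 - 2 / ρ) ≤ s := by
      intro ρ hρ
      obtain ⟨C1, hC1⟩ := hcmp ρ (by linarith)
      refine L10_main L π A hP μ w r ((rk L ξ : ℝ) / 4 * (1 - 2 / ρ)) C hC ?_ s hs C0 hC0
      intro δ hδ
      obtain ⟨C', hC', hx⟩ := small_vecQ L B π A hP μ ht C hC ξ hξ hn ρ hρ w2 hw2 δ hδ
      refine ⟨((C1 : ℝ) + 1) * C', by positivity, fun R₀ => ?_⟩
      obtain ⟨R, hR, hR1, x, hxl, hx1, hxp⟩ := hx R₀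
      refine ⟨R, hR, hR1, x, hxl, hx1, ?_⟩
      rw [hrt]
      refine (hC1 _).trans ?_
      have h5 : (C1 : ℝ≥0∞) ≤ ENNReal.ofReal ((C1 : ℝ) + 1) := by
        rw [← ENNReal.ofReal_coe_nnreal]
        exact ENNReal.ofReal_le_ofReal (by linarith)
      rw [mul_assoc, ENNReal.ofReal_mul (by positivity)]
      gcongr
    have h1 : (rk L ξ : ℝ) / 4 ≤ s := by
      have hlim : Tendsto (fun ρ : ℝ => (rk L ξ : ℝ) / 4 * (1 - 2 / ρ)) atTop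
          (𝓝 ((rk L ξ : ℝ) / 4 * (1 - 0))) := by
        refine Tendsto.const_mul _ (Tendsto.const_sub _ ?_)
        exact tendsto_const_nhds.div_atTop tendsto_id
      rw [sub_zero, mul_one] at hlim
      refine le_of_tendsto hlim ?_
      filter_upwards [eventually_gt_atTop (2 : ℝ)] with ρ hρ
      exact hmain ρ hρ
    calc ENNReal.ofReal ((rk L ξ : ℝ) / 4) * (1 - 2 / r) ≤ ENNReal.ofReal ((rk L ξ : ℝ) / 4) * 1 := by
          gcongr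
          exact tsub_le_self
      _ = ENNReal.ofReal ((rk L ξ : ℝ) / 4) := mul_one _
      _ ≤ ENNReal.ofReal s := ENNReal.ofReal_le_ofReal h1
  · set ρ : ℝ := r.toReal with hρ
    have hrρ : r = ENNReal.ofReal ρ := (ENNReal.ofReal_toReal hrt).symm
    have hρ2 : 2 < ρ := by
      have h := (ENNReal.toReal_lt_toReal (by norm_num) hrt).2 hr
      norm_num at h
      exact h
    have hρ0 : 0 < ρ := by linarith
    have h1 : (rk L ξ : ℝ) / 4 * (1 - 2 / ρ) ≤ s := by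
      refine L10_main L π A hP μ w r ((rk L ξ : ℝ) / 4 * (1 - 2 / ρ)) C hC ?_ s hs C0 hC0
      intro δ hδ
      obtain ⟨C', hC', hx⟩ := small_vecQ L B π A hP μ ht C hC ξ hξ hn ρ hρ2 w hw δ hδ
      refine ⟨C', hC', fun R₀ => ?_⟩
      obtain ⟨R, hR, hR1, x, hxl, hx1, hxp⟩ := hx R₀
      refine ⟨R, hR, hR1, x, hxl, hx1, ?_⟩
      rw [hrρ]
      exact hxp
    have h3 : ENNReal.ofReal ((rk L ξ : ℝ) / 4) * (1 - 2 / r) =
        ENNReal.ofReal ((rk L ξ : ℝ) / 4 * (1 - 2 / ρ)) := by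
      rw [ENNReal.ofReal_mul hnr.le, ENNReal.ofReal_sub _ (by positivity), ENNReal.ofReal_one,
        ENNReal.ofReal_div_of_pos hρ0, ← hrρ]
      norm_num
    rw [h3]
    exact ENNReal.ofReal_le_ofReal h1

end SBD
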