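import Pool.Agent.SBX.U10
import Pool.Agent.SBX.L10
import Pool.Agent.SBX.L01
import Pool.Agent.SBD.Q14

/-!
# Assembly : the exact value of the Sobolev distance
-/

open MeasureTheory Filter Topology
open scoped ENNReal NNReal Matrix

noncomputable section

namespace SBD

variable {N : ℕ} {G : Type} [Group G] [TopologicalSpace G] [IsTopologicalGroup G]
  [LocallyCompactSpace G] [T2Space G]
variable [SecondCountableTopology G] [MeasurableSpace G] [BorelSpace G]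
variable {H : Type} [NormedAddCommGroup H] [InnerProductSpace ℂ H] [CompleteSpace H]

theorem rk_le (L : LieData N G) (ξ : Mat N) :
    rk L ξ ≤ Module.finrank ℝ L.𝔤 * Module.finrank ℝ L.𝔤 := by
  unfold rk
  calc ∑ i ∈ Finset.range (Module.finrank ℝ L.𝔤),
        Module.finrank ℝ (L.𝔤.map (adE ξ ^ (2 * i + 1)))
      ≤ ∑ _i ∈ Finset.range (Module.finrank ℝ L.𝔤), Module.finrank ℝ L.𝔤 :=
        Finset.sum_le_sum fun i _ => Submodule.finrank_map_le _ _
    _ = _ := by simp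

theorem exact (L : LieData N G) (μ : Measure G) [μ.IsHaarMeasure] [μ.IsMulRightInvariant]
    (π : G →* (H ≃ₗᵢ[ℂ] H)) (hirr : IsIrr π) (ht : Tempered L π μ)
    (hinf : ¬ FiniteDimensional ℂ H) (r : ℝ≥0∞) (hr : 2 < r) (w : H) (hw : w ∈ KFin L π)
    (hw0 : w ≠ 0) :
    dist L π (pr π μ w r) qn = ENNReal.ofReal ((nu L π : ℝ) / 4) * (1 - 2 / r) := by
  obtain ⟨A, hP⟩ := exists_pkg L π hirr (adm_of_irr L μ π hirr) μ
  obtain ⟨B⟩ := exists_Bases (L := L)
  have hV : ∃ u ∈ KFin L π, u ≠ 0 := ⟨w, hw, hw0⟩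
  have hk := exists_Z L π A hP hinf hV
  have hbdd : BddAbove (rk L '' AC L π) := by
    refine ⟨Module.finrank ℝ L.𝔤 * Module.finrank ℝ L.𝔤, ?_⟩
    rintro _ ⟨ξ, _, rfl⟩
    exact rk_le L ξ
  have hne : (rk L '' AC L π).Nonempty := ⟨_, 0, zero_ac L π A hP hV, rfl⟩
  have hup : dTo L π qn (pr π μ w r) ≤ ENNReal.ofReal ((nu L π : ℝ) / 4) * (1 - 2 / r) :=
    upperQ L B π A hP μ ht (nu L π)
      (fun ξ hξ => le_csSup hbdd ⟨ξ, hξ, rfl⟩) r hr w hw hw0
  have hlo : ENNReal.ofReal ((nu L π : ℝ) / 4) * (1 - 2 / r) ≤ dTo L π qn (pr π μ w r) := by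
    obtain ⟨ξ, hξ, h⟩ := Nat.sSup_mem hne hbdd
    obtain ⟨C, hC, hcoh⟩ := ac_coh L π A hP hV ξ hξ
    have := lowerQ L B π A hP μ ht C hC ξ hcoh r hr w hw
    rw [h] at this
    exact this
  rw [SBD.dist, dTo_zero L π A hP μ ht hk w hw r hr, le_antisymm hup hlo]
  simp

end SBD
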