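import Pool.Agent.SBX.F01

/-!
# The finite-dimensional case; the final statement
-/

open MeasureTheory Filter Topology
open scoped ENNReal NNReal Matrix

noncomputable section

namespace SBD

variable {N : ℕ} {G : Type} [Group G] [TopologicalSpace G] [IsTopologicalGroup G]
  [LocallyCompactSpace G] [T2Space G]
variable {H : Type} [NormedAddCommGroup H] [InnerProductSpace ℂ H] [CompleteSpace H]

theorem f02_fsq (X : Mat N) : fsq X = ∑ i, ∑ j, X j i ^ 2 := by
  simp only [fsq, fip, Matrix.trace, Matrix.diag_apply, Matrix.mul_apply, Matrix.transpose_apply, sq]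

theorem f02_nonneg (X : Mat N) : 0 ≤ fsq X := by
  rw [f02_fsq]
  exact Finset.sum_nonneg fun i _ => Finset.sum_nonneg fun j _ => sq_nonneg _

theorem f02_zero {X : Mat N} (h : fsq X = 0) : X = 0 := by
  rw [f02_fsq, Finset.sum_eq_zero_iff_of_nonneg
    (fun i _ => Finset.sum_nonneg fun j _ => sq_nonneg _)] at h
  ext j i
  have h1 := h i (Finset.mem_univ i)
  rw [Finset.sum_eq_zero_iff_of_nonneg (fun j _ => sq_nonneg _)] at h1
  simpa using h1 j (Finset.mem_univ j)

theorem KFin_fin (L : LieData N G) (π : G →* (H ≃ₗᵢ[ℂ] H)) [FiniteDimensional ℂ H] (v : H) :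
    v ∈ KFin L π := ⟨⊤, inferInstance, trivial, fun _ _ _ _ => trivial⟩

/-- In finite dimension the derivatives of the one-parameter groups are bounded. -/
theorem fin_deriv (L : LieData N G) (π : G →* (H ≃ₗᵢ[ℂ] H)) [FiniteDimensional ℂ H] (X : Mat N) :
    ∃ C : ℝ, 0 < C ∧ ∀ v y : H, HasDerivAt (fun s : ℝ => π (L.e (s • X)) v) y 0 →
      ‖y‖ ≤ C * ‖v‖ := by
  classical
  let S : Submodule ℂ (H × H) :=
    { carrier := {p | HasDerivAt (fun s : ℝ => π (L.e (s • X)) p.1) p.2 0}
      add_mem' := by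
        intro a b ha hb
        have h := HasDerivAt.add ha hb
        refine h.congr_of_eventuallyEq (Filter.Eventually.of_forall fun s => ?_)
        simp
      zero_mem' := by
        have h := hasDerivAt_const (0 : ℝ) (0 : H)
        refine h.congr_of_eventuallyEq (Filter.Eventually.of_forall fun s => ?_)
        simp
      smul_mem' := by
        intro c a ha
        have h := HasDerivAt.const_smul c ha
        refine h.congr_of_eventuallyEq (Filter.Eventually.of_forall fun s => ?_)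
        simp }
  let f : S →ₗ[ℂ] H := (LinearMap.fst ℂ H H).comp S.subtype
  have hf : LinearMap.ker f = ⊥ := by
    rw [LinearMap.ker_eq_bot']
    rintro ⟨⟨a, b⟩, hab⟩ h
    have ha : a = 0 := h
    subst ha
    have h1 : HasDerivAt (fun s : ℝ => π (L.e (s • X)) (0 : H)) b 0 := hab
    have h2 : HasDerivAt (fun s : ℝ => π (L.e (s • X)) (0 : H)) 0 0 := by
      have h := hasDerivAt_const (0 : ℝ) (0 : H)
      refine h.congr_of_eventuallyEq (Filter.Eventually.of_forall fun s => ?_)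
      simp
    have hb : b = 0 := h1.unique h2
    subst hb
    rfl
  obtain ⟨K, hK0, hK⟩ := f.exists_antilipschitzWith hf
  refine ⟨K, by exact_mod_cast hK0, fun v y h => ?_⟩
  have h1 := hK.le_mul_dist ⟨(v, y), h⟩ 0
  rw [dist_zero_right, map_zero, dist_zero_right] at h1
  have h2 : ‖y‖ ≤ ‖(⟨(v, y), h⟩ : S)‖ := by
    show ‖y‖ ≤ ‖(v, y)‖
    exact norm_snd_le (v, y)
  exact h2.trans h1

theorem fin_AC (L : LieData N G) (π : G →* (H ≃ₗᵢ[ℂ] H)) [FiniteDimensional ℂ H] (ξ : Mat N)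
    (hξ : ξ ∈ AC L π) : ξ = 0 := by
  obtain ⟨h𝔤, h⟩ := hξ
  obtain ⟨C, hC, hd⟩ := fin_deriv L π ξᵀ
  have h𝔤' := L.transpose_mem ξ h𝔤
  have key : fsq ξ ≤ 0 := by
    by_contra hneg
    push Not at hneg
    set F := fsq ξ with hF
    set s := Real.sqrt (fsq ξᵀ) with hs
    have hs0 : 0 ≤ s := Real.sqrt_nonneg _
    set ε := F / (2 * (s + C)) with hε
    have hsC : 0 < s + C := by linarith
    have hε0 : 0 < ε := by positivity
    obtain ⟨t, ht0, htε, v, hv, hX⟩ := h ε hε0
    obtain ⟨y, hy, hb⟩ := hX ξᵀ h𝔤'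
    have h1 : ‖y‖ ≤ C := by simpa [hv] using hd v y hy
    have h2 : ‖(Complex.I * ((ξ * ξᵀ).trace : ℝ)) • v‖ = |(ξ * ξᵀ).trace| := by
      rw [norm_smul, hv, mul_one, norm_mul, Complex.norm_I, one_mul, Complex.norm_real,
        Real.norm_eq_abs]
    have h3 : (ξ * ξᵀ).trace = F := by
      rw [hF, fsq, fip, Matrix.trace_mul_comm]
    rw [h3] at h2 hb
    have h4 : |F| ≤ ε * s + t * C := by
      rw [← h2]
      calc ‖(Complex.I * ((F : ℝ) : ℂ)) • v‖
          = ‖(t : ℂ) • y - ((t : ℂ) • y - (Complex.I * ((F : ℝ) : ℂ)) • v)‖ := by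
            congr 1; abel
        _ ≤ ‖(t : ℂ) • y‖ + ‖(t : ℂ) • y - (Complex.I * ((F : ℝ) : ℂ)) • v‖ := norm_sub_le _ _
        _ ≤ t * C + ε * s := by
            refine add_le_add ?_ hb
            rw [norm_smul, Complex.norm_real, Real.norm_eq_abs, abs_of_pos ht0]
            exact mul_le_mul_of_nonneg_left h1 ht0.le
        _ = ε * s + t * C := add_comm _ _
    rw [abs_of_pos hneg] at h4
    have h5 : ε * s + t * C ≤ ε * (s + C) := by nlinarith
    have h6 : ε * (s + C) = F / 2 := by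
      rw [hε]; field_simp
    linarith
  have h0 : fsq ξ = 0 := le_antisymm key (f02_nonneg ξ)
  exact f02_zero h0

theorem fin_nu (L : LieData N G) (π : G →* (H ≃ₗᵢ[ℂ] H)) [FiniteDimensional ℂ H] :
    nu L π = 0 := by
  have h0 : rk L (0 : Mat N) = 0 := by
    unfold rk
    refine Finset.sum_eq_zero fun i _ => ?_
    have : adE (0 : Mat N) = 0 := by
      ext X : 1
      simp [adE]
    rw [this, zero_pow (by omega), Submodule.map_zero, finrank_bot]
  have h1 : rk L '' AC L π ⊆ {0} := by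
    rintro _ ⟨ξ, hξ, rfl⟩
    rw [fin_AC L π ξ hξ, h0]
    rfl
  unfold nu
  rcases Set.subset_singleton_iff_eq.1 h1 with h | h
  · rw [h]; simp
  · rw [h]; simp

section meas

variable [SecondCountableTopology G] [MeasurableSpace G] [BorelSpace G]

theorem fin_equiv (L : LieData N G) (μ : Measure G) [μ.IsHaarMeasure]
    (π : G →* (H ≃ₗᵢ[ℂ] H)) (hirr : IsIrr π) (ht : Tempered L π μ) [FiniteDimensional ℂ H]
    (r : ℝ≥0∞) (hr : 2 < r) (w : H) (hw0 : w ≠ 0) :
    ∃ C : ℝ≥0, ∀ v : H, pr π μ w r v ≤ C * qn v ∧ qn v ≤ C * pr π μ w r v := by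
  have hm : ∀ v : H, MemLp (mc π w v) r μ := fun v =>
    ht w (KFin_fin L π w) v (KFin_fin L π v) r hr
  haveI : Fact (1 ≤ r) := ⟨(by norm_num : (1 : ℝ≥0∞) ≤ 2).trans hr.le⟩
  have hadd : ∀ v v' : H, mc π w (v + v') = mc π w v + mc π w v' := by
    intro v v'
    funext g
    simp [mc, inner_add_right]
  have hsmul : ∀ (c : ℂ) (v : H), mc π w (c • v) = c • mc π w v := by
    intro c v
    funext g
    simp [mc, inner_smul_right]
  let T : H →ₗ[ℂ] Lp ℂ r μ :=
    { toFun := fun v => (hm v).toLp (mc π w v)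
      map_add' := by
        intro v v'
        rw [← MemLp.toLp_add]
        exact MemLp.toLp_congr _ _ (Filter.Eventually.of_forall fun g => by rw [hadd])
      map_smul' := by
        intro c v
        rw [RingHom.id_apply, ← MemLp.toLp_const_smul]
        exact MemLp.toLp_congr _ _ (Filter.Eventually.of_forall fun g => by rw [hsmul]) }
  have hT : ∀ v : H, ‖T v‖ₑ = pr π μ w r v := fun v => Lp.enorm_toLp (hm v)
  have hker : LinearMap.ker T = ⊥ := by
    rw [LinearMap.ker_eq_bot']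
    intro v hv
    have h1 : eLpNorm (mc π w v) r μ = 0 := by
      have := hT v
      rw [hv, enorm_zero] at this
      exact this.symm
    have hcont : ∀ v : H, Continuous (mc π w v) := fun v =>
      continuous_const.inner (hirr.cont v)
    have h2 : mc π w v =ᵐ[μ] 0 :=
      (eLpNorm_eq_zero_iff (hcont v).aestronglyMeasurable
        (by rintro rfl; simp at hr)).1 h1
    have h3 : mc π w v = 0 := (hcont v).ae_eq_iff_eq μ continuous_const |>.1 h2
    let W : Submodule ℂ H :=
      { carrier := {v | ∀ g : G, inner ℂ w (π g v) = 0}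
        add_mem' := by
          intro a b ha hb g
          rw [map_add, inner_add_right, ha g, hb g, add_zero]
        zero_mem' := by
          intro g
          rw [map_zero, inner_zero_right]
        smul_mem' := by
          intro c a ha g
          rw [map_smul, inner_smul_right, ha g, mul_zero] }
    have hWv : v ∈ W := fun g => congrFun h3 g
    have hWc : IsClosed (W : Set H) := by
      have : (W : Set H) = ⋂ g : G, {v | inner ℂ w (π g v) = 0} := by
        ext x
        simp only [Set.mem_iInter]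
        rfl
      rw [this]
      refine isClosed_iInter fun g => isClosed_eq ?_ continuous_const
      exact continuous_const.inner (π g).continuous
    have hWi : ∀ g : G, ∀ x ∈ W, π g x ∈ W := by
      intro g x hx g'
      have := hx (g' * g)
      rw [map_mul] at this
      exact this
    rcases hirr.irr W hWc hWi with h | h
    · rw [h] at hWv
      exact (Submodule.mem_bot ℂ).1 hWv
    · exfalso
      have : w ∈ W := by rw [h]; trivial
      have h5 := this 1
      rw [map_one] at h5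
      exact hw0 (inner_self_eq_zero.1 h5)
  obtain ⟨K, hK0, hK⟩ := T.exists_antilipschitzWith hker
  set T' := LinearMap.toContinuousLinearMap T with hT'
  refine ⟨max K ‖T'‖₊, fun v => ⟨?_, ?_⟩⟩
  · rw [← hT v]
    have h1 : ‖T' v‖ₑ ≤ ‖T'‖ₑ * ‖v‖ₑ := T'.le_opENorm v
    refine (show ‖T v‖ₑ ≤ ‖T'‖ₑ * ‖v‖ₑ from h1).trans ?_
    refine mul_le_mul' ?_ le_rfl
    rw [enorm_eq_nnnorm]
    exact_mod_cast le_max_right _ _
  · rw [← hT v]
    have h1 := hK v 0
    rw [edist_zero_right, map_zero, edist_zero_right] at h1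
    refine (show qn v ≤ (K : ℝ≥0∞) * ‖T v‖ₑ from h1).trans ?_
    refine mul_le_mul' ?_ le_rfl
    exact_mod_cast le_max_left _ _

theorem f02_sob0 {L : LieData N G} {π : G →* (H ≃ₗᵢ[ℂ] H)} {u v : H} (h : Sob L π 0 u v) :
    u = v := by
  obtain ⟨n, x, c, _, rfl, rfl⟩ := h
  refine Finset.sum_congr rfl fun i _ => ?_
  simp

theorem fin_dist (L : LieData N G) (μ : Measure G) [μ.IsHaarMeasure]
    (π : G →* (H ≃ₗᵢ[ℂ] H)) (hirr : IsIrr π) (ht : Tempered L π μ) [FiniteDimensional ℂ H]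
    (r : ℝ≥0∞) (hr : 2 < r) (w : H) (hw0 : w ≠ 0) :
    dist L π (pr π μ w r) qn = 0 := by
  obtain ⟨C, hC⟩ := fin_equiv L μ π hirr ht r hr w hw0
  have h1 : dTo L π (pr π μ w r) qn = 0 := by
    refine le_antisymm (sInf_le ⟨0, le_rfl, by simp, C, fun u v _ huv => ?_⟩) zero_le
    rw [← f02_sob0 huv]
    exact (hC u).1
  have h2 : dTo L π qn (pr π μ w r) = 0 := by
    refine le_antisymm (sInf_le ⟨0, le_rfl, by simp, C, fun u v _ huv => ?_⟩) zero_le
    rw [← f02_sob0 huv]
    exact (hC u).2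
  rw [SBD.dist, h1, h2, max_self]

/-- The exact value, for all irreducible tempered `π`. -/
theorem exact_all (L : LieData N G) (μ : Measure G) [μ.IsHaarMeasure] [μ.IsMulRightInvariant]
    (π : G →* (H ≃ₗᵢ[ℂ] H)) (hirr : IsIrr π) (ht : Tempered L π μ) (r : ℝ≥0∞) (hr : 2 < r)
    (w : H) (hw : w ∈ KFin L π) (hw0 : w ≠ 0) :
    dist L π (pr π μ w r) qn = ENNReal.ofReal ((nu L π : ℝ) / 4) * (1 - 2 / r) := by
  by_cases hfin : FiniteDimensional ℂ H
  · rw [fin_dist L μ π hirr ht r hr w hw0, fin_nu L π]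
    simp
  · exact exact L μ π hirr ht hfin r hr w hw hw0

theorem nu_facts (L : LieData N G) (μ : Measure G) [μ.IsHaarMeasure] [μ.IsMulRightInvariant]
    (π : G →* (H ≃ₗᵢ[ℂ] H)) (hirr : IsIrr π) (hV : ∃ u ∈ KFin L π, u ≠ 0) :
    (∀ ξ ∈ AC L π, IsNilpotent ξ ∧ rk L ξ ≤ nu L π) ∧ ∃ ξ ∈ AC L π, rk L ξ = nu L π := by
  obtain ⟨A, hP⟩ := exists_pkg L π hirr (adm_of_irr L μ π hirr) μ
  have hbdd : BddAbove (rk L '' AC L π) := by
    refine ⟨Module.finrank ℝ L.𝔤 * Module.finrank ℝ L.𝔤, ?_⟩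
    rintro _ ⟨ξ, _, rfl⟩
    exact rk_le L ξ
  have hne : (rk L '' AC L π).Nonempty := ⟨_, 0, zero_ac L π A hP hV, rfl⟩
  refine ⟨fun ξ hξ => ⟨?_, le_csSup hbdd ⟨ξ, hξ, rfl⟩⟩, ?_⟩
  · obtain ⟨C, _, hcoh⟩ := ac_coh L π A hP hV ξ hξ
    exact LieRep.coh_nil A hP.adm C ξ hcoh
  · obtain ⟨ξ, hξ, h⟩ := Nat.sSup_mem hne hbdd
    exact ⟨ξ, hξ, h⟩

end meas

end SBD
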