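import Pool.Agent.SBD.Defs

/-!
# Row SBX-F03 : a unitary representation has nonzero `K`-finite vectors

PROOF.  `K = L.K` is closed in `G` and compact (`L.ι_proper` applied to the compact set of the
`g` with `g gᵀ = 1`; a matrix `M` with `M Mᵀ = 1` has entries `|M_ij| ≤ 1`).  Let `ν` be the Haar
measure of the compact group `K` normalised to mass `1` (`haarMeasure ⊤`, Borel `σ`-algebra on `K`).
Fix `v ≠ 0` in `H` and put `T_k x = ⟨π(k)v, x⟩ π(k)v` (`ContinuousLinearMap.smulRight`/`innerSL`,
norm-continuous in `k` since `k ↦ π(k)v` is) and `T = ∫_K T_k dν(k) : H →L[ℂ] H` (Bochner integral).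
* `T` is a compact operator: each `T_k` has rank one, the set of compact operators is a closed
  convex set (`isClosed_setOf_isCompactOperator`), so `Convex.integral_mem` applies.
* `T` is self-adjoint: `⟨T x, y⟩ = ∫ ⟨x, π(k)v⟩⟨π(k)v, y⟩ dν(k)`; and `T ≠ 0`: `⟨T v, v⟩ =
  ∫ |⟨π(k)v, v⟩|² dν > 0` (continuous, positive at `k = 1`; Haar measure is positive on open sets).
* `T π(h) = π(h) T` for `h ∈ K`: left invariance of `ν`.
* A nonzero compact self-adjoint operator has a nonzero eigenvalue `lam` (spectral radius `= ‖T‖ ≠ 0`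
  for self-adjoint operators, and a nonzero point of the spectrum of a compact operator is an
  eigenvalue; or the direct proof: take unit `x_n` with `|⟨T x_n, x_n⟩| → ‖T‖`, a subsequence with
  `⟨T x_n, x_n⟩ → lam = ±‖T‖`, then `‖T x_n - lam x_n‖² ≤ 2‖T‖² - 2 lam ⟨T x_n, x_n⟩ → 0`, and by
  compactness a subsequence of `T x_n`, hence of `x_n`, converges to an eigenvector).
* The eigenspace `W = ker (T - lam)` is finite-dimensional (`T = lam` on `W`, so the unit ball of `W`
  is relatively compact; Riesz), and it is invariant under `K`.  So every vector of `W` is `K`-finite.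
-/

open MeasureTheory Filter Topology
open scoped ENNReal NNReal Matrix

noncomputable section

namespace SBD

variable {N : ℕ} {G : Type} [Group G] [TopologicalSpace G] [IsTopologicalGroup G]
  [LocallyCompactSpace G] [T2Space G]
variable {H : Type} [NormedAddCommGroup H] [InnerProductSpace ℂ H] [CompleteSpace H]

/-- the orthogonal matrices form a compact set -/
private theorem f03_orth_compact : IsCompact {M : Mat N | M * Mᵀ = 1} := by
  have h1 : IsCompact {M : Mat N | ∀ i j, M i j ∈ Set.Icc (-1 : ℝ) 1} := by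
    have h2 : IsCompact (Set.pi (Set.univ : Set (Fin N)) fun _ =>
        Set.pi (Set.univ : Set (Fin N)) fun _ => Set.Icc (-1 : ℝ) 1) :=
      isCompact_univ_pi fun _ => isCompact_univ_pi fun _ => isCompact_Icc
    have h3 : {M : Mat N | ∀ i j, M i j ∈ Set.Icc (-1 : ℝ) 1} =
        (Set.pi (Set.univ : Set (Fin N)) fun _ =>
          Set.pi (Set.univ : Set (Fin N)) fun _ => Set.Icc (-1 : ℝ) 1) :=
      Set.ext fun M => ⟨fun h i _ j _ => h i j, fun h i j => h i trivial j trivial⟩
    rw [h3]
    exact h2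
  have hc : IsClosed {M : Mat N | M * Mᵀ = 1} :=
    isClosed_eq (continuous_id.matrix_mul continuous_id.matrix_transpose) continuous_const
  refine h1.of_isClosed_subset hc ?_
  intro M hM i j
  have h3 : (M * Mᵀ) i i = 1 := by
    have h4 : M * Mᵀ = 1 := hM
    rw [h4, Matrix.one_apply_eq]
  rw [Matrix.mul_apply] at h3
  have h4 : M i j * M i j ≤ 1 := by
    rw [← h3]
    have h5 := Finset.single_le_sum (f := fun j => M i j * Mᵀ j i) (s := Finset.univ)
      (fun k _ => by
        simp only [Matrix.transpose_apply]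
        exact mul_self_nonneg _) (Finset.mem_univ j)
    simpa only [Matrix.transpose_apply] using h5
  rw [Set.mem_Icc, ← abs_le]
  exact abs_le_one_iff_mul_self_le_one.2 h4

private theorem f03_K_compact (L : LieData N G) : IsCompact (L.K : Set G) :=
  L.ι_proper _ f03_orth_compact

/-- the rank one operator -/
private def f03T (u : H) : H →L[ℂ] H := (innerSL ℂ u).smulRight u

private theorem f03T_apply (u x : H) : f03T u x = inner ℂ u x • u := rfl

private theorem f03T_cont : Continuous (f03T : H → H →L[ℂ] H) := by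
  have h1 := (isBoundedBilinearMap_smulRight (𝕜 := ℂ) (E := H) (F := H)).continuous
  exact h1.comp ((innerSL ℂ (E := H)).continuous.prodMk continuous_id)

private theorem f03T_compact (u : H) : IsCompactOperator (f03T u) := by
  have h1 : IsCompactOperator ((ContinuousLinearMap.toSpanSingleton ℂ u : ℂ →L[ℂ] H)) :=
    isCompactOperator_of_locallyCompactSpace_rng _
  exact h1.comp_clm (innerSL ℂ u)

private theorem f03T_sa (u : H) : IsSelfAdjoint (f03T u) := by
  rw [ContinuousLinearMap.isSelfAdjoint_iff_isSymmetric]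
  intro x y
  show inner ℂ (f03T u x) y = inner ℂ x (f03T u y)
  rw [f03T_apply, f03T_apply, inner_smul_left, inner_smul_right, inner_conj_symm, mul_comm]

/-- the averaging operator -/
private theorem f03_main {K : Type} [Group K] [TopologicalSpace K] [IsTopologicalGroup K] [CompactSpace K]
    [T2Space K] (ρ : K →* (H ≃ₗᵢ[ℂ] H)) (hρ : ∀ v : H, Continuous fun k => ρ k v) (v : H) (hv : v ≠ 0) :
    ∃ W : Submodule ℂ H, FiniteDimensional ℂ W ∧ W ≠ ⊥ ∧ ∀ k, ∀ x ∈ W, ρ k x ∈ W := by
  let mK : MeasurableSpace K := borel K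
  have bK : BorelSpace K := ⟨rfl⟩
  let ν : Measure K := Measure.haarMeasure (⊤ : TopologicalSpace.PositiveCompacts K)
  have hνp : IsProbabilityMeasure ν := ⟨by
    have h1 := Measure.haarMeasure_self (G := K) (K₀ := (⊤ : TopologicalSpace.PositiveCompacts K))
    rwa [TopologicalSpace.PositiveCompacts.coe_top] at h1⟩
  have hc : Continuous fun k => f03T (ρ k v) := f03T_cont.comp (hρ v)
  have hcs : ∀ {E : Type} [NormedAddCommGroup E] (f : K → E), HasCompactSupport f := fun f =>
    HasCompactSupport.of_compactSpace f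
  have hint : Integrable (fun k => f03T (ρ k v)) ν := hc.integrable_of_hasCompactSupport (hcs _)
  let T : H →L[ℂ] H := ∫ k, f03T (ρ k v) ∂ν
  have hTc : IsCompactOperator T := by
    have h1 : Convex ℝ {f : H →L[ℂ] H | IsCompactOperator f} := by
      intro f hf g hg a b _ _ _
      have hf' : IsCompactOperator f := hf
      have hg' : IsCompactOperator g := hg
      exact (hf'.smul a).add (hg'.smul b)
    exact h1.integral_mem isClosed_setOfPred_isCompactOperator
      (Filter.Eventually.of_forall fun k => f03T_compact (ρ k v)) hint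
  have hTs : IsSelfAdjoint T := by
    have h1 : Convex ℝ {f : H →L[ℂ] H | IsSelfAdjoint f} := by
      intro f hf g hg a b _ _ _
      have hf' : IsSelfAdjoint f := hf
      have hg' : IsSelfAdjoint g := hg
      exact ((IsSelfAdjoint.all a).smul hf').add ((IsSelfAdjoint.all b).smul hg')
    have h2 : IsClosed {f : H →L[ℂ] H | IsSelfAdjoint f} := isClosed_eq continuous_star continuous_id
    exact h1.integral_mem h2 (Filter.Eventually.of_forall fun k => f03T_sa (ρ k v)) hint
  have hT0 : T ≠ 0 := by
    intro h0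
    have h1 : ∫ k, inner ℂ v (f03T (ρ k v) v) ∂ν = inner ℂ v (T v) :=
      ((innerSL ℂ v) ∘L (ContinuousLinearMap.apply ℂ H v)).integral_comp_comm hint
    have h2 : ∀ k, inner ℂ v (f03T (ρ k v) v) = ((‖inner ℂ (ρ k v) v‖ ^ 2 : ℝ) : ℂ) := by
      intro k
      rw [f03T_apply, inner_smul_right, ← inner_conj_symm v (ρ k v), Complex.mul_conj, Complex.normSq_eq_norm_sq]
    simp only [h2] at h1
    rw [integral_complex_ofReal, h0] at h1
    have h3 : (0 : ℝ) < ∫ k, ‖inner ℂ (ρ k v) v‖ ^ 2 ∂ν := by
      refine Continuous.integral_pos_of_hasCompactSupport_nonneg_nonzero (x := 1) ?_ (hcs _) (fun k => by positivity) ?_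
      · exact ((hρ v).inner continuous_const).norm.pow 2
      · rw [map_one]
        have h4 : inner ℂ v v ≠ 0 := inner_self_ne_zero.2 hv
        exact pow_ne_zero 2 (norm_ne_zero_iff.2 h4)
    rw [ContinuousLinearMap.zero_apply, inner_zero_right] at h1
    have h4 : ∫ k, ‖inner ℂ (ρ k v) v‖ ^ 2 ∂ν = 0 := by exact_mod_cast h1
    linarith
  have hTρ : ∀ h x, T (ρ h x) = ρ h (T x) := by
    intro h x
    have h1 : T (ρ h x) = ∫ k, f03T (ρ k v) (ρ h x) ∂ν := ContinuousLinearMap.integral_apply hint (ρ h x)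
    have h2 : T x = ∫ k, f03T (ρ k v) x ∂ν := ContinuousLinearMap.integral_apply hint x
    have h3 : ∫ k, ρ h (f03T (ρ k v) x) ∂ν = ρ h (∫ k, f03T (ρ k v) x ∂ν) :=
      ((ρ h).toContinuousLinearEquiv : H →L[ℂ] H).integral_comp_comm
        ((ContinuousLinearMap.apply ℂ H x).integrable_comp hint)
    rw [h1, h2, ← h3, ← integral_mul_left_eq_self (μ := ν) (fun k => f03T (ρ k v) (ρ h x)) h]
    refine integral_congr_ae (Filter.Eventually.of_forall fun k => ?_)
    show f03T (ρ (h * k) v) (ρ h x) = ρ h (f03T (ρ k v) x)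
    have h4 : ρ (h * k) v = ρ h (ρ k v) := by
      rw [map_mul]
      rfl
    rw [f03T_apply, f03T_apply, h4, LinearIsometryEquiv.inner_map_map, map_smul]
  have hTs' : T.IsSymmetric := ContinuousLinearMap.isSelfAdjoint_iff_isSymmetric.1 hTs
  have h1 := (not_congr (ContinuousLinearMap.eq_zero_of_forall_hasEigenvalue_eq_zero hTc hTs')).2 hT0
  push Not at h1
  obtain ⟨μ, hμ, hμ0⟩ := h1
  refine ⟨Module.End.eigenspace T.toLinearMap μ,
    ContinuousLinearMap.finite_dimensional_eigenspace hTc μ hμ0, hμ, fun k x hx => ?_⟩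
  rw [Module.End.mem_eigenspace_iff] at hx ⊢
  show T (ρ k x) = μ • ρ k x
  have h2 : T x = μ • x := hx
  rw [hTρ, h2, map_smul]

theorem exists_kfin (L : LieData N G) (π : G →* (H ≃ₗᵢ[ℂ] H))
    (hcont : ∀ v : H, Continuous fun g => π g v) (hH : Nontrivial H) :
    ∃ u ∈ KFin L π, u ≠ 0 := by
  obtain ⟨v, hv⟩ := exists_ne (0 : H)
  have hK : CompactSpace L.K := isCompact_iff_compactSpace.1 (f03_K_compact L)
  obtain ⟨W, hW1, hW2, hW3⟩ := f03_main (K := L.K) (π.comp L.K.subtype)
    (fun v => (hcont v).comp continuous_subtype_val) v hv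
  obtain ⟨u, hu, hu0⟩ := Submodule.exists_mem_ne_zero_of_ne_bot hW2
  exact ⟨u, ⟨W, hW1, hu, fun k hk x hx => hW3 ⟨k, hk⟩ x hx⟩, hu0⟩

end SBD
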