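import Pool.Agent.SBX.F02
import Pool.Agent.SBX.F03

/-!
# The final statement
-/

open MeasureTheory Filter Topology
open scoped ENNReal NNReal Matrix

noncomputable section

namespace SBD

variable {N : ℕ} {G : Type} [Group G] [TopologicalSpace G] [IsTopologicalGroup G]
  [LocallyCompactSpace G] [T2Space G] [SecondCountableTopology G] [MeasurableSpace G]
  [BorelSpace G]
variable {H : Type} [NormedAddCommGroup H] [InnerProductSpace ℂ H] [CompleteSpace H]

theorem final (L : LieData N G) (μ : Measure G) [μ.IsHaarMeasure] [μ.IsMulRightInvariant]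
    (π : G →* (H ≃ₗᵢ[ℂ] H)) (hirr : IsIrr π) (ht : Tempered L π μ) :
    (∃ w ∈ KFin L π, w ≠ 0) ∧ (∀ u ∈ KFin L π, ∀ s : ℝ, ∃! v : H, Sob L π s u v) ∧
    (∀ ξ ∈ AC L π, IsNilpotent ξ ∧ rk L ξ ≤ nu L π) ∧ (∃ ξ ∈ AC L π, rk L ξ = nu L π) ∧
    (nu L π = 0 ↔ FiniteDimensional ℂ H) ∧
    ∀ r : ℝ≥0∞, 2 < r → ∀ w ∈ KFin L π, w ≠ 0 →
      dist L π (pr π μ w r) qn = ENNReal.ofReal ((nu L π : ℝ) / 4) * (1 - 2 / r) := by
  have hV := exists_kfin L π hirr.cont hirr.nontriv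
  obtain ⟨h1, h2⟩ := nu_facts L μ π hirr hV
  refine ⟨hV, ?_, h1, h2, ⟨?_, fun h => fin_nu L π⟩, fun r hr w hw hw0 =>
    exact_all L μ π hirr ht r hr w hw hw0⟩
  · intro u hu s
    obtain ⟨A, hP⟩ := exists_pkg L π hirr (adm_of_irr L μ π hirr) μ
    exact sob_exists_unique L π A hP s u hu
  · intro h
    by_contra hfin
    obtain ⟨w, hw, hw0⟩ := hV
    obtain ⟨-, c, C, hc, -, hb⟩ := main2 L μ π hirr ht hfin
    have h3 := (hb 3 (by norm_num) w hw hw0).1
    rw [exact_all L μ π hirr ht 3 (by norm_num) w hw hw0, h, Nat.cast_zero, zero_div,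
      ENNReal.ofReal_zero, zero_mul, nonpos_iff_eq_zero, mul_eq_zero] at h3
    rcases h3 with h3 | h3
    · exact absurd (ENNReal.ofReal_eq_zero.1 h3) (not_le.2 hc)
    · rw [tsub_eq_zero_iff_le] at h3
      have h4 : (2 : ℝ≥0∞) / 3 < 1 := by
        rw [ENNReal.div_lt_iff (by norm_num) (by norm_num)]
        norm_num
      exact absurd h3 (not_le.2 h4)

end SBD
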