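import Pool.Agent.SBD.A16

/-!
# Definitions for the algebraic part of the exact value: words, coherent vectors
-/

open scoped Matrix

noncomputable section

namespace SBD

namespace LieRep

variable {N : ℕ} {V : Type} [NormedAddCommGroup V] [InnerProductSpace ℂ V] (A : LieRep N V)

/-- Index set of the orthonormal basis of `𝔤`. -/
abbrev J : Type := Fin A.m ⊕ Fin A.n

/-- The orthonormal basis of `𝔤`. -/
def bs : A.J → Mat N := Sum.elim A.Z A.P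

/-- The word `(s D(b_{i_1})) (s D(b_{i_2})) ⋯ v`. -/
def wd (s : ℝ) (l : List A.J) (v : V) : V :=
  l.foldr (fun i x => ((s : ℝ) : ℂ) • A.D (A.bs i) x) v

/-- The linear combination of words with coefficients `c`. -/
def wsum (s : ℝ) (c : List A.J →₀ ℂ) (v : V) : V := c.sum fun l a => a • A.wd s l v

/-- `ξ` is a limit of coherent vectors: there are unit vectors `v` of frequency `≤ √C R`, `R → ∞`, with
`R⁻¹ D(X) v ≈ i tr(ξX) v` for all `X ∈ 𝔤`. -/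
def Coh (C : ℝ) (ξ : Mat N) : Prop := ξ ∈ A.𝔤 ∧ ∀ ε : ℝ, 0 < ε → ∃ R : ℝ, 1 ≤ R ∧ 1 / ε ≤ R ∧
  ∃ v ∈ A.low (C * R ^ 2), ‖v‖ = 1 ∧ ∀ X ∈ A.𝔤,
    ‖((R⁻¹ : ℝ) : ℂ) • A.D X v - (Complex.I * ((ξ * X).trace : ℝ)) • v‖ ≤ ε * Real.sqrt (fsq X)

/-- For a linear map `τ` into matrices: the elements `Y_{ij} ∈ 𝔤` with `tr(Y_{ij} X) = τ(X)_{ij}`. -/
def Y {ι : Type} (τ : Mat N →ₗ[ℝ] Matrix ι ι ℝ) (i j : ι) : Mat N :=
  -∑ a, τ (A.Z a) i j • A.Z a + ∑ b, τ (A.P b) i j • A.P b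

/-- The matrix of operators `D(Y_{ij})`. -/
def XT {ι : Type} (τ : Mat N →ₗ[ℝ] Matrix ι ι ℝ) : Matrix ι ι (Module.End ℂ V) :=
  fun i j => A.D (A.Y τ i j)

/-- `Q = ∑_{ij} P_{ij}^* P_{ij}`, `P = XT^n`. -/
def QT {ι : Type} [Fintype ι] [DecidableEq ι] (τ : Mat N →ₗ[ℝ] Matrix ι ι ℝ) (n : ℕ) :
    Module.End ℂ V :=
  ((-1 : ℂ) ^ n) • ((A.XT τ).transpose ^ n * (A.XT τ) ^ n).trace

end LieRep

end SBD
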