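import Pool.Agent.SBD.An
import Pool.Agent.SBX.UDefs

/-!
# Definitions for the analytic part of the exact value: weighted forms
-/

open MeasureTheory Filter Topology
open scoped ENNReal NNReal Matrix

noncomputable section

namespace SBD

variable {N : ℕ} {G : Type} [Group G] [TopologicalSpace G]
  {H : Type} [NormedAddCommGroup H] [InnerProductSpace ℂ H]

/-- A right `K`-invariant continuous positive weight `W ≤ C Θ^{-κ}`, Lipschitz in the logarithm. -/
structure IsWt (L : LieData N G) (W : G → ℝ) (c κ : ℝ) : Prop where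
  cont : Continuous W
  pos : ∀ g, 0 < W g
  le : ∃ C : ℝ, 0 < C ∧ ∀ g, W g ≤ C * Th L g ^ (-κ)
  Kr : ∀ k ∈ L.K, ∀ g, W (g * k) = W g
  line : ∀ X ∈ L.𝔤, ∀ (g : G) (t : ℝ),
    W (g * L.e (t • X)) ≤ Real.exp (c * |t| * Real.sqrt (fsq X)) * W g

/-- The weighted form `B_W(u,v) = ∫ W conj(m_{w,u}) m_{w,v}`. -/
def BW [MeasurableSpace G] (L : LieData N G) (π : G →* (H ≃ₗᵢ[ℂ] H)) (μ : Measure G) (W : G → ℝ)
    (w : H) (u v : KFin L π) : ℂ :=
  ∫ g, ((W g : ℝ) : ℂ) *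
    ((starRingEnd ℂ) (mc π w (u : H) g) * mc π w (v : H) g) ∂μ

/-- The weighted square integral of a matrix coefficient, for all vectors of `H`. -/
def QW [MeasurableSpace G] (π : G →* (H ≃ₗᵢ[ℂ] H)) (μ : Measure G) (W : G → ℝ) (w y : H) :
    ℝ≥0∞ := ∫⁻ g, ENNReal.ofReal (W g * ‖mc π w y g‖ ^ 2) ∂μ

end SBD
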