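import Pool.Agent.SBX.Defs
import Pool.Agent.SBX.WDefs

/-!
# Definition: a (non-unital) finite-dimensional representation in matrices
-/

open MeasureTheory Filter Topology
open scoped ENNReal NNReal Matrix

noncomputable section

namespace SBD

variable {N : ℕ} {G : Type} [Group G] [TopologicalSpace G]

/-- `σ` is a representation of `G` by matrices, up to a projection `σ 1`, and `τ` its differential on
`𝔤`, compatible with transposes. -/
structure GRep (L : LieData N G) {ι : Type} [Fintype ι] [DecidableEq ι] (σ : G → Matrix ι ι ℝ)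
    (τ : Mat N →ₗ[ℝ] Matrix ι ι ℝ) : Prop where
  mul : ∀ g h : G, σ (g * h) = σ g * σ h
  conj : ∀ g : G, ∀ X ∈ L.𝔤, σ g * τ X * σ g⁻¹ = τ (L.ι g * X * L.ι g⁻¹)
  proj : ∀ X ∈ L.𝔤, σ 1 * τ X = τ X ∧ τ X * σ 1 = τ X
  Kt : ∀ k ∈ L.K, (σ k)ᵀ = σ k⁻¹
  lie : ∀ X ∈ L.𝔤, ∀ Y ∈ L.𝔤, τ (X * Y - Y * X) = τ X * τ Y - τ Y * τ X
  tr : ∀ X, (τ X)ᵀ = τ Xᵀ

end SBD
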