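import Pool.Agent.SBX.UDefs

/-!
# Row SBX-L02 : words on coherent vectors; nilpotency of the limit points

* `coh_words` : induction on `k`.  `a_l = i^{|l|}∏tr(ξX)`.  For `X :: l`: `R^{-k-1}D(X)(D(l)v) - i tr(ξX)a_l v =
  R⁻¹D(X)[R^{-k}D(l)v - a_lv] + a_l[R⁻¹D(X)v - i tr(ξX)v]`.  The vector in the first bracket is in `low(C_kR²)`
  (A05 `D_low`/`words`) with norm `≤ C'ε`, and `‖R⁻¹D(X)u‖ ≤ C''√b‖u‖` on `low(C_kR²)` (A04 `norm_D_le`);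
  `|tr(ξX)| ≤ √(fsq ξ)√(fsq X)`.
* `coh_pow` : `(XT τ)^n_{ij} = ∑ over paths i = i_0, i_1, …, i_n = j of D(Y_{i_0i_1})⋯D(Y_{i_{n-1}i_n})`
  (`Matrix.pow` expansion, or induction on `n` with the same estimate as in `coh_words`: statement for all
  `i,j` by `XT^{n+1}_{ij} = ∑_l XT_{il}XT^n_{lj}`), and `tr(ξY_{ij}) = τ(ξ)_{ij}`: with `ξ = ∑z_aZ_a + ∑p_bP_b`
  (`A.basis`), `tr(ξZ_a) = -z_a`, `tr(ξP_b) = p_b`.
* `coh_nil` : `A.X = XT id` (`A.W i j = A.Y id i j`), `tr(A.X^j) = z_j` is scalar (`hA.tr`), `j ≥ 1`.  From `coh_pow`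
  with `τ = id`: `‖R^{-j}z_jv - i^jtr(ξ^j)v‖ ≤ C'ε` with `R → ∞`, `ε → 0`: so `tr(ξ^j) = 0` for all `j ≥ 1`,
  and `ξ` is nilpotent (characteristic `0`: all power sums of the complex eigenvalues vanish, so all
  eigenvalues are `0`; e.g. Newton identities/`Matrix.charpoly`, or Vandermonde).
-/

open scoped Matrix

noncomputable section

namespace SBD

namespace LieRep

variable {N : ℕ} {V : Type} [NormedAddCommGroup V] [InnerProductSpace ℂ V] (A : LieRep N V)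

private theorem L02_cs {N : ℕ} (X Y : Mat N) :
    |(X * Y).trace| ≤ Real.sqrt (fsq X) * Real.sqrt (fsq Y) := by
  have e1 : (X * Y).trace = ∑ p : Fin N × Fin N, X p.1 p.2 * Y p.2 p.1 := by
    rw [Fintype.sum_prod_type, Matrix.trace]
    rfl
  have e2 : fsq X = ∑ p : Fin N × Fin N, X p.1 p.2 ^ 2 := by
    rw [Fintype.sum_prod_type, fsq, fip, Matrix.trace, Finset.sum_comm]
    refine Finset.sum_congr rfl fun i _ => ?_
    rw [Matrix.diag_apply, Matrix.mul_apply]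
    refine Finset.sum_congr rfl fun j _ => ?_
    rw [Matrix.transpose_apply, sq]
  have e3 : fsq Y = ∑ p : Fin N × Fin N, Y p.2 p.1 ^ 2 := by
    rw [Fintype.sum_prod_type, fsq, fip, Matrix.trace]
    refine Finset.sum_congr rfl fun i _ => ?_
    rw [Matrix.diag_apply, Matrix.mul_apply]
    refine Finset.sum_congr rfl fun j _ => ?_
    rw [Matrix.transpose_apply, sq]
  have h := Finset.sum_mul_sq_le_sq_mul_sq Finset.univ
    (fun p : Fin N × Fin N => X p.1 p.2) (fun p : Fin N × Fin N => Y p.2 p.1)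
  rw [← e1, ← e2, ← e3] at h
  have h0 : 0 ≤ fsq X := by
    rw [e2]
    exact Finset.sum_nonneg fun _ _ => sq_nonneg _
  rw [← Real.sqrt_mul h0, ← Real.sqrt_sq_eq_abs]
  exact Real.sqrt_le_sqrt h

theorem tr_Y {ι : Type} (τ : Mat N →ₗ[ℝ] Matrix ι ι ℝ) (i j : ι) {X : Mat N} (hX : X ∈ A.𝔤) :
    (A.Y τ i j * X).trace = τ X i j ∧ (X * A.Y τ i j).trace = τ X i j ∧ A.Y τ i j ∈ A.𝔤 := by
  have h1 : (A.Y τ i j * X).trace = τ X i j := by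
    have hb := congrArg (fun W => τ W i j) (A.basis X hX)
    simp only [map_add, map_sum, map_smul, Matrix.add_apply, Matrix.sum_apply,
      Matrix.smul_apply, smul_eq_mul] at hb
    rw [hb, Y, Matrix.add_mul, Matrix.neg_mul, Finset.sum_mul, Finset.sum_mul, Matrix.trace_add,
      Matrix.trace_neg, Matrix.trace_sum, Matrix.trace_sum, ← Finset.sum_neg_distrib]
    congr 1
    · refine Finset.sum_congr rfl fun a _ => ?_
      rw [Matrix.smul_mul, Matrix.trace_smul, smul_eq_mul, fip, A.Z_t, Matrix.neg_mul,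
        Matrix.trace_neg]
      ring
    · refine Finset.sum_congr rfl fun a _ => ?_
      rw [Matrix.smul_mul, Matrix.trace_smul, smul_eq_mul, fip, A.P_t]
      ring
  refine ⟨h1, by rw [Matrix.trace_mul_comm, h1], ?_⟩
  rw [Y]
  refine A.𝔤.add_mem (A.𝔤.neg_mem (A.𝔤.sum_mem fun a _ => A.𝔤.smul_mem _ (A.Z_mem a)))
    (A.𝔤.sum_mem fun b _ => A.𝔤.smul_mem _ (A.P_mem b))

/-- one step -/
private theorem L02_step (hA : A.IsAdm) (C : ℝ) (hC : 1 ≤ C) (C₁ : ℝ) (hC₁ : C ≤ C₁) (K : ℝ)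
    (hK : 0 ≤ K) (b M : ℝ) :
    ∃ C₂ K' : ℝ, C ≤ C₂ ∧ 0 ≤ K' ∧ ∀ ξ ∈ A.𝔤, fsq ξ ≤ M → ∀ ε : ℝ, 0 ≤ ε → ∀ R : ℝ, 1 ≤ R →
      ∀ v ∈ A.low (C * R ^ 2), ‖v‖ = 1 →
      (∀ X ∈ A.𝔤, ‖((R⁻¹ : ℝ) : ℂ) • A.D X v - (Complex.I * ((ξ * X).trace : ℝ)) • v‖ ≤
        ε * Real.sqrt (fsq X)) →
      ∀ u ∈ A.low (C₁ * R ^ 2), ∀ a : ℂ, ‖u - a • v‖ ≤ K * ε → ‖a‖ ≤ K →
      ∀ X ∈ A.𝔤, fsq X ≤ b →
        ((R⁻¹ : ℝ) : ℂ) • A.D X u ∈ A.low (C₂ * R ^ 2) ∧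
        ‖((R⁻¹ : ℝ) : ℂ) • A.D X u - ((Complex.I * ((ξ * X).trace : ℝ)) * a) • v‖ ≤ K' * ε ∧
        ‖(Complex.I * ((ξ * X).trace : ℝ)) * a‖ ≤ K' := by
  obtain ⟨CL, hCL, hlow⟩ := A.D_low hA
  obtain ⟨CD, hCD, hD⟩ := A.norm_D_le hA
  have hb0 := Real.sqrt_nonneg b
  have hM0 := Real.sqrt_nonneg M
  have hC10 := Real.sqrt_nonneg C₁
  refine ⟨CL * C₁, CD * Real.sqrt b * Real.sqrt C₁ * K + K * Real.sqrt b +
    Real.sqrt M * Real.sqrt b * K, by nlinarith, by positivity, ?_⟩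
  intro ξ hξ hM ε hε R hR v hv hv1 hcoh u hu a hua ha X hX hXb
  have hR0 : 0 < R := by linarith
  have hR2 : 1 ≤ R ^ 2 := by nlinarith
  have hCR : 1 ≤ C₁ * R ^ 2 := by nlinarith
  have hsX : Real.sqrt (fsq X) ≤ Real.sqrt b := Real.sqrt_le_sqrt hXb
  have hsξ : Real.sqrt (fsq ξ) ≤ Real.sqrt M := Real.sqrt_le_sqrt hM
  have hsX0 := Real.sqrt_nonneg (fsq X)
  have hv' : v ∈ A.low (C₁ * R ^ 2) := A.low_mono (by gcongr) hv
  refine ⟨?_, ?_, ?_⟩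
  · rw [mul_assoc]
    exact Submodule.smul_mem _ _ (hlow X hX (C₁ * R ^ 2) hCR u hu)
  · have hw : u - a • v ∈ A.low (C₁ * R ^ 2) :=
      Submodule.sub_mem _ hu (Submodule.smul_mem _ _ hv')
    have h1 := hD X hX (C₁ * R ^ 2) hCR (u - a • v) hw
    have h2 : Real.sqrt (C₁ * R ^ 2) = Real.sqrt C₁ * R := by
      rw [Real.sqrt_mul (by linarith), Real.sqrt_sq hR0.le]
    rw [h2] at h1
    have h3 : ‖((R⁻¹ : ℝ) : ℂ) • A.D X (u - a • v)‖ ≤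
        CD * Real.sqrt b * Real.sqrt C₁ * K * ε := by
      rw [norm_smul, Complex.norm_real, Real.norm_of_nonneg (by positivity)]
      calc R⁻¹ * ‖A.D X (u - a • v)‖
          ≤ R⁻¹ * (CD * Real.sqrt (fsq X) * (Real.sqrt C₁ * R) * ‖u - a • v‖) := by gcongr
        _ = CD * Real.sqrt (fsq X) * Real.sqrt C₁ * ‖u - a • v‖ := by
            field_simp
        _ ≤ CD * Real.sqrt b * Real.sqrt C₁ * (K * ε) := by gcongr
        _ = CD * Real.sqrt b * Real.sqrt C₁ * K * ε := by ring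
    have h4 : ‖a • (((R⁻¹ : ℝ) : ℂ) • A.D X v - (Complex.I * ((ξ * X).trace : ℝ)) • v)‖ ≤
        K * Real.sqrt b * ε := by
      rw [norm_smul]
      calc ‖a‖ * ‖((R⁻¹ : ℝ) : ℂ) • A.D X v - (Complex.I * ((ξ * X).trace : ℝ)) • v‖
          ≤ K * (ε * Real.sqrt (fsq X)) := by
            apply mul_le_mul ha (hcoh X hX) (norm_nonneg _) hK
        _ ≤ K * (ε * Real.sqrt b) := by gcongr
        _ = K * Real.sqrt b * ε := by ring
    have h5 : ((R⁻¹ : ℝ) : ℂ) • A.D X u - ((Complex.I * ((ξ * X).trace : ℝ)) * a) • v =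
        ((R⁻¹ : ℝ) : ℂ) • A.D X (u - a • v) +
          a • (((R⁻¹ : ℝ) : ℂ) • A.D X v - (Complex.I * ((ξ * X).trace : ℝ)) • v) := by
      rw [map_sub, map_smul]
      module
    rw [h5]
    calc _ ≤ _ := norm_add_le _ _
      _ ≤ CD * Real.sqrt b * Real.sqrt C₁ * K * ε + K * Real.sqrt b * ε := add_le_add h3 h4
      _ ≤ (CD * Real.sqrt b * Real.sqrt C₁ * K + K * Real.sqrt b +
          Real.sqrt M * Real.sqrt b * K) * ε := by
          have : 0 ≤ Real.sqrt M * Real.sqrt b * K * ε := by positivity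
          nlinarith
  · have h6 : |(ξ * X).trace| ≤ Real.sqrt M * Real.sqrt b :=
      (L02_cs ξ X).trans (by gcongr)
    rw [norm_mul, norm_mul, Complex.norm_I, one_mul, Complex.norm_real, Real.norm_eq_abs]
    have h7 : |(ξ * X).trace| * ‖a‖ ≤ Real.sqrt M * Real.sqrt b * K := by gcongr
    have h8 : 0 ≤ CD * Real.sqrt b * Real.sqrt C₁ * K + K * Real.sqrt b := by positivity
    linarith

private theorem L02_words (hA : A.IsAdm) (C : ℝ) (hC : 1 ≤ C) (k : ℕ) (b M : ℝ) :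
    ∃ C₁ K : ℝ, C ≤ C₁ ∧ 0 ≤ K ∧ ∀ ξ ∈ A.𝔤, fsq ξ ≤ M → ∀ ε : ℝ, 0 ≤ ε → ∀ R : ℝ, 1 ≤ R →
      ∀ v ∈ A.low (C * R ^ 2), ‖v‖ = 1 →
      (∀ X ∈ A.𝔤, ‖((R⁻¹ : ℝ) : ℂ) • A.D X v - (Complex.I * ((ξ * X).trace : ℝ)) • v‖ ≤
        ε * Real.sqrt (fsq X)) →
      ∀ l : List (Mat N), l.length = k → (∀ X ∈ l, X ∈ A.𝔤 ∧ fsq X ≤ b) →
        (((R⁻¹) ^ k : ℝ) : ℂ) • l.foldr (fun X u => A.D X u) v ∈ A.low (C₁ * R ^ 2) ∧
        ‖(((R⁻¹) ^ k : ℝ) : ℂ) • l.foldr (fun X u => A.D X u) v -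
          (Complex.I ^ k * (((l.map fun X => (ξ * X).trace).prod : ℝ) : ℂ)) • v‖ ≤ K * ε ∧
        ‖Complex.I ^ k * (((l.map fun X => (ξ * X).trace).prod : ℝ) : ℂ)‖ ≤ K := by
  induction k with
  | zero =>
    refine ⟨C, 1, le_rfl, by norm_num, ?_⟩
    intro ξ hξ hM ε hε R hR v hv hv1 hcoh l hl hlX
    rw [List.length_eq_zero_iff] at hl
    subst hl
    refine ⟨by simpa using hv, ?_, ?_⟩
    · simp [hε]
    · simp
  | succ k ih =>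
    obtain ⟨C₁, K, hC₁, hK, ih⟩ := ih
    obtain ⟨C₂, K', hC₂, hK', hs⟩ := A.L02_step hA C hC C₁ hC₁ K hK b M
    refine ⟨C₂, K', hC₂, hK', ?_⟩
    intro ξ hξ hM ε hε R hR v hv hv1 hcoh l hl hlX
    cases l with
    | nil => simp at hl
    | cons X l =>
      rw [List.length_cons, Nat.add_right_cancel_iff] at hl
      obtain ⟨h1, h2, h3⟩ := ih ξ hξ hM ε hε R hR v hv hv1 hcoh l hl
        (fun Y hY => hlX Y (List.mem_cons_of_mem _ hY))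
      obtain ⟨hX1, hX2⟩ := hlX X List.mem_cons_self
      obtain ⟨h4, h5, h6⟩ := hs ξ hξ hM ε hε R hR v hv hv1 hcoh _ h1 _ h2 h3 X hX1 hX2
      have e1 : (((R⁻¹) ^ (k + 1) : ℝ) : ℂ) • (X :: l).foldr (fun X u => A.D X u) v =
          ((R⁻¹ : ℝ) : ℂ) • A.D X ((((R⁻¹) ^ k : ℝ) : ℂ) • l.foldr (fun X u => A.D X u) v) := by
        rw [List.foldr_cons, map_smul, smul_smul, pow_succ, mul_comm ((R⁻¹) ^ k),
          Complex.ofReal_mul]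
      have e2 : Complex.I ^ (k + 1) * ((((X :: l).map fun X => (ξ * X).trace).prod : ℝ) : ℂ) =
          (Complex.I * ((ξ * X).trace : ℝ)) *
            (Complex.I ^ k * (((l.map fun X => (ξ * X).trace).prod : ℝ) : ℂ)) := by
        rw [List.map_cons, List.prod_cons, Complex.ofReal_mul]
        ring
      rw [e1, e2]
      exact ⟨h4, h5, h6⟩

theorem coh_words (hA : A.IsAdm) (C : ℝ) (hC : 1 ≤ C) (k : ℕ) (b M : ℝ) :
    ∃ C' : ℝ, 0 < C' ∧ ∀ ξ ∈ A.𝔤, fsq ξ ≤ M → ∀ ε : ℝ, 0 ≤ ε → ε ≤ 1 → ∀ R : ℝ, 1 ≤ R →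
      ∀ v ∈ A.low (C * R ^ 2), ‖v‖ = 1 →
      (∀ X ∈ A.𝔤, ‖((R⁻¹ : ℝ) : ℂ) • A.D X v - (Complex.I * ((ξ * X).trace : ℝ)) • v‖ ≤
        ε * Real.sqrt (fsq X)) →
      ∀ l : List (Mat N), l.length = k → (∀ X ∈ l, X ∈ A.𝔤 ∧ fsq X ≤ b) →
        ‖(((R⁻¹) ^ k : ℝ) : ℂ) • l.foldr (fun X u => A.D X u) v -
          (Complex.I ^ k * (((l.map fun X => (ξ * X).trace).prod : ℝ) : ℂ)) • v‖ ≤ C' * ε := by
  obtain ⟨C₁, K, hC₁, hK, h⟩ := A.L02_words hA C hC k b M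
  refine ⟨K + 1, by linarith, ?_⟩
  intro ξ hξ hM ε hε _ R hR v hv hv1 hcoh l hl hlX
  obtain ⟨_, h2, _⟩ := h ξ hξ hM ε hε R hR v hv hv1 hcoh l hl hlX
  nlinarith

private theorem L02_pow (hA : A.IsAdm) {ι : Type} [Fintype ι] [DecidableEq ι]
    (τ : Mat N →ₗ[ℝ] Matrix ι ι ℝ) (C : ℝ) (hC : 1 ≤ C) (n : ℕ) (M : ℝ) :
    ∃ C₁ K : ℝ, C ≤ C₁ ∧ 0 ≤ K ∧ ∀ ξ ∈ A.𝔤, fsq ξ ≤ M → ∀ ε : ℝ, 0 ≤ ε → ∀ R : ℝ, 1 ≤ R →
      ∀ v ∈ A.low (C * R ^ 2), ‖v‖ = 1 →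
      (∀ X ∈ A.𝔤, ‖((R⁻¹ : ℝ) : ℂ) • A.D X v - (Complex.I * ((ξ * X).trace : ℝ)) • v‖ ≤
        ε * Real.sqrt (fsq X)) →
      ∀ i j : ι, (((R⁻¹) ^ n : ℝ) : ℂ) • ((A.XT τ ^ n) i j) v ∈ A.low (C₁ * R ^ 2) ∧
        ‖(((R⁻¹) ^ n : ℝ) : ℂ) • ((A.XT τ ^ n) i j) v -
          (Complex.I ^ n * (((τ ξ ^ n) i j : ℝ) : ℂ)) • v‖ ≤ K * ε ∧
        ‖Complex.I ^ n * (((τ ξ ^ n) i j : ℝ) : ℂ)‖ ≤ K := by
  induction n with
  | zero =>
    refine ⟨C, 1, le_rfl, by norm_num, ?_⟩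
    intro ξ hξ hM ε hε R hR v hv hv1 hcoh i j
    by_cases hij : i = j
    · subst hij
      simp [hv, hε]
    · simp [Matrix.one_apply_ne hij, hε]
  | succ n ih =>
    obtain ⟨C₁, K, hC₁, hK, ih⟩ := ih
    let b : ℝ := ∑ i, ∑ j, fsq (A.Y τ i j)
    have hfsq : ∀ X : Mat N, 0 ≤ fsq X := by
      intro X
      rw [fsq, fip, Matrix.trace]
      refine Finset.sum_nonneg fun i _ => ?_
      rw [Matrix.diag_apply, Matrix.mul_apply]
      refine Finset.sum_nonneg fun j _ => ?_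
      rw [Matrix.transpose_apply]
      exact mul_self_nonneg _
    have hb : ∀ i j, fsq (A.Y τ i j) ≤ b := by
      intro i j
      calc fsq (A.Y τ i j) ≤ ∑ j, fsq (A.Y τ i j) :=
            Finset.single_le_sum (f := fun j => fsq (A.Y τ i j)) (fun _ _ => hfsq _)
              (Finset.mem_univ j)
        _ ≤ b := Finset.single_le_sum (f := fun i => ∑ j, fsq (A.Y τ i j))
            (fun _ _ => Finset.sum_nonneg fun _ _ => hfsq _) (Finset.mem_univ i)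
    obtain ⟨C₂, K', hC₂, hK', hs⟩ := A.L02_step hA C hC C₁ hC₁ K hK b M
    refine ⟨C₂, (Fintype.card ι : ℝ) * K', hC₂, by positivity, ?_⟩
    intro ξ hξ hM ε hε R hR v hv hv1 hcoh i j
    have key := fun l : ι => hs ξ hξ hM ε hε R hR v hv hv1 hcoh _
      (ih ξ hξ hM ε hε R hR v hv hv1 hcoh l j).1 _ (ih ξ hξ hM ε hε R hR v hv hv1 hcoh l j).2.1
      (ih ξ hξ hM ε hε R hR v hv hv1 hcoh l j).2.2 (A.Y τ i l) (A.tr_Y τ i l hξ).2.2 (hb i l)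
    have e1 : (((R⁻¹) ^ (n + 1) : ℝ) : ℂ) • ((A.XT τ ^ (n + 1)) i j) v =
        ∑ l, ((R⁻¹ : ℝ) : ℂ) • A.D (A.Y τ i l)
          ((((R⁻¹) ^ n : ℝ) : ℂ) • ((A.XT τ ^ n) l j) v) := by
      rw [pow_succ' (A.XT τ), Matrix.mul_apply, LinearMap.sum_apply, Finset.smul_sum]
      refine Finset.sum_congr rfl fun l _ => ?_
      rw [map_smul, smul_smul, pow_succ, mul_comm ((R⁻¹) ^ n), Complex.ofReal_mul]
      rfl
    have e2 : Complex.I ^ (n + 1) * (((τ ξ ^ (n + 1)) i j : ℝ) : ℂ) =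
        ∑ l, (Complex.I * (((ξ * A.Y τ i l).trace : ℝ) : ℂ)) *
          (Complex.I ^ n * (((τ ξ ^ n) l j : ℝ) : ℂ)) := by
      rw [pow_succ' (τ ξ), Matrix.mul_apply, Complex.ofReal_sum, Finset.mul_sum]
      refine Finset.sum_congr rfl fun l _ => ?_
      rw [(A.tr_Y τ i l hξ).2.1, Complex.ofReal_mul]
      ring
    rw [e1, e2]
    refine ⟨Submodule.sum_mem _ fun l _ => (key l).1, ?_, ?_⟩
    · rw [Finset.sum_smul, ← Finset.sum_sub_distrib]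
      calc _ ≤ ∑ l, _ := norm_sum_le _ _
        _ ≤ ∑ l : ι, K' * ε := Finset.sum_le_sum fun l _ => (key l).2.1
        _ = (Fintype.card ι : ℝ) * K' * ε := by
            rw [Finset.sum_const, Finset.card_univ, nsmul_eq_mul]
            ring
    · calc _ ≤ ∑ l, _ := norm_sum_le _ _
        _ ≤ ∑ l : ι, K' := Finset.sum_le_sum fun l _ => (key l).2.2
        _ = (Fintype.card ι : ℝ) * K' := by
            rw [Finset.sum_const, Finset.card_univ, nsmul_eq_mul]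

theorem coh_pow (hA : A.IsAdm) {ι : Type} [Fintype ι] [DecidableEq ι]
    (τ : Mat N →ₗ[ℝ] Matrix ι ι ℝ) (C : ℝ) (hC : 1 ≤ C) (n : ℕ) (M : ℝ) :
    ∃ C' : ℝ, 0 < C' ∧ ∀ ξ ∈ A.𝔤, fsq ξ ≤ M → ∀ ε : ℝ, 0 ≤ ε → ε ≤ 1 → ∀ R : ℝ, 1 ≤ R →
      ∀ v ∈ A.low (C * R ^ 2), ‖v‖ = 1 →
      (∀ X ∈ A.𝔤, ‖((R⁻¹ : ℝ) : ℂ) • A.D X v - (Complex.I * ((ξ * X).trace : ℝ)) • v‖ ≤
        ε * Real.sqrt (fsq X)) →
      ∀ i j : ι, ‖(((R⁻¹) ^ n : ℝ) : ℂ) • ((A.XT τ ^ n) i j) v -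
          (Complex.I ^ n * (((τ ξ ^ n) i j : ℝ) : ℂ)) • v‖ ≤ C' * ε := by
  obtain ⟨C₁, K, hC₁, hK, h⟩ := A.L02_pow hA τ C hC n M
  refine ⟨K + 1, by linarith, ?_⟩
  intro ξ hξ hM ε hε _ R hR v hv hv1 hcoh i j
  obtain ⟨_, h2, _⟩ := h ξ hξ hM ε hε R hR v hv hv1 hcoh i j
  nlinarith

private theorem L02_trace (hA : A.IsAdm) (C : ℝ) (ξ : Mat N) (h : A.Coh C ξ) (n : ℕ)
    (hn : 1 ≤ n) : (ξ ^ n).trace = 0 := by
  obtain ⟨hξ, h⟩ := h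
  obtain ⟨z, hz⟩ := hA.tr n hn
  obtain ⟨C', hC', hp⟩ := A.coh_pow hA (LinearMap.id : Mat N →ₗ[ℝ] Mat N) (max C 1)
    (le_max_right _ _) n (fsq ξ)
  have hX : A.XT (LinearMap.id : Mat N →ₗ[ℝ] Mat N) = A.X := rfl
  have key : ∀ ε : ℝ, 0 < ε → ε ≤ 1 → |(ξ ^ n).trace| ≤ (N * C' + ‖z‖) * ε := by
    intro ε hε hε1
    obtain ⟨R, hR, hRε, v, hv, hv1, hcoh⟩ := h ε hε
    have hR0 : 0 < R := by linarith
    have hv' : v ∈ A.low (max C 1 * R ^ 2) :=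
      A.low_mono (mul_le_mul_of_nonneg_right (le_max_left _ _) (by positivity)) hv
    have h1 := hp ξ hξ le_rfl ε hε.le hε1 R hR v hv' hv1 hcoh
    rw [hX] at h1
    have h2 : (((R⁻¹) ^ n : ℝ) : ℂ) • z • v - (Complex.I ^ n * (((ξ ^ n).trace : ℝ) : ℂ)) • v =
        ∑ i, ((((R⁻¹) ^ n : ℝ) : ℂ) • ((A.X ^ n) i i) v -
          (Complex.I ^ n * (((ξ ^ n) i i : ℝ) : ℂ)) • v) := by
      have h3 : z • v = ∑ i, ((A.X ^ n) i i) v := by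
        have h4 := congrArg (fun T : Module.End ℂ V => T v) hz
        simp only [Matrix.trace, Matrix.diag_apply, LinearMap.sum_apply, LinearMap.smul_apply,
          Module.End.one_apply] at h4
        exact h4.symm
      rw [Finset.sum_sub_distrib, ← Finset.smul_sum, ← h3, ← Finset.sum_smul, ← Finset.mul_sum,
        ← Complex.ofReal_sum]
      rfl
    have h3 : ‖(((R⁻¹) ^ n : ℝ) : ℂ) • z • v -
        (Complex.I ^ n * (((ξ ^ n).trace : ℝ) : ℂ)) • v‖ ≤ N * C' * ε := by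
      rw [h2]
      calc _ ≤ ∑ i, _ := norm_sum_le _ _
        _ ≤ ∑ i : Fin N, C' * ε := Finset.sum_le_sum fun i _ => h1 i i
        _ = N * C' * ε := by
            rw [Finset.sum_const, Finset.card_univ, nsmul_eq_mul, Fintype.card_fin]
            ring
    have h4 : ‖(Complex.I ^ n * (((ξ ^ n).trace : ℝ) : ℂ)) • v‖ = |(ξ ^ n).trace| := by
      rw [norm_smul, hv1, mul_one, norm_mul, norm_pow, Complex.norm_I, one_pow, one_mul,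
        Complex.norm_real, Real.norm_eq_abs]
    have h5 : ‖(((R⁻¹) ^ n : ℝ) : ℂ) • z • v‖ ≤ ‖z‖ * ε := by
      rw [norm_smul, norm_smul, hv1, mul_one, Complex.norm_real,
        Real.norm_of_nonneg (by positivity), mul_comm]
      have h6 : R⁻¹ ≤ ε := by
        rw [inv_le_comm₀ hR0 hε]
        simpa using hRε
      have h7 : (R⁻¹) ^ n ≤ R⁻¹ := by
        have : R⁻¹ ≤ 1 := inv_le_one_of_one_le₀ hR
        calc (R⁻¹) ^ n ≤ (R⁻¹) ^ 1 := pow_le_pow_of_le_one (by positivity) this hn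
          _ = R⁻¹ := pow_one _
      gcongr
      exact h7.trans h6
    have h6 := norm_sub_norm_le ((Complex.I ^ n * (((ξ ^ n).trace : ℝ) : ℂ)) • v)
      ((((R⁻¹) ^ n : ℝ) : ℂ) • z • v)
    rw [norm_sub_rev, h4] at h6
    linarith
  by_contra hne
  have hpos : 0 < |(ξ ^ n).trace| := abs_pos.2 hne
  set t := |(ξ ^ n).trace| with ht
  have hK : 0 ≤ N * C' + ‖z‖ := by positivity
  set K := N * C' + ‖z‖ with hKd
  have h1 := key (min 1 (t / (2 * (K + 1)))) (by positivity) (min_le_left _ _)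
  have h2 : (min 1 (t / (2 * (K + 1)))) ≤ t / (2 * (K + 1)) := min_le_right _ _
  have h3 : K * (min 1 (t / (2 * (K + 1)))) ≤ K * (t / (2 * (K + 1))) := by gcongr
  have h4 : K * (t / (2 * (K + 1))) < t := by
    rw [mul_div_assoc', div_lt_iff₀ (by positivity)]
    nlinarith
  linarith

theorem coh_nil (hA : A.IsAdm) (C : ℝ) (ξ : Mat N) (h : A.Coh C ξ) : IsNilpotent ξ :=
  ⟨N, SBD.matrix_nilpotent_of_traces ξ fun j hj _ => A.L02_trace hA C ξ h j hj⟩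

end LieRep

end SBD
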