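import Pool.Agent.SBX.GRep
import Pool.Agent.SBX.V02

/-!
# Row SBX-L03 : the exterior powers of the adjoint representation are `GRep`s

`σ g = Lam k (AdM B g)`, `τ X = dLam k (adM B X)`.
`mul` : `AdM_mul`, `Lam_mul`.  `conj` : `Lam_conj` with `A = AdM g`, `A' = AdM g⁻¹` (`AdM_inv`), `AdM_conj`.
`proj` : `AdM_one`, `dLam_proj`.  `Kt` : for `k ∈ K` `(AdM k)ᵀ = AdM k⁻¹` (`AdM_K`, `AdM_inv`: both are the
inverse of `AdM k`), `Lam_transpose`.  `lie` : `adM_lie`, `dLam_lie`.  `tr` : `adM_t`, `dLam_transpose`.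
Linearity of `τ`: `adM_add`, `adM_smul`, `dLam_add`, `dLam_smul`.
`Lam_AdM_le` : `Lam_le` (E01), `dl_inv`.
-/

open MeasureTheory Filter Topology
open scoped ENNReal NNReal Matrix

noncomputable section

namespace SBD

variable {N : ℕ} {G : Type} [Group G] [TopologicalSpace G] [IsTopologicalGroup G]
  [LocallyCompactSpace G] [T2Space G]

theorem exists_GRep {L : LieData N G} (B : Bases L) (k : ℕ) :
    ∃ τ : Mat N →ₗ[ℝ] Matrix (Fin k → B.J) (Fin k → B.J) ℝ,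
      (∀ X, τ X = SBX.dLam k (adM B X)) ∧ GRep L (fun g => SBX.Lam k (AdM B g)) τ := by
  let τ : Mat N →ₗ[ℝ] Matrix (Fin k → B.J) (Fin k → B.J) ℝ :=
    { toFun := fun X => SBX.dLam k (adM B X)
      map_add' := fun X Y => by rw [adM_add, SBX.dLam_add]
      map_smul' := fun c X => by rw [adM_smul, SBX.dLam_smul, RingHom.id_apply] }
  have hτ : ∀ X, τ X = SBX.dLam k (adM B X) := fun _ => rfl
  refine ⟨τ, hτ, ?_⟩
  constructor
  · intro g h
    show SBX.Lam k (AdM B (g * h)) = SBX.Lam k (AdM B g) * SBX.Lam k (AdM B h)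
    rw [AdM_mul, SBX.Lam_mul]
  · intro g X hX
    show SBX.Lam k (AdM B g) * τ X * SBX.Lam k (AdM B g⁻¹) = τ (L.ι g * X * L.ι g⁻¹)
    rw [hτ, hτ, SBX.Lam_conj k _ _ _ (AdM_inv B g).1, AdM_conj B g hX]
  · intro X _
    show SBX.Lam k (AdM B 1) * τ X = τ X ∧ τ X * SBX.Lam k (AdM B 1) = τ X
    rw [hτ, AdM_one]
    exact SBX.dLam_proj k _
  · intro g hg
    show (SBX.Lam k (AdM B g))ᵀ = SBX.Lam k (AdM B g⁻¹)
    rw [SBX.Lam_transpose]
    congr 1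
    calc (AdM B g)ᵀ = (AdM B g)ᵀ * (AdM B g * AdM B g⁻¹) := by
          rw [(AdM_inv B g).1, Matrix.mul_one]
      _ = AdM B g⁻¹ := by rw [← Matrix.mul_assoc, (AdM_K B hg).1, Matrix.one_mul]
  · intro X hX Y hY
    rw [hτ, hτ, hτ, adM_lie B hX hY, SBX.dLam_lie]
  · intro X
    rw [hτ, hτ, SBX.dLam_transpose, adM_t]

theorem Lam_AdM_le {L : LieData N G} (B : Bases L) (k : ℕ) (g : G) (f f' : Fin k → B.J) :
    |SBX.Lam k (AdM B g) f f'| ≤ dl B g ∧ |SBX.Lam k (AdM B g⁻¹) f f'| ≤ dl B g := by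
  refine ⟨SBX.Lam_le k _ f f', ?_⟩
  rw [← dl_inv B g]
  exact SBX.Lam_le k _ f f'

end SBD
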