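import Pool.Agent.SBX.L02

/-!
# Row SBX-L04 : the operator `Q = ∑ P_{ij}^* P_{ij}`, `P = (XT τ)^n`

`τ` a linear map into real matrices with `τ([X,Y]) = [τX,τY]` on `𝔤` and `(τX)ᵀ = τ(Xᵀ)`.
* `XT_adj` : induction on `n`: `⟨(XT^{n+1})_{ij}u,v⟩ = ∑_l⟨XT_{il}(XT^n)_{lj}u,v⟩ = -∑_l⟨(XT^n)_{lj}u, XT_{il}v⟩
  = (-1)^{n+1}∑_l⟨u,((XTᵀ)^n)_{jl}(XTᵀ)_{li}v⟩` (`XTᵀ_{li} = XT_{il}`), and `(XTᵀ)^{n+1} = (XTᵀ)^n XTᵀ`.
* `QT_inner` : `QT = (-1)^n∑_{i,j}((XTᵀ)^n)_{ji}(XT^n)_{ij}`; `XT_adj` (and conjugate symmetry).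
* `XT_comm` : for `Z ∈ 𝔤` `[D(Z), XT_{ij}] = D([Z,Y_{ij}])` and `[Z,Y_{ij}] = ∑_l(τ(Z)_{lj}Y_{il} - τ(Z)_{il}Y_{lj})`:
  both sides are in `𝔤` and pair the same way with every `X ∈ 𝔤`: `tr([Z,Y_{ij}]X) = tr(Y_{ij}[X,Z]) =
  τ([X,Z])_{ij} = (τ(X)τ(Z) - τ(Z)τ(X))_{ij}` (`tr_Y`); the trace form is nondegenerate on `𝔤`
  (`tr(XᵀX) = fsq X`; `Xᵀ ∈ 𝔤` by the basis).  As matrices over `End V` (real matrices are mapped to scalar
  operators, which commute with everything): `D(Z)XT - XT D(Z) = XT τ(Z) - τ(Z) XT`.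
* `QT_Z` : hence `[D(Z),XT^n] = XT^nτ(Z) - τ(Z)XT^n`, `[D(Z),XTᵀ] = τ(Z)ᵀXTᵀ - XTᵀτ(Z)ᵀ`, the same for `S =
  (XTᵀ)^n`, and with `P = XT^n`, `Zᵀ = -Z`, `τ(Z)ᵀ = -τ(Z)`:
  `[D(Z), tr(SP)] = tr((-τ(Z)S + Sτ(Z))P + S(Pτ(Z) - τ(Z)P)) = -tr(τ(Z)SP) + tr(SPτ(Z)) = 0` (the trace is
  cyclic with respect to a matrix with scalar entries).  So `Q` commutes with `D(Z_i)`, hence with `Δ`.
* `QT_large` : `c₁ = ½∑(τ(ξ)^n)_{ij}² > 0`.  For small `ε` take `R ≥ max(R₀, 1/ε)`, `v ∈ low(CR²)` from `Coh`; by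
  `coh_pow` (L02) `‖R^{-n}(XT^n)_{ij}v - i^n(τ(ξ)^n)_{ij}v‖ ≤ C'ε`, so `⟨Qv,v⟩ = ∑‖(XT^n)_{ij}v‖² ≥ c₁R^{2n}` (`QT_inner`).
  `v = ∑f_l`, `l ≤ CR²`, `l ≥ 1` (`mem_low_iff`, `eig_ge`); `Q` preserves `eig l`, so `⟨Qv,v⟩ = ∑⟨Qf_l,f_l⟩`,
  `‖v‖² = ∑‖f_l‖²`, and some `f_l ≠ 0` has `⟨Qf_l,f_l⟩ ≥ c₁R^{2n}‖f_l‖²`.  On the finite-dimensional space `eig l`
  (`hA.fin`) `Q` is symmetric; its largest eigenvalue is `≥ c₁R^{2n}` (Rayleigh quotient / eigenbasis).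
-/

open scoped Matrix

noncomputable section

namespace SBD

namespace LieRep

variable {N : ℕ} {V : Type} [NormedAddCommGroup V] [InnerProductSpace ℂ V] (A : LieRep N V)
  {ι : Type} [Fintype ι] [DecidableEq ι] (τ : Mat N →ₗ[ℝ] Matrix ι ι ℝ) (n : ℕ)

omit [Fintype ι] [DecidableEq ι] in
/-- [L04] the elements `Y_{ij}` are in `𝔤` -/
private theorem l04_Y (i j : ι) : A.Y τ i j ∈ A.𝔤 := (A.tr_Y τ i j A.𝔤.zero_mem).2.2

private theorem l04_sgn (n : ℕ) : ((-1 : ℂ) ^ n) * (-1) ^ n = 1 := by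
  rw [← mul_pow]
  norm_num

private theorem l04_conj (n : ℕ) : (starRingEnd ℂ) ((-1 : ℂ) ^ n) = (-1) ^ n := by
  rw [map_pow, map_neg, map_one]

theorem XT_adj (i j : ι) (u v : V) : inner ℂ (((A.XT τ ^ n) i j) u) v =
    (-1) ^ n * inner ℂ u ((((A.XT τ).transpose ^ n) j i) v) := by
  induction n generalizing i j u v with
  | zero =>
    rw [pow_zero, pow_zero, pow_zero, one_mul]
    by_cases h : i = j
    · subst h
      rw [Matrix.one_apply_eq]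
      rfl
    · rw [Matrix.one_apply_ne h, Matrix.one_apply_ne (Ne.symm h)]
      simp
  | succ n ih =>
    have e1 : ((A.XT τ ^ (n + 1)) i j) u = ∑ l, A.D (A.Y τ i l) ((A.XT τ ^ n) l j u) := by
      rw [pow_succ', Matrix.mul_apply, LinearMap.sum_apply]
      rfl
    have e2 : (((A.XT τ).transpose ^ (n + 1)) j i) v =
        ∑ l, ((A.XT τ).transpose ^ n) j l (A.D (A.Y τ i l) v) := by
      rw [pow_succ, Matrix.mul_apply, LinearMap.sum_apply]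
      rfl
    rw [e1, e2, sum_inner, inner_sum, Finset.mul_sum]
    refine Finset.sum_congr rfl fun l _ => ?_
    rw [A.skew _ (A.l04_Y τ i l), ih l j u, pow_succ]
    ring

theorem QT_inner (u v : V) : inner ℂ (A.QT τ n u) v =
    ∑ i, ∑ j, inner ℂ (((A.XT τ ^ n) i j) u) (((A.XT τ ^ n) i j) v) := by
  have e1 : A.QT τ n u = ((-1 : ℂ) ^ n) • ∑ i, ∑ j,
      ((A.XT τ).transpose ^ n) j i ((A.XT τ ^ n) i j u) := by
    unfold QT
    rw [LinearMap.smul_apply, Matrix.trace, LinearMap.sum_apply, Finset.sum_comm]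
    congr 1
    refine Finset.sum_congr rfl fun j _ => ?_
    rw [Matrix.diag_apply, Matrix.mul_apply, LinearMap.sum_apply]
    rfl
  rw [e1, inner_smul_left, sum_inner, Finset.mul_sum]
  refine Finset.sum_congr rfl fun i _ => ?_
  rw [sum_inner, Finset.mul_sum]
  refine Finset.sum_congr rfl fun j _ => ?_
  have e2 := A.XT_adj τ n i j v ((A.XT τ ^ n) i j u)
  have e3 := congrArg (starRingEnd ℂ) e2
  rw [map_mul, inner_conj_symm, inner_conj_symm] at e3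
  rw [e3]

theorem QT_symm (u v : V) : inner ℂ (A.QT τ n u) v = inner ℂ u (A.QT τ n v) := by
  have e1 := A.QT_inner τ n v u
  have e2 := congrArg (starRingEnd ℂ) e1
  rw [inner_conj_symm] at e2
  rw [e2, QT_inner, map_sum]
  refine Finset.sum_congr rfl fun i _ => ?_
  rw [map_sum]
  refine Finset.sum_congr rfl fun j _ => ?_
  rw [inner_conj_symm]

private theorem l04_basis_t {W : Mat N} (hW : W ∈ A.𝔤) : Wᵀ ∈ A.𝔤 := by
  rw [A.basis W hW, Matrix.transpose_add, Matrix.transpose_sum, Matrix.transpose_sum]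
  refine A.𝔤.add_mem (Submodule.sum_mem _ fun i _ => ?_) (Submodule.sum_mem _ fun i _ => ?_)
  · rw [Matrix.transpose_smul, A.Z_t]
    exact A.𝔤.smul_mem _ (A.𝔤.neg_mem (A.Z_mem i))
  · rw [Matrix.transpose_smul, A.P_t]
    exact A.𝔤.smul_mem _ (A.P_mem i)

private theorem l04_zero {W : Mat N} (h : (W * Wᵀ).trace = 0) : W = 0 := by
  have h1 : ∑ i, ∑ j, W i j * W i j = 0 := by
    rw [← h, Matrix.trace]
    refine Finset.sum_congr rfl fun i _ => ?_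
    rw [Matrix.diag_apply, Matrix.mul_apply]
    rfl
  have h2 : ∀ i, ∀ j, W i j * W i j = 0 := by
    intro i j
    have h3 := (Finset.sum_eq_zero_iff_of_nonneg (fun i _ => Finset.sum_nonneg
      (fun j _ => mul_self_nonneg (W i j)))).1 h1 i (Finset.mem_univ i)
    exact (Finset.sum_eq_zero_iff_of_nonneg (fun j _ => mul_self_nonneg (W i j))).1 h3 j
      (Finset.mem_univ j)
  ext i j
  exact mul_self_eq_zero.1 (h2 i j)

private theorem l04_brY (hl : ∀ X ∈ A.𝔤, ∀ Y ∈ A.𝔤, τ (X * Y - Y * X) = τ X * τ Y - τ Y * τ X)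
    {Z : Mat N} (hZ : Z ∈ A.𝔤) (i j : ι) :
    Z * A.Y τ i j - A.Y τ i j * Z =
      ∑ l, (τ Z l j • A.Y τ i l - τ Z i l • A.Y τ l j) := by
  rw [← sub_eq_zero]
  have hW : Z * A.Y τ i j - A.Y τ i j * Z -
      ∑ l, (τ Z l j • A.Y τ i l - τ Z i l • A.Y τ l j) ∈ A.𝔤 := by
    refine A.𝔤.sub_mem (A.br _ hZ _ (A.l04_Y τ i j)) (Submodule.sum_mem _ fun l _ => ?_)
    exact A.𝔤.sub_mem (A.𝔤.smul_mem _ (A.l04_Y τ i l)) (A.𝔤.smul_mem _ (A.l04_Y τ l j))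
  have htr : ∀ X ∈ A.𝔤, ((Z * A.Y τ i j - A.Y τ i j * Z -
      ∑ l, (τ Z l j • A.Y τ i l - τ Z i l • A.Y τ l j)) * X).trace = 0 := by
    intro X hX
    have e1 : ((Z * A.Y τ i j - A.Y τ i j * Z) * X).trace = (τ X * τ Z - τ Z * τ X) i j := by
      rw [← hl X hX Z hZ, ← (A.tr_Y τ i j (A.br X hX Z hZ)).1, Matrix.sub_mul, Matrix.mul_sub,
        Matrix.trace_sub, Matrix.trace_sub, Matrix.mul_assoc Z, Matrix.trace_mul_comm Z,
        Matrix.mul_assoc, Matrix.mul_assoc]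
    have e2 : ((∑ l, (τ Z l j • A.Y τ i l - τ Z i l • A.Y τ l j)) * X).trace =
        (τ X * τ Z - τ Z * τ X) i j := by
      rw [Finset.sum_mul, Matrix.trace_sum, Matrix.sub_apply, Matrix.mul_apply, Matrix.mul_apply,
        ← Finset.sum_sub_distrib]
      refine Finset.sum_congr rfl fun l _ => ?_
      rw [Matrix.sub_mul, Matrix.trace_sub, Matrix.smul_mul, Matrix.smul_mul, Matrix.trace_smul,
        Matrix.trace_smul, (A.tr_Y τ i l hX).1, (A.tr_Y τ l j hX).1, smul_eq_mul, smul_eq_mul]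
      ring
    rw [Matrix.sub_mul, Matrix.trace_sub, e1, e2, sub_self]
  exact l04_zero (htr _ (A.l04_basis_t hW))

/-- [L04] the operators `D(Z) + τ(Z)` in the matrix ring -/
private def l04_E (Z : Mat N) : Matrix ι ι (Module.End ℂ V) :=
  (Matrix.diagonal (fun _ : ι => (A.D Z : Module.End ℂ V)) : Matrix ι ι (Module.End ℂ V)) +
    Matrix.of fun i j => ((τ Z i j : ℝ) : ℂ) • (1 : Module.End ℂ V)

private theorem l04_EM (Z : Mat N) (M : Matrix ι ι (Module.End ℂ V)) (i j : ι) (v : V) :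
    (A.l04_E τ Z * M) i j v = A.D Z (M i j v) + ∑ l, ((τ Z i l : ℝ) : ℂ) • M l j v := by
  unfold l04_E
  rw [Matrix.add_mul, Matrix.add_apply, Matrix.diagonal_mul, LinearMap.add_apply,
    Matrix.mul_apply, LinearMap.sum_apply]
  congr 1

private theorem l04_ME (Z : Mat N) (M : Matrix ι ι (Module.End ℂ V)) (i j : ι) (v : V) :
    (M * A.l04_E τ Z) i j v = M i j (A.D Z v) + ∑ l, ((τ Z l j : ℝ) : ℂ) • M i l v := by
  unfold l04_E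
  rw [Matrix.mul_add, Matrix.add_apply, Matrix.mul_diagonal, LinearMap.add_apply,
    Matrix.mul_apply, LinearMap.sum_apply]
  congr 1
  refine Finset.sum_congr rfl fun l _ => ?_
  rw [Matrix.of_apply, mul_smul_comm, mul_one, LinearMap.smul_apply]

private theorem l04_comm (hl : ∀ X ∈ A.𝔤, ∀ Y ∈ A.𝔤, τ (X * Y - Y * X) = τ X * τ Y - τ Y * τ X)
    {Z : Mat N} (hZ : Z ∈ A.𝔤) (i j : ι) (v : V) :
    A.D Z (A.XT τ i j v) - A.XT τ i j (A.D Z v) =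
      ∑ l, (((τ Z l j : ℝ) : ℂ) • A.XT τ i l v - ((τ Z i l : ℝ) : ℂ) • A.XT τ l j v) := by
  have e1 := A.brD Z hZ _ (A.l04_Y τ i j) v
  rw [A.l04_brY τ hl hZ, map_sum, LinearMap.sum_apply] at e1
  have e2 : A.D Z (A.XT τ i j v) - A.XT τ i j (A.D Z v) =
    A.D Z (A.D (A.Y τ i j) v) - A.D (A.Y τ i j) (A.D Z v) := rfl
  rw [e2, ← e1]
  refine Finset.sum_congr rfl fun l _ => ?_
  rw [map_sub, map_smul, map_smul, LinearMap.sub_apply, LinearMap.smul_apply,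
    LinearMap.smul_apply]
  rfl

private theorem l04_cX (hl : ∀ X ∈ A.𝔤, ∀ Y ∈ A.𝔤, τ (X * Y - Y * X) = τ X * τ Y - τ Y * τ X)
    {Z : Mat N} (hZ : Z ∈ A.𝔤) : Commute (A.l04_E τ Z) (A.XT τ) := by
  ext i j v
  rw [l04_EM, l04_ME]
  have e1 := A.l04_comm τ hl hZ i j v
  rw [Finset.sum_sub_distrib, sub_eq_sub_iff_add_eq_add] at e1
  rw [e1, add_comm]

private theorem l04_cXt (hl : ∀ X ∈ A.𝔤, ∀ Y ∈ A.𝔤, τ (X * Y - Y * X) = τ X * τ Y - τ Y * τ X)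
    (ht : ∀ X, (τ X)ᵀ = τ Xᵀ)
    {Z : Mat N} (hZ : Z ∈ A.𝔤) (hZt : Zᵀ = -Z) : Commute (A.l04_E τ Z) (A.XT τ).transpose := by
  have hT : ∀ i j, τ Z i j = -τ Z j i := by
    intro i j
    have h1 : (τ Z)ᵀ j i = τ Zᵀ j i := by rw [ht]
    rw [hZt, map_neg] at h1
    exact h1
  ext i j v
  rw [l04_EM, l04_ME]
  have e1 := A.l04_comm τ hl hZ j i v
  rw [Finset.sum_sub_distrib, sub_eq_sub_iff_add_eq_add] at e1
  have e2 : ∑ l, ((τ Z l i : ℝ) : ℂ) • A.XT τ j l v = -∑ l, ((τ Z i l : ℝ) : ℂ) • A.XT τ j l v := by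
    rw [← Finset.sum_neg_distrib]
    refine Finset.sum_congr rfl fun l _ => ?_
    rw [hT l i, Complex.ofReal_neg, neg_smul]
  have e3 : ∑ l, ((τ Z j l : ℝ) : ℂ) • A.XT τ l i v = -∑ l, ((τ Z l j : ℝ) : ℂ) • A.XT τ l i v := by
    rw [← Finset.sum_neg_distrib]
    refine Finset.sum_congr rfl fun l _ => ?_
    rw [hT j l, Complex.ofReal_neg, neg_smul]
  rw [e2, e3] at e1
  show A.D Z (A.XT τ j i v) + ∑ l, ((τ Z i l : ℝ) : ℂ) • A.XT τ j l v =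
    A.XT τ j i (A.D Z v) + ∑ l, ((τ Z l j : ℝ) : ℂ) • A.XT τ l i v
  rw [← sub_eq_add_neg, neg_add_eq_sub] at e1
  rw [sub_eq_sub_iff_add_eq_add] at e1
  rw [e1, add_comm]

private theorem l04_Q_comm (hl : ∀ X ∈ A.𝔤, ∀ Y ∈ A.𝔤, τ (X * Y - Y * X) = τ X * τ Y - τ Y * τ X)
    (ht : ∀ X, (τ X)ᵀ = τ Xᵀ)
    {Z : Mat N} (hZ : Z ∈ A.𝔤) (hZt : Zᵀ = -Z) (v : V) :
    A.D Z (A.QT τ n v) = A.QT τ n (A.D Z v) := by
  have hc : Commute (A.l04_E τ Z) ((A.XT τ).transpose ^ n * (A.XT τ) ^ n) :=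
    ((A.l04_cXt τ hl ht hZ hZt).pow_right n).mul_right ((A.l04_cX τ hl hZ).pow_right n)
  set M := (A.XT τ).transpose ^ n * (A.XT τ) ^ n with hM
  have e1 : ∑ i, (A.l04_E τ Z * M) i i v = ∑ i, (M * A.l04_E τ Z) i i v := by
    rw [hc.eq]
  simp only [l04_EM, l04_ME] at e1
  rw [Finset.sum_add_distrib, Finset.sum_add_distrib] at e1
  have e2 : ∑ i, ∑ l, ((τ Z i l : ℝ) : ℂ) • M l i v = ∑ i, ∑ l, ((τ Z l i : ℝ) : ℂ) • M i l v :=
    Finset.sum_comm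
  rw [e2] at e1
  have e3 := add_right_cancel e1
  have e4 : ∀ w : V, A.QT τ n w = ((-1 : ℂ) ^ n) • ∑ i, M i i w := by
    intro w
    unfold QT
    rw [LinearMap.smul_apply, Matrix.trace, LinearMap.sum_apply]
    rfl
  rw [e4, e4, map_smul, map_sum, e3]

theorem QT_eig (hl : ∀ X ∈ A.𝔤, ∀ Y ∈ A.𝔤, τ (X * Y - Y * X) = τ X * τ Y - τ Y * τ X)
    (ht : ∀ X, (τ X)ᵀ = τ Xᵀ) {lam : ℝ} {u : V} (hu : u ∈ A.eig lam) :
    A.QT τ n u ∈ A.eig lam := by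
  have h1 : A.Del u = (lam : ℂ) • u := hu
  have hc : ∀ i (v : V), A.D (A.Z i) (A.QT τ n v) = A.QT τ n (A.D (A.Z i) v) := fun i v =>
    A.l04_Q_comm τ n hl ht (A.Z_mem i) (A.Z_t i) v
  have hD : ∀ v : V, A.Del v = v - ∑ i, A.D (A.Z i) (A.D (A.Z i) v) := by
    intro v
    unfold Del
    rw [LinearMap.sub_apply, LinearMap.id_apply, LinearMap.sum_apply]
    rfl
  show A.Del (A.QT τ n u) = (lam : ℂ) • A.QT τ n u
  rw [← map_smul, ← h1, hD, hD, map_sub, map_sum]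
  congr 1
  refine Finset.sum_congr rfl fun i _ => ?_
  rw [hc, hc]

/-- A coherent limit point `ξ` with `τ(ξ)^n ≠ 0` gives large eigenvalues of `Q`. -/
theorem QT_large (hA : A.IsAdm)
    (hl : ∀ X ∈ A.𝔤, ∀ Y ∈ A.𝔤, τ (X * Y - Y * X) = τ X * τ Y - τ Y * τ X)
    (ht : ∀ X, (τ X)ᵀ = τ Xᵀ) (C : ℝ) (hC : 1 ≤ C) (ξ : Mat N) (h : A.Coh C ξ)
    (hn : τ ξ ^ n ≠ 0) :
    ∃ c : ℝ, 0 < c ∧ ∀ R₀ : ℝ, ∃ R : ℝ, R₀ ≤ R ∧ 1 ≤ R ∧ ∃ lam : ℝ, 1 ≤ lam ∧ lam ≤ C * R ^ 2 ∧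
      ∃ θ : ℝ, c * R ^ (2 * n) ≤ θ ∧ ∃ u ∈ A.eig lam, u ≠ 0 ∧ A.QT τ n u = (θ : ℂ) • u := by
  obtain ⟨hξ, hcoh⟩ := h
  obtain ⟨C', hC', hpow⟩ := A.coh_pow hA τ C hC n (fsq ξ)
  obtain ⟨i0, j0, ha⟩ : ∃ i j, (τ ξ ^ n) i j ≠ 0 := by
    by_contra hcon
    push Not at hcon
    exact hn (Matrix.ext hcon)
  obtain ⟨a, hadef⟩ : ∃ a : ℝ, a = |(τ ξ ^ n) i0 j0| := ⟨_, rfl⟩
  have ha0 : 0 < a := by rw [hadef]; exact abs_pos.2 ha
  refine ⟨a ^ 2 / 4, by positivity, ?_⟩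
  intro R₀
  obtain ⟨ε, hεdef⟩ : ∃ ε : ℝ, ε = min 1 (min (a / (2 * C')) (1 / (|R₀| + 1))) := ⟨_, rfl⟩
  have hε0 : 0 < ε := by
    rw [hεdef]
    have : 0 < |R₀| + 1 := by positivity
    exact lt_min one_pos (lt_min (by positivity) (by positivity))
  have hε1 : ε ≤ 1 := by rw [hεdef]; exact min_le_left _ _
  have hε2 : ε ≤ a / (2 * C') := by
    rw [hεdef]; exact (min_le_right _ _).trans (min_le_left _ _)
  have hε3 : ε ≤ 1 / (|R₀| + 1) := by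
    rw [hεdef]; exact (min_le_right _ _).trans (min_le_right _ _)
  obtain ⟨R, hR1, hRε, v, hv, hv1, hX⟩ := hcoh ε hε0
  have hR0 : R₀ ≤ R := by
    have h0 : 0 < |R₀| + 1 := by positivity
    have h1 : |R₀| + 1 ≤ 1 / ε := by
      rw [le_div_iff₀ hε0]
      rw [le_div_iff₀ h0] at hε3
      linarith
    have h2 := le_abs_self R₀
    linarith
  have hRp : 0 < R := by linarith
  refine ⟨R, hR0, hR1, ?_⟩
  have h1 := hpow ξ hξ le_rfl ε hε0.le hε1 R hR1 v hv hv1 hX i0 j0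
  have h2 : a / 2 * R ^ n ≤ ‖((A.XT τ ^ n) i0 j0) v‖ := by
    have h3 : ‖(Complex.I ^ n * (((τ ξ ^ n) i0 j0 : ℝ) : ℂ)) • v‖ = a := by
      rw [norm_smul, norm_mul, norm_pow, Complex.norm_I, one_pow, one_mul, Complex.norm_real,
        hv1, mul_one, hadef]
      rfl
    have h4 : ‖(((R⁻¹) ^ n : ℝ) : ℂ) • ((A.XT τ ^ n) i0 j0) v‖ =
        (R⁻¹) ^ n * ‖((A.XT τ ^ n) i0 j0) v‖ := by
      rw [norm_smul, Complex.norm_real, Real.norm_of_nonneg (by positivity)]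
    have h5 := norm_sub_norm_le ((Complex.I ^ n * (((τ ξ ^ n) i0 j0 : ℝ) : ℂ)) • v)
      ((((R⁻¹) ^ n : ℝ) : ℂ) • ((A.XT τ ^ n) i0 j0) v)
    rw [norm_sub_rev, h3, h4] at h5
    have h6 : C' * ε ≤ a / 2 := by
      rw [le_div_iff₀ (by positivity)] at hε2
      linarith
    have h7 : a / 2 ≤ (R⁻¹) ^ n * ‖((A.XT τ ^ n) i0 j0) v‖ := by linarith
    calc a / 2 * R ^ n ≤ (R⁻¹) ^ n * ‖((A.XT τ ^ n) i0 j0) v‖ * R ^ n :=
          mul_le_mul_of_nonneg_right h7 (by positivity)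
      _ = ‖((A.XT τ ^ n) i0 j0) v‖ * ((R⁻¹) ^ n * R ^ n) := by ring
      _ = _ := by rw [← mul_pow, inv_mul_cancel₀ hRp.ne', one_pow, mul_one]
  have h7 : a ^ 2 / 4 * R ^ (2 * n) ≤ (inner ℂ (A.QT τ n v) v).re := by
    have e1 : (inner ℂ (A.QT τ n v) v).re = ∑ i, ∑ j, ‖((A.XT τ ^ n) i j) v‖ ^ 2 := by
      rw [A.QT_inner, Complex.re_sum]
      refine Finset.sum_congr rfl fun i _ => ?_
      rw [Complex.re_sum]
      refine Finset.sum_congr rfl fun j _ => ?_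
      exact (norm_sq_eq_re_inner (𝕜 := ℂ) _).symm
    have e2 : ‖((A.XT τ ^ n) i0 j0) v‖ ^ 2 ≤ ∑ i, ∑ j, ‖((A.XT τ ^ n) i j) v‖ ^ 2 := by
      calc ‖((A.XT τ ^ n) i0 j0) v‖ ^ 2 ≤ ∑ j, ‖((A.XT τ ^ n) i0 j) v‖ ^ 2 :=
            Finset.single_le_sum (f := fun j => ‖((A.XT τ ^ n) i0 j) v‖ ^ 2)
              (fun j _ => by positivity) (Finset.mem_univ j0)
        _ ≤ _ := Finset.single_le_sum (f := fun i => ∑ j, ‖((A.XT τ ^ n) i j) v‖ ^ 2)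
              (fun i _ => Finset.sum_nonneg fun j _ => by positivity) (Finset.mem_univ i0)
    rw [e1]
    calc a ^ 2 / 4 * R ^ (2 * n) = (a / 2 * R ^ n) ^ 2 := by rw [mul_comm 2 n, pow_mul]; ring
      _ ≤ ‖((A.XT τ ^ n) i0 j0) v‖ ^ 2 := pow_le_pow_left₀ (by positivity) h2 2
      _ ≤ _ := e2
  obtain ⟨s, f, hf, hvs⟩ := A.mem_low_iff.1 hv
  have h8 : ∑ l ∈ s, ‖f l‖ ^ 2 = 1 := by
    rw [← A.norm_sq_sum s f (fun l hl => (hf l hl).2), ← hvs, hv1, one_pow]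
  have h9 : (inner ℂ (A.QT τ n v) v).re = ∑ l ∈ s, (inner ℂ (A.QT τ n (f l)) (f l)).re := by
    rw [hvs, map_sum, sum_inner, Complex.re_sum]
    refine Finset.sum_congr rfl fun l hls => ?_
    rw [inner_sum, Finset.sum_eq_single l]
    · intro l' hl' hne
      exact A.eig_orth hne.symm (A.QT_eig τ n hl ht (hf l hls).2) (hf l' hl').2
    · intro h
      exact absurd hls h
  have h10 : ∃ l ∈ s, f l ≠ 0 ∧
      a ^ 2 / 4 * R ^ (2 * n) * ‖f l‖ ^ 2 ≤ (inner ℂ (A.QT τ n (f l)) (f l)).re := by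
    by_contra hcon
    push Not at hcon
    have e1 : ∑ l ∈ s, (inner ℂ (A.QT τ n (f l)) (f l)).re <
        ∑ l ∈ s, a ^ 2 / 4 * R ^ (2 * n) * ‖f l‖ ^ 2 := by
      refine Finset.sum_lt_sum ?_ ?_
      · intro l hls
        by_cases h0 : f l = 0
        · rw [h0]
          simp
        · exact (hcon l hls h0).le
      · have e2 : ∃ l ∈ s, f l ≠ 0 := by
          by_contra h0
          push Not at h0
          have : ∑ l ∈ s, ‖f l‖ ^ 2 = 0 := Finset.sum_eq_zero fun l hls => by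
            rw [h0 l hls]
            simp
          rw [this] at h8
          exact zero_ne_one h8
        obtain ⟨l, hls, h0⟩ := e2
        exact ⟨l, hls, hcon l hls h0⟩
    rw [← Finset.mul_sum, h8, mul_one, ← h9] at e1
    linarith
  obtain ⟨l, hls, hfl0, hfl⟩ := h10
  have hfle := (hf l hls).2
  have _i1 : FiniteDimensional ℂ (A.low l) := hA.fin l
  have _i2 : FiniteDimensional ℂ (A.eig l) :=
    Submodule.finiteDimensional_of_le (A.eig_le_low le_rfl)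
  obtain ⟨T, hTdef⟩ : ∃ T : A.eig l →ₗ[ℂ] A.eig l, ∀ x, ((T x : A.eig l) : V) = A.QT τ n x :=
    ⟨(A.QT τ n).restrict (fun u hu => A.QT_eig τ n hl ht hu), fun _ => rfl⟩
  have hT : T.IsSymmetric := by
    intro x y
    rw [Submodule.coe_inner, Submodule.coe_inner, hTdef, hTdef]
    exact A.QT_symm τ n x y
  have _i3 : Nontrivial (A.eig l) := ⟨⟨⟨f l, hfle⟩, 0, fun h0 => hfl0 (congrArg Subtype.val h0)⟩⟩
  have hev := hT.hasEigenvalue_iSup_of_finiteDimensional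
  obtain ⟨θ, hθdef⟩ : ∃ θ : ℝ, θ = (⨆ x : { x : A.eig l // x ≠ 0 },
    RCLike.re (inner ℂ (T x) (x : A.eig l)) / ‖(x : A.eig l)‖ ^ 2 : ℝ) := ⟨_, rfl⟩
  have hbdd : BddAbove (Set.range fun x : { x : A.eig l // x ≠ 0 } =>
      RCLike.re (inner ℂ (T x) (x : A.eig l)) / ‖(x : A.eig l)‖ ^ 2) := by
    refine ⟨‖LinearMap.toContinuousLinearMap T‖, ?_⟩
    rintro _ ⟨x, rfl⟩
    have hx0 : 0 < ‖(x : A.eig l)‖ := norm_pos_iff.2 x.2
    show RCLike.re (inner ℂ (T x) (x : A.eig l)) / ‖(x : A.eig l)‖ ^ 2 ≤ _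
    rw [div_le_iff₀ (by positivity)]
    calc RCLike.re (inner ℂ (T x) (x : A.eig l)) ≤ ‖T x‖ * ‖(x : A.eig l)‖ :=
          re_inner_le_norm _ _
      _ ≤ ‖LinearMap.toContinuousLinearMap T‖ * ‖(x : A.eig l)‖ * ‖(x : A.eig l)‖ := by
          gcongr
          exact (LinearMap.toContinuousLinearMap T).le_opNorm x
      _ = _ := by ring
  have hθ : a ^ 2 / 4 * R ^ (2 * n) ≤ θ := by
    have e1 := le_ciSup hbdd ⟨⟨f l, hfle⟩, fun h0 => hfl0 (congrArg Subtype.val h0)⟩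
    rw [← hθdef] at e1
    refine le_trans ?_ e1
    have hx0 : 0 < ‖f l‖ := norm_pos_iff.2 hfl0
    show _ ≤ RCLike.re (inner ℂ (T ⟨f l, hfle⟩) (⟨f l, hfle⟩ : A.eig l)) /
      ‖(⟨f l, hfle⟩ : A.eig l)‖ ^ 2
    rw [Submodule.coe_inner, hTdef, Submodule.coe_norm, le_div_iff₀ (by positivity)]
    exact hfl
  obtain ⟨x, hx⟩ := hev.exists_hasEigenvector
  have hx1 := hx.apply_eq_smul
  have hx2 : (x : V) ≠ 0 := fun h0 => hx.2 (Subtype.ext h0)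
  refine ⟨l, A.eig_ge x.2 hx2, (hf l hls).1, θ, hθ, x, x.2, hx2, ?_⟩
  have hx3 := congrArg (Subtype.val : A.eig l → V) hx1
  rw [hTdef] at hx3
  rw [hx3, hθdef]
  rfl

end LieRep

end SBD
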