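import Pool.Agent.SBX.L04
import Pool.Agent.SBX.GRep
import Pool.Agent.SBD.P10

/-!
# Row SBX-L05 : `Q` and the group: `K`-equivariance and rapid decay

`hP.weak`: `⟨w, π(g)D(X)v⟩ = -⟨D(Ad(g)X)w, π(g)v⟩`.
(1) For `g ∈ G`: `Ad(g)Y_{ij} = ∑_{k,l} σ(g⁻¹)_{ik} σ(g)_{lj} Y_{kl}`: both sides are in `𝔤`; for `X ∈ 𝔤`
`tr(Ad(g)Y_{ij} X) = tr(Y_{ij} Ad(g⁻¹)X) = τ(Ad(g⁻¹)X)_{ij} = (σ(g⁻¹)τ(X)σ(g))_{ij}` (`tr_Y`, `hσ.conj` for `g⁻¹`).
(2) `⟨w, π(g)(XT^n)_{ij}u⟩ = (-1)^n∑_{k,l}σ(g⁻¹)_{ik}σ(g)_{lj}⟨((XTᵀ)^n)_{lk}w, π(g)u⟩`: induction on `n`: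
`(XT^{n+1})_{ij} = ∑_pXT_{ip}(XT^n)_{pj}`; moving `XT_{ip} = D(Y_{ip})`: `-∑_{p,k,l'}σ(g⁻¹)_{ik}σ(g)_{l'p}
⟨D(Y_{kl'})w, π(g)(XT^n)_{pj}u⟩`, then the induction hypothesis, `∑_pσ(g)_{l'p}σ(g⁻¹)_{pk'} = σ(1)_{l'k'}`, and
`∑_{l'}Y_{kl'}σ(1)_{l'k'} = Y_{kk'}` (`hσ.proj`, pair with `X`).  (`n = 0`: `δ_{ij}⟨w,π(g)u⟩` is not of this form if
`σ(1) ≠ 1`; so start with `n = 1`, and treat `n = 0` separately: `Q = card(ι)·1`… for `n = 0`,
`QT τ 0 = tr(1·1) = card ι`, the claims are trivial with `m ≥ 1`-free constants: see below.)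
The same for `((XTᵀ)^n)_{ji}`: `⟨w,π(g)((XTᵀ)^n)_{ji}u⟩ = (-1)^n∑_{k,l}σ(g⁻¹)_{ik}σ(g)_{lj}⟨(XT^n)_{kl}w,π(g)u⟩`.
(3) `rapidQ` : induction on `K`.  `⟨w,π(g)Q(Q^Ku)⟩ = (-1)^n∑_{i,j}⟨w,π(g)((XTᵀ)^n)_{ji}(XT^n)_{ij}Q^Ku⟩ =
(-1)^n∑ (four σ entries) ⟨((XTᵀ)^n)_{l'k'}(XT^n)_{kl}w, π(g)Q^Ku⟩`, each coefficient is `≤ m⁴`, and the finitely
many vectors `((XTᵀ)^n)_{l'k'}(XT^n)_{kl}w ∈ KFin` are independent of `g, u`; apply the induction hypothesis to
them.  `K = 0`: `|⟨w,π(g)u⟩| ≤ ‖w‖‖u‖`.  Here `n ≥ 1`.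
(4) `QT_K` : for `g = k ∈ K`: `σ(k)ᵀ = σ(k⁻¹)`, so in `⟨w,π(k)Qu⟩ = (-1)^n∑_{ij}∑σ(k⁻¹)_{ik_1}σ(k)_{l_1j}
σ(k⁻¹)_{ik_2}σ(k)_{l_2j}⟨((XTᵀ)^n)_{l_2k_2}(XT^n)_{k_1l_1}w,π(k)u⟩` the sum over `i` gives
`(σ(k)σ(k⁻¹))_{k_1k_2} = σ(1)_{k_1k_2}` (`σ(k⁻¹)_{ik_1} = σ(k)_{k_1i}`), over `j` `σ(1)_{l_1l_2}`, and these are absorbed
by `XT^n`; one gets `⟨Qw,π(k)u⟩ = ⟨w, Qπ(k)u⟩` (`QT_symm`; `π(k)u ∈ KFin`, `kfin_K`).  As `w` runs through the dense…
(take `w = π(k)(Qu) - Q(π(k)u) ∈ KFin`).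
-/

open MeasureTheory Filter Topology
open scoped ENNReal NNReal Matrix

noncomputable section

namespace SBD

section gen

variable {V : Type} [AddCommGroup V] [Module ℂ V] {ι : Type}

/-- real matrices as matrices of scalar operators -/
private def L05hat (V : Type) [AddCommGroup V] [Module ℂ V] {ι : Type} (a : Matrix ι ι ℝ) :
    Matrix ι ι (Module.End ℂ V) := fun i j => algebraMap ℂ (Module.End ℂ V) (a i j : ℂ)

private theorem L05_hat_tr (a : Matrix ι ι ℝ) : (L05hat V a)ᵀ = L05hat V aᵀ := rfl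

variable [Fintype ι]

private theorem L05_hat_mul (a b : Matrix ι ι ℝ) :
    L05hat V (a * b) = L05hat V a * L05hat V b := by
  refine Matrix.ext fun i j => ?_
  rw [Matrix.mul_apply]
  unfold L05hat
  rw [Matrix.mul_apply, Complex.ofReal_sum, map_sum]
  refine Finset.sum_congr rfl fun k _ => ?_
  rw [Complex.ofReal_mul, map_mul]

private theorem L05_tr_left (a : Matrix ι ι ℝ) (M : Matrix ι ι (Module.End ℂ V)) :
    (L05hat V a * M)ᵀ = Mᵀ * L05hat V aᵀ := by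
  refine Matrix.ext fun i j => ?_
  rw [Matrix.transpose_apply, Matrix.mul_apply, Matrix.mul_apply]
  refine Finset.sum_congr rfl fun k _ => ?_
  exact Algebra.commutes _ _

private theorem L05_tr_right (a : Matrix ι ι ℝ) (M : Matrix ι ι (Module.End ℂ V)) :
    (M * L05hat V a)ᵀ = L05hat V aᵀ * Mᵀ := by
  refine Matrix.ext fun i j => ?_
  rw [Matrix.transpose_apply, Matrix.mul_apply, Matrix.mul_apply]
  refine Finset.sum_congr rfl fun k _ => ?_
  exact (Algebra.commutes _ _).symm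

private theorem L05_trace (a : Matrix ι ι ℝ) (M : Matrix ι ι (Module.End ℂ V)) :
    (L05hat V a * M).trace = (M * L05hat V a).trace := by
  unfold Matrix.trace
  simp only [Matrix.diag_apply, Matrix.mul_apply]
  rw [Finset.sum_comm]
  refine Finset.sum_congr rfl fun k _ => Finset.sum_congr rfl fun l _ => ?_
  exact Algebra.commutes _ _

variable [DecidableEq ι]

private theorem L05_pow (T : Matrix ι ι (Module.End ℂ V)) (s s' : Matrix ι ι ℝ)
    (h1 : T * L05hat V (s * s') = T) (m : ℕ) :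
    (L05hat V s' * T * L05hat V s) ^ (m + 1) = L05hat V s' * T ^ (m + 1) * L05hat V s := by
  induction m with
  | zero => simp
  | succ m ih =>
    rw [pow_succ, ih]
    have h2 : T ^ (m + 1) * L05hat V (s * s') = T ^ (m + 1) := by
      rw [pow_succ, Matrix.mul_assoc, h1]
    calc L05hat V s' * T ^ (m + 1) * L05hat V s * (L05hat V s' * T * L05hat V s)
        = L05hat V s' * (T ^ (m + 1) * (L05hat V s * L05hat V s')) * T * L05hat V s := by
          simp only [Matrix.mul_assoc]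
      _ = L05hat V s' * T ^ (m + 1) * T * L05hat V s := by rw [← L05_hat_mul, h2]
      _ = L05hat V s' * T ^ (m + 1 + 1) * L05hat V s := by
          rw [pow_succ _ (m + 1)]
          simp only [Matrix.mul_assoc]

/-- the adjoint relation with respect to a form -/
private def L05Rel (B : V →+ V →+ ℂ) (M M' : Matrix ι ι (Module.End ℂ V)) : Prop :=
  ∀ i j w v, B w (M i j v) = B (M' j i w) v

private theorem L05_rel_mul {B : V →+ V →+ ℂ} {M M' P P' : Matrix ι ι (Module.End ℂ V)}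
    (h : L05Rel B M M') (h' : L05Rel B P P') : L05Rel B (M * P) (P' * M') := by
  intro i j w v
  rw [Matrix.mul_apply, Matrix.mul_apply, LinearMap.sum_apply, LinearMap.sum_apply, map_sum,
    map_sum, AddMonoidHom.finsetSum_apply]
  refine Finset.sum_congr rfl fun p _ => ?_
  rw [Module.End.mul_apply, Module.End.mul_apply, h i p, h' p j]

private theorem L05_rel_one (B : V →+ V →+ ℂ) :
    L05Rel B (1 : Matrix ι ι (Module.End ℂ V)) 1 := by
  intro i j w v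
  rcases eq_or_ne i j with h | h
  · subst h
    rw [Matrix.one_apply_eq]
    rfl
  · rw [Matrix.one_apply_ne h, Matrix.one_apply_ne h.symm]
    simp

private theorem L05_rel_pow {B : V →+ V →+ ℂ} {M M' : Matrix ι ι (Module.End ℂ V)}
    (h : L05Rel B M M') (m : ℕ) : L05Rel B (M ^ m) (M' ^ m) := by
  induction m with
  | zero =>
    rw [pow_zero, pow_zero]
    exact L05_rel_one B
  | succ m ih =>
    rw [pow_succ, pow_succ']
    exact L05_rel_mul ih h

private theorem L05_rel_trace {B : V →+ V →+ ℂ} {M M' : Matrix ι ι (Module.End ℂ V)}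
    (h : L05Rel B M M') (w v : V) : B w (M.trace v) = B (M'.trace w) v := by
  unfold Matrix.trace
  rw [LinearMap.sum_apply, LinearMap.sum_apply, map_sum, map_sum, AddMonoidHom.finsetSum_apply]
  exact Finset.sum_congr rfl fun i _ => h i i w v

private theorem L05_entry (a b : Matrix ι ι ℝ) (M : Matrix ι ι (Module.End ℂ V)) (i j : ι)
    (w : V) : ((L05hat V a * M * L05hat V b) i j) w =
      ∑ l, ∑ k, ((a i k * b l j : ℝ) : ℂ) • (M k l w) := by
  rw [Matrix.mul_apply, LinearMap.sum_apply]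
  refine Finset.sum_congr rfl fun l _ => ?_
  rw [Matrix.mul_apply, Module.End.mul_apply, LinearMap.sum_apply]
  refine Finset.sum_congr rfl fun k _ => ?_
  unfold L05hat
  rw [Module.End.mul_apply, Module.algebraMap_end_apply, Module.algebraMap_end_apply, map_smul,
    smul_smul, Complex.ofReal_mul]

/-- the transformed operator -/
private def L05Q (T : Matrix ι ι (Module.End ℂ V)) (s s' : Matrix ι ι ℝ) (n : ℕ) :
    Module.End ℂ V :=
  ((-1 : ℂ) ^ n) • ((L05hat V sᵀ * Tᵀ ^ n * L05hat V s'ᵀ) *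
    (L05hat V s' * T ^ n * L05hat V s)).trace

private theorem L05_sign (c : ℂ) (hc : c = 1 ∨ c = -1) (B : V →+ V →+ ℂ) (w v : V) :
    B w (c • v) = c * B w v ∧ B (c • w) v = c * B w v := by
  rcases hc with rfl | rfl
  · simp
  · simp

private theorem L05_main {B : V →+ V →+ ℂ} {T : Matrix ι ι (Module.End ℂ V)}
    {s s' : Matrix ι ι ℝ} (h1 : T * L05hat V (s * s') = T) (h2 : L05hat V (s * s') * T = T)
    (hT : L05Rel B T (-(L05hat V s' * T * L05hat V s)ᵀ)) {n : ℕ} (hn : 1 ≤ n) (w v : V) :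
    B w ((((-1 : ℂ) ^ n) • (Tᵀ ^ n * T ^ n).trace) v) = B ((L05Q T s s' n) w) v := by
  obtain ⟨m, rfl⟩ : ∃ m, n = m + 1 := ⟨n - 1, by omega⟩
  have hT' : L05Rel B Tᵀ (-(L05hat V s' * T * L05hat V s)) := fun i j w v => hT j i w v
  have e1 : (L05hat V s' * T * L05hat V s)ᵀ = L05hat V sᵀ * Tᵀ * L05hat V s'ᵀ := by
    rw [L05_tr_right, L05_tr_left, Matrix.mul_assoc]
  have e2 : (L05hat V sᵀ * Tᵀ * L05hat V s'ᵀ) ^ (m + 1) =
      L05hat V sᵀ * Tᵀ ^ (m + 1) * L05hat V s'ᵀ := by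
    refine L05_pow Tᵀ s'ᵀ sᵀ ?_ m
    rw [← Matrix.transpose_mul, ← L05_tr_left, h2]
  have e3 := L05_pow T s s' h1 m
  have h3 := L05_rel_mul (L05_rel_pow hT' (m + 1)) (L05_rel_pow hT (m + 1))
  have e4 : (-(L05hat V s' * T * L05hat V s)ᵀ) ^ (m + 1) *
      (-(L05hat V s' * T * L05hat V s)) ^ (m + 1) =
      (L05hat V sᵀ * Tᵀ ^ (m + 1) * L05hat V s'ᵀ) *
        (L05hat V s' * T ^ (m + 1) * L05hat V s) := by
    rw [neg_pow, neg_pow (L05hat V s' * T * L05hat V s), e1, e2, e3]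
    have h4 : ((-1 : Matrix ι ι (Module.End ℂ V)) ^ (m + 1)) *
        (-1 : Matrix ι ι (Module.End ℂ V)) ^ (m + 1) = 1 := by
      rw [← pow_add, Even.neg_one_pow ⟨m + 1, rfl⟩]
    have h5 : Commute ((-1 : Matrix ι ι (Module.End ℂ V)) ^ (m + 1))
        (L05hat V sᵀ * Tᵀ ^ (m + 1) * L05hat V s'ᵀ) :=
      ((Commute.neg_one_left _).pow_left _)
    rw [h5.eq]
    calc _ = (L05hat V sᵀ * Tᵀ ^ (m + 1) * L05hat V s'ᵀ) *
          (((-1 : Matrix ι ι (Module.End ℂ V)) ^ (m + 1)) *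
            (-1 : Matrix ι ι (Module.End ℂ V)) ^ (m + 1)) *
          (L05hat V s' * T ^ (m + 1) * L05hat V s) := by simp only [Matrix.mul_assoc]
      _ = _ := by rw [h4, Matrix.mul_one]
  rw [e4] at h3
  have h6 := L05_rel_trace h3 w v
  have hc := neg_one_pow_eq_or ℂ (m + 1)
  unfold L05Q
  rw [LinearMap.smul_apply, LinearMap.smul_apply, (L05_sign _ hc B _ _).1,
    (L05_sign _ hc B _ _).2, h6]

end gen

variable {N : ℕ} {G : Type} [Group G] [TopologicalSpace G] [IsTopologicalGroup G]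
  [LocallyCompactSpace G] [T2Space G]
variable {H : Type} [NormedAddCommGroup H] [InnerProductSpace ℂ H] [CompleteSpace H]

variable (L : LieData N G) (π : G →* (H ≃ₗᵢ[ℂ] H))

private def L05B (g : G) : KFin L π →+ KFin L π →+ ℂ :=
  AddMonoidHom.mk' (fun w => AddMonoidHom.mk' (fun v => inner ℂ (w : H) (π g (v : H)))
    (fun a b => by rw [Submodule.coe_add, map_add, inner_add_right]))
    (fun a b => by
      refine AddMonoidHom.ext fun v => ?_
      change inner ℂ ((a + b : KFin L π) : H) (π g (v : H)) =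
        inner ℂ (a : H) (π g (v : H)) + inner ℂ (b : H) (π g (v : H))
      rw [Submodule.coe_add, inner_add_left])

private theorem L05B_apply (g : G) (w v : KFin L π) :
    L05B L π g w v = inner ℂ (w : H) (π g (v : H)) := rfl

private theorem L05B_smul (g : G) (r : ℝ) (w v : KFin L π) :
    L05B L π g ((r : ℂ) • w) v = (r : ℂ) * L05B L π g w v := by
  rw [L05B_apply, L05B_apply, Submodule.coe_smul, inner_smul_left, Complex.conj_ofReal]


variable (A : LieRep N (KFin L π)) (hP : IsPkg L π A) {ι : Type} [Fintype ι] [DecidableEq ι]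
  (σ : G → Matrix ι ι ℝ) (τ : Mat N →ₗ[ℝ] Matrix ι ι ℝ) (hσ : GRep L σ τ)

include hP in
private theorem L05_nondeg {M : Mat N} (hM : M ∈ A.𝔤)
    (h : ∀ X ∈ A.𝔤, (M * X).trace = 0) : M = 0 := by
  have h1 : Mᵀ ∈ A.𝔤 := by
    rw [hP.g_eq] at hM ⊢
    exact L.transpose_mem M hM
  have h2 := h Mᵀ h1
  rw [← Matrix.conjTranspose_eq_transpose_of_trivial,
    Matrix.trace_mul_conjTranspose_self_eq_zero_iff] at h2
  exact h2

include hP hσ in
private theorem L05_Ad (g : G) (i j : ι) : L.ι g * A.Y τ i j * L.ι g⁻¹ =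
    ∑ l, ∑ k, (σ g⁻¹ i k * σ g l j) • A.Y τ k l := by
  have hY : ∀ i j, A.Y τ i j ∈ A.𝔤 := fun i j => (A.tr_Y τ i j (Submodule.zero_mem A.𝔤)).2.2
  rw [← sub_eq_zero]
  refine L05_nondeg L π A hP ?_ ?_
  · refine Submodule.sub_mem _ ?_ (Submodule.sum_mem _ fun l _ => Submodule.sum_mem _ fun k _ =>
      Submodule.smul_mem _ _ (hY k l))
    have := hY i j
    rw [hP.g_eq] at this ⊢
    exact L.ad_mem g _ this
  · intro X hX
    have hXL : X ∈ L.𝔤 := by
      rw [← hP.g_eq]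
      exact hX
    have h1 : (L.ι g * A.Y τ i j * L.ι g⁻¹ * X).trace =
        (A.Y τ i j * (L.ι g⁻¹ * X * L.ι g⁻¹⁻¹)).trace := by
      rw [inv_inv, Matrix.mul_assoc, Matrix.mul_assoc, Matrix.trace_mul_comm]
      simp only [Matrix.mul_assoc]
    have h2 : L.ι g⁻¹ * X * L.ι g⁻¹⁻¹ ∈ A.𝔤 := by
      rw [hP.g_eq]
      exact L.ad_mem g⁻¹ X hXL
    rw [Matrix.sub_mul, Matrix.trace_sub, sub_eq_zero, h1, (A.tr_Y τ i j h2).1,
      ← hσ.conj g⁻¹ X hXL, inv_inv, Matrix.sum_mul, Matrix.trace_sum, Matrix.mul_apply]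
    refine Finset.sum_congr rfl fun l _ => ?_
    rw [Matrix.sum_mul, Matrix.trace_sum, Matrix.mul_apply, Finset.sum_mul]
    refine Finset.sum_congr rfl fun k _ => ?_
    rw [Matrix.smul_mul, Matrix.trace_smul, (A.tr_Y τ k l hX).1, smul_eq_mul]
    ring

include hP hσ in
private theorem L05_relT (g : G) : L05Rel (L05B L π g) (A.XT τ)
    (-(L05hat (KFin L π) (σ g⁻¹) * A.XT τ * L05hat (KFin L π) (σ g))ᵀ) := by
  intro i j w v
  have hY : A.Y τ i j ∈ L.𝔤 := by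
    rw [← hP.g_eq]
    exact (A.tr_Y τ i j (Submodule.zero_mem A.𝔤)).2.2
  have h1 : L05B L π g w (A.XT τ i j v) =
      -L05B L π g (A.D (L.ι g * A.Y τ i j * L.ι g⁻¹) w) v := hP.weak _ hY w v g
  rw [h1, L05_Ad L π A hP σ τ hσ g i j]
  have h2 : (-(L05hat (KFin L π) (σ g⁻¹) * A.XT τ * L05hat (KFin L π) (σ g))ᵀ) j i w =
      -(A.D (∑ l, ∑ k, (σ g⁻¹ i k * σ g l j) • A.Y τ k l) w) := by
    rw [Matrix.neg_apply, LinearMap.neg_apply, Matrix.transpose_apply, L05_entry, map_sum,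
      LinearMap.sum_apply]
    congr 1
    refine Finset.sum_congr rfl fun l _ => ?_
    rw [map_sum, LinearMap.sum_apply]
    refine Finset.sum_congr rfl fun k _ => ?_
    rw [map_smul, LinearMap.smul_apply, Complex.coe_smul]
    rfl
  rw [h2, map_neg, AddMonoidHom.neg_apply]

include hσ in
private theorem L05_proj (hg : A.𝔤 = L.𝔤) : A.XT τ * L05hat (KFin L π) (σ 1) = A.XT τ ∧
    L05hat (KFin L π) (σ 1) * A.XT τ = A.XT τ := by
  have hZ : ∀ a, A.Z a ∈ L.𝔤 := fun a => by rw [← hg]; exact A.Z_mem a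
  have hPm : ∀ a, A.P a ∈ L.𝔤 := fun a => by rw [← hg]; exact A.P_mem a
  constructor
  · refine Matrix.ext fun i j => ?_
    refine LinearMap.ext fun w => ?_
    have h1 : A.Y τ i j = ∑ l, σ 1 l j • A.Y τ i l := by
      unfold LieRep.Y
      simp only [smul_add, smul_neg, Finset.smul_sum, Finset.sum_add_distrib, Finset.sum_neg_distrib,
        smul_smul]
      congr 1
      · congr 1
        rw [Finset.sum_comm]
        refine Finset.sum_congr rfl fun a _ => ?_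
        rw [← Finset.sum_smul]
        congr 1
        conv_lhs => rw [← (hσ.proj _ (hZ a)).2, Matrix.mul_apply]
        exact Finset.sum_congr rfl fun l _ => mul_comm _ _
      · rw [Finset.sum_comm]
        refine Finset.sum_congr rfl fun a _ => ?_
        rw [← Finset.sum_smul]
        congr 1
        conv_lhs => rw [← (hσ.proj _ (hPm a)).2, Matrix.mul_apply]
        exact Finset.sum_congr rfl fun l _ => mul_comm _ _
    have h2 : A.XT τ i j w = ∑ l, ((σ 1 l j : ℝ) : ℂ) • (A.XT τ i l w) := by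
      unfold LieRep.XT
      conv_lhs => rw [h1, map_sum, LinearMap.sum_apply]
      refine Finset.sum_congr rfl fun l _ => ?_
      rw [map_smul, LinearMap.smul_apply, Complex.coe_smul]
    rw [h2, Matrix.mul_apply, LinearMap.sum_apply]
    refine Finset.sum_congr rfl fun l _ => ?_
    unfold L05hat
    rw [Module.End.mul_apply, Module.algebraMap_end_apply, map_smul]
  · refine Matrix.ext fun i j => ?_
    refine LinearMap.ext fun w => ?_
    have h1 : A.Y τ i j = ∑ l, σ 1 i l • A.Y τ l j := by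
      unfold LieRep.Y
      simp only [smul_add, smul_neg, Finset.smul_sum, Finset.sum_add_distrib, Finset.sum_neg_distrib,
        smul_smul]
      congr 1
      · congr 1
        rw [Finset.sum_comm]
        refine Finset.sum_congr rfl fun a _ => ?_
        rw [← Finset.sum_smul]
        congr 1
        conv_lhs => rw [← (hσ.proj _ (hZ a)).1, Matrix.mul_apply]
      · rw [Finset.sum_comm]
        refine Finset.sum_congr rfl fun a _ => ?_
        rw [← Finset.sum_smul]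
        congr 1
        conv_lhs => rw [← (hσ.proj _ (hPm a)).1, Matrix.mul_apply]
    have h2 : A.XT τ i j w = ∑ l, ((σ 1 i l : ℝ) : ℂ) • (A.XT τ l j w) := by
      unfold LieRep.XT
      conv_lhs => rw [h1, map_sum, LinearMap.sum_apply]
      refine Finset.sum_congr rfl fun l _ => ?_
      rw [map_smul, LinearMap.smul_apply, Complex.coe_smul]
    rw [h2, Matrix.mul_apply, LinearMap.sum_apply]
    refine Finset.sum_congr rfl fun l _ => ?_
    unfold L05hat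
    rw [Module.End.mul_apply, Module.algebraMap_end_apply]

variable (n : ℕ) (hn : 1 ≤ n)

include hP hσ hn in
private theorem L05_Q (g : G) (w v : KFin L π) :
    L05B L π g w (A.QT τ n v) = L05B L π g (L05Q (A.XT τ) (σ g) (σ g⁻¹) n w) v := by
  have h0 := L05_proj L π A σ τ hσ hP.g_eq
  have h1 : σ g * σ g⁻¹ = σ 1 := by rw [← hσ.mul, mul_inv_cancel]
  rw [← h1] at h0
  exact L05_main h0.1 h0.2 (L05_relT L π A hP σ τ hσ g) hn w v

include hP hσ hn

theorem QT_K (k : G) (hk : k ∈ L.K) (u u' : KFin L π) (h : (u' : H) = π k (u : H)) :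
    π k ((A.QT τ n u : KFin L π) : H) = ((A.QT τ n u' : KFin L π) : H) := by
  have hQ : L05Q (A.XT τ) (σ k) (σ k⁻¹) n = A.QT τ n := by
    unfold L05Q LieRep.QT
    rw [hσ.Kt k hk, hσ.Kt k⁻¹ (L.K.inv_mem hk), inv_inv]
    congr 1
    obtain ⟨m, rfl⟩ : ∃ m, n = m + 1 := ⟨n - 1, by omega⟩
    have h1 : σ k * σ k⁻¹ = σ 1 := by rw [← hσ.mul, mul_inv_cancel]
    have h0 := L05_proj L π A σ τ hσ hP.g_eq
    have h2 : L05hat (KFin L π) (σ 1) * A.XT τ ^ (m + 1) = A.XT τ ^ (m + 1) := by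
      rw [pow_succ', ← Matrix.mul_assoc, h0.2]
    have h3 : A.XT τ ^ (m + 1) * L05hat (KFin L π) (σ 1) = A.XT τ ^ (m + 1) := by
      rw [pow_succ, Matrix.mul_assoc, h0.1]
    calc _ = (L05hat (KFin L π) (σ k⁻¹) * ((A.XT τ)ᵀ ^ (m + 1) *
          ((L05hat (KFin L π) (σ k) * L05hat (KFin L π) (σ k⁻¹)) * A.XT τ ^ (m + 1)) *
          L05hat (KFin L π) (σ k))).trace := by simp only [Matrix.mul_assoc]
      _ = ((A.XT τ)ᵀ ^ (m + 1) * (A.XT τ ^ (m + 1) *
          (L05hat (KFin L π) (σ k) * L05hat (KFin L π) (σ k⁻¹)))).trace := by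
          rw [L05_trace, ← L05_hat_mul, h1, h2]
          simp only [Matrix.mul_assoc]
          rw [← L05_hat_mul, h1]
      _ = _ := by rw [← L05_hat_mul, h1, h3]
  have h1 : ∀ w : KFin L π, inner ℂ (w : H) (π k ((A.QT τ n u : KFin L π) : H)) =
      inner ℂ (w : H) ((A.QT τ n u' : KFin L π) : H) := by
    intro w
    have h2 := L05_Q L π A hP σ τ hσ n hn k w u
    rw [hQ, L05B_apply, L05B_apply, ← h] at h2
    rw [h2]
    exact A.QT_symm τ n w u'
  obtain ⟨z, hz⟩ : ∃ z : KFin L π, (z : H) = π k ((A.QT τ n u : KFin L π) : H) :=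
    ⟨⟨_, kfin_K L π hk (A.QT τ n u).2⟩, rfl⟩
  rw [← hz] at h1 ⊢
  have h3 := h1 (z - A.QT τ n u')
  rw [← sub_eq_zero, ← inner_sub_right, ← Submodule.coe_sub] at h3
  have h4 : ((z - A.QT τ n u' : KFin L π) : H) = 0 := inner_self_eq_zero.1 h3
  rw [Submodule.coe_sub, sub_eq_zero] at h4
  exact h4

private theorem L05_rapid (q : ℕ) : ∀ w : KFin L π, ∃ C : ℝ, 0 < C ∧ ∀ (g : G) (m : ℝ),
    0 ≤ m → (∀ i j, |σ g i j| ≤ m ∧ |σ g⁻¹ i j| ≤ m) → ∀ u : KFin L π,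
      ‖L05B L π g w ((A.QT τ n ^ q) u)‖ ≤ C * m ^ (4 * q) * ‖u‖ := by
  induction q with
  | zero =>
    intro w
    refine ⟨‖w‖ + 1, by positivity, ?_⟩
    intro g m hm _ u
    rw [pow_zero, mul_zero, pow_zero, mul_one, Module.End.one_apply, L05B_apply]
    refine (norm_inner_le_norm _ _).trans ?_
    rw [LinearIsometryEquiv.norm_map]
    refine mul_le_mul_of_nonneg_right ?_ (norm_nonneg _)
    have : ‖(w : H)‖ = ‖w‖ := rfl
    linarith
  | succ q ih =>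
    intro w
    choose C hC0 hC using ih
    let T := A.XT τ
    let v : ι → ι → ι → ι → KFin L π := fun k l k' l' => ((Tᵀ ^ n) k l) (((T ^ n) k' l') w)
    refine ⟨1 + ∑ j : ι, ∑ i : ι, ∑ l, ∑ k, ∑ l', ∑ k', C (v k l k' l'), ?_, ?_⟩
    · have : 0 ≤ ∑ j : ι, ∑ i : ι, ∑ l, ∑ k, ∑ l', ∑ k', C (v k l k' l') :=
        Finset.sum_nonneg fun j _ => Finset.sum_nonneg fun i _ => Finset.sum_nonneg fun l _ =>
          Finset.sum_nonneg fun k _ => Finset.sum_nonneg fun l' _ =>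
            Finset.sum_nonneg fun k' _ => (hC0 _).le
      linarith
    intro g m hm hmb u
    rw [pow_succ', Module.End.mul_apply, L05_Q L π A hP σ τ hσ n hn]
    obtain ⟨x, hx⟩ : ∃ x : KFin L π, x = (A.QT τ n ^ q) u := ⟨_, rfl⟩
    rw [← hx]
    have hb : ∀ w' : KFin L π, ‖L05B L π g w' x‖ ≤ C w' * m ^ (4 * q) * ‖u‖ := by
      intro w'
      rw [hx]
      exact hC w' g m hm hmb u
    have hm4 : ∀ (j i l k l' k' : ι), ‖L05B L π g
        ((((σ g)ᵀ j k * (σ g⁻¹)ᵀ l i : ℝ) : ℂ) • (((σ g⁻¹ i k' * σ g l' j : ℝ) : ℂ) •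
          v k l k' l')) x‖ ≤ m ^ 4 * (C (v k l k' l') * m ^ (4 * q) * ‖u‖) := by
      intro j i l k l' k'
      rw [L05B_smul, L05B_smul, norm_mul, norm_mul, Complex.norm_real, Complex.norm_real,
        Real.norm_eq_abs, Real.norm_eq_abs, abs_mul, abs_mul, ← mul_assoc]
      refine mul_le_mul ?_ (hb _) (norm_nonneg _) (by positivity)
      have h1 : |(σ g)ᵀ j k| * |(σ g⁻¹)ᵀ l i| ≤ m * m :=
        mul_le_mul (hmb k j).1 (hmb i l).2 (abs_nonneg _) hm
      have h2 : |σ g⁻¹ i k'| * |σ g l' j| ≤ m * m :=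
        mul_le_mul (hmb i k').2 (hmb l' j).1 (abs_nonneg _) hm
      calc |(σ g)ᵀ j k| * |(σ g⁻¹)ᵀ l i| * (|σ g⁻¹ i k'| * |σ g l' j|) ≤ m * m * (m * m) :=
            mul_le_mul h1 h2 (by positivity) (by positivity)
        _ = m ^ 4 := by ring
    have hexp : (((L05hat (KFin L π) (σ g)ᵀ * Tᵀ ^ n * L05hat (KFin L π) (σ g⁻¹)ᵀ) *
        (L05hat (KFin L π) (σ g⁻¹) * T ^ n * L05hat (KFin L π) (σ g))).trace) w =
        ∑ j : ι, ∑ i : ι, ∑ l, ∑ k, ∑ l', ∑ k', (((σ g)ᵀ j k * (σ g⁻¹)ᵀ l i : ℝ) : ℂ) •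
          (((σ g⁻¹ i k' * σ g l' j : ℝ) : ℂ) • v k l k' l') := by
      unfold Matrix.trace
      rw [LinearMap.sum_apply]
      refine Finset.sum_congr rfl fun j _ => ?_
      rw [Matrix.diag_apply, Matrix.mul_apply, LinearMap.sum_apply]
      refine Finset.sum_congr rfl fun i _ => ?_
      rw [Module.End.mul_apply, L05_entry]
      refine Finset.sum_congr rfl fun l _ => Finset.sum_congr rfl fun k _ => ?_
      rw [L05_entry, map_sum, Finset.smul_sum]
      refine Finset.sum_congr rfl fun l' _ => ?_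
      rw [map_sum, Finset.smul_sum]
      refine Finset.sum_congr rfl fun k' _ => ?_
      rw [map_smul]
    have h5 : ‖L05B L π g (L05Q T (σ g) (σ g⁻¹) n w) x‖ =
        ‖L05B L π g ((((L05hat (KFin L π) (σ g)ᵀ * Tᵀ ^ n * L05hat (KFin L π) (σ g⁻¹)ᵀ) *
        (L05hat (KFin L π) (σ g⁻¹) * T ^ n * L05hat (KFin L π) (σ g))).trace) w) x‖ := by
      unfold L05Q
      rw [LinearMap.smul_apply, (L05_sign _ (neg_one_pow_eq_or ℂ n) _ _ _).2, norm_mul, norm_pow,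
        norm_neg, norm_one, one_pow, one_mul]
    rw [h5, hexp]
    obtain ⟨K, hK⟩ : ∃ K : ℝ, K = m ^ 4 * m ^ (4 * q) * ‖u‖ := ⟨_, rfl⟩
    have hK0 : 0 ≤ K := by
      rw [hK]
      positivity
    have h6 : ‖L05B L π g (∑ j : ι, ∑ i : ι, ∑ l, ∑ k, ∑ l', ∑ k',
        (((σ g)ᵀ j k * (σ g⁻¹)ᵀ l i : ℝ) : ℂ) •
          (((σ g⁻¹ i k' * σ g l' j : ℝ) : ℂ) • v k l k' l')) x‖ ≤
        ∑ j : ι, ∑ i : ι, ∑ l, ∑ k, ∑ l', ∑ k', C (v k l k' l') * K := by
      simp only [map_sum, AddMonoidHom.finsetSum_apply]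
      refine norm_sum_le_of_le _ fun j _ => norm_sum_le_of_le _ fun i _ =>
        norm_sum_le_of_le _ fun l _ => norm_sum_le_of_le _ fun k _ =>
        norm_sum_le_of_le _ fun l' _ => norm_sum_le_of_le _ fun k' _ =>
        (hm4 j i l k l' k').trans (le_of_eq ?_)
      rw [hK]
      ring
    refine h6.trans ?_
    have h9 : ∑ j : ι, ∑ i : ι, ∑ l, ∑ k, ∑ l', ∑ k', C (v k l k' l') * K =
        (∑ j : ι, ∑ i : ι, ∑ l, ∑ k, ∑ l', ∑ k', C (v k l k' l')) * K := by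
      simp only [Finset.sum_mul]
    have h8 : m ^ (4 * (q + 1)) = m ^ 4 * m ^ (4 * q) := by ring
    rw [h9, h8, mul_assoc _ _ ‖u‖, ← hK, add_mul, one_mul]
    linarith

theorem rapidQ (q : ℕ) (w : H) (hw : w ∈ KFin L π) : ∃ C : ℝ, 0 < C ∧ ∀ (g : G) (m : ℝ),
    0 ≤ m → (∀ i j, |σ g i j| ≤ m ∧ |σ g⁻¹ i j| ≤ m) → ∀ u : KFin L π,
      ‖mc π w (((A.QT τ n ^ q) u : KFin L π) : H) g‖ ≤ C * m ^ (4 * q) * ‖u‖ :=
  L05_rapid L π A hP σ τ hσ n hn q ⟨w, hw⟩

end SBD
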