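import Pool.Agent.SBX.V03
import Pool.Agent.SBD.M02

/-!
# Row SBX-V04 : `δ(g) ≥ c Θ(g)^{c'}` and `δ(g) ≤ C Θ(g)^{C'}`

Let `g = k e(X)` (`L.polar`), `X ∈ 𝔭`; `dl g = dl (e X)`, `Th g = Th (e X)`.  `Θ(e X) = 1 + fsq(exp X) + fsq(exp(-X))
≤ (1+2N)e^{2‖X‖}` (`‖X‖ = √fsq X`).  By `diag_ad` `dl(e X) ≥ e^{½∑|a_i|}`, and
`(∑|a_i|)² ≥ ∑a_i² = ∑_{ij}(adM X)_{ij}² ≥ c₁ fsq X` (`adM_pos`; the Frobenius norm is invariant under
`Q·Qᵀ`).  So `dl ≥ e^{½√c₁‖X‖} ≥ ((1+2N)^{-1}Θ)^{√c₁/4}`.  Upper bound: the entries of `AdM g` are `≤ C Θ(g)`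
(`fsq_ad_le`), so `det(1 + AᵀA) ≤ C Θ^{C'}` (Leibniz formula).
-/

open MeasureTheory Filter Topology
open scoped ENNReal NNReal Matrix

noncomputable section

namespace SBD

variable {N : ℕ} {G : Type} [Group G] [TopologicalSpace G] [IsTopologicalGroup G]
  [LocallyCompactSpace G] [T2Space G]

variable {L : LieData N G} (B : Bases L)

private theorem v04_fsq_one : fsq (1 : Mat N) = N := by
  unfold fsq fip
  rw [Matrix.transpose_one, one_mul, Matrix.trace_one, Fintype.card_fin]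

private theorem v04_Th_one_le (g : G) : 1 ≤ Th L g := by
  unfold Th
  have h1 := m02_fsq_nonneg (L.ι g)
  have h2 := m02_fsq_nonneg (L.ι g⁻¹)
  linarith

private theorem v04_Th_e {X : Mat N} (hX : X ∈ L.𝔤) : Th L (L.e X) ≤ Real.exp (2 * Real.sqrt (fsq X)) * (1 + 2 * N) := by
  have h := Th_line (L := L) hX 1 1
  rw [one_mul, one_smul, abs_one, mul_one] at h
  have h1 : Th L (1 : G) = 1 + 2 * N := by
    unfold Th
    rw [inv_one, map_one, v04_fsq_one]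
    ring
  rw [h1] at h
  exact h

private theorem v04_frob {ι : Type} [Fintype ι] [DecidableEq ι] (M Q : Matrix ι ι ℝ) (a : ι → ℝ) (hQ : Qᵀ * Q = 1)
    (hM : M = Q * Matrix.diagonal a * Qᵀ) : ∑ i, ∑ j, M i j ^ 2 = ∑ i, a i ^ 2 := by
  have h1 : ∑ i, ∑ j, M i j ^ 2 = (M * Mᵀ).trace := by
    rw [Matrix.trace]
    refine Finset.sum_congr rfl fun i _ => ?_
    rw [Matrix.diag_apply, Matrix.mul_apply]
    refine Finset.sum_congr rfl fun j _ => ?_
    rw [Matrix.transpose_apply, sq]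
  have h2 : M * Mᵀ = Q * (Matrix.diagonal a * Matrix.diagonal a) * Qᵀ := by
    rw [hM, Matrix.transpose_mul, Matrix.transpose_mul, Matrix.transpose_transpose, Matrix.diagonal_transpose]
    calc Q * Matrix.diagonal a * Qᵀ * (Q * (Matrix.diagonal a * Qᵀ)) =
          Q * Matrix.diagonal a * (Qᵀ * Q) * (Matrix.diagonal a * Qᵀ) := by simp only [Matrix.mul_assoc]
      _ = Q * (Matrix.diagonal a * Matrix.diagonal a) * Qᵀ := by
          rw [hQ, Matrix.mul_one]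
          simp only [Matrix.mul_assoc]
  rw [h1, h2, Matrix.trace_mul_comm, ← Matrix.mul_assoc, hQ, Matrix.one_mul, Matrix.diagonal_mul_diagonal,
    Matrix.trace_diagonal]
  exact Finset.sum_congr rfl fun i _ => by ring

theorem dl_ge : ∃ c : ℝ, 0 < c ∧ ∃ κ : ℝ, 0 < κ ∧ ∀ g : G, c * Th L g ^ κ ≤ dl B g := by
  obtain ⟨c₁, hc₁, hpos⟩ := adM_pos B
  obtain ⟨A, hA⟩ : ∃ A : ℝ, A = 1 + 2 * N := ⟨_, rfl⟩
  have hA0 : 0 < A := by rw [hA]; positivity
  have hs0 : 0 < Real.sqrt c₁ := Real.sqrt_pos.2 hc₁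
  refine ⟨A⁻¹ ^ (Real.sqrt c₁ / 4), by positivity, Real.sqrt c₁ / 4, by positivity, fun g => ?_⟩
  obtain ⟨k, X, hX, ht, hk, hg⟩ := L.polar g
  have hkK : k ∈ L.K := hk
  rw [hg, dl_K_left B hkK, Th_K_left L hkK]
  obtain ⟨Q, a, -, hQ, hM, -, -, hlow, -⟩ := diag_ad B hX ht
  refine le_trans ?_ hlow
  have h1 : c₁ * fsq X ≤ (∑ i, |a i|) ^ 2 := by
    refine (hpos X hX ht).trans ?_
    rw [v04_frob _ Q a hQ hM]
    calc ∑ i, a i ^ 2 = ∑ i, |a i| ^ 2 := Finset.sum_congr rfl fun i _ => (sq_abs _).symm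
      _ ≤ (∑ i, |a i|) ^ 2 := Finset.sum_sq_le_sq_sum_of_nonneg fun i _ => abs_nonneg _
  have hf : 0 ≤ fsq X := m02_fsq_nonneg X
  have h2 : Real.sqrt c₁ * Real.sqrt (fsq X) ≤ ∑ i, |a i| := by
    rw [← Real.sqrt_mul hc₁.le]
    exact Real.sqrt_le_iff.2 ⟨Finset.sum_nonneg fun i _ => abs_nonneg _, h1⟩
  have hT : 0 < Th L (L.e X) := lt_of_lt_of_le one_pos (v04_Th_one_le _)
  have h3 : A⁻¹ * Th L (L.e X) ≤ Real.exp (2 * Real.sqrt (fsq X)) := by
    rw [inv_mul_le_iff₀ hA0, hA, mul_comm]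
    exact v04_Th_e hX
  calc A⁻¹ ^ (Real.sqrt c₁ / 4) * Th L (L.e X) ^ (Real.sqrt c₁ / 4) = (A⁻¹ * Th L (L.e X)) ^ (Real.sqrt c₁ / 4) := by
        rw [Real.mul_rpow (by positivity) hT.le]
    _ ≤ Real.exp (2 * Real.sqrt (fsq X)) ^ (Real.sqrt c₁ / 4) := by
        refine Real.rpow_le_rpow (by positivity) h3 (by positivity)
    _ = Real.exp (Real.sqrt c₁ * Real.sqrt (fsq X) / 2) := by
        rw [← Real.exp_mul]
        congr 1
        ring
    _ ≤ Real.exp ((∑ i, |a i|) / 2) := Real.exp_le_exp.2 (by linarith)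

private theorem v04_fip_sq (X Y : Mat N) : fip X Y ^ 2 ≤ fsq X * fsq Y := by
  unfold fsq
  rw [P01_fip_eq, P01_fip_eq, P01_fip_eq]
  have := Finset.sum_mul_sq_le_sq_mul_sq (Finset.univ : Finset (Fin N × Fin N)) (fun p => X p.1 p.2) (fun p => Y p.1 p.2)
  simpa [sq] using this

theorem dl_le : ∃ C : ℝ, 0 < C ∧ ∃ κ : ℝ, 0 < κ ∧ ∀ g : G, dl B g ≤ C * Th L g ^ κ := by
  classical
  obtain ⟨M, hM⟩ : ∃ M : ℕ, M = Fintype.card B.J := ⟨_, rfl⟩
  obtain ⟨D, hD⟩ : ∃ D : ℝ, D = (M.factorial : ℝ) * (1 + M) ^ M := ⟨_, rfl⟩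
  have hD0 : 0 < D := by rw [hD]; positivity
  refine ⟨Real.sqrt D, Real.sqrt_pos.2 hD0, (M : ℝ) + 1, by positivity, fun g => ?_⟩
  have hT1 : 1 ≤ Th L g := v04_Th_one_le g
  have hT0 : 0 < Th L g := by linarith
  have hent : ∀ i j, |AdM B g i j| ≤ Th L g := by
    intro i j
    have h1 : AdM B g i j ^ 2 ≤ Th L g ^ 2 := by
      calc AdM B g i j ^ 2 ≤ fsq (B.b i) * fsq (L.ι g * B.b j * L.ι g⁻¹) := v04_fip_sq _ _
        _ ≤ 1 * (Th L g ^ 2 * 1) := by
            have e1 : ∀ k, fsq (B.b k) = 1 := fun k => by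
              have := b_o B k k
              rw [if_pos rfl] at this
              exact this
            rw [e1 i]
            refine mul_le_mul_of_nonneg_left ?_ zero_le_one
            have h2 := fsq_ad_le (L := L) g (B.b j)
            rw [e1 j] at h2
            exact h2
        _ = Th L g ^ 2 := by ring
    exact abs_le_of_sq_le_sq h1 hT0.le
  have hdet : (1 + (AdM B g)ᵀ * AdM B g).det ≤ D * (Th L g ^ M) ^ 2 := by
    have h1 : ∀ i j, IsAbsoluteValue.toAbsoluteValue (fun x : ℝ => |x|) ((1 + (AdM B g)ᵀ * AdM B g) i j) ≤ (1 + M) * Th L g ^ 2 := by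
      intro i j
      show |(1 + (AdM B g)ᵀ * AdM B g) i j| ≤ (1 + M) * Th L g ^ 2
      rw [Matrix.add_apply, Matrix.mul_apply]
      refine (abs_add_le _ _).trans ?_
      have h2 : |(1 : Matrix B.J B.J ℝ) i j| ≤ Th L g ^ 2 := by
        rw [Matrix.one_apply]
        split_ifs
        · rw [abs_one]
          nlinarith
        · rw [abs_zero]
          positivity
      have h3 : |∑ k, (AdM B g)ᵀ i k * AdM B g k j| ≤ M * Th L g ^ 2 := by
        refine (Finset.abs_sum_le_sum_abs _ _).trans ?_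
        calc ∑ k, |(AdM B g)ᵀ i k * AdM B g k j| ≤ ∑ _k : B.J, Th L g ^ 2 := by
              refine Finset.sum_le_sum fun k _ => ?_
              rw [Matrix.transpose_apply, abs_mul, sq]
              exact mul_le_mul (hent k i) (hent k j) (abs_nonneg _) hT0.le
          _ = M * Th L g ^ 2 := by rw [Finset.sum_const, Finset.card_univ, nsmul_eq_mul, hM]
      linarith
    have h4 := Matrix.det_le h1
    rw [← hM] at h4
    refine (le_abs_self _).trans (le_trans h4 (le_of_eq ?_))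
    rw [nsmul_eq_mul, hD, mul_pow]
    ring
  unfold dl
  calc Real.sqrt (1 + (AdM B g)ᵀ * AdM B g).det ≤ Real.sqrt (D * (Th L g ^ M) ^ 2) := Real.sqrt_le_sqrt hdet
    _ = Real.sqrt D * Th L g ^ M := by
        rw [Real.sqrt_mul hD0.le, Real.sqrt_sq (by positivity)]
    _ ≤ Real.sqrt D * Th L g ^ ((M : ℝ) + 1) := by
        refine mul_le_mul_of_nonneg_left ?_ (Real.sqrt_nonneg _)
        rw [← Real.rpow_natCast]
        exact Real.rpow_le_rpow_of_exponent_le hT1 (by linarith)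

end SBD
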