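import Pool.Agent.SBX.V10
import Pool.Agent.SBX.V04
import Pool.Agent.SBX.WDefs
import Pool.Agent.SBD.C01
import Pool.Agent.SBD.M06
import Pool.Agent.SBD.M01

/-!
# Row SBX-L06 : the square function of a `K`-stable subspace of an eigenspace

`v_1,…,v_d` orthonormal in `eig lam`, with `K`-stable span.  Then
`∑_j |⟨w,π(g)v_j⟩|² ≤ C d lam^{aε} Θ(g)^ε / δ(g)`.

PROOF.  For `w` take `w_i, U, C₁` from C01 (`smoothing`, `w₀ = w`); `|⟨w,π(g)v⟩|² ≤ ‖w‖²F(v)(g)`, `F = Fw π w_•`.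
`Φ(g) = ∑_jF(v_j)(g)`.
(1) `∫⁻Θ^{-ε}Φ ≤ C₂ d lam^{aε}`: `∫Θ^{-ε}‖mc π w_i v_j‖² = Re Bf(ε,w_i)(v_j,v_j)` (`Bf_self`) `≤ C lam^{a₁·2ε}` by
`chain_sob` (A16) for `B = Bf`, `almostInv` (M06) (`w_i ≠ 0`), `v_j ∈ low lam`, `‖v_j‖ = 1`.
(2) `Φ(gk) = Φ(g)` for `k ∈ K`: `(π(k)v_j)` is another orthonormal basis of the span of the `v_j`
(`K`-stable, finite-dimensional), so `∑_j|⟨y,π(k)v_j⟩|² = ∑_j|⟨y,v_j⟩|²` for `y = π(g)⁻¹w_i`.
(3) `Φ(g) ≤ C₁∫_{x∈U}Φ(x⁻¹g)dμ(x)` (sum of `smoothing`).  Let `U₀, c, k_1,…,k_q` be from `packing` (V10) for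
`g`.  Then `qΦ(g) = ∑_iΦ(gk_i) ≤ C₁∑_i∫_UΦ(x⁻¹gk_i)dx = C₁∫_GΦ(y)·#{i : gk_iy⁻¹ ∈ U}dy` (substitution
`y = x⁻¹gk_i`, i.e. `x = gk_iy⁻¹`; inversion and translation invariance, M01; as lintegrals of `ofReal`).
(4) `#{i : gk_iy⁻¹ ∈ U} ≤ M` with `M` independent of `g, y`: choose an open `O ∋ 1` with `OO⁻¹ ⊆ U₀`, cover the
compact `U` by `M` sets `O c_l`; if `gk_iy⁻¹, gk_jy⁻¹ ∈ Oc_l` then `gk_ik_j⁻¹g⁻¹ ∈ OO⁻¹ ⊆ U₀`, so `i = j`.
If the set is nonempty, `y = x⁻¹gk_i`, `x ∈ U`, so `Θ(y) ≤ Θ(x)Θ(g) ≤ C₃Θ(g)` (M02) and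
`1 ≤ (C₃Θ(g))^εΘ(y)^{-ε}`.
So `c δ(g) Φ(g) ≤ qΦ(g) ≤ C₁M C₃^εΘ(g)^ε∫Θ^{-ε}Φ ≤ C₄Θ(g)^ε d lam^{aε}`.
-/

open MeasureTheory Filter Topology
open scoped ENNReal NNReal Matrix

noncomputable section

namespace SBD

variable {N : ℕ} {G : Type} [Group G] [TopologicalSpace G] [IsTopologicalGroup G]
  [LocallyCompactSpace G] [T2Space G]
variable [SecondCountableTopology G] [MeasurableSpace G] [BorelSpace G]
variable {H : Type} [NormedAddCommGroup H] [InnerProductSpace ℂ H] [CompleteSpace H]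

private theorem L06_sum {H : Type} [NormedAddCommGroup H] [InnerProductSpace ℂ H]
    (W : Submodule ℂ H) [FiniteDimensional ℂ W] {d : ℕ} (b : OrthonormalBasis (Fin d) ℂ W)
    (u : H) : ∑ i, ‖inner ℂ ((b i : W) : H) u‖ ^ 2 = ‖W.orthogonalProjectionOnto u‖ ^ 2 := by
  rw [← b.sum_sq_norm_inner_right (W.orthogonalProjectionOnto u)]
  refine Finset.sum_congr rfl fun i _ => ?_
  rw [Submodule.inner_orthogonalProjectionOnto_eq_of_mem_left]

private theorem L06_inv {H : Type} [NormedAddCommGroup H] [InnerProductSpace ℂ H]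
    (W : Submodule ℂ H) [FiniteDimensional ℂ W] (T : H ≃ₗᵢ[ℂ] H) (hT : ∀ x ∈ W, T x ∈ W)
    (hT' : ∀ x ∈ W, T.symm x ∈ W) (v : H) :
    ‖W.orthogonalProjectionOnto (T v)‖ = ‖W.orthogonalProjectionOnto v‖ := by
  have h1 : W.orthogonalProjectionOnto (T v) =
      ⟨T (W.orthogonalProjectionOnto v : H), hT _ (W.orthogonalProjectionOnto v).2⟩ := by
    refine ext_inner_left ℂ fun x => ?_
    rw [Submodule.inner_orthogonalProjectionOnto_eq_of_mem_left, Submodule.coe_inner]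
    have e1 : inner ℂ (x : H) (T v) = inner ℂ (T.symm (x : H)) v := by
      rw [← T.inner_map_map (T.symm (x : H)) v, T.apply_symm_apply]
    have e2 : inner ℂ (x : H) (T (W.orthogonalProjectionOnto v : H)) =
        inner ℂ (T.symm (x : H)) (W.orthogonalProjectionOnto v : H) := by
      rw [← T.inner_map_map (T.symm (x : H)) (W.orthogonalProjectionOnto v : H),
        T.apply_symm_apply]
    rw [e1]
    change _ = inner ℂ (x : H) (T (W.orthogonalProjectionOnto v : H))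
    rw [e2]
    have e3 := Submodule.inner_orthogonalProjectionOnto_eq_of_mem_left
      (⟨T.symm (x : H), hT' _ x.2⟩ : W) v
    rw [Submodule.coe_inner] at e3
    exact e3.symm
  rw [h1]
  exact T.norm_map _

/-- the square sum over an orthonormal family with invariant span is invariant -/
private theorem L06_fam {H : Type} [NormedAddCommGroup H] [InnerProductSpace ℂ H] {d : ℕ}
    (v : Fin d → H) (hv : Orthonormal ℂ v) (T : H ≃ₗᵢ[ℂ] H)
    (hT : ∀ j, T (v j) ∈ Submodule.span ℂ (Set.range v))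
    (hT' : ∀ j, T.symm (v j) ∈ Submodule.span ℂ (Set.range v)) (y : H) :
    ∑ j, ‖inner ℂ (v j) (T y)‖ ^ 2 = ∑ j, ‖inner ℂ (v j) y‖ ^ 2 := by
  set W : Submodule ℂ H := Submodule.span ℂ (Set.range v) with hW
  have hfin : FiniteDimensional ℂ W := FiniteDimensional.span_of_finite ℂ (Set.finite_range v)
  have hmem : ∀ j, v j ∈ W := fun j => Submodule.subset_span ⟨j, rfl⟩
  let v' : Fin d → W := fun j => ⟨v j, hmem j⟩
  have hv' : Orthonormal ℂ v' := by
    constructor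
    · intro j
      exact hv.1 j
    · intro i j hij
      exact hv.2 hij
  have hspan : ⊤ ≤ Submodule.span ℂ (Set.range v') := by
    intro x _
    have hx : (x : H) ∈ Submodule.span ℂ (Set.range v) := x.2
    rw [Submodule.mem_span_range_iff_exists_fun] at hx ⊢
    obtain ⟨c, hc⟩ := hx
    refine ⟨c, Subtype.ext ?_⟩
    rw [← hc]
    simp [v']
  let b : OrthonormalBasis (Fin d) ℂ W := OrthonormalBasis.mk hv' hspan
  have hb : ∀ j, ((b j : W) : H) = v j := by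
    intro j
    simp [b, v']
  have hTW : ∀ x ∈ W, T x ∈ W := by
    intro x hx
    have h1 : W ≤ W.comap (T.toLinearEquiv : H →ₗ[ℂ] H) := by
      rw [hW, Submodule.span_le]
      rintro _ ⟨j, rfl⟩
      exact hT j
    exact h1 hx
  have hTW' : ∀ x ∈ W, T.symm x ∈ W := by
    intro x hx
    have h1 : W ≤ W.comap (T.symm.toLinearEquiv : H →ₗ[ℂ] H) := by
      rw [hW, Submodule.span_le]
      rintro _ ⟨j, rfl⟩
      exact hT' j
    exact h1 hx
  have e1 := L06_sum W b (T y)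
  have e2 := L06_sum W b y
  rw [L06_inv W T hTW hTW' y, ← e2] at e1
  simp only [hb] at e1
  exact e1

omit [SecondCountableTopology G] [MeasurableSpace G] [BorelSpace G] [LocallyCompactSpace G]
  [T2Space G] in
/-- the number of indices -/
private theorem L06_count {U U₀ : Set G} (hU : IsCompact U) (hU₀ : U₀ ∈ 𝓝 (1 : G)) :
    ∃ M : ℕ, ∀ (g y : G) (q : ℕ) (k : Fin q → G),
      (∀ i j, i ≠ j → g * k i * (k j)⁻¹ * g⁻¹ ∉ U₀) → ∀ s : Finset (Fin q),
        (∀ i ∈ s, g * k i / y ∈ U) → s.card ≤ M := by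
  classical
  obtain ⟨O, hO, hOO⟩ := exists_nhds_split_inv hU₀
  obtain ⟨t, -, ht⟩ := hU.elim_nhds_subcover (fun z => {x : G | x * z⁻¹ ∈ O}) (fun z _ => by
    have h1 : Continuous fun x : G => x * z⁻¹ := continuous_mul_const z⁻¹
    exact h1.continuousAt.preimage_mem_nhds (by simpa using hO))
  have hz : ∀ x, x ∈ U → ∃ z ∈ t, x * z⁻¹ ∈ O := by
    intro x hx
    have := ht hx
    simpa using this
  choose! zf hzt hzO using hz
  refine ⟨t.card, fun g y q k hk s hs => ?_⟩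
  refine Finset.card_le_card_of_injOn (fun i => zf (g * k i / y)) (fun i hi => hzt _ (hs i hi)) ?_
  intro i hi j hj hij
  by_contra hne
  have h1 := hzO _ (hs i hi)
  have h2 := hzO _ (hs j hj)
  change zf (g * k i / y) = zf (g * k j / y) at hij
  rw [← hij] at h2
  have h3 := hOO _ h1 _ h2
  apply hk i j hne
  have e : g * k i / y * (zf (g * k i / y))⁻¹ / (g * k j / y * (zf (g * k i / y))⁻¹) =
      g * k i * (k j)⁻¹ * g⁻¹ := by
    simp only [div_eq_mul_inv, mul_inv_rev, inv_inv]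
    group
  rwa [e] at h3

private theorem L06_sub (μ : Measure G) [μ.IsHaarMeasure] [μ.IsMulRightInvariant] {U : Set G}
    (hU : IsCompact U) (Φ : G → ℝ) (hΦ : Continuous Φ) (h : G) :
    Integrable (fun y => U.indicator (fun _ => (1 : ℝ)) (h / y) * Φ y) μ ∧
      ∫ x in U, Φ (x⁻¹ * h) ∂μ = ∫ y, U.indicator (fun _ => (1 : ℝ)) (h / y) * Φ y ∂μ := by
  have : μ.IsInvInvariant := isInvInvariant μ
  have hc : Continuous fun x : G => Φ (x⁻¹ * h) := hΦ.comp (continuous_inv.mul continuous_const)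
  have hi : Integrable (U.indicator fun x => Φ (x⁻¹ * h)) μ :=
    (hc.continuousOn.integrableOn_compact hU).integrable_indicator hU.measurableSet
  have e : ∀ y, (U.indicator fun x => Φ (x⁻¹ * h)) (h / y) =
      U.indicator (fun _ => (1 : ℝ)) (h / y) * Φ y := by
    intro y
    by_cases hy : h / y ∈ U
    · rw [Set.indicator_of_mem hy, Set.indicator_of_mem hy, one_mul]
      rw [inv_div, div_mul_cancel]
    · rw [Set.indicator_of_notMem hy, Set.indicator_of_notMem hy, zero_mul]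
  constructor
  · refine (hi.comp_div_left h).congr (Eventually.of_forall fun y => e y)
  · rw [← integral_indicator hU.measurableSet, ← integral_div_left_eq_self _ μ h]
    exact integral_congr_ae (Eventually.of_forall fun y => e y)

theorem square_dl (L : LieData N G) (B : Bases L) (π : G →* (H ≃ₗᵢ[ℂ] H))
    (A : LieRep N (KFin L π)) (hP : IsPkg L π A) (μ : Measure G) [μ.IsHaarMeasure]
    [μ.IsMulRightInvariant] (ht : Tempered L π μ) :
    ∃ a : ℝ, 0 ≤ a ∧ ∀ w ∈ KFin L π, ∀ ε : ℝ, 0 < ε → ε ≤ 1 → ∃ C : ℝ, 0 < C ∧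
      ∀ lam : ℝ, 1 ≤ lam → ∀ (d : ℕ) (v : Fin d → KFin L π), Orthonormal ℂ v →
        (∀ j, v j ∈ A.eig lam) →
        (∀ k ∈ L.K, ∀ j, ∃ x ∈ Submodule.span ℂ (Set.range v), (x : H) = π k ((v j : KFin L π) : H)) →
        ∀ g : G, ∑ j, ‖mc π w ((v j : KFin L π) : H) g‖ ^ 2 ≤
          C * d * (lam ^ (a * ε) * Th L g ^ ε / dl B g) := by
  classical
  obtain ⟨a₁, ha₁, hch⟩ := A.chain_sob hP.adm
  refine ⟨2 * a₁, by positivity, fun w hw ε hε hε1 => ?_⟩
  obtain ⟨d0, w', hw'K, hw'o, hspan, hKinv, U, hU, C₁, hC₁, hsm⟩ := smoothing L π A hP μ w hw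
  have hne : ∀ i, w' i ≠ 0 := hw'o.ne_zero
  have hBf : ∀ i, ∃ C : ℝ, 1 ≤ C ∧ ∀ R : ℝ, 1 ≤ R → ∀ v ∈ A.low R,
      (Bf L π μ ε (w' i) v v).re ≤ C * R ^ (a₁ * (2 * ε)) * ‖v‖ ^ 2 := fun i => by
    obtain ⟨C, hC, -, h⟩ := hch (2 * ε) (by positivity) _
      (almostInv L π A hP μ ht hε (hw'K i) (hne i))
    exact ⟨C, hC, h⟩
  choose Cb hCb1 hCb using hBf
  obtain ⟨C₃, hC₃1, hC₃⟩ : ∃ C₃ : ℝ, 1 ≤ C₃ ∧ ∀ x ∈ U, Th L x ≤ C₃ := by
    obtain ⟨b, hb⟩ := (hU.image (Th_cont L)).bddAbove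
    exact ⟨max b 1, le_max_right _ _, fun x hx => (hb ⟨x, hx, rfl⟩).trans (le_max_left _ _)⟩
  obtain ⟨U₀, hU₀, c, hc, hpack⟩ := packing L B
  obtain ⟨M, hM⟩ := L06_count hU hU₀
  obtain ⟨cw, hcw⟩ := (Submodule.mem_span_range_iff_exists_fun ℂ).1 hspan
  set Cw : ℝ := ∑ i, ‖cw i‖ ^ 2 with hCw
  have hCw0 : 0 ≤ Cw := Finset.sum_nonneg fun i _ => sq_nonneg _
  set C₂ : ℝ := ∑ i, Cb i with hC₂
  have hC₂0 : 0 ≤ C₂ := Finset.sum_nonneg fun i _ => zero_le_one.trans (hCb1 i)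
  have hThpos : ∀ g, 0 < Th L g := fun g => lt_of_lt_of_le one_pos (one_le_Th L g)
  have hdlpos : ∀ g, 0 < dl B g := by
    obtain ⟨c', hc', κ, -, h⟩ := dl_ge B
    intro g
    exact lt_of_lt_of_le (mul_pos hc' (Real.rpow_pos_of_pos (hThpos g) _)) (h g)
  have hwF : ∀ y : H, ‖inner ℂ w y‖ ^ 2 ≤ Cw * ∑ i, ‖inner ℂ (w' i) y‖ ^ 2 := by
    intro y
    have e1 : inner ℂ w y = ∑ i, (starRingEnd ℂ) (cw i) * inner ℂ (w' i) y := by
      rw [← hcw, sum_inner]
      refine Finset.sum_congr rfl fun i _ => ?_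
      rw [inner_smul_left]
    have e2 : ‖inner ℂ w y‖ ≤ ∑ i, ‖cw i‖ * ‖inner ℂ (w' i) y‖ := by
      rw [e1]
      refine (norm_sum_le _ _).trans (Finset.sum_le_sum fun i _ => ?_)
      rw [norm_mul, RCLike.norm_conj]
    calc ‖inner ℂ w y‖ ^ 2 ≤ (∑ i, ‖cw i‖ * ‖inner ℂ (w' i) y‖) ^ 2 :=
          pow_le_pow_left₀ (norm_nonneg _) e2 2
      _ ≤ _ := Finset.sum_mul_sq_le_sq_mul_sq _ _ _
  set K₁ : ℝ := C₁ * (M * C₃ ^ ε) * C₂ / c with hK₁
  have hC₃ε : 0 ≤ C₃ ^ ε := Real.rpow_nonneg (zero_le_one.trans hC₃1) _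
  have hK₁0 : 0 ≤ K₁ := by positivity
  refine ⟨Cw * K₁ + 1, by positivity, ?_⟩
  intro lam hlam d v hvo hveig hvK g
  have hlam0 : 0 < lam := lt_of_lt_of_le one_pos hlam
  set Φ : G → ℝ := fun h => ∑ j, Fw π w' ((v j : KFin L π) : H) h with hΦ
  have hFcont : ∀ y : H, Continuous (Fw π w' y) := by
    intro y
    unfold Fw mc
    refine continuous_finsetSum _ fun i _ => ?_
    exact ((continuous_const.inner (hP.cont y)).norm).pow 2
  have hΦc : Continuous Φ := continuous_finsetSum _ fun j _ => hFcont _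
  have hΦ0 : ∀ h, 0 ≤ Φ h := fun h =>
    Finset.sum_nonneg fun j _ => Finset.sum_nonneg fun i _ => sq_nonneg _
  -- invariance
  have hvoH : Orthonormal ℂ (fun j => ((v j : KFin L π) : H)) := by
    constructor
    · intro j
      exact hvo.1 j
    · intro i j hij
      exact hvo.2 hij
  have hvspan : ∀ k ∈ L.K, ∀ j, π k ((v j : KFin L π) : H) ∈
      Submodule.span ℂ (Set.range fun j => ((v j : KFin L π) : H)) := by
    intro k hk j
    obtain ⟨x, hx, hxe⟩ := hvK k hk j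
    rw [← hxe]
    rw [Submodule.mem_span_range_iff_exists_fun] at hx ⊢
    obtain ⟨cc, hcc⟩ := hx
    refine ⟨cc, ?_⟩
    rw [← hcc]
    simp
  have hΦK : ∀ k ∈ L.K, ∀ h, Φ (h * k) = Φ h := by
    intro k hk h
    have e1 : ∀ h, Φ h = ∑ i, ∑ j, ‖inner ℂ ((v j : KFin L π) : H) (π h⁻¹ (w' i))‖ ^ 2 := by
      intro h
      simp only [hΦ, Fw, mc]
      rw [Finset.sum_comm]
      refine Finset.sum_congr rfl fun i _ => Finset.sum_congr rfl fun j _ => ?_
      have e2 : inner ℂ (w' i) (π h ((v j : KFin L π) : H)) =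
          inner ℂ (π h⁻¹ (w' i)) ((v j : KFin L π) : H) := by
        rw [← (π h).inner_map_map (π h⁻¹ (w' i)) ((v j : KFin L π) : H)]
        congr 1
        change w' i = (π h * π h⁻¹) (w' i)
        rw [← map_mul, mul_inv_cancel, map_one]
        rfl
      rw [e2, norm_inner_symm]
    rw [e1, e1]
    refine Finset.sum_congr rfl fun i _ => ?_
    have e3 : π (h * k)⁻¹ (w' i) = π k⁻¹ (π h⁻¹ (w' i)) := by
      rw [mul_inv_rev, map_mul]
      rfl
    rw [e3]
    refine L06_fam _ hvoH (π k⁻¹) (fun j => hvspan _ (L.K.inv_mem hk) j) (fun j => ?_) _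
    have e4 : (π k⁻¹).symm = π k := by
      ext x
      rw [LinearIsometryEquiv.symm_apply_eq]
      change x = (π k⁻¹ * π k) x
      rw [← map_mul, inv_mul_cancel, map_one]
      rfl
    rw [e4]
    exact hvspan k hk j
  -- smoothing of the sum
  have hsmΦ : ∀ h, Φ h ≤ C₁ * ∫ x in U, Φ (x⁻¹ * h) ∂μ := by
    intro h
    have e1 : ∫ x in U, Φ (x⁻¹ * h) ∂μ =
        ∑ j, ∫ x in U, Fw π w' ((v j : KFin L π) : H) (x⁻¹ * h) ∂μ := by
      simp only [hΦ]
      rw [integral_finsetSum]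
      intro j _
      have hcj : Continuous fun x : G => Fw π w' ((v j : KFin L π) : H) (x⁻¹ * h) :=
        (hFcont _).comp (continuous_inv.mul continuous_const)
      exact hcj.continuousOn.integrableOn_compact hU
    rw [e1, Finset.mul_sum]
    exact Finset.sum_le_sum fun j _ => hsm _ h
  -- the weighted integral
  have hint : ∀ (i : Fin d0) (j : Fin d), Integrable
      (fun g => Th L g ^ (-ε) * ‖mc π (w' i) ((v j : KFin L π) : H) g‖ ^ 2) μ := by
    intro i j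
    refine (Bf_integrable_norm L π A hP μ ht hε (hw'K i) (v j) (v j)).congr
      (Eventually.of_forall fun g => ?_)
    simp only
    ring
  have hΦe : (fun y => Th L y ^ (-ε) * Φ y) =
      fun y => ∑ j, ∑ i, Th L y ^ (-ε) * ‖mc π (w' i) ((v j : KFin L π) : H) y‖ ^ 2 := by
    funext y
    simp only [hΦ, Fw]
    rw [Finset.mul_sum]
    refine Finset.sum_congr rfl fun j _ => ?_
    rw [Finset.mul_sum]
  have hΦint : Integrable (fun y => Th L y ^ (-ε) * Φ y) μ := by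
    rw [hΦe]
    exact integrable_finsetSum _ fun j _ => integrable_finsetSum _ fun i _ => hint i j
  have hΦval : ∫ y, Th L y ^ (-ε) * Φ y ∂μ ≤ d * (C₂ * lam ^ (2 * a₁ * ε)) := by
    rw [hΦe, integral_finsetSum _ fun j _ => integrable_finsetSum _ fun i _ => hint i j]
    calc _ ≤ ∑ _j : Fin d, C₂ * lam ^ (2 * a₁ * ε) := by
          refine Finset.sum_le_sum fun j _ => ?_
          rw [integral_finsetSum _ fun i _ => hint i j, hC₂, Finset.sum_mul]
          refine Finset.sum_le_sum fun i _ => ?_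
          have h1 := hCb i lam hlam (v j) (A.eig_le_low le_rfl (hveig j))
          rw [Bf_self L π A hP μ ht hε (hw'K i) (v j), Complex.ofReal_re] at h1
          have h2 : ‖v j‖ = 1 := hvo.1 j
          rw [h2, one_pow, mul_one] at h1
          have h3 : a₁ * (2 * ε) = 2 * a₁ * ε := by ring
          rwa [h3] at h1
      _ = d * (C₂ * lam ^ (2 * a₁ * ε)) := by
          rw [Finset.sum_const, Finset.card_univ, Fintype.card_fin, nsmul_eq_mul]
  -- packing
  obtain ⟨q, k, hkK, hq, hkU⟩ := hpack g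
  have hmain : (q : ℝ) * Φ g ≤ C₁ * (M * C₃ ^ ε * Th L g ^ ε * ∫ y, Th L y ^ (-ε) * Φ y ∂μ) := by
    have e1 : (q : ℝ) * Φ g = ∑ i : Fin q, Φ (g * k i) := by
      rw [Finset.sum_congr rfl fun i _ => hΦK (k i) (hkK i) g, Finset.sum_const, Finset.card_univ,
        Fintype.card_fin, nsmul_eq_mul]
    have e2 : ∀ i : Fin q, Φ (g * k i) ≤ C₁ *
        ∫ y, U.indicator (fun _ => (1 : ℝ)) (g * k i / y) * Φ y ∂μ := by
      intro i
      rw [← (L06_sub μ hU Φ hΦc (g * k i)).2]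
      exact hsmΦ _
    rw [e1]
    refine (Finset.sum_le_sum fun i _ => e2 i).trans ?_
    rw [← Finset.mul_sum]
    refine mul_le_mul_of_nonneg_left ?_ hC₁
    rw [← integral_finsetSum _ fun i _ => (L06_sub μ hU Φ hΦc (g * k i)).1, ← integral_const_mul]
    refine integral_mono (integrable_finsetSum _ fun i _ => (L06_sub μ hU Φ hΦc (g * k i)).1)
      (hΦint.const_mul _) fun y => ?_
    show ∑ i : Fin q, U.indicator (fun _ => (1 : ℝ)) (g * k i / y) * Φ y ≤
      M * C₃ ^ ε * Th L g ^ ε * (Th L y ^ (-ε) * Φ y)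
    rw [← Finset.sum_mul]
    set S : Finset (Fin q) := Finset.univ.filter fun i => g * k i / y ∈ U with hS
    have e3 : ∑ i : Fin q, U.indicator (fun _ => (1 : ℝ)) (g * k i / y) = (S.card : ℝ) := by
      simp only [Set.indicator_apply]
      rw [Finset.sum_ite, Finset.sum_const_zero, add_zero, Finset.sum_const, nsmul_eq_mul, mul_one]
    rw [e3]
    have e4 : (S.card : ℝ) ≤ M := by
      have := hM g y q k hkU S (fun i hi => (Finset.mem_filter.1 hi).2)
      exact_mod_cast this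
    have e5 : (S.card : ℝ) ≤ M * C₃ ^ ε * Th L g ^ ε * Th L y ^ (-ε) := by
      rcases S.eq_empty_or_nonempty with h0 | ⟨i, hi⟩
      · rw [h0, Finset.card_empty, Nat.cast_zero]
        have := Real.rpow_nonneg (hThpos g).le ε
        have := Real.rpow_nonneg (hThpos y).le (-ε)
        positivity
      · have hiU : g * k i / y ∈ U := (Finset.mem_filter.1 hi).2
        have h1 : Th L y ≤ C₃ * Th L g := by
          have h2 : y = (g * k i / y)⁻¹ * (g * k i) := by rw [inv_div, div_mul_cancel]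
          calc Th L y = Th L ((g * k i / y)⁻¹ * (g * k i)) := by rw [← h2]
            _ ≤ Th L (g * k i / y)⁻¹ * Th L (g * k i) := Th_mul_le L _ _
            _ = Th L (g * k i / y) * Th L g := by rw [Th_inv, Th_K_right L (hkK i)]
            _ ≤ C₃ * Th L g := mul_le_mul_of_nonneg_right (hC₃ _ hiU) (hThpos g).le
        have h3 : 1 ≤ C₃ ^ ε * Th L g ^ ε * Th L y ^ (-ε) := by
          rw [← Real.mul_rpow (zero_le_one.trans hC₃1) (hThpos g).le, Real.rpow_neg (hThpos y).le,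
            ← div_eq_mul_inv, one_le_div (Real.rpow_pos_of_pos (hThpos y) _)]
          exact Real.rpow_le_rpow (hThpos y).le h1 hε.le
        calc (S.card : ℝ) ≤ M := e4
          _ ≤ M * (C₃ ^ ε * Th L g ^ ε * Th L y ^ (-ε)) := le_mul_of_one_le_right (by positivity) h3
          _ = _ := by ring
    calc (S.card : ℝ) * Φ y ≤ (M * C₃ ^ ε * Th L g ^ ε * Th L y ^ (-ε)) * Φ y :=
          mul_le_mul_of_nonneg_right e5 (hΦ0 y)
      _ = _ := by ring
  -- conclusion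
  have hThg : 0 ≤ Th L g ^ ε := Real.rpow_nonneg (hThpos g).le _
  have hlamε : 0 ≤ lam ^ (2 * a₁ * ε) := Real.rpow_nonneg hlam0.le _
  have hfin : Φ g ≤ K₁ * (d * (lam ^ (2 * a₁ * ε) * Th L g ^ ε / dl B g)) := by
    have h1 : c * dl B g * Φ g ≤ (q : ℝ) * Φ g := mul_le_mul_of_nonneg_right hq (hΦ0 g)
    have h2 : c * dl B g * Φ g ≤
        C₁ * (M * C₃ ^ ε * Th L g ^ ε * (d * (C₂ * lam ^ (2 * a₁ * ε)))) := by
      refine (h1.trans hmain).trans (mul_le_mul_of_nonneg_left ?_ hC₁)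
      exact mul_le_mul_of_nonneg_left hΦval (by positivity)
    have hcd : 0 < c * dl B g := mul_pos hc (hdlpos g)
    have h3 : Φ g ≤ C₁ * (M * C₃ ^ ε * Th L g ^ ε * (d * (C₂ * lam ^ (2 * a₁ * ε)))) /
        (c * dl B g) := by
      rw [le_div_iff₀ hcd]
      linarith
    refine h3.trans (le_of_eq ?_)
    rw [hK₁]
    have := (hdlpos g).ne'
    have := hc.ne'
    field_simp
  have hX : 0 ≤ (d : ℝ) * (lam ^ (2 * a₁ * ε) * Th L g ^ ε / dl B g) := by
    have := (hdlpos g).le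
    positivity
  calc ∑ j, ‖mc π w ((v j : KFin L π) : H) g‖ ^ 2 ≤
        ∑ j, Cw * Fw π w' ((v j : KFin L π) : H) g := Finset.sum_le_sum fun j _ => hwF _
    _ = Cw * Φ g := by rw [← Finset.mul_sum]
    _ ≤ Cw * (K₁ * (d * (lam ^ (2 * a₁ * ε) * Th L g ^ ε / dl B g))) :=
        mul_le_mul_of_nonneg_left hfin hCw0
    _ ≤ Cw * (K₁ * (d * (lam ^ (2 * a₁ * ε) * Th L g ^ ε / dl B g))) +
        (d : ℝ) * (lam ^ (2 * a₁ * ε) * Th L g ^ ε / dl B g) := le_add_of_nonneg_right hX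
    _ = (Cw * K₁ + 1) * d * (lam ^ (2 * a₁ * ε) * Th L g ^ ε / dl B g) := by ring

end SBD
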