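import Mathlib

/-!
# Row SBX-L07 : Khintchine's inequality for all exponents

For real `r > 0` there is `C` with `2^{-d}∑_σ ‖∑ ±a_j‖^r ≤ C (∑‖a_j‖²)^{r/2}` for all complex `a_j`.

PROOF.  Real case, `S_σ = ∑±a_j`, `A² = ∑a_j² > 0` (if `A = 0` trivial): `2^{-d}∑_σ e^{tS_σ} = ∏cosh(ta_j) ≤
e^{t²A²/2}` (`Real.cosh_le_exp_half_sq`), so with `t = 1/A`, `2^{-d}∑(e^{S/A} + e^{-S/A}) ≤ 2e^{1/2}`, and
`|x|^r ≤ C_r(e^x + e^{-x})`.  Complex case: `‖S‖^r ≤ 2^r(|Re S|^r + |Im S|^r)` (up to the constant), real case for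
`Re a_j` and `Im a_j`.
-/

open MeasureTheory Filter Topology
open scoped ENNReal NNReal Matrix

noncomputable section

namespace SBX

private theorem L07_pow_le_exp (r : ℝ) (hr : 0 < r) (x : ℝ) :
    |x| ^ r ≤ (Nat.factorial ⌈r⌉₊ : ℝ) * (Real.exp x + Real.exp (-x)) := by
  have hfac : (1 : ℝ) ≤ (Nat.factorial ⌈r⌉₊ : ℝ) := by
    exact_mod_cast Nat.one_le_iff_ne_zero.mpr (Nat.factorial_ne_zero _)
  have h1 : Real.exp |x| ≤ Real.exp x + Real.exp (-x) := by
    rcases le_total 0 x with h | h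
    · rw [abs_of_nonneg h]; have := Real.exp_pos (-x); linarith
    · rw [abs_of_nonpos h]; have := Real.exp_pos x; linarith
  have h2 : |x| ^ r ≤ (Nat.factorial ⌈r⌉₊ : ℝ) * Real.exp |x| := by
    rcases le_total |x| 1 with h | h
    · have h3 : |x| ^ r ≤ 1 := Real.rpow_le_one (abs_nonneg _) h hr.le
      have h4 : (1 : ℝ) ≤ Real.exp |x| := Real.one_le_exp (abs_nonneg _)
      nlinarith
    · have h3 : |x| ^ r ≤ |x| ^ (⌈r⌉₊ : ℝ) :=
        Real.rpow_le_rpow_of_exponent_le h (Nat.le_ceil r)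
      rw [Real.rpow_natCast] at h3
      have h4 := Real.pow_div_factorial_le_exp |x| (abs_nonneg _) ⌈r⌉₊
      rw [div_le_iff₀ (by positivity)] at h4
      linarith
  calc |x| ^ r ≤ (Nat.factorial ⌈r⌉₊ : ℝ) * Real.exp |x| := h2
    _ ≤ _ := mul_le_mul_of_nonneg_left h1 (by positivity)

private theorem L07_sum_exp (d : ℕ) (a : Fin d → ℝ) :
    ∑ σ : Fin d → Bool, Real.exp (∑ j, (if σ j then a j else -a j)) ≤
      2 ^ d * Real.exp ((∑ j, a j ^ 2) / 2) := by
  have h1 : ∑ σ : Fin d → Bool, Real.exp (∑ j, (if σ j then a j else -a j))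
      = ∏ j : Fin d, (∑ b : Bool, Real.exp (if b then a j else -a j)) := by
    rw [Finset.prod_univ_sum]
    rw [Fintype.piFinset_univ]
    refine Finset.sum_congr rfl fun σ _ => ?_
    rw [Real.exp_sum]
  rw [h1]
  have h2 : ∀ j : Fin d, (∑ b : Bool, Real.exp (if b then a j else -a j)) ≤
      2 * Real.exp (a j ^ 2 / 2) := by
    intro j
    have h3 := Real.cosh_le_exp_half_sq (a j)
    rw [Real.cosh_eq] at h3
    simp only [Fintype.sum_bool, if_true]
    simp only [Bool.false_eq_true, if_false]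
    linarith
  calc ∏ j : Fin d, (∑ b : Bool, Real.exp (if b then a j else -a j))
      ≤ ∏ j : Fin d, (2 * Real.exp (a j ^ 2 / 2)) := by
        refine Finset.prod_le_prod (fun j _ => ?_) (fun j _ => h2 j)
        exact Finset.sum_nonneg fun b _ => (Real.exp_pos _).le
    _ = 2 ^ d * Real.exp ((∑ j, a j ^ 2) / 2) := by
        rw [Finset.prod_mul_distrib, ← Real.exp_sum, Finset.sum_div]
        simp

private theorem L07_real (r : ℝ) (hr : 0 < r) (d : ℕ) (a : Fin d → ℝ) :
    ∑ σ : Fin d → Bool, |∑ j, (if σ j then a j else -a j)| ^ r ≤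
      ((Nat.factorial ⌈r⌉₊ : ℝ) * (2 * Real.exp (1 / 2))) * 2 ^ d * (∑ j, a j ^ 2) ^ (r / 2) := by
  set S : ℝ := ∑ j, a j ^ 2 with hS
  have hS0 : 0 ≤ S := Finset.sum_nonneg fun j _ => sq_nonneg _
  rcases eq_or_lt_of_le hS0 with h0 | hpos
  · have hz : ∀ j, a j = 0 := by
      intro j
      have h1 : ∑ j, a j ^ 2 = 0 := by rw [← hS]; exact h0.symm
      rw [Finset.sum_eq_zero_iff_of_nonneg (fun j _ => sq_nonneg _)] at h1
      have := h1 j (Finset.mem_univ _)
      exact pow_eq_zero_iff (two_ne_zero) |>.mp this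
    have h2 : ∀ σ : Fin d → Bool, |∑ j, (if σ j then a j else -a j)| ^ r = 0 := by
      intro σ
      have : ∑ j, (if σ j then a j else -a j) = 0 := by
        refine Finset.sum_eq_zero fun j _ => ?_
        rw [hz j]; simp
      rw [this, abs_zero, Real.zero_rpow hr.ne']
    rw [Finset.sum_congr rfl (fun σ _ => h2 σ)]
    simp only [Finset.sum_const_zero]
    positivity
  · set A : ℝ := Real.sqrt S with hA
    have hApos : 0 < A := Real.sqrt_pos.mpr hpos
    have hAsq : A ^ 2 = S := Real.sq_sqrt hS0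
    have hAr : A ^ r = S ^ (r / 2) := by
      rw [hA, Real.sqrt_eq_rpow, ← Real.rpow_mul hS0]; congr 1; ring
    have key : ∀ σ : Fin d → Bool, |∑ j, (if σ j then a j else -a j)| ^ r ≤
        A ^ r * ((Nat.factorial ⌈r⌉₊ : ℝ) *
          (Real.exp (∑ j, (if σ j then (a j / A) else -(a j / A))) +
           Real.exp (∑ j, (if σ j then (-(a j / A)) else -(-(a j / A)))))) := by
      intro σ
      have e1 : ∑ j, (if σ j then (a j / A) else -(a j / A)) =
          (∑ j, (if σ j then a j else -a j)) / A := by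
        rw [Finset.sum_div]
        refine Finset.sum_congr rfl fun j _ => ?_
        split_ifs <;> ring
      have e2 : ∑ j, (if σ j then (-(a j / A)) else -(-(a j / A))) =
          -((∑ j, (if σ j then a j else -a j)) / A) := by
        rw [← e1, ← Finset.sum_neg_distrib]
        refine Finset.sum_congr rfl fun j _ => ?_
        split_ifs <;> ring
      rw [e1, e2]
      set T := ∑ j, (if σ j then a j else -a j) with hT
      have h3 := L07_pow_le_exp r hr (T / A)
      have h4 : |T| ^ r = A ^ r * |T / A| ^ r := by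
        rw [abs_div, abs_of_pos hApos, Real.div_rpow (abs_nonneg _) hApos.le]
        field_simp
      rw [h4]
      exact mul_le_mul_of_nonneg_left h3 (by positivity)
    have hsum : (∑ j, (a j / A) ^ 2) = 1 := by
      have : ∑ j, (a j / A) ^ 2 = S / A ^ 2 := by
        rw [hS, Finset.sum_div]
        refine Finset.sum_congr rfl fun j _ => ?_
        rw [div_pow]
      rw [this, hAsq, div_self hpos.ne']
    have hsum' : (∑ j, (-(a j / A)) ^ 2) = 1 := by
      rw [← hsum]
      refine Finset.sum_congr rfl fun j _ => ?_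
      ring
    have b1 := L07_sum_exp d (fun j => a j / A)
    have b2 := L07_sum_exp d (fun j => -(a j / A))
    rw [hsum] at b1
    rw [hsum'] at b2
    calc ∑ σ : Fin d → Bool, |∑ j, (if σ j then a j else -a j)| ^ r
        ≤ ∑ σ : Fin d → Bool, A ^ r * ((Nat.factorial ⌈r⌉₊ : ℝ) *
          (Real.exp (∑ j, (if σ j then (a j / A) else -(a j / A))) +
           Real.exp (∑ j, (if σ j then (-(a j / A)) else -(-(a j / A)))))) :=
          Finset.sum_le_sum fun σ _ => key σ
      _ = A ^ r * ((Nat.factorial ⌈r⌉₊ : ℝ) *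
          ((∑ σ : Fin d → Bool, Real.exp (∑ j, (if σ j then (a j / A) else -(a j / A)))) +
           ∑ σ : Fin d → Bool,
            Real.exp (∑ j, (if σ j then (-(a j / A)) else -(-(a j / A)))))) := by
          rw [← Finset.mul_sum, ← Finset.mul_sum, Finset.sum_add_distrib]
      _ ≤ A ^ r * ((Nat.factorial ⌈r⌉₊ : ℝ) *
          (2 ^ d * Real.exp (1 / 2) + 2 ^ d * Real.exp (1 / 2))) := by
          refine mul_le_mul_of_nonneg_left ?_ (by positivity)
          refine mul_le_mul_of_nonneg_left ?_ (by positivity)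
          exact add_le_add b1 b2
      _ = ((Nat.factorial ⌈r⌉₊ : ℝ) * (2 * Real.exp (1 / 2))) * 2 ^ d * S ^ (r / 2) := by
          rw [hAr]; ring

private theorem L07_add_rpow (r : ℝ) (hr : 0 < r) (x y : ℝ) (hx : 0 ≤ x) (hy : 0 ≤ y) :
    (x + y) ^ r ≤ 2 ^ r * (x ^ r + y ^ r) := by
  have h1 : x + y ≤ 2 * max x y := by
    have := le_max_left x y; have := le_max_right x y; linarith
  calc (x + y) ^ r ≤ (2 * max x y) ^ r := Real.rpow_le_rpow (by positivity) h1 hr.le
    _ = 2 ^ r * (max x y) ^ r := Real.mul_rpow (by norm_num) (le_max_of_le_left hx)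
    _ ≤ 2 ^ r * (x ^ r + y ^ r) := by
        refine mul_le_mul_of_nonneg_left ?_ (by positivity)
        rcases le_total x y with h | h
        · rw [max_eq_right h]; have := Real.rpow_nonneg hx r; linarith
        · rw [max_eq_left h]; have := Real.rpow_nonneg hy r; linarith

theorem khintchine (r : ℝ) (hr : 0 < r) : ∃ C : ℝ, 0 < C ∧ ∀ (d : ℕ) (a : Fin d → ℂ),
    ∑ σ : Fin d → Bool, ‖∑ j, (if σ j then a j else -a j)‖ ^ r ≤
      C * 2 ^ d * (∑ j, ‖a j‖ ^ 2) ^ (r / 2) := by
  set K : ℝ := (Nat.factorial ⌈r⌉₊ : ℝ) * (2 * Real.exp (1 / 2)) with hK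
  have hKpos : 0 < K := by positivity
  refine ⟨2 ^ r * (K + K), by positivity, fun d a => ?_⟩
  have h1 := L07_real r hr d (fun j => (a j).re)
  have h2 := L07_real r hr d (fun j => (a j).im)
  have hre : (∑ j, (a j).re ^ 2) ≤ ∑ j, ‖a j‖ ^ 2 := by
    refine Finset.sum_le_sum fun j _ => ?_
    rw [← sq_abs (a j).re]
    exact pow_le_pow_left₀ (abs_nonneg _) (Complex.abs_re_le_norm _) 2
  have him : (∑ j, (a j).im ^ 2) ≤ ∑ j, ‖a j‖ ^ 2 := by
    refine Finset.sum_le_sum fun j _ => ?_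
    rw [← sq_abs (a j).im]
    exact pow_le_pow_left₀ (abs_nonneg _) (Complex.abs_im_le_norm _) 2
  have hre' : (∑ j, (a j).re ^ 2) ^ (r / 2) ≤ (∑ j, ‖a j‖ ^ 2) ^ (r / 2) :=
    Real.rpow_le_rpow (Finset.sum_nonneg fun j _ => sq_nonneg _) hre (by positivity)
  have him' : (∑ j, (a j).im ^ 2) ^ (r / 2) ≤ (∑ j, ‖a j‖ ^ 2) ^ (r / 2) :=
    Real.rpow_le_rpow (Finset.sum_nonneg fun j _ => sq_nonneg _) him (by positivity)
  have key : ∀ σ : Fin d → Bool, ‖∑ j, (if σ j then a j else -a j)‖ ^ r ≤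
      2 ^ r * (|∑ j, (if σ j then (a j).re else -(a j).re)| ^ r +
        |∑ j, (if σ j then (a j).im else -(a j).im)| ^ r) := by
    intro σ
    have e1 : (∑ j, (if σ j then a j else -a j)).re =
        ∑ j, (if σ j then (a j).re else -(a j).re) := by
      rw [Complex.re_sum]
      refine Finset.sum_congr rfl fun j _ => ?_
      split_ifs <;> simp
    have e2 : (∑ j, (if σ j then a j else -a j)).im =
        ∑ j, (if σ j then (a j).im else -(a j).im) := by
      rw [Complex.im_sum]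
      refine Finset.sum_congr rfl fun j _ => ?_
      split_ifs <;> simp
    rw [← e1, ← e2]
    refine le_trans ?_ (L07_add_rpow r hr _ _ (abs_nonneg _) (abs_nonneg _))
    exact Real.rpow_le_rpow (norm_nonneg _) (Complex.norm_le_abs_re_add_abs_im _) hr.le
  calc ∑ σ : Fin d → Bool, ‖∑ j, (if σ j then a j else -a j)‖ ^ r
      ≤ ∑ σ : Fin d → Bool, 2 ^ r * (|∑ j, (if σ j then (a j).re else -(a j).re)| ^ r +
        |∑ j, (if σ j then (a j).im else -(a j).im)| ^ r) := Finset.sum_le_sum fun σ _ => key σ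
    _ = 2 ^ r * ((∑ σ : Fin d → Bool, |∑ j, (if σ j then (a j).re else -(a j).re)| ^ r) +
        ∑ σ : Fin d → Bool, |∑ j, (if σ j then (a j).im else -(a j).im)| ^ r) := by
        rw [← Finset.mul_sum, Finset.sum_add_distrib]
    _ ≤ 2 ^ r * (K * 2 ^ d * (∑ j, (a j).re ^ 2) ^ (r / 2) +
        K * 2 ^ d * (∑ j, (a j).im ^ 2) ^ (r / 2)) := by
        refine mul_le_mul_of_nonneg_left (add_le_add h1 h2) (by positivity)
    _ ≤ 2 ^ r * (K * 2 ^ d * (∑ j, ‖a j‖ ^ 2) ^ (r / 2) +
        K * 2 ^ d * (∑ j, ‖a j‖ ^ 2) ^ (r / 2)) := by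
        refine mul_le_mul_of_nonneg_left ?_ (by positivity)
        exact add_le_add (mul_le_mul_of_nonneg_left hre' (by positivity))
          (mul_le_mul_of_nonneg_left him' (by positivity))
    _ = 2 ^ r * (K + K) * 2 ^ d * (∑ j, ‖a j‖ ^ 2) ^ (r / 2) := by ring

end SBX
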