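import Pool.Agent.SBX.V01

/-!
# Row SBX-V06 : a maximal abelian subspace of `𝔭`

For `X ∈ 𝔭 = {X ∈ 𝔤 : Xᵀ = X}` let `C(X) = {Y ∈ 𝔭 : XY = YX}`.  Let `H₀ ∈ 𝔭` with `dim C(H₀)` minimal and
`𝔞 = C(H₀)`.
(1) `𝔞` is abelian: let `Y ∈ C(H₀)`.  Consider the symmetric operators `ad H₀`, `ad Y` on `𝔤` (`adM_t`), which
commute.  For all but finitely many real `s` `ker(ad H₀ + s ad Y) = ker ad H₀ ∩ ker ad Y` (commuting symmetric
matrices are simultaneously diagonalisable, eigenvalue pairs `(α_i, β_i)`: `α_i + sβ_i = 0` only if both are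
`0`, except for finitely many `s`; or: `ker(ad H₀ + s ad Y)` are, for different `s`, … ).  So
`C(H₀ + sY) = C(H₀) ∩ C(Y)`, and by minimality `dim C(H₀) ≤ dim (C(H₀) ∩ C(Y))`, so `C(H₀) ⊆ C(Y)`.
As `Y ∈ C(H₀)` was arbitrary, `C(H₀)` is abelian.
(2) Let `X ∈ 𝔭`; the continuous function `f(k) = fip(ι(k)Xι(k⁻¹), H₀)` on the compact `K` (P01) has a maximum
`k`; put `X' = ι(k)Xι(k⁻¹) ∈ 𝔭` (`ad_mem`, `ad_K_t`).  For `Z ∈ 𝔨`: `e(tZ)k ∈ K` and
`d/dt|₀ fip(exp(tZ)X'exp(-tZ), H₀) = fip([Z,X'],H₀) = 0`.  `fip([Z,X'],H₀) = -fip([X',Z],H₀) =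
-fip(Z,[X',H₀])` (`fip_ad`, `X'ᵀ = X'`, symmetric).  `[X',H₀] ∈ 𝔨` (skew, in `𝔤`), take `Z = [X',H₀]`:
`fsq [X',H₀] = 0`, so `X' ∈ C(H₀) = 𝔞`.
-/

open MeasureTheory Filter Topology
open scoped ENNReal NNReal Matrix

noncomputable section

namespace SBD

variable {N : ℕ} {G : Type} [Group G] [TopologicalSpace G] [IsTopologicalGroup G]
  [LocallyCompactSpace G] [T2Space G]

/-- symmetric elements of the Lie algebra commuting with `X` -/
def V06_C (L : LieData N G) (X : Mat N) : Submodule ℝ (Mat N) where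
  carrier := {Y | Y ∈ L.𝔤 ∧ Yᵀ = Y ∧ X * Y = Y * X}
  add_mem' := by
    rintro Y Z ⟨h1, h2, h3⟩ ⟨h4, h5, h6⟩
    exact ⟨L.𝔤.add_mem h1 h4, by rw [Matrix.transpose_add, h2, h5],
      by rw [Matrix.mul_add, Matrix.add_mul, h3, h6]⟩
  zero_mem' := ⟨L.𝔤.zero_mem, Matrix.transpose_zero, by rw [Matrix.mul_zero, Matrix.zero_mul]⟩
  smul_mem' := by
    rintro c Y ⟨h1, h2, h3⟩
    exact ⟨L.𝔤.smul_mem c h1, by rw [Matrix.transpose_smul, h2],
      by rw [Matrix.mul_smul, Matrix.smul_mul, h3]⟩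

theorem V06_generic (A Y : Mat N) (hA : Aᵀ = A) (hY : Yᵀ = Y) (hAY : A * Y = Y * A) :
    ∃ s : ℝ, ∀ W : Mat N, (A + s • Y) * W = W * (A + s • Y) → Y * W = W * Y := by
  by_contra hcon
  push Not at hcon
  have hcon' : ∀ n : ℕ, ∃ W : Mat N, (A + (n : ℝ) • Y) * W = W * (A + (n : ℝ) • Y) ∧
      Y * W ≠ W * Y := fun n => hcon n
  choose W hW hne using hcon'
  set u : ℕ → Mat N := fun n => Y * W n - W n * Y with hu
  have hA1 : ∀ n, A * W n - W n * A = -((n : ℝ) • u n) := by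
    intro n
    have h := hW n
    rw [Matrix.add_mul, Matrix.mul_add, Matrix.smul_mul, Matrix.mul_smul] at h
    simp only [hu]
    rw [smul_sub, ← sub_eq_zero]
    rw [← sub_eq_zero] at h
    rw [← h]
    abel
  have horth : ∀ m n, m ≠ n → fip (u m) (u n) = 0 := by
    intro m n hmn
    have h1 : fip (A * W m - W m * A) (u n) = fip (u m) (A * W n - W n * A) := by
      have e1 := fip_ad Y (A * W m - W m * A) (W n)
      have e2 := fip_ad A (Y * W m - W m * Y) (W n)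
      rw [hY] at e1
      rw [hA] at e2
      simp only [hu]
      rw [e1, e2]
      congr 1
      have e3 : ∀ V : Mat N, A * (Y * V) = Y * (A * V) := fun V => by
        rw [← Matrix.mul_assoc, hAY, Matrix.mul_assoc]
      have e4 : ∀ V : Mat N, V * A * Y = V * Y * A := fun V => by
        rw [Matrix.mul_assoc, hAY, Matrix.mul_assoc]
      simp only [Matrix.mul_sub, Matrix.sub_mul]
      rw [e3, e4]
      simp only [← Matrix.mul_assoc]
      abel
    rw [hA1, hA1, P01_fip_neg, P01_fip_neg_left, P01_fip_smul, V01_fip_comm, P01_fip_smul,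
      V01_fip_comm (u n)] at h1
    have h2 : ((m : ℝ) - n) * fip (u m) (u n) = 0 := by linarith
    rcases mul_eq_zero.1 h2 with h3 | h3
    · exact absurd (Nat.cast_injective (sub_eq_zero.1 h3)) hmn
    · exact h3
  have hlin : LinearIndependent ℝ fun n => P01_Phi N (u n) := by
    refine linearIndependent_of_ne_zero_of_inner_eq_zero (fun n h => ?_) fun m n hmn => ?_
    · exact hne n (sub_eq_zero.1 ((P01_Phi N).map_eq_zero_iff.1 h))
    · change inner ℝ (P01_Phi N (u m)) (P01_Phi N (u n)) = 0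
      rw [P01_Phi_inner]
      exact horth m n hmn
  have := hlin.finite
  exact not_finite ℕ

theorem max_abelian (L : LieData N G) (B : Bases L) : ∃ 𝔞 : Submodule ℝ (Mat N), 𝔞 ≤ L.𝔤 ∧
    (∀ X ∈ 𝔞, Xᵀ = X) ∧ (∀ X ∈ 𝔞, ∀ Y ∈ 𝔞, X * Y = Y * X) ∧
    ∀ X ∈ L.𝔤, Xᵀ = X → ∃ k ∈ L.K, L.ι k * X * L.ι k⁻¹ ∈ 𝔞 := by
  set S : Set ℕ := {n | ∃ H ∈ L.𝔤, Hᵀ = H ∧ Module.finrank ℝ (V06_C L H) = n} with hS
  have hne : S.Nonempty := ⟨_, 0, L.𝔤.zero_mem, Matrix.transpose_zero, rfl⟩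
  obtain ⟨H, hH, hHt, hHr⟩ := Nat.sInf_mem hne
  have hmin : ∀ X ∈ L.𝔤, Xᵀ = X → Module.finrank ℝ (V06_C L H) ≤ Module.finrank ℝ (V06_C L X) := by
    intro X hX hXt
    rw [hHr]
    exact Nat.sInf_le ⟨X, hX, hXt, rfl⟩
  refine ⟨V06_C L H, fun X hX => hX.1, fun X hX => hX.2.1, ?_, ?_⟩
  · intro Y hY X hX
    obtain ⟨s, hs⟩ := V06_generic H Y hHt hY.2.1 hY.2.2
    have hle : V06_C L (H + s • Y) ≤ V06_C L H := by
      intro W hW
      have h1 := hs W hW.2.2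
      refine ⟨hW.1, hW.2.1, ?_⟩
      have h2 := hW.2.2
      rw [Matrix.add_mul, Matrix.mul_add, Matrix.smul_mul, Matrix.mul_smul, h1] at h2
      exact add_right_cancel h2
    have hfr := hmin (H + s • Y) (L.𝔤.add_mem hH (L.𝔤.smul_mem s hY.1)) (by
      rw [Matrix.transpose_add, Matrix.transpose_smul, hHt, hY.2.1])
    have heq := Submodule.eq_of_le_of_finrank_le hle hfr
    rw [← heq] at hX
    exact hs X hX.2.2
  · intro X hX hXt
    have hc : Continuous fun k : G => fip (L.ι k * X * L.ι k⁻¹) H :=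
      V01_fip_cont ((L.ι_cont.matrix_mul continuous_const).matrix_mul
        (L.ι_cont.comp continuous_inv)) continuous_const
    obtain ⟨k, hk, hmax⟩ := (K_compact L).exists_isMaxOn ⟨1, L.K.one_mem⟩ hc.continuousOn
    refine ⟨k, hk, ?_⟩
    obtain ⟨X', hX'⟩ : ∃ X' : Mat N, X' = L.ι k * X * L.ι k⁻¹ := ⟨_, rfl⟩
    rw [← hX']
    have hX'g : X' ∈ L.𝔤 := by rw [hX']; exact L.ad_mem k X hX
    have hX't : X'ᵀ = X' := by rw [hX', ad_K_t L hk, hXt]
    set Z := X' * H - H * X' with hZ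
    have hZg : Z ∈ L.𝔤 := L.bracket_mem _ hX'g _ hH
    have hZt : Zᵀ = -Z := by
      rw [hZ, Matrix.transpose_sub, Matrix.transpose_mul, Matrix.transpose_mul, hX't, hHt, neg_sub]
    have hval : ∀ t : ℝ, fip H (NormedSpace.exp (t • Z) * X' * NormedSpace.exp (t • (-Z))) =
        fip (L.ι (L.e (t • Z) * k) * X * L.ι (L.e (t • Z) * k)⁻¹) H := by
      intro t
      have ht := L.𝔤.smul_mem t hZg
      rw [V01_fip_comm, mul_inv_rev, map_mul, map_mul, ← e_neg L ht, L.ι_e _ ht,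
        L.ι_e _ (L.𝔤.neg_mem ht), smul_neg, hX']
      simp only [Matrix.mul_assoc]
    have hloc : IsLocalMax (fun t : ℝ => fip H (NormedSpace.exp (t • Z) * X' *
        NormedSpace.exp (t • (-Z)))) 0 := by
      refine Filter.Eventually.of_forall fun t => ?_
      change fip H (NormedSpace.exp (t • Z) * X' * NormedSpace.exp (t • (-Z))) ≤
        fip H (NormedSpace.exp ((0 : ℝ) • Z) * X' * NormedSpace.exp ((0 : ℝ) • (-Z)))
      rw [hval, hval]
      have h1 : L.e (t • Z) * k ∈ (L.K : Set G) := L.K.mul_mem (e_mem_K L hZg hZt t) hk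
      have h2 := hmax h1
      rw [zero_smul, e_zero, one_mul]
      exact h2
    have hd := V01_deriv_aux H X' Z 0
    have h0 := hloc.hasDerivAt_eq_zero hd
    rw [zero_smul, zero_smul, NormedSpace.exp_zero, Matrix.one_mul, Matrix.mul_one] at h0
    have h1 : fip H (Z * X' - X' * Z) = -fsq Z := by
      have h2 : Z * X' - X' * Z = -(X' * Z - Z * X') := by abel
      rw [h2, P01_fip_neg, fip_ad, hX't]
      rfl
    rw [h1] at h0
    have h2 : Z = 0 := V01_fsq_eq_zero _ (by linarith)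
    exact ⟨hX'g, hX't, (sub_eq_zero.1 h2).symm⟩

end SBD
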