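import Pool.Agent.SBX.V08
import Pool.Agent.SBX.V06
import Pool.Agent.SBX.V04

/-!
# Row SBX-V09 : `∫ δ^{-s} < ∞` for `s > 1`

PROOF.  `𝔞` from V06, with a basis `A_1,…,A_l` (any basis; `l = dim 𝔞`).  `U, C` from V08; choose an open
`U₁ ∋ 1` with `U₁U₁ ⊆ U`, and `ρ > 0` with `e(∑ τ_iA_i) ∈ U₁` for all `|τ_i| ≤ ρ` (continuity of `e` on `𝔤`
at `0`).  `K ⊆ ⋃_{j≤J} U₁ c_j`, `c_j ∈ G` (compactness of `K`).
Every `g ∈ G` is `g = k_0 e(X)` (polar), `X = ι(k)⁻¹ H ι(k)`, `H ∈ 𝔞`, so `g = k_0k⁻¹ e(H) k = k_1 e(H) k_2` with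
`k_1,k_2 ∈ K` (`ad_e`).  Write `H = H_z + H'`, `H_z = ρ∑ z_iA_i`, `z ∈ ℤ^l`, `H' = ∑τ_iA_i`, `|τ_i| ≤ ρ`;
`e(H) = e(H_z)e(H')` (V05 `e_comm_add`); `k_2 ∈ U₁c_j`.  So `g ∈ K e(H_z) U c_j`.  Hence
`∫⁻ δ^{-s} ≤ ∑_z ∑_j ∫⁻_{K e(H_z) U c_j} δ^{-s}`, and on `K e(H_z)U c_j`: `δ(e H_z) ≤ δ(g) δ((u c_j)⁻¹) ≤ C₁δ(g)`
(`g = k e(H_z) u c_j`; `dl_mul_le`, `dl_K_left`; take `U` inside a compact set), and
`μ(K e(H_z)U c_j) = μ(K e(H_z)U) ≤ C δ(e H_z)` (right invariance).  So the sum is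
`≤ C₂ ∑_z δ(e H_z)^{1-s} ≤ C₃ ∑_z e^{-c(s-1)|z|} < ∞`, using `δ(e H) ≥ c_1 Θ(e H)^κ ≥ c_1' e^{c|z|}`: by
`diag_ad` and `adM_pos`, `δ(e H) ≥ e^{½√c₁ ‖H‖}` (as in V04), `‖H_z‖ ≥ c₂ ∑|z_i|` (all norms on `ℝ^l` are
equivalent), and `∑_{z∈ℤ^l} e^{-c∑|z_i|} = (∑_{n∈ℤ} e^{-c|n|})^l < ∞` (in `ℝ≥0∞`).
-/

open MeasureTheory Filter Topology
open scoped ENNReal NNReal Matrix

noncomputable section

namespace SBD

variable {N : ℕ} {G : Type} [Group G] [TopologicalSpace G] [IsTopologicalGroup G]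
  [LocallyCompactSpace G] [T2Space G]
variable [SecondCountableTopology G] [MeasurableSpace G] [BorelSpace G]

private theorem V09_sum_one (β : ℝ) (hβ : 0 < β) :
    ∑' n : ℤ, ENNReal.ofReal (Real.exp (-β * |(n : ℝ)|)) < ∞ := by
  refine Summable.tsum_ofReal_lt_top ?_
  have h : Summable fun n : ℕ => Real.exp (-β * |((n : ℤ) : ℝ)|) := by
    have h1 : (fun n : ℕ => Real.exp (-β * |((n : ℤ) : ℝ)|)) = fun n : ℕ => Real.exp (-β) ^ n := by
      funext n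
      rw [← Real.exp_nat_mul]
      congr 1
      rw [Int.cast_natCast, abs_of_nonneg (Nat.cast_nonneg n)]
      ring
    rw [h1]
    exact summable_geometric_of_lt_one (Real.exp_pos _).le (by rw [Real.exp_lt_one_iff]; linarith)
  refine Summable.of_nat_of_neg h ?_
  refine h.congr fun n => ?_
  rw [Int.cast_neg, abs_neg]

private theorem V09_sum (β : ℝ) (hβ : 0 < β) : ∀ l : ℕ,
    ∑' z : Fin l → ℤ, ENNReal.ofReal (Real.exp (-β * ∑ i, |(z i : ℝ)|)) < ∞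
  | 0 => by
    rw [tsum_fintype]
    simp
  | l + 1 => by
    have ih := V09_sum β hβ l
    have h1 := V09_sum_one β hβ
    rw [← (Fin.consEquiv fun _ : Fin (l + 1) => ℤ).tsum_eq]
    have h2 : ∀ q : ℤ × (Fin l → ℤ),
        ENNReal.ofReal (Real.exp (-β * ∑ i, |(((Fin.consEquiv fun _ : Fin (l + 1) => ℤ) q) i : ℝ)|)) =
        (fun (a : ℤ) (z : Fin l → ℤ) => ENNReal.ofReal (Real.exp (-β * |(a : ℝ)|)) *
          ENNReal.ofReal (Real.exp (-β * ∑ i, |(z i : ℝ)|))) q.1 q.2 := by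
      intro q
      rw [Fin.sum_univ_succ]
      have e0 : ((Fin.consEquiv fun _ : Fin (l + 1) => ℤ) q) 0 = q.1 := rfl
      have e1 : ∀ i : Fin l, ((Fin.consEquiv fun _ : Fin (l + 1) => ℤ) q) i.succ = q.2 i :=
        fun i => rfl
      simp only [e0, e1]
      rw [mul_add, Real.exp_add, ENNReal.ofReal_mul (Real.exp_pos _).le]
    rw [tsum_congr h2]
    refine (ENNReal.tsum_prod (f := fun (a : ℤ) (z : Fin l → ℤ) =>
      ENNReal.ofReal (Real.exp (-β * |(a : ℝ)|)) *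
        ENNReal.ofReal (Real.exp (-β * ∑ i, |(z i : ℝ)|)))).trans_lt ?_
    simp only [ENNReal.tsum_mul_left, ENNReal.tsum_mul_right]
    exact ENNReal.mul_lt_top h1 ih

private theorem V09_fip_sum {m : ℕ} (X : Mat N) (E : Fin m → Mat N) (z : Fin m → ℝ) :
    fip X (∑ j, z j • E j) = ∑ j, z j * fip X (E j) := by
  unfold fip
  rw [Matrix.mul_sum, Matrix.trace_sum]
  refine Finset.sum_congr rfl fun j _ => ?_
  rw [Matrix.mul_smul, Matrix.trace_smul, smul_eq_mul]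

private theorem V09_fip_comm (X Y : Mat N) : fip X Y = fip Y X := by
  rw [P01_fip_eq, P01_fip_eq]
  exact Finset.sum_congr rfl fun _ _ => mul_comm _ _

private theorem V09_fsq_comb {m : ℕ} (E : Fin m → Mat N)
    (hE : ∀ i j, fip (E i) (E j) = if i = j then 1 else 0) (z : Fin m → ℝ) :
    fsq (∑ j, z j • E j) = ∑ j, z j ^ 2 := by
  unfold fsq
  rw [V09_fip_sum]
  refine Finset.sum_congr rfl fun j _ => ?_
  rw [V09_fip_comm, V09_fip_sum]
  simp only [hE, mul_ite, mul_one, mul_zero, Finset.sum_ite_eq, Finset.mem_univ, if_true]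
  rw [sq]

/-- `∑ |a_i| ≥ √c ‖X‖` -/
private theorem V09_frob {J : Type} [Fintype J] [DecidableEq J] (M Q : Matrix J J ℝ) (a : J → ℝ)
    (h1 : Qᵀ * Q = 1) (h : M = Q * Matrix.diagonal a * Qᵀ) :
    ∑ i, ∑ j, M i j ^ 2 = ∑ i, a i ^ 2 := by
  have h2 : ∑ i, ∑ j, M i j ^ 2 = (Mᵀ * M).trace := by
    rw [Matrix.trace, Finset.sum_comm]
    refine Finset.sum_congr rfl fun j _ => ?_
    rw [Matrix.diag_apply, Matrix.mul_apply]
    refine Finset.sum_congr rfl fun i _ => ?_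
    rw [Matrix.transpose_apply, sq]
  have h3 : Mᵀ * M = Q * (Matrix.diagonal a * Matrix.diagonal a) * Qᵀ := by
    rw [h, Matrix.transpose_mul, Matrix.transpose_mul, Matrix.transpose_transpose,
      Matrix.diagonal_transpose]
    calc Q * (Matrix.diagonal a * Qᵀ) * (Q * Matrix.diagonal a * Qᵀ)
        = Q * Matrix.diagonal a * (Qᵀ * Q) * (Matrix.diagonal a * Qᵀ) := by
          simp only [Matrix.mul_assoc]
      _ = Q * (Matrix.diagonal a * Matrix.diagonal a) * Qᵀ := by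
          rw [h1, Matrix.mul_one]
          simp only [Matrix.mul_assoc]
  rw [h2, h3, Matrix.trace_mul_comm, ← Matrix.mul_assoc, h1, Matrix.one_mul,
    Matrix.diagonal_mul_diagonal, Matrix.trace_diagonal]
  exact Finset.sum_congr rfl fun i _ => (sq (a i)).symm

omit [SecondCountableTopology G] [MeasurableSpace G] [BorelSpace G] in
/-- exponential growth of `dl` -/
private theorem V09_dl_exp (L : LieData N G) (B : Bases L) : ∃ b : ℝ, 0 < b ∧ ∀ X ∈ L.𝔤, Xᵀ = X →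
    Real.exp (b * Real.sqrt (fsq X)) ≤ dl B (L.e X) := by
  obtain ⟨c, hc, hadM⟩ := adM_pos B
  refine ⟨Real.sqrt c / 2, by positivity, fun X hX hXt => ?_⟩
  obtain ⟨Q, a, -, hQ, hM, -, -, hlow, -⟩ := diag_ad B hX hXt
  refine le_trans (Real.exp_le_exp.2 ?_) hlow
  have h1 : c * fsq X ≤ ∑ i, a i ^ 2 := by
    rw [← V09_frob (adM B X) Q a hQ hM]
    exact hadM X hX hXt
  have h2 : ∑ i, a i ^ 2 ≤ (∑ i, |a i|) ^ 2 := by
    calc ∑ i, a i ^ 2 = ∑ i, |a i| ^ 2 := Finset.sum_congr rfl fun i _ => (sq_abs _).symm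
      _ ≤ (∑ i, |a i|) ^ 2 := Finset.sum_sq_le_sq_sum_of_nonneg (fun i _ => abs_nonneg _)
  have h3 : Real.sqrt (c * fsq X) ≤ ∑ i, |a i| :=
    Real.sqrt_le_iff.2 ⟨Finset.sum_nonneg fun i _ => abs_nonneg _, h1.trans h2⟩
  rw [Real.sqrt_mul hc.le] at h3
  linarith

private theorem V09_sqrt (l : ℕ) (z : Fin l → ℝ) (ρ : ℝ) :
    ρ / (l + 1) * ∑ i, |z i| ≤ Real.sqrt (∑ i, (ρ * z i) ^ 2) := by
  have h1 : ∀ i, ρ * |z i| ≤ Real.sqrt (∑ i, (ρ * z i) ^ 2) := by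
    intro i
    refine Real.le_sqrt_of_sq_le ?_
    calc (ρ * |z i|) ^ 2 = (ρ * z i) ^ 2 := by rw [mul_pow, mul_pow, sq_abs]
      _ ≤ ∑ i, (ρ * z i) ^ 2 :=
        Finset.single_le_sum (f := fun i => (ρ * z i) ^ 2) (fun i _ => sq_nonneg _)
          (Finset.mem_univ i)
  have h2 : ρ * ∑ i, |z i| ≤ l * Real.sqrt (∑ i, (ρ * z i) ^ 2) := by
    rw [Finset.mul_sum]
    calc ∑ i, ρ * |z i| ≤ ∑ _i : Fin l, Real.sqrt (∑ i, (ρ * z i) ^ 2) :=
          Finset.sum_le_sum fun i _ => h1 i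
      _ = l * Real.sqrt (∑ i, (ρ * z i) ^ 2) := by
          rw [Finset.sum_const, Finset.card_univ, Fintype.card_fin, nsmul_eq_mul]
  have h3 := Real.sqrt_nonneg (∑ i, (ρ * z i) ^ 2)
  have hl : (0 : ℝ) < l + 1 := by positivity
  rw [div_mul_eq_mul_div, div_le_iff₀ hl]
  linarith

theorem int_dl (L : LieData N G) (B : Bases L) (μ : Measure G) [μ.IsHaarMeasure]
    [μ.IsMulRightInvariant] (s : ℝ) (hs : 1 < s) :
    ∫⁻ g, ENNReal.ofReal (dl B g ^ (-s)) ∂μ < ∞ := by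
  obtain ⟨𝔞, h𝔞, h𝔞t, h𝔞c, h𝔞K⟩ := max_abelian L B
  obtain ⟨l, A, hA1, hA2, hA3⟩ := P01_basis 𝔞
  obtain ⟨U, hU, C, hC, hvol⟩ := vol_KXU L B μ
  obtain ⟨K₁, hK₁c, hK₁⟩ := exists_compact_mem_nhds (1 : G)
  obtain ⟨U₁, hU₁o, hU₁1, hU₁⟩ := exists_open_nhds_one_split (Filter.inter_mem hU hK₁)
  obtain ⟨b, hb, hdl⟩ := V09_dl_exp L B
  -- the parametrisation of `𝔞`
  let Hm : (Fin l → ℝ) → Mat N := fun x => ∑ i, x i • A i
  have hHm : ∀ x, Hm x ∈ 𝔞 := fun x => Submodule.sum_mem _ fun i _ => 𝔞.smul_mem _ (hA1 i)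
  have hHmc : Continuous Hm := by
    change Continuous fun x : Fin l → ℝ => ∑ i, x i • A i
    fun_prop
  have hHadd : ∀ x y, Hm (x + y) = Hm x + Hm y := by
    intro x y
    change ∑ i, (x i + y i) • A i = ∑ i, x i • A i + ∑ i, y i • A i
    rw [← Finset.sum_add_distrib]
    exact Finset.sum_congr rfl fun i _ => add_smul _ _ _
  have hec : Continuous fun x => L.e (Hm x) :=
    L.e_cont.comp_continuous hHmc fun x => h𝔞 (hHm x)
  obtain ⟨ρ, hρ, hρU⟩ : ∃ ρ : ℝ, 0 < ρ ∧ ∀ x : Fin l → ℝ, (∀ i, |x i| ≤ ρ) →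
      L.e (Hm x) ∈ U₁ := by
    have h0 : Hm 0 = 0 := by
      change ∑ i, (0 : ℝ) • A i = 0
      simp
    have h1 : (fun x => L.e (Hm x)) ⁻¹' U₁ ∈ 𝓝 (0 : Fin l → ℝ) := by
      refine hec.continuousAt.preimage_mem_nhds (hU₁o.mem_nhds ?_)
      rw [h0, e_zero L]
      exact hU₁1
    obtain ⟨ρ, hρ, h2⟩ := Metric.mem_nhds_iff.1 h1
    refine ⟨ρ / 2, by positivity, fun x hx => h2 ?_⟩
    rw [Metric.mem_ball, dist_zero_right]
    refine lt_of_le_of_lt ?_ (half_lt_self hρ)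
    rw [pi_norm_le_iff_of_nonneg (by positivity)]
    exact hx
  -- the cover of `K`
  obtain ⟨t, htK, htc⟩ := (K_compact L).elim_nhds_subcover (fun c => (fun x => x * c⁻¹) ⁻¹' U₁)
    (fun c _ => by
      have hc : Continuous fun x : G => x * c⁻¹ := continuous_mul_const _
      refine hc.continuousAt.preimage_mem_nhds (hU₁o.mem_nhds ?_)
      rw [mul_inv_cancel]
      exact hU₁1)
  -- the bound of `dl` on `K₁`
  obtain ⟨D, hD⟩ := hK₁c.bddAbove_image (dl_cont B).continuousOn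
  have hD1 : ∀ u ∈ K₁, dl B u ≤ D := fun u hu => hD (Set.mem_image_of_mem _ hu)
  have hD0 : 1 ≤ D := (one_le_dl B 1).trans (hD1 1 (mem_of_mem_nhds hK₁))
  have hDpos : 0 < D := by linarith
  -- the pieces
  let xz : (Fin l → ℤ) → Fin l → ℝ := fun z i => ρ * z i
  let S : (Fin l → ℤ) × t → Set G := fun p =>
    {g : G | ∃ k ∈ L.K, ∃ u ∈ U ∩ K₁, g = k * L.e (Hm (xz p.1)) * u * p.2}
  have hcover : (⋃ p, S p) = Set.univ := by
    refine Set.eq_univ_of_forall fun g => ?_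
    obtain ⟨k₀, X, hX, hXt, hk₀, rfl⟩ := L.polar g
    have hk₀' : k₀ ∈ L.K := hk₀
    obtain ⟨k, hk, hkX⟩ := h𝔞K X hX hXt
    have hH := hA3 _ hkX
    set h : Fin l → ℝ := fun j => fip (A j) (L.ι k * X * L.ι k⁻¹) with hh
    have hH' : L.ι k * X * L.ι k⁻¹ = Hm h := hH
    have he : L.e (Hm h) = k * L.e X * k⁻¹ := by
      rw [← hH']
      exact L.ad_e k X hX
    set z : Fin l → ℤ := fun i => ⌊h i / ρ⌋ with hz
    set τ : Fin l → ℝ := fun i => h i - ρ * z i with hτ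
    have hτρ : ∀ i, |τ i| ≤ ρ := by
      intro i
      have h1 := Int.floor_le (h i / ρ)
      have h2 := Int.lt_floor_add_one (h i / ρ)
      rw [le_div_iff₀ hρ] at h1
      rw [div_lt_iff₀ hρ] at h2
      have h3 : τ i = h i - ρ * (⌊h i / ρ⌋ : ℤ) := rfl
      rw [abs_le]
      constructor
      · rw [h3]; linarith
      · rw [h3]; linarith
    have hsum : h = xz z + τ := by
      funext i
      change h i = ρ * z i + (h i - ρ * z i)
      ring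
    have hee : L.e (Hm h) = L.e (Hm (xz z)) * L.e (Hm τ) := by
      rw [hsum, hHadd]
      exact e_comm_add L (h𝔞 (hHm _)) (h𝔞 (hHm _)) (h𝔞c _ (hHm _) _ (hHm _))
    obtain ⟨c, hct, hck⟩ := Set.mem_iUnion₂.1 (htc hk)
    have hck' : k * c⁻¹ ∈ U₁ := hck
    refine Set.mem_iUnion.2 ⟨(z, ⟨c, hct⟩), ?_⟩
    refine ⟨k₀ * k⁻¹, L.K.mul_mem hk₀' (L.K.inv_mem hk), L.e (Hm τ) * (k * c⁻¹),
      hU₁ _ (hρU τ hτρ) _ hck', ?_⟩
    have e1 : L.e X = k⁻¹ * L.e (Hm h) * k := by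
      rw [he]
      group
    rw [e1, hee]
    change _ = k₀ * k⁻¹ * L.e (Hm (xz z)) * (L.e (Hm τ) * (k * c⁻¹)) * c
    group
  -- the measure of a piece
  have hmeas : ∀ p, μ (S p) ≤ ENNReal.ofReal (C * dl B (L.e (Hm (xz p.1)))) := by
    intro p
    have h1 : S p ⊆ (fun x => x * (p.2 : G)⁻¹) ⁻¹'
        {g : G | ∃ k ∈ L.K, ∃ u ∈ U, g = k * L.e (Hm (xz p.1)) * u} := by
      rintro g ⟨k, hk, u, hu, rfl⟩
      refine ⟨k, hk, u, hu.1, ?_⟩
      group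
    refine (measure_mono h1).trans ?_
    rw [measure_preimage_mul_right]
    exact hvol _ (h𝔞 (hHm _)) (h𝔞t _ (hHm _))
  -- the function on a piece
  have hfun : ∀ p, ∀ g ∈ S p, ENNReal.ofReal (dl B g ^ (-s)) ≤
      ENNReal.ofReal (D ^ s * dl B (L.e (Hm (xz p.1))) ^ (-s)) := by
    rintro p g ⟨k, hk, u, hu, rfl⟩
    refine ENNReal.ofReal_le_ofReal ?_
    have hcK : (p.2 : G) ∈ L.K := htK _ p.2.2
    have h1 : dl B (k * L.e (Hm (xz p.1)) * u * p.2) = dl B (L.e (Hm (xz p.1)) * u) := by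
      rw [dl_K_right B hcK, mul_assoc, dl_K_left B hk]
    rw [h1]
    have h2 : dl B (L.e (Hm (xz p.1))) ≤ D * dl B (L.e (Hm (xz p.1)) * u) := by
      calc dl B (L.e (Hm (xz p.1))) = dl B (L.e (Hm (xz p.1)) * u * u⁻¹) := by
            rw [mul_inv_cancel_right]
        _ ≤ dl B (L.e (Hm (xz p.1)) * u) * dl B u⁻¹ := dl_mul_le B _ _
        _ ≤ dl B (L.e (Hm (xz p.1)) * u) * D := by
            refine mul_le_mul_of_nonneg_left ?_ (zero_le_one.trans (one_le_dl B _))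
            rw [dl_inv]
            exact hD1 u hu.2
        _ = D * dl B (L.e (Hm (xz p.1)) * u) := mul_comm _ _
    have h3 : 0 < dl B (L.e (Hm (xz p.1))) := lt_of_lt_of_le one_pos (one_le_dl B _)
    have h4 : 0 < dl B (L.e (Hm (xz p.1)) * u) := lt_of_lt_of_le one_pos (one_le_dl B _)
    have h5 : dl B (L.e (Hm (xz p.1))) / D ≤ dl B (L.e (Hm (xz p.1)) * u) := by
      rw [div_le_iff₀ hDpos, mul_comm]
      exact h2
    calc dl B (L.e (Hm (xz p.1)) * u) ^ (-s) ≤ (dl B (L.e (Hm (xz p.1))) / D) ^ (-s) :=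
          Real.rpow_le_rpow_of_nonpos (by positivity) h5 (by linarith)
      _ = D ^ s * dl B (L.e (Hm (xz p.1))) ^ (-s) := by
          rw [Real.div_rpow h3.le hDpos.le, Real.rpow_neg hDpos.le, div_inv_eq_mul, mul_comm]
  -- the exponential decay
  set β : ℝ := (s - 1) * b * (ρ / (l + 1)) with hβ
  have hβ0 : 0 < β := by
    have : 0 < s - 1 := by linarith
    positivity
  have hterm : ∀ p : (Fin l → ℤ) × t, ENNReal.ofReal (D ^ s * dl B (L.e (Hm (xz p.1))) ^ (-s)) *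
      ENNReal.ofReal (C * dl B (L.e (Hm (xz p.1)))) ≤
      ENNReal.ofReal (D ^ s * C) * ENNReal.ofReal (Real.exp (-β * ∑ i, |((p.1 i : ℤ) : ℝ)|)) := by
    intro p
    have h3 : 0 < dl B (L.e (Hm (xz p.1))) := lt_of_lt_of_le one_pos (one_le_dl B _)
    rw [← ENNReal.ofReal_mul (by positivity), ← ENNReal.ofReal_mul (by positivity)]
    refine ENNReal.ofReal_le_ofReal ?_
    have h6 : Real.exp (b * (ρ / (l + 1) * ∑ i, |((p.1 i : ℤ) : ℝ)|)) ≤
        dl B (L.e (Hm (xz p.1))) := by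
      refine le_trans (Real.exp_le_exp.2 ?_) (hdl _ (h𝔞 (hHm _)) (h𝔞t _ (hHm _)))
      refine mul_le_mul_of_nonneg_left ?_ hb.le
      have h7 : fsq (Hm (xz p.1)) = ∑ i, (ρ * ((p.1 i : ℤ) : ℝ)) ^ 2 :=
        V09_fsq_comb A hA2 (xz p.1)
      rw [h7]
      exact V09_sqrt l (fun i => ((p.1 i : ℤ) : ℝ)) ρ
    have h8 : dl B (L.e (Hm (xz p.1))) ^ (1 - s) ≤ Real.exp (-β * ∑ i, |((p.1 i : ℤ) : ℝ)|) := by
      calc dl B (L.e (Hm (xz p.1))) ^ (1 - s)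
          ≤ Real.exp (b * (ρ / (l + 1) * ∑ i, |((p.1 i : ℤ) : ℝ)|)) ^ (1 - s) :=
            Real.rpow_le_rpow_of_nonpos (Real.exp_pos _) h6 (by linarith)
        _ = Real.exp (-β * ∑ i, |((p.1 i : ℤ) : ℝ)|) := by
            rw [← Real.exp_mul]
            congr 1
            rw [hβ]
            ring
    have h9 : dl B (L.e (Hm (xz p.1))) ^ (-s) * dl B (L.e (Hm (xz p.1))) =
        dl B (L.e (Hm (xz p.1))) ^ (1 - s) := by
      conv_lhs => rw [← Real.rpow_one (dl B (L.e (Hm (xz p.1)))), ← Real.rpow_mul h3.le]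
      rw [one_mul, ← Real.rpow_add h3]
      congr 1
      ring
    calc D ^ s * dl B (L.e (Hm (xz p.1))) ^ (-s) * (C * dl B (L.e (Hm (xz p.1))))
        = D ^ s * C * (dl B (L.e (Hm (xz p.1))) ^ (-s) * dl B (L.e (Hm (xz p.1)))) := by ring
      _ = D ^ s * C * dl B (L.e (Hm (xz p.1))) ^ (1 - s) := by rw [h9]
      _ ≤ D ^ s * C * Real.exp (-β * ∑ i, |((p.1 i : ℤ) : ℝ)|) :=
          mul_le_mul_of_nonneg_left h8 (by positivity)
  have hA : ∫⁻ g, ENNReal.ofReal (dl B g ^ (-s)) ∂μ ≤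
      ∑' p : (Fin l → ℤ) × t, ∫⁻ g in S p, ENNReal.ofReal (dl B g ^ (-s)) ∂μ := by
    have h1 := lintegral_iUnion_le (μ := μ) S fun g => ENNReal.ofReal (dl B g ^ (-s))
    rw [hcover, Measure.restrict_univ] at h1
    exact h1
  have hB : ∀ p : (Fin l → ℤ) × t, ∫⁻ g in S p, ENNReal.ofReal (dl B g ^ (-s)) ∂μ ≤
      (fun (z : Fin l → ℤ) (_ : t) => ENNReal.ofReal (D ^ s * C) *
        ENNReal.ofReal (Real.exp (-β * ∑ i, |((z i : ℤ) : ℝ)|))) p.1 p.2 := by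
    intro p
    have h1 : ∫⁻ g in S p, ENNReal.ofReal (dl B g ^ (-s)) ∂μ ≤
        ENNReal.ofReal (D ^ s * dl B (L.e (Hm (xz p.1))) ^ (-s)) * μ (S p) := by
      rw [← setLIntegral_const]
      exact setLIntegral_mono measurable_const (hfun p)
    refine h1.trans (le_trans ?_ (hterm p))
    gcongr
    exact hmeas p
  refine hA.trans_lt ((ENNReal.tsum_le_tsum hB).trans_lt ?_)
  refine (ENNReal.tsum_prod (f := fun (z : Fin l → ℤ) (_ : t) => ENNReal.ofReal (D ^ s * C) *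
    ENNReal.ofReal (Real.exp (-β * ∑ i, |((z i : ℤ) : ℝ)|)))).trans_lt ?_
  simp only [ENNReal.tsum_mul_left, tsum_fintype, Finset.sum_const, Finset.card_univ,
    Fintype.card_coe, nsmul_eq_mul]
  refine ENNReal.mul_lt_top (ENNReal.natCast_lt_top _) ?_
  exact ENNReal.mul_lt_top ENNReal.ofReal_lt_top (V09_sum β hβ0 l)

end SBD
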