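import Pool.Agent.SBX.L03
import Pool.Agent.SBX.L05
import Pool.Agent.SBX.L06
import Pool.Agent.SBX.L07
import Pool.Agent.SBX.V09
import Pool.Agent.SBX.E06
import Pool.Agent.SBX.E07

/-!
# Row SBX-L08 : vectors with small `p^r` norm

`ξ ∈ 𝔤` a coherent limit point, `n = rk ξ`.  For every `δ > 0` there are arbitrarily large `R` and unit vectors
`x ∈ low(C R²)` with `p^r(x) ≤ C' R^{-(n/4)(1-2/r) + δ}`.

PROOF.  `n = rk ξ ≥ 1`.
`ξ` is nilpotent (`coh_nil`), `adM B ξ` too (`nil_ad`), `rkM(adM ξ) = n` (`rk_eq`), so there is `k` with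
`dLam k (adM ξ)^n ≠ 0` (E06).  `σ, τ` from L03 for this `k`; `τ(ξ)^n ≠ 0`.  By `QT_large` there are `c > 0`,
arbitrarily large `R`, `lam ≤ CR²`, `θ ≥ cR^{2n}` and `0 ≠ u ∈ eig lam`, `Qu = θu`.  `F = {u ∈ eig lam : Qu = θu}` is
finite-dimensional and `K`-stable (`QT_K`, `hP.kinv`); `v_1,…,v_d` an orthonormal basis, `d ≥ 1`.
`Ψ²(g) = ∑_j‖mc π w v_j g‖²`.
(1) `Ψ² ≤ C₁ d lam^{aε}Θ^ε/δ(g)` (`square_dl`), and `Θ ≤ C δ^{1/κ}` (`dl_ge`): `Ψ² ≤ C₁' d R^{2aε}δ(g)^{-1+ε'}`,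
`ε' = ε/κ`.
(2) for every `q`: `Ψ² ≤ C_q d (δ(g)^{4}/R^{2n})^{2q}`: `θ^q⟨w,π(g)v_j⟩ = ⟨w,π(g)Q^qv_j⟩`, `rapidQ` with
`m = δ(g)` (`Lam_AdM_le`): `‖⟨w,π(g)v_j⟩‖ ≤ C(δ(g)^4/θ)^q`.
(3) `s = r/2 > 1`, small `δ₁ > 0`, `x₀ = R^{n/2 - δ₁}`.  `∫⁻(Ψ²/d)^s ≤ I + II`.
`I = ∫⁻_{δ(g) ≥ x₀}(C₁'R^{2aε}δ^{-1+ε'})^s = C R^{2aεs}∫⁻_{δ≥x₀}δ^{-(1+ε)}δ^{-(s-1)+ε+ε's} ≤ C'R^{2aεs}
x₀^{-(s-1)+ε+ε's}` (exponent negative for `ε` small; `int_dl`).
`II = ∫⁻_{δ(g) < x₀}`: there `(δ^4/R^{2n})^{2q} ≤ R^{-8qδ₁}`, so `II ≤ C_q^sR^{-8qδ₁s}μ{δ ≤ R^{n/2}} ≤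
C R^{-8qδ₁s}R^{n}∫⁻δ^{-2}`; choose `q` large.
So `∫⁻(Ψ²/d)^s ≤ C R^{-(n/2)(s-1)+δ₂}` with `δ₂` as small as we like.
(4) Khintchine (L07) pointwise, integrate, pick signs (as in C11): a unit vector `x = d^{-1/2}∑±v_j ∈ eig lam`
with `∫⁻‖mc π w x‖^r ≤ C∫⁻(Ψ²/d)^{r/2}`.  The `r`-th root: exponent `-(n/2)(r/2-1)/r = -(n/4)(1-2/r)`.
`eig lam ≤ low(CR²)`.
-/

open MeasureTheory Filter Topology
open scoped ENNReal NNReal Matrix

noncomputable section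

namespace SBD

variable {N : ℕ} {G : Type} [Group G] [TopologicalSpace G] [IsTopologicalGroup G]
  [LocallyCompactSpace G] [T2Space G]
variable [SecondCountableTopology G] [MeasurableSpace G] [BorelSpace G]
variable {H : Type} [NormedAddCommGroup H] [InnerProductSpace ℂ H] [CompleteSpace H]

/-- [L08] the real inequality -/
private theorem l08_real {s a ε κ δ₁ C R lam T D P C₁ c₁ Cq E : ℝ} {n q : ℕ}
    (hs : 1 < s) (ha : 0 ≤ a) (hε : 0 < ε) (hκ : 0 < κ) (hC : 1 ≤ C) (hR : 1 ≤ R)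
    (hlam1 : 1 ≤ lam) (hlam : lam ≤ C * R ^ 2) (hT : 1 ≤ T) (hD : 1 ≤ D) (hc₁ : 0 < c₁)
    (hTD : c₁ * T ^ κ ≤ D) (hC₁ : 0 < C₁) (hCq : 0 < Cq) (hP : 0 ≤ P)
    (h1 : P ≤ C₁ * (lam ^ (a * ε) * T ^ ε / D))
    (h2 : P ≤ Cq * (D ^ 4 / R ^ (2 * n)) ^ (2 * q)) (hδ₁ : 0 ≤ δ₁)
    (hex : -(s - 1) + ε + ε / κ * s ≤ 0)
    (he1 : 2 * a * ε * s + ((n : ℝ) / 2 - δ₁) * (-(s - 1) + ε + ε / κ * s) ≤ E)
    (he2 : (n : ℝ) - 8 * q * δ₁ * s ≤ E) :
    P ^ s ≤ (C₁ * C ^ (a * ε) * c₁ ^ (-(ε / κ))) ^ s * R ^ E * D ^ (-(1 + ε)) +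
      Cq ^ s * R ^ E * D ^ (-(2 : ℝ)) := by
  have hs0 : 0 < s := by linarith
  have hR0 : 0 < R := by linarith
  have hD0 : 0 < D := by linarith
  have hT0 : 0 < T := by linarith
  have hC0 : 0 < C := by linarith
  have hl0 : 0 < lam := by linarith
  rcases le_total (R ^ ((n : ℝ) / 2 - δ₁)) D with hx | hx
  · have e1 : T ^ ε ≤ c₁ ^ (-(ε / κ)) * D ^ (ε / κ) := by
      have f1 : T ^ κ ≤ D / c₁ := by
        rw [le_div_iff₀ hc₁]
        linarith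
      have f2 : T ^ ε = (T ^ κ) ^ (ε / κ) := by
        rw [← Real.rpow_mul hT0.le]
        congr 1
        field_simp
      rw [f2]
      calc (T ^ κ) ^ (ε / κ) ≤ (D / c₁) ^ (ε / κ) :=
            Real.rpow_le_rpow (by positivity) f1 (by positivity)
        _ = c₁ ^ (-(ε / κ)) * D ^ (ε / κ) := by
            rw [Real.div_rpow hD0.le hc₁.le, Real.rpow_neg hc₁.le]
            field_simp
    have e2 : lam ^ (a * ε) ≤ C ^ (a * ε) * R ^ (2 * a * ε) := by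
      calc lam ^ (a * ε) ≤ (C * R ^ 2) ^ (a * ε) :=
            Real.rpow_le_rpow hl0.le hlam (by positivity)
        _ = C ^ (a * ε) * R ^ (2 * a * ε) := by
            rw [Real.mul_rpow hC0.le (by positivity), ← Real.rpow_natCast R 2,
              ← Real.rpow_mul hR0.le]
            congr 2
            push_cast
            ring
    have e3 : P ≤ (C₁ * C ^ (a * ε) * c₁ ^ (-(ε / κ))) * (R ^ (2 * a * ε) * D ^ (ε / κ - 1)) := by
      refine h1.trans ?_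
      calc C₁ * (lam ^ (a * ε) * T ^ ε / D)
          ≤ C₁ * ((C ^ (a * ε) * R ^ (2 * a * ε)) * (c₁ ^ (-(ε / κ)) * D ^ (ε / κ)) / D) := by
            gcongr
        _ = _ := by
            rw [Real.rpow_sub hD0, Real.rpow_one]
            field_simp
    have e4 : P ^ s ≤ (C₁ * C ^ (a * ε) * c₁ ^ (-(ε / κ))) ^ s *
        (R ^ (2 * a * ε * s) * D ^ ((ε / κ - 1) * s)) := by
      refine (Real.rpow_le_rpow hP e3 hs0.le).trans (le_of_eq ?_)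
      have f0 : 0 ≤ C₁ * C ^ (a * ε) * c₁ ^ (-(ε / κ)) := by positivity
      have f1 : 0 ≤ R ^ (2 * a * ε) * D ^ (ε / κ - 1) := by positivity
      have f2 : 0 ≤ R ^ (2 * a * ε) := by positivity
      have f3 : 0 ≤ D ^ (ε / κ - 1) := by positivity
      rw [Real.mul_rpow f0 f1, Real.mul_rpow f2 f3, ← Real.rpow_mul hR0.le,
        ← Real.rpow_mul hD0.le]
    have e5 : D ^ ((ε / κ - 1) * s) = D ^ (-(1 + ε)) * D ^ (-(s - 1) + ε + ε / κ * s) := by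
      rw [← Real.rpow_add hD0]
      congr 1
      ring
    have e6 : D ^ (-(s - 1) + ε + ε / κ * s) ≤
        R ^ (((n : ℝ) / 2 - δ₁) * (-(s - 1) + ε + ε / κ * s)) := by
      rw [Real.rpow_mul hR0.le]
      exact Real.rpow_le_rpow_of_nonpos (by positivity) hx hex
    have e7 : R ^ (2 * a * ε * s) * R ^ (((n : ℝ) / 2 - δ₁) * (-(s - 1) + ε + ε / κ * s)) ≤
        R ^ E := by
      rw [← Real.rpow_add hR0]
      exact Real.rpow_le_rpow_of_exponent_le hR he1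
    have e8 : 0 ≤ Cq ^ s * R ^ E * D ^ (-(2 : ℝ)) := by positivity
    calc P ^ s ≤ (C₁ * C ^ (a * ε) * c₁ ^ (-(ε / κ))) ^ s *
          (R ^ (2 * a * ε * s) * D ^ ((ε / κ - 1) * s)) := e4
      _ = (C₁ * C ^ (a * ε) * c₁ ^ (-(ε / κ))) ^ s * D ^ (-(1 + ε)) *
          (R ^ (2 * a * ε * s) * D ^ (-(s - 1) + ε + ε / κ * s)) := by rw [e5]; ring
      _ ≤ (C₁ * C ^ (a * ε) * c₁ ^ (-(ε / κ))) ^ s * D ^ (-(1 + ε)) *
          (R ^ (2 * a * ε * s) *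
            R ^ (((n : ℝ) / 2 - δ₁) * (-(s - 1) + ε + ε / κ * s))) := by gcongr
      _ ≤ (C₁ * C ^ (a * ε) * c₁ ^ (-(ε / κ))) ^ s * D ^ (-(1 + ε)) * R ^ E := by gcongr
      _ = (C₁ * C ^ (a * ε) * c₁ ^ (-(ε / κ))) ^ s * R ^ E * D ^ (-(1 + ε)) := by ring
      _ ≤ _ := le_add_of_nonneg_right e8
  · have e1 : D ^ 4 / R ^ (2 * n) ≤ R ^ (-(4 * δ₁)) := by
      rw [div_le_iff₀ (by positivity)]
      calc D ^ 4 ≤ (R ^ ((n : ℝ) / 2 - δ₁)) ^ 4 := pow_le_pow_left₀ hD0.le hx 4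
        _ = R ^ (-(4 * δ₁)) * R ^ (2 * n) := by
            rw [← Real.rpow_natCast (R ^ ((n : ℝ) / 2 - δ₁)) 4, ← Real.rpow_mul hR0.le,
              ← Real.rpow_natCast R (2 * n), ← Real.rpow_add hR0]
            congr 1
            push_cast
            ring
    have e2 : (D ^ 4 / R ^ (2 * n)) ^ (2 * q) ≤ R ^ (-(8 * q * δ₁)) := by
      calc (D ^ 4 / R ^ (2 * n)) ^ (2 * q) ≤ (R ^ (-(4 * δ₁))) ^ (2 * q) :=
            pow_le_pow_left₀ (by positivity) e1 _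
        _ = R ^ (-(8 * q * δ₁)) := by
            rw [← Real.rpow_natCast (R ^ (-(4 * δ₁))) (2 * q), ← Real.rpow_mul hR0.le]
            congr 1
            push_cast
            ring
    have e3 : P ^ s ≤ Cq ^ s * R ^ (-(8 * q * δ₁ * s)) := by
      have f1 : P ≤ Cq * R ^ (-(8 * q * δ₁)) := h2.trans (mul_le_mul_of_nonneg_left e2 hCq.le)
      refine (Real.rpow_le_rpow hP f1 hs0.le).trans (le_of_eq ?_)
      rw [Real.mul_rpow hCq.le (by positivity), ← Real.rpow_mul hR0.le]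
      congr 2
      ring
    have e4 : 1 ≤ R ^ (n : ℝ) * D ^ (-(2 : ℝ)) := by
      have f1 : D ^ (2 : ℝ) ≤ R ^ (n : ℝ) := by
        calc D ^ (2 : ℝ) ≤ (R ^ ((n : ℝ) / 2 - δ₁)) ^ (2 : ℝ) :=
              Real.rpow_le_rpow hD0.le hx (by norm_num)
          _ = R ^ (((n : ℝ) / 2 - δ₁) * 2) := by rw [← Real.rpow_mul hR0.le]
          _ ≤ R ^ (n : ℝ) := Real.rpow_le_rpow_of_exponent_le hR (by linarith)
      rw [Real.rpow_neg hD0.le, ← div_eq_mul_inv, one_le_div (by positivity)]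
      exact f1
    have e5 : R ^ (-(8 * q * δ₁ * s)) * R ^ (n : ℝ) ≤ R ^ E := by
      rw [← Real.rpow_add hR0]
      exact Real.rpow_le_rpow_of_exponent_le hR (by linarith)
    have e6 : 0 ≤ (C₁ * C ^ (a * ε) * c₁ ^ (-(ε / κ))) ^ s * R ^ E * D ^ (-(1 + ε)) := by
      positivity
    calc P ^ s ≤ Cq ^ s * R ^ (-(8 * q * δ₁ * s)) * 1 := by rw [mul_one]; exact e3
      _ ≤ Cq ^ s * R ^ (-(8 * q * δ₁ * s)) * (R ^ (n : ℝ) * D ^ (-(2 : ℝ))) := by gcongr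
      _ = Cq ^ s * (R ^ (-(8 * q * δ₁ * s)) * R ^ (n : ℝ)) * D ^ (-(2 : ℝ)) := by ring
      _ ≤ Cq ^ s * R ^ E * D ^ (-(2 : ℝ)) := by gcongr
      _ ≤ _ := le_add_of_nonneg_left e6

/-- [L08] a choice of signs -/
private theorem l08_sign (μ : Measure G) (r : ℝ) (hr : 0 < r) (Ck : ℝ) (hCk : 0 < Ck)
    (hkh : ∀ (d : ℕ) (a : Fin d → ℂ),
      ∑ σ : Fin d → Bool, ‖∑ j, (if σ j then a j else -a j)‖ ^ r ≤
      Ck * 2 ^ d * (∑ j, ‖a j‖ ^ 2) ^ (r / 2))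
    (d : ℕ) (m : Fin d → G → ℂ) (hm : ∀ j, Continuous (m j)) : ∃ σ : Fin d → Bool,
      ∫⁻ g, ‖∑ j, (if σ j then m j g else -m j g)‖ₑ ^ r ∂μ ≤
        ENNReal.ofReal Ck * ∫⁻ g, ENNReal.ofReal ((∑ j, ‖m j g‖ ^ 2) ^ (r / 2)) ∂μ := by
  set I := ∫⁻ g, ENNReal.ofReal ((∑ j, ‖m j g‖ ^ 2) ^ (r / 2)) ∂μ with hI
  by_contra! hcon
  have hCk' : ENNReal.ofReal Ck ≠ 0 := by
    rw [Ne, ENNReal.ofReal_eq_zero, not_le]
    exact hCk
  have hI0 : I ≠ ⊤ := by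
    intro h
    have h1 := hcon (fun _ => true)
    rw [h, ENNReal.mul_top hCk'] at h1
    exact not_top_lt h1
  have h1 : ∑ _σ : Fin d → Bool, ENNReal.ofReal Ck * I <
      ∑ σ : Fin d → Bool, ∫⁻ g, ‖∑ j, (if σ j then m j g else -m j g)‖ₑ ^ r ∂μ :=
    ENNReal.sum_lt_sum_of_nonempty Finset.univ_nonempty fun σ _ => hcon σ
  have hc : ∀ σ : Fin d → Bool, Continuous fun g => ∑ j, (if σ j then m j g else -m j g) := by
    intro σ
    refine continuous_finsetSum _ fun j _ => ?_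
    by_cases hσ : σ j = true
    · simp only [hσ, if_true]
      exact hm j
    · simp only [hσ]
      exact (hm j).neg
  have h2 : ∑ σ : Fin d → Bool, ∫⁻ g, ‖∑ j, (if σ j then m j g else -m j g)‖ₑ ^ r ∂μ ≤
      ENNReal.ofReal (Ck * 2 ^ d) * I := by
    rw [← lintegral_finsetSum Finset.univ fun σ _ =>
      ((hc σ).measurable.enorm.pow_const r), hI, ← lintegral_const_mul' _ _ ENNReal.ofReal_ne_top]
    refine lintegral_mono fun g => ?_
    have h3 := hkh d (fun j => m j g)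
    have h4 : ∑ σ : Fin d → Bool, ‖∑ j, (if σ j then m j g else -m j g)‖ₑ ^ r =
        ENNReal.ofReal (∑ σ : Fin d → Bool, ‖∑ j, (if σ j then m j g else -m j g)‖ ^ r) := by
      rw [ENNReal.ofReal_sum_of_nonneg fun σ _ => by positivity]
      refine Finset.sum_congr rfl fun σ _ => ?_
      rw [← ENNReal.ofReal_rpow_of_nonneg (norm_nonneg _) hr.le, ofReal_norm]
    show ∑ σ : Fin d → Bool, ‖∑ j, (if σ j then m j g else -m j g)‖ₑ ^ r ≤ _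
    rw [h4, ← ENNReal.ofReal_mul (by positivity)]
    exact ENNReal.ofReal_le_ofReal h3
  rw [Finset.sum_const, Finset.card_univ, Fintype.card_fun, Fintype.card_bool, Fintype.card_fin,
    nsmul_eq_mul] at h1
  have h5 : ENNReal.ofReal (Ck * 2 ^ d) * I = ((2 ^ d : ℕ) : ℝ≥0∞) * (ENNReal.ofReal Ck * I) := by
    rw [ENNReal.ofReal_mul hCk.le, ENNReal.ofReal_pow (by norm_num)]
    simp only [ENNReal.ofReal_ofNat]
    push_cast
    ring
  rw [h5] at h2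
  exact absurd (h1.trans_le h2) (lt_irrefl _)

theorem small_vecQ (L : LieData N G) (B : Bases L) (π : G →* (H ≃ₗᵢ[ℂ] H))
    (A : LieRep N (KFin L π)) (hP : IsPkg L π A) (μ : Measure G) [μ.IsHaarMeasure]
    [μ.IsMulRightInvariant] (ht : Tempered L π μ) (C : ℝ) (hC : 1 ≤ C) (ξ : Mat N)
    (hξ : A.Coh C ξ) (hn : 1 ≤ rk L ξ) (r : ℝ) (hr : 2 < r) (w : H) (hw : w ∈ KFin L π) (δ : ℝ)
    (hδ : 0 < δ) :
    ∃ C' : ℝ, 0 < C' ∧ ∀ R₀ : ℝ, ∃ R : ℝ, R₀ ≤ R ∧ 1 ≤ R ∧ ∃ x ∈ A.low (C * R ^ 2), ‖x‖ = 1 ∧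
      pr π μ w (ENNReal.ofReal r) (x : H) ≤
        ENNReal.ofReal (C' * R ^ (-((rk L ξ : ℝ) / 4 * (1 - 2 / r)) + δ)) := by
  classical
  have hr0 : 0 < r := by linarith
  obtain ⟨s, hsdef⟩ : ∃ s : ℝ, s = r / 2 := ⟨_, rfl⟩
  have hs : 1 < s := by rw [hsdef]; linarith
  have hs0 : 0 < s := by linarith
  have hs1 : 0 < s - 1 := by linarith
  obtain ⟨n, hndef⟩ : ∃ n : ℕ, n = rk L ξ := ⟨_, rfl⟩
  rw [← hndef] at hn ⊢
  have hn0 : (1 : ℝ) ≤ n := by exact_mod_cast hn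
  -- algebra
  have hξL : ξ ∈ L.𝔤 := by
    have := hξ.1
    rwa [hP.g_eq] at this
  have hnil := A.coh_nil hP.adm C ξ hξ
  have hMnil := nil_ad B hξL hnil
  obtain ⟨k, hk⟩ := SBX.dLam_pow_ne_zero (adM B ξ) hMnil
  rw [← rk_eq B hξL, ← hndef] at hk
  obtain ⟨τ, hτ, hσ⟩ := exists_GRep B k
  have hτn : τ ξ ^ n ≠ 0 := by
    rw [hτ]
    exact hk
  have hl : ∀ X ∈ A.𝔤, ∀ Y ∈ A.𝔤, τ (X * Y - Y * X) = τ X * τ Y - τ Y * τ X := by
    rw [hP.g_eq]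
    exact hσ.lie
  obtain ⟨c, hc, hlarge⟩ := A.QT_large τ n hP.adm hl hσ.tr C hC ξ hξ hτn
  obtain ⟨a, ha, hsq⟩ := square_dl L B π A hP μ ht
  obtain ⟨c₁, hc₁, κ, hκ, hge⟩ := dl_ge B
  obtain ⟨Ck, hCk, hkh⟩ := SBX.khintchine r hr0
  -- parameters
  obtain ⟨δ₁, hδ₁def⟩ : ∃ δ₁ : ℝ, δ₁ = min (1 / 4) (δ * r / (2 * (s - 1))) := ⟨_, rfl⟩
  have hδ₁ : 0 < δ₁ := by
    rw [hδ₁def]
    exact lt_min (by norm_num) (by positivity)
  have hδ₁a : δ₁ * (s - 1) ≤ δ * r / 2 := by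
    have h1 : δ₁ ≤ δ * r / (2 * (s - 1)) := by
      rw [hδ₁def]
      exact min_le_right _ _
    rw [le_div_iff₀ (by positivity)] at h1
    linarith
  have hδ₁b : δ₁ ≤ 1 / 4 := by
    rw [hδ₁def]
    exact min_le_left _ _
  have hden : 0 < 2 * a * s + (n : ℝ) / 2 * (1 + s / κ) := by positivity
  obtain ⟨ε, hεdef⟩ : ∃ ε : ℝ, ε = min 1 (min ((s - 1) / (1 + s / κ))
    (δ * r / 2 / (2 * a * s + (n : ℝ) / 2 * (1 + s / κ)))) := ⟨_, rfl⟩
  have hε : 0 < ε := by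
    rw [hεdef]
    exact lt_min one_pos (lt_min (by positivity) (by positivity))
  have hε1 : ε ≤ 1 := by
    rw [hεdef]
    exact min_le_left _ _
  have hεa : ε * (1 + s / κ) ≤ s - 1 := by
    have h1 : ε ≤ (s - 1) / (1 + s / κ) := by
      rw [hεdef]
      exact (min_le_right _ _).trans (min_le_left _ _)
    rwa [le_div_iff₀ (by positivity)] at h1
  have hεb : ε * (2 * a * s + (n : ℝ) / 2 * (1 + s / κ)) ≤ δ * r / 2 := by
    have h1 : ε ≤ δ * r / 2 / (2 * a * s + (n : ℝ) / 2 * (1 + s / κ)) := by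
      rw [hεdef]
      exact (min_le_right _ _).trans (min_le_right _ _)
    rwa [le_div_iff₀ hden] at h1
  obtain ⟨E, hE⟩ : ∃ E : ℝ, E = -((n : ℝ) / 2 * (s - 1)) + δ * r := ⟨_, rfl⟩
  have hεs : ε / κ * s = ε * (s / κ) := by ring
  have hex : -(s - 1) + ε + ε / κ * s ≤ 0 := by
    rw [hεs]
    linarith
  have he1 : 2 * a * ε * s + ((n : ℝ) / 2 - δ₁) * (-(s - 1) + ε + ε / κ * s) ≤ E := by
    rw [hεs, hE]
    have h1 : 0 ≤ δ₁ * (ε * (1 + s / κ)) := by positivity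
    have h2 : 2 * a * ε * s + ((n : ℝ) / 2 - δ₁) * (-(s - 1) + ε + ε * (s / κ)) =
      -((n : ℝ) / 2 * (s - 1)) + δ₁ * (s - 1) +
        ε * (2 * a * s + (n : ℝ) / 2 * (1 + s / κ)) - δ₁ * (ε * (1 + s / κ)) := by ring
    rw [h2]
    linarith
  obtain ⟨q, hq⟩ := exists_nat_ge (((n : ℝ) - E) / (8 * δ₁ * s))
  have he2 : (n : ℝ) - 8 * q * δ₁ * s ≤ E := by
    rw [div_le_iff₀ (by positivity)] at hq
    linarith
  obtain ⟨C₁, hC₁, hsq1⟩ := hsq w hw ε hε hε1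
  obtain ⟨Cr, hCr, hrapid⟩ := rapidQ L π A hP (fun g => SBX.Lam k (AdM B g)) τ hσ n hn q w hw
  obtain ⟨Cq, hCqdef⟩ : ∃ Cq : ℝ, Cq = (Cr / c ^ q) ^ 2 := ⟨_, rfl⟩
  have hCq : 0 < Cq := by
    rw [hCqdef]
    positivity
  -- integrals
  have hJ₁ := int_dl L B μ (1 + ε) (by linarith)
  have hJ₂ := int_dl L B μ 2 (by norm_num)
  obtain ⟨J₁, hJ₁def⟩ : ∃ J : ℝ, J = (∫⁻ g, ENNReal.ofReal (dl B g ^ (-(1 + ε))) ∂μ).toReal :=
    ⟨_, rfl⟩
  obtain ⟨J₂, hJ₂def⟩ : ∃ J : ℝ, J = (∫⁻ g, ENNReal.ofReal (dl B g ^ (-(2 : ℝ))) ∂μ).toReal :=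
    ⟨_, rfl⟩
  have hJ₁0 : 0 ≤ J₁ := by
    rw [hJ₁def]
    exact ENNReal.toReal_nonneg
  have hJ₂0 : 0 ≤ J₂ := by
    rw [hJ₂def]
    exact ENNReal.toReal_nonneg
  have hJ₁' : ∫⁻ g, ENNReal.ofReal (dl B g ^ (-(1 + ε))) ∂μ = ENNReal.ofReal J₁ := by
    rw [hJ₁def, ENNReal.ofReal_toReal hJ₁.ne]
  have hJ₂' : ∫⁻ g, ENNReal.ofReal (dl B g ^ (-(2 : ℝ))) ∂μ = ENNReal.ofReal J₂ := by
    rw [hJ₂def, ENNReal.ofReal_toReal hJ₂.ne]
  obtain ⟨A₁, hA₁def⟩ : ∃ A₁ : ℝ, A₁ = (C₁ * C ^ (a * ε) * c₁ ^ (-(ε / κ))) ^ s := ⟨_, rfl⟩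
  have hC0 : 0 < C := by linarith
  have hA₁ : 0 < A₁ := by
    rw [hA₁def]
    positivity
  obtain ⟨K, hKdef⟩ : ∃ K : ℝ, K = A₁ * J₁ + Cq ^ s * J₂ := ⟨_, rfl⟩
  have hK : 0 ≤ K := by
    rw [hKdef]
    positivity
  refine ⟨(Ck * (K + 1)) ^ (1 / r), by positivity, fun R₀ => ?_⟩
  obtain ⟨R, hR0, hR1, lam, hlam1, hlam, θ, hθ, u, hu, hu0, huQ⟩ := hlarge R₀
  refine ⟨R, hR0, hR1, ?_⟩
  have hRp : 0 < R := by linarith
  have hθ0 : 0 < θ := lt_of_lt_of_le (by positivity) hθ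
  -- the space
  let F : Submodule ℂ (KFin L π) := A.eig lam ⊓ Module.End.eigenspace (A.QT τ n) (θ : ℂ)
  have hFmem : ∀ x, x ∈ F ↔ x ∈ A.eig lam ∧ A.QT τ n x = (θ : ℂ) • x := by
    intro x
    show x ∈ A.eig lam ⊓ Module.End.eigenspace (A.QT τ n) (θ : ℂ) ↔ _
    rw [Submodule.mem_inf, Module.End.mem_eigenspace_iff]
  have hfin : FiniteDimensional ℂ F := by
    have := hP.adm.fin lam
    exact Submodule.finiteDimensional_of_le (inf_le_left.trans (A.eig_le_low le_rfl))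
  obtain ⟨d, hd⟩ : ∃ d : ℕ, d = Module.finrank ℂ F := ⟨_, rfl⟩
  let b : OrthonormalBasis (Fin d) ℂ F := (stdOrthonormalBasis ℂ F).reindex (finCongr hd.symm)
  let v : Fin d → KFin L π := fun j => (b j : KFin L π)
  have hvo : Orthonormal ℂ v := b.orthonormal.comp_linearIsometry F.subtypeₗᵢ
  have hvF : ∀ j, v j ∈ F := fun j => (b j).2
  have hvs : ∀ x ∈ F, x ∈ Submodule.span ℂ (Set.range v) := by
    intro x hx
    have h1 := b.sum_repr' ⟨x, hx⟩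
    have h2 := congrArg F.subtype h1
    rw [map_sum] at h2
    have h3 : x = ∑ j, inner ℂ (b j) (⟨x, hx⟩ : F) • v j := h2.symm
    rw [h3]
    exact Submodule.sum_mem _ fun j _ => Submodule.smul_mem _ _ (Submodule.subset_span ⟨j, rfl⟩)
  have hd0 : 0 < d := by
    rw [hd, Module.finrank_pos_iff]
    refine ⟨⟨⟨u, (hFmem u).2 ⟨hu, huQ⟩⟩, 0, fun h0 => hu0 (congrArg Subtype.val h0)⟩⟩
  have hd0r : (0 : ℝ) < d := by exact_mod_cast hd0
  have hstab : ∀ k ∈ L.K, ∀ j, ∃ x ∈ Submodule.span ℂ (Set.range v),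
      (x : H) = π k ((v j : KFin L π) : H) := by
    intro g hg j
    obtain ⟨hj1, hj2⟩ := (hFmem _).1 (hvF j)
    obtain ⟨u', hu', hu'e⟩ := hP.kinv g hg lam (v j) hj1
    refine ⟨u', hvs u' ((hFmem u').2 ⟨hu', ?_⟩), hu'e⟩
    have h1 := QT_K L π A hP (fun g => SBX.Lam k (AdM B g)) τ hσ n hn g hg (v j) u' hu'e
    rw [hj2] at h1
    apply Subtype.ext
    rw [← h1]
    show π g ((θ : ℂ) • ((v j : KFin L π) : H)) = (θ : ℂ) • ((u' : KFin L π) : H)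
    rw [map_smul, hu'e]
  have hA1 := hsq1 lam hlam1 d v hvo (fun j => ((hFmem _).1 (hvF j)).1) hstab
  obtain ⟨m, hm⟩ : ∃ m : Fin d → G → ℂ, ∀ j g, m j g = mc π w ((v j : KFin L π) : H) g :=
    ⟨_, fun _ _ => rfl⟩
  have hmc : ∀ j, Continuous (m j) := by
    intro j
    have h1 : m j = mc π w ((v j : KFin L π) : H) := funext fun g => hm j g
    rw [h1]
    exact continuous_const.inner (hP.cont ((v j : KFin L π) : H))
  -- rapid decay
  have hQpow : ∀ (q : ℕ) (x : KFin L π), A.QT τ n x = (θ : ℂ) • x →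
      (A.QT τ n ^ q) x = ((θ : ℂ) ^ q) • x := by
    intro q x hx
    induction q with
    | zero => simp
    | succ q ih =>
      rw [pow_succ, Module.End.mul_apply, hx, map_smul, ih, smul_smul, pow_succ, mul_comm]
  have hA2 : ∀ j g, ‖m j g‖ ^ 2 ≤ Cq * (dl B g ^ 4 / R ^ (2 * n)) ^ (2 * q) := by
    intro j g
    have hD1 := one_le_dl B g
    have hj2 := ((hFmem _).1 (hvF j)).2
    have h1 := hrapid g (dl B g) (by linarith) (fun i i' => Lam_AdM_le B k g i i') (v j)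
    rw [hQpow q _ hj2, hvo.1 j, mul_one] at h1
    have h2 : mc π w ((((θ : ℂ) ^ q) • v j : KFin L π) : H) g = (θ : ℂ) ^ q * m j g := by
      rw [hm]
      show inner ℂ w (π g (((θ : ℂ) ^ q) • ((v j : KFin L π) : H))) = _
      rw [map_smul, inner_smul_right]
      rfl
    rw [h2, norm_mul, norm_pow, Complex.norm_real, Real.norm_of_nonneg hθ0.le] at h1
    have h3 : ‖m j g‖ ≤ Cr / c ^ q * (dl B g ^ 4 / R ^ (2 * n)) ^ q := by
      have h4 : (c * R ^ (2 * n)) ^ q ≤ θ ^ q := pow_le_pow_left₀ (by positivity) hθ q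
      have h5 : (c * R ^ (2 * n)) ^ q * ‖m j g‖ ≤ Cr * dl B g ^ (4 * q) :=
        (mul_le_mul_of_nonneg_right h4 (norm_nonneg _)).trans h1
      have h6 : Cr / c ^ q * (dl B g ^ 4 / R ^ (2 * n)) ^ q =
          Cr * dl B g ^ (4 * q) / (c * R ^ (2 * n)) ^ q := by
        rw [div_pow, mul_pow, ← pow_mul (dl B g) 4 q]
        field_simp
      rw [h6, le_div_iff₀ (by positivity)]
      linarith
    calc ‖m j g‖ ^ 2 ≤ (Cr / c ^ q * (dl B g ^ 4 / R ^ (2 * n)) ^ q) ^ 2 :=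
          pow_le_pow_left₀ (norm_nonneg _) h3 2
      _ = Cq * (dl B g ^ 4 / R ^ (2 * n)) ^ (2 * q) := by
          rw [hCqdef, mul_pow, mul_comm 2 q, pow_mul _ q 2]
  -- the square function
  obtain ⟨S, hS⟩ : ∃ S : G → ℝ, ∀ g, S g = ∑ j, ‖m j g‖ ^ 2 := ⟨_, fun _ => rfl⟩
  have hS0 : ∀ g, 0 ≤ S g := by
    intro g
    rw [hS]
    exact Finset.sum_nonneg fun j _ => by positivity
  have hpt : ∀ g, (S g / d) ^ s ≤ A₁ * R ^ E * dl B g ^ (-(1 + ε)) +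
      Cq ^ s * R ^ E * dl B g ^ (-(2 : ℝ)) := by
    intro g
    rw [hA₁def]
    refine l08_real (T := Th L g) (lam := lam) (δ₁ := δ₁) (n := n) (q := q) hs ha hε hκ hC hR1
      hlam1 hlam (one_le_Th L g) (one_le_dl B g) hc₁ (hge g) hC₁ hCq
      (div_nonneg (hS0 g) hd0r.le) ?_ ?_ hδ₁.le hex he1 he2
    · rw [div_le_iff₀ hd0r, hS]
      have h1 := hA1 g
      simp only [← hm] at h1
      linarith
    · rw [div_le_iff₀ hd0r, hS]
      calc ∑ j, ‖m j g‖ ^ 2 ≤ ∑ _j : Fin d, Cq * (dl B g ^ 4 / R ^ (2 * n)) ^ (2 * q) :=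
            Finset.sum_le_sum fun j _ => hA2 j g
        _ = Cq * (dl B g ^ 4 / R ^ (2 * n)) ^ (2 * q) * d := by
            rw [Finset.sum_const, Finset.card_univ, Fintype.card_fin, nsmul_eq_mul, mul_comm]
  have hRE : 0 < R ^ E := by positivity
  have hint : ∫⁻ g, ENNReal.ofReal ((S g / d) ^ s) ∂μ ≤ ENNReal.ofReal (K * R ^ E) := by
    calc ∫⁻ g, ENNReal.ofReal ((S g / d) ^ s) ∂μ
        ≤ ∫⁻ g, (ENNReal.ofReal (A₁ * R ^ E) * ENNReal.ofReal (dl B g ^ (-(1 + ε))) +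
            ENNReal.ofReal (Cq ^ s * R ^ E) * ENNReal.ofReal (dl B g ^ (-(2 : ℝ)))) ∂μ := by
          refine lintegral_mono fun g => ?_
          have hD1 := one_le_dl B g
          have hD0 : 0 < dl B g := by linarith
          rw [← ENNReal.ofReal_mul (by positivity), ← ENNReal.ofReal_mul (by positivity),
            ← ENNReal.ofReal_add (by positivity) (by positivity)]
          exact ENNReal.ofReal_le_ofReal (hpt g)
      _ = ENNReal.ofReal (A₁ * R ^ E) * ENNReal.ofReal J₁ +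
            ENNReal.ofReal (Cq ^ s * R ^ E) * ENNReal.ofReal J₂ := by
          have hmeas : Measurable fun g => ENNReal.ofReal (A₁ * R ^ E) *
              ENNReal.ofReal (dl B g ^ (-(1 + ε))) := by
            refine Measurable.const_mul ?_ _
            exact ENNReal.measurable_ofReal.comp ((dl_cont B).measurable.pow_const _)
          rw [lintegral_add_left hmeas, lintegral_const_mul' _ _ ENNReal.ofReal_ne_top,
            lintegral_const_mul' _ _ ENNReal.ofReal_ne_top, hJ₁', hJ₂']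
      _ = ENNReal.ofReal (K * R ^ E) := by
          rw [← ENNReal.ofReal_mul (by positivity), ← ENNReal.ofReal_mul (by positivity),
            ← ENNReal.ofReal_add (by positivity) (by positivity), hKdef]
          congr 1
          ring
  have hintS : ∫⁻ g, ENNReal.ofReal ((∑ j, ‖m j g‖ ^ 2) ^ (r / 2)) ∂μ ≤
      ENNReal.ofReal (d ^ s * (K * R ^ E)) := by
    have h1 : ∀ g, ENNReal.ofReal ((∑ j, ‖m j g‖ ^ 2) ^ (r / 2)) =
        ENNReal.ofReal ((d : ℝ) ^ s) * ENNReal.ofReal ((S g / d) ^ s) := by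
      intro g
      rw [← ENNReal.ofReal_mul (by positivity), ← Real.mul_rpow hd0r.le
        (div_nonneg (hS0 g) hd0r.le), mul_div_cancel₀ _ hd0r.ne', hS, hsdef]
    rw [lintegral_congr h1, lintegral_const_mul' _ _ ENNReal.ofReal_ne_top,
      ENNReal.ofReal_mul (by positivity)]
    gcongr
  obtain ⟨σ, hσs⟩ := l08_sign μ r hr0 Ck hCk hkh d m hmc
  let cc : Fin d → ℂ := fun j => if σ j then 1 else -1
  let xs : KFin L π := ∑ j, cc j • v j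
  have hxs : xs ∈ A.eig lam := Submodule.sum_mem _ fun j _ =>
    Submodule.smul_mem _ _ ((hFmem _).1 (hvF j)).1
  have hxn : ‖xs‖ = Real.sqrt d := by
    have h1 : inner ℂ xs xs = (d : ℂ) := by
      show inner ℂ (∑ j, cc j • v j) (∑ j, cc j • v j) = (d : ℂ)
      rw [hvo.inner_sum]
      have h2 : ∀ j ∈ (Finset.univ : Finset (Fin d)), (starRingEnd ℂ) (cc j) * cc j = 1 := by
        intro j _
        show (starRingEnd ℂ) (if σ j then 1 else -1) * (if σ j then 1 else -1) = 1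
        split_ifs <;> simp
      rw [Finset.sum_congr rfl h2]
      simp
    have h3 : ‖xs‖ ^ 2 = d := by
      rw [← inner_self_eq_norm_sq (𝕜 := ℂ), h1]
      simp
    rw [← h3, Real.sqrt_sq (norm_nonneg _)]
  have hsd : 0 < Real.sqrt d := Real.sqrt_pos.2 hd0r
  refine ⟨(((Real.sqrt d)⁻¹ : ℝ) : ℂ) • xs,
    A.eig_le_low hlam (Submodule.smul_mem _ _ hxs), ?_, ?_⟩
  · rw [norm_smul, hxn, Complex.norm_real, Real.norm_of_nonneg (by positivity),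
      inv_mul_cancel₀ hsd.ne']
  have hmx : ∀ g, mc π w (((((Real.sqrt d)⁻¹ : ℝ) : ℂ) • xs : KFin L π) : H) g =
      (((Real.sqrt d)⁻¹ : ℝ) : ℂ) * ∑ j, (if σ j then m j g else -m j g) := by
    intro g
    have h1 : (((((Real.sqrt d)⁻¹ : ℝ) : ℂ) • xs : KFin L π) : H) =
        (((Real.sqrt d)⁻¹ : ℝ) : ℂ) • ∑ j, cc j • ((v j : KFin L π) : H) := by
      show (KFin L π).subtype ((((Real.sqrt d)⁻¹ : ℝ) : ℂ) • ∑ j, cc j • v j) = _
      rw [map_smul, map_sum]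
      rfl
    rw [mc, h1, map_smul, inner_smul_right, map_sum, inner_sum]
    congr 1
    refine Finset.sum_congr rfl fun j _ => ?_
    rw [map_smul, inner_smul_right, hm]
    show (if σ j then (1 : ℂ) else -1) * mc π w ((v j : KFin L π) : H) g = _
    split_ifs <;> simp
  have hrt : (ENNReal.ofReal r).toReal = r := ENNReal.toReal_ofReal hr0.le
  have hr' : ENNReal.ofReal r ≠ 0 := by
    rw [Ne, ENNReal.ofReal_eq_zero, not_le]
    exact hr0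
  rw [pr, eLpNorm_eq_lintegral_rpow_enorm_toReal hr' ENNReal.ofReal_ne_top, hrt]
  have hfinal : ∫⁻ g, ‖mc π w (((((Real.sqrt d)⁻¹ : ℝ) : ℂ) • xs : KFin L π) : H) g‖ₑ ^ r ∂μ ≤
      ENNReal.ofReal (Ck * (K + 1) * R ^ E) := by
    have h1 : ∀ g, ‖mc π w (((((Real.sqrt d)⁻¹ : ℝ) : ℂ) • xs : KFin L π) : H) g‖ₑ ^ r =
        ENNReal.ofReal ((Real.sqrt d)⁻¹ ^ r) *
          ‖∑ j, (if σ j then m j g else -m j g)‖ₑ ^ r := by
      intro g
      rw [hmx, enorm_mul, ENNReal.mul_rpow_of_nonneg _ _ hr0.le]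
      congr 1
      rw [← ofReal_norm, Complex.norm_real, Real.norm_of_nonneg (by positivity),
        ENNReal.ofReal_rpow_of_nonneg (by positivity) hr0.le]
    rw [lintegral_congr h1, lintegral_const_mul' _ _ ENNReal.ofReal_ne_top]
    calc ENNReal.ofReal ((Real.sqrt d)⁻¹ ^ r) *
          ∫⁻ g, ‖∑ j, (if σ j then m j g else -m j g)‖ₑ ^ r ∂μ
        ≤ ENNReal.ofReal ((Real.sqrt d)⁻¹ ^ r) *
          (ENNReal.ofReal Ck * ENNReal.ofReal (d ^ s * (K * R ^ E))) := by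
          refine mul_le_mul_right (hσs.trans (mul_le_mul_right hintS _)) _
      _ = ENNReal.ofReal (Ck * K * R ^ E) := by
          rw [← ENNReal.ofReal_mul hCk.le, ← ENNReal.ofReal_mul (by positivity)]
          congr 1
          rw [Real.inv_rpow hsd.le, Real.sqrt_eq_rpow, ← Real.rpow_mul hd0r.le]
          have h2 : 1 / 2 * r = s := by rw [hsdef]; ring
          rw [h2]
          have h3 : (d : ℝ) ^ s ≠ 0 := by positivity
          field_simp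
      _ ≤ ENNReal.ofReal (Ck * (K + 1) * R ^ E) := by
          apply ENNReal.ofReal_le_ofReal
          gcongr
          linarith
  refine (ENNReal.rpow_le_rpow hfinal (by positivity)).trans ?_
  rw [ENNReal.ofReal_rpow_of_nonneg (by positivity) (by positivity)]
  refine ENNReal.ofReal_le_ofReal ?_
  rw [Real.mul_rpow (by positivity) (by positivity), ← Real.rpow_mul hRp.le]
  refine mul_le_mul_of_nonneg_left (le_of_eq ?_) (by positivity)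
  congr 1
  rw [hE, hsdef]
  field_simp
  ring

end SBD
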