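import Pool.Agent.SBX.UDefs

/-!
# Row SBX-U01 : words on an eigenvector stay in `low (4 lam)`

* `bound4` : `norm_D_le` (A04) with `R = 4 lam`: `‖D X v‖ ≤ C√(fsq X)·2√lam ‖v‖`.
* `wd_low` : by A03 (`band`) `D X` maps `eig l` into the sum of the `eig l'`, `|l' - l| ≤ C√l`, hence
  `low R` into `low (R + C√R)` (`mem_low_iff`; `l + C√l ≤ R + C√R`).  Induction on `k`: for a word of length
  `k` the vector is in `low (lam + C_k √lam)` with `C_{k+1} = C_k + C√(1 + C_k)` (`lam ≥ 1`), so in `low (4 lam)` if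
  `C_k √lam ≤ 3 lam`.
* `bs_mem`, `bs_fsq` : from the fields.
-/

open scoped Matrix

noncomputable section

namespace SBD

namespace LieRep

variable {N : ℕ} {V : Type} [NormedAddCommGroup V] [InnerProductSpace ℂ V] (A : LieRep N V)

theorem bs_mem (i : A.J) : A.bs i ∈ A.𝔤 := by
  rcases i with i | i
  · exact A.Z_mem i
  · exact A.P_mem i

theorem bs_fsq (i : A.J) : fsq (A.bs i) = 1 := by
  rcases i with i | i
  · exact (A.Z_o i i).trans (if_pos rfl)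
  · exact (A.P_o i i).trans (if_pos rfl)

theorem bound4 (hA : A.IsAdm) : ∃ C : ℝ, 1 ≤ C ∧ ∀ lam : ℝ, 1 ≤ lam → ∀ v ∈ A.low (4 * lam),
    ∀ X ∈ A.𝔤, ‖(((Real.sqrt lam)⁻¹ : ℝ) : ℂ) • A.D X v‖ ≤ C * Real.sqrt (fsq X) * ‖v‖ := by
  obtain ⟨C, hC, h⟩ := A.norm_D_le hA
  refine ⟨2 * C, by linarith, ?_⟩
  intro lam hlam v hv X hX
  have h1 := h X hX (4 * lam) (by linarith) v hv
  have h2 : Real.sqrt (4 * lam) = 2 * Real.sqrt lam := by
    rw [Real.sqrt_mul (by norm_num : (0 : ℝ) ≤ 4)]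
    congr 1
    rw [show (4 : ℝ) = 2 ^ 2 by norm_num]
    exact Real.sqrt_sq (by norm_num)
  rw [h2] at h1
  have h3 : 0 < Real.sqrt lam := Real.sqrt_pos.2 (by linarith)
  rw [norm_smul, Complex.norm_real, Real.norm_of_nonneg (inv_nonneg.2 h3.le),
    inv_mul_le_iff₀ h3]
  calc ‖A.D X v‖ ≤ C * Real.sqrt (fsq X) * (2 * Real.sqrt lam) * ‖v‖ := h1
    _ = _ := by ring

private theorem U01_step {C : ℝ} (hC : 1 ≤ C)
    (h : ∀ X ∈ A.𝔤, ∀ lam : ℝ, ∀ ψ ∈ A.eig lam, ∃ (s : Finset ℝ) (f : ℝ → V),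
      (∀ l ∈ s, |l - lam| ≤ C * Real.sqrt lam ∧ f l ∈ A.eig l) ∧ A.D X ψ = ∑ l ∈ s, f l)
    {X : Mat N} (hX : X ∈ A.𝔤) {R : ℝ} {v : V} (hv : v ∈ A.low R) :
    A.D X v ∈ A.low (R + C * Real.sqrt R) := by
  obtain ⟨s, f, h1, rfl⟩ := A.mem_low_iff.1 hv
  rw [map_sum]
  refine Submodule.sum_mem _ fun l hl => ?_
  obtain ⟨hlR, hfl⟩ := h1 l hl
  obtain ⟨t, g, h2, h3⟩ := h X hX l (f l) hfl
  rw [h3]
  refine Submodule.sum_mem _ fun l' hl' => ?_
  obtain ⟨h4, h5⟩ := h2 l' hl'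
  refine A.eig_le_low ?_ h5
  have h6 := (abs_le.1 h4).2
  have h7 : Real.sqrt l ≤ Real.sqrt R := Real.sqrt_le_sqrt hlR
  nlinarith

private theorem U01_word {C : ℝ} (hC : 1 ≤ C)
    (h : ∀ X ∈ A.𝔤, ∀ lam : ℝ, ∀ ψ ∈ A.eig lam, ∃ (s : Finset ℝ) (f : ℝ → V),
      (∀ l ∈ s, |l - lam| ≤ C * Real.sqrt lam ∧ f l ∈ A.eig l) ∧ A.D X ψ = ∑ l ∈ s, f l)
    (k : ℕ) : ∃ c : ℝ, 0 ≤ c ∧ ∀ lam : ℝ, 1 ≤ lam →
    ∀ e ∈ A.eig lam, ∀ (s : ℝ) (l : List A.J), l.length ≤ k →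
      A.wd s l e ∈ A.low (lam + c * Real.sqrt lam) := by
  induction k with
  | zero =>
    refine ⟨0, le_refl 0, ?_⟩
    intro lam hlam e he s l hl
    have hl0 : l = [] := List.length_eq_zero_iff.1 (Nat.le_zero.1 hl)
    subst hl0
    exact A.eig_le_low (by rw [zero_mul, add_zero]) he
  | succ k ih =>
    obtain ⟨c, hc, ih⟩ := ih
    refine ⟨c + C * Real.sqrt (1 + c), by positivity, ?_⟩
    intro lam hlam e he s l hl
    have h0 : 0 ≤ Real.sqrt lam := Real.sqrt_nonneg _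
    have h1 : 0 ≤ Real.sqrt (1 + c) := Real.sqrt_nonneg _
    rcases l with _ | ⟨i, l⟩
    · refine A.eig_le_low ?_ he
      have : 0 ≤ (c + C * Real.sqrt (1 + c)) * Real.sqrt lam := by positivity
      linarith
    · have hl' : l.length ≤ k := by
        rw [List.length_cons] at hl
        omega
      have h2 := ih lam hlam e he s l hl'
      have h3 : Real.sqrt lam ≤ lam := by
        rw [Real.sqrt_le_left (by linarith)]
        nlinarith
      have h4 : Real.sqrt (lam + c * Real.sqrt lam) ≤ Real.sqrt (1 + c) * Real.sqrt lam := by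
        rw [← Real.sqrt_mul (by linarith)]
        apply Real.sqrt_le_sqrt
        nlinarith
      have h5 := A.U01_step hC h (A.bs_mem i) h2
      have h6 : A.wd s (i :: l) e = ((s : ℝ) : ℂ) • A.D (A.bs i) (A.wd s l e) := rfl
      rw [h6]
      refine Submodule.smul_mem _ _ (A.low_mono ?_ h5)
      nlinarith

theorem wd_low (hA : A.IsAdm) (k : ℕ) : ∃ lam0 : ℝ, 1 ≤ lam0 ∧ ∀ lam : ℝ, lam0 ≤ lam →
    ∀ e ∈ A.eig lam, ∀ (s : ℝ) (l : List A.J), l.length ≤ k → A.wd s l e ∈ A.low (4 * lam) := by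
  obtain ⟨C, hC, h⟩ := A.band hA
  obtain ⟨c, hc, h1⟩ := A.U01_word hC h k
  refine ⟨1 + c ^ 2, by nlinarith, ?_⟩
  intro lam hlam e he s l hl
  have hlam1 : 1 ≤ lam := by nlinarith
  refine A.low_mono ?_ (h1 lam hlam1 e he s l hl)
  have h2 : c ≤ Real.sqrt lam := Real.le_sqrt_of_sq_le (by nlinarith)
  have h3 : Real.sqrt lam * Real.sqrt lam = lam := Real.mul_self_sqrt (by linarith)
  nlinarith [Real.sqrt_nonneg lam]

end LieRep

end SBD
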