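import Mathlib

/-!
# Row SBX-U02 : the power method

Let `T` be a symmetric operator on a complex pre-Hilbert space, `c > 0`, `x ≠ 0`, and suppose
`c‖y‖² ≤ ⟨Ty,y⟩` and `‖Ty‖ ≤ 3c‖y‖` for all `y` in the span of `x, Tx, …, T^{L+2}x`.  If `L` is large
(depending on `η` only) one of the `T^j x`, `j ≤ L`, is an approximate eigenvector.

PROOF.  `x_j = T^j x`; `‖Ty‖ ≥ c‖y‖` (Cauchy–Schwarz) so `x_j ≠ 0` and `‖x_j‖ ≥ c^j‖x‖` for `j ≤ L + 2`.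
`r_j = ‖x_{j+1}‖/‖x_j‖ ∈ [c, 3c]` for `j ≤ L + 1`, and `r_j ≤ r_{j+1}`: `‖x_{j+1}‖² = ⟨x_j, x_{j+2}⟩ ≤
‖x_j‖‖x_{j+2}‖`.  `∏_{j≤L} r_{j+1}/r_j = r_{L+1}/r_0 ≤ 3`, so some `j ≤ L` has `(r_{j+1}/r_j)^{L+1} ≤ 3`,
hence `r_{j+1}² ≤ (1 + κ) r_j²` with `κ = 3^{2/(L+1)} - 1 → 0` as `L → ∞`.  With `y = x_j`, `r = r_j`:
`‖(T² - r²)y‖² = ‖x_{j+2}‖² - 2r²Re⟨x_{j+2},x_j⟩ + r⁴‖x_j‖² = ‖y‖²(r_j²r_{j+1}² - 2r⁴ + r⁴) ≤ κ r⁴‖y‖²`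
(`⟨x_{j+2},x_j⟩ = ‖x_{j+1}‖² = r²‖y‖²`).  `z = (T - r)y` is in the span; `(T + r)z = (T² - r²)y` and
`‖(T+r)z‖‖z‖ ≥ Re⟨(T+r)z,z⟩ ≥ (c + r)‖z‖²`, so `‖z‖ ≤ √κ r²/(c+r) ‖y‖ ≤ √κ r ‖y‖ ≤ 3√κ c‖y‖ ≤ ηc‖y‖`.
-/

open scoped Matrix

noncomputable section

namespace SBX

theorem power_step (η : ℝ) (hη : 0 < η) : ∃ L : ℕ, ∀ {V : Type} [NormedAddCommGroup V]
    [InnerProductSpace ℂ V] (T : V →ₗ[ℂ] V) (_hT : ∀ u v : V, inner ℂ (T u) v = inner ℂ u (T v))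
    (c : ℝ) (_hc : 0 < c) (x : V) (_hx : x ≠ 0)
    (_h : ∀ y ∈ Submodule.span ℂ (Set.range fun i : Fin (L + 3) => (T ^ (i : ℕ)) x),
      c * ‖y‖ ^ 2 ≤ (inner ℂ (T y) y).re ∧ ‖T y‖ ≤ 3 * c * ‖y‖),
    ∃ j ≤ L, ∃ r : ℝ, c ≤ r ∧ r ≤ 3 * c ∧ ‖T ((T ^ j) x) - (r : ℂ) • (T ^ j) x‖ ≤
      η * c * ‖(T ^ j) x‖ ∧ c ^ j * ‖x‖ ≤ ‖(T ^ j) x‖ := by
  have hκ : 0 < η ^ 2 / 9 := by positivity
  obtain ⟨κ, hκe⟩ : ∃ κ : ℝ, κ = η ^ 2 / 9 := ⟨_, rfl⟩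
  rw [← hκe] at hκ
  obtain ⟨L, hL⟩ : ∃ L : ℕ, (9 : ℝ) < (1 + κ) ^ L :=
    pow_unbounded_of_one_lt 9 (by linarith)
  have hL' : (9 : ℝ) < (1 + κ) ^ (L + 1) := by
    rw [pow_succ]
    nlinarith [pow_pos (show (0 : ℝ) < 1 + κ by linarith) L]
  refine ⟨L, ?_⟩
  intro V _ _ T hT c hc x hx h
  have hsucc : ∀ j : ℕ, (T ^ (j + 1)) x = T ((T ^ j) x) := by
    intro j
    rw [pow_succ', Module.End.mul_apply]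
  have hmem : ∀ j : ℕ, j ≤ L + 2 → (T ^ j) x ∈
      Submodule.span ℂ (Set.range fun i : Fin (L + 3) => (T ^ (i : ℕ)) x) := by
    intro j hj
    exact Submodule.subset_span ⟨⟨j, by omega⟩, rfl⟩
  have hx0 : 0 < ‖x‖ := norm_pos_iff.mpr hx
  -- lower and upper bounds for one step
  have hstep : ∀ j : ℕ, j ≤ L + 2 → 0 < ‖(T ^ j) x‖ →
      c * ‖(T ^ j) x‖ ≤ ‖(T ^ (j + 1)) x‖ ∧ ‖(T ^ (j + 1)) x‖ ≤ 3 * c * ‖(T ^ j) x‖ := by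
    intro j hj hpos
    obtain ⟨h1, h2⟩ := h _ (hmem j hj)
    rw [← hsucc] at h1 h2
    refine ⟨?_, h2⟩
    have h3 : (inner ℂ ((T ^ (j + 1)) x) ((T ^ j) x)).re ≤ ‖(T ^ (j + 1)) x‖ * ‖(T ^ j) x‖ :=
      re_inner_le_norm (𝕜 := ℂ) _ _
    have h4 : c * ‖(T ^ j) x‖ ^ 2 ≤ ‖(T ^ (j + 1)) x‖ * ‖(T ^ j) x‖ := h1.trans h3
    nlinarith
  have hpos : ∀ j : ℕ, j ≤ L + 3 → 0 < ‖(T ^ j) x‖ ∧ c ^ j * ‖x‖ ≤ ‖(T ^ j) x‖ := by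
    intro j
    induction j with
    | zero =>
      intro _
      simp [hx0]
    | succ j ih =>
      intro hj
      obtain ⟨i1, i2⟩ := ih (by omega)
      obtain ⟨s1, -⟩ := hstep j (by omega) i1
      have : 0 < c * ‖(T ^ j) x‖ := mul_pos hc i1
      refine ⟨lt_of_lt_of_le this s1, ?_⟩
      calc c ^ (j + 1) * ‖x‖ = c * (c ^ j * ‖x‖) := by ring
        _ ≤ c * ‖(T ^ j) x‖ := by apply mul_le_mul_of_nonneg_left i2 hc.le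
        _ ≤ _ := s1
  have hinner : ∀ j : ℕ, (inner ℂ ((T ^ (j + 2)) x) ((T ^ j) x)).re = ‖(T ^ (j + 1)) x‖ ^ 2 := by
    intro j
    have e1 : (inner ℂ ((T ^ (j + 2)) x) ((T ^ j) x) : ℂ) =
        inner ℂ ((T ^ (j + 1)) x) ((T ^ (j + 1)) x) := by
      rw [hsucc (j + 1), hT, ← hsucc j]
    rw [e1]
    exact (norm_sq_eq_re_inner (𝕜 := ℂ) ((T ^ (j + 1)) x)).symm
  -- the good index
  obtain ⟨j, hjL, hj⟩ : ∃ j ≤ L, ‖(T ^ (j + 2)) x‖ ^ 2 * ‖(T ^ j) x‖ ^ 2 ≤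
      (1 + κ) * (‖(T ^ (j + 1)) x‖ ^ 2) ^ 2 := by
    by_contra hno
    push Not at hno
    have hind : ∀ i : ℕ, i ≤ L + 1 →
        (1 + κ) ^ i * ‖(T ^ 1) x‖ ^ 2 * ‖(T ^ i) x‖ ^ 2 ≤ ‖(T ^ (i + 1)) x‖ ^ 2 * ‖x‖ ^ 2 := by
      intro i
      induction i with
      | zero => intro _; simp
      | succ i ih =>
        intro hi
        have h1 := ih (by omega)
        have h2 := hno i (by omega)
        have p0 := (hpos i (by omega)).1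
        have p1 := (hpos (i + 1) (by omega)).1
        have q0 : 0 < ‖(T ^ i) x‖ ^ 2 := by positivity
        have q1 : 0 < ‖(T ^ (i + 1)) x‖ ^ 2 := by positivity
        have hk : 0 < (1 + κ) := by linarith
        -- multiply
        have h3 : ((1 + κ) ^ (i + 1) * ‖(T ^ 1) x‖ ^ 2 * ‖(T ^ (i + 1)) x‖ ^ 2) *
            (‖(T ^ i) x‖ ^ 2) ≤ (‖(T ^ (i + 1 + 1)) x‖ ^ 2 * ‖x‖ ^ 2) * (‖(T ^ i) x‖ ^ 2) := by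
          calc ((1 + κ) ^ (i + 1) * ‖(T ^ 1) x‖ ^ 2 * ‖(T ^ (i + 1)) x‖ ^ 2) * (‖(T ^ i) x‖ ^ 2)
              = ((1 + κ) * ‖(T ^ (i + 1)) x‖ ^ 2) *
                ((1 + κ) ^ i * ‖(T ^ 1) x‖ ^ 2 * ‖(T ^ i) x‖ ^ 2) := by ring
            _ ≤ ((1 + κ) * ‖(T ^ (i + 1)) x‖ ^ 2) * (‖(T ^ (i + 1)) x‖ ^ 2 * ‖x‖ ^ 2) := by
                apply mul_le_mul_of_nonneg_left h1 (by positivity)
            _ = ((1 + κ) * (‖(T ^ (i + 1)) x‖ ^ 2) ^ 2) * ‖x‖ ^ 2 := by ring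
            _ ≤ (‖(T ^ (i + 2)) x‖ ^ 2 * ‖(T ^ i) x‖ ^ 2) * ‖x‖ ^ 2 := by
                apply mul_le_mul_of_nonneg_right h2.le (by positivity)
            _ = (‖(T ^ (i + 1 + 1)) x‖ ^ 2 * ‖x‖ ^ 2) * (‖(T ^ i) x‖ ^ 2) := by ring
        exact le_of_mul_le_mul_right h3 q0
    have h1 := hind (L + 1) le_rfl
    have p0 : 0 < ‖(T ^ 0) x‖ := (hpos 0 (by omega)).1
    have s0 := (hstep 0 (by omega) p0).1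
    have pL := (hpos (L + 1) (by omega)).1
    have sL := (hstep (L + 1) (by omega) pL).2
    simp only [pow_zero, Module.End.one_apply, zero_add] at s0
    have hA : c ^ 2 * ‖x‖ ^ 2 ≤ ‖(T ^ 1) x‖ ^ 2 := by
      have : 0 ≤ c * ‖x‖ := by positivity
      calc c ^ 2 * ‖x‖ ^ 2 = (c * ‖x‖) ^ 2 := by ring
        _ ≤ _ := pow_le_pow_left₀ this s0 2
    have hB : ‖(T ^ (L + 1 + 1)) x‖ ^ 2 ≤ 9 * c ^ 2 * ‖(T ^ (L + 1)) x‖ ^ 2 := by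
      calc ‖(T ^ (L + 1 + 1)) x‖ ^ 2 ≤ (3 * c * ‖(T ^ (L + 1)) x‖) ^ 2 :=
            pow_le_pow_left₀ (norm_nonneg _) sL 2
        _ = _ := by ring
    have hC : 0 < c ^ 2 * ‖x‖ ^ 2 * ‖(T ^ (L + 1)) x‖ ^ 2 := by positivity
    have hD : (1 + κ) ^ (L + 1) * (c ^ 2 * ‖x‖ ^ 2 * ‖(T ^ (L + 1)) x‖ ^ 2) ≤
        9 * (c ^ 2 * ‖x‖ ^ 2 * ‖(T ^ (L + 1)) x‖ ^ 2) := by
      calc (1 + κ) ^ (L + 1) * (c ^ 2 * ‖x‖ ^ 2 * ‖(T ^ (L + 1)) x‖ ^ 2)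
          = (1 + κ) ^ (L + 1) * ‖(T ^ (L + 1)) x‖ ^ 2 * (c ^ 2 * ‖x‖ ^ 2) := by ring
        _ ≤ (1 + κ) ^ (L + 1) * ‖(T ^ (L + 1)) x‖ ^ 2 * ‖(T ^ 1) x‖ ^ 2 := by
            apply mul_le_mul_of_nonneg_left hA (by positivity)
        _ = (1 + κ) ^ (L + 1) * ‖(T ^ 1) x‖ ^ 2 * ‖(T ^ (L + 1)) x‖ ^ 2 := by ring
        _ ≤ ‖(T ^ (L + 1 + 1)) x‖ ^ 2 * ‖x‖ ^ 2 := h1
        _ ≤ (9 * c ^ 2 * ‖(T ^ (L + 1)) x‖ ^ 2) * ‖x‖ ^ 2 := by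
            apply mul_le_mul_of_nonneg_right hB (by positivity)
        _ = _ := by ring
    have := le_of_mul_le_mul_right hD hC
    linarith
  -- the approximate eigenvector
  obtain ⟨p0, pj⟩ := hpos j (by omega)
  obtain ⟨s1, s2⟩ := hstep j (by omega) p0
  obtain ⟨r, hr⟩ : ∃ r : ℝ, r = ‖(T ^ (j + 1)) x‖ / ‖(T ^ j) x‖ := ⟨_, rfl⟩
  have hra : ‖(T ^ (j + 1)) x‖ = r * ‖(T ^ j) x‖ := by rw [hr]; field_simp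
  have hcr : c ≤ r := by
    rw [hr, le_div_iff₀ p0]; exact s1
  have hr3 : r ≤ 3 * c := by
    rw [hr, div_le_iff₀ p0]; exact s2
  have hr0 : 0 < r := lt_of_lt_of_le hc hcr
  refine ⟨j, hjL, r, hcr, hr3, ?_, pj⟩
  obtain ⟨z, hz⟩ : ∃ z : V, z = T ((T ^ j) x) - (r : ℂ) • (T ^ j) x := ⟨_, rfl⟩
  rw [← hz]
  have hzm : z ∈ Submodule.span ℂ (Set.range fun i : Fin (L + 3) => (T ^ (i : ℕ)) x) := by
    rw [hz, ← hsucc]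
    exact Submodule.sub_mem _ (hmem _ (by omega)) (Submodule.smul_mem _ _ (hmem _ (by omega)))
  obtain ⟨z1, -⟩ := h z hzm
  have hTz : T z + (r : ℂ) • z = (T ^ (j + 2)) x - ((r : ℂ) ^ 2) • (T ^ j) x := by
    rw [hz, map_sub, map_smul, ← hsucc, ← hsucc, smul_sub, smul_smul, pow_two]
    abel
  have hn : ‖T z + (r : ℂ) • z‖ ^ 2 ≤ κ * r ^ 4 * ‖(T ^ j) x‖ ^ 2 := by
    have e1 : ‖T z + (r : ℂ) • z‖ ^ 2 = ‖(T ^ (j + 2)) x‖ ^ 2 -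
        2 * (r ^ 2 * ‖(T ^ (j + 1)) x‖ ^ 2) + r ^ 4 * ‖(T ^ j) x‖ ^ 2 := by
      rw [hTz, @norm_sub_sq ℂ, inner_smul_right, norm_smul]
      have e2 : ((r : ℂ) ^ 2 * inner ℂ ((T ^ (j + 2)) x) ((T ^ j) x)).re =
          r ^ 2 * ‖(T ^ (j + 1)) x‖ ^ 2 := by
        rw [← hinner j, ← Complex.ofReal_pow, Complex.re_ofReal_mul]
      have e3 : ‖((r : ℂ) ^ 2)‖ = r ^ 2 := by
        rw [norm_pow, Complex.norm_real, Real.norm_eq_abs, sq_abs]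
      rw [e3]
      change _ - 2 * ((r : ℂ) ^ 2 * inner ℂ ((T ^ (j + 2)) x) ((T ^ j) x)).re + _ = _
      rw [e2]
      ring
    rw [e1, hra]
    rw [hra] at hj
    have q0 : 0 < ‖(T ^ j) x‖ ^ 2 := by positivity
    have h5 : ‖(T ^ (j + 2)) x‖ ^ 2 ≤ (1 + κ) * r ^ 4 * ‖(T ^ j) x‖ ^ 2 := by
      apply le_of_mul_le_mul_right _ q0
      calc _ ≤ (1 + κ) * ((r * ‖(T ^ j) x‖) ^ 2) ^ 2 := hj
        _ = _ := by ring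
    nlinarith
  have hcs : (c + r) * ‖z‖ ^ 2 ≤ ‖T z + (r : ℂ) • z‖ * ‖z‖ := by
    have e1 : (inner ℂ (T z + (r : ℂ) • z) z).re = (inner ℂ (T z) z).re + r * ‖z‖ ^ 2 := by
      rw [inner_add_left, inner_smul_left, Complex.add_re, Complex.conj_ofReal,
        Complex.re_ofReal_mul]
      congr 2
      exact (norm_sq_eq_re_inner (𝕜 := ℂ) z).symm
    have e2 : (inner ℂ (T z + (r : ℂ) • z) z).re ≤ ‖T z + (r : ℂ) • z‖ * ‖z‖ :=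
      re_inner_le_norm (𝕜 := ℂ) _ _
    rw [e1] at e2
    linarith
  have hfin : ‖z‖ ^ 2 ≤ (η * c * ‖(T ^ j) x‖) ^ 2 := by
    by_cases hz0 : ‖z‖ = 0
    · rw [hz0, zero_pow two_ne_zero]; positivity
    · have hzp : 0 < ‖z‖ := lt_of_le_of_ne (norm_nonneg _) (Ne.symm hz0)
      have h6 : (c + r) * ‖z‖ ≤ ‖T z + (r : ℂ) • z‖ := by
        apply le_of_mul_le_mul_right _ hzp
        calc (c + r) * ‖z‖ * ‖z‖ = (c + r) * ‖z‖ ^ 2 := by ring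
          _ ≤ _ := hcs
      have h7 : ((c + r) * ‖z‖) ^ 2 ≤ κ * r ^ 4 * ‖(T ^ j) x‖ ^ 2 :=
        (pow_le_pow_left₀ (by positivity) h6 2).trans hn
      have h8 : r ^ 2 * ‖z‖ ^ 2 ≤ r ^ 2 * (κ * r ^ 2 * ‖(T ^ j) x‖ ^ 2) := by
        calc r ^ 2 * ‖z‖ ^ 2 ≤ (c + r) ^ 2 * ‖z‖ ^ 2 := by
              apply mul_le_mul_of_nonneg_right _ (by positivity)
              apply pow_le_pow_left₀ hr0.le (by linarith)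
          _ = ((c + r) * ‖z‖) ^ 2 := by ring
          _ ≤ κ * r ^ 4 * ‖(T ^ j) x‖ ^ 2 := h7
          _ = _ := by ring
      have h9 : ‖z‖ ^ 2 ≤ κ * r ^ 2 * ‖(T ^ j) x‖ ^ 2 :=
        le_of_mul_le_mul_left h8 (by positivity)
      have h10 : r ^ 2 ≤ (3 * c) ^ 2 := pow_le_pow_left₀ hr0.le hr3 2
      calc ‖z‖ ^ 2 ≤ κ * r ^ 2 * ‖(T ^ j) x‖ ^ 2 := h9
        _ ≤ κ * (3 * c) ^ 2 * ‖(T ^ j) x‖ ^ 2 := by gcongr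
        _ = (η * c * ‖(T ^ j) x‖) ^ 2 := by rw [hκe]; ring
  exact (pow_le_pow_iff_left₀ (norm_nonneg _) (by positivity) two_ne_zero).mp hfin

end SBX
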