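import Pool.Agent.SBX.U01
import Pool.Agent.SBX.U02

/-!
# Row SBX-U03 : coherent vectors in the polynomial span of an eigenvector

PROOF.  `s = lam^{-1/2}`.  `C₀ ≥ 1` from `bound4`; `G_i v = -i s D(b_i) v` is symmetric (`A.skew`), and for
`v ∈ low(4lam)`: `‖G_iv‖ ≤ C₀‖v‖`, `‖(G_iG_j - G_jG_i)v‖ = s²‖D([b_i,b_j])v‖ ≤ C₁ s ‖v‖` (`bound4`, `brD`).
`T_i = G_i + 2C₀`: for `v ∈ low(4lam)`: `C₀‖v‖² ≤ ⟨T_iv,v⟩`, `‖T_iv‖ ≤ 3C₀‖v‖`.
For `K : ℕ` let `W_K(lam) = {y : wd s l y ∈ low(4lam) for all l with |l| ≤ K}` (a subspace; words of length `≤ j`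
map `W_{K+j}` to `W_K`; `e ∈ W_K(lam)` for `lam ≥ lam0(K)` by `wd_low`).
CLAIM (induction on a list `q` of indices): for every `δ > 0` there are `K, C, lam0` such that for `lam ≥ lam0`,
`0 ≠ y ∈ W_K(lam)`, there is a combination `x` of words of length `≤ K - 1` applied to `y` with coefficient sum
`≤ C`, `‖x‖ ≥ C⁻¹‖y‖`, and real `γ_i` (`i ∈ q`), `|γ_i| ≤ C₀` with `‖G_ix - γ_ix‖ ≤ δ‖x‖` for `i ∈ q`.
`q = []`: `x = y`.  Step `i :: q`: let `K₁, C₁', lam1` be the constants for `q`, `δ`.  Choose `η` with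
`C₁'·(C₁'(C₀)^{K₁}) η C₀ ≤ δ/2`, `L` from `power_step η`.  For `y ∈ W_K`, `K = K₁ + L + 4`: apply `power_step` to
`T_i`, `c = C₀`, `y` (the span of `y, T_iy, …, T_i^{L+2}y` is in `low(4lam)`): `y₁ = T_i^jy` with
`‖G_iy₁ - γ_iy₁‖ ≤ ηC₀‖y₁‖`, `γ_i = r - 2C₀ ∈ [-C₀,C₀]`, `‖y₁‖ ≥ C₀^j‖y‖ ≥ ‖y‖`; `y₁ ∈ W_{K₁}`.  Apply the claim
for `q` to `y₁`: `x = p y₁` (`p` a combination of words of length `< K₁`, coefficient sum `≤ C₁'`),
`‖x‖ ≥ C₁'⁻¹‖y₁‖`.  `G_ix - γ_ix = p(G_iy₁ - γ_iy₁) + [G_i,p]y₁`, norm `≤ C₁'C₀^{K₁}ηC₀‖y₁‖ + C₂ s‖y₁‖`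
`≤ (δ/2)‖x‖ + C₃s‖x‖ ≤ δ‖x‖` for `lam` large.  `T_i^j` is a combination of words `(G_i)^a`, `a ≤ j`, with
coefficients `≤ (3C₀)^j` in sum.
Apply the claim to the list of all indices and `y = e`; normalise `x` (`‖x‖ ≥ C⁻¹`).  `s D(b_i)x - iγ_ix` is
small for all `i`; let `γ ∈ 𝔤` with `tr(γ b_i) = γ_i`: `γ = -∑_{a} γ_a Z_a + ∑_b γ_b P_b` (`tr(Z_aZ_{a'}) = -δ`,
`tr(P_bP_{b'}) = δ`, `tr(Z_aP_b) = 0`); `fsq γ = ∑γ_i² ≤ (m+n)C₀²`.  For `X = ∑x_ib_i ∈ 𝔤` (`A.basis`), `∑|x_i| ≤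
√(m+n)√(fsq X)`, so `δ/√(m+n)` in place of `δ` gives the claim.
-/

open scoped Matrix

noncomputable section

namespace SBD

namespace LieRep

variable {N : ℕ} {V : Type} [NormedAddCommGroup V] [InnerProductSpace ℂ V] (A : LieRep N V)

/-! ### words and families of operators -/

private def U03_E (s : ℝ) (i : A.J) : V →ₗ[ℂ] V := ((s : ℝ) : ℂ) • A.D (A.bs i)

private theorem U03_E_apply (s : ℝ) (i : A.J) (v : V) :
    U03_E A s i v = ((s : ℝ) : ℂ) • A.D (A.bs i) v := rfl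

private def U03_W (s : ℝ) (l : List A.J) : V →ₗ[ℂ] V :=
  l.foldr (fun i f => (U03_E A s i) ∘ₗ f) LinearMap.id

private theorem U03_W_cons (s : ℝ) (i : A.J) (l : List A.J) (v : V) :
    U03_W A s (i :: l) v = U03_E A s i (U03_W A s l v) := rfl

private theorem U03_W_apply (s : ℝ) (l : List A.J) (v : V) : U03_W A s l v = A.wd s l v := by
  induction l with
  | nil => rfl
  | cons i l ih =>
    rw [U03_W_cons, ih]
    rfl

private theorem U03_W_append (s : ℝ) (l l' : List A.J) (v : V) :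
    U03_W A s (l ++ l') v = U03_W A s l (U03_W A s l' v) := by
  induction l with
  | nil => rfl
  | cons i l ih => rw [List.cons_append, U03_W_cons, U03_W_cons, ih]

private def U03_nrm (c : List A.J →₀ ℂ) : ℝ := c.sum fun _ a => ‖a‖

private theorem U03_nrm_nonneg (c : List A.J →₀ ℂ) : 0 ≤ U03_nrm A c :=
  Finset.sum_nonneg fun _ _ => norm_nonneg _

private theorem U03_nrm_eq (c : List A.J →₀ ℂ) (S : Finset (List A.J)) (hS : c.support ⊆ S) :
    U03_nrm A c = ∑ l ∈ S, ‖c l‖ :=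
  Finsupp.sum_of_support_subset c hS _ (fun _ _ => norm_zero)

private theorem U03_nrm_add (c c' : List A.J →₀ ℂ) :
    U03_nrm A (c + c') ≤ U03_nrm A c + U03_nrm A c' := by
  classical
  rw [U03_nrm_eq A (c + c') (c.support ∪ c'.support) Finsupp.support_add,
    U03_nrm_eq A c (c.support ∪ c'.support) Finset.subset_union_left,
    U03_nrm_eq A c' (c.support ∪ c'.support) Finset.subset_union_right,
    ← Finset.sum_add_distrib]
  exact Finset.sum_le_sum fun l _ => by rw [Finsupp.add_apply]; exact norm_add_le _ _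

private theorem U03_nrm_smul (a : ℂ) (c : List A.J →₀ ℂ) :
    U03_nrm A (a • c) ≤ ‖a‖ * U03_nrm A c := by
  rw [U03_nrm_eq A (a • c) c.support Finsupp.support_smul,
    U03_nrm_eq A c c.support (Finset.Subset.refl _), Finset.mul_sum]
  exact Finset.sum_le_sum fun l _ => by rw [Finsupp.smul_apply, smul_eq_mul, norm_mul]

private theorem U03_wsum_add (s : ℝ) (c c' : List A.J →₀ ℂ) (v : V) :
    A.wsum s (c + c') v = A.wsum s c v + A.wsum s c' v :=
  Finsupp.sum_add_index' (fun _ => zero_smul _ _) (fun _ _ _ => add_smul _ _ _)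

private theorem U03_wsum_smul (s : ℝ) (a : ℂ) (c : List A.J →₀ ℂ) (v : V) :
    A.wsum s (a • c) v = a • A.wsum s c v := by
  unfold wsum
  have h1 : ((a • c).sum fun l a => a • A.wd s l v) = ∑ l ∈ c.support, (a • c) l • A.wd s l v :=
    Finsupp.sum_of_support_subset _ Finsupp.support_smul _ (fun _ _ => zero_smul _ _)
  rw [h1]
  unfold Finsupp.sum
  rw [Finset.smul_sum]
  refine Finset.sum_congr rfl fun l _ => ?_
  rw [Finsupp.smul_apply, smul_eq_mul, mul_smul]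

/-- `f s` is a combination of words of length at most `K` with coefficient sum at most `C`. -/
private def U03_PW (K : ℕ) (C : ℝ) (f : ℝ → V →ₗ[ℂ] V) : Prop :=
  ∃ c : List A.J →₀ ℂ, (∀ l ∈ c.support, l.length ≤ K) ∧ U03_nrm A c ≤ C ∧
    ∀ s v, f s v = A.wsum s c v

private theorem U03_pw_mono {K K' : ℕ} {C C' : ℝ} {f : ℝ → V →ₗ[ℂ] V} (h : U03_PW A K C f)
    (hK : K ≤ K') (hC : C ≤ C') : U03_PW A K' C' f := by
  obtain ⟨c, h1, h2, h3⟩ := h
  exact ⟨c, fun l hl => (h1 l hl).trans hK, h2.trans hC, h3⟩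

private theorem U03_pw_zero (K : ℕ) : U03_PW A K 0 (fun _ => 0) :=
  ⟨0, by simp, by simp [U03_nrm], fun s v => by simp [wsum]⟩

private theorem U03_pw_id : U03_PW A 0 1 (fun _ => LinearMap.id) := by
  classical
  refine ⟨Finsupp.single [] 1, ?_, ?_, ?_⟩
  · intro l hl
    have := Finsupp.support_single_subset hl
    rw [Finset.mem_singleton] at this
    rw [this]
    simp
  · unfold U03_nrm
    rw [Finsupp.sum_single_index (h := fun _ a => ‖a‖) norm_zero, norm_one]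
  · intro s v
    unfold wsum
    rw [Finsupp.sum_single_index (h := fun l a => a • A.wd s l v) (zero_smul _ _), one_smul]
    rfl

private theorem U03_pw_add {K : ℕ} {C C' : ℝ} {f g : ℝ → V →ₗ[ℂ] V} (hf : U03_PW A K C f)
    (hg : U03_PW A K C' g) : U03_PW A K (C + C') (fun s => f s + g s) := by
  classical
  obtain ⟨c, h1, h2, h3⟩ := hf
  obtain ⟨c', h1', h2', h3'⟩ := hg
  refine ⟨c + c', ?_, (U03_nrm_add A c c').trans (add_le_add h2 h2'), ?_⟩
  · intro l hl
    rcases Finset.mem_union.1 (Finsupp.support_add hl) with h | h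
    · exact h1 l h
    · exact h1' l h
  · intro s v
    rw [U03_wsum_add, LinearMap.add_apply, h3, h3']

private theorem U03_pw_smul {K : ℕ} {C : ℝ} {f : ℝ → V →ₗ[ℂ] V} (a : ℂ) (hf : U03_PW A K C f) :
    U03_PW A K (‖a‖ * C) (fun s => a • f s) := by
  obtain ⟨c, h1, h2, h3⟩ := hf
  refine ⟨a • c, fun l hl => h1 l (Finsupp.support_smul hl),
    (U03_nrm_smul A a c).trans (mul_le_mul_of_nonneg_left h2 (norm_nonneg _)), ?_⟩
  intro s v
  rw [U03_wsum_smul, LinearMap.smul_apply, h3]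

private theorem U03_pw_sum {ι : Type*} (S : Finset ι) {K : ℕ} {C : ι → ℝ}
    {f : ι → ℝ → V →ₗ[ℂ] V} (hf : ∀ i ∈ S, U03_PW A K (C i) (f i)) :
    U03_PW A K (∑ i ∈ S, C i) (fun s => ∑ i ∈ S, f i s) := by
  classical
  induction S using Finset.induction_on with
  | empty => simpa using U03_pw_zero A K
  | insert i S hi ih =>
    have h1 := hf i (Finset.mem_insert_self _ _)
    have h2 := ih fun j hj => hf j (Finset.mem_insert_of_mem hj)
    have h3 := U03_pw_add A h1 h2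
    simp only [Finset.sum_insert hi]
    exact h3

private theorem U03_pw_E {K : ℕ} {C : ℝ} {f : ℝ → V →ₗ[ℂ] V} (i : A.J) (hf : U03_PW A K C f) :
    U03_PW A (K + 1) C (fun s => U03_E A s i ∘ₗ f s) := by
  classical
  obtain ⟨c, h1, h2, h3⟩ := hf
  have hinj : Function.Injective (List.cons i : List A.J → List A.J) := List.cons_injective
  refine ⟨c.mapDomain (List.cons i), ?_, ?_, ?_⟩
  · intro l hl
    obtain ⟨l', hl', rfl⟩ := Finset.mem_image.1 (Finsupp.mapDomain_support hl)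
    rw [List.length_cons]
    have := h1 l' hl'
    omega
  · unfold U03_nrm
    rw [Finsupp.sum_mapDomain_index_inj hinj]
    exact h2
  · intro s v
    unfold wsum
    rw [Finsupp.sum_mapDomain_index_inj hinj, LinearMap.comp_apply, h3]
    unfold wsum
    rw [map_finsuppSum]
    refine Finsupp.sum_congr fun l _ => ?_
    rw [map_smul]
    rfl

private theorem U03_pw_W {K : ℕ} {C : ℝ} {f : ℝ → V →ₗ[ℂ] V} (l : List A.J)
    (hf : U03_PW A K C f) : U03_PW A (l.length + K) C (fun s => U03_W A s l ∘ₗ f s) := by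
  induction l with
  | nil => simpa [U03_W] using hf
  | cons i l ih =>
    have h := U03_pw_E A i ih
    refine U03_pw_mono A h (by rw [List.length_cons]; omega) le_rfl

private theorem U03_expand {f : ℝ → V →ₗ[ℂ] V} {c : List A.J →₀ ℂ}
    (h : ∀ s v, f s v = A.wsum s c v) (s : ℝ) :
    f s = ∑ l ∈ c.support, c l • U03_W A s l := by
  ext v
  rw [h, LinearMap.sum_apply]
  unfold wsum Finsupp.sum
  refine Finset.sum_congr rfl fun l _ => ?_
  rw [LinearMap.smul_apply, U03_W_apply]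

private theorem U03_pw_comp {K K' : ℕ} {C C' : ℝ} {f g : ℝ → V →ₗ[ℂ] V} (hf : U03_PW A K C f)
    (hg : U03_PW A K' C' g) : U03_PW A (K + K') (C * C') (fun s => f s ∘ₗ g s) := by
  obtain ⟨c, h1, h2, h3⟩ := hf
  have hC' : 0 ≤ C' := by
    obtain ⟨c', -, h, -⟩ := hg
    exact (U03_nrm_nonneg A c').trans h
  have h4 := U03_pw_sum A c.support (K := K + K') (C := fun l => ‖c l‖ * C')
    (f := fun l s => c l • (U03_W A s l ∘ₗ g s)) (fun l hl => by
      refine U03_pw_smul A (c l) (U03_pw_mono A (U03_pw_W A l hg) ?_ le_rfl)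
      have := h1 l hl
      omega)
  rw [← Finset.sum_mul] at h4
  have h5 : (fun s => f s ∘ₗ g s) = fun s => ∑ l ∈ c.support, c l • (U03_W A s l ∘ₗ g s) := by
    funext s
    ext v
    rw [LinearMap.comp_apply, U03_expand A h3 s, LinearMap.sum_apply, LinearMap.sum_apply]
    rfl
  rw [h5]
  exact U03_pw_mono A h4 le_rfl (mul_le_mul_of_nonneg_right h2 hC')

private theorem U03_pw_pow {K : ℕ} {C : ℝ} {f : ℝ → V →ₗ[ℂ] V} (hf : U03_PW A K C f) (j : ℕ) :
    U03_PW A (j * K) (C ^ j) (fun s => f s ^ j) := by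
  induction j with
  | zero => exact U03_pw_mono A (U03_pw_id A) (Nat.zero_le _) (by rw [pow_zero])
  | succ j ih =>
    have h := U03_pw_comp A ih hf
    refine U03_pw_mono A h (by rw [Nat.succ_mul]) (by rw [pow_succ])

/-! ### vectors all of whose words are of low frequency -/

private def U03_mem (lam s : ℝ) (K : ℕ) (y : V) : Prop :=
  ∀ l : List A.J, l.length ≤ K → U03_W A s l y ∈ A.low (4 * lam)

private theorem U03_mem_mono {lam s : ℝ} {K K' : ℕ} {y : V} (h : U03_mem A lam s K' y)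
    (hK : K ≤ K') : U03_mem A lam s K y := fun l hl => h l (hl.trans hK)

private theorem U03_mem_pw {lam s : ℝ} {K K' : ℕ} {C : ℝ} {f : ℝ → V →ₗ[ℂ] V} {y : V}
    (hf : U03_PW A K' C f) (hy : U03_mem A lam s (K + K') y) : U03_mem A lam s K (f s y) := by
  obtain ⟨c, h1, -, h3⟩ := hf
  intro l hl
  rw [U03_expand A h3 s, LinearMap.sum_apply, map_sum]
  refine Submodule.sum_mem _ fun l' hl' => ?_
  rw [LinearMap.smul_apply, map_smul, ← U03_W_append]
  refine Submodule.smul_mem _ _ (hy _ ?_)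
  rw [List.length_append]
  have := h1 l' hl'
  omega

private theorem U03_mem_low {lam s : ℝ} {K : ℕ} {y : V} (h : U03_mem A lam s K y) :
    y ∈ A.low (4 * lam) := h [] (Nat.zero_le _)

private theorem U03_norm_W {lam s C₀ : ℝ} (hC₀ : 1 ≤ C₀)
    (hb : ∀ v ∈ A.low (4 * lam), ∀ i : A.J, ‖U03_E A s i v‖ ≤ C₀ * ‖v‖) {K : ℕ} {y : V}
    (hy : U03_mem A lam s K y) (l : List A.J) (hl : l.length ≤ K) :
    ‖U03_W A s l y‖ ≤ C₀ ^ K * ‖y‖ := by
  have h : ∀ l : List A.J, l.length ≤ K → ‖U03_W A s l y‖ ≤ C₀ ^ l.length * ‖y‖ := by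
    intro l
    induction l with
    | nil => intro _; simp [U03_W]
    | cons b l ih =>
      intro hl
      rw [List.length_cons] at hl
      have h1 := hb _ (hy l (by omega)) b
      have h2 := ih (by omega)
      rw [U03_W_cons]
      refine h1.trans ?_
      rw [List.length_cons, pow_succ', mul_assoc]
      exact mul_le_mul_of_nonneg_left h2 (by linarith)
  refine (h l hl).trans (mul_le_mul_of_nonneg_right ?_ (norm_nonneg _))
  exact pow_le_pow_right₀ hC₀ hl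

private theorem U03_norm_pw {lam s C₀ : ℝ} (hC₀ : 1 ≤ C₀)
    (hb : ∀ v ∈ A.low (4 * lam), ∀ i : A.J, ‖U03_E A s i v‖ ≤ C₀ * ‖v‖) {K : ℕ} {C : ℝ}
    {f : ℝ → V →ₗ[ℂ] V} {y : V} (hf : U03_PW A K C f) (hy : U03_mem A lam s K y) :
    ‖f s y‖ ≤ C * (C₀ ^ K * ‖y‖) := by
  obtain ⟨c, h1, h2, h3⟩ := hf
  rw [U03_expand A h3 s, LinearMap.sum_apply]
  have h4 : ‖∑ l ∈ c.support, (c l • U03_W A s l) y‖ ≤ ∑ l ∈ c.support, ‖c l‖ * (C₀ ^ K * ‖y‖) := by
    refine (norm_sum_le _ _).trans (Finset.sum_le_sum fun l hl => ?_)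
    rw [LinearMap.smul_apply, norm_smul]
    exact mul_le_mul_of_nonneg_left (U03_norm_W A hC₀ hb hy l (h1 l hl)) (norm_nonneg _)
  refine h4.trans ?_
  rw [← Finset.sum_mul]
  exact mul_le_mul_of_nonneg_right h2 (by positivity)

/-! ### coordinates -/

private theorem U03_basis (X : Mat N) (hX : X ∈ A.𝔤) : X = ∑ i, fip (A.bs i) X • A.bs i := by
  rw [Fintype.sum_sum_type]
  exact A.basis X hX

private theorem U03_D (s : ℝ) (X : Mat N) (hX : X ∈ A.𝔤) (v : V) :
    ((s : ℝ) : ℂ) • A.D X v = ∑ i, ((fip (A.bs i) X : ℝ) : ℂ) • U03_E A s i v := by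
  conv_lhs => rw [U03_basis A X hX]
  rw [map_sum, LinearMap.sum_apply, Finset.smul_sum]
  refine Finset.sum_congr rfl fun i _ => ?_
  rw [map_smul, LinearMap.smul_apply, U03_E_apply, smul_comm]
  exact (Complex.coe_smul _ _).symm

private def U03_Cb : ℝ := ∑ i, ∑ b, ∑ k, |fip (A.bs k) (A.bs i * A.bs b - A.bs b * A.bs i)|

private theorem U03_Cb_nonneg : 0 ≤ U03_Cb A :=
  Finset.sum_nonneg fun _ _ => Finset.sum_nonneg fun _ _ => Finset.sum_nonneg fun _ _ =>
    abs_nonneg _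

private theorem U03_Cb_le (i b : A.J) :
    ∑ k, |fip (A.bs k) (A.bs i * A.bs b - A.bs b * A.bs i)| ≤ U03_Cb A := by
  have h1 := Finset.single_le_sum
    (f := fun b => ∑ k, |fip (A.bs k) (A.bs i * A.bs b - A.bs b * A.bs i)|)
    (fun b _ => Finset.sum_nonneg fun _ _ => abs_nonneg _) (Finset.mem_univ b)
  refine h1.trans ?_
  exact Finset.single_le_sum
    (f := fun i => ∑ b, ∑ k, |fip (A.bs k) (A.bs i * A.bs b - A.bs b * A.bs i)|)
    (fun i _ => Finset.sum_nonneg fun _ _ => Finset.sum_nonneg fun _ _ => abs_nonneg _)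
    (Finset.mem_univ i)

private theorem U03_brE (s : ℝ) (i b : A.J) (v : V) :
    U03_E A s i (U03_E A s b v) = U03_E A s b (U03_E A s i v) + ((s : ℝ) : ℂ) •
      ∑ k, ((fip (A.bs k) (A.bs i * A.bs b - A.bs b * A.bs i) : ℝ) : ℂ) • U03_E A s k v := by
  have hm : A.bs i * A.bs b - A.bs b * A.bs i ∈ A.𝔤 :=
    A.br _ (A.bs_mem i) _ (A.bs_mem b)
  rw [← U03_D A s _ hm, A.brD _ (A.bs_mem i) _ (A.bs_mem b)]
  simp only [U03_E_apply, map_smul, smul_sub, smul_smul]
  abel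

/-- the commutator of a letter with a word -/
private theorem U03_comm_W (i : A.J) (l : List A.J) :
    ∃ R : ℝ → V →ₗ[ℂ] V, U03_PW A l.length (l.length * U03_Cb A) R ∧
      ∀ s v, U03_E A s i (U03_W A s l v) = U03_W A s l (U03_E A s i v) +
        ((s : ℝ) : ℂ) • R s v := by
  induction l with
  | nil =>
    refine ⟨fun _ => 0, by simpa using U03_pw_zero A 0, fun s v => ?_⟩
    simp [U03_W]
  | cons b l ih =>
    obtain ⟨R, hR1, hR2⟩ := ih
    refine ⟨fun s => U03_E A s b ∘ₗ R s +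
      ∑ k, ((fip (A.bs k) (A.bs i * A.bs b - A.bs b * A.bs i) : ℝ) : ℂ) •
        (U03_E A s k ∘ₗ (U03_W A s l ∘ₗ LinearMap.id)), ?_, ?_⟩
    · have h1 := U03_pw_E A b hR1
      have h2 := U03_pw_sum A Finset.univ (K := l.length + 1)
        (C := fun k => ‖((fip (A.bs k) (A.bs i * A.bs b - A.bs b * A.bs i) : ℝ) : ℂ)‖ * 1)
        (f := fun k s => ((fip (A.bs k) (A.bs i * A.bs b - A.bs b * A.bs i) : ℝ) : ℂ) •
        (U03_E A s k ∘ₗ (U03_W A s l ∘ₗ LinearMap.id)))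
        (fun k _ => U03_pw_smul A _ (U03_pw_E A k (U03_pw_W A l (U03_pw_id A))))
      have h3 := U03_pw_add A h1 h2
      refine U03_pw_mono A h3 (by rw [List.length_cons]) ?_
      have h4 := U03_Cb_le A i b
      rw [List.length_cons]
      push_cast
      simp only [Complex.norm_real, Real.norm_eq_abs, mul_one]
      linarith
    · intro s v
      rw [U03_W_cons, U03_brE, hR2, U03_W_cons, map_add, map_smul, LinearMap.add_apply,
        LinearMap.sum_apply, smul_add, ← add_assoc]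
      rfl

private theorem U03_comm {K : ℕ} {C : ℝ} {f : ℝ → V →ₗ[ℂ] V} (hf : U03_PW A K C f) (i : A.J) :
    ∃ R : ℝ → V →ₗ[ℂ] V, U03_PW A K (K * U03_Cb A * C) R ∧
      ∀ s v, U03_E A s i (f s v) = f s (U03_E A s i v) + ((s : ℝ) : ℂ) • R s v := by
  obtain ⟨c, h1, h2, h3⟩ := hf
  choose R hR1 hR2 using U03_comm_W A i
  refine ⟨fun s => ∑ l ∈ c.support, c l • R l s, ?_, ?_⟩
  · have h4 := U03_pw_sum A c.support (K := K) (C := fun l => ‖c l‖ * (K * U03_Cb A))
      (f := fun l s => c l • R l s) (fun l hl => by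
        refine U03_pw_smul A (c l) (U03_pw_mono A (hR1 l) (h1 l hl) ?_)
        exact mul_le_mul_of_nonneg_right (by exact_mod_cast h1 l hl) (U03_Cb_nonneg A))
    refine U03_pw_mono A h4 le_rfl ?_
    rw [← Finset.sum_mul, mul_comm]
    exact mul_le_mul_of_nonneg_left h2 (mul_nonneg (Nat.cast_nonneg _) (U03_Cb_nonneg A))
  · intro s v
    rw [U03_expand A h3 s, LinearMap.sum_apply, LinearMap.sum_apply, LinearMap.sum_apply, map_sum,
      Finset.smul_sum, ← Finset.sum_add_distrib]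
    refine Finset.sum_congr rfl fun l _ => ?_
    rw [LinearMap.smul_apply, LinearMap.smul_apply, LinearMap.smul_apply, map_smul, hR2, smul_add,
      smul_comm (c l)]

/-! ### the symmetric operator `T` -/

private def U03_T (C₀ : ℝ) (i : A.J) (s : ℝ) : V →ₗ[ℂ] V :=
  (-Complex.I) • U03_E A s i + ((2 * C₀ : ℝ) : ℂ) • LinearMap.id

private theorem U03_T_apply (C₀ : ℝ) (i : A.J) (s : ℝ) (v : V) :
    U03_T A C₀ i s v = (-Complex.I) • U03_E A s i v + ((2 * C₀ : ℝ) : ℂ) • v := rfl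

private theorem U03_T_pw {C₀ : ℝ} (hC₀ : 1 ≤ C₀) (i : A.J) : U03_PW A 1 (3 * C₀) (U03_T A C₀ i) := by
  have h1 := U03_pw_smul A (-Complex.I) (U03_pw_E A i (U03_pw_id A))
  have h2 := U03_pw_smul A ((2 * C₀ : ℝ) : ℂ) (U03_pw_mono A (U03_pw_id A) (Nat.zero_le 1) le_rfl)
  have h3 := U03_pw_add A h1 h2
  refine U03_pw_mono A h3 le_rfl ?_
  rw [norm_neg, Complex.norm_I, Complex.norm_real, Real.norm_eq_abs,
    abs_of_nonneg (by linarith : 0 ≤ 2 * C₀)]
  linarith

private theorem U03_E_skew (s : ℝ) (i : A.J) (u v : V) :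
    inner ℂ (U03_E A s i u) v = -inner ℂ u (U03_E A s i v) := by
  rw [U03_E_apply, U03_E_apply, inner_smul_left, inner_smul_right, Complex.conj_ofReal,
    A.skew _ (A.bs_mem i)]
  ring

private theorem U03_T_symm (C₀ : ℝ) (i : A.J) (s : ℝ) (u v : V) :
    inner ℂ (U03_T A C₀ i s u) v = inner ℂ u (U03_T A C₀ i s v) := by
  rw [U03_T_apply, U03_T_apply, inner_add_left, inner_add_right, inner_smul_left,
    inner_smul_left, inner_smul_right, inner_smul_right, Complex.conj_ofReal, U03_E_skew, map_neg,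
    Complex.conj_I]
  ring

private theorem U03_T_bd {C₀ : ℝ} {i : A.J} {s : ℝ} {v : V} (hC₀ : 1 ≤ C₀)
    (h : ‖U03_E A s i v‖ ≤ C₀ * ‖v‖) :
    C₀ * ‖v‖ ^ 2 ≤ (inner ℂ (U03_T A C₀ i s v) v).re ∧ ‖U03_T A C₀ i s v‖ ≤ 3 * C₀ * ‖v‖ := by
  constructor
  · rw [U03_T_apply, inner_add_left, Complex.add_re, inner_smul_left, inner_smul_left,
      Complex.conj_ofReal, Complex.re_ofReal_mul]
    have h1 : (inner ℂ v v : ℂ).re = ‖v‖ ^ 2 := inner_self_eq_norm_sq (𝕜 := ℂ) v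
    have h2 : |((starRingEnd ℂ) (-Complex.I) * inner ℂ (U03_E A s i v) v).re| ≤ C₀ * ‖v‖ ^ 2 := by
      refine (Complex.abs_re_le_norm _).trans ?_
      rw [norm_mul, RCLike.norm_conj, norm_neg, Complex.norm_I, one_mul]
      refine (norm_inner_le_norm _ _).trans ?_
      rw [sq, ← mul_assoc]
      exact mul_le_mul_of_nonneg_right h (norm_nonneg _)
    have h3 := (abs_le.1 h2).1
    rw [h1]
    linarith
  · rw [U03_T_apply]
    refine (norm_add_le _ _).trans ?_
    rw [norm_smul, norm_smul, norm_neg, Complex.norm_I, Complex.norm_real, Real.norm_eq_abs,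
      abs_of_nonneg (by linarith : 0 ≤ 2 * C₀)]
    linarith

/-! ### the induction -/

private theorem U03_claim {C₀ : ℝ} (hC₀ : 1 ≤ C₀)
    (hbd : ∀ lam : ℝ, 1 ≤ lam → ∀ v ∈ A.low (4 * lam), ∀ i : A.J,
      ‖U03_E A (Real.sqrt lam)⁻¹ i v‖ ≤ C₀ * ‖v‖) {δ : ℝ} (hδ : 0 < δ) (q : List A.J) :
    ∃ (K : ℕ) (C lam0 : ℝ), 1 ≤ C ∧ 1 ≤ lam0 ∧ ∀ lam : ℝ, lam0 ≤ lam → ∀ y : V, y ≠ 0 →
      U03_mem A lam (Real.sqrt lam)⁻¹ (K + 1) y → ∃ f : ℝ → V →ₗ[ℂ] V, U03_PW A K C f ∧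
        C⁻¹ * ‖y‖ ≤ ‖f (Real.sqrt lam)⁻¹ y‖ ∧ ∀ i ∈ q, ∃ γ : ℝ, |γ| ≤ C₀ ∧
          ‖U03_E A (Real.sqrt lam)⁻¹ i (f (Real.sqrt lam)⁻¹ y) -
            (Complex.I * (γ : ℂ)) • f (Real.sqrt lam)⁻¹ y‖ ≤
            δ * ‖f (Real.sqrt lam)⁻¹ y‖ := by
  induction q with
  | nil =>
    refine ⟨0, 1, 1, le_rfl, le_rfl, fun lam _ y _ _ => ⟨fun _ => LinearMap.id, U03_pw_id A, ?_, ?_⟩⟩
    · simp
    · intro i hi
      simp at hi
  | cons i q ih =>
    obtain ⟨K₁, C₁, lam1, hC₁, hlam1, hclaim⟩ := ih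
    have hC₀p : 0 < C₀ := by linarith
    have hC₁p : 0 < C₁ := by linarith
    set η : ℝ := δ / (2 * C₁ ^ 2 * C₀ ^ (K₁ + 1)) with hη
    have hη0 : 0 < η := by positivity
    obtain ⟨L, hL⟩ := SBX.power_step η hη0
    set B₁ : ℝ := 2 * (C₁ ^ 2 * (K₁ * U03_Cb A) * C₀ ^ K₁) / δ with hB₁
    have hCb := U03_Cb_nonneg A
    have hB₁0 : 0 ≤ B₁ := by positivity
    refine ⟨K₁ + L + 2, C₁ * (3 * C₀) ^ L, max lam1 (B₁ ^ 2), ?_, hlam1.trans (le_max_left _ _), ?_⟩
    · have h1 : (1 : ℝ) ≤ (3 * C₀) ^ L := one_le_pow₀ (by linarith)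
      nlinarith
    intro lam hlam y hy hmem
    have hlam1' : lam1 ≤ lam := (le_max_left _ _).trans hlam
    have hlamB : B₁ ^ 2 ≤ lam := (le_max_right _ _).trans hlam
    have hlam0 : 1 ≤ lam := hlam1.trans hlam1'
    set s : ℝ := (Real.sqrt lam)⁻¹ with hs
    have hsq : 0 < Real.sqrt lam := Real.sqrt_pos.2 (by linarith)
    have hs0 : 0 < s := inv_pos.2 hsq
    have hsB : s * B₁ ≤ 1 := by
      rw [hs, inv_mul_le_iff₀ hsq, mul_one]
      exact Real.le_sqrt_of_sq_le hlamB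
    -- the power method
    have hpow : ∀ j : ℕ, U03_PW A j ((3 * C₀) ^ j) (fun s => U03_T A C₀ i s ^ j) := by
      intro j
      have := U03_pw_pow A (U03_T_pw A hC₀ i) j
      rwa [mul_one] at this
    obtain ⟨j, hj, r, hr1, hr2, hr3, hr4⟩ := hL (U03_T A C₀ i s) (U03_T_symm A C₀ i s) C₀ hC₀p y hy (by
      intro z hz
      have hzl : z ∈ A.low (4 * lam) := by
        refine (Submodule.span_le.2 ?_) hz
        rintro _ ⟨k, rfl⟩
        have h1 := U03_mem_pw A (K := 0) (hpow k) (U03_mem_mono A hmem (by have := k.2; omega))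
        exact U03_mem_low A h1
      exact U03_T_bd A hC₀ (hbd lam hlam0 z hzl i))
    set y₁ : V := (U03_T A C₀ i s ^ j) y with hy₁
    have hy₁n : ‖y‖ ≤ ‖y₁‖ := by
      refine le_trans ?_ hr4
      have h1 : (1 : ℝ) ≤ C₀ ^ j := one_le_pow₀ hC₀
      nlinarith [norm_nonneg y]
    have hy₁0 : y₁ ≠ 0 := by
      intro h
      rw [h, norm_zero] at hy₁n
      exact hy (norm_le_zero_iff.1 hy₁n)
    have hmem₁ : U03_mem A lam s (K₁ + 1) y₁ :=
      U03_mem_pw A (hpow j) (U03_mem_mono A hmem (by omega))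
    obtain ⟨f, hf1, hf2, hf3⟩ := hclaim lam hlam1' y₁ hy₁0 hmem₁
    set x : V := f s y₁ with hx
    have hfx : (fun s => f s ∘ₗ (U03_T A C₀ i s ^ j)) s y = x := rfl
    refine ⟨fun s => f s ∘ₗ (U03_T A C₀ i s ^ j), ?_, ?_, ?_⟩
    · refine U03_pw_mono A (U03_pw_comp A hf1 (hpow j)) (by omega) ?_
      exact mul_le_mul_of_nonneg_left (pow_le_pow_right₀ (by linarith) hj) hC₁p.le
    · rw [hfx]
      refine le_trans ?_ hf2
      have h1 : (C₁ * (3 * C₀) ^ L)⁻¹ ≤ C₁⁻¹ := by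
        apply inv_anti₀ hC₁p
        have h1 : (1 : ℝ) ≤ (3 * C₀) ^ L := one_le_pow₀ (by linarith)
        nlinarith
      exact mul_le_mul h1 hy₁n (norm_nonneg _) (by positivity)
    · intro i' hi'
      rw [hfx]
      rcases List.mem_cons.1 hi' with h | h
      · subst h
        refine ⟨r - 2 * C₀, ?_, ?_⟩
        · rw [abs_le]
          constructor <;> linarith
        · obtain ⟨R, hR1, hR2⟩ := U03_comm A hf1 i'
          set z : V := U03_E A s i' y₁ - (Complex.I * ((r - 2 * C₀ : ℝ) : ℂ)) • y₁ with hz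
          have hz1 : U03_T A C₀ i' s y₁ - (r : ℂ) • y₁ = (-Complex.I) • z := by
            rw [hz, U03_T_apply, smul_sub, smul_smul]
            have h1 : -Complex.I * (Complex.I * ((r - 2 * C₀ : ℝ) : ℂ)) =
                ((r - 2 * C₀ : ℝ) : ℂ) := by
              rw [← mul_assoc, neg_mul, Complex.I_mul_I, neg_neg, one_mul]
            rw [h1]
            push_cast
            module
          have hz2 : ‖z‖ ≤ η * C₀ * ‖y₁‖ := by
            have h1 : ‖(-Complex.I) • z‖ = ‖z‖ := by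
              rw [norm_smul, norm_neg, Complex.norm_I, one_mul]
            rw [← h1, ← hz1]
            exact hr3
          have hEmem : U03_mem A lam s K₁ (U03_E A s i' y₁) := by
            intro l hl
            have h1 := hmem₁ (l ++ [i']) (by rw [List.length_append]; simpa using hl)
            rw [U03_W_append] at h1
            exact h1
          have hzmem : U03_mem A lam s K₁ z := by
            intro l hl
            rw [hz, map_sub, map_smul]
            exact Submodule.sub_mem _ (hEmem l hl)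
              (Submodule.smul_mem _ _ (hmem₁ l (by omega)))
          have hdec : U03_E A s i' x - (Complex.I * ((r - 2 * C₀ : ℝ) : ℂ)) • x =
              f s z + ((s : ℝ) : ℂ) • R s y₁ := by
            rw [hx, hR2, hz, map_sub, map_smul]
            abel
          rw [hdec]
          have hb' : ∀ v ∈ A.low (4 * lam), ∀ i : A.J, ‖U03_E A s i v‖ ≤ C₀ * ‖v‖ :=
            hbd lam hlam0
          have n1 := U03_norm_pw A hC₀ hb' hf1 hzmem
          have n2 := U03_norm_pw A hC₀ hb' hR1 (U03_mem_mono A hmem₁ (Nat.le_succ _))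
          have n3 : ‖y₁‖ ≤ C₁ * ‖x‖ := by
            rw [inv_mul_le_iff₀ hC₁p] at hf2
            exact hf2
          have n4 : C₁ * (C₀ ^ K₁ * ‖z‖) ≤ δ / 2 * ‖x‖ := by
            calc C₁ * (C₀ ^ K₁ * ‖z‖) ≤ C₁ * (C₀ ^ K₁ * (η * C₀ * (C₁ * ‖x‖))) := by
                  have h1 : ‖z‖ ≤ η * C₀ * (C₁ * ‖x‖) :=
                    hz2.trans (mul_le_mul_of_nonneg_left n3 (by positivity))
                  gcongr
              _ = δ / 2 * ‖x‖ := by
                  rw [hη]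
                  field_simp
                  ring
          have n5 : ‖((s : ℝ) : ℂ) • R s y₁‖ ≤ δ / 2 * ‖x‖ := by
            rw [norm_smul, Complex.norm_real, Real.norm_eq_abs, abs_of_pos hs0]
            calc s * ‖R s y₁‖ ≤ s * (K₁ * U03_Cb A * C₁ * (C₀ ^ K₁ * (C₁ * ‖x‖))) := by
                  apply mul_le_mul_of_nonneg_left _ hs0.le
                  refine n2.trans ?_
                  gcongr
              _ = (s * B₁) * (δ / 2 * ‖x‖) := by
                  rw [hB₁]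
                  field_simp
              _ ≤ 1 * (δ / 2 * ‖x‖) :=
                  mul_le_mul_of_nonneg_right hsB (by positivity)
              _ = δ / 2 * ‖x‖ := one_mul _
          refine (norm_add_le _ _).trans ?_
          linarith
      · exact hf3 i' h

/-! ### orthonormality -/

private theorem U03_fip_comm (X Y : Mat N) : fip X Y = fip Y X := by
  unfold fip
  rw [← Matrix.trace_transpose, Matrix.transpose_mul, Matrix.transpose_transpose]

private theorem U03_fip_sum_left {ι : Type*} (S : Finset ι) (g : ι → ℝ) (b : ι → Mat N)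
    (X : Mat N) : fip (∑ i ∈ S, g i • b i) X = ∑ i ∈ S, g i * fip (b i) X := by
  unfold fip
  rw [Matrix.transpose_sum, Finset.sum_mul, Matrix.trace_sum]
  refine Finset.sum_congr rfl fun i _ => ?_
  rw [Matrix.transpose_smul, Matrix.smul_mul, Matrix.trace_smul, smul_eq_mul]

private theorem U03_cross (a : Fin A.m) (b : Fin A.n) : fip (A.Z a) (A.P b) = 0 := by
  have h1 : fip (A.Z a) (A.P b) = -(A.Z a * A.P b).trace := by
    unfold fip
    rw [A.Z_t, Matrix.neg_mul, Matrix.trace_neg]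
  have h2 : (A.Z a * A.P b).trace = -(A.Z a * A.P b).trace := by
    conv_lhs => rw [← Matrix.trace_transpose, Matrix.transpose_mul, A.Z_t, A.P_t,
      Matrix.mul_neg, Matrix.trace_neg, Matrix.trace_mul_comm]
  rw [h1]
  linarith

private theorem U03_orth (i j : A.J) : fip (A.bs i) (A.bs j) = if i = j then 1 else 0 := by
  rcases i with i | i <;> rcases j with j | j
  · show fip (A.Z i) (A.Z j) = _
    rw [A.Z_o]
    simp
  · show fip (A.Z i) (A.P j) = _
    rw [U03_cross]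
    simp
  · show fip (A.P i) (A.Z j) = _
    rw [U03_fip_comm, U03_cross]
    simp
  · show fip (A.P i) (A.P j) = _
    rw [A.P_o]
    simp

private theorem U03_fsq (X : Mat N) (hX : X ∈ A.𝔤) : fsq X = ∑ i, fip (A.bs i) X ^ 2 := by
  have h : fip X X = ∑ i, fip (A.bs i) X * fip (A.bs i) X := by
    have h0 := U03_fip_sum_left Finset.univ (fun i => fip (A.bs i) X) A.bs X
    rw [← U03_basis A X hX] at h0
    exact h0
  unfold fsq
  rw [h]
  exact Finset.sum_congr rfl fun i _ => by ring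

theorem loc (hA : A.IsAdm) : ∃ M : ℝ, 0 < M ∧ ∀ δ : ℝ, 0 < δ →
    ∃ (K : ℕ) (C lam0 : ℝ), 0 < C ∧ 1 ≤ lam0 ∧ ∀ lam : ℝ, lam0 ≤ lam → ∀ e ∈ A.eig lam, ‖e‖ = 1 →
      ∃ (c : List A.J →₀ ℂ) (γ : Mat N), (∀ l ∈ c.support, l.length ≤ K) ∧
        (c.sum fun _ a => ‖a‖) ≤ C ∧ γ ∈ A.𝔤 ∧ fsq γ ≤ M ∧
        A.wsum ((Real.sqrt lam)⁻¹) c e ∈ A.low (4 * lam) ∧
        ‖A.wsum ((Real.sqrt lam)⁻¹) c e‖ = 1 ∧ ∀ X ∈ A.𝔤,
          ‖(((Real.sqrt lam)⁻¹ : ℝ) : ℂ) • A.D X (A.wsum ((Real.sqrt lam)⁻¹) c e) -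
            (Complex.I * ((γ * X).trace : ℝ)) • A.wsum ((Real.sqrt lam)⁻¹) c e‖ ≤
            δ * Real.sqrt (fsq X) := by
  classical
  obtain ⟨C₀, hC₀, hbd0⟩ := A.bound4 hA
  have hbd : ∀ lam : ℝ, 1 ≤ lam → ∀ v ∈ A.low (4 * lam), ∀ i : A.J,
      ‖U03_E A (Real.sqrt lam)⁻¹ i v‖ ≤ C₀ * ‖v‖ := by
    intro lam hlam v hv i
    have h := hbd0 lam hlam v hv (A.bs i) (A.bs_mem i)
    rw [A.bs_fsq i, Real.sqrt_one, mul_one] at h
    exact h
  set d : ℝ := (Fintype.card A.J : ℝ) with hd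
  have hd0 : 0 ≤ d := Nat.cast_nonneg _
  refine ⟨d * C₀ ^ 2 + 1, by positivity, fun δ hδ => ?_⟩
  set δ' : ℝ := δ / (Real.sqrt d + 1) with hδ'
  have hsd : 0 ≤ Real.sqrt d := Real.sqrt_nonneg _
  have hδ'0 : 0 < δ' := by positivity
  obtain ⟨K, C, lam1, hC, hlam1, hclaim⟩ := U03_claim A hC₀ hbd hδ'0 (Finset.univ : Finset A.J).toList
  obtain ⟨lam2, hlam2, hwl⟩ := A.wd_low hA (K + 1)
  have hCp : 0 < C := by linarith
  refine ⟨K, C * C, max lam1 lam2, by positivity, hlam1.trans (le_max_left _ _), ?_⟩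
  intro lam hlam e he hnorm
  have hl1 : lam1 ≤ lam := (le_max_left _ _).trans hlam
  have hl2 : lam2 ≤ lam := (le_max_right _ _).trans hlam
  set s : ℝ := (Real.sqrt lam)⁻¹ with hs
  have he0 : e ≠ 0 := by
    intro h
    rw [h, norm_zero] at hnorm
    exact zero_ne_one hnorm
  have hmem : U03_mem A lam s (K + 1) e := by
    intro l hl
    rw [U03_W_apply]
    exact hwl lam hl2 e he s l hl
  obtain ⟨f, hf1, hf2, hf3⟩ := hclaim lam hl1 e he0 hmem
  rw [hnorm, mul_one] at hf2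
  choose γ hγ1 hγ2 using fun i : A.J => hf3 i (Finset.mem_toList.2 (Finset.mem_univ i))
  have hxmem : f s e ∈ A.low (4 * lam) :=
    U03_mem_low A (U03_mem_pw A (K := 1) hf1 (U03_mem_mono A hmem (by omega)))
  obtain ⟨c, hc1, hc2, hc3⟩ := hf1
  set x : V := f s e with hx
  have hxn : 0 < ‖x‖ := lt_of_lt_of_le (inv_pos.2 hCp) hf2
  set a : ℂ := ((‖x‖⁻¹ : ℝ) : ℂ) with ha
  have han : ‖a‖ = ‖x‖⁻¹ := by
    rw [ha, Complex.norm_real, Real.norm_eq_abs, abs_of_pos (inv_pos.2 hxn)]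
  have hwx : A.wsum s (a • c) e = a • x := by
    rw [U03_wsum_smul, ← hc3]
  -- the matrix
  let g : A.J → ℝ := Sum.elim (fun a => -γ (Sum.inl a)) (fun b => γ (Sum.inr b))
  have hg : ∀ i, g i ^ 2 = γ i ^ 2 := by
    intro i
    rcases i with i | i
    · show (-γ (Sum.inl i)) ^ 2 = _
      ring
    · rfl
  have hγm : (∑ i, g i • A.bs i) ∈ A.𝔤 :=
    Submodule.sum_mem _ fun i _ => Submodule.smul_mem _ _ (A.bs_mem i)
  have htr : ∀ X : Mat N, ((∑ i, g i • A.bs i) * X).trace = ∑ i, γ i * fip (A.bs i) X := by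
    intro X
    rw [Finset.sum_mul, Matrix.trace_sum]
    refine Finset.sum_congr rfl fun i _ => ?_
    rw [Matrix.smul_mul, Matrix.trace_smul, smul_eq_mul]
    rcases i with i | i
    · show -γ (Sum.inl i) * (A.Z i * X).trace = γ (Sum.inl i) * fip (A.Z i) X
      unfold fip
      rw [A.Z_t, Matrix.neg_mul, Matrix.trace_neg]
      ring
    · show γ (Sum.inr i) * (A.P i * X).trace = γ (Sum.inr i) * fip (A.P i) X
      unfold fip
      rw [A.P_t]
  refine ⟨a • c, ∑ i, g i • A.bs i, ?_, ?_, hγm, ?_, ?_, ?_, ?_⟩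
  · intro l hl
    exact hc1 l (Finsupp.support_smul hl)
  · have h1 := U03_nrm_smul A a c
    rw [han] at h1
    refine h1.trans ?_
    have h2 : ‖x‖⁻¹ ≤ C := by
      rw [inv_le_comm₀ hxn hCp]
      exact hf2
    exact mul_le_mul h2 hc2 (U03_nrm_nonneg A c) hCp.le
  · rw [U03_fsq A _ hγm]
    have h1 : ∀ i, fip (A.bs i) (∑ j, g j • A.bs j) = g i := by
      intro i
      rw [U03_fip_comm, U03_fip_sum_left]
      simp [U03_orth]
    have h2 : ∑ i, fip (A.bs i) (∑ j, g j • A.bs j) ^ 2 ≤ ∑ i : A.J, C₀ ^ 2 := by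
      refine Finset.sum_le_sum fun i _ => ?_
      rw [h1, hg]
      exact sq_le_sq' (by linarith [(abs_le.1 (hγ1 i)).1]) (abs_le.1 (hγ1 i)).2
    rw [Finset.sum_const, Finset.card_univ, nsmul_eq_mul] at h2
    linarith
  · rw [hwx]
    exact Submodule.smul_mem _ _ hxmem
  · rw [hwx, norm_smul, han, inv_mul_cancel₀ hxn.ne']
  · intro X hX
    rw [hwx, map_smul, smul_comm _ a, smul_comm _ a, ← smul_sub, norm_smul, han]
    have h1 : ((s : ℝ) : ℂ) • A.D X x -
        (Complex.I * ((((∑ i, g i • A.bs i) * X).trace : ℝ) : ℂ)) • x =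
        ∑ i, ((fip (A.bs i) X : ℝ) : ℂ) • (U03_E A s i x - (Complex.I * (γ i : ℂ)) • x) := by
      rw [U03_D A s X hX, htr X]
      simp only [smul_sub, Finset.sum_sub_distrib, smul_smul]
      congr 1
      rw [← Finset.sum_smul]
      congr 1
      push_cast
      rw [Finset.mul_sum]
      exact Finset.sum_congr rfl fun i _ => by ring
    rw [h1]
    have h2 : ‖∑ i, ((fip (A.bs i) X : ℝ) : ℂ) • (U03_E A s i x -
        (Complex.I * (γ i : ℂ)) • x)‖ ≤ (∑ i, |fip (A.bs i) X|) * (δ' * ‖x‖) := by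
      rw [Finset.sum_mul]
      refine (norm_sum_le _ _).trans (Finset.sum_le_sum fun i _ => ?_)
      rw [norm_smul, Complex.norm_real, Real.norm_eq_abs]
      exact mul_le_mul_of_nonneg_left (hγ2 i) (abs_nonneg _)
    have h3 : ∑ i, |fip (A.bs i) X| ≤ Real.sqrt d * Real.sqrt (fsq X) := by
      rw [← Real.sqrt_mul hd0]
      apply Real.le_sqrt_of_sq_le
      have h4 := sq_sum_le_card_mul_sum_sq (s := (Finset.univ : Finset A.J))
        (f := fun i => |fip (A.bs i) X|)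
      rw [Finset.card_univ] at h4
      refine h4.trans ?_
      rw [U03_fsq A X hX]
      simp only [sq_abs]
      exact le_rfl
    have h5 : Real.sqrt d * δ' ≤ δ := by
      rw [hδ', mul_div_assoc', div_le_iff₀ (by positivity)]
      nlinarith
    calc ‖x‖⁻¹ * ‖∑ i, ((fip (A.bs i) X : ℝ) : ℂ) • (U03_E A s i x -
        (Complex.I * (γ i : ℂ)) • x)‖
        ≤ ‖x‖⁻¹ * ((Real.sqrt d * Real.sqrt (fsq X)) * (δ' * ‖x‖)) := by
          apply mul_le_mul_of_nonneg_left _ (inv_nonneg.2 hxn.le)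
          refine h2.trans (mul_le_mul_of_nonneg_right h3 (by positivity))
      _ = (Real.sqrt d * δ') * Real.sqrt (fsq X) := by
          field_simp
      _ ≤ δ * Real.sqrt (fsq X) := mul_le_mul_of_nonneg_right h5 (Real.sqrt_nonneg _)

end LieRep

end SBD
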