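import Pool.Agent.SBX.U01

/-!
# Row SBX-U04 : `B` on words, first estimate

`B` almost invariant, `e ∈ eig lam` a unit eigenvector of `B|eig lam`.  For words of length `≤ k`:
`B(wd l e, wd l e) ≤ C lam^{1/4} B(e,e)`.

PROOF.  `R = √lam`, `s = 1/R`, `β(y) = √(Re B(y,y))` (a seminorm; Cauchy–Schwarz `AlmostInv.cs`).
Let `K₀` be a large integer and `S_j = max{β(wd s l e) : |l| ≤ j}`, `j ≤ K₀` (finitely many words), so
`β(e) = S_0 ≤ S_1 ≤ …`, `S_0 > 0`.
(1) `S_k² ≤ (1 + ε/R) S_{k-1}S_{k+1}` for `1 ≤ k < K₀`: let `S_k = β(y)`; if `y` has length `≤ k-1` clear;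
otherwise `y = sD(b)z`, `|z| = k-1`, and by `hX` `β(y)² = Re B(sD(b)z,y) ≤ |B(z,sD(b)y)| + (ε/R)β(z)β(y)
≤ S_{k-1}S_{k+1} + (ε/R)S_{k-1}S_k`.
(2) So `ρ_k = S_k/S_{k-1}` satisfies `ρ_k ≤ (1+ε)ρ_{k+1}`… precisely `(1+ε/R) ≤ (1+ε)`; for `i ≤ k`, `i' > k`:
`ρ_i ≤ (1+ε)^{K₀}ρ_{i'}`, and therefore for `k ≤ K₀`:
`S_k/S_0 = ∏_{i≤k}ρ_i ≤ (1+ε)^{K₀²}(∏_{i≤K₀}ρ_i)^{k/K₀} = C (S_{K₀}/S_0)^{k/K₀}`.
(Proof: all `ρ_i ≥ 1`.  `(∏_{i≤k}ρ_i)^{K₀} ≤ (1+ε)^{…}(∏_{i≤K₀}ρ_i)^k` by comparing factors; or: the max of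
`ρ_i`, `i ≤ k`, is `≤ (1+ε)^{K₀}` times each of `ρ_{k+1},…,ρ_{K₀}`.)
(3) Crude bounds (A16 `chain_sob`, `chain`): for `y ∈ low(4lam)` `B(y,y) ≤ C lam^{a'}‖y‖²`, and `1 = ‖e‖² ≤
C lam^{a'} B(e,e)`; words of length `≤ K₀` are in `low(4lam)` with norm `≤ C₀^{K₀}` (`wd_low`, `bound4`) for
`lam ≥ lam0(K₀)`.  So `S_{K₀}/S_0 ≤ C lam^{a'}` with `a'` independent of `K₀`.
(4) `S_k ≤ C (lam^{a'})^{k/K₀} S_0`; choose `K₀ ≥ 8a'k + k`: `S_k ≤ C lam^{1/8}S_0`.
-/

open scoped Matrix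

noncomputable section

namespace SBD

namespace LieRep

variable {N : ℕ} {V : Type} [NormedAddCommGroup V] [InnerProductSpace ℂ V] (A : LieRep N V)

/-- almost convex sequences -/
private theorem U04_seq (a : ℕ → ℝ) (L : ℝ) (hL : 0 ≤ L) (h0 : ∀ i, a i ≤ a (i + 1))
    (h1 : ∀ i, 2 * a (i + 1) ≤ L + a i + a (i + 2)) (k n : ℕ) :
    (n : ℝ) * (a k - a 0) ≤ k * (a (k + n) - a 0) + n * (k * ((k + n : ℕ) : ℝ) * L) := by
  have hd : ∀ i j : ℕ, a (i + 1) - a i ≤ a (i + j + 1) - a (i + j) + j * L := by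
    intro i j
    induction j with
    | zero => simp
    | succ j ih =>
      have h := h1 (i + j)
      have e1 : i + (j + 1) + 1 = i + j + 2 := by ring
      have e2 : i + (j + 1) = i + j + 1 := by ring
      rw [e1, e2]
      push_cast
      linarith
  have hmono : ∀ i j : ℕ, a i ≤ a (i + j) := by
    intro i j
    induction j with
    | zero => simp
    | succ j ih => exact ih.trans (h0 _)
  -- each difference after `k`
  have h2 : ∀ j : ℕ, j < n → (a k - a 0) ≤
      k * (a (k + j + 1) - a (k + j)) + k * (((k + n : ℕ) : ℝ) * L) := by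
    intro j hj
    have h3 : a k - a 0 = ∑ i ∈ Finset.range k, (a (i + 1) - a i) :=
      (Finset.sum_range_sub a k).symm
    rw [h3]
    calc ∑ i ∈ Finset.range k, (a (i + 1) - a i)
        ≤ ∑ i ∈ Finset.range k, ((a (k + j + 1) - a (k + j)) + ((k + n : ℕ) : ℝ) * L) := by
          refine Finset.sum_le_sum fun i hi => ?_
          have hik : i < k := Finset.mem_range.1 hi
          have h4 := hd i (k + j - i)
          have e : i + (k + j - i) = k + j := by omega
          rw [e] at h4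
          refine h4.trans ?_
          have h5 : ((k + j - i : ℕ) : ℝ) ≤ ((k + n : ℕ) : ℝ) := by
            exact_mod_cast (by omega : k + j - i ≤ k + n)
          have h6 : ((k + j - i : ℕ) : ℝ) * L ≤ ((k + n : ℕ) : ℝ) * L :=
            mul_le_mul_of_nonneg_right h5 hL
          linarith
      _ = k * (a (k + j + 1) - a (k + j)) + k * (((k + n : ℕ) : ℝ) * L) := by
          rw [Finset.sum_const, Finset.card_range, nsmul_eq_mul]
          ring
  have h7 : ∑ j ∈ Finset.range n, (a k - a 0) ≤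
      ∑ j ∈ Finset.range n, (k * (a (k + j + 1) - a (k + j)) + k * (((k + n : ℕ) : ℝ) * L)) :=
    Finset.sum_le_sum fun j hj => h2 j (Finset.mem_range.1 hj)
  rw [Finset.sum_const, Finset.card_range, nsmul_eq_mul, Finset.sum_add_distrib, ← Finset.mul_sum,
    Finset.sum_const, Finset.card_range, nsmul_eq_mul] at h7
  have h8 : ∑ j ∈ Finset.range n, (a (k + j + 1) - a (k + j)) = a (k + n) - a k := by
    have := Finset.sum_range_sub (fun j => a (k + j)) n
    simpa [add_assoc] using this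
  rw [h8] at h7
  have h9 : (k : ℝ) * (a (k + n) - a k) ≤ k * (a (k + n) - a 0) := by
    have h10 := hmono 0 k
    rw [zero_add] at h10
    apply mul_le_mul_of_nonneg_left _ (Nat.cast_nonneg k)
    linarith
  calc (n : ℝ) * (a k - a 0) ≤ k * (a (k + n) - a k) + n * (k * (((k + n : ℕ) : ℝ) * L)) := h7
    _ ≤ k * (a (k + n) - a 0) + n * (k * ((k + n : ℕ) : ℝ) * L) := by
        rw [mul_assoc (k : ℝ)]
        linarith

variable {A} in
private theorem U04_nonneg {ε : ℝ} {B : V → V → ℂ} (hB : A.AlmostInv ε B) (v : V) :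
    0 ≤ (B v v).re := by
  by_cases h : v = 0
  · have h1 := hB.smul_left 0 0 v
    rw [zero_smul, map_zero, zero_mul] at h1
    rw [h] at h1 ⊢
    rw [h1]
    simp
  · exact (hB.pos v h).le

/-- the norm of words -/
private theorem U04_norm {C₀ : ℝ} (hC₀ : 1 ≤ C₀) {lam : ℝ} {K : ℕ}
    (hb : ∀ v ∈ A.low (4 * lam), ∀ X ∈ A.𝔤,
      ‖(((Real.sqrt lam)⁻¹ : ℝ) : ℂ) • A.D X v‖ ≤ C₀ * Real.sqrt (fsq X) * ‖v‖)
    {e : V} (he : ‖e‖ = 1)
    (hw : ∀ l : List A.J, l.length ≤ K → A.wd ((Real.sqrt lam)⁻¹) l e ∈ A.low (4 * lam))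
    (l : List A.J) (hl : l.length ≤ K) : ‖A.wd ((Real.sqrt lam)⁻¹) l e‖ ≤ C₀ ^ K := by
  have h : ∀ l : List A.J, l.length ≤ K → ‖A.wd ((Real.sqrt lam)⁻¹) l e‖ ≤ C₀ ^ l.length := by
    intro l
    induction l with
    | nil => intro _; simp [wd, he]
    | cons b l ih =>
      intro hl
      rw [List.length_cons] at hl
      have h1 := hb _ (hw l (by omega)) (A.bs b) (A.bs_mem b)
      rw [A.bs_fsq b, Real.sqrt_one, mul_one] at h1
      have h2 := ih (by omega)
      show ‖(((Real.sqrt lam)⁻¹ : ℝ) : ℂ) • A.D (A.bs b) (A.wd ((Real.sqrt lam)⁻¹) l e)‖ ≤ _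
      refine h1.trans ?_
      rw [List.length_cons, pow_succ']
      exact mul_le_mul_of_nonneg_left h2 (by linarith)
  exact (h l hl).trans (pow_le_pow_right₀ hC₀ hl)

theorem B_words (hA : A.IsAdm) {ε : ℝ} (hε : 0 ≤ ε) {B : V → V → ℂ} (hB : A.AlmostInv ε B)
    (hX : ∀ X ∈ A.𝔤, ∀ u v : V, ‖B (A.D X u) v + B u (A.D X v)‖ ≤
      ε * Real.sqrt (fsq X) * Real.sqrt (B u u).re * Real.sqrt (B v v).re) (k : ℕ) :
    ∃ C lam0 : ℝ, 0 < C ∧ 1 ≤ lam0 ∧ ∀ lam : ℝ, lam0 ≤ lam → ∀ e ∈ A.eig lam, ‖e‖ = 1 →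
      ∀ l : List A.J, l.length ≤ k →
        (B (A.wd ((Real.sqrt lam)⁻¹) l e) (A.wd ((Real.sqrt lam)⁻¹) l e)).re ≤
          C * lam ^ (1 / 4 : ℝ) * (B e e).re := by
  classical
  obtain ⟨a1, ha1, hch1⟩ := A.chain_sob hA
  obtain ⟨C1, hC1, -, hup⟩ := hch1 ε hε B hB
  obtain ⟨a2, ha2, hch2⟩ := A.chain hA
  obtain ⟨C2, hC2, hlo⟩ := hch2 ε hε B hB
  obtain ⟨C₀, hC₀, hbd⟩ := A.bound4 hA
  set p1 : ℝ := a1 * ε with hp1
  set p2 : ℝ := a2 * ε with hp2
  have hp10 : 0 ≤ p1 := by positivity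
  have hp20 : 0 ≤ p2 := by positivity
  set p : ℝ := p1 + p2 with hp
  have hp0 : 0 ≤ p := by positivity
  set n : ℕ := ⌈4 * (k : ℝ) * p⌉₊ + k + 1 with hn
  set K : ℕ := k + n with hK
  obtain ⟨lam0, hlam0, hwl⟩ := A.wd_low hA K
  set L : ℝ := Real.log (1 + ε) with hL
  have hL0 : 0 ≤ L := Real.log_nonneg (by linarith)
  set C' : ℝ := C1 * C2 * 4 ^ p1 * C₀ ^ (2 * K) with hC'
  have hC'1 : 1 ≤ C' := by
    have h1 : (1 : ℝ) ≤ 4 ^ p1 := Real.one_le_rpow (by norm_num) hp10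
    have h2 : (1 : ℝ) ≤ C₀ ^ (2 * K) := one_le_pow₀ hC₀
    have h3 : 1 ≤ C1 * C2 := by nlinarith
    have h4 : 1 ≤ C1 * C2 * 4 ^ p1 := by nlinarith
    rw [hC']
    nlinarith
  refine ⟨C' * Real.exp (2 * (k * (K : ℝ) * L)), lam0, by positivity, hlam0, ?_⟩
  intro lam hlam e he hnorm
  have hlam1 : 1 ≤ lam := hlam0.trans hlam
  set s : ℝ := (Real.sqrt lam)⁻¹ with hs
  have hs1 : s ≤ 1 := by
    rw [hs]
    apply inv_le_one_of_one_le₀
    rw [show (1 : ℝ) = Real.sqrt 1 by simp]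
    exact Real.sqrt_le_sqrt hlam1
  have hs0 : 0 ≤ s := by rw [hs]; positivity
  set β : List A.J → ℝ := fun l => Real.sqrt (B (A.wd s l e) (A.wd s l e)).re with hβ
  have hβ0 : ∀ l, 0 ≤ β l := fun l => Real.sqrt_nonneg _
  have hβsq : ∀ l, β l ^ 2 = (B (A.wd s l e) (A.wd s l e)).re :=
    fun l => Real.sq_sqrt (U04_nonneg hB _)
  -- maximal words
  have hmax : ∀ j : ℕ, ∃ l : List A.J, l.length ≤ j ∧ ∀ l' : List A.J, l'.length ≤ j →
      β l' ≤ β l := by
    intro j
    obtain ⟨l, hl1, hl2⟩ := Set.exists_max_image {l : List A.J | l.length ≤ j} β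
      (List.finite_length_le A.J j) ⟨[], by simp⟩
    exact ⟨l, hl1, fun l' hl' => hl2 l' hl'⟩
  choose mw hm1 hm2 using hmax
  set S : ℕ → ℝ := fun j => β (mw j) with hS
  have hSmono : ∀ i, S i ≤ S (i + 1) := fun i => hm2 (i + 1) (mw i) ((hm1 i).trans (by omega))
  have hm0 : mw 0 = [] := List.length_eq_zero_iff.1 (Nat.le_zero.1 (hm1 0))
  have hS0e : S 0 ^ 2 = (B e e).re := by
    show β (mw 0) ^ 2 = _
    rw [hm0, hβsq]
    rfl
  have he0 : e ≠ 0 := by
    intro h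
    rw [h, norm_zero] at hnorm
    exact zero_ne_one hnorm
  have hS0 : 0 < S 0 := by
    have h1 : 0 < S 0 ^ 2 := by rw [hS0e]; exact hB.pos e he0
    have h2 : 0 ≤ S 0 := hβ0 _
    rcases h2.eq_or_lt with h3 | h3
    · rw [← h3] at h1
      simp at h1
    · exact h3
  have hSpos : ∀ i, 0 < S i := by
    intro i
    induction i with
    | zero => exact hS0
    | succ i ih => exact lt_of_lt_of_le ih (hSmono i)
  -- almost log-convexity
  have hconv : ∀ i, S (i + 1) ^ 2 ≤ (1 + ε) * (S i * S (i + 2)) := by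
    intro i
    have hbase : S (i + 1) * S i ≤ (1 + ε) * (S i * S (i + 2)) := by
      have h1 := hSmono (i + 1)
      have h2 := (hSpos i).le
      have h3 : S (i + 1) * S i ≤ S i * S (i + 2) := by
        rw [mul_comm (S i)]
        exact mul_le_mul_of_nonneg_right h1 h2
      have h4 : 0 ≤ S i * S (i + 2) := mul_nonneg h2 (hSpos _).le
      nlinarith
    cases hcase : mw (i + 1) with
    | nil =>
      have h1 : S (i + 1) ≤ S i := by
        show β (mw (i + 1)) ≤ β (mw i)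
        rw [hcase]
        exact hm2 i [] (by simp)
      refine le_trans ?_ hbase
      rw [sq]
      exact mul_le_mul_of_nonneg_left h1 (hSpos _).le
    | cons b l =>
      have hlen := hm1 (i + 1)
      rw [hcase, List.length_cons] at hlen
      set z : V := A.wd s l e with hz
      set y : V := A.wd s (b :: l) e with hy
      have hyz : y = ((s : ℝ) : ℂ) • A.D (A.bs b) z := rfl
      have hby : ((s : ℝ) : ℂ) • A.D (A.bs b) y = A.wd s (b :: b :: l) e := rfl
      have hSy : S (i + 1) = Real.sqrt (B y y).re := by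
        show β (mw (i + 1)) = _
        rw [hcase]
      have hβz : Real.sqrt (B z z).re ≤ S i := hm2 i l (by omega)
      have hβby : Real.sqrt (B (((s : ℝ) : ℂ) • A.D (A.bs b) y)
          (((s : ℝ) : ℂ) • A.D (A.bs b) y)).re ≤ S (i + 2) := by
        rw [hby]
        refine hm2 (i + 2) (b :: b :: l) ?_
        rw [List.length_cons, List.length_cons]
        omega
      have h1 := hX (A.bs b) (A.bs_mem b) z y
      rw [A.bs_fsq b, Real.sqrt_one, mul_one] at h1
      have h2 := hB.cs z (((s : ℝ) : ℂ) • A.D (A.bs b) y)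
      have h3 : B y y = ((s : ℝ) : ℂ) * (B (A.D (A.bs b) z) y + B z (A.D (A.bs b) y)) -
          B z (((s : ℝ) : ℂ) • A.D (A.bs b) y) := by
        have h3a : B y y = ((s : ℝ) : ℂ) * B (A.D (A.bs b) z) y := by
          have h3b := hB.smul_left ((s : ℝ) : ℂ) (A.D (A.bs b) z) y
          rw [← hyz, Complex.conj_ofReal] at h3b
          exact h3b
        rw [hB.smul_right, h3a]
        ring
      have h4 : (B y y).re ≤ s * (ε * Real.sqrt (B z z).re * Real.sqrt (B y y).re) +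
          Real.sqrt (B z z).re * Real.sqrt (B (((s : ℝ) : ℂ) • A.D (A.bs b) y)
          (((s : ℝ) : ℂ) • A.D (A.bs b) y)).re := by
        calc (B y y).re ≤ ‖B y y‖ := Complex.re_le_norm _
          _ ≤ ‖((s : ℝ) : ℂ) * (B (A.D (A.bs b) z) y + B z (A.D (A.bs b) y))‖ +
              ‖B z (((s : ℝ) : ℂ) • A.D (A.bs b) y)‖ := by
              conv_lhs => rw [h3]
              exact norm_sub_le _ _
          _ ≤ _ := by
              rw [norm_mul, Complex.norm_real, Real.norm_eq_abs, abs_of_nonneg hs0]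
              exact add_le_add (mul_le_mul_of_nonneg_left h1 hs0) h2
      have h5 : S (i + 1) ^ 2 = (B y y).re := by
        rw [hSy]
        exact Real.sq_sqrt (U04_nonneg hB _)
      rw [← hSy] at h4
      rw [h5]
      have hz0 : 0 ≤ Real.sqrt (B z z).re := Real.sqrt_nonneg _
      have h6 : Real.sqrt (B z z).re * Real.sqrt (B (((s : ℝ) : ℂ) • A.D (A.bs b) y)
          (((s : ℝ) : ℂ) • A.D (A.bs b) y)).re ≤ S i * S (i + 2) :=
        mul_le_mul hβz hβby (Real.sqrt_nonneg _) (hSpos i).le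
      have h7 : s * (ε * Real.sqrt (B z z).re * S (i + 1)) ≤ ε * (S i * S (i + 2)) := by
        have h8 : Real.sqrt (B z z).re * S (i + 1) ≤ S i * S (i + 2) :=
          mul_le_mul hβz (hSmono (i + 1)) (hSpos _).le (hSpos i).le
        have h9 : 0 ≤ Real.sqrt (B z z).re * S (i + 1) := mul_nonneg hz0 (hSpos _).le
        calc s * (ε * Real.sqrt (B z z).re * S (i + 1))
            = s * (ε * (Real.sqrt (B z z).re * S (i + 1))) := by ring
          _ ≤ 1 * (ε * (Real.sqrt (B z z).re * S (i + 1))) :=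
              mul_le_mul_of_nonneg_right hs1 (mul_nonneg hε h9)
          _ ≤ ε * (S i * S (i + 2)) := by
              rw [one_mul]
              exact mul_le_mul_of_nonneg_left h8 hε
      linarith
  -- logarithms
  set a : ℕ → ℝ := fun i => Real.log (S i) with ha
  have hseq := U04_seq a L hL0 (fun i => Real.log_le_log (hSpos i) (hSmono i)) (by
    intro i
    have h1 := Real.log_le_log (by have := hSpos (i + 1); positivity) (hconv i)
    rw [Real.log_pow, Real.log_mul (by linarith) (mul_pos (hSpos _) (hSpos _)).ne',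
      Real.log_mul (hSpos _).ne' (hSpos _).ne'] at h1
    push_cast at h1
    show 2 * Real.log (S (i + 1)) ≤ L + Real.log (S i) + Real.log (S (i + 2))
    linarith) k n
  -- the crude bound
  have hcrude : 2 * (a K - a 0) ≤ Real.log C' + p * Real.log lam := by
    have h1 : S K ^ 2 ≤ C1 * (4 * lam) ^ p1 * (C₀ ^ K) ^ 2 := by
      have h2 := hwl lam hlam e he s (mw K) (hm1 K)
      have h3 := hup (4 * lam) (by linarith) _ h2
      have h4 := U04_norm A hC₀ (hbd lam hlam1) hnorm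
        (fun l hl => hwl lam hlam e he s l hl) (mw K) (hm1 K)
      show β (mw K) ^ 2 ≤ _
      rw [hβsq]
      refine h3.trans ?_
      apply mul_le_mul_of_nonneg_left _ (by positivity)
      exact pow_le_pow_left₀ (norm_nonneg _) h4 2
    have h5 : 1 ≤ C2 * lam ^ p2 * S 0 ^ 2 := by
      have := (hlo lam e he).1
      rw [hnorm, one_pow] at this
      rw [hS0e]
      exact this
    have h6 : S K ^ 2 ≤ C' * lam ^ p * S 0 ^ 2 := by
      have h7 : (4 * lam) ^ p1 = 4 ^ p1 * lam ^ p1 := Real.mul_rpow (by norm_num) (by linarith)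
      have h8 : lam ^ p = lam ^ p1 * lam ^ p2 := Real.rpow_add (by linarith) _ _
      calc S K ^ 2 ≤ C1 * (4 * lam) ^ p1 * (C₀ ^ K) ^ 2 := h1
        _ = C1 * (4 * lam) ^ p1 * (C₀ ^ K) ^ 2 * 1 := by ring
        _ ≤ C1 * (4 * lam) ^ p1 * (C₀ ^ K) ^ 2 * (C2 * lam ^ p2 * S 0 ^ 2) :=
            mul_le_mul_of_nonneg_left h5 (by positivity)
        _ = C' * lam ^ p * S 0 ^ 2 := by
            rw [h7, h8, hC', ← pow_mul, mul_comm K 2]
            ring
    have h9 := Real.log_le_log (by have := hSpos K; positivity) h6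
    have hlp : 0 < lam ^ p := Real.rpow_pos_of_pos (by linarith) _
    rw [Real.log_pow, Real.log_mul (mul_pos (by linarith) hlp).ne'
      (by have := hSpos 0; positivity), Real.log_mul (by linarith) hlp.ne', Real.log_pow,
      Real.log_rpow (by linarith)] at h9
    push_cast at h9
    show 2 * (Real.log (S K) - Real.log (S 0)) ≤ _
    linarith
  have hloglam : 0 ≤ Real.log lam := Real.log_nonneg hlam1
  have hlogC : 0 ≤ Real.log C' := Real.log_nonneg hC'1
  have hn1 : 4 * (k : ℝ) * p ≤ n := by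
    have h1 := Nat.le_ceil (4 * (k : ℝ) * p)
    rw [hn]
    push_cast
    have : (0 : ℝ) ≤ k := Nat.cast_nonneg k
    linarith
  have hn2 : (k : ℝ) ≤ n := by
    exact_mod_cast (by omega : k ≤ n)
  have hn3 : (0 : ℝ) < n := by
    exact_mod_cast (by omega : 0 < n)
  have hfin : 2 * (a k - a 0) ≤ Real.log C' + 1 / 4 * Real.log lam +
      2 * (k * (K : ℝ) * L) := by
    have h1 : (n : ℝ) * (2 * (a k - a 0)) ≤ n * (Real.log C' + 1 / 4 * Real.log lam +
        2 * (k * (K : ℝ) * L)) := by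
      have h2 : (k : ℝ) * (2 * (a K - a 0)) ≤ k * (Real.log C' + p * Real.log lam) :=
        mul_le_mul_of_nonneg_left hcrude (Nat.cast_nonneg k)
      have h3 : (k : ℝ) * Real.log C' ≤ n * Real.log C' := mul_le_mul_of_nonneg_right hn2 hlogC
      have h4 : 4 * (k : ℝ) * p * Real.log lam ≤ n * Real.log lam :=
        mul_le_mul_of_nonneg_right hn1 hloglam
      have h5 : (n : ℝ) * (a k - a 0) ≤ k * (a K - a 0) + n * (k * (K : ℝ) * L) := hseq
      nlinarith
    exact le_of_mul_le_mul_left h1 hn3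
  intro l hl
  have h1 : β l ≤ S k := hm2 k l hl
  have h2 : β l ^ 2 ≤ S k ^ 2 := pow_le_pow_left₀ (hβ0 l) h1 2
  rw [hβsq] at h2
  refine h2.trans ?_
  rw [← hS0e]
  have h3 : Real.log (S k ^ 2) ≤ Real.log (C' * Real.exp (2 * (k * (K : ℝ) * L)) *
      lam ^ (1 / 4 : ℝ) * S 0 ^ 2) := by
    have hlp : 0 < lam ^ (1 / 4 : ℝ) := Real.rpow_pos_of_pos (by linarith) _
    have hS02 : 0 < S 0 ^ 2 := by have := hSpos 0; positivity
    rw [Real.log_mul (by positivity) hS02.ne', Real.log_mul (by positivity) hlp.ne',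
      Real.log_mul (by positivity) (Real.exp_pos _).ne', Real.log_exp, Real.log_pow,
      Real.log_pow, Real.log_rpow (by linarith)]
    push_cast
    have h4 : 2 * (Real.log (S k) - Real.log (S 0)) ≤ Real.log C' + 1 / 4 * Real.log lam +
      2 * (k * (K : ℝ) * L) := hfin
    linarith
  have hlp : 0 < lam ^ (1 / 4 : ℝ) := Real.rpow_pos_of_pos (by linarith) _
  have hS02 : 0 < S 0 ^ 2 := by have := hSpos 0; positivity
  exact (Real.log_le_log_iff (by have := hSpos k; positivity) (by positivity)).1 h3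

end LieRep

end SBD
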