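import Pool.Agent.SBX.U04

/-!
# Row SBX-U05 : `B(x,x) = B(e,e)‖x‖² (1 + O(lam^{-1/4}))` on bounded words

PROOF.  `s = lam^{-1/2}`, `m = B(e,e) > 0` (real), `β = √(Re B(·,·))`.  First `B(e,φ) = m⟨e,φ⟩` for ALL `φ ∈ V`:
decompose `φ` into eigenvectors of `Δ` (`hA.top`/`mem_all`): the components in `eig lam'`, `lam' ≠ lam`, give `0` on
both sides (`AlmostInv.orth`, `eig_orth`).  Words of length `≤ 2K` satisfy `β ≤ C lam^{1/8}√m` (`B_words`).
(`near_min`) Move the letters of `wd s l e = sD(b_1)⋯sD(b_k)e` one by one: with `z = sD(b_2)⋯e`,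
`y' = wd s l' e`: `B(sD(b_1)z,y') = -B(z,sD(b_1)y') + O(ε s β(z)β(y'))`, and `⟨sD(b_1)z,y'⟩ = -⟨z,sD(b_1)y'⟩`.
Each error is `≤ ε s C² lam^{1/4}m = C' lam^{-1/4} m`.  After `k` steps: `B(e,y'') = m⟨e,y''⟩`.  Induction on
`l` (for all `l'` with `|l| + |l'| ≤ 2K`).
(`near_min_sum`) expand bilinearly: `x = ∑c_l wd l e`; the error is `≤ (∑|c_l|)² C lam^{-1/4}m`.
-/

open scoped Matrix

noncomputable section

namespace SBD

namespace LieRep

variable {N : ℕ} {V : Type} [NormedAddCommGroup V] [InnerProductSpace ℂ V] (A : LieRep N V)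

private theorem U05_zl {ε : ℝ} {B : V → V → ℂ} (hB : A.AlmostInv ε B) (v : V) :
    B 0 v = 0 := by
  have h := hB.smul_left 0 0 v
  rw [zero_smul, map_zero, zero_mul] at h
  exact h

private theorem U05_zr {ε : ℝ} {B : V → V → ℂ} (hB : A.AlmostInv ε B) (v : V) :
    B v 0 = 0 := by
  have h := hB.smul_right 0 v 0
  rw [zero_smul, zero_mul] at h
  exact h

private theorem U05_sl {ι : Type} {ε : ℝ} {B : V → V → ℂ} (hB : A.AlmostInv ε B)
    (s : Finset ι) (f : ι → V) (v : V) : B (∑ i ∈ s, f i) v = ∑ i ∈ s, B (f i) v := by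
  classical
  induction s using Finset.induction_on with
  | empty => simpa using U05_zl A hB v
  | insert a s ha ih => rw [Finset.sum_insert ha, Finset.sum_insert ha, hB.add_left, ih]

private theorem U05_sr {ι : Type} {ε : ℝ} {B : V → V → ℂ} (hB : A.AlmostInv ε B)
    (s : Finset ι) (f : ι → V) (v : V) : B v (∑ i ∈ s, f i) = ∑ i ∈ s, B v (f i) := by
  classical
  induction s using Finset.induction_on with
  | empty => simpa using U05_zr A hB v
  | insert a s ha ih => rw [Finset.sum_insert ha, Finset.sum_insert ha, hB.add_right, ih]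

private theorem U05_self {ε : ℝ} {B : V → V → ℂ} (hB : A.AlmostInv ε B) (v : V) :
    B v v = ((B v v).re : ℂ) := by
  have h := hB.symm v v
  exact (Complex.conj_eq_iff_re.mp h.symm).symm

private theorem U05_nonneg {ε : ℝ} {B : V → V → ℂ} (hB : A.AlmostInv ε B) (v : V) :
    0 ≤ (B v v).re := by
  by_cases h : v = 0
  · rw [h, U05_zl A hB]
    simp
  · exact (hB.pos v h).le

private theorem U05_ext (hA : A.IsAdm) {ε : ℝ} {B : V → V → ℂ} (hB : A.AlmostInv ε B)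
    {lam : ℝ} {e : V} (he : e ∈ A.eig lam) (h : ∀ φ ∈ A.eig lam, B e φ = B e e * inner ℂ e φ)
    (φ : V) : B e φ = B e e * inner ℂ e φ := by
  obtain ⟨s, f, hf, rfl⟩ := A.mem_all hA φ
  rw [U05_sr A hB, inner_sum, Finset.mul_sum]
  refine Finset.sum_congr rfl fun l hl => ?_
  by_cases hl2 : l = lam
  · exact h _ (hl2 ▸ hf l hl)
  · rw [hB.orth (Ne.symm hl2) he (hf l hl), A.eig_orth (Ne.symm hl2) he (hf l hl), mul_zero]

private theorem U05_exp {ε : ℝ} {B : V → V → ℂ} (hB : A.AlmostInv ε B) {ι : Type} (S : Finset ι)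
    (a : ι → ℂ) (u : ι → V) :
    B (∑ l ∈ S, a l • u l) (∑ l ∈ S, a l • u l) =
      ∑ l ∈ S, ∑ l' ∈ S, (starRingEnd ℂ) (a l) * a l' * B (u l) (u l') := by
  rw [U05_sl A hB]
  refine Finset.sum_congr rfl fun l _ => ?_
  rw [U05_sr A hB]
  refine Finset.sum_congr rfl fun l' _ => ?_
  rw [hB.smul_left, hB.smul_right, mul_assoc]

private theorem U05_expi {ι : Type} (S : Finset ι) (a : ι → ℂ) (u : ι → V) :
    inner ℂ (∑ l ∈ S, a l • u l) (∑ l ∈ S, a l • u l) =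
      ∑ l ∈ S, ∑ l' ∈ S, (starRingEnd ℂ) (a l) * a l' * inner ℂ (u l) (u l') := by
  rw [sum_inner]
  refine Finset.sum_congr rfl fun l _ => ?_
  rw [inner_sum]
  refine Finset.sum_congr rfl fun l' _ => ?_
  rw [inner_smul_left, inner_smul_right, mul_assoc]

private theorem U05_rpow {lam : ℝ} (hlam : 1 ≤ lam) :
    (Real.sqrt lam)⁻¹ * lam ^ (1 / 4 : ℝ) = lam ^ (-(1 / 4) : ℝ) := by
  have h0 : 0 < lam := by linarith
  rw [Real.sqrt_eq_rpow, ← Real.rpow_neg h0.le, ← Real.rpow_add h0]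
  norm_num

private theorem U05_key (hA : A.IsAdm) {ε : ℝ} (hε : 0 ≤ ε) {B : V → V → ℂ}
    (hB : A.AlmostInv ε B)
    (hX : ∀ X ∈ A.𝔤, ∀ u v : V, ‖B (A.D X u) v + B u (A.D X v)‖ ≤
      ε * Real.sqrt (fsq X) * Real.sqrt (B u u).re * Real.sqrt (B v v).re) {M : ℕ} {C lam : ℝ}
    (hlam : 1 ≤ lam) {e : V} (he : e ∈ A.eig lam)
    (hφ : ∀ φ ∈ A.eig lam, B e φ = B e e * inner ℂ e φ) (hC : 0 ≤ C)
    (hw : ∀ l : List A.J, l.length ≤ M →
        (B (A.wd ((Real.sqrt lam)⁻¹) l e) (A.wd ((Real.sqrt lam)⁻¹) l e)).re ≤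
          C * lam ^ (1 / 4 : ℝ) * (B e e).re) (l : List A.J) :
    ∀ l' : List A.J, l.length + l'.length ≤ M →
        ‖B (A.wd ((Real.sqrt lam)⁻¹) l e) (A.wd ((Real.sqrt lam)⁻¹) l' e) -
          B e e * inner ℂ (A.wd ((Real.sqrt lam)⁻¹) l e) (A.wd ((Real.sqrt lam)⁻¹) l' e)‖ ≤
          l.length * (ε * C * lam ^ (-(1 / 4) : ℝ) * (B e e).re) := by
  set s : ℝ := (Real.sqrt lam)⁻¹ with hs
  have hs0 : 0 ≤ s := by positivity
  have hm := U05_nonneg A hB e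
  induction l with
  | nil =>
    intro l' _
    have h1 : A.wd s [] e = e := rfl
    rw [h1, U05_ext A hA hB he hφ, sub_self, norm_zero]
    simp
  | cons b l ih =>
    intro l' hl
    rw [List.length_cons] at hl
    have h1 : A.wd s (b :: l) e = ((s : ℝ) : ℂ) • A.D (A.bs b) (A.wd s l e) := rfl
    have h2 : A.wd s (b :: l') e = ((s : ℝ) : ℂ) • A.D (A.bs b) (A.wd s l' e) := rfl
    have h3 := ih (b :: l') (by rw [List.length_cons]; omega)
    set z := A.wd s l e with hz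
    set y := A.wd s l' e with hy
    rw [h2] at h3
    rw [h1]
    have hskew := A.skew _ (A.bs_mem b) z y
    have hXb := hX _ (A.bs_mem b) z y
    rw [A.bs_fsq b, Real.sqrt_one, mul_one] at hXb
    have hzz := hw l (by omega)
    have hyy := hw l' (by omega)
    have hq0 : 0 ≤ C * lam ^ (1 / 4 : ℝ) * (B e e).re := by positivity
    have hsq : Real.sqrt (B z z).re * Real.sqrt (B y y).re ≤
        C * lam ^ (1 / 4 : ℝ) * (B e e).re := by
      calc Real.sqrt (B z z).re * Real.sqrt (B y y).re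
          ≤ Real.sqrt (C * lam ^ (1 / 4 : ℝ) * (B e e).re) *
            Real.sqrt (C * lam ^ (1 / 4 : ℝ) * (B e e).re) :=
            mul_le_mul (Real.sqrt_le_sqrt hzz) (Real.sqrt_le_sqrt hyy) (Real.sqrt_nonneg _)
              (Real.sqrt_nonneg _)
        _ = _ := Real.mul_self_sqrt hq0
    have herr : ‖B (A.D (A.bs b) z) y + B z (A.D (A.bs b) y)‖ ≤
        ε * (C * lam ^ (1 / 4 : ℝ) * (B e e).re) := by
      refine hXb.trans ?_
      rw [mul_assoc]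
      exact mul_le_mul_of_nonneg_left hsq hε
    have hid : B (((s : ℝ) : ℂ) • A.D (A.bs b) z) y -
        B e e * inner ℂ (((s : ℝ) : ℂ) • A.D (A.bs b) z) y =
        ((s : ℝ) : ℂ) * (B (A.D (A.bs b) z) y + B z (A.D (A.bs b) y)) -
        (B z (((s : ℝ) : ℂ) • A.D (A.bs b) y) -
          B e e * inner ℂ z (((s : ℝ) : ℂ) • A.D (A.bs b) y)) := by
      rw [hB.smul_left, hB.smul_right, inner_smul_left, inner_smul_right, hskew,
        Complex.conj_ofReal]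
      ring
    rw [hid]
    refine (norm_sub_le _ _).trans ?_
    have h4 : ‖((s : ℝ) : ℂ) * (B (A.D (A.bs b) z) y + B z (A.D (A.bs b) y))‖ ≤
        ε * C * lam ^ (-(1 / 4) : ℝ) * (B e e).re := by
      rw [norm_mul, Complex.norm_real, Real.norm_of_nonneg hs0]
      calc s * ‖B (A.D (A.bs b) z) y + B z (A.D (A.bs b) y)‖
          ≤ s * (ε * (C * lam ^ (1 / 4 : ℝ) * (B e e).re)) :=
            mul_le_mul_of_nonneg_left herr hs0
        _ = ε * C * (s * lam ^ (1 / 4 : ℝ)) * (B e e).re := by ring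
        _ = _ := by rw [hs, U05_rpow hlam]
    rw [List.length_cons]
    push_cast
    rw [add_mul, one_mul, add_comm]
    exact add_le_add h3 h4

theorem near_min (hA : A.IsAdm) {ε : ℝ} (hε : 0 ≤ ε) {B : V → V → ℂ} (hB : A.AlmostInv ε B)
    (hX : ∀ X ∈ A.𝔤, ∀ u v : V, ‖B (A.D X u) v + B u (A.D X v)‖ ≤
      ε * Real.sqrt (fsq X) * Real.sqrt (B u u).re * Real.sqrt (B v v).re) (K : ℕ) :
    ∃ C lam0 : ℝ, 0 < C ∧ 1 ≤ lam0 ∧ ∀ lam : ℝ, lam0 ≤ lam → ∀ e ∈ A.eig lam, ‖e‖ = 1 →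
      (∀ φ ∈ A.eig lam, B e φ = B e e * inner ℂ e φ) →
      ∀ l l' : List A.J, l.length ≤ K → l'.length ≤ K →
        ‖B (A.wd ((Real.sqrt lam)⁻¹) l e) (A.wd ((Real.sqrt lam)⁻¹) l' e) -
          B e e * inner ℂ (A.wd ((Real.sqrt lam)⁻¹) l e) (A.wd ((Real.sqrt lam)⁻¹) l' e)‖ ≤
          C * lam ^ (-(1 / 4) : ℝ) * (B e e).re := by
  obtain ⟨C, lam0, hC, hlam0, hw⟩ := A.B_words hA hε hB hX (2 * K)
  refine ⟨K * (ε * C) + 1, lam0, by positivity, hlam0, ?_⟩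
  intro lam hlam e he hn hφ l l' hl hl'
  have hlam1 : 1 ≤ lam := hlam0.trans hlam
  have hm := U05_nonneg A hB e
  have h1 := U05_key A hA hε hB hX hlam1 he hφ hC.le (hw lam hlam e he hn) l l' (by omega)
  refine h1.trans ?_
  have hp : 0 ≤ lam ^ (-(1 / 4) : ℝ) := Real.rpow_nonneg (by linarith) _
  have hlK : (l.length : ℝ) ≤ K := by exact_mod_cast hl
  calc (l.length : ℝ) * (ε * C * lam ^ (-(1 / 4) : ℝ) * (B e e).re)
      ≤ K * (ε * C * lam ^ (-(1 / 4) : ℝ) * (B e e).re) :=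
        mul_le_mul_of_nonneg_right hlK (by positivity)
    _ = (K * (ε * C)) * (lam ^ (-(1 / 4) : ℝ) * (B e e).re) := by ring
    _ ≤ (K * (ε * C) + 1) * (lam ^ (-(1 / 4) : ℝ) * (B e e).re) :=
        mul_le_mul_of_nonneg_right (by linarith) (by positivity)
    _ = _ := by ring

theorem near_min_sum (hA : A.IsAdm) {ε : ℝ} (hε : 0 ≤ ε) {B : V → V → ℂ}
    (hB : A.AlmostInv ε B)
    (hX : ∀ X ∈ A.𝔤, ∀ u v : V, ‖B (A.D X u) v + B u (A.D X v)‖ ≤
      ε * Real.sqrt (fsq X) * Real.sqrt (B u u).re * Real.sqrt (B v v).re) (K : ℕ) (C₁ : ℝ) :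
    ∃ C lam0 : ℝ, 0 < C ∧ 1 ≤ lam0 ∧ ∀ lam : ℝ, lam0 ≤ lam → ∀ e ∈ A.eig lam, ‖e‖ = 1 →
      (∀ φ ∈ A.eig lam, B e φ = B e e * inner ℂ e φ) →
      ∀ c : List A.J →₀ ℂ, (∀ l ∈ c.support, l.length ≤ K) → (c.sum fun _ a => ‖a‖) ≤ C₁ →
        |(B (A.wsum ((Real.sqrt lam)⁻¹) c e) (A.wsum ((Real.sqrt lam)⁻¹) c e)).re -
          (B e e).re * ‖A.wsum ((Real.sqrt lam)⁻¹) c e‖ ^ 2| ≤
          C * lam ^ (-(1 / 4) : ℝ) * (B e e).re := by
  obtain ⟨C, lam0, hC, hlam0, hmin⟩ := A.near_min hA hε hB hX K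
  refine ⟨C₁ ^ 2 * C + 1, lam0, by positivity, hlam0, ?_⟩
  intro lam hlam e he hn hφ c hcK hcC
  have hm := U05_nonneg A hB e
  have hlam1 : 1 ≤ lam := hlam0.trans hlam
  have hp : 0 ≤ lam ^ (-(1 / 4) : ℝ) := Real.rpow_nonneg (by linarith) _
  set s : ℝ := (Real.sqrt lam)⁻¹ with hs
  have hx : A.wsum s c e = ∑ l ∈ c.support, c l • A.wd s l e := rfl
  have hc' : ∑ l ∈ c.support, ‖c l‖ ≤ C₁ := hcC
  have hc0 : 0 ≤ ∑ l ∈ c.support, ‖c l‖ := Finset.sum_nonneg fun _ _ => norm_nonneg _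
  set x := A.wsum s c e with hxdef
  have hself := U05_self A hB e
  have hre : (B x x).re - (B e e).re * ‖x‖ ^ 2 = (B x x - B e e * inner ℂ x x).re := by
    rw [Complex.sub_re, inner_self_eq_norm_sq_to_K, hself]
    have h1 : (((B e e).re : ℂ) * ((‖x‖ : ℂ)) ^ 2).re = (B e e).re * ‖x‖ ^ 2 := by
      rw [← Complex.ofReal_pow, ← Complex.ofReal_mul, Complex.ofReal_re]
    rw [Complex.ofReal_re]
    exact congrArg (fun t => (B x x).re - t) h1.symm
  rw [hre]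
  refine (Complex.abs_re_le_norm _).trans ?_
  have hdiff : B x x - B e e * inner ℂ x x = ∑ l ∈ c.support, ∑ l' ∈ c.support,
      (starRingEnd ℂ) (c l) * c l' * (B (A.wd s l e) (A.wd s l' e) -
        B e e * inner ℂ (A.wd s l e) (A.wd s l' e)) := by
    rw [hx, U05_exp A hB, U05_expi, Finset.mul_sum, ← Finset.sum_sub_distrib]
    refine Finset.sum_congr rfl fun l _ => ?_
    rw [Finset.mul_sum, ← Finset.sum_sub_distrib]
    refine Finset.sum_congr rfl fun l' _ => ?_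
    ring
  rw [hdiff]
  have hb : ‖∑ l ∈ c.support, ∑ l' ∈ c.support,
      (starRingEnd ℂ) (c l) * c l' * (B (A.wd s l e) (A.wd s l' e) -
        B e e * inner ℂ (A.wd s l e) (A.wd s l' e))‖ ≤
      ∑ l ∈ c.support, ∑ l' ∈ c.support, ‖c l‖ * ‖c l'‖ *
        (C * lam ^ (-(1 / 4) : ℝ) * (B e e).re) := by
    refine (norm_sum_le _ _).trans (Finset.sum_le_sum fun l hl => ?_)
    refine (norm_sum_le _ _).trans (Finset.sum_le_sum fun l' hl' => ?_)
    rw [norm_mul, norm_mul, RCLike.norm_conj]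
    exact mul_le_mul_of_nonneg_left
      (hmin lam hlam e he hn hφ l l' (hcK l hl) (hcK l' hl')) (by positivity)
  refine hb.trans ?_
  have hprod : ∑ l ∈ c.support, ∑ l' ∈ c.support, ‖c l‖ * ‖c l'‖ *
        (C * lam ^ (-(1 / 4) : ℝ) * (B e e).re) =
      (∑ l ∈ c.support, ‖c l‖) * (∑ l ∈ c.support, ‖c l‖) *
        (C * lam ^ (-(1 / 4) : ℝ) * (B e e).re) := by
    rw [Finset.sum_mul_sum, Finset.sum_mul]
    refine Finset.sum_congr rfl fun l _ => ?_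
    rw [Finset.sum_mul]
  rw [hprod]
  have hq : 0 ≤ C * lam ^ (-(1 / 4) : ℝ) * (B e e).re := by positivity
  calc (∑ l ∈ c.support, ‖c l‖) * (∑ l ∈ c.support, ‖c l‖) *
        (C * lam ^ (-(1 / 4) : ℝ) * (B e e).re)
      ≤ (C₁ * C₁) * (C * lam ^ (-(1 / 4) : ℝ) * (B e e).re) :=
        mul_le_mul_of_nonneg_right (mul_le_mul hc' hc' hc0 (hc0.trans hc')) hq
    _ = (C₁ ^ 2 * C) * (lam ^ (-(1 / 4) : ℝ) * (B e e).re) := by ring
    _ ≤ (C₁ ^ 2 * C + 1) * (lam ^ (-(1 / 4) : ℝ) * (B e e).re) :=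
        mul_le_mul_of_nonneg_right (by linarith) (by positivity)
    _ = _ := by ring

end LieRep

end SBD
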