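import Pool.Agent.SBX.UDefs

/-!
# Row SBX-U06 : record eigenvalues

PROOF.  The set `S = {l : eig l ≠ 0}` has finitely many points below any bound (`hA.fin`: `low R` is
finite-dimensional and the `eig l` are orthogonal), all `≥ 1` (`eig_ge`).  For `l ∈ S` let `t(l) > 0` be the
smallest `t_i` of `AlmostInv.diag` (A14), `e_l` the corresponding unit vector: `B(e_l,φ) = t(l)⟨e_l,φ⟩` on
`eig l`, `t(l) = B(e_l,e_l)`, and `B(φ,φ) ≥ t(l)‖φ‖²` for `φ ∈ eig l` (expand).  `g(l) = t(l) l^b`.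
`hfail` says that `g` takes values `< 1/C` for every `C > 0` (if `ψ ∈ eig l`, `C l^bB(ψ,ψ) < ‖ψ‖²` then `ψ ≠ 0`,
`l ∈ S` and `C g(l) < 1`).  Given `Λ₀`: `g₀ = min{g(l) : l ∈ S, l ≤ Λ₀}` (or `1` if empty) `> 0`; pick `l₁ ∈ S`
with `g(l₁) < g₀` (so `l₁ > Λ₀`), and let `lam` minimise `g` on the finite set `S ∩ [1,l₁]`: `g(lam) ≤ g(l₁) < g₀`, so
`lam > Λ₀`.  `e = e_lam`.  For `l ∈ S`, `l ≤ R ≤ lam`: `t(l) ≥ g(lam)l^{-b} = t(lam)(lam/l)^b ≥ t(lam)(lam/R)^b`.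
For `φ = ∑φ_l ∈ low R` (`mem_low_iff`): `B(φ,φ) = ∑B(φ_l,φ_l) ≥ t(lam)(lam/R)^b∑‖φ_l‖²`
(`AlmostInv.sum`, `norm_sq_sum`).
-/

open scoped Matrix

noncomputable section

namespace SBD

namespace LieRep

variable {N : ℕ} {V : Type} [NormedAddCommGroup V] [InnerProductSpace ℂ V] (A : LieRep N V)

private theorem U06_zero_left {ε : ℝ} {B : V → V → ℂ} (hB : A.AlmostInv ε B) (v : V) :
    B 0 v = 0 := by
  have h := hB.smul_left 0 0 v
  rw [zero_smul, map_zero, zero_mul] at h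
  exact h

private theorem U06_sum_left {ε : ℝ} {B : V → V → ℂ} (hB : A.AlmostInv ε B) {ι : Type}
    (s : Finset ι) (g : ι → V) (v : V) : B (∑ i ∈ s, g i) v = ∑ i ∈ s, B (g i) v := by
  classical
  induction s using Finset.induction_on with
  | empty => simpa using U06_zero_left A hB v
  | insert i s hi ih => rw [Finset.sum_insert hi, Finset.sum_insert hi, hB.add_left, ih]

/-- The spectrum of `Δ` below `R` is finite. -/
private theorem U06_fin (hA : A.IsAdm) (R : ℝ) : {l : ℝ | l ≤ R ∧ A.eig l ≠ ⊥}.Finite := by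
  have hfd := hA.fin R
  have h1 : ∀ l : {l : ℝ | l ≤ R ∧ A.eig l ≠ ⊥}, ∃ v ∈ A.eig l, ‖v‖ = 1 := by
    rintro ⟨l, hl, hne⟩
    obtain ⟨w, hw, hw0⟩ := (Submodule.ne_bot_iff _).1 hne
    refine ⟨((‖w‖⁻¹ : ℝ) : ℂ) • w, (A.eig l).smul_mem _ hw, ?_⟩
    rw [norm_smul, Complex.norm_real, norm_inv, norm_norm]
    exact inv_mul_cancel₀ (norm_ne_zero_iff.2 hw0)
  choose v hv hv1 using h1
  let w : {l : ℝ | l ≤ R ∧ A.eig l ≠ ⊥} → A.low R := fun l => ⟨v l, A.eig_le_low l.2.1 (hv l)⟩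
  have ho : Orthonormal ℂ w := by
    refine ⟨fun l => hv1 l, fun l l' hne => ?_⟩
    change inner ℂ (v l) (v l') = 0
    exact A.eig_orth (fun h => hne (Subtype.ext h)) (hv l) (hv l')
  have hli := ho.linearIndependent
  have : Finite {l : ℝ | l ≤ R ∧ A.eig l ≠ ⊥} := hli.finite_of_isNoetherian
  exact Set.toFinite _

/-- The lowest eigenvector of `B` on `V_l`. -/
private theorem U06_min (hA : A.IsAdm) {ε : ℝ} {B : V → V → ℂ} (hB : A.AlmostInv ε B) (l : ℝ)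
    (hl : A.eig l ≠ ⊥) : ∃ e ∈ A.eig l, ‖e‖ = 1 ∧ (∀ φ ∈ A.eig l, B e φ = B e e * inner ℂ e φ) ∧
      (∀ φ ∈ A.eig l, (B e e).re * ‖φ‖ ^ 2 ≤ (B φ φ).re) ∧ 0 < (B e e).re := by
  obtain ⟨d, e, t, heo, hel, het, hspan⟩ := hB.diag hA l
  have hd : Nonempty (Fin d) := by
    by_contra hcon
    rw [not_nonempty_iff] at hcon
    apply hl
    rw [eq_bot_iff]
    intro ψ hψ
    rw [hspan ψ hψ, Finset.univ_eq_empty, Finset.sum_empty]
    exact Submodule.zero_mem _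
  obtain ⟨i₀, hi₀⟩ := Finite.exists_min t
  have hBe : ∀ i, B (e i) (e i) = (t i : ℂ) := by
    intro i
    rw [het i _ (hel i), inner_self_eq_norm_sq_to_K, heo.1 i]
    simp
  refine ⟨e i₀, hel i₀, heo.1 i₀, fun φ hφ => ?_, fun ψ hψ => ?_, ?_⟩
  · rw [hBe i₀]
    exact het i₀ φ hφ
  · have hzz : ∀ i, (starRingEnd ℂ) (inner ℂ (e i) ψ) * inner ℂ (e i) ψ =
        ((‖(inner ℂ (e i) ψ : ℂ)‖ ^ 2 : ℝ) : ℂ) := by
      intro i
      rw [Complex.conj_mul']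
      push_cast
      ring
    have hBψ : (B ψ ψ).re = ∑ i, t i * ‖(inner ℂ (e i) ψ : ℂ)‖ ^ 2 := by
      have h1 : B ψ ψ = ∑ i, (((t i * ‖(inner ℂ (e i) ψ : ℂ)‖ ^ 2 : ℝ)) : ℂ) := by
        calc B ψ ψ = B (∑ i, inner ℂ (e i) ψ • e i) ψ := by rw [← hspan ψ hψ]
          _ = ∑ i, B (inner ℂ (e i) ψ • e i) ψ := U06_sum_left A hB _ _ _
          _ = _ := by
            refine Finset.sum_congr rfl fun i _ => ?_
            rw [hB.smul_left, het i ψ hψ, mul_left_comm, hzz i]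
            push_cast
            ring
      rw [h1, ← Complex.ofReal_sum, Complex.ofReal_re]
    have hnψ : ‖ψ‖ ^ 2 = ∑ i, ‖(inner ℂ (e i) ψ : ℂ)‖ ^ 2 := by
      have h1 : inner ℂ ψ ψ = ∑ i, (((‖(inner ℂ (e i) ψ : ℂ)‖ ^ 2 : ℝ)) : ℂ) := by
        calc inner ℂ ψ ψ = inner ℂ (∑ i, inner ℂ (e i) ψ • e i) ψ := by rw [← hspan ψ hψ]
          _ = ∑ i, inner ℂ (inner ℂ (e i) ψ • e i) ψ := sum_inner _ _ _
          _ = _ := by
            refine Finset.sum_congr rfl fun i _ => ?_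
            rw [inner_smul_left, hzz i]
      rw [← Complex.ofReal_sum, inner_self_eq_norm_sq_to_K] at h1
      apply Complex.ofReal_injective
      rw [← h1]
      push_cast
      rfl
    rw [hBψ, hnψ, Finset.mul_sum, hBe i₀, Complex.ofReal_re]
    exact Finset.sum_le_sum fun i _ => mul_le_mul_of_nonneg_right (hi₀ i) (by positivity)
  · refine hB.pos _ fun h => ?_
    have := heo.1 i₀
    rw [h, norm_zero] at this
    exact zero_ne_one this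

theorem record (hA : A.IsAdm) {ε : ℝ} {B : V → V → ℂ} (hB : A.AlmostInv ε B) {b : ℝ}
    (hb : 0 < b) (hfail : ∀ C : ℝ, ∃ lam : ℝ, ∃ ψ ∈ A.eig lam,
      C * lam ^ b * (B ψ ψ).re < ‖ψ‖ ^ 2) (Λ₀ : ℝ) :
    ∃ lam : ℝ, Λ₀ ≤ lam ∧ 1 ≤ lam ∧ ∃ e ∈ A.eig lam, ‖e‖ = 1 ∧
      (∀ φ ∈ A.eig lam, B e φ = B e e * inner ℂ e φ) ∧
      ∀ R : ℝ, 1 ≤ R → R ≤ lam → ∀ φ ∈ A.low R,
        (B e e).re * (lam / R) ^ b * ‖φ‖ ^ 2 ≤ (B φ φ).re := by
  classical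
  have hmin : ∀ l : ℝ, A.eig l ≠ ⊥ → ∃ e ∈ A.eig l, ‖e‖ = 1 ∧
      (∀ φ ∈ A.eig l, B e φ = B e e * inner ℂ e φ) ∧
      (∀ φ ∈ A.eig l, (B e e).re * ‖φ‖ ^ 2 ≤ (B φ φ).re) ∧ 0 < (B e e).re :=
    fun l hl => U06_min A hA hB l hl
  choose! e he1 he2 he3 he4 he5 using hmin
  set g : ℝ → ℝ := fun l => (B (e l) (e l)).re * l ^ b with hg
  have hge : ∀ l : ℝ, A.eig l ≠ ⊥ → 1 ≤ l := by
    intro l hl
    refine A.eig_ge (he1 l hl) fun h => ?_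
    have := he2 l hl
    rw [h, norm_zero] at this
    exact zero_ne_one this
  have hgpos : ∀ l : ℝ, A.eig l ≠ ⊥ → 0 < g l := by
    intro l hl
    have h1 := hge l hl
    exact mul_pos (he5 l hl) (Real.rpow_pos_of_pos (by linarith) b)
  have hF₀ := U06_fin A hA Λ₀
  obtain ⟨g₀, hg₀, hg₀'⟩ : ∃ g₀ : ℝ, 0 < g₀ ∧ ∀ l : ℝ, l ≤ Λ₀ → A.eig l ≠ ⊥ → g₀ ≤ g l := by
    by_cases hne : {l : ℝ | l ≤ Λ₀ ∧ A.eig l ≠ ⊥}.Nonempty
    · obtain ⟨a, ha, hmin⟩ := hF₀.exists_minimalFor g _ hne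
      refine ⟨g a, hgpos a ha.2, fun l hl hl' => ?_⟩
      by_contra hlt
      push Not at hlt
      have := hmin ⟨hl, hl'⟩ hlt.le
      linarith
    · refine ⟨1, one_pos, fun l hl hl' => ?_⟩
      exact absurd ⟨l, hl, hl'⟩ hne
  obtain ⟨l₁, ψ, hψ, hψ'⟩ := hfail (1 / g₀)
  have hψ0 : ψ ≠ 0 := by
    rintro rfl
    rw [U06_zero_left A hB] at hψ'
    simp at hψ'
  have hl₁ : A.eig l₁ ≠ ⊥ := (Submodule.ne_bot_iff _).2 ⟨ψ, hψ, hψ0⟩
  have hl₁1 := hge l₁ hl₁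
  have hgl₁ : g l₁ < g₀ := by
    have h1 := he4 l₁ hl₁ ψ hψ
    have h2 : 0 < l₁ ^ b := Real.rpow_pos_of_pos (by linarith) b
    have h3 : 0 < ‖ψ‖ ^ 2 := by
      have := norm_pos_iff.2 hψ0
      positivity
    have h4 : 1 / g₀ * l₁ ^ b * ((B (e l₁) (e l₁)).re * ‖ψ‖ ^ 2) < ‖ψ‖ ^ 2 := by
      refine lt_of_le_of_lt (mul_le_mul_of_nonneg_left h1 ?_) hψ'
      positivity
    have h5 : 1 / g₀ * g l₁ * ‖ψ‖ ^ 2 < 1 * ‖ψ‖ ^ 2 := by
      rw [one_mul]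
      refine lt_of_eq_of_lt ?_ h4
      simp only [hg]
      ring
    have h6 := lt_of_mul_lt_mul_right h5 h3.le
    rw [one_div, inv_mul_eq_div, div_lt_one hg₀] at h6
    exact h6
  obtain ⟨lam, hlam, hlmin⟩ := (U06_fin A hA l₁).exists_minimalFor g _ ⟨l₁, le_refl l₁, hl₁⟩
  have hmin' : ∀ l : ℝ, l ≤ l₁ → A.eig l ≠ ⊥ → g lam ≤ g l := by
    intro l hl hl'
    by_contra hlt
    push Not at hlt
    have := hlmin ⟨hl, hl'⟩ hlt.le
    linarith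
  have hlam1 := hge lam hlam.2
  refine ⟨lam, ?_, hlam1, e lam, he1 lam hlam.2, he2 lam hlam.2, he3 lam hlam.2, ?_⟩
  · by_contra hlt
    push Not at hlt
    have h1 := hg₀' lam hlt.le hlam.2
    have h2 := hmin' l₁ le_rfl hl₁
    linarith
  · intro R hR1 hR2 φ hφ
    obtain ⟨s, f, hf, rfl⟩ := A.mem_low_iff.1 hφ
    rw [A.norm_sq_sum s f (fun l hl => (hf l hl).2), hB.sum s f (fun l hl => (hf l hl).2),
      Finset.mul_sum]
    refine Finset.sum_le_sum fun l hl => ?_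
    by_cases h0 : f l = 0
    · rw [h0, U06_zero_left A hB]
      simp
    · have hlb : A.eig l ≠ ⊥ := (Submodule.ne_bot_iff _).2 ⟨f l, (hf l hl).2, h0⟩
      have hl1 := hge l hlb
      have hlR := (hf l hl).1
      have h1 := he4 l hlb (f l) (hf l hl).2
      have h2 := hmin' l (hlR.trans (hR2.trans hlam.1)) hlb
      have hlb' : 0 < l ^ b := Real.rpow_pos_of_pos (by linarith) b
      have hRb : 0 < R ^ b := Real.rpow_pos_of_pos (by linarith) b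
      have hlRb : l ^ b ≤ R ^ b := Real.rpow_le_rpow (by linarith) hlR hb.le
      have h3 : (B (e lam) (e lam)).re * (lam / R) ^ b ≤ (B (e l) (e l)).re := by
        rw [Real.div_rpow (by linarith) (by linarith), mul_div_assoc', div_le_iff₀ hRb]
        calc (B (e lam) (e lam)).re * lam ^ b ≤ (B (e l) (e l)).re * l ^ b := h2
          _ ≤ (B (e l) (e l)).re * R ^ b := mul_le_mul_of_nonneg_left hlRb (he5 l hlb).le
      exact (mul_le_mul_of_nonneg_right h3 (by positivity)).trans h1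

end LieRep

end SBD
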