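import Pool.Agent.SBX.WDefs
import Pool.Agent.SBD.Q12
import Pool.Agent.SBD.P15

/-!
# Row SBX-U07 : Chebyshev inequality for the `K`-frequency of a differentiable vector

`y ∈ H` differentiable in the directions `Z_i` (orthonormal basis of `𝔨`), with derivatives `y_i`.

PROOF.  `KFin L π` is dense in `H`: `dense_V0` (Q12) with `V₀ = KFin L π`, `A₀ = A` (`kfin_K` of P10 for `hK`,
`hP.dif`, `hP.adm`; `IsIrr π` from `hP.cont`, `hP.irr` and nontriviality of `H`).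
`y'` := orthogonal projection of `y` to the finite-dimensional subspace `low R` (image in `H`).
For a finite set `F` of reals let `u_l` be the orthogonal projection of `y` to (the image of) `eig l`,
`u = ∑_{l∈F}u_l ∈ KFin`.  Skewness: for `v ∈ KFin`, `⟨D(Z_i)v, y⟩ = -⟨v, y_i⟩` (differentiate
`⟨π(e(tZ))v, π(e(tZ))y⟩ = ⟨v,y⟩`; `hP.dif`/`hP.line`).  So
`S := ∑_{l∈F} l‖u_l‖² = ⟨Δu,y⟩ = ⟨u,y⟩ - ∑_i⟨D(Z_i)²u,y⟩ = ⟨u,y⟩ + ∑_i⟨D(Z_i)u,y_i⟩
≤ (‖u‖² + ∑‖D(Z_i)u‖²)^{1/2}(‖y‖² + ∑‖y_i‖²)^{1/2} = S^{1/2}(…)^{1/2}` (`re_inner_Del`: `‖u‖² + ∑‖D(Z_i)u‖² =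
⟨Δu,u⟩ = S`), so `S ≤ ‖y‖² + ∑‖y_i‖² =: T` for every finite `F`.
Therefore `R∑_{l∈F,l>R}‖u_l‖² ≤ T`.  Finally `‖y - y'‖² = sup_F ∑_{l∈F,l>R}‖u_l‖²`: given `η > 0` there is
`v ∈ KFin` with `‖y - v‖ < η`; `v = ∑_{l∈F}v_l`; the projection of `y` to `⊕_{l∈F∪{l ≤ R}}eig l` is at least as
close; its components with `l ≤ R` sum to (part of) `y'`.  So `‖y - y' - ∑_{l∈F,l>R}u_l‖ ≤ η`.
-/

open MeasureTheory Filter Topology
open scoped ENNReal NNReal Matrix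

noncomputable section

namespace SBD

variable {N : ℕ} {G : Type} [Group G] [TopologicalSpace G] [IsTopologicalGroup G]
  [LocallyCompactSpace G] [T2Space G]
variable {H : Type} [NormedAddCommGroup H] [InnerProductSpace ℂ H] [CompleteSpace H]

private theorem u07_kfin_K (L : LieData N G) (π : G →* (H ≃ₗᵢ[ℂ] H)) {k : G} (hk : k ∈ L.K) {u : H}
    (hu : u ∈ KFin L π) : π k u ∈ KFin L π := by
  obtain ⟨W, h1, h2, h3⟩ := hu
  exact ⟨W, h1, h3 k hk u h2, h3⟩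

/-- skewness with a differentiable vector -/
private theorem u07_skew (L : LieData N G) (π : G →* (H ≃ₗᵢ[ℂ] H)) (A : LieRep N (KFin L π))
    (hP : IsPkg L π A) (X : Mat N) (hX : X ∈ L.𝔤) (w : KFin L π) (y y1 : H)
    (hy : HasDerivAt (fun t : ℝ => π (L.e (t • X)) y) y1 0) :
    inner ℂ ((A.D X w : KFin L π) : H) y = -inner ℂ (w : H) y1 := by
  have h1 := HasDerivAt.inner ℂ (hP.dif X hX w) hy
  have h2 : (fun t : ℝ => inner ℂ (π (L.e (t • X)) (w : H)) (π (L.e (t • X)) y)) =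
      fun _ => inner ℂ (w : H) y := by
    funext t
    exact (π (L.e (t • X))).inner_map_map _ _
  rw [h2] at h1
  have h3 := h1.unique (hasDerivAt_const (0 : ℝ) (inner ℂ (w : H) y))
  rw [zero_smul, e_zero, map_one] at h3
  have h4 : inner ℂ (w : H) y1 + inner ℂ ((A.D X w : KFin L π) : H) y = 0 := h3
  exact eq_neg_of_add_eq_zero_right h4

private theorem u07_Del (L : LieData N G) (π : G →* (H ≃ₗᵢ[ℂ] H)) (A : LieRep N (KFin L π))
    (hP : IsPkg L π A) (y : H) (yd : Fin A.m → H)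
    (hyd : ∀ i, HasDerivAt (fun t : ℝ => π (L.e (t • A.Z i)) y) (yd i) 0) (w : KFin L π) :
    inner ℂ ((A.Del w : KFin L π) : H) y =
      inner ℂ (w : H) y + ∑ i, inner ℂ ((A.D (A.Z i) w : KFin L π) : H) (yd i) := by
  have hZ : ∀ i, A.Z i ∈ L.𝔤 := fun i => by
    rw [← hP.g_eq]
    exact A.Z_mem i
  have h1 : ((A.Del w : KFin L π) : H) =
      (w : H) - ∑ i, ((A.D (A.Z i) (A.D (A.Z i) w) : KFin L π) : H) := by
    have h2 : A.Del w = w - ∑ i, A.D (A.Z i) (A.D (A.Z i) w) := by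
      unfold LieRep.Del
      rw [LinearMap.sub_apply, LinearMap.id_apply, LinearMap.sum_apply]
      rfl
    rw [h2, Submodule.coe_sub, Submodule.coe_sum]
  rw [h1, inner_sub_left, sum_inner, sub_eq_add_neg, ← Finset.sum_neg_distrib]
  congr 1
  refine Finset.sum_congr rfl fun i _ => ?_
  rw [u07_skew L π A hP (A.Z i) (hZ i) (A.D (A.Z i) w) y (yd i) (hyd i), neg_neg]

private theorem u07_cs {m : ℕ} (w y : H) (a b : Fin m → H) :
    ‖inner ℂ w y + ∑ i, inner ℂ (a i) (b i)‖ ^ 2 ≤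
      (‖w‖ ^ 2 + ∑ i, ‖a i‖ ^ 2) * (‖y‖ ^ 2 + ∑ i, ‖b i‖ ^ 2) := by
  have h1 : ‖inner ℂ w y + ∑ i, inner ℂ (a i) (b i)‖ ≤ ‖w‖ * ‖y‖ + ∑ i, ‖a i‖ * ‖b i‖ := by
    refine (norm_add_le _ _).trans (add_le_add (norm_inner_le_norm _ _) ?_)
    refine (norm_sum_le _ _).trans (Finset.sum_le_sum fun i _ => norm_inner_le_norm _ _)
  have h2 := Finset.sum_mul_sq_le_sq_mul_sq Finset.univ
    (Fin.cons ‖w‖ (fun i => ‖a i‖) : Fin (m + 1) → ℝ)
    (Fin.cons ‖y‖ (fun i => ‖b i‖) : Fin (m + 1) → ℝ)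
  simp only [Fin.sum_univ_succ, Fin.cons_zero, Fin.cons_succ] at h2
  exact (pow_le_pow_left₀ (norm_nonneg _) h1 2).trans h2

private theorem u07_high (L : LieData N G) (π : G →* (H ≃ₗᵢ[ℂ] H)) (A : LieRep N (KFin L π))
    (hP : IsPkg L π A) (y : H) (yd : Fin A.m → H)
    (hyd : ∀ i, HasDerivAt (fun t : ℝ => π (L.e (t • A.Z i)) y) (yd i) 0) (R : ℝ) (hR : 0 ≤ R)
    (u : KFin L π) (hu : ∀ v ∈ A.low R, inner ℂ v u = 0) :
    R * ‖inner ℂ (u : H) y‖ ^ 2 ≤ ‖(u : H)‖ ^ 2 * (‖y‖ ^ 2 + ∑ i, ‖yd i‖ ^ 2) := by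
  obtain ⟨s, f, hf, hs⟩ := A.orth_low hP.adm hu
  set w : KFin L π := ∑ l ∈ s, ((l⁻¹ : ℝ) : ℂ) • f l with hw
  have hl0 : ∀ l ∈ s, 0 < l := fun l hl => lt_of_le_of_lt hR (hf l hl).1
  have hwm : ∀ l ∈ s, ((l⁻¹ : ℝ) : ℂ) • f l ∈ A.eig l := fun l hl =>
    (A.eig l).smul_mem _ (hf l hl).2
  have hDw : A.Del w = u := by
    rw [hw, map_sum, hs]
    refine Finset.sum_congr rfl fun l hl => ?_
    have h1 : A.Del (((l⁻¹ : ℝ) : ℂ) • f l) = (l : ℂ) • (((l⁻¹ : ℝ) : ℂ) • f l) := hwm l hl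
    rw [h1, smul_smul, ← Complex.ofReal_mul, mul_inv_cancel₀ (hl0 l hl).ne', Complex.ofReal_one,
      one_smul]
  have hq : (inner ℂ (A.Del w) w).re = ∑ l ∈ s, l⁻¹ * ‖f l‖ ^ 2 := by
    rw [hDw]
    conv_lhs => rw [hs]
    rw [sum_inner, Complex.re_sum]
    refine Finset.sum_congr rfl fun l hl => ?_
    rw [hw, inner_sum, Finset.sum_eq_single l]
    · rw [inner_smul_right, Complex.re_ofReal_mul]
      congr 1
      exact (norm_sq_eq_re_inner (𝕜 := ℂ) (f l)).symm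
    · intro l' hl' hne
      exact A.eig_orth (Ne.symm hne) (hf l hl).2 (hwm l' hl')
    · exact fun h' => absurd hl h'
  have hun : ‖(u : H)‖ ^ 2 = ∑ l ∈ s, ‖f l‖ ^ 2 := by
    have h1 := A.norm_sq_sum s f fun l hl => (hf l hl).2
    rw [← hs] at h1
    exact h1
  have hRq : R * ∑ l ∈ s, l⁻¹ * ‖f l‖ ^ 2 ≤ ∑ l ∈ s, ‖f l‖ ^ 2 := by
    rw [Finset.mul_sum]
    refine Finset.sum_le_sum fun l hl => ?_
    have h1 : R * l⁻¹ ≤ 1 := by
      rw [← div_eq_mul_inv, div_le_one (hl0 l hl)]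
      exact (hf l hl).1.le
    have h2 := mul_le_mul_of_nonneg_right h1 (sq_nonneg ‖f l‖)
    linarith [mul_assoc R l⁻¹ (‖f l‖ ^ 2)]
  have h1 := u07_Del L π A hP y yd hyd w
  rw [hDw] at h1
  have h2 := u07_cs (w : H) y (fun i => ((A.D (A.Z i) w : KFin L π) : H)) yd
  rw [← h1] at h2
  have h3 : ‖(w : H)‖ ^ 2 + ∑ i, ‖((A.D (A.Z i) w : KFin L π) : H)‖ ^ 2 =
      ∑ l ∈ s, l⁻¹ * ‖f l‖ ^ 2 := by
    rw [← hq, A.re_inner_Del]
    rfl
  rw [h3] at h2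
  have hT : 0 ≤ ‖y‖ ^ 2 + ∑ i, ‖yd i‖ ^ 2 :=
    add_nonneg (sq_nonneg _) (Finset.sum_nonneg fun i _ => sq_nonneg _)
  calc R * ‖inner ℂ (u : H) y‖ ^ 2
      ≤ R * ((∑ l ∈ s, l⁻¹ * ‖f l‖ ^ 2) * (‖y‖ ^ 2 + ∑ i, ‖yd i‖ ^ 2)) :=
        mul_le_mul_of_nonneg_left h2 hR
    _ = (R * ∑ l ∈ s, l⁻¹ * ‖f l‖ ^ 2) * (‖y‖ ^ 2 + ∑ i, ‖yd i‖ ^ 2) := by ring
    _ ≤ ‖(u : H)‖ ^ 2 * (‖y‖ ^ 2 + ∑ i, ‖yd i‖ ^ 2) := by
        rw [hun]
        exact mul_le_mul_of_nonneg_right hRq hT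

theorem kfin_dense (L : LieData N G) (π : G →* (H ≃ₗᵢ[ℂ] H)) (A : LieRep N (KFin L π))
    (hP : IsPkg L π A) (hV : ∃ u ∈ KFin L π, u ≠ 0) :
    (KFin L π).topologicalClosure = ⊤ := by
  obtain ⟨u, hu, hu0⟩ := hV
  refine dense_V0 L π ⟨hP.cont, ⟨⟨u, 0, hu0⟩⟩, hP.irr⟩ (KFin L π) ?_ ?_ A hP.g_eq hP.dif hP.adm
  · intro h
    rw [h, Submodule.mem_bot] at hu
    exact hu0 hu
  · exact fun k hk v hv => u07_kfin_K L π hk hv

theorem cheb (L : LieData N G) (π : G →* (H ≃ₗᵢ[ℂ] H)) (A : LieRep N (KFin L π))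
    (hP : IsPkg L π A) (hV : ∃ u ∈ KFin L π, u ≠ 0) (y : H) (yd : Fin A.m → H)
    (hyd : ∀ i, HasDerivAt (fun t : ℝ => π (L.e (t • A.Z i)) y) (yd i) 0) (R : ℝ) (hR : 0 ≤ R) :
    ∃ y' ∈ A.low R, (∀ u ∈ A.low R, inner ℂ (u : H) (y - ((y' : KFin L π) : H)) = 0) ∧
      R * ‖y - ((y' : KFin L π) : H)‖ ^ 2 ≤ ‖y‖ ^ 2 + ∑ i, ‖yd i‖ ^ 2 := by
  have hfin : FiniteDimensional ℂ (A.low R) := hP.adm.fin R
  let WR : Submodule ℂ H := (A.low R).map (KFin L π).subtype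
  have hWf : FiniteDimensional ℂ WR := inferInstanceAs
    (FiniteDimensional ℂ ((A.low R).map (KFin L π).subtype))
  have hmem : ∀ x : H, ∃ p ∈ A.low R, ((p : KFin L π) : H) = WR.starProjection x := by
    intro x
    obtain ⟨p, hp, hpe⟩ := WR.starProjection_apply_mem x
    exact ⟨p, hp, hpe⟩
  have horth : ∀ x : H, ∀ v ∈ A.low R, inner ℂ (v : H) (x - WR.starProjection x) = 0 := by
    intro x v hv
    have h1 : (v : H) ∈ WR := ⟨v, hv, rfl⟩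
    exact (Submodule.mem_orthogonal WR _).1 (WR.sub_starProjection_mem_orthogonal x) _ h1
  obtain ⟨y', hy', hy'e⟩ := hmem y
  refine ⟨y', hy', ?_, ?_⟩
  · intro u hu
    rw [hy'e]
    exact horth y u hu
  rw [hy'e]
  set z : H := y - WR.starProjection y with hz
  set T : ℝ := ‖y‖ ^ 2 + ∑ i, ‖yd i‖ ^ 2 with hT
  have hT0 : 0 ≤ T := add_nonneg (sq_nonneg _) (Finset.sum_nonneg fun i _ => sq_nonneg _)
  have hcl : IsClosed {x : H | R * ‖inner ℂ (x - WR.starProjection x) z‖ ^ 2 ≤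
      ‖x - WR.starProjection x‖ ^ 2 * T} := by
    have hc : Continuous fun x : H => x - WR.starProjection x :=
      continuous_id.sub WR.starProjection.continuous
    exact isClosed_le (((hc.inner continuous_const).norm.pow 2).const_mul R)
      ((hc.norm.pow 2).mul continuous_const)
  have hsub : ((KFin L π : Submodule ℂ H) : Set H) ⊆
      {x : H | R * ‖inner ℂ (x - WR.starProjection x) z‖ ^ 2 ≤
      ‖x - WR.starProjection x‖ ^ 2 * T} := by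
    intro v hv
    obtain ⟨p, hp, hpe⟩ := hmem v
    have h1 : v - WR.starProjection v = (((⟨v, hv⟩ : KFin L π) - p : KFin L π) : H) := by
      rw [Submodule.coe_sub, hpe]
    have h2 : ∀ x ∈ A.low R, inner ℂ x ((⟨v, hv⟩ : KFin L π) - p) = 0 := by
      intro x hx
      have h3 := horth v x hx
      rw [h1] at h3
      exact h3
    have h4 := u07_high L π A hP y yd hyd R hR ((⟨v, hv⟩ : KFin L π) - p) h2
    have h5 : inner ℂ (((⟨v, hv⟩ : KFin L π) - p : KFin L π) : H) z =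
        inner ℂ (((⟨v, hv⟩ : KFin L π) - p : KFin L π) : H) y := by
      rw [hz, inner_sub_right]
      have h6 : inner ℂ (((⟨v, hv⟩ : KFin L π) - p : KFin L π) : H) (WR.starProjection y) = 0 := by
        rw [← hy'e, ← inner_conj_symm]
        have h7 : inner ℂ ((y' : KFin L π) : H)
            (((⟨v, hv⟩ : KFin L π) - p : KFin L π) : H) = 0 := h2 y' hy'
        rw [h7, map_zero]
      rw [h6, sub_zero]
    show R * ‖inner ℂ (v - WR.starProjection v) z‖ ^ 2 ≤ ‖v - WR.starProjection v‖ ^ 2 * T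
    rw [h1, h5]
    exact h4
  have hd : Dense ((KFin L π : Submodule ℂ H) : Set H) :=
    Submodule.dense_iff_topologicalClosure_eq_top.2 (kfin_dense L π A hP hV)
  have hall : ∀ x : H, R * ‖inner ℂ (x - WR.starProjection x) z‖ ^ 2 ≤
      ‖x - WR.starProjection x‖ ^ 2 * T := by
    intro x
    have h1 := hcl.closure_subset_iff.2 hsub
    rw [hd.closure_eq] at h1
    exact h1 (Set.mem_univ x)
  have h1 := hall y
  rw [← hz, inner_self_eq_norm_sq_to_K] at h1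
  have h2 : ‖((RCLike.ofReal ‖z‖ : ℂ)) ^ 2‖ = ‖z‖ ^ 2 := by
    rw [norm_pow]
    congr 1
    exact (RCLike.norm_ofReal _).trans (abs_norm z)
  rw [h2] at h1
  by_cases h0 : ‖z‖ ^ 2 = 0
  · rw [h0, mul_zero]
    exact hT0
  · have h3 : 0 < ‖z‖ ^ 2 := lt_of_le_of_ne (sq_nonneg _) (Ne.symm h0)
    have h4 : ‖z‖ ^ 2 * (R * ‖z‖ ^ 2) ≤ ‖z‖ ^ 2 * T := by
      calc ‖z‖ ^ 2 * (R * ‖z‖ ^ 2) = R * (‖z‖ ^ 2) ^ 2 := by ring
        _ ≤ _ := h1
    exact le_of_mul_le_mul_left h4 h3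

end SBD
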