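import Pool.Agent.SBX.U03
import Pool.Agent.SBX.U05
import Pool.Agent.SBX.U06
import Pool.Agent.SBX.L01

/-!
# Row SBX-U08 : near-minimal coherent vectors at a point of the asymptotic cone

`B` almost invariant (with `hX`), and suppose that the bound `‖ψ‖² ≤ C lam^b B(ψ,ψ)` fails for every `C`.  Then
there is a point `ξ` with `A.Coh 4 ξ` such that for every `δ > 0` there are arbitrarily large `lam`, `m > 0` and a
unit vector `x ∈ low(4lam)` with: `B(x,x) ≤ 2m`, `‖lam^{-1/2}D(X)x - i tr(ξX)x‖ ≤ δ√(fsq X)`, and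
`m (lam/R)^b‖φ‖² ≤ B(φ,φ)` for `φ ∈ low R`, `1 ≤ R ≤ lam`.

PROOF.  `M` from `loc` (U03).  For `j ∈ ℕ` let `δ_j = 1/(j+1)`, `K_j, C_j, lam0_j` from `loc` for `δ_j`;
`near_min_sum` (U05) for `K_j, C_j`: `|B(x,x) - m‖x‖²| ≤ C'_jlam^{-1/4}m ≤ m` for `lam ≥ lam1_j`.  `record` (U06) with
`Λ₀ = max(j, lam0_j, lam1_j)` gives `lam_j`, `e_j`, `m_j = B(e_j,e_j).re > 0`, and `loc` gives `x_j`, `γ_j` with `fsq γ_j ≤ M`.
By compactness of `{γ ∈ 𝔤 : fsq γ ≤ M}` a subsequence of `γ_j` converges to some `ξ ∈ 𝔤`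
(`𝔤 = A.𝔤` is closed, finite-dimensional).  `‖lam_j^{-1/2}D(X)x_j - i tr(ξX)x_j‖ ≤ (δ_j + √fsq(γ_j-ξ))√(fsq X)`
(`|tr(YX)| ≤ √fsq Y √fsq X`).  `A.Coh 4 ξ`: `R = √lam_j`, `v = x_j ∈ low(4lam_j) = low(4R²)`.
-/

open MeasureTheory Filter Topology
open scoped ENNReal NNReal Matrix

noncomputable section

namespace SBD

namespace LieRep

variable {N : ℕ} {V : Type} [NormedAddCommGroup V] [InnerProductSpace ℂ V] (A : LieRep N V)

private theorem U08_fsq (X : Mat N) : fsq X = ∑ p : Fin N × Fin N, X p.1 p.2 ^ 2 := by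
  unfold fsq fip
  rw [Matrix.trace, Fintype.sum_prod_type_right]
  refine Finset.sum_congr rfl fun j _ => ?_
  rw [Matrix.diag_apply, Matrix.mul_apply]
  refine Finset.sum_congr rfl fun i _ => ?_
  rw [Matrix.transpose_apply]
  ring

private theorem U08_fsq' (X : Mat N) : fsq X = ∑ p : Fin N × Fin N, X p.2 p.1 ^ 2 := by
  rw [U08_fsq, Fintype.sum_prod_type, Fintype.sum_prod_type_right]

private theorem U08_nonneg (X : Mat N) : 0 ≤ fsq X := by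
  rw [U08_fsq]
  exact Finset.sum_nonneg fun _ _ => sq_nonneg _

private theorem U08_tr (Y X : Mat N) :
    |(Y * X).trace| ≤ Real.sqrt (fsq Y) * Real.sqrt (fsq X) := by
  rw [← Real.sqrt_mul (U08_nonneg Y)]
  apply Real.abs_le_sqrt
  have h1 : (Y * X).trace = ∑ p : Fin N × Fin N, Y p.1 p.2 * X p.2 p.1 := by
    rw [Matrix.trace, Fintype.sum_prod_type]
    refine Finset.sum_congr rfl fun i _ => ?_
    rw [Matrix.diag_apply, Matrix.mul_apply]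
  rw [h1, U08_fsq Y, U08_fsq' X]
  exact Finset.sum_mul_sq_le_sq_mul_sq _ _ _

private theorem U08_cont : Continuous (fun γ : Mat N => fsq γ) := by
  have h : (fun γ : Mat N => fsq γ) = fun γ => ∑ p : Fin N × Fin N, γ p.1 p.2 ^ 2 :=
    funext U08_fsq
  rw [h]
  refine continuous_finsetSum _ fun p _ => ?_
  exact ((continuous_apply p.2).comp (continuous_apply p.1)).pow 2

private theorem U08_cpt (W : Submodule ℝ (Mat N)) (M : ℝ) :
    IsCompact {γ : Mat N | γ ∈ W ∧ fsq γ ≤ M} := by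
  have hW : IsClosed (W : Set (Mat N)) := Submodule.closed_of_finiteDimensional W
  have hK : IsCompact (Set.univ.pi fun _ : Fin N => Set.univ.pi fun _ : Fin N =>
      Set.Icc (-(Real.sqrt M)) (Real.sqrt M)) :=
    isCompact_univ_pi fun _ => isCompact_univ_pi fun _ => isCompact_Icc
  refine hK.of_isClosed_subset (hW.inter (isClosed_le U08_cont continuous_const)) ?_
  rintro γ ⟨_, h⟩ i _ j _
  have h1 : γ i j ^ 2 ≤ M := by
    refine le_trans ?_ h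
    rw [U08_fsq]
    exact Finset.single_le_sum (f := fun p : Fin N × Fin N => γ p.1 p.2 ^ 2)
      (fun _ _ => sq_nonneg _) (Finset.mem_univ (i, j))
  exact abs_le.mp (Real.abs_le_sqrt h1)

theorem near_coh (hA : A.IsAdm) {ε : ℝ} (hε : 0 ≤ ε) {B : V → V → ℂ} (hB : A.AlmostInv ε B)
    (hX : ∀ X ∈ A.𝔤, ∀ u v : V, ‖B (A.D X u) v + B u (A.D X v)‖ ≤
      ε * Real.sqrt (fsq X) * Real.sqrt (B u u).re * Real.sqrt (B v v).re) {b : ℝ} (hb : 0 < b)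
    (hfail : ∀ C : ℝ, ∃ lam : ℝ, ∃ ψ ∈ A.eig lam, C * lam ^ b * (B ψ ψ).re < ‖ψ‖ ^ 2) :
    ∃ ξ : Mat N, A.Coh 4 ξ ∧ ∀ δ : ℝ, 0 < δ → ∀ Λ₀ : ℝ, ∃ lam : ℝ, Λ₀ ≤ lam ∧ 1 ≤ lam ∧
      ∃ m : ℝ, 0 < m ∧ ∃ x ∈ A.low (4 * lam), ‖x‖ = 1 ∧ (B x x).re ≤ 2 * m ∧
        (∀ X ∈ A.𝔤, ‖(((Real.sqrt lam)⁻¹ : ℝ) : ℂ) • A.D X x -
          (Complex.I * ((ξ * X).trace : ℝ)) • x‖ ≤ δ * Real.sqrt (fsq X)) ∧
        ∀ R : ℝ, 1 ≤ R → R ≤ lam → ∀ φ ∈ A.low R, m * (lam / R) ^ b * ‖φ‖ ^ 2 ≤ (B φ φ).re := by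
  obtain ⟨M, hM, hloc⟩ := A.loc hA
  -- one step
  have step : ∀ δ : ℝ, 0 < δ → ∀ Λ₀ : ℝ, ∃ lam : ℝ, Λ₀ ≤ lam ∧ 1 ≤ lam ∧
      ∃ m : ℝ, 0 < m ∧ ∃ γ ∈ A.𝔤, fsq γ ≤ M ∧ ∃ x ∈ A.low (4 * lam), ‖x‖ = 1 ∧
        (B x x).re ≤ 2 * m ∧
        (∀ X ∈ A.𝔤, ‖(((Real.sqrt lam)⁻¹ : ℝ) : ℂ) • A.D X x -
          (Complex.I * ((γ * X).trace : ℝ)) • x‖ ≤ δ * Real.sqrt (fsq X)) ∧
        ∀ R : ℝ, 1 ≤ R → R ≤ lam → ∀ φ ∈ A.low R,
          m * (lam / R) ^ b * ‖φ‖ ^ 2 ≤ (B φ φ).re := by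
    intro δ hδ Λ₀
    obtain ⟨K, C, lam0, hC, hlam0, h1⟩ := hloc δ hδ
    obtain ⟨C', lam1, hC', hlam1, h2⟩ := A.near_min_sum hA hε hB hX K C
    obtain ⟨lam, hlam, hlam', e, he, hen, hBe, hrec⟩ :=
      A.record hA hB hb hfail (max Λ₀ (max lam0 (max lam1 (C' ^ (4 : ℕ)))))
    have hl0 : lam0 ≤ lam := le_trans (le_trans (le_max_left _ _) (le_max_right _ _)) hlam
    have hl1 : lam1 ≤ lam := le_trans (le_trans (le_trans (le_max_left _ _) (le_max_right _ _))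
      (le_max_right _ _)) hlam
    have hl2 : C' ^ (4 : ℕ) ≤ lam := le_trans (le_trans (le_trans (le_max_right _ _)
      (le_max_right _ _)) (le_max_right _ _)) hlam
    obtain ⟨c, γ, hc, hcs, hγ, hγM, hx, hxn, hxX⟩ := h1 lam hl0 e he hen
    have hm : 0 < (B e e).re := hB.pos e (by
      intro h0
      rw [h0, norm_zero] at hen
      exact zero_ne_one hen)
    refine ⟨lam, le_trans (le_max_left _ _) hlam, hlam', (B e e).re, hm, γ, hγ, hγM,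
      A.wsum ((Real.sqrt lam)⁻¹) c e, hx, hxn, ?_, hxX, hrec⟩
    have h3 := h2 lam hl1 e he hen hBe c hc hcs
    rw [hxn, one_pow, mul_one] at h3
    have hlpos : 0 < lam := lt_of_lt_of_le one_pos hlam'
    have h4 : C' * lam ^ (-(1 / 4) : ℝ) ≤ 1 := by
      have h5 : C' ≤ lam ^ (1 / 4 : ℝ) := by
        have h6 : (C' ^ (4 : ℕ)) ^ (1 / 4 : ℝ) ≤ lam ^ (1 / 4 : ℝ) :=
          Real.rpow_le_rpow (pow_nonneg hC'.le _) hl2 (by norm_num)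
        have h7 : (C' ^ (4 : ℕ)) ^ (1 / 4 : ℝ) = C' := by
          rw [← Real.rpow_natCast, ← Real.rpow_mul hC'.le]
          norm_num
        rwa [h7] at h6
      rw [Real.rpow_neg hlpos.le, ← div_eq_mul_inv, div_le_one (Real.rpow_pos_of_pos hlpos _)]
      exact h5
    have h8 := (abs_le.mp h3).2
    have h9 : C' * lam ^ (-(1 / 4) : ℝ) * (B e e).re ≤ 1 * (B e e).re :=
      mul_le_mul_of_nonneg_right h4 hm.le
    linarith
  choose lam hlam hlam1 m hm γ hγ hγM x hx hxn hxB hxX hrec using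
    fun j : ℕ => step (1 / ((j : ℝ) + 1)) (by positivity) (j : ℝ)
  have hfc : FirstCountableTopology (Mat N) :=
    inferInstanceAs (FirstCountableTopology (Fin N → Fin N → ℝ))
  obtain ⟨ξ, ⟨hξ, -⟩, φ, hφ, hlim⟩ := (U08_cpt A.𝔤 M).tendsto_subseq
    (x := γ) fun j => ⟨hγ j, hγM j⟩
  have hdist : Tendsto (fun k => Real.sqrt (fsq (γ (φ k) - ξ))) atTop (𝓝 0) := by
    have h1 : Tendsto (fun k => γ (φ k) - ξ) atTop (𝓝 (ξ - ξ)) := hlim.sub_const ξ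
    rw [sub_self] at h1
    have h2 : Tendsto (fun k => fsq (γ (φ k) - ξ)) atTop (𝓝 (fsq (0 : Mat N))) :=
      (U08_cont.tendsto 0).comp h1
    have h3 : fsq (0 : Mat N) = 0 := by simp [fsq, fip]
    rw [h3] at h2
    have h4 := (Real.continuous_sqrt.tendsto 0).comp h2
    rw [Real.sqrt_zero] at h4
    exact h4
  have main : ∀ δ : ℝ, 0 < δ → ∀ Λ₀ : ℝ, ∃ lam : ℝ, Λ₀ ≤ lam ∧ 1 ≤ lam ∧
      ∃ m : ℝ, 0 < m ∧ ∃ x ∈ A.low (4 * lam), ‖x‖ = 1 ∧ (B x x).re ≤ 2 * m ∧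
        (∀ X ∈ A.𝔤, ‖(((Real.sqrt lam)⁻¹ : ℝ) : ℂ) • A.D X x -
          (Complex.I * ((ξ * X).trace : ℝ)) • x‖ ≤ δ * Real.sqrt (fsq X)) ∧
        ∀ R : ℝ, 1 ≤ R → R ≤ lam → ∀ φ ∈ A.low R,
          m * (lam / R) ^ b * ‖φ‖ ^ 2 ≤ (B φ φ).re := by
    intro δ hδ Λ₀
    have e1 : ∀ᶠ k in atTop, Real.sqrt (fsq (γ (φ k) - ξ)) ≤ δ / 2 :=
      hdist.eventually (ge_mem_nhds (half_pos hδ))
    obtain ⟨j0, hj0⟩ := exists_nat_ge (max Λ₀ (2 / δ))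
    obtain ⟨k, hk1, hk2⟩ := (e1.and (eventually_ge_atTop j0)).exists
    have hj : (j0 : ℝ) ≤ (φ k : ℝ) := by exact_mod_cast le_trans hk2 (hφ.id_le k)
    refine ⟨lam (φ k), ?_, hlam1 _, m (φ k), hm _, x (φ k), hx _, hxn _, hxB _, ?_, hrec _⟩
    · exact le_trans (le_trans (le_max_left _ _) hj0) (le_trans hj (hlam _))
    · intro X hXg
      have h1 := hxX (φ k) X hXg
      have h2 : (((Real.sqrt (lam (φ k)))⁻¹ : ℝ) : ℂ) • A.D X (x (φ k)) -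
          (Complex.I * ((ξ * X).trace : ℝ)) • x (φ k) =
          ((((Real.sqrt (lam (φ k)))⁻¹ : ℝ) : ℂ) • A.D X (x (φ k)) -
          (Complex.I * ((γ (φ k) * X).trace : ℝ)) • x (φ k)) +
          (Complex.I * ((((γ (φ k) - ξ) * X).trace : ℝ) : ℂ)) • x (φ k) := by
        rw [Matrix.sub_mul, Matrix.trace_sub, Complex.ofReal_sub, mul_sub, sub_smul]
        abel
      rw [h2]
      refine (norm_add_le _ _).trans ?_
      have h3 : ‖(Complex.I * ((((γ (φ k) - ξ) * X).trace : ℝ) : ℂ)) • x (φ k)‖ ≤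
          δ / 2 * Real.sqrt (fsq X) := by
        rw [norm_smul, hxn, mul_one, norm_mul, Complex.norm_I, one_mul, Complex.norm_real,
          Real.norm_eq_abs]
        exact (U08_tr _ _).trans (mul_le_mul_of_nonneg_right hk1 (Real.sqrt_nonneg _))
      have h4 : 1 / ((φ k : ℝ) + 1) ≤ δ / 2 := by
        have h5 : 2 / δ ≤ (φ k : ℝ) := le_trans (le_trans (le_max_right _ _) hj0) hj
        rw [div_le_iff₀ (by positivity)]
        rw [div_le_iff₀ hδ] at h5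
        nlinarith
      have h6 := mul_le_mul_of_nonneg_right h4 (Real.sqrt_nonneg (fsq X))
      linarith
  refine ⟨ξ, ⟨hξ, ?_⟩, main⟩
  intro η hη
  obtain ⟨l, hl, hl1, m', -, v, hv, hvn, -, hvX, -⟩ := main η hη (max 1 ((1 / η) ^ 2))
  have hlnn : 0 ≤ l := le_trans zero_le_one hl1
  refine ⟨Real.sqrt l, ?_, ?_, v, ?_, hvn, hvX⟩
  · rw [Real.le_sqrt' one_pos, one_pow]
    exact hl1
  · exact Real.le_sqrt_of_sq_le (le_trans (le_max_right _ _) hl)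
  · rw [Real.sq_sqrt hlnn]
    exact hv

end LieRep

end SBD
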