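import Pool.Agent.SBX.W01
import Pool.Agent.SBD.M05

/-!
# Row SBX-W02 : almost invariance of `B_W`

As M05 (`Bf_deriv`, `Bf_K`), with `W` instead of `Θ^{-ε}`.
For `X ∈ 𝔤` let `φ(t) = ∫ W(g) conj⟨w,π(g)π(e(tX))u⟩ ⟨w,π(g)π(e(tX))v⟩ dg = ∫ W(g e(-tX)) conj(m_u(g)) m_v(g) dg`
(right invariance, `g ↦ g e(-tX)`).  `φ` is differentiable at `0` with derivative `B(D X u,v) + B(u,D X v)`
(difference quotients: `m_{π(e(tX))u}(g) = m_u(g e(tX))`, derivative `m_{D X u}(g e(tX))` by `hP.line`;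
dominated convergence as in M05), and `|φ(t) - φ(0)| ≤ (e^{c|t|√(fsq X)} - 1)∫W‖m_u‖‖m_v‖` since
`e^{-c|t||X|} W(g) ≤ W(g e(-tX)) ≤ e^{c|t||X|}W(g)` (`hW.line` for `g` and for `g e(-tX)`), so the derivative is
`≤ c√(fsq X)√B(u,u)√B(v,v)` (`BW_abs_le`).  For `Z ∈ 𝔨`: `W(g e(-tZ)) = W(g)` (`hW.Kr`, `e_mem_K`), `φ` is constant.
`BW_almost` : the fields of `AlmostInv`: sesquilinearity (integrals), `symm`, `pos` (`BW_pos`), `del`
(`Δ = 1 - ∑D(Z_i)²` and `BW_K` twice), `alm` (`BW_deriv` with `fsq(P_j) = 1`).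
-/

open MeasureTheory Filter Topology
open scoped ENNReal NNReal Matrix

noncomputable section

namespace SBD

variable {N : ℕ} {G : Type} [Group G] [TopologicalSpace G] [IsTopologicalGroup G]
  [LocallyCompactSpace G] [T2Space G]
variable [SecondCountableTopology G] [MeasurableSpace G] [BorelSpace G]
variable {H : Type} [NormedAddCommGroup H] [InnerProductSpace ℂ H] [CompleteSpace H]

section W02

variable (L : LieData N G)

theorem W02_wt {X : Mat N} (hX : X ∈ L.𝔤) (g : G) (s : ℝ) {W : G → ℝ} {c κ : ℝ} (hc : 0 ≤ c)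
    (hW : IsWt L W c κ) :
    W (g * (L.e (s • X))⁻¹) ≤ Real.exp (c * |s| * Real.sqrt (fsq X)) * W g ∧
    |W (g * (L.e (s • X))⁻¹) - W g| ≤
      (Real.exp (c * |s| * Real.sqrt (fsq X)) - 1) * W g := by
  have hinv : (L.e (s • X))⁻¹ = L.e ((-s) • X) := by
    rw [neg_smul, e_neg L (L.𝔤.smul_mem s hX)]
  have h1 : W (g * (L.e (s • X))⁻¹) ≤ Real.exp (c * |s| * Real.sqrt (fsq X)) * W g := by
    have := hW.line X hX g (-s)
    rwa [abs_neg, ← hinv] at this
  have h2 : W g ≤ Real.exp (c * |s| * Real.sqrt (fsq X)) * W (g * (L.e (s • X))⁻¹) := by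
    have := hW.line X hX (g * (L.e (s • X))⁻¹) s
    rwa [inv_mul_cancel_right] at this
  have hF : 0 < Real.exp (c * |s| * Real.sqrt (fsq X)) := Real.exp_pos _
  have hT : 0 < W g := hW.pos g
  refine ⟨h1, ?_⟩
  have k2 : (Real.exp (c * |s| * Real.sqrt (fsq X)))⁻¹ * W g ≤ W (g * (L.e (s • X))⁻¹) := by
    rw [inv_mul_le_iff₀ hF]
    exact h2
  rw [abs_le]
  have k3 : 2 - Real.exp (c * |s| * Real.sqrt (fsq X)) ≤
      (Real.exp (c * |s| * Real.sqrt (fsq X)))⁻¹ := by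
    rw [← one_div, le_div_iff₀ hF]
    nlinarith [sq_nonneg (Real.exp (c * |s| * Real.sqrt (fsq X)) - 1)]
  constructor
  · have := mul_le_mul_of_nonneg_right k3 hT.le
    linarith
  · linarith

/-- integrability of the shifted functions, with a bound of the norm -/
theorem W02_int {X : Mat N} (hX : X ∈ L.𝔤) (μ : Measure G) [μ.IsHaarMeasure]
    [μ.IsMulRightInvariant] {W : G → ℝ} {c κ : ℝ} (hc : 0 ≤ c) (hW : IsWt L W c κ) (ψ : G → ℂ) (hψc : Continuous ψ)
    (hψ : Integrable (fun g => ((W g : ℝ) : ℂ) * ψ g) μ) (s : ℝ) :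
    Integrable (fun g => ((W g : ℝ) : ℂ) * ψ (g * L.e (s • X))) μ ∧
    ∫ g, ‖((W g : ℝ) : ℂ) * ψ (g * L.e (s • X))‖ ∂μ ≤
      Real.exp (c * |s| * Real.sqrt (fsq X)) *
        ∫ g, ‖((W g : ℝ) : ℂ) * ψ g‖ ∂μ ∧
    ‖∫ g, ((W g : ℝ) : ℂ) * ψ (g * L.e (s • X)) ∂μ -
      ∫ g, ((W g : ℝ) : ℂ) * ψ g ∂μ‖ ≤
      (Real.exp (c * |s| * Real.sqrt (fsq X)) - 1) *
        ∫ g, ‖((W g : ℝ) : ℂ) * ψ g‖ ∂μ := by
  have hTc : ∀ h : G, Continuous fun g => ((W (g * h) : ℝ) : ℂ) := by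
    intro h
    exact Complex.continuous_ofReal.comp (hW.cont.comp (continuous_mul_right h))
  have hT0 : ∀ g : G, 0 ≤ W g := fun g => (hW.pos g).le
  have hFb : ∀ g : G, ‖((W (g * (L.e (s • X))⁻¹) : ℝ) : ℂ) * ψ g‖ ≤
      Real.exp (c * |s| * Real.sqrt (fsq X)) * ‖((W g : ℝ) : ℂ) * ψ g‖ := by
    intro g
    rw [norm_mul, norm_mul, Complex.norm_real, Complex.norm_real, Real.norm_of_nonneg (hT0 _),
      Real.norm_of_nonneg (hT0 _), ← mul_assoc]
    exact mul_le_mul_of_nonneg_right (W02_wt L hX g s hc hW).1 (norm_nonneg _)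
  have hF : Integrable (fun g => ((W (g * (L.e (s • X))⁻¹) : ℝ) : ℂ) * ψ g) μ :=
    (hψ.norm.const_mul _).mono' ((hTc _).mul hψc).aestronglyMeasurable
      (Filter.Eventually.of_forall hFb)
  have hsh : (fun g => ((W g : ℝ) : ℂ) * ψ (g * L.e (s • X))) =
      fun g => (fun x => ((W (x * (L.e (s • X))⁻¹) : ℝ) : ℂ) * ψ x)
        (g * L.e (s • X)) := by
    funext g
    simp only [mul_inv_cancel_right]
  refine ⟨?_, ?_, ?_⟩
  · rw [hsh]
    exact hF.comp_mul_right _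
  · have e1 : ∫ g, ‖((W g : ℝ) : ℂ) * ψ (g * L.e (s • X))‖ ∂μ =
        ∫ g, ‖((W (g * (L.e (s • X))⁻¹) : ℝ) : ℂ) * ψ g‖ ∂μ := by
      rw [← integral_mul_right_eq_self
        (fun g => ‖((W (g * (L.e (s • X))⁻¹) : ℝ) : ℂ) * ψ g‖) (L.e (s • X))]
      simp only [mul_inv_cancel_right]
    rw [e1, ← integral_const_mul]
    exact integral_mono hF.norm (hψ.norm.const_mul _) hFb
  · have e1 : ∫ g, ((W g : ℝ) : ℂ) * ψ (g * L.e (s • X)) ∂μ =
        ∫ g, ((W (g * (L.e (s • X))⁻¹) : ℝ) : ℂ) * ψ g ∂μ := by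
      rw [← integral_mul_right_eq_self
        (fun g => ((W (g * (L.e (s • X))⁻¹) : ℝ) : ℂ) * ψ g) (L.e (s • X))]
      simp only [mul_inv_cancel_right]
    rw [e1, ← integral_sub hF hψ, ← integral_const_mul]
    refine norm_integral_le_of_norm_le (hψ.norm.const_mul _) (Filter.Eventually.of_forall ?_)
    intro g
    show ‖_‖ ≤ _
    rw [← sub_mul, norm_mul, norm_mul, ← Complex.ofReal_sub, Complex.norm_real, Complex.norm_real,
      Real.norm_of_nonneg (hT0 _), ← mul_assoc, Real.norm_eq_abs]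
    exact mul_le_mul_of_nonneg_right (W02_wt L hX g s hc hW).2 (norm_nonneg _)

theorem W02_prod {X : Mat N} (hX : X ∈ L.𝔤) (μ : Measure G) [μ.IsHaarMeasure]
    [μ.IsMulRightInvariant] {W : G → ℝ} {c κ : ℝ} (hc : 0 ≤ c) (hW : IsWt L W c κ) (ψ : G → ℂ) (hψc : Continuous ψ)
    (hψ : Integrable (fun g => ((W g : ℝ) : ℂ) * ψ g) μ) (t : ℝ) :
    Integrable (fun p : ℝ × G => ((W p.2 : ℝ) : ℂ) * ψ (p.2 * L.e (p.1 • X)))
      ((volume.restrict (Set.Ioc 0 t)).prod μ) := by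
  have hcont : Continuous (fun p : ℝ × G => ((W p.2 : ℝ) : ℂ) *
      ψ (p.2 * L.e (p.1 • X))) := by
    refine Continuous.mul ?_ ?_
    · exact Complex.continuous_ofReal.comp (hW.cont.comp continuous_snd)
    · exact hψc.comp (continuous_snd.mul ((e_line_cont L hX).comp continuous_fst))
  have hm : AEStronglyMeasurable (fun p : ℝ × G => ((W p.2 : ℝ) : ℂ) *
      ψ (p.2 * L.e (p.1 • X))) ((volume.restrict (Set.Ioc 0 t)).prod μ) :=
    hcont.aestronglyMeasurable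
  rw [integrable_prod_iff hm]
  refine ⟨Filter.Eventually.of_forall fun s => (W02_int L hX μ hc hW ψ hψc hψ s).1, ?_⟩
  refine (integrable_const (Real.exp (c * t * Real.sqrt (fsq X)) *
        ∫ g, ‖((W g : ℝ) : ℂ) * ψ g‖ ∂μ)).mono' hm.norm.integral_prod_right' ?_
  rw [ae_restrict_iff' measurableSet_Ioc]
  refine Filter.Eventually.of_forall fun s hs => ?_
  rw [Real.norm_of_nonneg (integral_nonneg fun g => norm_nonneg _)]
  refine (W02_int L hX μ hc hW ψ hψc hψ s).2.1.trans ?_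
  refine mul_le_mul_of_nonneg_right ?_ (integral_nonneg fun g => norm_nonneg _)
  apply Real.exp_le_exp.2
  rw [abs_of_pos hs.1]
  have := hs.2
  gcongr

theorem W02_ftc {X : Mat N} (hX : X ∈ L.𝔤) (μ : Measure G) [μ.IsHaarMeasure]
    [μ.IsMulRightInvariant] {W : G → ℝ} {c κ : ℝ} (hc : 0 ≤ c) (hW : IsWt L W c κ) (φ ψ : G → ℂ) (hφc : Continuous φ)
    (hψc : Continuous ψ)
    (hd : ∀ g : G, ∀ t : ℝ, HasDerivAt (fun s : ℝ => φ (g * L.e (s • X)))
      (ψ (g * L.e (t • X))) t)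
    (hφ : Integrable (fun g => ((W g : ℝ) : ℂ) * φ g) μ)
    (hψ : Integrable (fun g => ((W g : ℝ) : ℂ) * ψ g) μ) {t : ℝ} (ht : 0 ≤ t) :
    ∫ g, ((W g : ℝ) : ℂ) * φ (g * L.e (t • X)) ∂μ -
      ∫ g, ((W g : ℝ) : ℂ) * φ g ∂μ =
    ∫ s in Set.Ioc 0 t, ∫ g, ((W g : ℝ) : ℂ) * ψ (g * L.e (s • X)) ∂μ := by
  rw [integral_integral_swap (W02_prod L hX μ hc hW ψ hψc hψ t),
    ← integral_sub (W02_int L hX μ hc hW φ hφc hφ t).1 hφ]
  refine integral_congr_ae (Filter.Eventually.of_forall fun g => ?_)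
  show _ = ∫ s in Set.Ioc 0 t, ((W g : ℝ) : ℂ) * ψ (g * L.e (s • X))
  have hcs : Continuous fun s : ℝ => ψ (g * L.e (s • X)) :=
    hψc.comp (continuous_const.mul (e_line_cont L hX))
  rw [← intervalIntegral.integral_of_le ht, intervalIntegral.integral_const_mul,
    intervalIntegral.integral_eq_sub_of_hasDerivAt (fun s _ => hd g s)
      (hcs.intervalIntegrable _ _)]
  rw [zero_smul, e_zero, mul_one, mul_sub]

theorem W02_bound {X : Mat N} (hX : X ∈ L.𝔤) (μ : Measure G) [μ.IsHaarMeasure]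
    [μ.IsMulRightInvariant] {W : G → ℝ} {c κ : ℝ} (hc : 0 ≤ c) (hW : IsWt L W c κ) (φ ψ : G → ℂ) (hφc : Continuous φ)
    (hψc : Continuous ψ)
    (hd : ∀ g : G, ∀ t : ℝ, HasDerivAt (fun s : ℝ => φ (g * L.e (s • X)))
      (ψ (g * L.e (t • X))) t)
    (hφ : Integrable (fun g => ((W g : ℝ) : ℂ) * φ g) μ)
    (hψ : Integrable (fun g => ((W g : ℝ) : ℂ) * ψ g) μ) :
    ‖∫ g, ((W g : ℝ) : ℂ) * ψ g ∂μ‖ ≤ c * Real.sqrt (fsq X) *
      ∫ g, ‖((W g : ℝ) : ℂ) * φ g‖ ∂μ := by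
  obtain ⟨b, hb⟩ : ∃ b, b = c * Real.sqrt (fsq X) := ⟨_, rfl⟩
  obtain ⟨P, hP⟩ : ∃ P, P = ∫ g, ‖((W g : ℝ) : ℂ) * φ g‖ ∂μ := ⟨_, rfl⟩
  obtain ⟨Q, hQ⟩ : ∃ Q, Q = ∫ g, ‖((W g : ℝ) : ℂ) * ψ g‖ ∂μ := ⟨_, rfl⟩
  have hc0 : 0 ≤ b := by rw [hb]; exact mul_nonneg hc (Real.sqrt_nonneg _)
  have hP0 : 0 ≤ P := by rw [hP]; exact integral_nonneg fun g => norm_nonneg _
  have hQ0 : 0 ≤ Q := by rw [hQ]; exact integral_nonneg fun g => norm_nonneg _
  obtain ⟨Γ, hΓ⟩ : ∃ Γ : ℝ → ℂ, Γ = fun s => ∫ g, ((W g : ℝ) : ℂ) *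
      ψ (g * L.e (s • X)) ∂μ := ⟨_, rfl⟩
  obtain ⟨Γ0, hΓ0⟩ : ∃ Γ0 : ℂ, Γ0 = ∫ g, ((W g : ℝ) : ℂ) * ψ g ∂μ := ⟨_, rfl⟩
  rw [← hb, ← hP, ← hΓ0]
  have hexp : ∀ s : ℝ, Real.exp (c * |s| * Real.sqrt (fsq X)) = Real.exp (b * |s|) := by
    intro s
    rw [hb]
    congr 1
    ring
  -- for every small `t > 0`
  have key : ∀ t : ℝ, 0 < t → b * t ≤ 1 → ‖Γ0‖ ≤ b * P + t * (b ^ 2 * P + 2 * b * Q) := by
    intro t ht hct
    have h1 := W02_ftc L hX μ hc hW φ ψ hφc hψc hd hφ hψ ht.le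
    have h2 := (W02_int L hX μ hc hW φ hφc hφ t).2.2
    rw [h1, hexp, abs_of_pos ht, ← hP] at h2
    have hct0 : 0 ≤ b * t := by positivity
    have hx : Real.exp (b * t) - 1 ≤ b * t + (b * t) ^ 2 := by
      have := Real.abs_exp_sub_one_sub_id_le (x := b * t) (by rw [abs_of_nonneg hct0]; exact hct)
      have := (abs_le.1 this).2
      linarith
    have h3 : ∀ s ∈ Set.Ioc 0 t, ‖Γ s - Γ0‖ ≤ (Real.exp (b * t) - 1) * Q := by
      intro s hs
      have := (W02_int L hX μ hc hW ψ hψc hψ s).2.2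
      rw [hexp, abs_of_pos hs.1, ← hQ, ← hΓ0] at this
      rw [hΓ]
      refine this.trans (mul_le_mul_of_nonneg_right ?_ hQ0)
      have := Real.exp_le_exp.2 (mul_le_mul_of_nonneg_left hs.2 hc0)
      linarith
    have hΓi : IntegrableOn Γ (Set.Ioc 0 t) := by
      rw [hΓ]
      exact (W02_prod L hX μ hc hW ψ hψc hψ t).integral_prod_left
    have h4 : ∫ s in Set.Ioc 0 t, (Γ s - Γ0) = (∫ s in Set.Ioc 0 t, Γ s) - (t : ℂ) * Γ0 := by
      rw [integral_sub hΓi (integrable_const _), setIntegral_const, Real.volume_real_Ioc_of_le ht.le,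
        sub_zero]
      simp
    have h5 : ‖∫ s in Set.Ioc 0 t, (Γ s - Γ0)‖ ≤ ((Real.exp (b * t) - 1) * Q) * t := by
      have := norm_setIntegral_le_of_norm_le_const (μ := volume) (s := Set.Ioc 0 t)
        (f := fun s => Γ s - Γ0) (C := (Real.exp (b * t) - 1) * Q)
        (by rw [Real.volume_Ioc]; exact ENNReal.ofReal_lt_top) h3
      rwa [Real.volume_real_Ioc_of_le ht.le, sub_zero] at this
    have h6 : ‖∫ s in Set.Ioc 0 t, Γ s‖ ≤ (Real.exp (b * t) - 1) * P := by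
      rw [hΓ]
      exact h2
    have h7 : t * ‖Γ0‖ ≤ (Real.exp (b * t) - 1) * P + ((Real.exp (b * t) - 1) * Q) * t := by
      calc t * ‖Γ0‖ = ‖(t : ℂ) * Γ0‖ := by
            rw [norm_mul, Complex.norm_real, Real.norm_of_nonneg ht.le]
        _ = ‖(∫ s in Set.Ioc 0 t, Γ s) - ∫ s in Set.Ioc 0 t, (Γ s - Γ0)‖ := by
            rw [h4]
            congr 1
            ring
        _ ≤ ‖∫ s in Set.Ioc 0 t, Γ s‖ + ‖∫ s in Set.Ioc 0 t, (Γ s - Γ0)‖ := norm_sub_le _ _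
        _ ≤ _ := add_le_add h6 h5
    have h8 : t * ‖Γ0‖ ≤ t * (b * P + t * (b ^ 2 * P + 2 * b * Q)) := by
      have a1 : (Real.exp (b * t) - 1) * P ≤ (b * t + (b * t) ^ 2) * P :=
        mul_le_mul_of_nonneg_right hx hP0
      have a2 : ((Real.exp (b * t) - 1) * Q) * t ≤ ((b * t + (b * t) ^ 2) * Q) * t := by
        gcongr
      have a3 : (b * t) ^ 2 ≤ b * t := by nlinarith
      have a4 : ((b * t + (b * t) ^ 2) * Q) * t ≤ ((2 * (b * t)) * Q) * t := by
        gcongr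
        linarith
      calc t * ‖Γ0‖ ≤ (b * t + (b * t) ^ 2) * P + ((2 * (b * t)) * Q) * t := by linarith
        _ = _ := by ring
    exact le_of_mul_le_mul_left h8 ht
  apply le_of_forall_pos_le_add
  intro δ hδ
  obtain ⟨M, hM⟩ : ∃ M, M = b ^ 2 * P + 2 * b * Q := ⟨_, rfl⟩
  have hM0 : 0 ≤ M := by rw [hM]; positivity
  have k := key (min (1 / (b + 1)) (δ / (M + 1))) (lt_min (by positivity) (by positivity)) (by
    calc b * min (1 / (b + 1)) (δ / (M + 1)) ≤ b * (1 / (b + 1)) := by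
          gcongr
          exact min_le_left _ _
      _ ≤ 1 := by
        rw [mul_one_div, div_le_one (by positivity)]
        linarith)
  rw [← hM] at k
  refine k.trans ?_
  have : min (1 / (b + 1)) (δ / (M + 1)) * M ≤ δ := by
    calc min (1 / (b + 1)) (δ / (M + 1)) * M ≤ δ / (M + 1) * M := by
          gcongr
          exact min_le_right _ _
      _ ≤ δ / (M + 1) * (M + 1) := by
          gcongr
          linarith
      _ = δ := by field_simp
  linarith

end W02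

variable (L : LieData N G) (π : G →* (H ≃ₗᵢ[ℂ] H)) (A : LieRep N (KFin L π)) (hP : IsPkg L π A)
  (μ : Measure G) [μ.IsHaarMeasure] [μ.IsMulRightInvariant] (ht : Tempered L π μ) {W : G → ℝ}
  {c κ : ℝ} (hc : 0 ≤ c) (hκ : 0 < κ) (hW : IsWt L W c κ) {w : H} (hw : w ∈ KFin L π)

include hP ht hc hκ hW hw

theorem W02_phi {X : Mat N} (hX : X ∈ L.𝔤) (u v : KFin L π) :
    (∀ g : G, ∀ t : ℝ, HasDerivAt (fun s : ℝ => (fun x => (starRingEnd ℂ) (mc π w (u : H) x) *
        mc π w (v : H) x) (g * L.e (s • X)))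
      ((fun x => (starRingEnd ℂ) (mc π w ((A.D X u : KFin L π) : H) x) * mc π w (v : H) x +
        (starRingEnd ℂ) (mc π w (u : H) x) * mc π w ((A.D X v : KFin L π) : H) x)
        (g * L.e (t • X))) t) ∧
    Continuous (fun x => (starRingEnd ℂ) (mc π w (u : H) x) * mc π w (v : H) x) ∧
    Continuous (fun x => (starRingEnd ℂ) (mc π w ((A.D X u : KFin L π) : H) x) *
      mc π w (v : H) x + (starRingEnd ℂ) (mc π w (u : H) x) *
      mc π w ((A.D X v : KFin L π) : H) x) ∧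
    Integrable (fun g => ((W g : ℝ) : ℂ) *
      ((fun x => (starRingEnd ℂ) (mc π w (u : H) x) * mc π w (v : H) x) g)) μ ∧
    Integrable (fun g => ((W g : ℝ) : ℂ) *
      ((fun x => (starRingEnd ℂ) (mc π w ((A.D X u : KFin L π) : H) x) * mc π w (v : H) x +
        (starRingEnd ℂ) (mc π w (u : H) x) * mc π w ((A.D X v : KFin L π) : H) x) g)) μ ∧
    BW L π μ W w (A.D X u) v + BW L π μ W w u (A.D X v) =
      ∫ g, ((W g : ℝ) : ℂ) *
      ((fun x => (starRingEnd ℂ) (mc π w ((A.D X u : KFin L π) : H) x) * mc π w (v : H) x +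
        (starRingEnd ℂ) (mc π w (u : H) x) * mc π w ((A.D X v : KFin L π) : H) x) g) ∂μ := by
  have hmc := m05_mc_cont π hP.cont w
  have hcs : ∀ x : H, Continuous fun g => (starRingEnd ℂ) (mc π w x g) := fun x =>
    Complex.continuous_conj.comp (hmc x)
  have i1 := BW_integrable L π A hP μ ht hκ hW hw (A.D X u) v
  have i2 := BW_integrable L π A hP μ ht hκ hW hw u (A.D X v)
  refine ⟨?_, (hcs _).mul (hmc _), ((hcs _).mul (hmc _)).add ((hcs _).mul (hmc _)),
    BW_integrable L π A hP μ ht hκ hW hw u v, ?_, ?_⟩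
  · intro g t
    have h1 := (m05_line L π A hP hX w u g t).star
    have h2 := m05_line L π A hP hX w v g t
    exact h1.mul h2
  · refine (i1.add i2).congr (Filter.Eventually.of_forall fun g => ?_)
    simp only [Pi.add_apply]
    ring
  · unfold BW
    rw [← integral_add i1 i2]
    refine integral_congr_ae (Filter.Eventually.of_forall fun g => ?_)
    simp only
    ring

theorem BW_deriv {X : Mat N} (hX : X ∈ L.𝔤) (u v : KFin L π) :
    ‖BW L π μ W w (A.D X u) v + BW L π μ W w u (A.D X v)‖ ≤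
      c * Real.sqrt (fsq X) * Real.sqrt (BW L π μ W w u u).re *
        Real.sqrt (BW L π μ W w v v).re := by
  obtain ⟨hd, c1, c2, j1, j2, hB⟩ := W02_phi L π A hP μ ht hc hκ hW hw hX u v
  rw [hB]
  refine (W02_bound L hX μ hc hW _ _ c1 c2 hd j1 j2).trans ?_
  have h0 : ∀ g, ‖((W g : ℝ) : ℂ) *
      ((fun x => (starRingEnd ℂ) (mc π w (u : H) x) * mc π w (v : H) x) g)‖ =
      W g * (‖mc π w (u : H) g‖ * ‖mc π w (v : H) g‖) := by
    intro g
    rw [norm_mul, Complex.norm_real, Real.norm_of_nonneg (hW.pos g).le]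
    show _ * ‖(starRingEnd ℂ) (mc π w (u : H) g) * mc π w (v : H) g‖ = _
    rw [norm_mul, RCLike.norm_conj]
  simp only [h0]
  rw [mul_assoc (c * Real.sqrt (fsq X))]
  exact mul_le_mul_of_nonneg_left (BW_abs_le L π A hP μ ht hκ hW hw u v) (by positivity)

theorem BW_K {Z : Mat N} (hZ : Z ∈ L.𝔤) (hZt : Zᵀ = -Z) (u v : KFin L π) :
    BW L π μ W w (A.D Z u) v + BW L π μ W w u (A.D Z v) = 0 := by
  obtain ⟨hd, c1, c2, j1, j2, hB⟩ := W02_phi L π A hP μ ht hc hκ hW hw hZ u v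
  rw [hB]
  have hinv : ∀ (f : G → ℂ) (s : ℝ),
      ∫ g, ((W g : ℝ) : ℂ) * f (g * L.e (s • Z)) ∂μ =
      ∫ g, ((W g : ℝ) : ℂ) * f g ∂μ := by
    intro f s
    rw [← integral_mul_right_eq_self (fun g => ((W g : ℝ) : ℂ) * f g)
      (L.e (s • Z))]
    refine integral_congr_ae (Filter.Eventually.of_forall fun g => ?_)
    show _ = ((W (g * L.e (s • Z)) : ℝ) : ℂ) * f (g * L.e (s • Z))
    rw [hW.Kr _ (e_mem_K L hZ hZt s)]
  have h1 := W02_ftc L hZ μ hc hW _ _ c1 c2 hd j1 j2 zero_le_one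
  simp only [hinv (fun x => (starRingEnd ℂ) (mc π w (u : H) x) * mc π w (v : H) x),
    hinv (fun x => (starRingEnd ℂ) (mc π w ((A.D Z u : KFin L π) : H) x) * mc π w (v : H) x +
        (starRingEnd ℂ) (mc π w (u : H) x) * mc π w ((A.D Z v : KFin L π) : H) x)] at h1
  rw [sub_self, setIntegral_const, Real.volume_real_Ioc_of_le zero_le_one, sub_zero,
    one_smul] at h1
  exact h1.symm

theorem BW_almost (hw0 : w ≠ 0) : A.AlmostInv c (BW L π μ W w) := by
  have hint := BW_integrable L π A hP μ ht hκ hW hw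
  have hadd_left : ∀ u u' v, BW L π μ W w (u + u') v = BW L π μ W w u v + BW L π μ W w u' v := by
    intro u u' v
    unfold BW
    rw [← integral_add (hint u v) (hint u' v)]
    refine integral_congr_ae (Eventually.of_forall fun g => ?_)
    simp only [mc, Submodule.coe_add, map_add, inner_add_right]
    ring
  have hadd_right : ∀ u v v', BW L π μ W w u (v + v') = BW L π μ W w u v + BW L π μ W w u v' := by
    intro u v v'
    unfold BW
    rw [← integral_add (hint u v) (hint u v')]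
    refine integral_congr_ae (Eventually.of_forall fun g => ?_)
    simp only [mc, Submodule.coe_add, map_add, inner_add_right]
    ring
  have hK := fun (i : Fin A.m) (u v : KFin L π) => BW_K L π A hP μ ht hc hκ hW hw
    (Z := A.Z i) (by rw [← hP.g_eq]; exact A.Z_mem i) (A.Z_t i) u v
  refine ⟨hadd_left, ?_, hadd_right, ?_, ?_, ?_, ?_, ?_⟩
  · intro c u v
    unfold BW
    rw [← integral_const_mul]
    refine integral_congr_ae (Eventually.of_forall fun g => ?_)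
    simp only [mc, Submodule.coe_smul, map_smul, inner_smul_right, map_mul]
    ring
  · intro c u v
    unfold BW
    rw [← integral_const_mul]
    refine integral_congr_ae (Eventually.of_forall fun g => ?_)
    simp only [mc, Submodule.coe_smul, map_smul, inner_smul_right, map_mul]
    ring
  · intro u v
    unfold BW
    rw [← integral_conj]
    refine integral_congr_ae (Eventually.of_forall fun g => ?_)
    simp only [map_mul, Complex.conj_conj, Complex.conj_ofReal]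
    ring
  · intro v hv
    exact BW_pos L π A hP μ ht hκ hW hw hw0 v hv
  · intro u v
    let f : KFin L π →+ ℂ := AddMonoidHom.mk' (fun x => BW L π μ W w x v)
      (fun x y => hadd_left x y v)
    let f' : KFin L π →+ ℂ := AddMonoidHom.mk' (fun x => BW L π μ W w u x)
      (fun x y => hadd_right u x y)
    have hf : ∀ x, BW L π μ W w x v = f x := fun x => rfl
    have hf' : ∀ x, BW L π μ W w u x = f' x := fun x => rfl
    rw [hf, hf']
    unfold LieRep.Del
    simp only [LinearMap.sub_apply, LinearMap.id_apply, LinearMap.sum_apply, LinearMap.comp_apply,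
      map_sub, map_sum]
    have h0 : f u = f' v := rfl
    rw [h0]
    congr 1
    refine Finset.sum_congr rfl fun i _ => ?_
    rw [← hf, ← hf']
    have h1 := hK i (A.D (A.Z i) u) v
    have h2 := hK i u (A.D (A.Z i) v)
    linear_combination h1 - h2
  · intro j u v
    have h := BW_deriv L π A hP μ ht hc hκ hW hw (X := A.P j)
      (by rw [← hP.g_eq]; exact A.P_mem j) u v
    have h1 : fsq (A.P j) = 1 := by
      unfold fsq
      rw [A.P_o, if_pos rfl]
    rw [h1, Real.sqrt_one, mul_one] at h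
    exact h

end SBD
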