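import Pool.Agent.SBX.WDefs
import Pool.Agent.SBX.V09

/-!
# Row SBX-W03 : the weight `δ^{-a}`; Hölder's inequality

* `dl_wt` : `c₀` from `dl_line`, `κ₀` from `dl_ge`: `δ^{-a} ≤ c^{-a}Θ^{-aκ₀}`; `δ(g) = δ(g e(tX) e(-tX)) ≤
  e^{c₀|t||X|}δ(g e(tX))` (`e_neg`), so `δ(g e(tX))^{-a} ≤ e^{ac₀|t||X|}δ(g)^{-a}`; `dl_K_right`.
* `holderW` : `r = ∞`: `∫⁻ δ^{-a}‖m‖² ≤ ‖m‖_∞²∫⁻δ^{-a}`, `a > 1` (`int_dl`).  `2 < r < ∞` (real): Hölder with
  exponents `r/2` and `r/(r-2)`: `∫⁻δ^{-a}‖m‖² ≤ (∫⁻‖m‖^r)^{2/r}(∫⁻δ^{-ar/(r-2)})^{(r-2)/r}`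
  (`ENNReal.lintegral_mul_le_Lp_mul_Lq`) and `a r/(r-2) > 1` since `a > 1 - 2/r`.  `(∫⁻‖m‖^r)^{2/r} =
  (eLpNorm m r)²`.  `C = ` the second factor (finite by `int_dl`), as an `ℝ≥0`.
-/

open MeasureTheory Filter Topology
open scoped ENNReal NNReal Matrix

noncomputable section

namespace SBD

variable {N : ℕ} {G : Type} [Group G] [TopologicalSpace G] [IsTopologicalGroup G]
  [LocallyCompactSpace G] [T2Space G]

theorem dl_wt (L : LieData N G) (B : Bases L) : ∃ c₀ κ₀ : ℝ, 0 ≤ c₀ ∧ 0 < κ₀ ∧ ∀ a : ℝ, 0 < a →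
    IsWt L (fun g => dl B g ^ (-a)) (c₀ * a) (κ₀ * a) := by
  obtain ⟨c₀, hc0, hline⟩ := dl_line B
  obtain ⟨c₁, hc1, κ₀, hκ0, hge⟩ := dl_ge B
  have hp : ∀ g : G, 0 < dl B g := fun g => zero_lt_one.trans_le (one_le_dl B g)
  refine ⟨c₀, κ₀, hc0, hκ0, fun a ha => ?_⟩
  constructor
  · exact Continuous.rpow_const (dl_cont B) fun g => Or.inl (hp g).ne'
  · exact fun g => Real.rpow_pos_of_pos (hp g) _
  · refine ⟨c₁ ^ (-a), Real.rpow_pos_of_pos hc1 _, fun g => ?_⟩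
    have hT : 0 < Th L g := zero_lt_one.trans_le (one_le_Th L g)
    have hTk : 0 < Th L g ^ κ₀ := Real.rpow_pos_of_pos hT _
    have h1 : dl B g ^ (-a) ≤ (c₁ * Th L g ^ κ₀) ^ (-a) :=
      Real.rpow_le_rpow_of_nonpos (mul_pos hc1 hTk) (hge g) (by linarith)
    rw [Real.mul_rpow hc1.le hTk.le, ← Real.rpow_mul hT.le] at h1
    have e : κ₀ * -a = -(κ₀ * a) := by ring
    rw [e] at h1
    exact h1
  · intro k hk g
    show dl B (g * k) ^ (-a) = dl B g ^ (-a)
    rw [dl_K_right B hk]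
  · intro X hX g t
    show dl B (g * L.e (t • X)) ^ (-a) ≤ Real.exp (c₀ * a * |t| * Real.sqrt (fsq X)) *
      dl B g ^ (-a)
    have hE : 0 < Real.exp (c₀ * |t| * Real.sqrt (fsq X)) := Real.exp_pos _
    have h1 : dl B g ≤ Real.exp (c₀ * |t| * Real.sqrt (fsq X)) * dl B (g * L.e (t • X)) := by
      have h2 := hline X hX (g * L.e (t • X)) (-t)
      rw [abs_neg, neg_smul, e_neg L (L.𝔤.smul_mem t hX), mul_inv_cancel_right] at h2
      exact h2
    have h3 : (Real.exp (c₀ * |t| * Real.sqrt (fsq X)) * dl B (g * L.e (t • X))) ^ (-a) ≤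
        dl B g ^ (-a) := Real.rpow_le_rpow_of_nonpos (hp g) h1 (by linarith)
    rw [Real.mul_rpow hE.le (hp _).le, ← Real.exp_mul] at h3
    have e1 : c₀ * |t| * Real.sqrt (fsq X) * -a = -(c₀ * a * |t| * Real.sqrt (fsq X)) := by ring
    rw [e1, Real.exp_neg, inv_mul_le_iff₀ (Real.exp_pos _)] at h3
    exact h3

variable [SecondCountableTopology G] [MeasurableSpace G] [BorelSpace G]
variable {H : Type} [NormedAddCommGroup H] [InnerProductSpace ℂ H] [CompleteSpace H]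

theorem holderW (L : LieData N G) (B : Bases L) (π : G →* (H ≃ₗᵢ[ℂ] H))
    (hc : ∀ v : H, Continuous fun g => π g v) (μ : Measure G) [μ.IsHaarMeasure]
    [μ.IsMulRightInvariant] (w : H) (r : ℝ≥0∞) (hr : 2 < r) (a : ℝ) (ha0 : 0 < a)
    (ha : 1 - 2 / r < ENNReal.ofReal a) :
    ∃ C : ℝ≥0, ∀ v : H, QW π μ (fun g => dl B g ^ (-a)) w v ≤ C * (pr π μ w r v) ^ 2 := by
  have hp : ∀ g : G, 0 < dl B g := fun g => zero_lt_one.trans_le (one_le_dl B g)
  have hdm : ∀ s : ℝ, Measurable fun g => ENNReal.ofReal (dl B g ^ s) := fun s =>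
    (Continuous.rpow_const (dl_cont B) fun g => Or.inl (hp g).ne').measurable.ennreal_ofReal
  have hmc : ∀ v : H, Continuous (mc π w v) := by
    intro v
    unfold mc
    exact continuous_const.inner (hc v)
  have hQ : ∀ v : H, QW π μ (fun g => dl B g ^ (-a)) w v =
      ∫⁻ g, ‖mc π w v g‖ₑ ^ (2 : ℝ) * ENNReal.ofReal (dl B g ^ (-a)) ∂μ := by
    intro v
    unfold QW
    refine lintegral_congr fun g => ?_
    rw [ENNReal.ofReal_mul (Real.rpow_nonneg (hp g).le _), mul_comm]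
    congr 1
    rw [ENNReal.ofReal_pow (norm_nonneg _), ofReal_norm, ← ENNReal.rpow_natCast]
    norm_num
  by_cases hr' : r = ∞
  · subst hr'
    have ha1 : 1 < a := by
      rw [ENNReal.div_top, tsub_zero] at ha
      by_contra hcon
      push Not at hcon
      have : ENNReal.ofReal a ≤ 1 := by
        rw [← ENNReal.ofReal_one]
        exact ENNReal.ofReal_le_ofReal hcon
      exact absurd ha (not_lt.2 this)
    have hfin := int_dl L B μ a ha1
    refine ⟨(∫⁻ g, ENNReal.ofReal (dl B g ^ (-a)) ∂μ).toNNReal, fun v => ?_⟩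
    rw [hQ, ENNReal.coe_toNNReal hfin.ne, mul_comm, ← lintegral_const_mul _ (hdm _)]
    refine lintegral_mono_ae ?_
    have h1 := ae_le_eLpNormEssSup (f := mc π w v) (μ := μ)
    filter_upwards [h1] with g hg
    unfold pr
    rw [eLpNorm_exponent_top]
    refine mul_le_mul_left ?_ _
    rw [← ENNReal.rpow_natCast]
    refine ENNReal.rpow_le_rpow hg ?_
    norm_num
  · obtain ⟨ρ, hρ⟩ : ∃ ρ, ρ = r.toReal := ⟨_, rfl⟩
    have hrρ : r = ENNReal.ofReal ρ := by rw [hρ, ENNReal.ofReal_toReal hr']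
    have hρ2 : 2 < ρ := by
      rw [hρ]
      have : (2 : ℝ≥0∞).toReal < r.toReal := (ENNReal.toReal_lt_toReal (by norm_num) hr').2 hr
      simpa using this
    have hρ0 : 0 < ρ := by linarith
    have haq : 1 - 2 / ρ < a := by
      have e2 : (2 : ℝ≥0∞) / r = ENNReal.ofReal (2 / ρ) := by
        rw [hrρ, ENNReal.ofReal_div_of_pos hρ0]
        norm_num
      rw [e2, ← ENNReal.ofReal_one, ← ENNReal.ofReal_sub _ (by positivity),
        ENNReal.ofReal_lt_ofReal_iff ha0] at ha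
      exact ha
    obtain ⟨q, hq⟩ : ∃ q, q = ρ / (ρ - 2) := ⟨_, rfl⟩
    have hρ20 : 0 < ρ - 2 := by linarith
    have hq0 : 0 < q := by rw [hq]; positivity
    have hpq : (ρ / 2).HolderConjugate q := by
      rw [Real.holderConjugate_iff]
      constructor
      · linarith
      · rw [hq]
        field_simp
        ring
    have haq1 : 1 < a * q := by
      rw [hq]
      have h1 : (1 - 2 / ρ) * (ρ / (ρ - 2)) = 1 := by
        field_simp
      have h2 : (1 - 2 / ρ) * (ρ / (ρ - 2)) < a * (ρ / (ρ - 2)) :=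
        mul_lt_mul_of_pos_right haq (by positivity)
      linarith
    have hfin := int_dl L B μ (a * q) haq1
    have hfin2 : (∫⁻ g, ENNReal.ofReal (dl B g ^ (-(a * q))) ∂μ) ^ (1 / q) ≠ ∞ :=
      ENNReal.rpow_ne_top_of_nonneg (by positivity) hfin.ne
    refine ⟨((∫⁻ g, ENNReal.ofReal (dl B g ^ (-(a * q))) ∂μ) ^ (1 / q)).toNNReal, fun v => ?_⟩
    rw [hQ, ENNReal.coe_toNNReal hfin2]
    have h1 := ENNReal.lintegral_mul_le_Lp_mul_Lq μ hpq
      (f := fun g => ‖mc π w v g‖ₑ ^ (2 : ℝ)) (g := fun g => ENNReal.ofReal (dl B g ^ (-a)))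
      ((hmc v).measurable.enorm.pow_const _).aemeasurable (hdm _).aemeasurable
    refine h1.trans (le_of_eq ?_)
    rw [mul_comm]
    congr 1
    · congr 1
      refine lintegral_congr fun g => ?_
      rw [ENNReal.ofReal_rpow_of_nonneg (Real.rpow_nonneg (hp g).le _) hq0.le,
        ← Real.rpow_mul (hp g).le]
      congr 2
      ring
    · unfold pr
      rw [eLpNorm_eq_lintegral_rpow_enorm_toReal (by rw [hrρ]; simpa using hρ0) hr', ← hρ,
        ← ENNReal.rpow_natCast, ← ENNReal.rpow_mul]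
      have e3 : ∀ g, (‖mc π w v g‖ₑ ^ (2 : ℝ)) ^ (ρ / 2) = ‖mc π w v g‖ₑ ^ ρ := by
        intro g
        rw [← ENNReal.rpow_mul]
        congr 1
        ring
      simp only [e3]
      congr 1
      push_cast
      field_simp

end SBD
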