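import Pool.Agent.SBX.WDefs
import Pool.Agent.SBD.P04
import Pool.Agent.SBD.M02

/-!
# Row SBX-W04 : moving by a group element; `K`-truncation

* `QW_move` : `mc π w (π g y) h = ⟨w, π(hg)y⟩ = mc π w y (h g)`; substituting `h ↦ h g⁻¹` (right invariance)
  `QW(π(g)y) = ∫⁻ W(h g⁻¹)‖mc π w y h‖² ≤ J ∫⁻ W(h)‖mc π w y h‖²`.
* `QW_trunc` : `y ∈ H`, `y' ∈ low R`, `y - y' ⊥ low R`.  For `n ∈ ℕ` let `Ω_n = {g : Θ(g) ≤ n}`, compact
  (closed, and contained in `ι⁻¹` of a bounded closed set), right `K`-invariant (`Th_K_right`).  For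
  `u, v ∈ H` put `b_n(u,v) = ∫_{Ω_n} W(g) conj⟨w,π(g)u⟩⟨w,π(g)v⟩ dg = ⟨u, T_nv⟩` with
  `T_nv = ∫_{Ω_n} W(g)⟨w,π(g)v⟩ π(g⁻¹)w dg` (continuous integrand on a compact set), a bounded linear
  operator, symmetric.  `T_n` commutes with `π(k)`, `k ∈ K` (substitute `g ↦ gk`).  So `T_n` maps `low R` (as a
  subspace of `H`) to itself: if `u ∈ A.eig lam`: `T_nu` is `K`-finite (`T_n` of a finite-dimensional
  `K`-invariant space is such a space) and `π(e(tZ))T_nu = T_nπ(e(tZ))u`, so `D(Z)T_nu = T_nD(Z)u`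
  (`hP.line`, `T_n` bounded) and `ΔT_nu = T_nΔu = lam T_nu`.  Hence `b_n(y', y - y') = ⟨T_ny', y - y'⟩ = 0`
  and `b_n(y,y) = b_n(y',y') + b_n(y-y',y-y') ≥ b_n(y',y')`.  Let `n → ∞` (monotone convergence:
  `∫⁻_{Ω_n} → ∫⁻` as `⋃Ω_n = G`).
-/

open MeasureTheory Filter Topology
open scoped ENNReal NNReal Matrix

noncomputable section

namespace SBD

variable {N : ℕ} {G : Type} [Group G] [TopologicalSpace G] [IsTopologicalGroup G]
  [LocallyCompactSpace G] [T2Space G]
variable [SecondCountableTopology G] [MeasurableSpace G] [BorelSpace G]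
variable {H : Type} [NormedAddCommGroup H] [InnerProductSpace ℂ H] [CompleteSpace H]

theorem QW_move (π : G →* (H ≃ₗᵢ[ℂ] H)) (μ : Measure G) [μ.IsHaarMeasure]
    [μ.IsMulRightInvariant] (W : G → ℝ) (w y : H) (g : G) (c : ℝ)
    (hc : ∀ h : G, W (h * g⁻¹) ≤ c * W h) (hW : ∀ h, 0 ≤ W h) :
    QW π μ W w (π g y) ≤ ENNReal.ofReal c * QW π μ W w y := by
  unfold QW
  have h1 : ∫⁻ h, ENNReal.ofReal (W h * ‖mc π w (π g y) h‖ ^ 2) ∂μ =
      ∫⁻ h, ENNReal.ofReal (W (h * g⁻¹) * ‖mc π w y h‖ ^ 2) ∂μ := by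
    rw [← lintegral_mul_right_eq_self
      (fun h => ENNReal.ofReal (W (h * g⁻¹) * ‖mc π w y h‖ ^ 2)) g]
    refine lintegral_congr fun h => ?_
    rw [mul_inv_cancel_right]
    congr 3
    unfold mc
    rw [map_mul]
    rfl
  rw [h1, ← lintegral_const_mul' _ _ ENNReal.ofReal_ne_top]
  refine lintegral_mono fun h => ?_
  rw [← ENNReal.ofReal_mul' (mul_nonneg (hW h) (sq_nonneg _)), ← mul_assoc]
  exact ENNReal.ofReal_le_ofReal (mul_le_mul_of_nonneg_right (hc h) (sq_nonneg _))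

private theorem W04_compact (L : LieData N G) (n : ℝ) : IsCompact {g : G | Th L g ≤ n} := by
  have hM : IsCompact {M : Mat N | fsq M ≤ n} := by
    have h1 : IsCompact (Set.pi Set.univ fun _ : Fin N => Set.pi Set.univ fun _ : Fin N =>
        Set.Icc (-(|n| + 1) : ℝ) (|n| + 1)) :=
      isCompact_univ_pi fun i => isCompact_univ_pi fun j => isCompact_Icc
    refine h1.of_isClosed_subset (isClosed_le m02_fsq_cont continuous_const) ?_
    have key : ∀ (M : Mat N), fsq M ≤ n → ∀ i j, M i j ∈ Set.Icc (-(|n| + 1) : ℝ) (|n| + 1) := by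
      intro M hM i j
      have h2 : M i j ^ 2 ≤ n := by
        rw [m02_fsq_eq] at hM
        refine le_trans ?_ hM
        calc M i j ^ 2 ≤ ∑ j, M i j ^ 2 :=
              Finset.single_le_sum (f := fun j => M i j ^ 2) (fun j _ => sq_nonneg _)
                (Finset.mem_univ j)
          _ ≤ ∑ i, ∑ j, M i j ^ 2 :=
              Finset.single_le_sum (f := fun i => ∑ j, M i j ^ 2)
                (fun i _ => Finset.sum_nonneg fun j _ => sq_nonneg _) (Finset.mem_univ i)
      have h3 : n ≤ |n| := le_abs_self n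
      have h4 : 0 ≤ |n| := abs_nonneg n
      constructor <;> nlinarith
    exact fun M hM i _ j _ => key M hM i j
  refine (L.ι_proper _ hM).of_isClosed_subset (isClosed_le (Th_cont L) continuous_const) ?_
  intro g hg
  have h1 := m02_fsq_nonneg (L.ι g⁻¹)
  have h2 : Th L g ≤ n := hg
  unfold Th at h2
  show fsq (L.ι g) ≤ n
  linarith

/-- bounded operators which commute with `K` preserve `low R` -/
private theorem W04_low (L : LieData N G) (π : G →* (H ≃ₗᵢ[ℂ] H)) (A : LieRep N (KFin L π))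
    (hP : IsPkg L π A) (Tc : H →L[ℂ] H) (hTk : ∀ k ∈ L.K, ∀ u, π k (Tc u) = Tc (π k u)) (R : ℝ)
    (y : KFin L π) (hy : y ∈ A.low R) : ∃ z ∈ A.low R, ((z : KFin L π) : H) = Tc (y : H) := by
  have hTKF : ∀ x : KFin L π, Tc (x : H) ∈ KFin L π := by
    intro x
    obtain ⟨U, hU, hx, hk⟩ := x.2
    refine ⟨U.map (Tc : H →ₗ[ℂ] H), inferInstance, Submodule.mem_map_of_mem hx, ?_⟩
    rintro k hk' _ ⟨z, hz, rfl⟩
    exact ⟨π k z, hk k hk' z hz, (hTk k hk' z).symm⟩
  have hcomm : ∀ Z ∈ L.𝔤, Zᵀ = -Z → ∀ (y z : KFin L π), (z : H) = Tc (y : H) →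
      ((A.D Z z : KFin L π) : H) = Tc ((A.D Z y : KFin L π) : H) := by
    intro Z hZ hZt y z hz
    have h1 := hP.dif Z hZ z
    have h2 := hP.dif Z hZ y
    have h3 : HasDerivAt (fun t : ℝ => Tc (π (L.e (t • Z)) (y : H)))
        (Tc ((A.D Z y : KFin L π) : H)) 0 :=
      (Tc.restrictScalars ℝ).hasFDerivAt.comp_hasDerivAt (0 : ℝ) h2
    have h4 : (fun t : ℝ => π (L.e (t • Z)) (z : H)) =
        fun t : ℝ => Tc (π (L.e (t • Z)) (y : H)) := by
      funext t
      rw [hz, hTk _ (e_mem_K L hZ hZt t)]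
    rw [h4] at h1
    exact h1.unique h3
  have hZg : ∀ i, A.Z i ∈ L.𝔤 := fun i => hP.g_eq ▸ A.Z_mem i
  have hDelH : ∀ y : KFin L π, ((A.Del y : KFin L π) : H) =
      (y : H) - ∑ i, ((A.D (A.Z i) (A.D (A.Z i) y) : KFin L π) : H) := by
    intro y
    have e1 : A.Del y = y - ∑ i, A.D (A.Z i) (A.D (A.Z i) y) := by
      unfold LieRep.Del
      rw [LinearMap.sub_apply, LinearMap.sum_apply]
      rfl
    rw [e1, Submodule.coe_sub, Submodule.coe_sum]
  have hDel : ∀ (y z : KFin L π), (z : H) = Tc (y : H) →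
      ((A.Del z : KFin L π) : H) = Tc ((A.Del y : KFin L π) : H) := by
    intro y z hz
    rw [hDelH, hDelH, map_sub, map_sum, ← hz]
    congr 1
    refine Finset.sum_congr rfl fun i _ => ?_
    exact hcomm _ (hZg i) (A.Z_t i) _ _ (hcomm _ (hZg i) (A.Z_t i) y z hz)
  let T' : KFin L π →ₗ[ℂ] KFin L π :=
    { toFun := fun x => ⟨Tc (x : H), hTKF x⟩
      map_add' := fun x y => Subtype.ext (map_add Tc (x : H) (y : H))
      map_smul' := fun c x => Subtype.ext (map_smul Tc c (x : H)) }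
  have hle : A.low R ≤ (A.low R).comap T' := by
    unfold LieRep.low
    refine iSup_le fun l => ?_
    intro x hx
    refine Submodule.mem_comap.2 (Submodule.mem_iSup_of_mem l ?_)
    have h1 : A.Del x = ((l : ℝ) : ℂ) • x := hx
    change A.Del (T' x) = ((l : ℝ) : ℂ) • (T' x)
    apply Subtype.ext
    rw [hDel x (T' x) rfl, h1, Submodule.coe_smul, Submodule.coe_smul, map_smul]
    rfl
  exact ⟨T' y, hle hy, rfl⟩

private theorem W04_inner (π : G →* (H ≃ₗᵢ[ℂ] H)) (u w : H) (g : G) :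
    inner ℂ u (π g⁻¹ w) = (starRingEnd ℂ) (mc π w u g) := by
  unfold mc
  rw [inner_conj_symm, ← (π g).inner_map_map u (π g⁻¹ w)]
  congr 1
  have h1 : π g (π g⁻¹ w) = (π g * π g⁻¹) w := rfl
  rw [h1, ← map_mul, mul_inv_cancel, map_one]
  rfl

/-- the truncated operators -/
private theorem W04_op (L : LieData N G) (π : G →* (H ≃ₗᵢ[ℂ] H))
    (hcont : ∀ v : H, Continuous fun g => π g v) (μ : Measure G) [μ.IsHaarMeasure]
    [μ.IsMulRightInvariant] {W : G → ℝ} {c κ : ℝ} (hW : IsWt L W c κ) (w : H) (n : ℝ) :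
    ∃ T : H →L[ℂ] H, (∀ k ∈ L.K, ∀ u, π k (T u) = T (π k u)) ∧
      ∀ u v : H, inner ℂ u (T v) = ∫ g in {g : G | Th L g ≤ n},
        ((W g : ℝ) : ℂ) * ((starRingEnd ℂ) (mc π w u g) * mc π w v g) ∂μ := by
  have hS : IsCompact {g : G | Th L g ≤ n} := W04_compact L n
  have hSm : MeasurableSet {g : G | Th L g ≤ n} := hS.isClosed.measurableSet
  have hWc : Continuous fun g => ((W g : ℝ) : ℂ) := Complex.continuous_ofReal.comp hW.cont
  have hmc : ∀ v : H, Continuous (mc π w v) := by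
    intro v
    unfold mc
    exact continuous_const.inner (hcont v)
  have hF : ∀ v : H, Continuous fun g => (((W g : ℝ) : ℂ) * mc π w v g) • π g⁻¹ w := fun v =>
    (hWc.mul (hmc v)).smul ((hcont w).comp continuous_inv)
  have hFi : ∀ v : H, IntegrableOn (fun g => (((W g : ℝ) : ℂ) * mc π w v g) • π g⁻¹ w)
      {g : G | Th L g ≤ n} μ := fun v => (hF v).continuousOn.integrableOn_compact hS
  let Tl : H →ₗ[ℂ] H :=
    { toFun := fun v => ∫ g in {g : G | Th L g ≤ n},
        (((W g : ℝ) : ℂ) * mc π w v g) • π g⁻¹ w ∂μ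
      map_add' := by
        intro u v
        rw [← integral_add (hFi u) (hFi v)]
        refine integral_congr_ae (Eventually.of_forall fun g => ?_)
        simp only [mc, map_add, inner_add_right, mul_add, add_smul]
      map_smul' := by
        intro a v
        rw [RingHom.id_apply, ← integral_smul]
        refine integral_congr_ae (Eventually.of_forall fun g => ?_)
        simp only [mc, map_smul, inner_smul_right, smul_smul]
        congr 1
        ring }
  have hWi : IntegrableOn (fun g => W g * (‖w‖ * ‖w‖)) {g : G | Th L g ≤ n} μ :=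
    ((hW.cont.mul continuous_const).continuousOn).integrableOn_compact hS
  have hbd : ∀ v, ‖Tl v‖ ≤ (∫ g in {g : G | Th L g ≤ n}, W g * (‖w‖ * ‖w‖) ∂μ) * ‖v‖ := by
    intro v
    rw [← integral_mul_const]
    refine norm_integral_le_of_norm_le (hWi.mul_const _) (Eventually.of_forall fun g => ?_)
    rw [norm_smul, norm_mul, Complex.norm_real, Real.norm_of_nonneg (hW.pos g).le,
      LinearIsometryEquiv.norm_map]
    have h1 : ‖mc π w v g‖ ≤ ‖w‖ * ‖v‖ := by
      unfold mc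
      refine (norm_inner_le_norm _ _).trans (le_of_eq ?_)
      rw [LinearIsometryEquiv.norm_map]
    calc W g * ‖mc π w v g‖ * ‖w‖ ≤ W g * (‖w‖ * ‖v‖) * ‖w‖ :=
          mul_le_mul_of_nonneg_right (mul_le_mul_of_nonneg_left h1 (hW.pos g).le) (norm_nonneg _)
      _ = W g * (‖w‖ * ‖w‖) * ‖v‖ := by ring
  refine ⟨Tl.mkContinuous _ hbd, ?_, ?_⟩
  · intro k hk u
    show π k (∫ g in {g : G | Th L g ≤ n}, (((W g : ℝ) : ℂ) * mc π w u g) • π g⁻¹ w ∂μ) =
      ∫ g in {g : G | Th L g ≤ n}, (((W g : ℝ) : ℂ) * mc π w (π k u) g) • π g⁻¹ w ∂μ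
    rw [← integral_indicator hSm, ← integral_indicator hSm,
      ← integral_mul_right_eq_self ({g : G | Th L g ≤ n}.indicator fun g =>
        (((W g : ℝ) : ℂ) * mc π w u g) • π g⁻¹ w) k]
    have h0 : π k (∫ g, ({g : G | Th L g ≤ n}.indicator fun g =>
        (((W g : ℝ) : ℂ) * mc π w u g) • π g⁻¹ w) (g * k) ∂μ) =
        ∫ g, π k (({g : G | Th L g ≤ n}.indicator fun g =>
        (((W g : ℝ) : ℂ) * mc π w u g) • π g⁻¹ w) (g * k)) ∂μ :=
      ((π k).toContinuousLinearEquiv.integral_comp_comm _).symm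
    rw [h0]
    refine integral_congr_ae (Eventually.of_forall fun g => ?_)
    show π k (({g : G | Th L g ≤ n}.indicator fun g =>
        (((W g : ℝ) : ℂ) * mc π w u g) • π g⁻¹ w) (g * k)) = ({g : G | Th L g ≤ n}.indicator
        fun g => (((W g : ℝ) : ℂ) * mc π w (π k u) g) • π g⁻¹ w) g
    by_cases hg : Th L g ≤ n
    · have hgk : g * k ∈ {g : G | Th L g ≤ n} := by
        show Th L (g * k) ≤ n
        rw [Th_K_right L hk]
        exact hg
      rw [Set.indicator_of_mem hgk, Set.indicator_of_mem (show g ∈ {g : G | Th L g ≤ n} from hg),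
        map_smul, hW.Kr k hk, mul_inv_rev, map_mul]
      have e1 : π k ((π k⁻¹ * π g⁻¹) w) = π g⁻¹ w := by
        have h2 : π k ((π k⁻¹ * π g⁻¹) w) = (π k * (π k⁻¹ * π g⁻¹)) w := rfl
        rw [h2, ← mul_assoc, ← map_mul, mul_inv_cancel, map_one, one_mul]
      have e2 : mc π w u (g * k) = mc π w (π k u) g := by
        unfold mc
        rw [map_mul]
        rfl
      rw [e1, e2]
    · have hgk : g * k ∉ {g : G | Th L g ≤ n} := by
        show ¬ Th L (g * k) ≤ n
        rw [Th_K_right L hk]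
        exact hg
      rw [Set.indicator_of_notMem hgk,
        Set.indicator_of_notMem (show g ∉ {g : G | Th L g ≤ n} from hg), map_zero]
  · intro u v
    show inner ℂ u (∫ g in {g : G | Th L g ≤ n},
        (((W g : ℝ) : ℂ) * mc π w v g) • π g⁻¹ w ∂μ) = _
    have h1 := (innerSL ℂ u).integral_comp_comm (hFi v)
    have h2 : (innerSL ℂ u) (∫ g in {g : G | Th L g ≤ n},
        (((W g : ℝ) : ℂ) * mc π w v g) • π g⁻¹ w ∂μ) = inner ℂ u (∫ g in {g : G | Th L g ≤ n},
        (((W g : ℝ) : ℂ) * mc π w v g) • π g⁻¹ w ∂μ) := rfl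
    rw [← h2, ← h1]
    refine integral_congr_ae (Eventually.of_forall fun g => ?_)
    show inner ℂ u ((((W g : ℝ) : ℂ) * mc π w v g) • π g⁻¹ w) = _
    rw [inner_smul_right, W04_inner]
    ring

theorem QW_trunc (L : LieData N G) (π : G →* (H ≃ₗᵢ[ℂ] H)) (A : LieRep N (KFin L π))
    (hP : IsPkg L π A) (μ : Measure G) [μ.IsHaarMeasure] [μ.IsMulRightInvariant] {W : G → ℝ}
    {c κ : ℝ} (hW : IsWt L W c κ) (w y : H) (R : ℝ) (y' : KFin L π) (hy' : y' ∈ A.low R)
    (ho : ∀ u ∈ A.low R, inner ℂ (u : H) (y - (y' : H)) = 0) :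
    QW π μ W w (y' : H) ≤ QW π μ W w y := by
  have hmc : ∀ v : H, Continuous (mc π w v) := by
    intro v
    unfold mc
    exact continuous_const.inner (hP.cont v)
  -- the truncated inequality
  have hn : ∀ n : ℝ, ∫⁻ g in {g : G | Th L g ≤ n}, ENNReal.ofReal (W g * ‖mc π w (y' : H) g‖ ^ 2) ∂μ ≤
      ∫⁻ g in {g : G | Th L g ≤ n}, ENNReal.ofReal (W g * ‖mc π w y g‖ ^ 2) ∂μ := by
    intro n
    have hS : IsCompact {g : G | Th L g ≤ n} := W04_compact L n
    obtain ⟨T, hTk, hT⟩ := W04_op L π hP.cont μ hW w n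
    have hint : ∀ v : H, IntegrableOn (fun g => W g * ‖mc π w v g‖ ^ 2)
        {g : G | Th L g ≤ n} μ := fun v =>
      ((hW.cont.mul ((hmc v).norm.pow 2)).continuousOn).integrableOn_compact hS
    have hself : ∀ v : H, inner ℂ v (T v) =
        ((∫ g in {g : G | Th L g ≤ n}, W g * ‖mc π w v g‖ ^ 2 ∂μ : ℝ) : ℂ) := by
      intro v
      rw [hT, ← integral_complex_ofReal]
      refine integral_congr_ae (Eventually.of_forall fun g => ?_)
      show ((W g : ℝ) : ℂ) * ((starRingEnd ℂ) (mc π w v g) * mc π w v g) =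
        ((W g * ‖mc π w v g‖ ^ 2 : ℝ) : ℂ)
      rw [← Complex.normSq_eq_conj_mul_self, Complex.normSq_eq_norm_sq]
      push_cast
      ring
    have hsymm : ∀ u v : H, inner ℂ (T u) v = inner ℂ u (T v) := by
      intro u v
      rw [← inner_conj_symm, hT, hT, ← integral_conj]
      refine integral_congr_ae (Eventually.of_forall fun g => ?_)
      simp only [map_mul, Complex.conj_conj, Complex.conj_ofReal]
      ring
    have hnn : ∀ v : H, 0 ≤ ∫ g in {g : G | Th L g ≤ n}, W g * ‖mc π w v g‖ ^ 2 ∂μ := fun v =>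
      integral_nonneg fun g => mul_nonneg (hW.pos g).le (sq_nonneg _)
    obtain ⟨z, hz, hzT⟩ := W04_low L π A hP T hTk R y' hy'
    have ho' : inner ℂ (T (y' : H)) (y - (y' : H)) = 0 := by
      rw [← hzT]
      exact ho z hz
    have ho2 : inner ℂ (y - (y' : H)) (T (y' : H)) = 0 := by
      rw [← inner_conj_symm, ho', map_zero]
    have hsum : ∫ g in {g : G | Th L g ≤ n}, W g * ‖mc π w y g‖ ^ 2 ∂μ =
        ∫ g in {g : G | Th L g ≤ n}, W g * ‖mc π w (y' : H) g‖ ^ 2 ∂μ +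
        ∫ g in {g : G | Th L g ≤ n}, W g * ‖mc π w (y - (y' : H)) g‖ ^ 2 ∂μ := by
      have h1 : inner ℂ y (T y) = inner ℂ (y' : H) (T (y' : H)) +
          inner ℂ (y - (y' : H)) (T (y - (y' : H))) := by
        have e : y = (y' : H) + (y - (y' : H)) := by abel
        have h2 : inner ℂ y (T y) = inner ℂ ((y' : H) + (y - (y' : H)))
            (T ((y' : H) + (y - (y' : H)))) := by rw [← e]
        rw [h2, map_add, inner_add_left, inner_add_right, inner_add_right,
          ← hsymm (y' : H) (y - (y' : H)), ho', ho2]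
        ring
      rw [hself, hself, hself] at h1
      exact_mod_cast h1
    have hle : ∫ g in {g : G | Th L g ≤ n}, W g * ‖mc π w (y' : H) g‖ ^ 2 ∂μ ≤
        ∫ g in {g : G | Th L g ≤ n}, W g * ‖mc π w y g‖ ^ 2 ∂μ := by
      rw [hsum]
      linarith [hnn (y - (y' : H))]
    have hof : ∀ v : H, ∫⁻ g in {g : G | Th L g ≤ n}, ENNReal.ofReal (W g * ‖mc π w v g‖ ^ 2) ∂μ =
        ENNReal.ofReal (∫ g in {g : G | Th L g ≤ n}, W g * ‖mc π w v g‖ ^ 2 ∂μ) := fun v =>
      (ofReal_integral_eq_lintegral_ofReal (hint v)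
        (Eventually.of_forall fun g => mul_nonneg (hW.pos g).le (sq_nonneg _))).symm
    rw [hof, hof]
    exact ENNReal.ofReal_le_ofReal hle
  -- the limit
  have hU : (⋃ n : ℕ, {g : G | Th L g ≤ n}) = Set.univ := by
    rw [Set.eq_univ_iff_forall]
    intro g
    obtain ⟨n, hn⟩ := exists_nat_ge (Th L g)
    exact Set.mem_iUnion.2 ⟨n, hn⟩
  have hdir : Directed (· ⊆ ·) fun n : ℕ => {g : G | Th L g ≤ n} := by
    refine Monotone.directed_le ?_
    intro a b hab g hg
    have : (a : ℝ) ≤ b := by exact_mod_cast hab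
    exact le_trans (show Th L g ≤ a from hg) this
  unfold QW
  rw [← setLIntegral_univ, ← hU, setLIntegral_iUnion_of_directed _ hdir]
  refine iSup_le fun n => (hn n).trans ?_
  exact setLIntegral_le_lintegral _ _

end SBD
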