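import Pool.Agent.SBX.U08
import Pool.Agent.SBX.W02
import Pool.Agent.SBX.W03
import Pool.Agent.SBX.W04
import Pool.Agent.SBX.E08
import Pool.Agent.SBX.L02

/-!
# Row SBX-U09 : the upper bound for the weighted forms

`W = δ^{-a}`.  If `a rk(ξ) < 4b` for every `ξ ∈ AC` then `‖ψ‖² ≤ C lam^b B_W(ψ,ψ)` on `eig lam`.

PROOF.  `B = BW … W w` is almost invariant with `ε = c₀a` (`dl_wt`, `BW_almost`, `BW_deriv`; `hP.g_eq`).  Suppose the
claim fails; `ξ` from `near_coh` (U08).  `ξ ∈ AC` (`coh_ac`), nilpotent (`coh_nil`), `n = rk ξ`; `h, y` from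
`exists_h` (E07).  Choose `η > 0` with `a(n + η) < 4b`, `C_h` from `dl_h` (E08): `δ(e(τh)) ≤ C_he^{(n+η)τ}`.
Let `T > 0` (large, to be chosen) and `g = e(-(T/2)h)`, so `g⁻¹ = e((T/2)h)` and `δ(g) = δ(g⁻¹) ≤ J := C_he^{(n+η)T/2}`.
`Ad(g)ξ = ι(g)ξι(g⁻¹) = exp(-(T/2)h)ξexp((T/2)h) = e^{-T}ξ` (`[h,ξ] = 2ξ`: derivative in `T`).
Let `δ > 0` be small (depending on `g`), and `lam, m, x` from `near_coh` for `δ` (`lam` large).  `y₀ = π(g)x`, `‖y₀‖ = 1`.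
Derivatives: `d/dt π(e(tZ_i))π(g)x = π(g) d/dt π(g⁻¹e(tZ_i)g)x = π(g)D(Z'_i)x =: y_i`, `Z'_i = ι(g⁻¹)Z_iι(g) ∈ 𝔤`
(`ad_e`, `hP.dif`).  `‖y_i‖ = ‖D(Z'_i)x‖ ≤ √lam(|tr(ξZ'_i)| + δ√fsq Z'_i)` and `tr(ξZ'_i) = tr(ι(g)ξι(g⁻¹)Z_i) =
e^{-T}tr(ξZ_i)`, `|tr(ξZ_i)| ≤ √fsq ξ`.  So `‖y_i‖ ≤ √lam(M + 1)e^{-T}`, `M = √fsq ξ`, if `δ√fsq Z'_i ≤ e^{-T}`.
By `cheb` (U07) with `R = 4(1 + A.m lam(M+1)²e^{-2T})`: `y' ∈ low R`, `‖y₀ - y'‖² ≤ ¼`, so `‖y'‖² ≥ ¾` (`y' ⊥ y₀ - y'`).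
For `lam ≥ e^{2T}`: `1 ≤ R ≤ C₁lam e^{-2T}`, `C₁ = 4(1 + A.m(M+1)²)`; `R ≤ lam` if `e^{2T} ≥ C₁`.
Now `m(lam/R)^b·¾ ≤ B(y',y') ` and `ofReal B(y',y') = QW(y') ≤ QW(y₀) ≤ ofReal(J^a) QW(x) = ofReal(J^aB(x,x))`
(`QW_eq`, `QW_trunc`, `QW_move`: `δ(h) = δ(hg⁻¹g) ≤ δ(hg⁻¹)δ(g)`, so `δ(hg⁻¹)^{-a} ≤ δ(g)^aδ(h)^{-a} ≤ J^aδ(h)^{-a}`)
`≤ ofReal(2mJ^a)`.  So `¾(e^{2T}/C₁)^b ≤ 2J^a = 2C_h^ae^{a(n+η)T/2}` for every large `T`: `2b ≤ a(n+η)/2`, i.e.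
`4b ≤ a(n+η)`: contradiction.
-/

open MeasureTheory Filter Topology
open scoped ENNReal NNReal Matrix

noncomputable section

namespace SBD

variable {N : ℕ} {G : Type} [Group G] [TopologicalSpace G] [IsTopologicalGroup G]
  [LocallyCompactSpace G] [T2Space G]
variable [SecondCountableTopology G] [MeasurableSpace G] [BorelSpace G]
variable {H : Type} [NormedAddCommGroup H] [InnerProductSpace ℂ H] [CompleteSpace H]


private theorem u09_semi (X Y ξ : Mat N) (h : SemiconjBy ξ Y X) :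
    SemiconjBy ξ (NormedSpace.exp Y) (NormedSpace.exp X) :=
  open scoped Matrix.Norms.Operator in h.exp_right

private theorem u09_one (c : ℝ) :
    NormedSpace.exp (c • (1 : Mat N)) = Real.exp c • (1 : Mat N) := by
  have h1 : c • (1 : Mat N) = Matrix.diagonal fun _ => c := by
    rw [Matrix.smul_one_eq_diagonal]
  rw [h1, Matrix.exp_diagonal, Matrix.smul_one_eq_diagonal]
  congr 1
  funext i
  rw [Pi.coe_exp, Real.exp_eq_exp_ℝ]

private theorem u09_exp (X ξ : Mat N) (c : ℝ) (h : X * ξ - ξ * X = c • ξ) :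
    NormedSpace.exp X * ξ * NormedSpace.exp (-X) = Real.exp c • ξ := by
  have h1 : SemiconjBy ξ (X + c • (1 : Mat N)) X := by
    unfold SemiconjBy
    rw [mul_add, mul_smul_comm, mul_one, ← h]
    abel
  have h2 := u09_semi _ _ _ h1
  unfold SemiconjBy at h2
  have h3 : Commute X (c • (1 : Mat N)) := (Commute.one_right X).smul_right c
  have h6 : NormedSpace.exp X * NormedSpace.exp (-X) = 1 := by
    rw [← Matrix.exp_add_of_commute _ _ ((Commute.refl X).neg_right), add_neg_cancel,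
      NormedSpace.exp_zero]
  rw [← h2, Matrix.exp_add_of_commute _ _ h3, u09_one, mul_smul_comm, mul_one, mul_smul_comm,
    smul_mul_assoc, mul_assoc, h6, mul_one]

private theorem u09_tr (X Y : Mat N) : |(X * Y).trace| ≤ Real.sqrt (fsq X) * Real.sqrt (fsq Y) := by
  have h1 : (X * Y).trace = fip Xᵀ Y := by
    unfold fip
    rw [Matrix.transpose_transpose]
  have h2 : fip Xᵀ Y = ∑ p : Fin N × Fin N, Xᵀ p.1 p.2 * Y p.1 p.2 := P01_fip_eq _ _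
  have h3 : fsq X = ∑ p : Fin N × Fin N, Xᵀ p.1 p.2 ^ 2 := by
    rw [← m02_fsq_transpose]
    unfold fsq
    rw [P01_fip_eq]
    exact Finset.sum_congr rfl fun p _ => (sq _).symm
  have h4 : fsq Y = ∑ p : Fin N × Fin N, Y p.1 p.2 ^ 2 := by
    unfold fsq
    rw [P01_fip_eq]
    exact Finset.sum_congr rfl fun p _ => (sq _).symm
  rw [h1, h2, h3, h4, ← Real.sqrt_mul (Finset.sum_nonneg fun _ _ => sq_nonneg _)]
  exact Real.abs_le_sqrt (Finset.sum_mul_sq_le_sq_mul_sq _ _ _)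

/-- the choice of `T` -/
private theorem u09_T (a b s C₁ Ch : ℝ) (hC₁ : 0 < C₁) (hCh : 0 < Ch)
    (hs : a * s < 4 * b) :
    ∃ T : ℝ, 0 < T ∧ C₁ ≤ Real.exp (2 * T) ∧
      2 * (Ch * Real.exp (s * (T / 2))) ^ a < 3 / 4 * (Real.exp (2 * T) / C₁) ^ b := by
  have hd : 0 < (4 * b - a * s) / 2 := by linarith
  have h1 : Tendsto (fun T : ℝ => Real.exp ((4 * b - a * s) / 2 * T)) atTop atTop :=
    Real.tendsto_exp_atTop.comp (tendsto_id.const_mul_atTop hd)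
  have h2 : Tendsto (fun T : ℝ => Real.exp (2 * T)) atTop atTop :=
    Real.tendsto_exp_atTop.comp (tendsto_id.const_mul_atTop (by norm_num))
  obtain ⟨T, hT1, hT2, hT3⟩ := ((eventually_gt_atTop 0).and
    ((h2.eventually_ge_atTop C₁).and
      (h1.eventually_gt_atTop (8 / 3 * Ch ^ a * C₁ ^ b)))).exists
  refine ⟨T, hT1, hT2, ?_⟩
  have hE := Real.exp_pos (2 * T)
  rw [Real.mul_rpow hCh.le (Real.exp_pos _).le, ← Real.exp_mul,
    Real.div_rpow hE.le hC₁.le, ← Real.exp_mul]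
  have hb0 : 0 < C₁ ^ b := Real.rpow_pos_of_pos hC₁ _
  have e1 : Real.exp (2 * T * b) =
      Real.exp ((4 * b - a * s) / 2 * T) * Real.exp (s * (T / 2) * a) := by
    rw [← Real.exp_add]
    congr 1
    ring
  rw [e1]
  have hF := Real.exp_pos (s * (T / 2) * a)
  rw [← mul_div_assoc (3 / 4 : ℝ), lt_div_iff₀ hb0]
  have h5 := mul_lt_mul_of_pos_right hT3 hF
  nlinarith

/-- the weight moves by a bounded factor -/
private theorem u09_move {L : LieData N G} (B : Bases L) (a J : ℝ) (ha : 0 < a) (g : G)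
    (hJ : dl B g ≤ J) (h : G) :
    dl B (h * g⁻¹) ^ (-a) ≤ J ^ a * dl B h ^ (-a) := by
  have h1 : dl B h ≤ dl B (h * g⁻¹) * J := by
    have h2 := dl_mul_le B (h * g⁻¹) g
    rw [inv_mul_cancel_right] at h2
    exact h2.trans (mul_le_mul_of_nonneg_left hJ (by linarith [one_le_dl B (h * g⁻¹)]))
  have hJ0 : 0 < J := by linarith [one_le_dl B g]
  have p1 : 0 < dl B h := by linarith [one_le_dl B h]
  have p2 : 0 < dl B (h * g⁻¹) := by linarith [one_le_dl B (h * g⁻¹)]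
  have h3 : dl B h / J ≤ dl B (h * g⁻¹) := by
    rw [div_le_iff₀ hJ0]
    exact h1
  have h4 : dl B (h * g⁻¹) ^ (-a) ≤ (dl B h / J) ^ (-a) :=
    Real.rpow_le_rpow_of_nonpos (div_pos p1 hJ0) h3 (by linarith)
  refine h4.trans (le_of_eq ?_)
  rw [Real.div_rpow p1.le hJ0.le, Real.rpow_neg hJ0.le, div_inv_eq_mul, mul_comm]

/-- the derivatives of a translate -/
private theorem u09_deriv (L : LieData N G) (π : G →* (H ≃ₗᵢ[ℂ] H)) (A : LieRep N (KFin L π))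
    (hP : IsPkg L π A) (g : G) (x : KFin L π) (Z : Mat N) (hZ : Z ∈ L.𝔤) :
    HasDerivAt (fun t : ℝ => π (L.e (t • Z)) (π g (x : H)))
      (π g ((A.D (L.ι g⁻¹ * Z * L.ι g) x : KFin L π) : H)) 0 := by
  have hZ' : L.ι g⁻¹ * Z * L.ι g ∈ L.𝔤 := by
    have h1 := L.ad_mem g⁻¹ Z hZ
    rwa [inv_inv] at h1
  have h1 := hP.dif _ hZ' x
  have h2 : ∀ t : ℝ, π (L.e (t • Z)) (π g (x : H)) =
      π g (π (L.e (t • (L.ι g⁻¹ * Z * L.ι g))) (x : H)) := by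
    intro t
    have h3 := L.ad_e g⁻¹ (t • Z) (L.𝔤.smul_mem t hZ)
    rw [inv_inv] at h3
    have h4 : L.ι g⁻¹ * (t • Z) * L.ι g = t • (L.ι g⁻¹ * Z * L.ι g) := by
      rw [mul_smul_comm, smul_mul_assoc]
    rw [h4] at h3
    rw [h3]
    have h5 : π g (π (g⁻¹ * L.e (t • Z) * g) (x : H)) =
        (π g * π (g⁻¹ * L.e (t • Z) * g)) (x : H) := rfl
    have h6 : π (L.e (t • Z)) (π g (x : H)) = (π (L.e (t • Z)) * π g) (x : H) := rfl
    rw [h5, h6, ← map_mul, ← map_mul]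
    congr 2
    group
  have h7 : (fun t : ℝ => π (L.e (t • Z)) (π g (x : H))) =
      fun t : ℝ => π g (π (L.e (t • (L.ι g⁻¹ * Z * L.ι g))) (x : H)) := funext h2
  rw [h7]
  exact (((π g).toContinuousLinearEquiv : H →L[ℂ] H).restrictScalars ℝ).hasFDerivAt.comp_hasDerivAt
    0 h1

/-- the norm of the derivatives -/
private theorem u09_norm (L : LieData N G) (π : G →* (H ≃ₗᵢ[ℂ] H)) (A : LieRep N (KFin L π))
    (ξ Z' : Mat N) (lam δ T M tr0 : ℝ) (hlam : 1 ≤ lam) (x : KFin L π) (hx : ‖x‖ = 1)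
    (h1 : ‖(((Real.sqrt lam)⁻¹ : ℝ) : ℂ) • A.D Z' x - (Complex.I * ((ξ * Z').trace : ℝ)) • x‖ ≤
      δ * Real.sqrt (fsq Z')) (h2 : δ * Real.sqrt (fsq Z') ≤ Real.exp (-T))
    (h3 : (ξ * Z').trace = Real.exp (-T) * tr0) (h4 : |tr0| ≤ M) :
    ‖A.D Z' x‖ ^ 2 ≤ lam * ((M + 1) ^ 2 * Real.exp (-(2 * T))) := by
  have hs : 0 < Real.sqrt lam := Real.sqrt_pos.mpr (by linarith)
  have hE := Real.exp_pos (-T)
  have h5 : ‖(Complex.I * ((ξ * Z').trace : ℝ)) • x‖ ≤ Real.exp (-T) * M := by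
    rw [norm_smul, hx, mul_one, norm_mul, Complex.norm_I, one_mul, Complex.norm_real,
      Real.norm_eq_abs, h3, abs_mul, abs_of_pos hE]
    exact mul_le_mul_of_nonneg_left h4 hE.le
  have h6 : ‖(((Real.sqrt lam)⁻¹ : ℝ) : ℂ) • A.D Z' x‖ ≤ Real.exp (-T) * (M + 1) := by
    have h7 := norm_add_le ((((Real.sqrt lam)⁻¹ : ℝ) : ℂ) • A.D Z' x -
      (Complex.I * ((ξ * Z').trace : ℝ)) • x) ((Complex.I * ((ξ * Z').trace : ℝ)) • x)
    rw [sub_add_cancel] at h7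
    linarith
  have h8 : ‖A.D Z' x‖ ≤ Real.sqrt lam * (Real.exp (-T) * (M + 1)) := by
    rw [norm_smul, Complex.norm_real, Real.norm_eq_abs, abs_of_pos (inv_pos.mpr hs)] at h6
    rw [inv_mul_le_iff₀ hs] at h6
    exact h6
  calc ‖A.D Z' x‖ ^ 2 ≤ (Real.sqrt lam * (Real.exp (-T) * (M + 1))) ^ 2 :=
        pow_le_pow_left₀ (norm_nonneg _) h8 2
    _ = Real.sqrt lam ^ 2 * ((M + 1) ^ 2 * (Real.exp (-T) * Real.exp (-T))) := by ring
    _ = lam * ((M + 1) ^ 2 * Real.exp (-(2 * T))) := by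
      rw [Real.sq_sqrt (by linarith), ← Real.exp_add]
      congr 3
      ring

theorem upper_core (L : LieData N G) (B : Bases L) (π : G →* (H ≃ₗᵢ[ℂ] H))
    (A : LieRep N (KFin L π)) (hP : IsPkg L π A) (μ : Measure G) [μ.IsHaarMeasure]
    [μ.IsMulRightInvariant] (ht : Tempered L π μ) (w : H) (hw : w ∈ KFin L π) (hw0 : w ≠ 0)
    (a b : ℝ) (ha : 0 < a) (hb : 0 < b) (hab : ∀ ξ ∈ AC L π, a * rk L ξ < 4 * b) :
    ∃ C : ℝ, 0 < C ∧ ∀ lam : ℝ, ∀ ψ ∈ A.eig lam,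
      ‖ψ‖ ^ 2 ≤ C * lam ^ b * (BW L π μ (fun g => dl B g ^ (-a)) w ψ ψ).re := by
  obtain ⟨c₀, κ₀, hc₀, hκ₀, hwt⟩ := dl_wt L B
  have hW := hwt a ha
  have hκ : 0 < κ₀ * a := mul_pos hκ₀ ha
  have hc : 0 ≤ c₀ * a := mul_nonneg hc₀ ha.le
  have hB : A.AlmostInv (c₀ * a) (BW L π μ (fun g => dl B g ^ (-a)) w) :=
    BW_almost L π A hP μ ht hc hκ hW hw hw0
  have hX : ∀ X ∈ A.𝔤, ∀ u v : KFin L π,
      ‖BW L π μ (fun g => dl B g ^ (-a)) w (A.D X u) v +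
        BW L π μ (fun g => dl B g ^ (-a)) w u (A.D X v)‖ ≤
      (c₀ * a) * Real.sqrt (fsq X) * Real.sqrt (BW L π μ (fun g => dl B g ^ (-a)) w u u).re *
        Real.sqrt (BW L π μ (fun g => dl B g ^ (-a)) w v v).re := by
    intro X hX u v
    rw [hP.g_eq] at hX
    exact BW_deriv L π A hP μ ht hc hκ hW hw hX u v
  have hV : ∃ u ∈ KFin L π, u ≠ 0 := ⟨w, hw, hw0⟩
  have hnn : ∀ v : KFin L π, 0 ≤ (BW L π μ (fun g => dl B g ^ (-a)) w v v).re := by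
    intro v
    by_cases h0 : v = 0
    · rw [h0]
      have h1 := hB.smul_left 0 0 (0 : KFin L π)
      rw [zero_smul, map_zero, zero_mul] at h1
      rw [h1, Complex.zero_re]
    · exact (hB.pos v h0).le
  by_contra hcon
  have hfail : ∀ C : ℝ, ∃ lam : ℝ, ∃ ψ ∈ A.eig lam,
      C * lam ^ b * (BW L π μ (fun g => dl B g ^ (-a)) w ψ ψ).re < ‖ψ‖ ^ 2 := by
    intro C
    by_contra hcon2
    push Not at hcon2
    refine hcon ⟨max C 1, lt_of_lt_of_le one_pos (le_max_right _ _), fun lam ψ hψ =>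
      (hcon2 lam ψ hψ).trans ?_⟩
    by_cases h0 : ψ = 0
    · rw [h0]
      have h1 := hB.smul_left 0 0 (0 : KFin L π)
      rw [zero_smul, map_zero, zero_mul] at h1
      rw [h1, Complex.zero_re, mul_zero, mul_zero]
    · have h1 := A.eig_ge hψ h0
      have h2 : 0 ≤ lam ^ b := Real.rpow_nonneg (by linarith) _
      exact mul_le_mul_of_nonneg_right (mul_le_mul_of_nonneg_right (le_max_left _ _) h2) (hnn ψ)
  obtain ⟨ξ, hcoh, hnear⟩ := A.near_coh hP.adm hc hB hX hb hfail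
  have hAC := coh_ac L π A hP 4 ξ hcoh
  have hnil := A.coh_nil hP.adm 4 ξ hcoh
  have hξ : ξ ∈ L.𝔤 := hAC.1
  have hrk := hab ξ hAC
  obtain ⟨h, hh, y, hy, e1, e2⟩ := exists_h L hξ hnil
  obtain ⟨η, hη, hη2⟩ : ∃ η : ℝ, 0 < η ∧ a * ((rk L ξ : ℝ) + η) < 4 * b := by
    refine ⟨(4 * b - a * rk L ξ) / (2 * a), div_pos (by linarith) (by linarith), ?_⟩
    have h1 : a * ((rk L ξ : ℝ) + (4 * b - a * rk L ξ) / (2 * a)) =
        a * rk L ξ + (4 * b - a * rk L ξ) / 2 := by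
      field_simp
    rw [h1]
    linarith
  obtain ⟨Ch, hCh, hdl⟩ := dl_h B hξ hh hy hnil e1 e2 η hη
  obtain ⟨M, hM⟩ : ∃ M : ℝ, M = Real.sqrt (fsq ξ) := ⟨_, rfl⟩
  have hM0 : 0 ≤ M := by rw [hM]; exact Real.sqrt_nonneg _
  obtain ⟨C₁, hC₁⟩ : ∃ C₁ : ℝ, C₁ = 4 * (1 + A.m * (M + 1) ^ 2) := ⟨_, rfl⟩
  have hC₁0 : 0 < C₁ := by rw [hC₁]; positivity
  obtain ⟨T, hT0, hT1, hT2⟩ := u09_T a b ((rk L ξ : ℝ) + η) C₁ Ch hC₁0 hCh hη2
  have hTh : (T / 2) • h ∈ L.𝔤 := L.𝔤.smul_mem _ hh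
  obtain ⟨g, hg⟩ : ∃ g : G, g = (L.e ((T / 2) • h))⁻¹ := ⟨_, rfl⟩
  have hgi : g⁻¹ = L.e ((T / 2) • h) := by rw [hg, inv_inv]
  have hιgi : L.ι g⁻¹ = NormedSpace.exp ((T / 2) • h) := by rw [hgi, L.ι_e _ hTh]
  have hιg : L.ι g = NormedSpace.exp (-((T / 2) • h)) := by
    rw [hg, ← e_neg L hTh, L.ι_e _ (L.𝔤.neg_mem hTh)]
  have hAd : L.ι g * ξ * L.ι g⁻¹ = Real.exp (-T) • ξ := by
    have h1 := u09_exp (-((T / 2) • h)) ξ (-T) (by
      rw [neg_mul, mul_neg, smul_mul_assoc, mul_smul_comm]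
      have h2 : -((T / 2) • (h * ξ)) - -((T / 2) • (ξ * h)) =
          -((T / 2) • (h * ξ - ξ * h)) := by
        rw [smul_sub]
        abel
      rw [h2, e1, smul_smul, ← neg_smul]
      congr 1
      ring)
    rw [neg_neg] at h1
    rw [hιg, hιgi]
    exact h1
  obtain ⟨J, hJ⟩ : ∃ J : ℝ, J = Ch * Real.exp (((rk L ξ : ℝ) + η) * (T / 2)) := ⟨_, rfl⟩
  have hgJ : dl B g ≤ J := by
    rw [← dl_inv B g, hgi, hJ]
    exact hdl (T / 2) (by linarith)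
  have hJ0 : 0 < J := by rw [hJ]; positivity
  -- the elements `Z'`
  have hZ : ∀ i, A.Z i ∈ L.𝔤 := fun i => by rw [← hP.g_eq]; exact A.Z_mem i
  have hZ' : ∀ i, L.ι g⁻¹ * A.Z i * L.ι g ∈ L.𝔤 := by
    intro i
    have h1 := L.ad_mem g⁻¹ _ (hZ i)
    rwa [inv_inv] at h1
  have htr : ∀ i, (ξ * (L.ι g⁻¹ * A.Z i * L.ι g)).trace = Real.exp (-T) * (ξ * A.Z i).trace := by
    intro i
    have h1 : (ξ * (L.ι g⁻¹ * A.Z i * L.ι g)).trace = (L.ι g * ξ * L.ι g⁻¹ * A.Z i).trace := by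
      rw [Matrix.trace_mul_comm (L.ι g * ξ * L.ι g⁻¹) (A.Z i),
        ← Matrix.mul_assoc, Matrix.trace_mul_comm _ (L.ι g)]
      rw [Matrix.trace_mul_comm (A.Z i)]
      simp only [Matrix.mul_assoc]
    rw [h1, hAd, smul_mul_assoc, Matrix.trace_smul, smul_eq_mul]
  have htr0 : ∀ i, |(ξ * A.Z i).trace| ≤ M := by
    intro i
    have h1 := u09_tr ξ (A.Z i)
    have h2 : fsq (A.Z i) = 1 := by
      have h3 := A.Z_o i i
      rw [if_pos rfl] at h3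
      exact h3
    rw [h2, Real.sqrt_one, mul_one, ← hM] at h1
    exact h1
  obtain ⟨S', hS'⟩ : ∃ S' : ℝ, S' = ∑ i, Real.sqrt (fsq (L.ι g⁻¹ * A.Z i * L.ι g)) := ⟨_, rfl⟩
  have hS'0 : 0 ≤ S' := by rw [hS']; exact Finset.sum_nonneg fun i _ => Real.sqrt_nonneg _
  obtain ⟨δ, hδ⟩ : ∃ δ : ℝ, δ = Real.exp (-T) / (1 + S') := ⟨_, rfl⟩
  have hδ0 : 0 < δ := by rw [hδ]; positivity
  have hδS : ∀ i, δ * Real.sqrt (fsq (L.ι g⁻¹ * A.Z i * L.ι g)) ≤ Real.exp (-T) := by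
    intro i
    have h1 : Real.sqrt (fsq (L.ι g⁻¹ * A.Z i * L.ι g)) ≤ 1 + S' := by
      have h2 := Finset.single_le_sum (f := fun i => Real.sqrt (fsq (L.ι g⁻¹ * A.Z i * L.ι g)))
        (fun i _ => Real.sqrt_nonneg _) (Finset.mem_univ i)
      rw [← hS'] at h2
      linarith
    calc δ * Real.sqrt (fsq (L.ι g⁻¹ * A.Z i * L.ι g)) ≤ δ * (1 + S') :=
          mul_le_mul_of_nonneg_left h1 hδ0.le
      _ = Real.exp (-T) := by rw [hδ]; field_simp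
  obtain ⟨lam, hlam1, hlam2, m, hm, x, hx, hxn, hBx, hder, hlow⟩ := hnear δ hδ0 (Real.exp (2 * T))
  have hyn : ∀ i, ‖π g ((A.D (L.ι g⁻¹ * A.Z i * L.ι g) x : KFin L π) : H)‖ ^ 2 ≤
      lam * ((M + 1) ^ 2 * Real.exp (-(2 * T))) := by
    intro i
    rw [LinearIsometryEquiv.norm_map]
    exact u09_norm L π A ξ _ lam δ T M _ hlam2 x hxn
      (hder _ (by rw [hP.g_eq]; exact hZ' i)) (hδS i) (htr i) (htr0 i)
  obtain ⟨R, hR⟩ : ∃ R : ℝ, R = 4 * (1 + A.m * (lam * ((M + 1) ^ 2 * Real.exp (-(2 * T))))) :=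
    ⟨_, rfl⟩
  have hR1 : 1 ≤ R := by
    have h1 : 0 ≤ (A.m : ℝ) * (lam * ((M + 1) ^ 2 * Real.exp (-(2 * T)))) := by positivity
    rw [hR]
    linarith
  obtain ⟨y', hy', ho, hRy⟩ := cheb L π A hP hV (π g (x : H))
    (fun i => π g ((A.D (L.ι g⁻¹ * A.Z i * L.ι g) x : KFin L π) : H))
    (fun i => u09_deriv L π A hP g x (A.Z i) (hZ i)) R (by linarith)
  have hyy : ‖π g (x : H)‖ = 1 := by
    rw [LinearIsometryEquiv.norm_map]
    exact hxn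
  have hsum : ∑ i, ‖π g ((A.D (L.ι g⁻¹ * A.Z i * L.ι g) x : KFin L π) : H)‖ ^ 2 ≤
      A.m * (lam * ((M + 1) ^ 2 * Real.exp (-(2 * T)))) := by
    refine (Finset.sum_le_sum fun i _ => hyn i).trans (le_of_eq ?_)
    rw [Finset.sum_const, Finset.card_univ, Fintype.card_fin, nsmul_eq_mul]
  have hdist : ‖π g (x : H) - (y' : H)‖ ^ 2 ≤ 1 / 4 := by
    rw [hyy] at hRy
    have h1 : R * ‖π g (x : H) - (y' : H)‖ ^ 2 ≤ R * (1 / 4) := by
      calc R * ‖π g (x : H) - (y' : H)‖ ^ 2 ≤ 1 ^ 2 +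
            ∑ i, ‖π g ((A.D (L.ι g⁻¹ * A.Z i * L.ι g) x : KFin L π) : H)‖ ^ 2 := hRy
        _ ≤ 1 + A.m * (lam * ((M + 1) ^ 2 * Real.exp (-(2 * T)))) := by linarith
        _ = R * (1 / 4) := by rw [hR]; ring
    exact le_of_mul_le_mul_left h1 (by linarith)
  have hpy : ‖(y' : H)‖ ^ 2 = 1 - ‖π g (x : H) - (y' : H)‖ ^ 2 := by
    have h1 := norm_add_sq_eq_norm_sq_add_norm_sq_of_inner_eq_zero (𝕜 := ℂ) (y' : H)
      (π g (x : H) - (y' : H)) (ho y' hy')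
    rw [add_sub_cancel, hyy] at h1
    nlinarith
  have hy'n : 3 / 4 ≤ ‖y'‖ ^ 2 := by
    have h1 : ‖y'‖ = ‖(y' : H)‖ := rfl
    rw [h1, hpy]
    linarith
  -- the size of `R`
  have hE2 : Real.exp (2 * T) * Real.exp (-(2 * T)) = 1 := by
    rw [← Real.exp_add, add_neg_cancel, Real.exp_zero]
  have hEn := Real.exp_pos (-(2 * T))
  have hEp := Real.exp_pos (2 * T)
  have hlE : 1 ≤ lam * Real.exp (-(2 * T)) := by
    rw [← hE2]
    exact mul_le_mul_of_nonneg_right hlam1 hEn.le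
  have hRC : R ≤ C₁ * (lam * Real.exp (-(2 * T))) := by
    rw [hR, hC₁]
    have h1 : (A.m : ℝ) * (lam * ((M + 1) ^ 2 * Real.exp (-(2 * T)))) =
        A.m * (M + 1) ^ 2 * (lam * Real.exp (-(2 * T))) := by ring
    rw [h1]
    linarith
  have hRE : R * Real.exp (2 * T) ≤ C₁ * lam := by
    calc R * Real.exp (2 * T) ≤ C₁ * (lam * Real.exp (-(2 * T))) * Real.exp (2 * T) :=
          mul_le_mul_of_nonneg_right hRC hEp.le
      _ = C₁ * lam * (Real.exp (2 * T) * Real.exp (-(2 * T))) := by ring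
      _ = C₁ * lam := by rw [hE2, mul_one]
  have hRl : R ≤ lam := by
    have h1 : R * C₁ ≤ lam * C₁ := by
      calc R * C₁ ≤ R * Real.exp (2 * T) := mul_le_mul_of_nonneg_left hT1 (by linarith)
        _ ≤ C₁ * lam := hRE
        _ = lam * C₁ := mul_comm _ _
    exact le_of_mul_le_mul_right h1 hC₁0
  have hratio : Real.exp (2 * T) / C₁ ≤ lam / R := by
    rw [div_le_div_iff₀ hC₁0 (by linarith)]
    linarith
  have hlow' := hlow R hR1 hRl y' hy'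
  -- the upper bound
  have hup : (BW L π μ (fun g => dl B g ^ (-a)) w y' y').re ≤ J ^ a * (2 * m) := by
    have h1 : ENNReal.ofReal (BW L π μ (fun g => dl B g ^ (-a)) w y' y').re ≤
        ENNReal.ofReal (J ^ a * (2 * m)) := by
      rw [← QW_eq L π A hP μ ht hκ hW hw y']
      refine (QW_trunc L π A hP μ hW w (π g (x : H)) R y' hy' ho).trans ?_
      refine (QW_move π μ (fun g => dl B g ^ (-a)) w (x : H) g (J ^ a)
        (fun k => u09_move B a J ha g hgJ k)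
        (fun k => Real.rpow_nonneg (by linarith [one_le_dl B k]) _)).trans ?_
      rw [QW_eq L π A hP μ ht hκ hW hw x,
        ← ENNReal.ofReal_mul (Real.rpow_nonneg hJ0.le _)]
      exact ENNReal.ofReal_le_ofReal (mul_le_mul_of_nonneg_left hBx (Real.rpow_nonneg hJ0.le _))
    exact (ENNReal.ofReal_le_ofReal_iff (by positivity)).mp h1
  have hpow : (Real.exp (2 * T) / C₁) ^ b ≤ (lam / R) ^ b :=
    Real.rpow_le_rpow (by positivity) hratio hb.le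
  have hfin : m * (Real.exp (2 * T) / C₁) ^ b * (3 / 4) ≤ J ^ a * (2 * m) := by
    refine le_trans ?_ (hlow'.trans hup)
    exact mul_le_mul (mul_le_mul_of_nonneg_left hpow hm.le) hy'n (by norm_num)
      (mul_nonneg hm.le (Real.rpow_nonneg (div_nonneg (by linarith) (by linarith)) _))
  rw [← hJ] at hT2
  have h9 := mul_lt_mul_of_pos_left hT2 hm
  nlinarith

end SBD
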