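import Pool.Agent.SBX.U09
import Pool.Agent.SBD.P16

/-!
# Row SBX-U10 : the upper bound `d_→([q],[p^r]) ≤ (ν/4)(1 - 2/r)`

`ν` a bound for `rk` on `AC`.

PROOF.  Let `s > (ν/4)(1-2/r)` be real, `s > 0`.  There is a real `a > 0` with `1 - 2/r < ofReal a` and `aν < 4s`
(if `ν = 0` take `a = 2`; otherwise `1 - 2/r < a < 4s/ν`).  `upper_core` with `b = s`: `‖ψ‖² ≤ C lam^sB(ψ,ψ)` on
`eig lam`, `W = δ^{-a}`.  Let `Sob L π s u v`, `u ∈ V`: `sob_iff` (P16): `u = ∑_{l∈T}f l`, `v = ∑l^{s/2}f l`,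
`l ≥ 1`.  `‖u‖² = ∑‖f l‖²` (`norm_sq_sum`) `≤ C∑l^sB(f l,f l) = C∑B(l^{s/2}f l,l^{s/2}f l) = C B(v,v)`
(`AlmostInv.sum` with `BW_almost`).  `ofReal B(v,v) = QW(v) ≤ C'(p^r(v))²` (`QW_eq`, `holderW`).  So
`(qn u)² ≤ C C'(pr v)²`, `qn u ≤ C'' pr v`, i.e. `ofReal s` is in the set defining `dTo L π qn (pr π μ w r)`.
Hence `dTo ≤ ofReal s` for all `s > (ν/4)(1-2/r)`.
-/

open MeasureTheory Filter Topology
open scoped ENNReal NNReal Matrix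

noncomputable section

namespace SBD

variable {N : ℕ} {G : Type} [Group G] [TopologicalSpace G] [IsTopologicalGroup G]
  [LocallyCompactSpace G] [T2Space G]
variable [SecondCountableTopology G] [MeasurableSpace G] [BorelSpace G]
variable {H : Type} [NormedAddCommGroup H] [InnerProductSpace ℂ H] [CompleteSpace H]

private theorem U10_sq {C : ℝ} (hC : 0 < C) (C' : ℝ≥0) {n b : ℝ} (hn : 0 ≤ n) {x p : ℝ≥0∞}
    (hx : x = ENNReal.ofReal n) (h1 : n ^ 2 ≤ C * b) (h2 : ENNReal.ofReal b ≤ C' * p ^ 2) :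
    x ≤ ((NNReal.sqrt (C.toNNReal * C') : ℝ≥0) : ℝ≥0∞) * p := by
  have h3 : x ^ 2 ≤ (((NNReal.sqrt (C.toNNReal * C') : ℝ≥0) : ℝ≥0∞) * p) ^ 2 := by
    calc x ^ 2 = ENNReal.ofReal (n ^ 2) := by rw [hx, ENNReal.ofReal_pow hn]
      _ ≤ ENNReal.ofReal (C * b) := ENNReal.ofReal_le_ofReal h1
      _ = ENNReal.ofReal C * ENNReal.ofReal b := ENNReal.ofReal_mul hC.le
      _ ≤ ENNReal.ofReal C * (C' * p ^ 2) := by gcongr
      _ = (((NNReal.sqrt (C.toNNReal * C') : ℝ≥0) : ℝ≥0∞) * p) ^ 2 := by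
          rw [mul_pow, ← ENNReal.coe_pow, NNReal.sq_sqrt, ENNReal.coe_mul, mul_assoc]
          rfl
  exact (ENNReal.pow_le_pow_left_iff two_ne_zero).mp h3

private theorem U10_main (L : LieData N G) (B : Bases L) (π : G →* (H ≃ₗᵢ[ℂ] H))
    (A : LieRep N (KFin L π)) (hP : IsPkg L π A) (μ : Measure G) [μ.IsHaarMeasure]
    [μ.IsMulRightInvariant] (ht : Tempered L π μ) (ν : ℕ) (hν : ∀ ξ ∈ AC L π, rk L ξ ≤ ν)
    (r : ℝ≥0∞) (hr : 2 < r) (w : H) (hw : w ∈ KFin L π) (hw0 : w ≠ 0) (t x : ℝ) (hx0 : 0 ≤ x)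
    (hx : 1 - 2 / r = ENNReal.ofReal x) (ht0 : 0 < t) (htx : (ν : ℝ) / 4 * x < t) :
    dTo L π qn (pr π μ w r) ≤ ENNReal.ofReal t := by
  have hν0 : (0 : ℝ) ≤ ν := Nat.cast_nonneg ν
  have hd : 0 < 4 * t - ν * x := by linarith
  obtain ⟨a, hax, haν⟩ : ∃ a : ℝ, x < a ∧ a * ν < 4 * t := by
    refine ⟨x + (4 * t - ν * x) / (2 * (ν + 1)), ?_, ?_⟩
    · have : 0 < (4 * t - ν * x) / (2 * ((ν : ℝ) + 1)) := by positivity
      linarith
    · have h1 : (4 * t - ν * x) / (2 * ((ν : ℝ) + 1)) * ν < 4 * t - ν * x := by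
        rw [div_mul_eq_mul_div, div_lt_iff₀ (by positivity)]
        nlinarith
      linarith
  have ha0 : 0 < a := lt_of_le_of_lt hx0 hax
  have hab : ∀ ξ ∈ AC L π, a * rk L ξ < 4 * t := by
    intro ξ hξ
    have h1 : (rk L ξ : ℝ) ≤ ν := by exact_mod_cast hν ξ hξ
    exact lt_of_le_of_lt (mul_le_mul_of_nonneg_left h1 ha0.le) haν
  obtain ⟨C, hC, hmain⟩ := upper_core L B π A hP μ ht w hw hw0 a t ha0 ht0 hab
  obtain ⟨c₀, κ₀, hc₀, hκ₀, hwt⟩ := dl_wt L B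
  have hW := hwt a ha0
  have hB := BW_almost L π A hP μ ht (mul_nonneg hc₀ ha0.le) (mul_pos hκ₀ ha0) hW hw hw0
  have haE : 1 - 2 / r < ENNReal.ofReal a := by
    rw [hx]
    exact (ENNReal.ofReal_lt_ofReal_iff ha0).mpr hax
  obtain ⟨C', hC'⟩ := holderW L B π hP.cont μ w r hr a ha0 haE
  refine sInf_le ⟨t, ht0.le, rfl, NNReal.sqrt (C.toNNReal * C'), fun u v _ huv => ?_⟩
  obtain ⟨s, f, hf, hu, hv⟩ := (sob_iff L π A hP t u v).mp huv
  set v' : KFin L π := ∑ l ∈ s, ((l ^ (t / 2) : ℝ) : ℂ) • f l with hv'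
  refine U10_sq hC C' (norm_nonneg u) (b := (BW L π μ (fun g => dl B g ^ (-a)) w v' v').re) ?_ ?_ ?_
  · unfold qn
    exact (ofReal_norm u).symm
  · have h1 : ‖u‖ ^ 2 = ∑ l ∈ s, ‖f l‖ ^ 2 := by
      rw [← LieRep.norm_sq_sum A s f fun l hl => (hf l hl).2, hu]
      rfl
    have h2 : (BW L π μ (fun g => dl B g ^ (-a)) w v' v').re =
        ∑ l ∈ s, l ^ t * (BW L π μ (fun g => dl B g ^ (-a)) w (f l) (f l)).re := by
      rw [hv', hB.sum s (fun l => ((l ^ (t / 2) : ℝ) : ℂ) • f l)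
        (fun l hl => Submodule.smul_mem _ _ (hf l hl).2)]
      refine Finset.sum_congr rfl fun l hl => ?_
      have hl0 : 0 < l := lt_of_lt_of_le one_pos (hf l hl).1
      rw [hB.smul_left, hB.smul_right, Complex.conj_ofReal, ← mul_assoc, ← Complex.ofReal_mul,
        Complex.re_ofReal_mul, ← Real.rpow_add hl0, add_halves]
    rw [h1, h2, Finset.mul_sum]
    refine Finset.sum_le_sum fun l hl => ?_
    have h3 := hmain l (f l) (hf l hl).2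
    rw [mul_assoc] at h3
    exact h3
  · rw [← QW_eq L π A hP μ ht (mul_pos hκ₀ ha0) hW hw v']
    have h3 := hC' v
    rw [hv] at h3 ⊢
    exact h3

theorem upperQ (L : LieData N G) (B : Bases L) (π : G →* (H ≃ₗᵢ[ℂ] H))
    (A : LieRep N (KFin L π)) (hP : IsPkg L π A) (μ : Measure G) [μ.IsHaarMeasure]
    [μ.IsMulRightInvariant] (ht : Tempered L π μ) (ν : ℕ) (hν : ∀ ξ ∈ AC L π, rk L ξ ≤ ν)
    (r : ℝ≥0∞) (hr : 2 < r) (w : H) (hw : w ∈ KFin L π) (hw0 : w ≠ 0) :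
    dTo L π qn (pr π μ w r) ≤ ENNReal.ofReal ((ν : ℝ) / 4) * (1 - 2 / r) := by
  have hne : (1 - 2 / r : ℝ≥0∞) ≠ ⊤ := ne_top_of_le_ne_top ENNReal.one_ne_top tsub_le_self
  set x : ℝ := (1 - 2 / r : ℝ≥0∞).toReal with hx
  have hx0 : 0 ≤ x := ENNReal.toReal_nonneg
  have hxr : (1 - 2 / r : ℝ≥0∞) = ENNReal.ofReal x := (ENNReal.ofReal_toReal hne).symm
  have hν0 : (0 : ℝ) ≤ (ν : ℝ) / 4 := by positivity
  rw [hxr, ← ENNReal.ofReal_mul hν0]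
  by_contra hcon
  rw [not_le] at hcon
  obtain ⟨t, ht0, ht1, ht2⟩ := ENNReal.lt_iff_exists_real_btwn.1 hcon
  have htp : 0 < t := by
    by_contra h
    have h1 : t = 0 := le_antisymm (not_lt.mp h) ht0
    rw [h1, ENNReal.ofReal_zero] at ht1
    exact absurd ht1 not_lt_zero
  have htx : (ν : ℝ) / 4 * x < t := (ENNReal.ofReal_lt_ofReal_iff htp).mp ht1
  exact absurd (U10_main L B π A hP μ ht ν hν r hr w hw hw0 t x hx0 hxr htp htx) (not_le.2 ht2)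

end SBD
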