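import Pool.Agent.SBX.Defs
import Pool.Agent.SBD.P01

/-!
# Row SBX-V01 : the adjoint representation in the orthonormal basis

All by expansion in the orthonormal basis `b`.
* `b_o` : `fip Z P = tr(Zᵀ P) = -tr(ZP)` and `tr(ZP) = tr((ZP)ᵀ) = tr(PᵀZᵀ) = -tr(PZ) = -tr(ZP)`, so it is `0`.
* `fip_ad` : `fip(Y,[X,W]) = tr(YᵀXW) - tr(YᵀWX) = fip([Xᵀ,Y], W)`; gives `adM_t`.
* `AdM_mul`, `AdM_conj`, `adM_lie` : `AdM_coord` / `adM_coord` (expand `ι(g)b_jι(g)⁻¹ ∈ 𝔤`).
* `AdM_K` : `fip_ad_K` (P01): `AdM k` maps an orthonormal basis to an orthonormal basis.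
* `AdM_e` : `ι(e(tX)) b ι(e(tX))⁻¹ = exp(tX) b exp(-tX)` solves `Y' = [X,Y]`; so `t ↦ AdM (e(tX))` has
  derivative `adM X * AdM(e(tX))`, value `1` at `0`; `exp(-t adM X) AdM(e(tX))` is constant.
* `tr_adM` : `∑_i fip(b_i, [X,b_i]) = tr(X ∑(b_i b_iᵀ - b_iᵀ b_i)) = 0` since `b_iᵀ = ± b_i`.
* `adM_pos` : by `L.ss` `adM X ≠ 0` for `0 ≠ X ∈ 𝔭` (some `Z ∈ 𝔨` with `[X,Z] ≠ 0`, expand `Z`);
  `X ↦ ∑(adM X)_{ij}²` is continuous, homogeneous of degree 2; compactness of the unit sphere of `𝔭`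
  (if `𝔭 = 0` trivial).
-/

open MeasureTheory Filter Topology
open scoped ENNReal NNReal Matrix

noncomputable section

namespace SBD

variable {N : ℕ} {G : Type} [Group G] [TopologicalSpace G] [IsTopologicalGroup G]
  [LocallyCompactSpace G] [T2Space G]

theorem V01_fip_comm (X Y : Mat N) : fip X Y = fip Y X := by
  unfold fip
  rw [← Matrix.trace_transpose (Xᵀ * Y), Matrix.transpose_mul, Matrix.transpose_transpose]

theorem V01_fip_zero (X : Mat N) : fip X 0 = 0 := by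
  unfold fip
  rw [Matrix.mul_zero, Matrix.trace_zero]

theorem V01_fip_sub (X Y Z : Mat N) : fip X (Y - Z) = fip X Y - fip X Z := by
  unfold fip
  rw [Matrix.mul_sub, Matrix.trace_sub]

theorem V01_fip_sum {ι : Type*} (s : Finset ι) (X : Mat N) (f : ι → Mat N) :
    fip X (∑ i ∈ s, f i) = ∑ i ∈ s, fip X (f i) := by
  unfold fip
  rw [Finset.mul_sum, Matrix.trace_sum]

theorem V01_fsq_eq (M : Mat N) : fsq M = ∑ i, ∑ j, M i j ^ 2 := by
  unfold fsq fip
  rw [Matrix.trace, Finset.sum_comm]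
  refine Finset.sum_congr rfl fun j _ => ?_
  rw [Matrix.diag_apply, Matrix.mul_apply]
  refine Finset.sum_congr rfl fun i _ => ?_
  rw [Matrix.transpose_apply, sq]

theorem V01_fsq_nonneg (M : Mat N) : 0 ≤ fsq M := by
  rw [V01_fsq_eq]
  exact Finset.sum_nonneg fun i _ => Finset.sum_nonneg fun j _ => sq_nonneg _

theorem V01_fsq_mul_le (A B : Mat N) : fsq (A * B) ≤ fsq A * fsq B := by
  rw [V01_fsq_eq, V01_fsq_eq A, V01_fsq_eq B]
  have h1 : ∀ i j, (A * B) i j ^ 2 ≤ (∑ k, A i k ^ 2) * ∑ k, B k j ^ 2 := by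
    intro i j
    rw [Matrix.mul_apply]
    exact Finset.sum_mul_sq_le_sq_mul_sq _ _ _
  calc ∑ i, ∑ j, (A * B) i j ^ 2 ≤ ∑ i, ∑ j, (∑ k, A i k ^ 2) * ∑ k, B k j ^ 2 :=
        Finset.sum_le_sum fun i _ => Finset.sum_le_sum fun j _ => h1 i j
    _ = (∑ i, ∑ k, A i k ^ 2) * ∑ j, ∑ k, B k j ^ 2 := by
        rw [Finset.sum_mul_sum]
    _ = (∑ i, ∑ j, A i j ^ 2) * ∑ i, ∑ j, B i j ^ 2 := by
        rw [Finset.sum_comm (f := fun j k => B k j ^ 2)]

theorem V01_fsq_smul (t : ℝ) (X : Mat N) : fsq (t • X) = t ^ 2 * fsq X := by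
  unfold fsq
  rw [P01_fip_smul, V01_fip_comm, P01_fip_smul]
  ring

theorem V01_fsq_sub_le (X Y : Mat N) : fsq (X - Y) ≤ 2 * fsq X + 2 * fsq Y := by
  have h := V01_fsq_nonneg (X + Y)
  have e1 : fsq (X - Y) + fsq (X + Y) = 2 * fsq X + 2 * fsq Y := by
    rw [V01_fsq_eq, V01_fsq_eq, V01_fsq_eq, V01_fsq_eq]
    simp only [Finset.mul_sum, ← Finset.sum_add_distrib, Matrix.sub_apply, Matrix.add_apply]
    exact Finset.sum_congr rfl fun i _ => Finset.sum_congr rfl fun j _ => by ring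
  linarith

theorem V01_cs (X Y : Mat N) : fip X Y ^ 2 ≤ fsq X * fsq Y := by
  have hX : fsq X = fip X X := rfl
  have hY : fsq Y = fip Y Y := rfl
  rw [hX, hY, P01_fip_eq, P01_fip_eq, P01_fip_eq]
  have h := Finset.sum_mul_sq_le_sq_mul_sq (Finset.univ : Finset (Fin N × Fin N))
    (fun p => X p.1 p.2) fun p => Y p.1 p.2
  simpa only [sq] using h

theorem V01_fsq_eq_zero (M : Mat N) (h : fsq M = 0) : M = 0 := by
  rw [V01_fsq_eq, Finset.sum_eq_zero_iff_of_nonneg
    fun i _ => Finset.sum_nonneg fun j _ => sq_nonneg _] at h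
  ext i j
  have h1 := h i (Finset.mem_univ _)
  rw [Finset.sum_eq_zero_iff_of_nonneg fun j _ => sq_nonneg _] at h1
  have h2 := h1 j (Finset.mem_univ _)
  rw [Matrix.zero_apply]
  exact pow_eq_zero_iff (two_ne_zero) |>.1 h2

theorem V01_fip_cont {Y : Type*} [TopologicalSpace Y] {f g : Y → Mat N} (hf : Continuous f)
    (hg : Continuous g) : Continuous fun y => fip (f y) (g y) :=
  ((hf.matrix_transpose).matrix_mul hg).matrix_trace

section frob

open scoped Matrix.Norms.Frobenius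

theorem V01_norm_sq (M : Mat N) : ‖M‖ ^ 2 = fsq M := by
  have h0 : 0 ≤ ∑ i, ∑ j, ‖M i j‖ ^ (2 : ℝ) :=
    Finset.sum_nonneg fun i _ => Finset.sum_nonneg fun j _ => Real.rpow_nonneg (norm_nonneg _) _
  rw [Matrix.frobenius_norm_def, ← Real.rpow_natCast, ← Real.rpow_mul h0, V01_fsq_eq]
  norm_num

theorem V01_ball_compact_aux (r : ℝ) : IsCompact {M : Mat N | fsq M ≤ r ^ 2} := by
  have h : {M : Mat N | fsq M ≤ r ^ 2} = Metric.closedBall 0 |r| := by
    ext M
    rw [Set.mem_ofPred_eq, mem_closedBall_zero_iff, ← V01_norm_sq, ← sq_abs r]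
    exact ⟨fun h => (pow_le_pow_iff_left₀ (norm_nonneg _) (abs_nonneg _) two_ne_zero).1 h,
      fun h => pow_le_pow_left₀ (norm_nonneg _) h 2⟩
  rw [h]
  have : ProperSpace (Mat N) := FiniteDimensional.proper ℝ (Mat N)
  exact isCompact_closedBall _ _

theorem V01_deriv_aux (M A X : Mat N) (t : ℝ) :
    HasDerivAt (fun s : ℝ => fip M (NormedSpace.exp (s • X) * A * NormedSpace.exp (s • (-X))))
      (fip M (X * (NormedSpace.exp (t • X) * A * NormedSpace.exp (t • (-X))) -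
        (NormedSpace.exp (t • X) * A * NormedSpace.exp (t • (-X))) * X)) t := by
  have h1 : HasDerivAt (fun s : ℝ => NormedSpace.exp (s • X)) (X * NormedSpace.exp (t • X)) t :=
    hasDerivAt_exp_smul_const' X t
  have h2 : HasDerivAt (fun s : ℝ => NormedSpace.exp (s • (-X)))
      (NormedSpace.exp (t • (-X)) * (-X)) t := hasDerivAt_exp_smul_const (-X) t
  have h3 := (h1.mul_const A).mul h2
  have hl : IsBoundedLinearMap ℝ (fun Y : Mat N => fip M Y) := by
    refine ⟨⟨fun Y Z => P01_fip_add M Y Z, fun c Y => P01_fip_smul c M Y⟩, ‖M‖ + 1, by positivity, ?_⟩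
    intro Y
    have h := V01_cs M Y
    rw [← V01_norm_sq, ← V01_norm_sq, ← mul_pow] at h
    have h4 : |fip M Y| ≤ ‖M‖ * ‖Y‖ := abs_le_of_sq_le_sq h (by positivity)
    rw [Real.norm_eq_abs]
    nlinarith [norm_nonneg Y]
  have h5 := hl.hasFDerivAt (x := NormedSpace.exp (t • X) * A * NormedSpace.exp (t • (-X)))
  have h6 := h5.comp_hasDerivAt t h3
  refine h6.congr_deriv ?_
  change fip M _ = fip M _
  congr 1
  rw [Matrix.mul_neg]
  simp only [Matrix.mul_assoc, Matrix.mul_neg, sub_eq_add_neg]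

theorem V01_ode {J : Type} [Fintype J] [DecidableEq J] (A : Matrix J J ℝ) (f : ℝ → Matrix J J ℝ)
    (h0 : f 0 = 1) (hf : ∀ t i j, HasDerivAt (fun s => f s i j) ((A * f t) i j) t) :
    f 1 = NormedSpace.exp A := by
  have hf' : ∀ t, HasDerivAt f (A * f t) t := by
    intro t
    have h1 : HasDerivAt (fun s => (fun i j => f s i j : J → J → ℝ)) (fun i j => (A * f t) i j) t :=
      hasDerivAt_pi.2 fun i => hasDerivAt_pi.2 fun j => hf t i j
    have h2 := (Matrix.ofLinearEquiv ℝ : (J → J → ℝ) ≃ₗ[ℝ] Matrix J J ℝ).toLinearMap.toContinuousLinearMap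
    have h3 := ((Matrix.ofLinearEquiv ℝ : (J → J → ℝ) ≃ₗ[ℝ] Matrix J J ℝ).toLinearMap.toContinuousLinearMap).hasFDerivAt (x := fun i j => f t i j)
    exact h3.comp_hasDerivAt t h1
  have hg : ∀ t, HasDerivAt (fun s : ℝ => NormedSpace.exp (s • (-A)) * f s) 0 t := by
    intro t
    have h1 : HasDerivAt (fun s : ℝ => NormedSpace.exp (s • (-A)))
      (NormedSpace.exp (t • (-A)) * (-A)) t := hasDerivAt_exp_smul_const (-A) t
    refine (h1.mul (hf' t)).congr_deriv ?_
    rw [Matrix.mul_neg, Matrix.neg_mul, Matrix.mul_assoc]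
    exact neg_add_cancel _
  have hc := is_const_of_deriv_eq_zero (fun t => (hg t).differentiableAt) (fun t => (hg t).deriv) 1 0
  rw [h0, zero_smul, NormedSpace.exp_zero, one_smul, Matrix.mul_one] at hc
  have h2 : NormedSpace.exp A * NormedSpace.exp (-A) = 1 := by
    rw [← Matrix.exp_add_of_commute _ _ ((Commute.refl A).neg_right), add_neg_cancel,
      NormedSpace.exp_zero]
  calc f 1 = NormedSpace.exp A * NormedSpace.exp (-A) * f 1 := by rw [h2, Matrix.one_mul]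
    _ = NormedSpace.exp A := by rw [Matrix.mul_assoc, hc, Matrix.mul_one]

end frob

theorem V01_ball_compact (r : ℝ) : IsCompact {M : Mat N | fsq M ≤ r ^ 2} := V01_ball_compact_aux r

variable {L : LieData N G} (B : Bases L)

theorem b_mem (i : B.J) : B.b i ∈ L.𝔤 := by
  rcases i with i | i
  · exact B.Z_mem i
  · exact B.P_mem i

theorem b_o (i j : B.J) : fip (B.b i) (B.b j) = if i = j then 1 else 0 := by
  rcases i with i | i <;> rcases j with j | j
  · simp only [Bases.b, Sum.elim_inl, Sum.inl.injEq]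
    exact B.Z_o i j
  · simp only [Bases.b, Sum.elim_inl, Sum.elim_inr, reduceCtorEq, if_false]
    exact (P01_orth _ _ (B.Z_t i) (B.P_t j)).1
  · simp only [Bases.b, Sum.elim_inl, Sum.elim_inr, reduceCtorEq, if_false]
    exact (P01_orth _ _ (B.Z_t j) (B.P_t i)).2
  · simp only [Bases.b, Sum.elim_inr, Sum.inr.injEq]
    exact B.P_o i j

theorem b_basis {X : Mat N} (hX : X ∈ L.𝔤) : X = ∑ i, fip (B.b i) X • B.b i := by
  rw [Fintype.sum_sum_type]
  exact B.basis X hX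

theorem co_mem (x : B.J → ℝ) : B.co x ∈ L.𝔤 :=
  L.𝔤.sum_mem fun i _ => L.𝔤.smul_mem _ (b_mem B i)

theorem fip_co (x : B.J → ℝ) (i : B.J) : fip (B.b i) (B.co x) = x i := by
  unfold Bases.co
  rw [V01_fip_sum]
  simp only [P01_fip_smul, b_o, mul_ite, mul_one, mul_zero, Finset.sum_ite_eq, Finset.mem_univ,
    if_true]

theorem V01_parseval {X : Mat N} (hX : X ∈ L.𝔤) (Y : Mat N) :
    fip X Y = ∑ i, fip (B.b i) X * fip (B.b i) Y := by
  rw [V01_fip_comm X Y]
  conv_lhs => rw [b_basis B hX]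
  rw [V01_fip_sum]
  refine Finset.sum_congr rfl fun i _ => ?_
  rw [P01_fip_smul, V01_fip_comm Y]

theorem fsq_coord {X : Mat N} (hX : X ∈ L.𝔤) : fsq X = ∑ i, fip (B.b i) X ^ 2 := by
  unfold fsq
  rw [V01_parseval B hX]
  exact Finset.sum_congr rfl fun i _ => (sq _).symm

theorem fsq_co (x : B.J → ℝ) : fsq (B.co x) = ∑ i, x i ^ 2 := by
  rw [fsq_coord B (co_mem B x)]
  simp only [fip_co]

theorem card_J : Fintype.card B.J = Module.finrank ℝ L.𝔤 := by
  let E : (B.J → ℝ) ≃ₗ[ℝ] L.𝔤 :=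
    { toFun := fun x => ⟨B.co x, co_mem B x⟩
      invFun := fun X i => fip (B.b i) (X : Mat N)
      map_add' := fun x y => by
        apply Subtype.ext
        change B.co (x + y) = B.co x + B.co y
        unfold Bases.co
        rw [← Finset.sum_add_distrib]
        exact Finset.sum_congr rfl fun i _ => by rw [Pi.add_apply, add_smul]
      map_smul' := fun c x => by
        apply Subtype.ext
        change B.co (c • x) = c • B.co x
        unfold Bases.co
        rw [Finset.smul_sum]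
        exact Finset.sum_congr rfl fun i _ => by rw [Pi.smul_apply, smul_eq_mul, mul_smul]
      left_inv := fun x => funext fun i => fip_co B x i
      right_inv := fun X => Subtype.ext (b_basis B X.2).symm }
  rw [← E.finrank_eq, Module.finrank_fintype_fun_eq_card]

theorem fip_ad (X Y W : Mat N) : fip Y (X * W - W * X) = fip (Xᵀ * Y - Y * Xᵀ) W := by
  unfold fip
  rw [Matrix.transpose_sub, Matrix.transpose_mul, Matrix.transpose_mul, Matrix.transpose_transpose,
    Matrix.mul_sub, Matrix.sub_mul, Matrix.trace_sub, Matrix.trace_sub, ← Matrix.mul_assoc,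
    ← Matrix.mul_assoc, Matrix.trace_mul_comm (Yᵀ * W) X, Matrix.mul_assoc X Yᵀ W]

theorem AdM_coord (g : G) {X : Mat N} (hX : X ∈ L.𝔤) (i : B.J) :
    fip (B.b i) (L.ι g * X * L.ι g⁻¹) = ∑ j, AdM B g i j * fip (B.b j) X := by
  conv_lhs => rw [b_basis B hX]
  rw [Finset.mul_sum, Finset.sum_mul, V01_fip_sum]
  refine Finset.sum_congr rfl fun j _ => ?_
  rw [Matrix.mul_smul, Matrix.smul_mul, P01_fip_smul, mul_comm]
  rfl

theorem adM_coord {X Y : Mat N} (hX : X ∈ L.𝔤) (hY : Y ∈ L.𝔤) (i : B.J) :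
    fip (B.b i) (X * Y - Y * X) = ∑ j, adM B X i j * fip (B.b j) Y := by
  have h : X * Y - Y * X = ∑ j, fip (B.b j) Y • (X * B.b j - B.b j * X) := by
    conv_lhs => rw [b_basis B hY]
    rw [Finset.mul_sum, Finset.sum_mul, ← Finset.sum_sub_distrib]
    refine Finset.sum_congr rfl fun j _ => ?_
    rw [Matrix.mul_smul, Matrix.smul_mul, smul_sub]
  rw [h, V01_fip_sum]
  refine Finset.sum_congr rfl fun j _ => ?_
  rw [P01_fip_smul, mul_comm]
  rfl

theorem AdM_one : AdM B (1 : G) = 1 := by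
  ext i j
  change fip (B.b i) (L.ι 1 * B.b j * L.ι 1⁻¹) = _
  rw [inv_one, map_one, Matrix.one_mul, Matrix.mul_one, b_o, Matrix.one_apply]

theorem AdM_mul (g h : G) : AdM B (g * h) = AdM B g * AdM B h := by
  ext i j
  rw [Matrix.mul_apply]
  have h1 := AdM_coord B g (L.ad_mem h _ (b_mem B j)) i
  refine Eq.trans ?_ h1
  change fip (B.b i) (L.ι (g * h) * B.b j * L.ι (g * h)⁻¹) = _
  rw [mul_inv_rev, map_mul, map_mul]
  simp only [Matrix.mul_assoc]

theorem AdM_inv (g : G) : AdM B g * AdM B g⁻¹ = 1 ∧ AdM B g⁻¹ * AdM B g = 1 := by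
  rw [← AdM_mul, ← AdM_mul, mul_inv_cancel, inv_mul_cancel, AdM_one]
  exact ⟨rfl, rfl⟩

theorem AdM_K {k : G} (hk : k ∈ L.K) :
    (AdM B k)ᵀ * AdM B k = 1 ∧ AdM B k * (AdM B k)ᵀ = 1 := by
  have h : (AdM B k)ᵀ * AdM B k = 1 := by
    ext i j
    rw [Matrix.mul_apply, Matrix.one_apply, ← b_o B i j, ← fip_ad_K L hk,
      V01_parseval B (L.ad_mem k _ (b_mem B i))]
    rfl
  exact ⟨h, mul_eq_one_comm.mp h⟩

theorem AdM_cont : Continuous (AdM B) := by
  refine continuous_matrix fun i j => ?_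
  refine V01_fip_cont continuous_const ?_
  exact (L.ι_cont.matrix_mul continuous_const).matrix_mul (L.ι_cont.comp continuous_inv)

theorem AdM_e {X : Mat N} (hX : X ∈ L.𝔤) : AdM B (L.e X) = NormedSpace.exp (adM B X) := by
  have hι : ∀ t : ℝ, L.ι (L.e (t • X)) = NormedSpace.exp (t • X) :=
    fun t => L.ι_e _ (L.𝔤.smul_mem t hX)
  have hι' : ∀ t : ℝ, L.ι (L.e (t • X))⁻¹ = NormedSpace.exp (t • (-X)) := fun t => by
    rw [← e_neg L (L.𝔤.smul_mem t hX), L.ι_e _ (L.𝔤.neg_mem (L.𝔤.smul_mem t hX)), smul_neg]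
  have hA : ∀ (t : ℝ) (i j : B.J), AdM B (L.e (t • X)) i j =
      fip (B.b i) (NormedSpace.exp (t • X) * B.b j * NormedSpace.exp (t • (-X))) := by
    intro t i j
    change fip (B.b i) (L.ι (L.e (t • X)) * B.b j * L.ι (L.e (t • X))⁻¹) = _
    rw [hι, hι']
  have h := V01_ode (adM B X) (fun t => AdM B (L.e (t • X))) (by
    simp only [zero_smul, e_zero, AdM_one]) (by
    intro t i j
    have h1 := V01_deriv_aux (B.b i) (B.b j) X t
    have h2 : (fun s => AdM B (L.e (s • X)) i j) =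
        fun s : ℝ => fip (B.b i) (NormedSpace.exp (s • X) * B.b j * NormedSpace.exp (s • (-X))) :=
      funext fun s => hA s i j
    rw [h2]
    refine h1.congr_deriv ?_
    have h3 : NormedSpace.exp (t • X) * B.b j * NormedSpace.exp (t • (-X)) ∈ L.𝔤 := by
      rw [← hι, ← hι']
      exact L.ad_mem _ _ (b_mem B j)
    rw [adM_coord B hX h3, Matrix.mul_apply]
    exact Finset.sum_congr rfl fun k _ => by rw [hA])
  simpa only [one_smul] using h

theorem adM_add (X Y : Mat N) : adM B (X + Y) = adM B X + adM B Y := by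
  ext i j
  change fip (B.b i) ((X + Y) * B.b j - B.b j * (X + Y)) =
    fip (B.b i) (X * B.b j - B.b j * X) + fip (B.b i) (Y * B.b j - B.b j * Y)
  rw [← P01_fip_add, Matrix.add_mul, Matrix.mul_add]
  congr 1
  abel

theorem adM_smul (t : ℝ) (X : Mat N) : adM B (t • X) = t • adM B X := by
  ext i j
  change fip (B.b i) ((t • X) * B.b j - B.b j * (t • X)) = t * fip (B.b i) (X * B.b j - B.b j * X)
  rw [← P01_fip_smul, Matrix.smul_mul, Matrix.mul_smul, smul_sub]

theorem adM_t (X : Mat N) : (adM B X)ᵀ = adM B Xᵀ := by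
  ext i j
  change fip (B.b j) (X * B.b i - B.b i * X) = fip (B.b i) (Xᵀ * B.b j - B.b j * Xᵀ)
  rw [fip_ad, V01_fip_comm]

theorem adM_lie {X Y : Mat N} (hX : X ∈ L.𝔤) (hY : Y ∈ L.𝔤) :
    adM B (X * Y - Y * X) = adM B X * adM B Y - adM B Y * adM B X := by
  ext i j
  rw [Matrix.sub_apply, Matrix.mul_apply, Matrix.mul_apply]
  have h1 := adM_coord B hX (L.bracket_mem Y hY _ (b_mem B j)) i
  have h2 := adM_coord B hY (L.bracket_mem X hX _ (b_mem B j)) i
  have h3 : ∑ k, adM B X i k * adM B Y k j = ∑ k, adM B X i k *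
    fip (B.b k) (Y * B.b j - B.b j * Y) := rfl
  have h4 : ∑ k, adM B Y i k * adM B X k j = ∑ k, adM B Y i k *
    fip (B.b k) (X * B.b j - B.b j * X) := rfl
  rw [h3, h4, ← h1, ← h2, ← V01_fip_sub]
  change fip (B.b i) ((X * Y - Y * X) * B.b j - B.b j * (X * Y - Y * X)) = _
  congr 1
  noncomm_ring

theorem AdM_conj (g : G) {X : Mat N} (hX : X ∈ L.𝔤) :
    AdM B g * adM B X * AdM B g⁻¹ = adM B (L.ι g * X * L.ι g⁻¹) := by
  have h : AdM B g * adM B X = adM B (L.ι g * X * L.ι g⁻¹) * AdM B g := by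
    ext i j
    rw [Matrix.mul_apply, Matrix.mul_apply]
    have h1 := AdM_coord B g (L.bracket_mem X hX _ (b_mem B j)) i
    have h2 := adM_coord B (L.ad_mem g X hX) (L.ad_mem g _ (b_mem B j)) i
    refine h1.symm.trans (Eq.trans ?_ h2)
    congr 1
    have h3 : L.ι g⁻¹ * L.ι g = 1 := P01_inv_mul L g
    have h4 : ∀ U V : Mat N, L.ι g * U * L.ι g⁻¹ * (L.ι g * V * L.ι g⁻¹) =
        L.ι g * (U * V) * L.ι g⁻¹ := by
      intro U V
      calc L.ι g * U * L.ι g⁻¹ * (L.ι g * V * L.ι g⁻¹)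
          = L.ι g * U * (L.ι g⁻¹ * L.ι g) * (V * L.ι g⁻¹) := by simp only [Matrix.mul_assoc]
        _ = L.ι g * (U * V) * L.ι g⁻¹ := by
          rw [h3, Matrix.mul_one]
          simp only [Matrix.mul_assoc]
    rw [h4, h4, ← Matrix.sub_mul, ← Matrix.mul_sub]
  rw [h, Matrix.mul_assoc, (AdM_inv B g).1, Matrix.mul_one]

theorem tr_adM (X : Mat N) : (adM B X).trace = 0 := by
  rw [Matrix.trace]
  refine Finset.sum_eq_zero fun i _ => ?_
  rw [Matrix.diag_apply]
  change fip (B.b i) (X * B.b i - B.b i * X) = 0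
  have h1 : B.b i * (B.b i)ᵀ = (B.b i)ᵀ * B.b i := by
    rcases i with i | i
    · have h : (B.b (Sum.inl i))ᵀ = -B.b (Sum.inl i) := B.Z_t i
      rw [h, Matrix.mul_neg, Matrix.neg_mul]
    · have h : (B.b (Sum.inr i))ᵀ = B.b (Sum.inr i) := B.P_t i
      rw [h]
  unfold fip
  rw [Matrix.mul_sub, Matrix.trace_sub, ← Matrix.mul_assoc, ← Matrix.mul_assoc,
    Matrix.trace_mul_comm ((B.b i)ᵀ * X), ← Matrix.mul_assoc, h1, sub_self]

theorem V01_adM_cont : Continuous fun X : Mat N => ∑ i, ∑ j, adM B X i j ^ 2 := by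
  refine continuous_finsetSum _ fun i _ => continuous_finsetSum _ fun j _ => ?_
  refine Continuous.pow ?_ 2
  refine V01_fip_cont continuous_const ?_
  exact (continuous_id.matrix_mul continuous_const).sub (continuous_const.matrix_mul continuous_id)

theorem adM_pos : ∃ c : ℝ, 0 < c ∧ ∀ X ∈ L.𝔤, Xᵀ = X → c * fsq X ≤ ∑ i, ∑ j, adM B X i j ^ 2 := by
  set F : Mat N → ℝ := fun X => ∑ i, ∑ j, adM B X i j ^ 2 with hF
  have hF0 : ∀ X, 0 ≤ F X := fun X =>
    Finset.sum_nonneg fun i _ => Finset.sum_nonneg fun j _ => sq_nonneg _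
  have hFs : ∀ (t : ℝ) X, F (t • X) = t ^ 2 * F X := by
    intro t X
    simp only [hF, adM_smul, Matrix.smul_apply, smul_eq_mul, mul_pow, Finset.mul_sum]
  have hFp : ∀ X ∈ L.𝔤, Xᵀ = X → X ≠ 0 → 0 < F X := by
    intro X hX ht h0
    refine lt_of_le_of_ne (hF0 X) fun h => ?_
    obtain ⟨Z, hZ, -, hne⟩ := L.ss X hX ht h0
    have hz : ∀ i j, adM B X i j = 0 := by
      intro i j
      have h1 := (Finset.sum_eq_zero_iff_of_nonneg
        (fun i _ => Finset.sum_nonneg fun j _ => sq_nonneg _)).1 h.symm i (Finset.mem_univ _)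
      have h2 := (Finset.sum_eq_zero_iff_of_nonneg
        (fun j _ => sq_nonneg _)).1 h1 j (Finset.mem_univ _)
      exact pow_eq_zero_iff (two_ne_zero) |>.1 h2
    apply hne
    rw [← sub_eq_zero, b_basis B (L.bracket_mem X hX Z hZ)]
    refine Finset.sum_eq_zero fun i _ => ?_
    rw [adM_coord B hX hZ i]
    simp only [hz, zero_mul, Finset.sum_const_zero, zero_smul]
  set S : Set (Mat N) := {X | X ∈ L.𝔤 ∧ Xᵀ = X ∧ fsq X = 1} with hS
  have hSc : IsCompact S := by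
    refine IsCompact.of_isClosed_subset (V01_ball_compact (N := N) 1) ?_ ?_
    · refine IsClosed.inter (Submodule.closed_of_finiteDimensional L.𝔤) (IsClosed.inter ?_ ?_)
      · exact isClosed_eq (continuous_id.matrix_transpose) continuous_id
      · exact isClosed_eq (V01_fip_cont continuous_id continuous_id) continuous_const
    · intro X hX
      change fsq X ≤ 1 ^ 2
      rw [hX.2.2, one_pow]
  have hcase : ∃ c : ℝ, 0 < c ∧ ∀ X ∈ S, c ≤ F X := by
    rcases S.eq_empty_or_nonempty with h | h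
    · exact ⟨1, one_pos, fun X hX => by rw [h] at hX; exact hX.elim⟩
    · obtain ⟨X0, h0, hm⟩ := hSc.exists_isMinOn h (V01_adM_cont B).continuousOn
      refine ⟨F X0, hFp X0 h0.1 h0.2.1 ?_, fun X hX => hm hX⟩
      rintro rfl
      have h1 := h0.2.2
      unfold fsq at h1
      rw [V01_fip_zero] at h1
      exact zero_ne_one h1
  obtain ⟨c, hc, hcS⟩ := hcase
  refine ⟨c, hc, fun X hX ht => ?_⟩
  change c * fsq X ≤ F X
  rcases (V01_fsq_nonneg X).eq_or_lt with h | h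
  · rw [← h, mul_zero]
    exact hF0 X
  · set r := Real.sqrt (fsq X) with hr
    have hr0 : 0 < r := Real.sqrt_pos.2 h
    have hr2 : r ^ 2 = fsq X := Real.sq_sqrt h.le
    have hm : r⁻¹ • X ∈ S := by
      refine ⟨L.𝔤.smul_mem _ hX, ?_, ?_⟩
      · rw [Matrix.transpose_smul, ht]
      · rw [V01_fsq_smul, ← hr2]
        field_simp
    have h1 := hcS _ hm
    rw [hFs, inv_pow, hr2] at h1
    have h2 := mul_le_mul_of_nonneg_right h1 h.le
    rwa [mul_comm (fsq X)⁻¹, mul_assoc, inv_mul_cancel₀ h.ne', mul_one] at h2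

theorem adM_le : ∃ C : ℝ, 0 < C ∧ ∀ X : Mat N, ∑ i, ∑ j, adM B X i j ^ 2 ≤ C * fsq X := by
  refine ⟨4 * (Fintype.card B.J : ℝ) ^ 2 + 1, by positivity, fun X => ?_⟩
  have hb : ∀ i, fsq (B.b i) = 1 := fun i => by
    unfold fsq
    rw [b_o, if_pos rfl]
  have h1 : ∀ i j, adM B X i j ^ 2 ≤ 4 * fsq X := by
    intro i j
    have h := V01_cs (B.b i) (X * B.b j - B.b j * X)
    rw [hb, one_mul] at h
    have h2 := V01_fsq_sub_le (X * B.b j) (B.b j * X)
    have h3 := V01_fsq_mul_le X (B.b j)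
    have h4 := V01_fsq_mul_le (B.b j) X
    rw [hb] at h3 h4
    change fip (B.b i) (X * B.b j - B.b j * X) ^ 2 ≤ _
    linarith
  calc ∑ i, ∑ j, adM B X i j ^ 2 ≤ ∑ _i : B.J, ∑ _j : B.J, 4 * fsq X :=
        Finset.sum_le_sum fun i _ => Finset.sum_le_sum fun j _ => h1 i j
    _ = 4 * (Fintype.card B.J : ℝ) ^ 2 * fsq X := by
        simp only [Finset.sum_const, Finset.card_univ, nsmul_eq_mul]
        ring
    _ ≤ (4 * (Fintype.card B.J : ℝ) ^ 2 + 1) * fsq X := by
        nlinarith [V01_fsq_nonneg X]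

end SBD
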