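import Pool.Agent.SBX.V02

/-!
# Row SBX-V03 : diagonalisation of `ad X`, `X ∈ 𝔭`

(a) `diag_ad` : the real symmetric matrix `adM X` is `Q diag(a) Qᵀ` with `Q` orthogonal
(`Matrix.IsHermitian.spectral_theorem`), so `AdM(e(tX)) = exp(t adM X) = Q diag(e^{ta}) Qᵀ`
(`Matrix.exp_conj`, `Matrix.exp_diagonal`), `∑ a_i = tr adM X = 0`, and
`dl(e X)² = det(1 + exp(2 adM X)) = ∏ (1 + e^{2a_i}) ≥ ∏_{a_i > 0} e^{2a_i} = e^{∑|a_i|}` (since
`∑_{a_i>0} a_i = ½∑|a_i|`), and `≤ ∏ 2 max(1,e^{2a_i}) = 2^{card} e^{∑|a_i|}`.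
(b) `str` : for `Z ∈ 𝔨`, `[X,Z] ∈ 𝔭` and `[X,[X,Z]] ∈ 𝔨`, and `S = (ad X)²|_𝔨` is symmetric and positive
semidefinite for `fip` (`fip([X,[X,Z]],Z') = fip([X,Z],[X,Z'])`, `fip_ad`).  Let `E_j` be an orthonormal
eigenbasis of `𝔨`, `[X,[X,E_j]] = α_j² E_j`, `α_j ≥ 0` (so `|[X,E_j]| = α_j`, and the `[X,E_j]` are pairwise
orthogonal).  Then `exp(X)E_jexp(-X) = ∑ (ad X)^n E_j/n! = cosh(α_j) E_j + F_j`,
`F_j = (sinh(α_j)/α_j) [X,E_j] ∈ 𝔭` (`F_j = 0` if `α_j = 0`), `|F_j| = sinh α_j`, so
`fsq(exp(X)(∑z_jE_j)exp(-X)) = ∑ z_j²(cosh² α_j + sinh² α_j) = ∑ cosh(2α_j) z_j²`.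
For the last claim: the multiset of the `|a_i|` of (a) is each `α_j` (`α_j > 0`) twice and zeros:
`(E_j ± [X,E_j]/α_j)/√2` are orthonormal eigenvectors of `ad X` with eigenvalues `±α_j`, and `ad X = 0` on
the orthogonal complement of all `E_j`, `[X,E_j]` (for `P ∈ 𝔭` orthogonal to all `[X,E_j]`: `[X,P] ∈ 𝔨` and
`fip([X,P],E_j) = fip(P,[X,E_j]) = 0`).  So `∑|a_i| = 2∑α_j` (it suffices to know the trace:
`∑ |a_i| = tr |ad X|`, `|ad X|` computed in this orthonormal basis; or count eigenvalues through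
`det(1 + exp(2 adM X))` computed in this basis: `∏_{α_j>0}(1+e^{2α_j})(1+e^{-2α_j}) · 2^{#rest}
≤ 2^{m+n} e^{2∑α_j}`).  Hence `dl(e X) ≤ 2^{m+n} e^{∑α_j}`.
-/

open MeasureTheory Filter Topology
open scoped ENNReal NNReal Matrix

noncomputable section

namespace SBD

variable {N : ℕ} {G : Type} [Group G] [TopologicalSpace G] [IsTopologicalGroup G]
  [LocallyCompactSpace G] [T2Space G]

variable {L : LieData N G} (B : Bases L)

section V03aux

variable {κ : Type} [Fintype κ] [DecidableEq κ]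

private theorem V03_spec (M : Matrix κ κ ℝ) (hM : Mᵀ = M) :
    ∃ (Q : Matrix κ κ ℝ) (a : κ → ℝ), Q * Qᵀ = 1 ∧ Qᵀ * Q = 1 ∧
      M = Q * Matrix.diagonal a * Qᵀ ∧
      ∀ t : ℝ, NormedSpace.exp (t • M) = Q * Matrix.diagonal (fun i => Real.exp (t * a i)) * Qᵀ := by
  have hH : M.IsHermitian := by
    rw [Matrix.IsHermitian, Matrix.conjTranspose_eq_transpose_of_trivial, hM]
  have h1 := hH.spectral_theorem
  set U : Matrix κ κ ℝ := (hH.eigenvectorUnitary : Matrix κ κ ℝ) with hU
  have hUU : U * Uᵀ = 1 := by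
    have := Matrix.mem_unitaryGroup_iff.1 hH.eigenvectorUnitary.2
    simpa [Matrix.star_eq_conjTranspose, Matrix.conjTranspose_eq_transpose_of_trivial] using this
  have hUU' : Uᵀ * U = 1 := by
    have := Matrix.mem_unitaryGroup_iff'.1 hH.eigenvectorUnitary.2
    simpa [Matrix.star_eq_conjTranspose, Matrix.conjTranspose_eq_transpose_of_trivial] using this
  have h2 : M = U * Matrix.diagonal hH.eigenvalues * Uᵀ := by
    rw [Unitary.conjStarAlgAut_apply] at h1
    simpa [Matrix.star_eq_conjTranspose, Matrix.conjTranspose_eq_transpose_of_trivial,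
      Function.comp_def] using h1
  have hinv : U⁻¹ = Uᵀ := Matrix.inv_eq_right_inv hUU
  have hunit : IsUnit U := by
    rw [Matrix.isUnit_iff_isUnit_det]
    exact Matrix.isUnit_det_of_right_inverse hUU
  refine ⟨U, hH.eigenvalues, hUU, hUU', h2, fun t => ?_⟩
  have h3 : t • M = U * Matrix.diagonal (t • hH.eigenvalues) * U⁻¹ := by
    conv_lhs => rw [h2]
    rw [hinv, Matrix.diagonal_smul, Matrix.mul_smul, Matrix.smul_mul]
  rw [h3, Matrix.exp_conj U _ hunit, Matrix.exp_diagonal, hinv]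
  congr 2
  congr 1
  ext i
  rw [Real.exp_eq_exp_ℝ]
  exact Pi.coe_exp _ i

private theorem V03_conj_mul {Q : Matrix κ κ ℝ} (h : Qᵀ * Q = 1) (a b : κ → ℝ) :
    Q * Matrix.diagonal a * Qᵀ * (Q * Matrix.diagonal b * Qᵀ) =
      Q * Matrix.diagonal (fun i => a i * b i) * Qᵀ := by
  calc Q * Matrix.diagonal a * Qᵀ * (Q * Matrix.diagonal b * Qᵀ)
      = Q * Matrix.diagonal a * (Qᵀ * Q) * Matrix.diagonal b * Qᵀ := by
        simp only [Matrix.mul_assoc]
    _ = _ := by
        rw [h, Matrix.mul_one, Matrix.mul_assoc Q, Matrix.diagonal_mul_diagonal]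

private theorem V03_conj_t (Q : Matrix κ κ ℝ) (a : κ → ℝ) :
    (Q * Matrix.diagonal a * Qᵀ)ᵀ = Q * Matrix.diagonal a * Qᵀ := by
  rw [Matrix.transpose_mul, Matrix.transpose_mul, Matrix.transpose_transpose,
    Matrix.diagonal_transpose, Matrix.mul_assoc]

private theorem V03_conj_tr {Q : Matrix κ κ ℝ} (h : Qᵀ * Q = 1) (a : κ → ℝ) :
    (Q * Matrix.diagonal a * Qᵀ).trace = ∑ i, a i := by
  rw [Matrix.mul_assoc, Matrix.trace_mul_comm, Matrix.mul_assoc, h, Matrix.mul_one,
    Matrix.trace_diagonal]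

private theorem V03_conj_det {Q : Matrix κ κ ℝ} (h : Q * Qᵀ = 1) (a : κ → ℝ) :
    (Q * Matrix.diagonal a * Qᵀ).det = ∏ i, a i := by
  rw [Matrix.det_mul, Matrix.det_mul, mul_comm Q.det, mul_assoc, ← Matrix.det_mul, h,
    Matrix.det_one, mul_one, Matrix.det_diagonal]

private theorem V03_fun {μ : Type} [Fintype μ] [DecidableEq μ] {Q : Matrix κ κ ℝ}
    (h : Q * Qᵀ = 1) (h' : Qᵀ * Q = 1) (a : κ → ℝ)
    (W : Matrix κ μ ℝ) (α : μ → ℝ)
    (hW : Q * Matrix.diagonal (fun i => a i * a i) * Qᵀ * W = W * Matrix.diagonal fun j => α j * α j)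
    (f : ℝ → ℝ) (hf : ∀ x y, x * x = y * y → f x = f y) :
    Q * Matrix.diagonal (fun i => f (a i)) * Qᵀ * W = W * Matrix.diagonal fun j => f (α j) := by
  have h1 : Matrix.diagonal (fun i => a i * a i) * (Qᵀ * W) =
      (Qᵀ * W) * Matrix.diagonal fun j => α j * α j := by
    calc Matrix.diagonal (fun i => a i * a i) * (Qᵀ * W)
        = (Qᵀ * Q) * Matrix.diagonal (fun i => a i * a i) * Qᵀ * W := by
          rw [h', Matrix.one_mul, Matrix.mul_assoc]
      _ = Qᵀ * (Q * Matrix.diagonal (fun i => a i * a i) * Qᵀ * W) := by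
          simp only [Matrix.mul_assoc]
      _ = _ := by rw [hW, Matrix.mul_assoc]
  have h2 : Matrix.diagonal (fun i => f (a i)) * (Qᵀ * W) =
      (Qᵀ * W) * Matrix.diagonal fun j => f (α j) := by
    ext i j
    have h3 := congrFun (congrFun h1 i) j
    rw [Matrix.diagonal_mul, Matrix.mul_diagonal] at h3 ⊢
    by_cases hz : (Qᵀ * W) i j = 0
    · rw [hz, mul_zero, zero_mul]
    · have h4 : a i * a i = α j * α j := by
        have h5 : (a i * a i - α j * α j) * (Qᵀ * W) i j = 0 := by linear_combination h3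
        rcases mul_eq_zero.1 h5 with h6 | h6
        · linarith
        · exact absurd h6 hz
      rw [hf _ _ h4, mul_comm]
  calc Q * Matrix.diagonal (fun i => f (a i)) * Qᵀ * W
      = Q * (Matrix.diagonal (fun i => f (a i)) * (Qᵀ * W)) := by simp only [Matrix.mul_assoc]
    _ = (Q * Qᵀ) * W * Matrix.diagonal fun j => f (α j) := by
        rw [h2]; simp only [Matrix.mul_assoc]
    _ = _ := by rw [h, Matrix.one_mul]

end V03aux

theorem diag_ad {X : Mat N} (hX : X ∈ L.𝔤) (ht : Xᵀ = X) :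
    ∃ (Q : Matrix B.J B.J ℝ) (a : B.J → ℝ), Q * Qᵀ = 1 ∧ Qᵀ * Q = 1 ∧
      adM B X = Q * Matrix.diagonal a * Qᵀ ∧
      (∀ t : ℝ, AdM B (L.e (t • X)) = Q * Matrix.diagonal (fun i => Real.exp (t * a i)) * Qᵀ) ∧
      ∑ i, a i = 0 ∧ Real.exp ((∑ i, |a i|) / 2) ≤ dl B (L.e X) ∧
      dl B (L.e X) ≤ 2 ^ (B.m + B.n) * Real.exp ((∑ i, |a i|) / 2) := by
  obtain ⟨Q, a, hQ, hQ', hM, hexp⟩ := V03_spec (adM B X) (by rw [adM_t, ht])
  have hAd : ∀ t : ℝ, AdM B (L.e (t • X)) =
      Q * Matrix.diagonal (fun i => Real.exp (t * a i)) * Qᵀ := by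
    intro t
    rw [AdM_e B (L.𝔤.smul_mem t hX), adM_smul, hexp]
  have hsum : ∑ i, a i = 0 := by
    rw [← V03_conj_tr hQ' a, ← hM, tr_adM]
  have hA : AdM B (L.e X) = Q * Matrix.diagonal (fun i => Real.exp (a i)) * Qᵀ := by
    have h1 := hAd 1
    simpa using h1
  have hsq : dl B (L.e X) ^ 2 = ∏ i, (1 + Real.exp (a i) * Real.exp (a i)) := by
    rw [dl_sq, hA, V03_conj_t, V03_conj_mul hQ']
    have h2 : (1 : Matrix B.J B.J ℝ) + Q * Matrix.diagonal (fun i => Real.exp (a i) * Real.exp (a i)) * Qᵀ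
        = Q * Matrix.diagonal (fun i => 1 + Real.exp (a i) * Real.exp (a i)) * Qᵀ := by
      have h3 : (Matrix.diagonal (fun i => 1 + Real.exp (a i) * Real.exp (a i)) : Matrix B.J B.J ℝ) =
          1 + Matrix.diagonal (fun i => Real.exp (a i) * Real.exp (a i)) := by
        rw [← Matrix.diagonal_one, Matrix.diagonal_add]
      rw [h3, Matrix.mul_add, Matrix.add_mul, Matrix.mul_one, hQ]
    rw [h2, V03_conj_det hQ]
  have hdl0 : 0 ≤ dl B (L.e X) := zero_le_one.trans (one_le_dl B _)
  have hE : ∏ i, Real.exp (a i + |a i|) = Real.exp ((∑ i, |a i|) / 2) ^ 2 := by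
    rw [← Real.exp_sum, Finset.sum_add_distrib, hsum, zero_add, ← Real.exp_nat_mul]
    congr 1
    push_cast
    ring
  refine ⟨Q, a, hQ, hQ', hM, hAd, hsum, ?_, ?_⟩
  · have h4 : Real.exp ((∑ i, |a i|) / 2) ^ 2 ≤ dl B (L.e X) ^ 2 := by
      rw [hsq, ← hE]
      refine Finset.prod_le_prod (fun i _ => (Real.exp_pos _).le) fun i _ => ?_
      rw [← Real.exp_add]
      rcases le_total 0 (a i) with h | h
      · rw [abs_of_nonneg h]
        linarith
      · rw [abs_of_nonpos h, add_neg_cancel, Real.exp_zero]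
        linarith [Real.exp_pos (a i + a i)]
    exact (abs_le_of_sq_le_sq' h4 hdl0).2
  · have h5 : dl B (L.e X) ^ 2 ≤ (2 ^ (B.m + B.n) * Real.exp ((∑ i, |a i|) / 2)) ^ 2 := by
      rw [hsq, mul_pow, ← hE]
      have hcard : (Fintype.card B.J) = B.m + B.n := by
        simp [Bases.J]
      calc ∏ i, (1 + Real.exp (a i) * Real.exp (a i))
          ≤ ∏ i, (2 * Real.exp (a i + |a i|)) := by
            refine Finset.prod_le_prod (fun i _ => by positivity) fun i _ => ?_
            rw [← Real.exp_add]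
            rcases le_total 0 (a i) with h | h
            · rw [abs_of_nonneg h]
              have := Real.one_le_exp (show (0 : ℝ) ≤ a i + a i by linarith)
              linarith
            · rw [abs_of_nonpos h, add_neg_cancel, Real.exp_zero]
              have := Real.exp_le_one_iff.2 (show a i + a i ≤ 0 by linarith)
              linarith
        _ = 2 ^ (B.m + B.n) * ∏ i, Real.exp (a i + |a i|) := by
            rw [Finset.prod_mul_distrib, Finset.prod_const, Finset.card_univ, hcard]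
        _ ≤ (2 ^ (B.m + B.n)) ^ 2 * ∏ i, Real.exp (a i + |a i|) := by
            refine mul_le_mul_of_nonneg_right ?_ (Finset.prod_nonneg fun i _ => (Real.exp_pos _).le)
            have h6 : (1 : ℝ) ≤ 2 ^ (B.m + B.n) := one_le_pow₀ (by norm_num)
            nlinarith
    exact (abs_le_of_sq_le_sq' h5 (by positivity)).2

private theorem V03_fip_sum_right {μ : Type} [Fintype μ] (A : Mat N) (c : μ → ℝ) (F : μ → Mat N) :
    fip A (∑ i, c i • F i) = ∑ i, c i * fip A (F i) := by
  unfold fip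
  rw [Matrix.mul_sum, Matrix.trace_sum]
  refine Finset.sum_congr rfl fun i _ => ?_
  rw [Matrix.mul_smul, Matrix.trace_smul, smul_eq_mul]

private theorem V03_fip_sum_left {μ : Type} [Fintype μ] (c : μ → ℝ) (F : μ → Mat N) (A : Mat N) :
    fip (∑ i, c i • F i) A = ∑ i, c i * fip (F i) A := by
  unfold fip
  rw [Matrix.transpose_sum, Matrix.sum_mul, Matrix.trace_sum]
  refine Finset.sum_congr rfl fun i _ => ?_
  rw [Matrix.transpose_smul, Matrix.smul_mul, Matrix.trace_smul, smul_eq_mul]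

private theorem V03_fip_sum {μ : Type} [Fintype μ] (c d : μ → ℝ) (F : μ → Mat N) :
    fip (∑ i, c i • F i) (∑ i, d i • F i) = ∑ i, c i * ∑ j, d j * fip (F i) (F j) := by
  rw [V03_fip_sum_left]
  refine Finset.sum_congr rfl fun i _ => ?_
  rw [V03_fip_sum_right]

private def V03_T (B : Bases L) : Matrix B.J B.J ℝ := Matrix.diagonal (Sum.elim (fun _ => 1) (fun _ => -1))

private theorem V03_block {X : Mat N} (ht : Xᵀ = X) :
    (∀ i j : Fin B.m, adM B X (Sum.inl i) (Sum.inl j) = 0) ∧
    (∀ i j : Fin B.n, adM B X (Sum.inr i) (Sum.inr j) = 0) := by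
  constructor
  · intro i j
    have h1 : fip (B.Z i) (X * B.Z j - B.Z j * X) = - fip (B.Z i) (X * B.Z j - B.Z j * X) := by
      unfold fip
      conv_lhs => rw [← Matrix.trace_transpose]
      rw [Matrix.transpose_mul, Matrix.transpose_sub, Matrix.transpose_mul, Matrix.transpose_mul,
        Matrix.transpose_transpose, B.Z_t, ht, B.Z_t, Matrix.trace_mul_comm]
      rw [← Matrix.trace_neg]
      congr 1
      noncomm_ring
    have h2 : adM B X (Sum.inl i) (Sum.inl j) = fip (B.Z i) (X * B.Z j - B.Z j * X) := rfl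
    rw [h2]
    linarith
  · intro i j
    have h1 : fip (B.P i) (X * B.P j - B.P j * X) = - fip (B.P i) (X * B.P j - B.P j * X) := by
      unfold fip
      conv_lhs => rw [← Matrix.trace_transpose]
      rw [Matrix.transpose_mul, Matrix.transpose_sub, Matrix.transpose_mul, Matrix.transpose_mul,
        Matrix.transpose_transpose, B.P_t, ht, B.P_t, Matrix.trace_mul_comm]
      rw [← Matrix.trace_neg]
      congr 1
      noncomm_ring
    have h2 : adM B X (Sum.inr i) (Sum.inr j) = fip (B.P i) (X * B.P j - B.P j * X) := rfl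
    rw [h2]
    linarith

private theorem V03_TM {X : Mat N} (ht : Xᵀ = X) :
    V03_T B * adM B X = - (adM B X * V03_T B) := by
  obtain ⟨h1, h2⟩ := V03_block B ht
  ext i j
  rw [Matrix.neg_apply]
  unfold V03_T
  rw [Matrix.diagonal_mul, Matrix.mul_diagonal]
  rcases i with i | i <;> rcases j with j | j
  · rw [h1]; simp
  · simp
  · simp
  · rw [h2]; simp

private theorem V03_TT : V03_T B * V03_T B = 1 := by
  unfold V03_T
  rw [Matrix.diagonal_mul_diagonal, ← Matrix.diagonal_one]
  congr 1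
  ext i
  rcases i with i | i <;> simp

theorem str {X : Mat N} (hX : X ∈ L.𝔤) (ht : Xᵀ = X) :
    ∃ (E : Fin B.m → Mat N) (a : Fin B.m → ℝ), IsKBasis L E ∧ (∀ j, 0 ≤ a j) ∧
      (∀ z : Fin B.m → ℝ, fsq (NormedSpace.exp X * (∑ j, z j • E j) * NormedSpace.exp (-X)) =
        ∑ j, Real.cosh (2 * a j) * z j ^ 2) ∧
      dl B (L.e X) ≤ 2 ^ (B.m + B.n) * Real.exp (∑ j, a j) := by
  obtain ⟨Q, a, hQ, hQ', hM, hAd, hsum, hlo, hup⟩ := diag_ad B hX ht
  obtain ⟨hb1, hb2⟩ := V03_block B ht
  set M := adM B X with hMdef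
  have hMt : Mᵀ = M := by rw [hMdef, adM_t, ht]
  let S : Matrix (Fin B.m) (Fin B.m) ℝ := fun i j => (M * M) (Sum.inl i) (Sum.inl j)
  have hSt : Sᵀ = S := by
    ext i j
    have h1 : (M * M)ᵀ = M * M := by rw [Matrix.transpose_mul, hMt]
    exact congrFun (congrFun h1 (Sum.inl i)) (Sum.inl j)
  obtain ⟨R, s, hR, hR', hS, -⟩ := V03_spec S hSt
  let W : Matrix B.J (Fin B.m) ℝ := fun x j => Sum.elim (fun i => R i j) (fun _ => 0) x
  have hWl : ∀ i j, W (Sum.inl i) j = R i j := fun i j => rfl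
  have hWr : ∀ i j, W (Sum.inr i) j = 0 := fun i j => rfl
  have hWW : Wᵀ * W = 1 := by
    rw [← hR']
    ext i j
    rw [Matrix.mul_apply, Matrix.mul_apply, Fintype.sum_sum_type]
    simp only [Matrix.transpose_apply, hWl, hWr, mul_zero, Finset.sum_const_zero, add_zero]
  have hWW2 : (2 : ℝ) • (W * Wᵀ) = 1 + V03_T B := by
    ext x y
    rw [Matrix.smul_apply, Matrix.mul_apply, Matrix.add_apply]
    unfold V03_T
    rcases x with i | i <;> rcases y with j | j
    · have h2 := congrFun (congrFun hR i) j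
      rw [Matrix.mul_apply] at h2
      simp only [Matrix.transpose_apply, hWl] at h2 ⊢
      rw [h2]
      by_cases hij : i = j
      · subst hij
        simp
        norm_num
      · have hij' : (Sum.inl i : B.J) ≠ Sum.inl j := fun h => hij (Sum.inl.inj h)
        rw [Matrix.one_apply_ne hij, Matrix.one_apply_ne hij', Matrix.diagonal_apply_ne _ hij']
        simp
    · have hij' : (Sum.inl i : B.J) ≠ Sum.inr j := by simp
      rw [Matrix.one_apply_ne hij', Matrix.diagonal_apply_ne _ hij']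
      simp [hWr]
    · have hij' : (Sum.inr i : B.J) ≠ Sum.inl j := by simp
      rw [Matrix.one_apply_ne hij', Matrix.diagonal_apply_ne _ hij']
      simp [hWr]
    · simp only [Matrix.transpose_apply, hWr, mul_zero, Finset.sum_const_zero, smul_zero]
      by_cases hij : i = j
      · subst hij
        simp
      · have hij' : (Sum.inr i : B.J) ≠ Sum.inr j := fun h => hij (Sum.inr.inj h)
        rw [Matrix.one_apply_ne hij', Matrix.diagonal_apply_ne _ hij']
        simp
  have hTW : V03_T B * W = W := by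
    ext x j
    unfold V03_T
    rw [Matrix.diagonal_mul]
    rcases x with i | i
    · simp
    · simp [hWr]
  have hMMW0 : M * M * W = W * Matrix.diagonal s := by
    ext x j
    rw [Matrix.mul_diagonal, Matrix.mul_apply, Fintype.sum_sum_type]
    simp only [hWl, hWr, mul_zero, Finset.sum_const_zero, add_zero]
    rcases x with i | i
    · have h3 : S * R = R * Matrix.diagonal s := by
        rw [hS, Matrix.mul_assoc, hR', Matrix.mul_one]
      have h4 := congrFun (congrFun h3 i) j
      rw [Matrix.mul_diagonal, Matrix.mul_apply] at h4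
      exact h4
    · rw [hWr, zero_mul]
      refine Finset.sum_eq_zero fun k _ => ?_
      have h5 : (M * M) (Sum.inr i) (Sum.inl k) = 0 := by
        rw [Matrix.mul_apply, Fintype.sum_sum_type]
        simp only [hb1, hb2, mul_zero, zero_mul, Finset.sum_const_zero, add_zero]
      rw [h5, zero_mul]
  have hs0 : ∀ j, 0 ≤ s j := by
    intro j
    have h6 : Wᵀ * (M * M * W) = Matrix.diagonal s := by
      rw [hMMW0, ← Matrix.mul_assoc, hWW, Matrix.one_mul]
    have h7 : Wᵀ * (M * M * W) = (M * W)ᵀ * (M * W) := by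
      rw [Matrix.transpose_mul, hMt]
      simp only [Matrix.mul_assoc]
    have h8 := congrFun (congrFun (h7.symm.trans h6) j) j
    rw [Matrix.diagonal_apply_eq, Matrix.mul_apply] at h8
    rw [← h8]
    exact Finset.sum_nonneg fun x _ => mul_self_nonneg _
  set α : Fin B.m → ℝ := fun j => Real.sqrt (s j) with hα
  have hMMW : Q * Matrix.diagonal (fun i => a i * a i) * Qᵀ * W =
      W * Matrix.diagonal fun j => α j * α j := by
    rw [← V03_conj_mul hQ', ← hM, hMMW0]
    congr 2
    ext j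
    exact (Real.mul_self_sqrt (hs0 j)).symm
  refine ⟨fun j => ∑ i, R i j • B.Z i, α, ⟨?_, ?_, ?_⟩, fun j => Real.sqrt_nonneg _, ?_, ?_⟩
  · intro j
    refine ⟨L.𝔤.sum_mem fun i _ => L.𝔤.smul_mem _ (B.Z_mem i), ?_⟩
    rw [Matrix.transpose_sum, ← Finset.sum_neg_distrib]
    refine Finset.sum_congr rfl fun i _ => ?_
    rw [Matrix.transpose_smul, B.Z_t, smul_neg]
  · intro i j
    have h9 := congrFun (congrFun hR' i) j
    rw [Matrix.mul_apply] at h9
    rw [V03_fip_sum]
    simp only [B.Z_o, mul_ite, mul_one, mul_zero, Finset.sum_ite_eq, Finset.mem_univ, if_true]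
    simp only [Matrix.transpose_apply] at h9
    rw [h9, Matrix.one_apply]
  · intro X0 hX0 hX0t
    have h10 := B.basis X0 hX0
    have h11 : ∀ i, fip (B.P i) X0 = 0 := by
      intro i
      have h12 : fip (B.P i) X0 = - fip (B.P i) X0 := by
        unfold fip
        conv_lhs => rw [← Matrix.trace_transpose]
        rw [Matrix.transpose_mul, Matrix.transpose_transpose, hX0t, B.P_t, Matrix.neg_mul,
          Matrix.trace_neg, Matrix.trace_mul_comm]
      linarith
    simp only [h11, zero_smul, Finset.sum_const_zero, add_zero] at h10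
    have h13 : ∀ j, fip (∑ i, R i j • B.Z i) X0 = ∑ k, R k j * fip (B.Z k) X0 := fun j =>
      V03_fip_sum_left _ _ _
    conv_lhs => rw [h10]
    simp only [h13, Finset.smul_sum, smul_smul]
    rw [Finset.sum_comm]
    refine Finset.sum_congr rfl fun i _ => ?_
    rw [← Finset.sum_smul]
    congr 1
    simp only [Finset.sum_mul]
    rw [Finset.sum_comm]
    have h14 : ∀ k, ∑ j, R k j * fip (B.Z k) X0 * R i j = fip (B.Z k) X0 * (if k = i then 1 else 0) := by
      intro k
      have h15 := congrFun (congrFun hR k) i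
      rw [Matrix.mul_apply, Matrix.one_apply] at h15
      rw [← h15, Finset.mul_sum]
      refine Finset.sum_congr rfl fun j _ => ?_
      rw [Matrix.transpose_apply]
      ring
    simp only [h14, mul_ite, mul_one, mul_zero, Finset.sum_ite_eq', Finset.mem_univ, if_true]
  · intro z
    set Y : Mat N := ∑ j, z j • ∑ i, R i j • B.Z i with hY
    have hYm : Y ∈ L.𝔤 := L.𝔤.sum_mem fun j _ => L.𝔤.smul_mem _
      (L.𝔤.sum_mem fun i _ => L.𝔤.smul_mem _ (B.Z_mem i))
    have h1 : NormedSpace.exp X * Y * NormedSpace.exp (-X) =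
        L.ι (L.e X) * Y * L.ι (L.e X)⁻¹ := by
      have h2 : L.ι (L.e X)⁻¹ = NormedSpace.exp (-X) := by
        rw [Matrix.exp_neg, ← L.ι_e X hX]
        symm
        apply Matrix.inv_eq_left_inv
        rw [← map_mul, inv_mul_cancel, map_one]
      rw [h2, L.ι_e X hX]
    have hy : ∀ x : B.J, fip (B.b x) Y = (W.mulVec z) x := by
      intro x
      have h3 : fip (B.b x) Y = ∑ j, z j * ∑ i, R i j * fip (B.b x) (B.Z i) := by
        rw [hY, V03_fip_sum_right]
        refine Finset.sum_congr rfl fun j _ => ?_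
        rw [V03_fip_sum_right]
      rw [h3, Matrix.mulVec, dotProduct]
      refine Finset.sum_congr rfl fun j _ => ?_
      have h4 : ∀ i, fip (B.b x) (B.Z i) = if x = Sum.inl i then 1 else 0 := by
        intro i
        exact b_o B x (Sum.inl i)
      simp only [h4]
      rcases x with i | i
      · simp only [Sum.inl.injEq, mul_ite, mul_one, mul_zero, Finset.sum_ite_eq, Finset.mem_univ,
          if_true, hWl]
        ring
      · simp [hWr]
    have hA : AdM B (L.e X) = Q * Matrix.diagonal (fun i => Real.exp (a i)) * Qᵀ := by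
      have h5 := hAd 1
      simpa using h5
    have hF : ∀ t : ℝ, Q * Matrix.diagonal (fun i => Real.exp (t * a i)) * Qᵀ =
        NormedSpace.exp (t • M) := by
      intro t
      rw [← hAd, AdM_e B (L.𝔤.smul_mem t hX), adM_smul]
    have hT2 : V03_T B * NormedSpace.exp ((2 : ℝ) • M) * V03_T B = NormedSpace.exp ((-2 : ℝ) • M) := by
      have hTT := V03_TT B
      have hTi : (V03_T B)⁻¹ = V03_T B := Matrix.inv_eq_right_inv hTT
      have hTu : IsUnit (V03_T B) := by
        rw [Matrix.isUnit_iff_isUnit_det]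
        exact Matrix.isUnit_det_of_right_inverse hTT
      have h6 := Matrix.exp_conj (V03_T B) ((2 : ℝ) • M) hTu
      rw [hTi] at h6
      rw [← h6]
      congr 1
      rw [Matrix.mul_smul, Matrix.smul_mul, V03_TM B ht, Matrix.neg_mul, Matrix.mul_assoc, hTT,
        Matrix.mul_one, smul_neg, neg_smul]
    have hAA : (AdM B (L.e X))ᵀ * AdM B (L.e X) = NormedSpace.exp ((2 : ℝ) • M) := by
      rw [hA, V03_conj_t, V03_conj_mul hQ', ← hF]
      congr 2
      congr 1
      ext i
      rw [← Real.exp_add]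
      congr 1
      ring
    have hWF : Wᵀ * NormedSpace.exp ((2 : ℝ) • M) * W =
        Matrix.diagonal fun j => Real.cosh (2 * α j) := by
      have h7 : Wᵀ * NormedSpace.exp ((-2 : ℝ) • M) * W = Wᵀ * NormedSpace.exp ((2 : ℝ) • M) * W := by
        rw [← hT2]
        have h8 : Wᵀ * V03_T B = Wᵀ := by
          have h9 := congrArg Matrix.transpose hTW
          rw [Matrix.transpose_mul] at h9
          have h10 : (V03_T B)ᵀ = V03_T B := by
            unfold V03_T
            rw [Matrix.diagonal_transpose]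
          rw [h10] at h9
          exact h9
        calc Wᵀ * (V03_T B * NormedSpace.exp ((2 : ℝ) • M) * V03_T B) * W
            = (Wᵀ * V03_T B) * NormedSpace.exp ((2 : ℝ) • M) * (V03_T B * W) := by
              simp only [Matrix.mul_assoc]
          _ = _ := by rw [h8, hTW]
      have h11 : NormedSpace.exp ((2 : ℝ) • M) + NormedSpace.exp ((-2 : ℝ) • M) =
          Q * Matrix.diagonal (fun i => 2 * Real.cosh (2 * a i)) * Qᵀ := by
        rw [← hF, ← hF, ← Matrix.add_mul, ← Matrix.mul_add, Matrix.diagonal_add]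
        congr 3
        ext i
        rw [Real.cosh_eq]
        rw [show -(2 * a i) = -2 * a i by ring]
        ring
      have h12 := V03_fun hQ hQ' a W α hMMW (fun x => 2 * Real.cosh (2 * x)) (by
        intro x y hxy
        rcases mul_self_eq_mul_self_iff.1 hxy with h | h
        · rw [h]
        · rw [h, mul_neg, Real.cosh_neg])
      have h13 : (2 : ℝ) • (Wᵀ * NormedSpace.exp ((2 : ℝ) • M) * W) =
          (2 : ℝ) • (Matrix.diagonal fun j => Real.cosh (2 * α j) : Matrix (Fin B.m) (Fin B.m) ℝ) := by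
        calc (2 : ℝ) • (Wᵀ * NormedSpace.exp ((2 : ℝ) • M) * W)
            = Wᵀ * NormedSpace.exp ((2 : ℝ) • M) * W + Wᵀ * NormedSpace.exp ((-2 : ℝ) • M) * W := by
              rw [h7, two_smul]
          _ = Wᵀ * (NormedSpace.exp ((2 : ℝ) • M) + NormedSpace.exp ((-2 : ℝ) • M)) * W := by
              rw [Matrix.mul_add, Matrix.add_mul]
          _ = Wᵀ * (Q * Matrix.diagonal (fun i => 2 * Real.cosh (2 * a i)) * Qᵀ * W) := by
              rw [h11]
              simp only [Matrix.mul_assoc]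
          _ = (2 : ℝ) • (Matrix.diagonal fun j => Real.cosh (2 * α j)) := by
              rw [h12, ← Matrix.mul_assoc, hWW, Matrix.one_mul, ← Matrix.diagonal_smul]
              rfl
      have h14 := congrArg (fun Z => (2 : ℝ)⁻¹ • Z) h13
      simpa [smul_smul] using h14
    rw [h1, fsq_coord B (L.ad_mem _ _ hYm)]
    have h15 : ∀ i, fip (B.b i) (L.ι (L.e X) * Y * L.ι (L.e X)⁻¹) =
        ((AdM B (L.e X)).mulVec (W.mulVec z)) i := by
      intro i
      rw [AdM_coord B _ hYm]
      simp only [hy]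
      rfl
    simp only [h15]
    have h16 : ∑ i, ((AdM B (L.e X)).mulVec (W.mulVec z)) i ^ 2 =
        dotProduct ((AdM B (L.e X)).mulVec (W.mulVec z)) ((AdM B (L.e X)).mulVec (W.mulVec z)) := by
      rw [dotProduct]
      exact Finset.sum_congr rfl fun i _ => sq _
    rw [h16, Matrix.mulVec_mulVec, Matrix.dotProduct_mulVec, Matrix.vecMul_mulVec,
      ← Matrix.dotProduct_mulVec]
    have h17 : (AdM B (L.e X) * W)ᵀ * (AdM B (L.e X) * W) =
        Matrix.diagonal fun j => Real.cosh (2 * α j) := by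
      rw [← hWF, ← hAA, Matrix.transpose_mul]
      simp only [Matrix.mul_assoc]
    rw [h17, dotProduct]
    refine Finset.sum_congr rfl fun j _ => ?_
    rw [Matrix.mulVec_diagonal]
    ring
  · refine hup.trans (mul_le_mul_of_nonneg_left (Real.exp_le_exp.2 ?_) (by positivity))
    let sg : ℝ → ℝ := fun x => if 0 ≤ x then 1 else -1
    have hsg : ∀ x : ℝ, sg x * x = |x| := by
      intro x
      by_cases h : 0 ≤ x
      · simp [sg, h, abs_of_nonneg h]
      · simp [sg, h, abs_of_neg (not_le.1 h)]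
    set A0 := Q * Matrix.diagonal (fun i => |a i|) * Qᵀ with hA0
    set S0 := Q * Matrix.diagonal (fun i => sg (a i)) * Qᵀ with hS0
    have h1 : S0 * M = A0 := by
      rw [hM, hS0, V03_conj_mul hQ']
      simp only [hsg]
      rfl
    have h2 : M * S0 = A0 := by
      rw [hM, hS0, V03_conj_mul hQ']
      simp only [mul_comm (a _), hsg]
      rfl
    have h3 : (A0 * V03_T B).trace = 0 := by
      have h4 : (A0 * V03_T B).trace = - (A0 * V03_T B).trace := by
        conv_lhs => rw [← h1]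
        have h5 : M * V03_T B = - (V03_T B * M) := by
          rw [V03_TM B ht, neg_neg]
        rw [Matrix.mul_assoc, h5, Matrix.mul_neg, Matrix.trace_neg, ← Matrix.mul_assoc,
          Matrix.trace_mul_comm, ← Matrix.mul_assoc, h2]
      linarith
    have h6 : (A0 * ((2 : ℝ) • (W * Wᵀ))).trace = ∑ i, |a i| := by
      rw [hWW2, Matrix.mul_add, Matrix.mul_one, Matrix.trace_add, h3, add_zero, hA0,
        V03_conj_tr hQ']
    have h7 := V03_fun hQ hQ' a W α hMMW (fun x => |x|) (by
      intro x y hxy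
      rcases mul_self_eq_mul_self_iff.1 hxy with h | h
      · rw [h]
      · rw [h, abs_neg])
    have h8 : (A0 * ((2 : ℝ) • (W * Wᵀ))).trace = 2 * ∑ j, α j := by
      rw [Matrix.mul_smul, Matrix.trace_smul, ← Matrix.mul_assoc, hA0, h7, Matrix.trace_mul_comm,
        ← Matrix.mul_assoc, hWW, Matrix.one_mul, Matrix.trace_diagonal, smul_eq_mul]
      congr 1
      exact Finset.sum_congr rfl fun j _ => abs_of_nonneg (Real.sqrt_nonneg _)
    rw [h6] at h8
    rw [h8]
    linarith

end SBD
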