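import Pool.Agent.SBX.V01

/-!
# Row SBX-V05 : local facts about `exp` and `e`

`|·|` is the Frobenius norm `√(fsq ·)` (submultiplicative).
(a) `exp_bilip` : `exp Z - exp Z' - (Z - Z') = ∑_{n≥2} (Z^n - Z'^n)/n!`, `|Z^n - Z'^n| ≤ n ρ^{n-1}|Z - Z'|` if
  `|Z|,|Z'| ≤ ρ`; so the error is `≤ (e^ρ - 1)|Z-Z'| ≤ ½|Z-Z'|` for small `ρ`.
(b) `log_conj` : for small `Z`: `Z = ∑_{n≥1} (-1)^{n+1}(exp Z - 1)^n/n` (the power series identity
  `log(exp z) = z`, valid as `|exp Z - 1| < 1`; e.g. the function `t ↦ ∑(-1)^{n+1}(exp(tZ)-1)^n/n` has derivative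
  `Z`).  Conjugating by `S` (continuous): `SZS⁻¹ = ∑ (-1)^{n+1}(S exp(Z)S⁻¹ - 1)^n/n`, and with
  `|S exp(Z) S⁻¹ - 1| ≤ ½`: `|SZS⁻¹| ≤ ∑ 2^{-n}/n ≤ 1`.
(c) `e_mul_small` : `L.e_nhds` (with the ball of radius `ρ`): `e(ball_ρ ∩ 𝔤)` is a neighbourhood of `1`, and
  `(Y,Y') ↦ e(Y)e(Y')` is continuous on `𝔤 × 𝔤` at `(0,0)` with value `1`.
(d) `skew_of_orth` : `exp(Zᵀ) = (exp Z)ᵀ = (exp Z)⁻¹ = exp(-Z)` and (a).
(e) `prod_est` : `exp Z - 1 = exp Y exp(-Y') - 1 = (exp Y - exp Y')exp(-Y')`; `|exp Y - exp Y' - (Y-Y')| ≤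
  C r|Y-Y'|` with `r = max(|Y|,|Y'|)`; so `|exp Z - 1 - (Y - Y')| ≤ C'r|Y-Y'|`; and
  `|exp Z - 1 - Z| ≤ |Z|²`, `|Z| ≤ 2|exp Z - 1| ≤ 4|Y-Y'|`, `|Z|² ≤ 16|Y-Y'|·2r`.
(f) `e_comm_add` : by `ad_e` `e(Y)e(X)e(Y)⁻¹ = e(exp(Y)Xexp(-Y)) = e(X)` (they commute), so
  `φ(t) = e(tX)e(tY)` is a continuous homomorphism `ℝ → G`.  For small `t` by (c) `φ(t) = e(Z)` with `Z ∈ 𝔤`
  small and `exp Z = exp(tX)exp(tY) = exp(t(X+Y))`, so `Z = t(X+Y)` by (a).  Then `φ(1) = φ(1/n)^n =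
  e((X+Y)/n)^n = e(X+Y)`.
-/

open MeasureTheory Filter Topology
open scoped ENNReal NNReal Matrix

noncomputable section

namespace SBD

variable {N : ℕ} {G : Type} [Group G] [TopologicalSpace G] [IsTopologicalGroup G]
  [LocallyCompactSpace G] [T2Space G]

section frob

open scoped Matrix.Norms.Frobenius

theorem V05_norm_pow (M Y : Mat N) (ρ : ℝ) (hY : ‖Y‖ ≤ ρ) (n : ℕ) :
    ‖M * Y ^ n‖ ≤ ‖M‖ * ρ ^ n := by
  have hρ : 0 ≤ ρ := (norm_nonneg Y).trans hY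
  induction n with
  | zero => rw [pow_zero, pow_zero, mul_one, mul_one]
  | succ n ih =>
    rw [pow_succ, pow_succ, ← mul_assoc, ← mul_assoc]
    exact (norm_mul_le _ _).trans (mul_le_mul ih hY (norm_nonneg _)
      (mul_nonneg (norm_nonneg _) (pow_nonneg hρ n)))

theorem V05_pow_sub (Z Z' : Mat N) (ρ : ℝ) (hZ : ‖Z‖ ≤ ρ) (hZ' : ‖Z'‖ ≤ ρ) (n : ℕ) :
    ‖Z ^ (n + 1) - Z' ^ (n + 1)‖ ≤ (n + 1) * ρ ^ n * ‖Z - Z'‖ := by
  have hρ : 0 ≤ ρ := (norm_nonneg Z).trans hZ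
  induction n with
  | zero => simp
  | succ n ih =>
    have h1 : Z ^ (n + 1 + 1) - Z' ^ (n + 1 + 1) =
        Z * (Z ^ (n + 1) - Z' ^ (n + 1)) + (Z - Z') * Z' ^ (n + 1) := by
      rw [pow_succ' Z, pow_succ' Z']
      noncomm_ring
    rw [h1]
    have h2 : ‖Z * (Z ^ (n + 1) - Z' ^ (n + 1))‖ ≤ ρ * ((n + 1) * ρ ^ n * ‖Z - Z'‖) :=
      (norm_mul_le _ _).trans (mul_le_mul hZ ih (norm_nonneg _) hρ)
    have h3 := V05_norm_pow (Z - Z') Z' ρ hZ' (n + 1)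
    refine (norm_add_le _ _).trans ((add_le_add h2 h3).trans (le_of_eq ?_))
    push_cast
    ring

theorem V05_key (Z Z' : Mat N) (ρ : ℝ) (hZ : ‖Z‖ ≤ ρ) (hZ' : ‖Z'‖ ≤ ρ) :
    ‖NormedSpace.exp Z - NormedSpace.exp Z' - (Z - Z')‖ ≤ (Real.exp ρ - 1) * ‖Z - Z'‖ := by
  have h1 : HasSum (fun n : ℕ => (n.factorial⁻¹ : ℝ) • Z ^ n) (NormedSpace.exp Z) :=
    NormedSpace.exp_series_hasSum_exp' (𝕂 := ℝ) Z
  have h1' : HasSum (fun n : ℕ => (n.factorial⁻¹ : ℝ) • Z' ^ n) (NormedSpace.exp Z') :=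
    NormedSpace.exp_series_hasSum_exp' (𝕂 := ℝ) Z'
  have h2 := h1.sub h1'
  have h3 := (hasSum_nat_add_iff' 2).2 h2
  have e3 : ∑ i ∈ Finset.range 2, ((i.factorial⁻¹ : ℝ) • Z ^ i - (i.factorial⁻¹ : ℝ) • Z' ^ i) =
      Z - Z' := by
    simp [Finset.sum_range_succ]
  rw [e3] at h3
  have h4 : HasSum (fun n : ℕ => ρ ^ n / n.factorial) (Real.exp ρ) := by
    rw [Real.exp_eq_exp_ℝ]
    exact NormedSpace.expSeries_div_hasSum_exp ρ
  have h5 := (hasSum_nat_add_iff' 1).2 h4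
  have e5 : ∑ i ∈ Finset.range 1, ρ ^ i / (i.factorial : ℝ) = 1 := by simp
  rw [e5] at h5
  have h6 := h5.mul_right ‖Z - Z'‖
  rw [← h3.tsum_eq]
  refine tsum_of_norm_bounded h6 fun n => ?_
  rw [← smul_sub, norm_smul, norm_inv, Real.norm_natCast]
  have h7 := V05_pow_sub Z Z' ρ hZ hZ' (n + 1)
  have h8 : ((n + 2).factorial : ℝ) = ((n : ℝ) + 1 + 1) * ((n + 1).factorial : ℝ) := by
    rw [Nat.factorial_succ]
    push_cast
    ring
  have h9 : (0 : ℝ) < ((n + 1).factorial : ℝ) := by positivity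
  have h10 : (0 : ℝ) < (n : ℝ) + 1 + 1 := by positivity
  calc ((n + 2).factorial : ℝ)⁻¹ * ‖Z ^ (n + 2) - Z' ^ (n + 2)‖
      ≤ ((n + 2).factorial : ℝ)⁻¹ * (((n + 1 : ℕ) + 1) * ρ ^ (n + 1) * ‖Z - Z'‖) :=
        mul_le_mul_of_nonneg_left h7 (by positivity)
    _ = ρ ^ (n + 1) / ((n + 1).factorial : ℝ) * ‖Z - Z'‖ := by
        rw [h8]
        push_cast
        field_simp

theorem V05_exp_le {x : ℝ} (h0 : 0 ≤ x) (h1 : x ≤ 1 / 2) : Real.exp x - 1 ≤ 2 * x := by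
  have h2 := Real.add_one_le_exp (-x)
  have h3 : Real.exp (-x) * Real.exp x = 1 := by rw [← Real.exp_add, neg_add_cancel, Real.exp_zero]
  have h4 := Real.exp_pos x
  have h5 : (1 - x) * Real.exp x ≤ 1 := by nlinarith
  have h6 : (1 - x) * (1 + 2 * x) ≥ 1 := by nlinarith
  have h7 : 0 < 1 - x := by linarith
  have h8 : (1 - x) * Real.exp x ≤ (1 - x) * (1 + 2 * x) := by linarith
  have h9 := le_of_mul_le_mul_left h8 h7
  linarith

theorem V05_key2 (Z Z' : Mat N) (ρ : ℝ) (hρ : ρ ≤ 1 / 2) (hZ : ‖Z‖ ≤ ρ) (hZ' : ‖Z'‖ ≤ ρ) :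
    ‖NormedSpace.exp Z - NormedSpace.exp Z' - (Z - Z')‖ ≤ 2 * ρ * ‖Z - Z'‖ :=
  (V05_key Z Z' ρ hZ hZ').trans (mul_le_mul_of_nonneg_right
    (V05_exp_le ((norm_nonneg Z).trans hZ) hρ) (norm_nonneg _))

theorem V05_key1 (Z : Mat N) (ρ : ℝ) (hρ : ρ ≤ 1 / 2) (hZ : ‖Z‖ ≤ ρ) :
    ‖NormedSpace.exp Z - 1 - Z‖ ≤ 2 * ρ * ‖Z‖ := by
  have h := V05_key2 Z 0 ρ hρ hZ (by rw [norm_zero]; exact (norm_nonneg Z).trans hZ)
  rwa [NormedSpace.exp_zero, sub_zero] at h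

theorem V05_key0 (Z : Mat N) (hZ : ‖Z‖ ≤ 1 / 2) : ‖NormedSpace.exp Z - 1‖ ≤ 2 * ‖Z‖ := by
  have h := V05_key1 Z (1 / 2) le_rfl hZ
  have h1 : NormedSpace.exp Z - 1 = (NormedSpace.exp Z - 1 - Z) + Z := by abel
  rw [h1]
  refine (norm_add_le _ _).trans ?_
  linarith

theorem V05_nl {Z : Mat N} {r : ℝ} (hr : 0 ≤ r) (h : fsq Z ≤ r ^ 2) : ‖Z‖ ≤ r := by
  rw [← V01_norm_sq] at h
  exact (pow_le_pow_iff_left₀ (norm_nonneg _) hr two_ne_zero).1 h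

theorem V05_nhds_aux {U : Set (Mat N)} (hU : U ∈ 𝓝 (0 : Mat N)) :
    ∃ r : ℝ, 0 < r ∧ ∀ Y : Mat N, fsq Y ≤ r → Y ∈ U := by
  obtain ⟨ε, hε, h⟩ := Metric.mem_nhds_iff.1 hU
  refine ⟨(ε / 2) ^ 2, by positivity, fun Y hY => h ?_⟩
  rw [mem_ball_zero_iff]
  have := V05_nl (by positivity) hY
  linarith

theorem V05_bilip (Z Z' : Mat N) (hZ : ‖Z‖ ≤ 1 / 4) (hZ' : ‖Z'‖ ≤ 1 / 4) :
    ‖Z - Z'‖ ≤ 2 * ‖NormedSpace.exp Z - NormedSpace.exp Z'‖ ∧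
    ‖NormedSpace.exp Z - NormedSpace.exp Z'‖ ≤ 2 * ‖Z - Z'‖ := by
  have h := V05_key2 Z Z' (1 / 4) (by norm_num) hZ hZ'
  have h1 : Z - Z' = (NormedSpace.exp Z - NormedSpace.exp Z') -
      (NormedSpace.exp Z - NormedSpace.exp Z' - (Z - Z')) := by abel
  have h2 : NormedSpace.exp Z - NormedSpace.exp Z' = (Z - Z') +
      (NormedSpace.exp Z - NormedSpace.exp Z' - (Z - Z')) := by abel
  constructor
  · have h3 := norm_sub_le (NormedSpace.exp Z - NormedSpace.exp Z')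
      (NormedSpace.exp Z - NormedSpace.exp Z' - (Z - Z'))
    rw [← h1] at h3
    linarith
  · have h3 := norm_add_le (Z - Z') (NormedSpace.exp Z - NormedSpace.exp Z' - (Z - Z'))
    rw [← h2] at h3
    linarith [norm_nonneg (Z - Z')]

theorem V05_bilip_aux (N : ℕ) : ∃ ρ : ℝ, 0 < ρ ∧ ∀ Z Z' : Mat N, fsq Z ≤ ρ → fsq Z' ≤ ρ →
    fsq (Z - Z') ≤ 4 * fsq (NormedSpace.exp Z - NormedSpace.exp Z') ∧
    fsq (NormedSpace.exp Z - NormedSpace.exp Z') ≤ 4 * fsq (Z - Z') := by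
  refine ⟨(1 / 4) ^ 2, by norm_num, fun Z Z' hZ hZ' => ?_⟩
  obtain ⟨h1, h2⟩ := V05_bilip Z Z' (V05_nl (by norm_num) hZ) (V05_nl (by norm_num) hZ')
  rw [← V01_norm_sq, ← V01_norm_sq]
  have h3 := pow_le_pow_left₀ (norm_nonneg _) h1 2
  have h4 := pow_le_pow_left₀ (norm_nonneg _) h2 2
  rw [mul_pow] at h3 h4
  constructor <;> linarith

theorem V05_exp_comm (Z : Mat N) (t : ℝ) :
    Z * NormedSpace.exp (t • Z) = NormedSpace.exp (t • Z) * Z :=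
  ((Commute.refl Z).smul_right t).exp_right

theorem V05_pow_deriv (Z : Mat N) (t : ℝ) (n : ℕ) :
    HasDerivAt (fun s : ℝ => (NormedSpace.exp (s • Z) - 1) ^ (n + 1))
      (((n : ℝ) + 1) • ((NormedSpace.exp (t • Z) - 1) ^ n * (Z * NormedSpace.exp (t • Z)))) t := by
  have h1 : HasDerivAt (fun s : ℝ => NormedSpace.exp (s • Z) - 1) (Z * NormedSpace.exp (t • Z)) t :=
    (hasDerivAt_exp_smul_const' Z t).sub_const 1
  have hc : Commute (Z * NormedSpace.exp (t • Z)) (NormedSpace.exp (t • Z) - 1) := by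
    refine Commute.sub_right ?_ (Commute.one_right _)
    exact Commute.mul_left (V05_exp_comm Z t) (Commute.refl _)
  induction n with
  | zero =>
    simpa using h1
  | succ n ih =>
    have h2 := ih.mul h1
    have h3 : (fun s : ℝ => (NormedSpace.exp (s • Z) - 1) ^ (n + 1 + 1)) =
        fun s : ℝ => (NormedSpace.exp (s • Z) - 1) ^ (n + 1) * (NormedSpace.exp (s • Z) - 1) :=
      funext fun s => pow_succ _ _
    rw [h3]
    refine h2.congr_deriv ?_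
    rw [smul_mul_assoc, mul_assoc, hc.eq, ← mul_assoc, ← pow_succ]
    push_cast
    rw [add_smul ((n : ℝ) + 1) 1, one_smul]

theorem V05_log (Z : Mat N) (hZ : ‖Z‖ ≤ 1 / 16) :
    HasSum (fun n : ℕ => ((-1) ^ n / ((n : ℝ) + 1)) • (NormedSpace.exp Z - 1) ^ (n + 1)) Z := by
  have hE : ∀ t ∈ Set.Ioo (-1 : ℝ) 2, ‖NormedSpace.exp (t • Z) - 1‖ ≤ 1 / 4 := by
    intro t ht
    have h1 : ‖t • Z‖ ≤ 1 / 8 := by
      rw [norm_smul, Real.norm_eq_abs]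
      have h2 : |t| ≤ 2 := abs_le.2 ⟨by linarith [ht.1], by linarith [ht.2]⟩
      calc |t| * ‖Z‖ ≤ 2 * (1 / 16) := mul_le_mul h2 hZ (norm_nonneg _) (by norm_num)
        _ = 1 / 8 := by norm_num
    have h3 := V05_key0 (t • Z) (h1.trans (by norm_num))
    linarith
  have hE1 : ∀ t ∈ Set.Ioo (-1 : ℝ) 2, ‖NormedSpace.exp (t • Z)‖ ≤ ‖(1 : Mat N)‖ + 1 := by
    intro t ht
    have h1 : NormedSpace.exp (t • Z) = 1 + (NormedSpace.exp (t • Z) - 1) := by abel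
    rw [h1]
    refine (norm_add_le _ _).trans ?_
    linarith [hE t ht]
  set g : ℕ → ℝ → Mat N := fun n s => ((-1) ^ n / ((n : ℝ) + 1)) •
    (NormedSpace.exp (s • Z) - 1) ^ (n + 1) with hg
  set g' : ℕ → ℝ → Mat N := fun n s => ((-1) ^ n / ((n : ℝ) + 1)) •
    (((n : ℝ) + 1) • ((NormedSpace.exp (s • Z) - 1) ^ n * (Z * NormedSpace.exp (s • Z)))) with hg'
  set K : ℝ := ‖Z‖ * (‖(1 : Mat N)‖ + 1) with hK
  have hK0 : 0 ≤ K := by positivity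
  have hu : Summable fun n : ℕ => K * (1 / 4 : ℝ) ^ n :=
    (summable_geometric_of_lt_one (by norm_num) (by norm_num)).mul_left K
  have hgd : ∀ (n : ℕ) (y : ℝ), y ∈ Set.Ioo (-1 : ℝ) 2 → HasDerivAt (g n) (g' n y) y :=
    fun n y _ => HasDerivAt.const_smul ((-1) ^ n / ((n : ℝ) + 1)) (V05_pow_deriv Z y n)
  have hcom : ∀ (t : ℝ) (n : ℕ), (NormedSpace.exp (t • Z) - 1) ^ n * (Z * NormedSpace.exp (t • Z)) =
      (Z * NormedSpace.exp (t • Z)) * (NormedSpace.exp (t • Z) - 1) ^ n := by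
    intro t n
    have hc : Commute (NormedSpace.exp (t • Z) - 1) (Z * NormedSpace.exp (t • Z)) := by
      refine Commute.sub_left ?_ (Commute.one_left _)
      exact Commute.mul_right (V05_exp_comm Z t).symm (Commute.refl _)
    exact (hc.pow_left n).eq
  have hred : ∀ (n : ℕ) (y : ℝ), g' n y =
      ((-1 : ℝ) ^ n) • ((Z * NormedSpace.exp (y • Z)) * (NormedSpace.exp (y • Z) - 1) ^ n) := by
    intro n y
    have h1 : ((n : ℝ) + 1) ≠ 0 := by positivity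
    simp only [hg']
    rw [smul_smul, div_mul_cancel₀ _ h1, hcom]
  have hbd : ∀ (n : ℕ) (y : ℝ), y ∈ Set.Ioo (-1 : ℝ) 2 → ‖g' n y‖ ≤ K * (1 / 4 : ℝ) ^ n := by
    intro n y hy
    rw [hred, norm_smul, norm_pow, norm_neg, norm_one, one_pow, one_mul]
    refine (V05_norm_pow _ _ (1 / 4) (hE y hy) n).trans ?_
    refine mul_le_mul_of_nonneg_right ?_ (by positivity)
    exact (norm_mul_le _ _).trans (mul_le_mul_of_nonneg_left (hE1 y hy) (norm_nonneg _))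
  have h0m : (0 : ℝ) ∈ Set.Ioo (-1 : ℝ) 2 := ⟨by norm_num, by norm_num⟩
  have hg0 : ∀ n, g n 0 = 0 := by
    intro n
    simp only [hg, zero_smul, NormedSpace.exp_zero, sub_self, pow_succ, mul_zero, smul_zero]
  have hs0 : Summable fun n => g n 0 := by
    simp only [hg0]
    exact summable_zero
  have hder : ∀ y ∈ Set.Ioo (-1 : ℝ) 2, HasDerivAt (fun z => ∑' n, g n z) (∑' n, g' n y) y :=
    fun y hy => hasDerivAt_tsum_of_isPreconnected hu isOpen_Ioo isPreconnected_Ioo hgd hbd h0m hs0 hy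
  have hsumd : ∀ y ∈ Set.Ioo (-1 : ℝ) 2, ∑' n, g' n y = Z := by
    intro y hy
    set D := NormedSpace.exp (y • Z) - 1 with hD
    have hD1 : ‖-D‖ < 1 := by
      rw [norm_neg]
      exact (hE y hy).trans_lt (by norm_num)
    have h1 : (1 - (-D)) * ∑' n : ℕ, (-D) ^ n = 1 := mul_neg_geom_series (-D) hD1
    have hsD : Summable fun n : ℕ => (-D) ^ n := summable_geometric_of_norm_lt_one hD1
    have h2 : ∀ n, g' n y = (Z * NormedSpace.exp (y • Z)) * (-D) ^ n := by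
      intro n
      rw [hred, ← neg_one_smul ℝ D, smul_pow, mul_smul_comm]
    simp only [h2]
    rw [hsD.tsum_mul_left, mul_assoc]
    have h3 : NormedSpace.exp (y • Z) = 1 - (-D) := by rw [hD]; abel
    rw [h3, h1, mul_one]
  have hlin : ∀ y : ℝ, HasDerivAt (fun s : ℝ => s • Z) Z y := by
    intro y
    have h := (hasDerivAt_id y).smul_const Z
    rw [one_smul] at h
    exact h
  have heq : Set.EqOn (fun z => ∑' n, g n z) (fun s : ℝ => s • Z) (Set.Ioo (-1 : ℝ) 2) := by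
    refine IsOpen.eqOn_of_deriv_eq isOpen_Ioo isPreconnected_Ioo
      (fun y hy => (hder y hy).differentiableAt.differentiableWithinAt)
      (fun y _ => (hlin y).differentiableAt.differentiableWithinAt) ?_ h0m ?_
    · intro y hy
      rw [(hder y hy).deriv, (hlin y).deriv, hsumd y hy]
    · simp only [hg0, tsum_zero, zero_smul]
  have h1m : (1 : ℝ) ∈ Set.Ioo (-1 : ℝ) 2 := ⟨by norm_num, by norm_num⟩
  have h1 : ∑' n, g n 1 = (1 : ℝ) • Z := heq h1m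
  have hs1 : Summable fun n => g n 1 := by
    refine Summable.of_norm_bounded (g := fun n : ℕ => (1 / 4 : ℝ) ^ n)
      (summable_geometric_of_lt_one (by norm_num) (by norm_num)) fun n => ?_
    simp only [hg]
    rw [norm_smul, norm_div, norm_pow, norm_neg, norm_one, one_pow]
    have h5 : ‖(NormedSpace.exp ((1 : ℝ) • Z) - 1) ^ (n + 1)‖ ≤ (1 / 4 : ℝ) ^ (n + 1) :=
      (norm_pow_le' _ (Nat.succ_pos n)).trans (pow_le_pow_left₀ (norm_nonneg _) (hE 1 h1m) _)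
    have h6 : ‖(n : ℝ) + 1‖ = (n : ℝ) + 1 := by
      rw [Real.norm_eq_abs, abs_of_pos (by positivity)]
    have h7 : 1 / ((n : ℝ) + 1) ≤ 1 := by
      rw [div_le_one (by positivity)]
      linarith [(Nat.cast_nonneg n : (0 : ℝ) ≤ n)]
    rw [h6]
    calc 1 / ((n : ℝ) + 1) * ‖(NormedSpace.exp ((1 : ℝ) • Z) - 1) ^ (n + 1)‖
        ≤ 1 * (1 / 4 : ℝ) ^ (n + 1) := mul_le_mul h7 h5 (norm_nonneg _) zero_le_one
      _ ≤ (1 / 4 : ℝ) ^ n := by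
        rw [one_mul]
        exact pow_le_pow_of_le_one (by norm_num) (by norm_num) (Nat.le_succ n)
  have h2 := hs1.hasSum
  rw [h1, one_smul] at h2
  simpa only [hg, one_smul] using h2

theorem V05_log_conj (Z S S' : Mat N) (hZ : ‖Z‖ ≤ 1 / 16) (h1 : S * S' = 1) (h2 : S' * S = 1)
    (h3 : ‖S * NormedSpace.exp Z * S' - 1‖ ≤ 1 / 2) : ‖S * Z * S'‖ ≤ 1 := by
  have hs := ((V05_log Z hZ).mul_left S).mul_right S'
  set D := S * NormedSpace.exp Z * S' - 1 with hD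
  have hp : ∀ n : ℕ, S * (NormedSpace.exp Z - 1) ^ n * S' = D ^ n := by
    intro n
    have hD1 : D = S * (NormedSpace.exp Z - 1) * S' := by
      rw [hD, mul_sub, mul_one, sub_mul, h1]
    induction n with
    | zero => rw [pow_zero, pow_zero, mul_one, h1]
    | succ n ih =>
      rw [pow_succ, pow_succ, ← ih, hD1]
      calc S * ((NormedSpace.exp Z - 1) ^ n * (NormedSpace.exp Z - 1)) * S'
          = S * (NormedSpace.exp Z - 1) ^ n * 1 * ((NormedSpace.exp Z - 1) * S') := by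
            rw [mul_one]; noncomm_ring
        _ = S * (NormedSpace.exp Z - 1) ^ n * (S' * S) * ((NormedSpace.exp Z - 1) * S') := by
            rw [h2]
        _ = _ := by noncomm_ring
  have hg : HasSum (fun n : ℕ => (1 / 2 : ℝ) * (1 / 2 : ℝ) ^ n) (1 / 2 * 2) :=
    (hasSum_geometric_two).mul_left (1 / 2)
  rw [← hs.tsum_eq]
  have h4 := tsum_of_norm_bounded hg (f := fun n : ℕ => S * (((-1) ^ n / ((n : ℝ) + 1)) •
    (NormedSpace.exp Z - 1) ^ (n + 1)) * S') ?_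
  · refine h4.trans (by norm_num)
  · intro n
    rw [mul_smul_comm, smul_mul_assoc, hp, norm_smul, norm_div, norm_pow, norm_neg, norm_one,
      one_pow]
    have h5 : ‖D ^ (n + 1)‖ ≤ (1 / 2 : ℝ) ^ (n + 1) :=
      (norm_pow_le' _ (Nat.succ_pos n)).trans (pow_le_pow_left₀ (norm_nonneg _) h3 _)
    have h6 : ‖(n : ℝ) + 1‖ = (n : ℝ) + 1 := by
      rw [Real.norm_eq_abs, abs_of_pos (by positivity)]
    have h7 : 1 / ((n : ℝ) + 1) ≤ 1 := by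
      rw [div_le_one (by positivity)]
      linarith [(Nat.cast_nonneg n : (0 : ℝ) ≤ n)]
    rw [h6]
    calc 1 / ((n : ℝ) + 1) * ‖D ^ (n + 1)‖
        ≤ 1 * (1 / 2 : ℝ) ^ (n + 1) := mul_le_mul h7 h5 (norm_nonneg _) zero_le_one
      _ = 1 / 2 * (1 / 2 : ℝ) ^ n := by rw [one_mul, pow_succ']

theorem V05_log_conj_aux (N : ℕ) : ∃ ρ : ℝ, 0 < ρ ∧ ∀ Z S S' : Mat N, fsq Z ≤ ρ → S * S' = 1 →
    S' * S = 1 → fsq (S * NormedSpace.exp Z * S' - 1) ≤ 1 / 4 → fsq (S * Z * S') ≤ 1 := by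
  refine ⟨(1 / 16) ^ 2, by norm_num, fun Z S S' hZ h1 h2 h3 => ?_⟩
  have h4 := V05_log_conj Z S S' (V05_nl (by norm_num) hZ) h1 h2
    (V05_nl (by norm_num) (h3.trans (by norm_num)))
  rw [← V01_norm_sq]
  exact pow_le_one₀ (norm_nonneg _) h4

theorem V05_prod (Z Y Y' : Mat N) (hZ : ‖Z‖ ≤ 1 / 8) (hY : ‖Y‖ ≤ 1 / 8) (hY' : ‖Y'‖ ≤ 1 / 8)
    (h : NormedSpace.exp Z = NormedSpace.exp Y * NormedSpace.exp (-Y')) :
    ‖Z - (Y - Y')‖ ≤ 69 * max ‖Y‖ ‖Y'‖ * ‖Y - Y'‖ := by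
  set r := max ‖Y‖ ‖Y'‖ with hr
  set d := ‖Y - Y'‖ with hd
  have hr0 : 0 ≤ r := (norm_nonneg Y).trans (le_max_left _ _)
  have hr1 : r ≤ 1 / 8 := max_le hY hY'
  have hd0 : 0 ≤ d := norm_nonneg _
  have hd1 : d ≤ 2 * r := by
    refine (norm_sub_le _ _).trans ?_
    linarith [le_max_left ‖Y‖ ‖Y'‖, le_max_right ‖Y‖ ‖Y'‖]
  set R1 := NormedSpace.exp Y - NormedSpace.exp Y' - (Y - Y') with hR1
  set R2 := NormedSpace.exp (-Y') - 1 with hR2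
  set R3 := NormedSpace.exp Z - 1 - Z with hR3
  have b1 : ‖R1‖ ≤ 2 * r * d :=
    V05_key2 Y Y' r (hr1.trans (by norm_num)) (le_max_left _ _) (le_max_right _ _)
  have b2 : ‖R2‖ ≤ 2 * r := by
    have h1 := V05_key0 (-Y') (by rw [norm_neg]; exact hY'.trans (by norm_num))
    rw [norm_neg] at h1
    linarith [le_max_right ‖Y‖ ‖Y'‖]
  have b3 : ‖R3‖ ≤ 2 * ‖Z‖ * ‖Z‖ := V05_key1 Z ‖Z‖ (hZ.trans (by norm_num)) le_rfl
  have hYe : NormedSpace.exp Y' * NormedSpace.exp (-Y') = 1 := by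
    rw [← Matrix.exp_add_of_commute _ _ ((Commute.refl Y').neg_right), add_neg_cancel,
      NormedSpace.exp_zero]
  have e1 : NormedSpace.exp Z - 1 - (Y - Y') = R1 + (Y - Y') * R2 + R1 * R2 := by
    have h1 : NormedSpace.exp Z - 1 = (R1 + (Y - Y')) * (1 + R2) := by
      have h2 : R1 + (Y - Y') = NormedSpace.exp Y - NormedSpace.exp Y' := by rw [hR1]; abel
      have h3 : 1 + R2 = NormedSpace.exp (-Y') := by rw [hR2]; abel
      rw [h2, h3, sub_mul, hYe, h]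
    rw [h1]
    noncomm_ring
  have b4 : ‖NormedSpace.exp Z - 1 - (Y - Y')‖ ≤ 5 * r * d := by
    rw [e1]
    have h1 : ‖(Y - Y') * R2‖ ≤ d * (2 * r) :=
      (norm_mul_le _ _).trans (mul_le_mul_of_nonneg_left b2 hd0)
    have h2 : ‖R1 * R2‖ ≤ 2 * r * d * (2 * r) :=
      (norm_mul_le _ _).trans (mul_le_mul b1 b2 (norm_nonneg _) (by positivity))
    have h3 := norm_add₃_le (a := R1) (b := (Y - Y') * R2) (c := R1 * R2)
    have h4 : 2 * r * d * (2 * r) ≤ r * d := by nlinarith [mul_nonneg hr0 hd0]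
    nlinarith
  have b5 : ‖NormedSpace.exp Z - 1‖ ≤ 2 * d := by
    have h1 : NormedSpace.exp Z - 1 = (NormedSpace.exp Z - 1 - (Y - Y')) + (Y - Y') := by abel
    rw [h1]
    refine (norm_add_le _ _).trans ?_
    nlinarith [mul_nonneg hr0 hd0]
  have b6 : ‖Z‖ ≤ 4 * d := by
    have h1 : Z = (NormedSpace.exp Z - 1) - R3 := by rw [hR3]; abel
    have h2 : ‖Z‖ ≤ ‖NormedSpace.exp Z - 1‖ + ‖R3‖ := by
      conv_lhs => rw [h1]
      exact norm_sub_le _ _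
    nlinarith [norm_nonneg Z]
  have e2 : Z - (Y - Y') = (NormedSpace.exp Z - 1 - (Y - Y')) - R3 := by rw [hR3]; abel
  rw [e2]
  refine (norm_sub_le _ _).trans ?_
  have b7 : ‖Z‖ * ‖Z‖ ≤ (4 * d) * (4 * d) := mul_self_le_mul_self (norm_nonneg _) b6
  have b8 : d * d ≤ 2 * r * d := mul_le_mul_of_nonneg_right hd1 hd0
  nlinarith

theorem V05_prod_aux (N : ℕ) : ∃ ρ : ℝ, 0 < ρ ∧ ∃ C : ℝ, 0 < C ∧ ∀ Z Y Y' : Mat N, fsq Z ≤ ρ →
    fsq Y ≤ ρ → fsq Y' ≤ ρ → NormedSpace.exp Z = NormedSpace.exp Y * NormedSpace.exp (-Y') →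
    fsq (Z - (Y - Y')) ≤ C * (fsq Y + fsq Y') * fsq (Y - Y') := by
  refine ⟨(1 / 8) ^ 2, by norm_num, 69 ^ 2, by norm_num, fun Z Y Y' hZ hY hY' h => ?_⟩
  have h1 := V05_prod Z Y Y' (V05_nl (by norm_num) hZ) (V05_nl (by norm_num) hY)
    (V05_nl (by norm_num) hY') h
  have h2 := pow_le_pow_left₀ (norm_nonneg _) h1 2
  rw [← V01_norm_sq, ← V01_norm_sq, ← V01_norm_sq, ← V01_norm_sq]
  have h3 : (max ‖Y‖ ‖Y'‖) ^ 2 ≤ ‖Y‖ ^ 2 + ‖Y'‖ ^ 2 := by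
    rcases max_choice ‖Y‖ ‖Y'‖ with h4 | h4 <;> rw [h4] <;>
      nlinarith [sq_nonneg ‖Y‖, sq_nonneg ‖Y'‖]
  rw [mul_pow, mul_pow] at h2
  refine h2.trans (mul_le_mul_of_nonneg_right (mul_le_mul_of_nonneg_left h3 (by norm_num))
    (sq_nonneg _))

end frob

theorem V05_nhds {U : Set (Mat N)} (hU : U ∈ 𝓝 (0 : Mat N)) :
    ∃ r : ℝ, 0 < r ∧ ∀ Y : Mat N, fsq Y ≤ r → Y ∈ U := V05_nhds_aux hU

theorem exp_bilip (N : ℕ) : ∃ ρ : ℝ, 0 < ρ ∧ ∀ Z Z' : Mat N, fsq Z ≤ ρ → fsq Z' ≤ ρ →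
    fsq (Z - Z') ≤ 4 * fsq (NormedSpace.exp Z - NormedSpace.exp Z') ∧
    fsq (NormedSpace.exp Z - NormedSpace.exp Z') ≤ 4 * fsq (Z - Z') := by
  exact V05_bilip_aux N

theorem log_conj (N : ℕ) : ∃ ρ : ℝ, 0 < ρ ∧ ∀ Z S S' : Mat N, fsq Z ≤ ρ → S * S' = 1 →
    S' * S = 1 → fsq (S * NormedSpace.exp Z * S' - 1) ≤ 1 / 4 → fsq (S * Z * S') ≤ 1 := by
  exact V05_log_conj_aux N

theorem V05_fsq_cont : Continuous fun M : Mat N => fsq M :=
  V01_fip_cont continuous_id continuous_id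

theorem e_mul_small (L : LieData N G) (ρ : ℝ) (hρ : 0 < ρ) : ∃ r : ℝ, 0 < r ∧ ∀ Y ∈ L.𝔤,
    ∀ Y' ∈ L.𝔤, fsq Y ≤ r → fsq Y' ≤ r → ∃ Z ∈ L.𝔤, fsq Z ≤ ρ ∧ L.e Z = L.e Y * L.e Y' := by
  have hU : {Z : Mat N | fsq Z < ρ} ∈ 𝓝 (0 : Mat N) := by
    refine (isOpen_lt V05_fsq_cont continuous_const).mem_nhds ?_
    change fsq (0 : Mat N) < ρ
    unfold fsq
    rw [V01_fip_zero]
    exact hρ
  have hW := L.e_nhds _ hU
  have hm : Filter.Tendsto (fun p : G × G => p.1 * p.2) (𝓝 (1, 1)) (𝓝 (1 : G)) := by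
    have h := (continuous_mul (M := G)).tendsto ((1 : G), (1 : G))
    simpa only [mul_one] using h
  have hV := hm hW
  rw [nhds_prod_eq, Filter.mem_map, Filter.mem_prod_self_iff] at hV
  obtain ⟨V, hV1, hV2⟩ := hV
  have hc := L.e_cont 0 L.𝔤.zero_mem
  have hV3 : L.e ⁻¹' V ∈ 𝓝[(L.𝔤 : Set (Mat N))] 0 := by
    apply hc
    rw [e_zero]
    exact hV1
  obtain ⟨U', hU', hU2⟩ := mem_nhdsWithin_iff_exists_mem_nhds_inter.1 hV3
  obtain ⟨r, hr, hr1⟩ := V05_nhds hU'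
  refine ⟨r, hr, fun Y hY Y' hY' h h' => ?_⟩
  have h1 : L.e Y ∈ V := hU2 ⟨hr1 Y h, hY⟩
  have h2 : L.e Y' ∈ V := hU2 ⟨hr1 Y' h', hY'⟩
  obtain ⟨Z, ⟨hZ1, hZ2⟩, hZ3⟩ := hV2 (Set.mk_mem_prod h1 h2)
  exact ⟨Z, hZ2, le_of_lt hZ1, hZ3⟩

theorem V05_exp_neg (Z : Mat N) : NormedSpace.exp Z * NormedSpace.exp (-Z) = 1 := by
  rw [← Matrix.exp_add_of_commute _ _ ((Commute.refl Z).neg_right), add_neg_cancel,
    NormedSpace.exp_zero]

theorem V05_inj (N : ℕ) : ∃ ρ : ℝ, 0 < ρ ∧ ∀ Z Z' : Mat N, fsq Z ≤ ρ → fsq Z' ≤ ρ →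
    NormedSpace.exp Z = NormedSpace.exp Z' → Z = Z' := by
  obtain ⟨ρ, hρ, h⟩ := exp_bilip N
  refine ⟨ρ, hρ, fun Z Z' hZ hZ' he => ?_⟩
  have h1 := (h Z Z' hZ hZ').1
  rw [he, sub_self] at h1
  unfold fsq at h1
  rw [V01_fip_zero, mul_zero] at h1
  have h2 : fsq (Z - Z') = 0 := le_antisymm h1 (V01_fsq_nonneg _)
  exact sub_eq_zero.1 (V01_fsq_eq_zero _ h2)

theorem skew_of_orth (N : ℕ) : ∃ ρ : ℝ, 0 < ρ ∧ ∀ Z : Mat N, fsq Z ≤ ρ →
    NormedSpace.exp Z * (NormedSpace.exp Z)ᵀ = 1 → Zᵀ = -Z := by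
  obtain ⟨ρ, hρ, h⟩ := V05_inj N
  refine ⟨ρ, hρ, fun Z hZ ho => ?_⟩
  apply h
  · have h1 : fsq Zᵀ = fsq Z := P01_fip_t Z Z
    rw [h1]
    exact hZ
  · have h1 : fsq (-Z) = fsq Z := by
      unfold fsq
      rw [P01_fip_neg, P01_fip_neg_left, neg_neg]
    rw [h1]
    exact hZ
  · rw [Matrix.exp_transpose]
    have h1 : NormedSpace.exp (-Z) * NormedSpace.exp Z = 1 := by
      have h2 := V05_exp_neg (-Z)
      rwa [neg_neg] at h2
    calc (NormedSpace.exp Z)ᵀ = NormedSpace.exp (-Z) * NormedSpace.exp Z * (NormedSpace.exp Z)ᵀ := by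
          rw [h1, Matrix.one_mul]
      _ = NormedSpace.exp (-Z) := by rw [Matrix.mul_assoc, ho, Matrix.mul_one]

theorem prod_est (N : ℕ) : ∃ ρ : ℝ, 0 < ρ ∧ ∃ C : ℝ, 0 < C ∧ ∀ Z Y Y' : Mat N, fsq Z ≤ ρ →
    fsq Y ≤ ρ → fsq Y' ≤ ρ → NormedSpace.exp Z = NormedSpace.exp Y * NormedSpace.exp (-Y') →
    fsq (Z - (Y - Y')) ≤ C * (fsq Y + fsq Y') * fsq (Y - Y') := by
  exact V05_prod_aux N

theorem e_comm_add (L : LieData N G) {X Y : Mat N} (hX : X ∈ L.𝔤) (hY : Y ∈ L.𝔤)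
    (h : X * Y = Y * X) : L.e (X + Y) = L.e X * L.e Y := by
  have hcomm : ∀ s t : ℝ, L.e (s • X) * L.e (t • Y) = L.e (t • Y) * L.e (s • X) := by
    intro s t
    have hs := L.𝔤.smul_mem s hX
    have ht := L.𝔤.smul_mem t hY
    have h1 := L.ad_e (L.e (t • Y)) (s • X) hs
    have h2 : L.ι (L.e (t • Y)) * (s • X) * L.ι (L.e (t • Y))⁻¹ = s • X := by
      rw [← e_neg L ht, L.ι_e _ ht, L.ι_e _ (L.𝔤.neg_mem ht)]
      have hc : Commute (s • X) (t • Y) := (Commute.smul_left (Commute.smul_right h t) s)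
      have h3 : NormedSpace.exp (t • Y) * (s • X) = (s • X) * NormedSpace.exp (t • Y) := by
        exact (hc.exp_right).eq.symm
      rw [h3, Matrix.mul_assoc, V05_exp_neg, Matrix.mul_one]
    rw [h2] at h1
    exact eq_mul_inv_iff_mul_eq.1 h1
  have hadd : ∀ s t : ℝ, L.e ((s + t) • X) * L.e ((s + t) • Y) =
      (L.e (s • X) * L.e (s • Y)) * (L.e (t • X) * L.e (t • Y)) := by
    intro s t
    rw [L.e_add X hX, L.e_add Y hY]
    calc L.e (s • X) * L.e (t • X) * (L.e (s • Y) * L.e (t • Y))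
        = L.e (s • X) * (L.e (t • X) * L.e (s • Y)) * L.e (t • Y) := by simp only [mul_assoc]
      _ = L.e (s • X) * (L.e (s • Y) * L.e (t • X)) * L.e (t • Y) := by rw [hcomm t s]
      _ = _ := by simp only [mul_assoc]
  obtain ⟨ρ, hρ, hinj⟩ := V05_inj N
  obtain ⟨r, hr, hsm⟩ := e_mul_small L ρ hρ
  have hXY : X + Y ∈ L.𝔤 := L.𝔤.add_mem hX hY
  set M : ℝ := fsq X + fsq Y + fsq (X + Y) + 1 with hM
  have hMX := V01_fsq_nonneg X
  have hMY := V01_fsq_nonneg Y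
  have hMS := V01_fsq_nonneg (X + Y)
  have hM0 : 0 < M := by linarith
  obtain ⟨n, hn⟩ := exists_nat_gt (M / min ρ r)
  have hmr : 0 < min ρ r := lt_min hρ hr
  have hn0 : (0 : ℝ) < n := (div_pos hM0 hmr).trans hn
  have hn0' : 0 < n := by exact_mod_cast hn0
  set t : ℝ := (n : ℝ)⁻¹ with ht
  have ht0 : 0 < t := inv_pos.2 hn0
  have htn : t * n = 1 := inv_mul_cancel₀ hn0.ne'
  have hn1 : (1 : ℝ) ≤ n := by exact_mod_cast hn0'
  have ht1 : t ≤ 1 := inv_le_one_of_one_le₀ hn1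
  have hsm1 : ∀ W : Mat N, fsq W ≤ M → fsq (t • W) ≤ min ρ r := by
    intro W hW
    rw [V01_fsq_smul]
    have h1 : t ^ 2 * fsq W ≤ t * M := by
      have h2 : t ^ 2 ≤ t := by nlinarith
      exact mul_le_mul h2 hW (V01_fsq_nonneg _) ht0.le
    refine h1.trans ?_
    rw [div_lt_iff₀ hmr] at hn
    have h3 : t * M ≤ t * (n * min ρ r) := mul_le_mul_of_nonneg_left hn.le ht0.le
    rwa [← mul_assoc, htn, one_mul] at h3
  obtain ⟨Z, hZ, hZρ, hZe⟩ := hsm (t • X) (L.𝔤.smul_mem t hX) (t • Y) (L.𝔤.smul_mem t hY)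
    ((hsm1 X (by linarith)).trans (min_le_right _ _))
    ((hsm1 Y (by linarith)).trans (min_le_right _ _))
  have hZ1 : Z = t • (X + Y) := by
    apply hinj _ _ hZρ ((hsm1 (X + Y) (by linarith)).trans (min_le_left _ _))
    rw [← L.ι_e Z hZ, hZe, map_mul, L.ι_e _ (L.𝔤.smul_mem t hX), L.ι_e _ (L.𝔤.smul_mem t hY),
      smul_add, Matrix.exp_add_of_commute _ _ (Commute.smul_left (Commute.smul_right h t) t)]
  have hpow : ∀ k : ℕ, L.e (((k : ℝ) * t) • (X + Y)) =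
      L.e (((k : ℝ) * t) • X) * L.e (((k : ℝ) * t) • Y) := by
    intro k
    induction k with
    | zero =>
      rw [Nat.cast_zero, zero_mul, zero_smul, zero_smul, zero_smul, e_zero, mul_one]
    | succ k ih =>
      have h1 : ((k + 1 : ℕ) : ℝ) * t = (k : ℝ) * t + t := by push_cast; ring
      rw [h1, L.e_add _ hXY, hadd, ih, ← hZ1, hZe]
  have h1 := hpow n
  rw [mul_comm, htn, one_smul, one_smul, one_smul] at h1
  exact h1

end SBD
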