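import Pool.Agent.SBX.V05
import Pool.Agent.SBD.M01

/-!
# Row SBX-V07 : Haar measure near `1` dominates Lebesgue measure on `𝔤`

`co : ℝ^J → 𝔤` the coordinate map (isometric for the Euclidean norm, `fsq_co`).  For compact
`A ⊆ {x : ∀ i, |x_i| ≤ r}`: `vol A ≤ C μ(e(co A))`.

PROOF.  Let `ρ` be small (exp_bilip), `r` small (depending on `ρ`, `e_mul_small`).  `Q = e(co{|z_i| ≤ r})`: compact,
a neighbourhood of `1` (`L.e_nhds`, `b_basis`), so `0 < μ(Q) < ∞`; `B' = {y : fsq(co y) ≤ ρ}` compact.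
`I = ∫_{g∈Q} vol{y ∈ B' : g e(co y) ∈ e(co A)} dμ(g) = ∫_{y∈B'} μ{g ∈ Q : g e(co y) ∈ e(co A)} dy`
(Tonelli; the set `{(g,y) ∈ Q × B' : g e(co y) ∈ e(co A)}` is compact since `e ∘ co` is continuous and
`e(co A)` is compact), and `μ{g : g e(co y) ∈ e(co A)} = μ(e(co A) e(co y)⁻¹) = μ(e(co A))` (right
invariance).  So `I ≤ vol(B') μ(e(co A))`.
Lower bound: let `g = e(co z) ∈ Q`, `A_g = {y ∈ B' : g e(co y) ∈ e(co A)}` (compact).  For `x ∈ A` there is, by
`e_mul_small`, `y ∈ B'` with `e(co y) = e(-co z) e(co x) = g⁻¹ e(co x)`, so `y ∈ A_g`.  Conversely for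
`y ∈ A_g` let `x = φ(y) ∈ A` be a point with `g e(co y) = e(co x)`; it is unique (`exp(co x) =
exp(co z)exp(co y)`, `exp_bilip`) and `φ : A_g → A` is onto.  `φ` is Lipschitz:
`|x - x'| ≤ 2|exp(co x) - exp(co x')| = 2|exp(co z)(exp(co y) - exp(co y'))| ≤ 2·2·2|y - y'|`.  A Lipschitz image
has `vol A = vol φ(A_g) ≤ C₁ vol A_g` (e.g. `LipschitzOnWith.hausdorffMeasure_image_le` and
`MeasureTheory.hausdorffMeasure_pi_real`; the sup norm and the Euclidean norm are equivalent).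
So `I ≥ μ(Q) vol(A)/C₁`.
-/

open MeasureTheory Filter Topology
open scoped ENNReal NNReal Matrix

noncomputable section

namespace SBD

variable {N : ℕ} {G : Type} [Group G] [TopologicalSpace G] [IsTopologicalGroup G]
  [LocallyCompactSpace G] [T2Space G]
variable [SecondCountableTopology G] [MeasurableSpace G] [BorelSpace G]

private theorem v07_fsq_eq (M : Mat N) : fsq M = ∑ i, ∑ j, M i j ^ 2 := by
  unfold fsq fip
  rw [Matrix.trace, Finset.sum_comm]
  refine Finset.sum_congr rfl fun j _ => ?_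
  rw [Matrix.diag_apply, Matrix.mul_apply]
  refine Finset.sum_congr rfl fun i _ => ?_
  rw [Matrix.transpose_apply, sq]

private theorem v07_fsq_nonneg (M : Mat N) : 0 ≤ fsq M := by
  rw [v07_fsq_eq]
  exact Finset.sum_nonneg fun i _ => Finset.sum_nonneg fun j _ => sq_nonneg _

private theorem v07_fsq_mul_le (A B : Mat N) : fsq (A * B) ≤ fsq A * fsq B := by
  rw [v07_fsq_eq, v07_fsq_eq A, v07_fsq_eq B]
  have h1 : ∀ i j, (A * B) i j ^ 2 ≤ (∑ k, A i k ^ 2) * ∑ k, B k j ^ 2 := by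
    intro i j
    rw [Matrix.mul_apply]
    exact Finset.sum_mul_sq_le_sq_mul_sq _ _ _
  calc ∑ i, ∑ j, (A * B) i j ^ 2 ≤ ∑ i, ∑ j, (∑ k, A i k ^ 2) * ∑ k, B k j ^ 2 :=
        Finset.sum_le_sum fun i _ => Finset.sum_le_sum fun j _ => h1 i j
    _ = (∑ i, ∑ k, A i k ^ 2) * ∑ j, ∑ k, B k j ^ 2 := by
        rw [Finset.sum_mul_sum]
    _ = (∑ i, ∑ j, A i j ^ 2) * ∑ i, ∑ j, B i j ^ 2 := by
        rw [Finset.sum_comm (f := fun j k => B k j ^ 2)]

private theorem v07_fsq_cont : Continuous (fun M : Mat N => fsq M) := by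
  have : (fun M : Mat N => fsq M) = fun M => ∑ i, ∑ j, M i j ^ 2 := funext v07_fsq_eq
  rw [this]
  fun_prop

private theorem v07_fsq_add_le (A B : Mat N) : fsq (A + B) ≤ 2 * fsq A + 2 * fsq B := by
  rw [v07_fsq_eq, v07_fsq_eq A, v07_fsq_eq B, Finset.mul_sum, Finset.mul_sum,
    ← Finset.sum_add_distrib]
  refine Finset.sum_le_sum fun i _ => ?_
  rw [Finset.mul_sum, Finset.mul_sum, ← Finset.sum_add_distrib]
  refine Finset.sum_le_sum fun j _ => ?_
  rw [Matrix.add_apply]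
  nlinarith [sq_nonneg (A i j - B i j)]

private theorem v07_lip {J : Type} [Fintype J] (K : ℝ≥0) (φ : (J → ℝ) → (J → ℝ))
    (T A : Set (J → ℝ)) (h : LipschitzOnWith K φ T) (hA : A ⊆ φ '' T) :
    volume A ≤ (K : ℝ≥0∞) ^ (Fintype.card J : ℝ) * volume T := by
  rw [← MeasureTheory.hausdorffMeasure_pi_real]
  exact (measure_mono hA).trans (h.hausdorffMeasure_image_le (Nat.cast_nonneg _))

omit [IsTopologicalGroup G] [LocallyCompactSpace G] [T2Space G] [SecondCountableTopology G]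
  [MeasurableSpace G] [BorelSpace G] in
private theorem v07_co_sub {L : LieData N G} (B : Bases L) (x y : B.J → ℝ) :
    B.co (x - y) = B.co x - B.co y := by
  unfold Bases.co
  rw [← Finset.sum_sub_distrib]
  refine Finset.sum_congr rfl fun i _ => ?_
  rw [Pi.sub_apply, sub_smul]

omit [IsTopologicalGroup G] [LocallyCompactSpace G] [T2Space G] [SecondCountableTopology G]
  [MeasurableSpace G] [BorelSpace G] in
private theorem v07_co_cont {L : LieData N G} (B : Bases L) : Continuous B.co := by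
  unfold Bases.co
  exact continuous_finsetSum _ fun i _ => (continuous_apply i).smul continuous_const

omit [SecondCountableTopology G] [MeasurableSpace G] [BorelSpace G] in
private theorem v07_e_co_cont {L : LieData N G} (B : Bases L) :
    Continuous fun x : B.J → ℝ => L.e (B.co x) :=
  L.e_cont.comp_continuous (v07_co_cont B) fun x => co_mem B x

omit [SecondCountableTopology G] [MeasurableSpace G] [BorelSpace G] in
private theorem v07_surj {L : LieData N G} (B : Bases L) {X : Mat N} (hX : X ∈ L.𝔤) :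
    B.co (fun i => fip (B.b i) X) = X := by
  unfold Bases.co
  exact (b_basis B hX).symm

omit [SecondCountableTopology G] [MeasurableSpace G] [BorelSpace G] in
/-- for `z` small, the set `A` is a Lipschitz image of `A_g`, `g = e(co z)`. -/
private theorem v07_lower (L : LieData N G) (B : Bases L) : ∃ ρ : ℝ, 0 < ρ ∧ ∃ r : ℝ, 0 < r ∧
    ∃ K : ℝ≥0, ∀ A : Set (B.J → ℝ), (∀ x ∈ A, ∀ i, |x i| ≤ r) →
      ∀ z : B.J → ℝ, (∀ i, |z i| ≤ r) →
      volume A ≤ (K : ℝ≥0∞) ^ (Fintype.card B.J : ℝ) *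
        volume {y : B.J → ℝ | fsq (B.co y) ≤ ρ ∧
          L.e (B.co z) * L.e (B.co y) ∈ L.e '' (B.co '' A)} := by
  obtain ⟨ρ, hρ, hbil⟩ := exp_bilip N
  obtain ⟨r1, hr1, hmul⟩ := e_mul_small L ρ hρ
  set d : ℝ := (Fintype.card B.J : ℝ) with hd
  have hd0 : 0 ≤ d := Nat.cast_nonneg _
  set r : ℝ := Real.sqrt (min r1 ρ / (d + 1)) with hr
  have hm : 0 < min r1 ρ := lt_min hr1 hρ
  have hr0 : 0 < r := Real.sqrt_pos.2 (by positivity)
  have hrsq : r ^ 2 = min r1 ρ / (d + 1) := Real.sq_sqrt (by positivity)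
  have hsmall : ∀ x : B.J → ℝ, (∀ i, |x i| ≤ r) → fsq (B.co x) ≤ min r1 ρ := by
    intro x hx
    rw [fsq_co]
    calc ∑ i, x i ^ 2 ≤ ∑ _i : B.J, r ^ 2 := Finset.sum_le_sum fun i _ => by
          rw [← sq_abs]
          exact pow_le_pow_left₀ (abs_nonneg _) (hx i) 2
      _ = d * r ^ 2 := by rw [Finset.sum_const, nsmul_eq_mul, Finset.card_univ]
      _ ≤ min r1 ρ := by
          rw [hrsq, ← mul_div_assoc, div_le_iff₀ (by positivity)]
          nlinarith
  -- bound for `exp`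
  set M : ℝ := 8 * ρ + 2 * fsq (1 : Mat N) with hM
  have hM0 : 0 ≤ M := by have := v07_fsq_nonneg (1 : Mat N); positivity
  have hexp : ∀ Z : Mat N, fsq Z ≤ ρ → fsq (NormedSpace.exp Z) ≤ M := by
    intro Z hZ
    have h0 : fsq (0 : Mat N) ≤ ρ := by
      rw [v07_fsq_eq]; simpa using hρ.le
    have h1 := (hbil Z 0 hZ h0).2
    rw [NormedSpace.exp_zero, sub_zero] at h1
    have h2 := v07_fsq_add_le (NormedSpace.exp Z - 1) (1 : Mat N)
    rw [sub_add_cancel] at h2
    linarith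
  set K : ℝ≥0 := Real.toNNReal (Real.sqrt (16 * M * d)) with hK
  refine ⟨ρ, hρ, r, hr0, K, ?_⟩
  intro A hA z hz
  set T : Set (B.J → ℝ) := {y : B.J → ℝ | fsq (B.co y) ≤ ρ ∧
          L.e (B.co z) * L.e (B.co y) ∈ L.e '' (B.co '' A)} with hT
  have hzs := hsmall z hz
  have hzρ : fsq (B.co z) ≤ ρ := hzs.trans (min_le_right _ _)
  have hex : ∀ y : B.J → ℝ, y ∈ T → ∃ x ∈ A, L.e (B.co z) * L.e (B.co y) = L.e (B.co x) := by
    intro y hy
    obtain ⟨_, ⟨X, ⟨x, hx, rfl⟩, hX⟩⟩ := hy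
    exact ⟨x, hx, hX.symm⟩
  classical
  set φ : (B.J → ℝ) → (B.J → ℝ) := fun y =>
    if h : ∃ x ∈ A, L.e (B.co z) * L.e (B.co y) = L.e (B.co x) then h.choose else 0 with hφ
  have hφs : ∀ y ∈ T, φ y ∈ A ∧ L.e (B.co z) * L.e (B.co y) = L.e (B.co (φ y)) := by
    intro y hy
    have h := hex y hy
    have e : φ y = h.choose := by rw [hφ]; exact dif_pos h
    rw [e]
    exact h.choose_spec
  have hinj : ∀ x x' : B.J → ℝ, ∑ i, (x i - x' i) ^ 2 ≤ 0 → x = x' := by
    intro x x' h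
    funext i
    have h1 : (x i - x' i) ^ 2 ≤ ∑ i, (x i - x' i) ^ 2 :=
      Finset.single_le_sum (f := fun i => (x i - x' i) ^ 2) (fun i _ => sq_nonneg _)
        (Finset.mem_univ i)
    have h2 : (x i - x' i) ^ 2 = 0 := le_antisymm (h1.trans h) (sq_nonneg _)
    have h3 := pow_eq_zero_iff (two_ne_zero) |>.1 h2
    linarith
  have hsub : ∀ x x' : B.J → ℝ, fsq (B.co x - B.co x') = ∑ i, (x i - x' i) ^ 2 := by
    intro x x'
    rw [← v07_co_sub, fsq_co]
    rfl
  refine v07_lip K φ T A ?_ ?_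
  · -- Lipschitz
    rw [lipschitzOnWith_iff_dist_le_mul]
    intro y hy y' hy'
    obtain ⟨hyA, hye⟩ := hφs y hy
    obtain ⟨hyA', hye'⟩ := hφs y' hy'
    have i1 : NormedSpace.exp (B.co z) * NormedSpace.exp (B.co y) =
        NormedSpace.exp (B.co (φ y)) := by
      rw [← L.ι_e _ (co_mem B z), ← L.ι_e _ (co_mem B y), ← L.ι_e _ (co_mem B (φ y)), ← map_mul,
        hye]
    have i2 : NormedSpace.exp (B.co z) * NormedSpace.exp (B.co y') =
        NormedSpace.exp (B.co (φ y')) := by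
      rw [← L.ι_e _ (co_mem B z), ← L.ι_e _ (co_mem B y'), ← L.ι_e _ (co_mem B (φ y')), ← map_mul,
        hye']
    have hx1 : fsq (B.co (φ y)) ≤ ρ := (hsmall _ (hA _ hyA)).trans (min_le_right _ _)
    have hx2 : fsq (B.co (φ y')) ≤ ρ := (hsmall _ (hA _ hyA')).trans (min_le_right _ _)
    have b1 := (hbil _ _ hx1 hx2).1
    have b2 := (hbil _ _ hy.1 hy'.1).2
    rw [← i1, ← i2, ← mul_sub] at b1
    have b3 := v07_fsq_mul_le (NormedSpace.exp (B.co z))
      (NormedSpace.exp (B.co y) - NormedSpace.exp (B.co y'))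
    have b4 := hexp _ hzρ
    have hn1 := v07_fsq_nonneg (NormedSpace.exp (B.co y) - NormedSpace.exp (B.co y'))
    have hn2 := v07_fsq_nonneg (B.co y - B.co y')
    have b5 : fsq (B.co (φ y) - B.co (φ y')) ≤ 16 * M * fsq (B.co y - B.co y') := by
      have b6 : fsq (NormedSpace.exp (B.co z)) *
          fsq (NormedSpace.exp (B.co y) - NormedSpace.exp (B.co y')) ≤
          M * (4 * fsq (B.co y - B.co y')) := by
        apply mul_le_mul b4 b2 hn1 hM0
      linarith
    rw [hsub, hsub] at b5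
    have b7 : ∑ i, (y i - y' i) ^ 2 ≤ d * Dist.dist y y' ^ 2 := by
      calc ∑ i, (y i - y' i) ^ 2 ≤ ∑ _i : B.J, Dist.dist y y' ^ 2 := Finset.sum_le_sum fun i _ => by
            rw [← sq_abs, ← Real.dist_eq]
            exact pow_le_pow_left₀ dist_nonneg (dist_le_pi_dist y y' i) 2
        _ = d * Dist.dist y y' ^ 2 := by rw [Finset.sum_const, nsmul_eq_mul, Finset.card_univ]
    have b8 : ((K : ℝ≥0) : ℝ) * Dist.dist y y' = Real.sqrt (16 * M * d) * Dist.dist y y' := by
      rw [hK, Real.coe_toNNReal _ (Real.sqrt_nonneg _)]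
    rw [b8]
    have hnn : 0 ≤ Real.sqrt (16 * M * d) * Dist.dist y y' :=
      mul_nonneg (Real.sqrt_nonneg _) dist_nonneg
    rw [dist_pi_le_iff hnn]
    intro i
    rw [Real.dist_eq]
    apply abs_le_of_sq_le_sq _ hnn
    rw [mul_pow, Real.sq_sqrt (by positivity)]
    have b9 : (φ y i - φ y' i) ^ 2 ≤ ∑ i, (φ y i - φ y' i) ^ 2 :=
      Finset.single_le_sum (f := fun i => (φ y i - φ y' i) ^ 2) (fun i _ => sq_nonneg _)
        (Finset.mem_univ i)
    calc (φ y i - φ y' i) ^ 2 ≤ 16 * M * ∑ i, (y i - y' i) ^ 2 := b9.trans b5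
      _ ≤ 16 * M * (d * Dist.dist y y' ^ 2) := mul_le_mul_of_nonneg_left b7 (by positivity)
      _ = 16 * M * d * Dist.dist y y' ^ 2 := by ring
  · -- onto
    intro x hx
    have hzn : -B.co z ∈ L.𝔤 := L.𝔤.neg_mem (co_mem B z)
    have hzn1 : fsq (-B.co z) ≤ r1 := by
      have : fsq (-B.co z) = fsq (B.co z) := by
        rw [v07_fsq_eq, v07_fsq_eq]
        refine Finset.sum_congr rfl fun i _ => Finset.sum_congr rfl fun j _ => ?_
        rw [Matrix.neg_apply, neg_sq]
      rw [this]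
      exact hzs.trans (min_le_left _ _)
    obtain ⟨Z, hZg, hZρ, hZe⟩ := hmul _ hzn _ (co_mem B x) hzn1
      ((hsmall _ (hA x hx)).trans (min_le_left _ _))
    have hco := v07_surj B hZg
    have hy : L.e (B.co z) * L.e (B.co (fun i => fip (B.b i) Z)) = L.e (B.co x) := by
      rw [hco, hZe, e_neg L (co_mem B z), mul_inv_cancel_left]
    have hyT : (fun i => fip (B.b i) Z) ∈ T := by
      refine ⟨?_, ?_⟩
      · rw [hco]; exact hZρ
      · exact ⟨B.co x, ⟨x, hx, rfl⟩, hy.symm⟩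
    refine ⟨_, hyT, ?_⟩
    obtain ⟨h1, h2⟩ := hφs _ hyT
    rw [hy] at h2
    have h3 : NormedSpace.exp (B.co x) = NormedSpace.exp (B.co (φ fun i => fip (B.b i) Z)) := by
      rw [← L.ι_e _ (co_mem B x), ← L.ι_e _ (co_mem B _), h2]
    have h4 := (hbil _ _ ((hsmall _ (hA _ h1)).trans (min_le_right _ _))
      ((hsmall _ (hA x hx)).trans (min_le_right _ _))).1
    rw [h3, sub_self] at h4
    have h5 : fsq (0 : Mat N) = 0 := by rw [v07_fsq_eq]; simp
    rw [h5, mul_zero, hsub] at h4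
    exact hinj _ _ h4

theorem haar_ge (L : LieData N G) (B : Bases L) (μ : Measure G) [μ.IsHaarMeasure]
    [μ.IsMulRightInvariant] : ∃ r : ℝ, 0 < r ∧ ∃ C : ℝ, 0 < C ∧ ∀ A : Set (B.J → ℝ),
      IsCompact A → (∀ x ∈ A, ∀ i, |x i| ≤ r) →
      volume A ≤ ENNReal.ofReal C * μ (L.e '' (B.co '' A)) := by
  obtain ⟨ρ, hρ, r, hr, K, hlow⟩ := v07_lower L B
  have hψ := v07_e_co_cont B
  set Q0 : Set (B.J → ℝ) := {z | ∀ i, |z i| ≤ r} with hQ0
  have hQ0c : IsCompact Q0 := by
    have h1 : Q0 = Set.pi Set.univ fun _ : B.J => Set.Icc (-r) r := by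
      ext z
      simp only [hQ0, Set.mem_ofPred_eq, Set.mem_pi, Set.mem_univ, true_implies, Set.mem_Icc,
        abs_le]
    rw [h1]
    exact isCompact_univ_pi fun _ => isCompact_Icc
  set Q : Set G := (fun x : B.J → ℝ => L.e (B.co x)) '' Q0 with hQ
  have hQc : IsCompact Q := hQ0c.image hψ
  have hQn : Q ∈ 𝓝 (1 : G) := by
    have hU : {X : Mat N | fsq X < r ^ 2} ∈ 𝓝 (0 : Mat N) := by
      refine (isOpen_lt v07_fsq_cont continuous_const).mem_nhds ?_
      have h5 : fsq (0 : Mat N) = 0 := by rw [v07_fsq_eq]; simp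
      change fsq (0 : Mat N) < r ^ 2
      rw [h5]; positivity
    refine Filter.mem_of_superset (L.e_nhds _ hU) ?_
    rintro _ ⟨X, ⟨hX, hXg⟩, rfl⟩
    refine ⟨fun i => fip (B.b i) X, ?_, ?_⟩
    · intro i
      have h1 : fip (B.b i) X ^ 2 ≤ fsq X := by
        rw [fsq_coord B hXg]
        exact Finset.single_le_sum (f := fun i => fip (B.b i) X ^ 2) (fun i _ => sq_nonneg _)
          (Finset.mem_univ i)
      have h2 : fsq X < r ^ 2 := hX
      exact abs_le_of_sq_le_sq (h1.trans h2.le) hr.le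
    · change L.e (B.co fun i => fip (B.b i) X) = L.e X
      rw [v07_surj B hXg]
  have hQpos : μ Q ≠ 0 := (Measure.measure_pos_of_mem_nhds μ hQn).ne'
  have hQfin : μ Q ≠ ∞ := hQc.measure_lt_top.ne
  set B' : Set (B.J → ℝ) := {y | fsq (B.co y) ≤ ρ} with hB'
  have hB'cl : IsClosed B' := isClosed_le (v07_fsq_cont.comp (v07_co_cont B)) continuous_const
  have hB'c : IsCompact B' := by
    have h1 : IsCompact (Set.pi Set.univ fun _ : B.J =>
        Set.Icc (-Real.sqrt ρ) (Real.sqrt ρ)) := isCompact_univ_pi fun _ => isCompact_Icc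
    refine h1.of_isClosed_subset hB'cl ?_
    intro y hy i _
    have h2 : fsq (B.co y) ≤ ρ := hy
    rw [fsq_co] at h2
    have h3 : y i ^ 2 ≤ ∑ i, y i ^ 2 :=
      Finset.single_le_sum (f := fun i => y i ^ 2) (fun i _ => sq_nonneg _) (Finset.mem_univ i)
    have h4 : y i ^ 2 ≤ Real.sqrt ρ ^ 2 := by rw [Real.sq_sqrt hρ.le]; exact h3.trans h2
    have h5 := abs_le_of_sq_le_sq h4 (Real.sqrt_nonneg _)
    exact Set.mem_Icc.2 (abs_le.1 h5)
  have hB'fin : volume B' ≠ ∞ := hB'c.measure_lt_top.ne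
  set c : ℝ≥0∞ := (K : ℝ≥0∞) ^ (Fintype.card B.J : ℝ) with hc
  have hcfin : c ≠ ∞ := ENNReal.rpow_ne_top_of_nonneg (Nat.cast_nonneg _) ENNReal.coe_ne_top
  set D : ℝ≥0∞ := c * volume B' / μ Q with hD
  have hDfin : D ≠ ∞ := ENNReal.div_ne_top (ENNReal.mul_ne_top hcfin hB'fin) hQpos
  refine ⟨r, hr, D.toReal + 1, by positivity, ?_⟩
  intro A hAc hA
  set E : Set G := L.e '' (B.co '' A) with hE
  have hEeq : E = (fun x : B.J → ℝ => L.e (B.co x)) '' A := by
    rw [hE, Set.image_image]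
  have hEc : IsCompact E := by rw [hEeq]; exact hAc.image hψ
  -- the set in the product
  set S : Set (G × (B.J → ℝ)) :=
    {p | p.1 ∈ Q ∧ p.2 ∈ B' ∧ p.1 * L.e (B.co p.2) ∈ E} with hS
  have hScl : IsClosed S := by
    have h1 : IsClosed {p : G × (B.J → ℝ) | p.1 ∈ Q} := hQc.isClosed.preimage continuous_fst
    have h2 : IsClosed {p : G × (B.J → ℝ) | p.2 ∈ B'} := hB'cl.preimage continuous_snd
    have h3 : IsClosed {p : G × (B.J → ℝ) | p.1 * L.e (B.co p.2) ∈ E} :=
      hEc.isClosed.preimage (continuous_fst.mul (hψ.comp continuous_snd))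
    exact h1.inter (h2.inter h3)
  have hSm : MeasurableSet S := hScl.measurableSet
  have hp1 := Measure.prod_apply (μ := μ) (ν := (volume : Measure (B.J → ℝ))) hSm
  have hp2 := Measure.prod_apply_symm (μ := μ) (ν := (volume : Measure (B.J → ℝ))) hSm
  -- lower bound
  have hlo : volume A * μ Q ≤ c * (μ.prod (volume : Measure (B.J → ℝ))) S := by
    rw [hp1]
    have h1 : ∫⁻ _ in Q, volume A ∂μ = volume A * μ Q := setLIntegral_const _ _
    rw [← h1, ← lintegral_const_mul' _ _ hcfin,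
      ← lintegral_indicator hQc.isClosed.measurableSet]
    refine lintegral_mono fun g => ?_
    by_cases hg : g ∈ Q
    · rw [Set.indicator_of_mem hg]
      obtain ⟨z, hz, rfl⟩ := hg
      refine (hlow A hA z hz).trans ?_
      refine mul_le_mul_right ?_ _
      refine measure_mono ?_
      intro y hy
      exact ⟨⟨z, hz, rfl⟩, hy.1, hy.2⟩
    · rw [Set.indicator_of_notMem hg]
      exact bot_le
  -- upper bound
  have hup : (μ.prod (volume : Measure (B.J → ℝ))) S ≤ volume B' * μ E := by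
    rw [hp2]
    have h1 : ∫⁻ _ in B', μ E ∂(volume : Measure (B.J → ℝ)) = μ E * volume B' :=
      setLIntegral_const _ _
    rw [mul_comm, ← h1, ← lintegral_indicator hB'cl.measurableSet]
    refine lintegral_mono fun y => ?_
    by_cases hy : y ∈ B'
    · rw [Set.indicator_of_mem hy]
      have h2 : (fun g : G => (g, y)) ⁻¹' S ⊆ (fun g : G => g * L.e (B.co y)) ⁻¹' E :=
        fun g hg => hg.2.2
      refine (measure_mono h2).trans ?_
      rw [measure_preimage_mul_right]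
    · rw [Set.indicator_of_notMem hy]
      have h2 : (fun g : G => (g, y)) ⁻¹' S = ∅ := by
        ext g
        constructor
        · intro hg
          exact (hy hg.2.1).elim
        · intro hg
          exact hg.elim
      rw [h2, measure_empty]
  have hall : volume A * μ Q ≤ c * (volume B' * μ E) := hlo.trans (mul_le_mul_right hup _)
  have hfin : volume A ≤ D * μ E := by
    rw [hD]
    have h1 : volume A ≤ c * (volume B' * μ E) / μ Q := by
      rw [ENNReal.le_div_iff_mul_le (Or.inl hQpos) (Or.inl hQfin)]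
      exact hall
    refine h1.trans (le_of_eq ?_)
    rw [ENNReal.div_eq_inv_mul, ENNReal.div_eq_inv_mul]
    ring
  refine hfin.trans ?_
  refine mul_le_mul_left ?_ _
  calc D = ENNReal.ofReal D.toReal := (ENNReal.ofReal_toReal hDfin).symm
    _ ≤ ENNReal.ofReal (D.toReal + 1) := ENNReal.ofReal_le_ofReal (by linarith)

end SBD
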