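import Pool.Agent.SBX.V03
import Pool.Agent.SBX.V07

/-!
# Row SBX-V08 : `μ(K e(X) U) ≤ C δ(e X)`

PROOF.  `r, C₁` from V07 (decrease `r` so that, moreover, `V := {v : ∃ W ∈ 𝔤, fsq W ≤ (card J) r², v = e W}` …).
Let `V₀ = e(co{|x_i| ≤ r})`, compact.  Choose `U₁` open, `1 ∈ U₁`, with `U₁ = U₁⁻¹`, compact closure, and
(after decreasing `r`) `e(co{∑x_i² ≤ card(J) r²}) ⊆ U₁`.  `U := U₁`.
Fix `X ∈ 𝔭`, `g = e X`.  Let `k_1,…,k_q ∈ K` be such that the sets `k_i g U₁` are pairwise disjoint.  Put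
`A = {x : |x_i| ≤ r ∀i, ∑_i (AdM(e(-X)) x)_i² ≤ card(J) r²}` (compact) and `𝒪 = e(co A)`.  For `x ∈ A`:
`e(co x) ∈ V₀` and `g⁻¹e(co x)g = e(ι(g⁻¹) co x ι(g)) = e(co(AdM(g⁻¹)x)) ∈ U₁` (`ad_e`, `AdM_coord`), so
`e(co x) ∈ g U₁ g⁻¹`.  So `k_i 𝒪 ⊆ k_i g U₁ g⁻¹` are pairwise disjoint and contained in the compact set `K V₀`:
`q μ(𝒪) ≤ μ(K V₀) =: C₂`.  With `diag_ad`: in the coordinates `x' = Qᵀx` the condition is implied by
`|x'_i| ≤ (r/√card J) min(1, e^{a_i})`; the volume of this box is `≥ c ∏ min(1,e^{a_i}) = c e^{-∑_{a_i<0}|a_i|}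
= c e^{-½∑|a_i|} ≥ c/dl(e X)`; (`Q` preserves volume and `|x_i| ≤ |x|₂`).  So `μ(𝒪) ≥ vol(A)/C₁ ≥ c'/dl(e X)`
and `q ≤ C₃ dl(e X)`.
Take a family with `q` maximal (possible as `q ≤ C₃ dl`).  Then for every `k ∈ K` there is `i` with
`k g U₁ ∩ k_i g U₁ ≠ ∅`, so `k g ∈ k_i g U₁U₁⁻¹` and `K g U₁ ⊆ ⋃ k_i g U₁U₁⁻¹U₁`;
`μ(K g U₁) ≤ q μ(U₁U₁⁻¹U₁) ≤ C dl(e X)` (left invariance; `U₁U₁⁻¹U₁` is relatively compact).
-/

open MeasureTheory Filter Topology
open scoped ENNReal NNReal Matrix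

open scoped Pointwise

noncomputable section

namespace SBD

variable {N : ℕ} {G : Type} [Group G] [TopologicalSpace G] [IsTopologicalGroup G]
  [LocallyCompactSpace G] [T2Space G]

omit [IsTopologicalGroup G] [LocallyCompactSpace G] [T2Space G] in
private theorem V08_co_cont {L : LieData N G} (B : Bases L) : Continuous B.co := by
  unfold Bases.co
  exact continuous_finsetSum _ fun i _ => (continuous_apply i).smul continuous_const

private theorem V08_eco_cont {L : LieData N G} (B : Bases L) :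
    Continuous fun x => L.e (B.co x) :=
  L.e_cont.comp_continuous (V08_co_cont B) fun x => co_mem B x

private theorem V08_conj {L : LieData N G} (B : Bases L) (g : G) (x : B.J → ℝ) :
    L.ι g * B.co x * L.ι g⁻¹ = B.co (AdM B g *ᵥ x) := by
  refine (b_basis B (L.ad_mem g _ (co_mem B x))).trans ?_
  unfold Bases.co
  refine Finset.sum_congr rfl fun i _ => ?_
  congr 1
  change fip (B.b i) (L.ι g * B.co x * L.ι g⁻¹) = _
  rw [AdM_coord B g (co_mem B x)]
  simp only [fip_co, Matrix.mulVec, dotProduct]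

private theorem V08_norm {ι : Type} [Fintype ι] [DecidableEq ι] (Q : Matrix ι ι ℝ)
    (h : Qᵀ * Q = 1) (x : ι → ℝ) : ∑ i, (Q *ᵥ x) i ^ 2 = ∑ i, x i ^ 2 := by
  have h1 : (Q *ᵥ x) ⬝ᵥ (Q *ᵥ x) = x ⬝ᵥ x := by
    rw [Matrix.dotProduct_mulVec, ← Matrix.mulVec_transpose, Matrix.mulVec_mulVec, h,
      Matrix.one_mulVec]
  simpa [dotProduct, pow_two] using h1

private theorem V08_vol {L : LieData N G} (B : Bases L) {X : Mat N} (hX : X ∈ L.𝔤)
    (ht : Xᵀ = X) {s ρ : ℝ} (hs : 0 < s) (hρ : Fintype.card B.J * s ^ 2 ≤ ρ) :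
    ENNReal.ofReal ((2 * s) ^ Fintype.card B.J / dl B (L.e X)) ≤
      volume {x : B.J → ℝ | ∑ i, x i ^ 2 ≤ ρ ∧ ∑ i, (AdM B (L.e (-X)) *ᵥ x) i ^ 2 ≤ ρ} := by
  obtain ⟨Q, a, hQ1, hQ2, -, hAd, hsum, hdl, -⟩ := diag_ad B hX ht
  have hAd1 := hAd (-1)
  rw [neg_one_smul] at hAd1
  let c : B.J → ℝ := fun i => s * min 1 (Real.exp (a i))
  have hc0 : ∀ i, 0 ≤ c i := fun i => by positivity
  have hsub : (Matrix.toLin' Q) '' (Set.Icc (-c) c) ⊆
      {x : B.J → ℝ | ∑ i, x i ^ 2 ≤ ρ ∧ ∑ i, (AdM B (L.e (-X)) *ᵥ x) i ^ 2 ≤ ρ} := by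
    rintro _ ⟨x, hx, rfl⟩
    have hxi : ∀ i, |x i| ≤ c i := fun i => abs_le.mpr ⟨hx.1 i, hx.2 i⟩
    rw [Matrix.toLin'_apply]
    constructor
    · rw [V08_norm Q hQ2]
      calc ∑ i, x i ^ 2 ≤ ∑ _i : B.J, s ^ 2 := by
            refine Finset.sum_le_sum fun i _ => ?_
            have h1 : |x i| ≤ s := (hxi i).trans (by
              have := min_le_left 1 (Real.exp (a i))
              exact mul_le_of_le_one_right hs.le this)
            rw [← sq_abs]; exact pow_le_pow_left₀ (abs_nonneg _) h1 2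
        _ = Fintype.card B.J * s ^ 2 := by simp
        _ ≤ ρ := hρ
    · have h1 : AdM B (L.e (-X)) *ᵥ (Q *ᵥ x) =
          Q *ᵥ (fun i => Real.exp (-1 * a i) * x i) := by
        rw [hAd1, Matrix.mulVec_mulVec, Matrix.mul_assoc, hQ2, Matrix.mul_one,
          ← Matrix.mulVec_mulVec]
        congr 1
        funext i
        rw [Matrix.mulVec_diagonal]
      rw [h1, V08_norm Q hQ2]
      calc ∑ i, (Real.exp (-1 * a i) * x i) ^ 2 ≤ ∑ _i : B.J, s ^ 2 := by
            refine Finset.sum_le_sum fun i _ => ?_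
            have h2 : |Real.exp (-1 * a i) * x i| ≤ s := by
              rw [abs_mul, Real.abs_exp]
              calc Real.exp (-1 * a i) * |x i| ≤ Real.exp (-1 * a i) * (s * Real.exp (a i)) := by
                    apply mul_le_mul_of_nonneg_left _ (Real.exp_nonneg _)
                    exact (hxi i).trans (mul_le_mul_of_nonneg_left (min_le_right _ _) hs.le)
                _ = s * (Real.exp (-1 * a i) * Real.exp (a i)) := by ring
                _ = s := by rw [← Real.exp_add]; simp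
            rw [← sq_abs]; exact pow_le_pow_left₀ (abs_nonneg _) h2 2
        _ = Fintype.card B.J * s ^ 2 := by simp
        _ ≤ ρ := hρ
  refine le_trans ?_ (measure_mono hsub)
  have hdet : |LinearMap.det (Matrix.toLin' Q)| = 1 := by
    rw [LinearMap.det_toLin']
    have h1 : Q.det * Q.det = 1 := by
      have := congrArg Matrix.det hQ1
      rwa [Matrix.det_mul, Matrix.det_transpose, Matrix.det_one] at this
    rcases mul_self_eq_one_iff.mp h1 with h | h <;> rw [h] <;> simp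
  rw [MeasureTheory.Measure.addHaar_image_linearMap, hdet, ENNReal.ofReal_one, one_mul,
    Real.volume_Icc_pi, ← ENNReal.ofReal_prod_of_nonneg]
  · apply ENNReal.ofReal_le_ofReal
    have h1 : ∀ i, c i - (-c) i = (2 * s) * Real.exp ((a i - |a i|) / 2) := by
      intro i
      have h2 : min 1 (Real.exp (a i)) = Real.exp ((a i - |a i|) / 2) := by
        rcases le_total 0 (a i) with h | h
        · rw [abs_of_nonneg h, min_eq_left (Real.one_le_exp h)]; simp
        · rw [abs_of_nonpos h, min_eq_right (Real.exp_le_one_iff.mpr h)]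
          congr 1; ring
      change s * min 1 (Real.exp (a i)) - -(s * min 1 (Real.exp (a i))) = _
      rw [h2]; ring
    rw [Finset.prod_congr rfl fun i _ => h1 i, Finset.prod_mul_distrib, Finset.prod_const,
      ← Real.exp_sum, Finset.card_univ, div_eq_mul_inv]
    apply mul_le_mul_of_nonneg_left _ (by positivity)
    have h3 : ∑ i, (a i - |a i|) / 2 = -((∑ i, |a i|) / 2) := by
      rw [← Finset.sum_div, Finset.sum_sub_distrib, hsum]; ring
    rw [h3, Real.exp_neg]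
    exact inv_anti₀ (Real.exp_pos _) hdl
  · intro i _
    change 0 ≤ c i - -c i
    linarith [hc0 i]

variable [SecondCountableTopology G] [MeasurableSpace G] [BorelSpace G]

theorem vol_KXU (L : LieData N G) (B : Bases L) (μ : Measure G) [μ.IsHaarMeasure]
    [μ.IsMulRightInvariant] : ∃ U ∈ 𝓝 (1 : G), ∃ C : ℝ, 0 < C ∧ ∀ X ∈ L.𝔤, Xᵀ = X →
      μ {g : G | ∃ k ∈ L.K, ∃ u ∈ U, g = k * L.e X * u} ≤ ENNReal.ofReal (C * dl B (L.e X)) := by
  classical
  obtain ⟨r, hr, C₁, hC₁, hV⟩ := haar_ge L B μ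
  obtain ⟨K₀, hK₀c, hK₀n⟩ := exists_compact_mem_nhds (1 : G)
  obtain ⟨U, hUdef⟩ : ∃ U : Set G, U = K₀ ∩ K₀⁻¹ := ⟨_, rfl⟩
  have hUc : IsCompact U := by rw [hUdef]; exact hK₀c.inter hK₀c.inv
  have hUn : U ∈ 𝓝 (1 : G) := by rw [hUdef]; exact inter_mem hK₀n (inv_mem_nhds_one G hK₀n)
  have hU1 : (1 : G) ∈ U := mem_of_mem_nhds hUn
  have hcont := V08_eco_cont B
  have h0 : L.e (B.co 0) = 1 := by
    have : B.co 0 = 0 := by simp [Bases.co]
    rw [this, e_zero]
  have hnh : ∀ᶠ x : B.J → ℝ in 𝓝 0, L.e (B.co x) ∈ U := by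
    apply hcont.continuousAt
    change U ∈ 𝓝 (L.e (B.co 0))
    rw [h0]; exact hUn
  obtain ⟨ε, hε, hball⟩ := Metric.eventually_nhds_iff.mp hnh
  obtain ⟨ρ, hρdef⟩ : ∃ ρ : ℝ, ρ = min (r ^ 2) ((ε / 2) ^ 2) := ⟨_, rfl⟩
  have hρ0 : 0 < ρ := by rw [hρdef]; positivity
  have hterm : ∀ x : B.J → ℝ, ∀ i, x i ^ 2 ≤ ∑ i, x i ^ 2 := fun x i =>
    Finset.single_le_sum (f := fun i => x i ^ 2) (fun j _ => sq_nonneg (x j)) (Finset.mem_univ i)
  have hρr : ∀ x : B.J → ℝ, ∑ i, x i ^ 2 ≤ ρ → ∀ i, |x i| ≤ r := by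
    intro x hx i
    have h1 : x i ^ 2 ≤ r ^ 2 := (hterm x i).trans (hx.trans (by rw [hρdef]; exact min_le_left _ _))
    exact abs_le_of_sq_le_sq h1 hr.le
  have hρU : ∀ x : B.J → ℝ, ∑ i, x i ^ 2 ≤ ρ → L.e (B.co x) ∈ U := by
    intro x hx
    apply hball
    rw [dist_zero_right]
    refine lt_of_le_of_lt ((pi_norm_le_iff_of_nonneg (by positivity)).mpr fun i => ?_)
      (half_lt_self hε)
    have h1 : x i ^ 2 ≤ (ε / 2) ^ 2 :=
      (hterm x i).trans (hx.trans (by rw [hρdef]; exact min_le_right _ _))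
    rw [Real.norm_eq_abs]
    exact abs_le_of_sq_le_sq h1 (by positivity)
  obtain ⟨s, hsdef⟩ : ∃ s : ℝ, s = Real.sqrt (ρ / (Fintype.card B.J + 1)) := ⟨_, rfl⟩
  have hs0 : 0 < s := by rw [hsdef]; positivity
  have hsρ : Fintype.card B.J * s ^ 2 ≤ ρ := by
    rw [hsdef, Real.sq_sqrt (by positivity)]
    rw [mul_div_assoc', div_le_iff₀ (by positivity)]
    nlinarith
  have hWc : IsCompact (U * U⁻¹ * U) := (hUc.mul hUc.inv).mul hUc
  have hKUc : IsCompact ((L.K : Set G) * U) := (K_compact L).mul hUc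
  have hWfin : μ (U * U⁻¹ * U) ≠ ∞ := hWc.measure_lt_top.ne
  have hKUfin : μ ((L.K : Set G) * U) ≠ ∞ := hKUc.measure_lt_top.ne
  obtain ⟨C₃, hC₃⟩ : ∃ C₃ : ℝ, C₃ = C₁ * (μ ((L.K : Set G) * U)).toReal /
    (2 * s) ^ Fintype.card B.J := ⟨_, rfl⟩
  have hC₃0 : 0 ≤ C₃ := by rw [hC₃]; positivity
  refine ⟨U, hUn, C₃ * (μ (U * U⁻¹ * U)).toReal + 1, by positivity, fun X hX ht => ?_⟩
  have hdl1 : 1 ≤ dl B (L.e X) := one_le_dl B _
  obtain ⟨g, hg⟩ : ∃ g : G, g = L.e X := ⟨_, rfl⟩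
  obtain ⟨A, hA⟩ : ∃ A : Set (B.J → ℝ), A = {x : B.J → ℝ | ∑ i, x i ^ 2 ≤ ρ ∧
    ∑ i, (AdM B (L.e (-X)) *ᵥ x) i ^ 2 ≤ ρ} := ⟨_, rfl⟩
  have hAc : IsCompact A := by
    refine (isCompact_Icc (a := fun _ : B.J => -r) (b := fun _ : B.J => r)).of_isClosed_subset
      ?_ ?_
    · have hc1 : Continuous fun x : B.J → ℝ => ∑ i, x i ^ 2 := by fun_prop
      have hc2 : Continuous fun x : B.J → ℝ => ∑ i, (AdM B (L.e (-X)) *ᵥ x) i ^ 2 := by
        refine continuous_finsetSum _ fun i _ => ?_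
        refine Continuous.pow ?_ 2
        exact (continuous_apply i).comp (Continuous.matrix_mulVec continuous_const continuous_id)
      have h1 := (isClosed_le hc1 (continuous_const (y := ρ))).inter
        (isClosed_le hc2 (continuous_const (y := ρ)))
      rw [hA]
      exact h1
    · intro x hx
      rw [hA] at hx
      have := hρr x hx.1
      exact ⟨fun i => (abs_le.mp (this i)).1, fun i => (abs_le.mp (this i)).2⟩
  have hvol := V08_vol B hX ht hs0 hsρ
  rw [← hA] at hvol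
  have hV' := hV A hAc (fun x hx => by rw [hA] at hx; exact hρr x hx.1)
  obtain ⟨O, hO⟩ : ∃ O : Set G, O = L.e '' (B.co '' A) := ⟨_, rfl⟩
  rw [← hO] at hV'
  have hOc : IsCompact O := by
    rw [hO, Set.image_image]
    exact hAc.image hcont
  have hOU : ∀ y ∈ O, y ∈ U ∧ ∃ u ∈ U, y = g * u * g⁻¹ := by
    intro y hy
    rw [hO] at hy
    obtain ⟨_, ⟨x, hx, rfl⟩, rfl⟩ := hy
    rw [hA] at hx
    refine ⟨hρU x hx.1, L.e (B.co (AdM B (L.e (-X)) *ᵥ x)), hρU _ hx.2, ?_⟩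
    rw [← V08_conj, L.ad_e _ _ (co_mem B x), e_neg L hX, inv_inv, hg]
    group
  -- bound for disjoint families
  have hq : ∀ F : Finset G, (∀ k ∈ F, k ∈ L.K) →
      ((F : Set G).PairwiseDisjoint fun k => (fun u => k * g * u) '' U) →
      (F.card : ℝ) ≤ C₃ * dl B (L.e X) := by
    intro F hFK hFd
    have h1 : (F.card : ℝ≥0∞) * μ O ≤ μ ((L.K : Set G) * U) := by
      have h2 : ∀ k : G, μ ((fun y => k * y) '' O) = μ O := by
        intro k
        rw [Set.image_mul_left, measure_preimage_mul]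
      have h3 : ∀ k : G, IsCompact ((fun y => k * y) '' O) := fun k =>
        hOc.image (continuous_const_mul k)
      calc (F.card : ℝ≥0∞) * μ O = ∑ k ∈ F, μ ((fun y => k * y) '' O) := by
            rw [Finset.sum_congr rfl fun k _ => h2 k, Finset.sum_const, nsmul_eq_mul]
        _ = μ (⋃ k ∈ F, (fun y => k * y) '' O) := by
            rw [measure_biUnion_finset]
            · intro k hk k' hk' hne
              have hd := hFd hk hk' hne
              rw [Function.onFun] at hd ⊢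
              rw [Set.disjoint_left] at hd ⊢
              rintro _ ⟨y, hy, rfl⟩ ⟨y', hy', he⟩
              obtain ⟨-, u, hu, rfl⟩ := hOU y hy
              obtain ⟨-, u', hu', rfl⟩ := hOU y' hy'
              apply hd ⟨u, hu, rfl⟩
              refine ⟨u', hu', ?_⟩
              have he' : k' * (g * u' * g⁻¹) = k * (g * u * g⁻¹) := he
              change k' * g * u' = k * g * u
              calc k' * g * u' = k' * (g * u' * g⁻¹) * g := by group
                _ = k * (g * u * g⁻¹) * g := by rw [he']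
                _ = k * g * u := by group
            · intro k _
              exact (h3 k).measurableSet
        _ ≤ μ ((L.K : Set G) * U) := by
            apply measure_mono
            intro z hz
            simp only [Set.mem_iUnion] at hz
            obtain ⟨k, hk, y, hy, rfl⟩ := hz
            exact Set.mul_mem_mul (hFK k hk) (hOU y hy).1
    have h4 : (F.card : ℝ≥0∞) * ENNReal.ofReal ((2 * s) ^ Fintype.card B.J / dl B (L.e X)) ≤
        ENNReal.ofReal C₁ * μ ((L.K : Set G) * U) := by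
      calc (F.card : ℝ≥0∞) * ENNReal.ofReal ((2 * s) ^ Fintype.card B.J / dl B (L.e X))
          ≤ (F.card : ℝ≥0∞) * (ENNReal.ofReal C₁ * μ O) := by
            gcongr; exact hvol.trans hV'
        _ = ENNReal.ofReal C₁ * ((F.card : ℝ≥0∞) * μ O) := by ring
        _ ≤ ENNReal.ofReal C₁ * μ ((L.K : Set G) * U) := by gcongr
    have h5 : (F.card : ℝ) * ((2 * s) ^ Fintype.card B.J / dl B (L.e X)) ≤
        C₁ * (μ ((L.K : Set G) * U)).toReal := by
      have h6 := ENNReal.toReal_mono (ENNReal.mul_ne_top ENNReal.ofReal_ne_top hKUfin) h4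
      rw [ENNReal.toReal_mul, ENNReal.toReal_mul, ENNReal.toReal_natCast,
        ENNReal.toReal_ofReal (by positivity), ENNReal.toReal_ofReal hC₁.le] at h6
      exact h6
    have hpos : 0 < (2 * s) ^ Fintype.card B.J := by positivity
    have hdl0 : 0 < dl B (L.e X) := by linarith
    rw [hC₃, div_mul_eq_mul_div, le_div_iff₀ hpos]
    rw [mul_div_assoc', div_le_iff₀ hdl0] at h5
    exact h5
  -- a maximal family
  obtain ⟨F, hFK, hFd, hFmax⟩ : ∃ F : Finset G, (∀ k ∈ F, k ∈ L.K) ∧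
      ((F : Set G).PairwiseDisjoint fun k => (fun u => k * g * u) '' U) ∧
      ∀ F' : Finset G, (∀ k ∈ F', k ∈ L.K) →
      ((F' : Set G).PairwiseDisjoint fun k => (fun u => k * g * u) '' U) → F'.card ≤ F.card := by
    let S : Set ℕ := {n | ∃ F : Finset G, (∀ k ∈ F, k ∈ L.K) ∧
      ((F : Set G).PairwiseDisjoint fun k => (fun u => k * g * u) '' U) ∧ F.card = n}
    have hSne : S.Nonempty := ⟨0, ∅, by simp, by simp, by simp⟩
    have hSb : BddAbove S := by
      refine ⟨⌊C₃ * dl B (L.e X)⌋₊, ?_⟩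
      rintro n ⟨F, h1, h2, rfl⟩
      exact Nat.le_floor (hq F h1 h2)
    obtain ⟨F, h1, h2, h3⟩ := Nat.sSup_mem hSne hSb
    refine ⟨F, h1, h2, fun F' h1' h2' => ?_⟩
    rw [h3]
    exact le_csSup hSb ⟨F', h1', h2', rfl⟩
  have hcov : {z : G | ∃ k ∈ L.K, ∃ u ∈ U, z = k * L.e X * u} ⊆
      ⋃ k ∈ F, (fun w => k * g * w) '' (U * U⁻¹ * U) := by
    rintro z ⟨k, hk, u, hu, rfl⟩
    rw [← hg]
    simp only [Set.mem_iUnion]
    by_cases hkF : k ∈ F
    · refine ⟨k, hkF, u, ?_, rfl⟩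
      have : u = 1 * 1⁻¹ * u := by group
      rw [this]
      exact Set.mul_mem_mul (Set.mul_mem_mul hU1 (Set.inv_mem_inv.mpr hU1)) hu
    · have hex : ∃ k' ∈ F, ¬ Disjoint ((fun u => k * g * u) '' U) ((fun u => k' * g * u) '' U) := by
        by_contra hcon
        push Not at hcon
        have h1 := hFmax (insert k F) (by
          intro k' hk'
          rcases Finset.mem_insert.mp hk' with rfl | h
          · exact hk
          · exact hFK k' h) (by
          rw [Finset.coe_insert]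
          refine (Set.pairwiseDisjoint_insert_of_notMem (by exact_mod_cast hkF)).mpr
            ⟨hFd, fun k' hk' => ?_⟩
          exact hcon k' (by exact_mod_cast hk'))
        rw [Finset.card_insert_of_notMem hkF] at h1
        omega
      obtain ⟨k', hk', hnd⟩ := hex
      rw [Set.not_disjoint_iff] at hnd
      obtain ⟨_, ⟨u1, hu1, rfl⟩, ⟨u2, hu2, he⟩⟩ := hnd
      have he' : k' * g * u2 = k * g * u1 := he
      refine ⟨k', hk', u2 * u1⁻¹ * u,
        Set.mul_mem_mul (Set.mul_mem_mul hu2 (Set.inv_mem_inv.mpr hu1)) hu, ?_⟩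
      change k' * g * (u2 * u1⁻¹ * u) = k * g * u
      calc k' * g * (u2 * u1⁻¹ * u) = k' * g * u2 * u1⁻¹ * u := by group
        _ = k * g * u1 * u1⁻¹ * u := by rw [he']
        _ = k * g * u := by group
  calc μ {z : G | ∃ k ∈ L.K, ∃ u ∈ U, z = k * L.e X * u}
      ≤ μ (⋃ k ∈ F, (fun w => k * g * w) '' (U * U⁻¹ * U)) := measure_mono hcov
    _ ≤ ∑ k ∈ F, μ ((fun w => k * g * w) '' (U * U⁻¹ * U)) := measure_biUnion_finset_le _ _
    _ = (F.card : ℝ≥0∞) * μ (U * U⁻¹ * U) := by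
        have h2 : ∀ k : G, μ ((fun w => k * g * w) '' (U * U⁻¹ * U)) = μ (U * U⁻¹ * U) := by
          intro k
          rw [Set.image_mul_left, measure_preimage_mul]
        rw [Finset.sum_congr rfl fun k _ => h2 k, Finset.sum_const, nsmul_eq_mul]
    _ = ENNReal.ofReal (F.card * (μ (U * U⁻¹ * U)).toReal) := by
        rw [ENNReal.ofReal_mul (by positivity), ENNReal.ofReal_natCast, ENNReal.ofReal_toReal hWfin]
    _ ≤ ENNReal.ofReal ((C₃ * (μ (U * U⁻¹ * U)).toReal + 1) * dl B (L.e X)) := by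
        apply ENNReal.ofReal_le_ofReal
        have h1 := hq F hFK hFd
        have h2 : 0 ≤ (μ (U * U⁻¹ * U)).toReal := ENNReal.toReal_nonneg
        nlinarith [mul_le_mul_of_nonneg_right h1 h2]

end SBD
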