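import Pool.Agent.SBX.V03
import Pool.Agent.SBX.V05
import Pool.Agent.SBD.M02

/-!
# Row SBX-V10 : packing.  `K` contains `≥ c δ(g)` elements whose `g`-conjugate quotients stay away from `1`

`U₀ = {x : fsq(ι x - 1) < 1/4}` (open, `∋ 1`).  Claim: for every `g` there are `k_1,…,k_q ∈ K`, `q ≥ c δ(g)`, with
`g k_i k_j⁻¹ g⁻¹ ∉ U₀` for `i ≠ j`.

PROOF.  `g = k₀ e(X)` (polar); `fsq(ι(k₀ x k₀⁻¹) - 1) = fsq(ι x - 1)` for `k₀ ∈ K`, so (conjugating) and
`dl g = dl(e X)` we may take `g = e(X)`, `X ∈ 𝔭`.  Let `E_j, a_j` be from `str` (V03), `m = B.m`.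
Fix small `ρ` (log_conj, skew_of_orth, prod_est, exp_bilip of V05) and then small `r > 0` (depending on `ρ`).
Let `η_j = 4e^{-a_j}` and consider the points `Y_l = ∑_j l_j η_j E_j` with integers
`0 ≤ l_j`, `l_jη_j ≤ r`; their number is `∏_j(⌊r/η_j⌋ + 1) ≥ ∏_j r e^{a_j}/4 = (r/4)^m e^{∑a_j} ≥ c dl(e X)`.
`k_l = e(Y_l) ∈ K`.  Let `l ≠ l'`, `Y = Y_l`, `Y' = Y_{l'}` and suppose `g k_l k_{l'}⁻¹g⁻¹ ∈ U₀`.  By
`e_mul_small` `k_lk_{l'}⁻¹ = e(Y)e(-Y') = e(Z)`, `Z ∈ 𝔤`, `fsq Z ≤ ρ` (`r` small).  `exp Z = exp Y exp(-Y')` is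
orthogonal, so `Zᵀ = -Z`, `Z = ∑z_jE_j`.  `fsq(exp(X)exp(Z)exp(-X) - 1) < 1/4`, so by `log_conj`
(`S = exp X`, `S' = exp(-X)`) `1 ≥ fsq(exp(X)Zexp(-X)) = ∑cosh(2a_j)z_j² ≥ ½∑e^{2a_j}z_j²`.
By `prod_est` `|Z - (Y-Y')|² ≤ C·2m r²... |Y-Y'|²` (`fsq Y ≤ m r²`), so with `j` an index maximising
`|y_j|`, `y_j := (l_j - l'_j)η_j`: `|Y-Y'|² ≤ m y_j²`, `|z_j - y_j| ≤ ½|y_j|` for `r` small, and
`|z_j| ≥ ½|y_j| ≥ ½η_j = 2e^{-a_j}`; `½e^{2a_j}z_j² ≥ 2 > 1`, a contradiction.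
(In particular the `k_l` are pairwise distinct; if `m = 0` one point, `dl(e X) ≤ 2^{m+n}`: take `c` small.)
-/

open MeasureTheory Filter Topology
open scoped ENNReal NNReal Matrix

noncomputable section

namespace SBD

variable {N : ℕ} {G : Type} [Group G] [TopologicalSpace G] [IsTopologicalGroup G]
  [LocallyCompactSpace G] [T2Space G]

section aux

omit [IsTopologicalGroup G] [LocallyCompactSpace G] [T2Space G] in
private theorem V10_fip_comm (X Y : Mat N) : fip X Y = fip Y X := by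
  rw [P01_fip_eq, P01_fip_eq]
  exact Finset.sum_congr rfl fun _ _ => mul_comm _ _

omit [IsTopologicalGroup G] [LocallyCompactSpace G] [T2Space G] in
private theorem V10_fip_sum {m : ℕ} (X : Mat N) (E : Fin m → Mat N) (z : Fin m → ℝ) :
    fip X (∑ j, z j • E j) = ∑ j, z j * fip X (E j) := by
  unfold fip
  rw [Matrix.mul_sum, Matrix.trace_sum]
  refine Finset.sum_congr rfl fun j _ => ?_
  rw [Matrix.mul_smul, Matrix.trace_smul, smul_eq_mul]

private theorem V10_coord {m : ℕ} (E : Fin m → Mat N)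
    (hE : ∀ i j, fip (E i) (E j) = if i = j then 1 else 0) (z : Fin m → ℝ) (i : Fin m) :
    fip (E i) (∑ j, z j • E j) = z i := by
  rw [V10_fip_sum]
  simp only [hE, mul_ite, mul_one, mul_zero, Finset.sum_ite_eq, Finset.mem_univ, if_true]

private theorem V10_fsq_comb {m : ℕ} (E : Fin m → Mat N)
    (hE : ∀ i j, fip (E i) (E j) = if i = j then 1 else 0) (z : Fin m → ℝ) :
    fsq (∑ j, z j • E j) = ∑ j, z j ^ 2 := by
  unfold fsq
  rw [V10_fip_sum]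
  refine Finset.sum_congr rfl fun j _ => ?_
  rw [V10_fip_comm, V10_coord E hE, sq]

private theorem V10_fsq_K {L : LieData N G} {k : G} (hk : k ∈ L.K) (x : G) :
    fsq (L.ι (k * x * k⁻¹) - 1) = fsq (L.ι x - 1) := by
  have h : L.ι (k * x * k⁻¹) - 1 = L.ι k * (L.ι x - 1) * L.ι k⁻¹ := by
    rw [Matrix.mul_sub, Matrix.sub_mul, map_mul, map_mul, Matrix.mul_one, ← map_mul L.ι k k⁻¹,
      mul_inv_cancel, map_one]
  rw [h]
  exact fip_ad_K L hk _ _

end aux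

/-- the arithmetic of the contradiction -/
private theorem V10_arith {m : ℕ} (a z : Fin m → ℝ) (l l' : Fin m → ℕ)
    (hne : l ≠ l') (δ : ℝ) (hδ : δ * m ≤ 1 / 4)
    (h1 : ∑ j, Real.cosh (2 * a j) * z j ^ 2 ≤ 1)
    (h2 : ∑ j, (z j - ((l j : ℝ) - l' j) * (4 * Real.exp (-a j))) ^ 2 ≤
      δ * ∑ j, (((l j : ℝ) - l' j) * (4 * Real.exp (-a j))) ^ 2) (hδ0 : 0 ≤ δ) : False := by
  obtain ⟨i₀, hi₀⟩ := Function.ne_iff.1 hne
  set y : Fin m → ℝ := fun j => ((l j : ℝ) - l' j) * (4 * Real.exp (-a j)) with hy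
  obtain ⟨j, -, hj⟩ := Finset.exists_max_image Finset.univ (fun j => y j ^ 2)
    ⟨i₀, Finset.mem_univ _⟩
  have hexp : ∀ j, 0 < Real.exp (-a j) := fun j => Real.exp_pos _
  have hyi : 0 < y i₀ ^ 2 := by
    have : (l i₀ : ℝ) - l' i₀ ≠ 0 := by
      rw [sub_ne_zero]
      exact_mod_cast hi₀
    have h3 : y i₀ ≠ 0 := mul_ne_zero this (by have := hexp i₀; positivity)
    positivity
  have hyj : 0 < y j ^ 2 := lt_of_lt_of_le hyi (hj i₀ (Finset.mem_univ _))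
  have hlj : l j ≠ l' j := by
    intro h
    have : y j = 0 := by
      rw [hy]
      simp only [h, sub_self, zero_mul]
    rw [this] at hyj
    simp at hyj
  have hlj2 : (1 : ℝ) ≤ ((l j : ℝ) - l' j) ^ 2 := by
    have h4 : ((l j : ℤ) - l' j) ≠ 0 := by
      rw [sub_ne_zero]
      exact_mod_cast hlj
    have h5 : (1 : ℤ) ≤ ((l j : ℤ) - l' j) ^ 2 := by
      have := sq_pos_of_ne_zero h4
      omega
    have h6 : ((1 : ℤ) : ℝ) ≤ ((((l j : ℤ) - l' j) ^ 2 : ℤ) : ℝ) := by exact_mod_cast h5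
    push_cast at h6
    exact h6
  have hyj2 : 16 * Real.exp (-a j) ^ 2 ≤ y j ^ 2 := by
    have : y j ^ 2 = ((l j : ℝ) - l' j) ^ 2 * (16 * Real.exp (-a j) ^ 2) := by
      rw [hy]; ring
    rw [this]
    have h7 : 0 ≤ 16 * Real.exp (-a j) ^ 2 := by positivity
    nlinarith
  -- the sum of squares
  have hsum : ∑ i, y i ^ 2 ≤ m * y j ^ 2 := by
    calc ∑ i, y i ^ 2 ≤ ∑ _i : Fin m, y j ^ 2 := Finset.sum_le_sum fun i hi => hj i hi
      _ = m * y j ^ 2 := by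
        rw [Finset.sum_const, Finset.card_univ, Fintype.card_fin, nsmul_eq_mul]
  have hzy : (z j - y j) ^ 2 ≤ 1 / 4 * y j ^ 2 := by
    calc (z j - y j) ^ 2 ≤ ∑ i, (z i - y i) ^ 2 :=
          Finset.single_le_sum (f := fun i => (z i - y i) ^ 2) (fun i _ => sq_nonneg _)
            (Finset.mem_univ j)
      _ ≤ δ * ∑ i, y i ^ 2 := h2
      _ ≤ δ * (m * y j ^ 2) := mul_le_mul_of_nonneg_left hsum hδ0
      _ = (δ * m) * y j ^ 2 := by ring
      _ ≤ 1 / 4 * y j ^ 2 := mul_le_mul_of_nonneg_right hδ (sq_nonneg _)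
  have hz : 1 / 4 * y j ^ 2 ≤ z j ^ 2 := by
    have h8 : |z j - y j| ≤ |1 / 2 * y j| := by
      rw [← sq_le_sq]
      calc (z j - y j) ^ 2 ≤ 1 / 4 * y j ^ 2 := hzy
        _ = (1 / 2 * y j) ^ 2 := by ring
    have h9 : |1 / 2 * y j| = 1 / 2 * |y j| := by
      rw [abs_mul, abs_of_pos (by norm_num : (0 : ℝ) < 1 / 2)]
    have h10 : |y j| ≤ |z j| + |z j - y j| := by
      have : y j = z j - (z j - y j) := by ring
      calc |y j| = |z j - (z j - y j)| := by rw [← this]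
        _ ≤ |z j| + |z j - y j| := abs_sub _ _
    have h11 : 1 / 2 * |y j| ≤ |z j| := by rw [h9] at h8; linarith
    calc 1 / 4 * y j ^ 2 = (1 / 2 * |y j|) ^ 2 := by rw [mul_pow (1 / 2 : ℝ), sq_abs]; norm_num
      _ ≤ |z j| ^ 2 := pow_le_pow_left₀ (by positivity) h11 2
      _ = z j ^ 2 := sq_abs _
  have hcosh : 1 / 2 * Real.exp (a j) ^ 2 ≤ Real.cosh (2 * a j) := by
    rw [Real.cosh_eq, ← Real.exp_nat_mul]
    have := Real.exp_pos (-(2 * a j))
    have h12 : ((2 : ℕ) : ℝ) * a j = 2 * a j := by norm_num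
    rw [h12]
    linarith
  have hee : Real.exp (a j) ^ 2 * Real.exp (-a j) ^ 2 = 1 := by
    rw [← mul_pow, ← Real.exp_add]
    simp
  have h13 : 2 ≤ Real.cosh (2 * a j) * z j ^ 2 := by
    calc (2 : ℝ) = 1 / 2 * Real.exp (a j) ^ 2 * (1 / 4 * (16 * Real.exp (-a j) ^ 2)) := by
          have : 1 / 2 * Real.exp (a j) ^ 2 * (1 / 4 * (16 * Real.exp (-a j) ^ 2)) =
            2 * (Real.exp (a j) ^ 2 * Real.exp (-a j) ^ 2) := by ring
          rw [this, hee]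
          norm_num
      _ ≤ 1 / 2 * Real.exp (a j) ^ 2 * (1 / 4 * y j ^ 2) := by
          refine mul_le_mul_of_nonneg_left ?_ (by positivity)
          linarith
      _ ≤ Real.cosh (2 * a j) * z j ^ 2 := by
          refine mul_le_mul hcosh hz (by positivity) (Real.cosh_pos _).le
  have h14 : Real.cosh (2 * a j) * z j ^ 2 ≤ ∑ i, Real.cosh (2 * a i) * z i ^ 2 :=
    Finset.single_le_sum (f := fun i => Real.cosh (2 * a i) * z i ^ 2)
      (fun i _ => mul_nonneg (Real.cosh_pos _).le (sq_nonneg _)) (Finset.mem_univ j)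
  linarith

theorem packing (L : LieData N G) (B : Bases L) : ∃ U₀ ∈ 𝓝 (1 : G), ∃ c : ℝ, 0 < c ∧
    ∀ g : G, ∃ (q : ℕ) (k : Fin q → G), (∀ i, k i ∈ L.K) ∧ c * dl B g ≤ q ∧
      ∀ i j, i ≠ j → g * k i * (k j)⁻¹ * g⁻¹ ∉ U₀ := by
  obtain ⟨ρ₁, hρ₁, hlog⟩ := log_conj N
  obtain ⟨ρ₂, hρ₂, hskew⟩ := skew_of_orth N
  obtain ⟨ρ₃, hρ₃, C, hC, hprod⟩ := prod_est N
  obtain ⟨r₀, hr₀, hmul⟩ := e_mul_small L (min ρ₁ (min ρ₂ ρ₃))
    (lt_min hρ₁ (lt_min hρ₂ hρ₃))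
  set m := B.m with hm
  -- the radius
  obtain ⟨r, hr, hr1, hr2, hr3⟩ : ∃ r : ℝ, 0 < r ∧ m * r ^ 2 ≤ r₀ ∧ m * r ^ 2 ≤ ρ₃ ∧
      C * (2 * (m * r ^ 2)) * m ≤ 1 / 4 := by
    have hlim : Tendsto (fun r : ℝ => (m * r ^ 2 : ℝ)) (𝓝[>] 0) (𝓝 0) := by
      have : Tendsto (fun r : ℝ => (m * r ^ 2 : ℝ)) (𝓝 0) (𝓝 (m * 0 ^ 2)) := by
        have hc : Continuous (fun r : ℝ => (m * r ^ 2 : ℝ)) := by fun_prop
        exact hc.tendsto 0
      simp only [ne_eq, OfNat.ofNat_ne_zero, not_false_eq_true, zero_pow, mul_zero] at this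
      exact this.mono_left nhdsWithin_le_nhds
    have hlim2 : Tendsto (fun r : ℝ => (C * (2 * (m * r ^ 2)) * m : ℝ)) (𝓝[>] 0) (𝓝 0) := by
      have : Tendsto (fun r : ℝ => (C * (2 * (m * r ^ 2)) * m : ℝ)) (𝓝[>] 0)
          (𝓝 (C * (2 * 0) * m)) := ((hlim.const_mul 2).const_mul C).mul_const _
      simpa using this
    have h1 := hlim.eventually_le_const hr₀
    have h2 := hlim.eventually_le_const hρ₃
    have h3 := hlim2.eventually_le_const (show (0 : ℝ) < 1 / 4 by norm_num)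
    have h4 : ∀ᶠ r : ℝ in 𝓝[>] 0, 0 < r := self_mem_nhdsWithin
    obtain ⟨r, h⟩ := (h4.and (h1.and (h2.and h3))).exists
    exact ⟨r, h.1, h.2.1, h.2.2.1, h.2.2.2⟩
  have hU : {x : G | fsq (L.ι x - 1) < 1 / 4} ∈ 𝓝 (1 : G) := by
    have hc : Continuous fun x : G => fsq (L.ι x - 1) :=
      m02_fsq_cont.comp (L.ι_cont.sub continuous_const)
    have h0 : fsq (L.ι (1 : G) - 1) = 0 := by
      rw [map_one, sub_self]
      simp [fsq, fip]
    refine (isOpen_lt hc continuous_const).mem_nhds ?_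
    change fsq (L.ι (1 : G) - 1) < 1 / 4
    rw [h0]
    norm_num
  refine ⟨_, hU, (r / 4) ^ m / 2 ^ (B.m + B.n), by positivity, fun g => ?_⟩
  obtain ⟨k₀, X, hX, hXt, hk₀, rfl⟩ := L.polar g
  have hk₀' : k₀ ∈ L.K := hk₀
  obtain ⟨E, a, ⟨hE1, hE2, hE3⟩, ha, hfs, hdl⟩ := str (B := B) hX hXt
  rw [dl_K_left B hk₀']
  -- the points
  let η : Fin m → ℝ := fun j => 4 * Real.exp (-a j)
  have hη : ∀ j, 0 < η j := fun j => by
    have := Real.exp_pos (-a j)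
    change 0 < 4 * Real.exp (-a j)
    positivity
  let T := ∀ j : Fin m, Fin (⌊r / η j⌋₊ + 1)
  have hcard : Fintype.card T = ∏ j : Fin m, (⌊r / η j⌋₊ + 1) := by
    rw [Fintype.card_pi]
    exact Finset.prod_congr rfl fun j _ => Fintype.card_fin _
  let Y : T → Mat N := fun l => ∑ j, (((l j : ℕ) : ℝ) * η j) • E j
  have hYmem : ∀ l, Y l ∈ L.𝔤 := fun l =>
    Submodule.sum_mem _ fun j _ => L.𝔤.smul_mem _ (hE1 j).1
  have hYt : ∀ l, (Y l)ᵀ = -Y l := by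
    intro l
    change (∑ j, (((l j : ℕ) : ℝ) * η j) • E j)ᵀ = -∑ j, (((l j : ℕ) : ℝ) * η j) • E j
    rw [Matrix.transpose_sum, ← Finset.sum_neg_distrib]
    refine Finset.sum_congr rfl fun j _ => ?_
    rw [Matrix.transpose_smul, (hE1 j).2, smul_neg]
  have hYfsq : ∀ l, fsq (Y l) ≤ m * r ^ 2 := by
    intro l
    change fsq (∑ j, (((l j : ℕ) : ℝ) * η j) • E j) ≤ m * r ^ 2
    rw [V10_fsq_comb E hE2]
    calc ∑ j, (((l j : ℕ) : ℝ) * η j) ^ 2 ≤ ∑ _j : Fin m, r ^ 2 := by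
          refine Finset.sum_le_sum fun j _ => ?_
          refine pow_le_pow_left₀ (mul_nonneg (Nat.cast_nonneg _) (hη j).le) ?_ 2
          rw [← le_div_iff₀ (hη j)]
          have h1 : (l j : ℕ) ≤ ⌊r / η j⌋₊ := Nat.lt_succ_iff.1 (l j).2
          calc ((l j : ℕ) : ℝ) ≤ (⌊r / η j⌋₊ : ℝ) := by exact_mod_cast h1
            _ ≤ r / η j := Nat.floor_le (div_nonneg hr.le (hη j).le)
      _ = m * r ^ 2 := by
          rw [Finset.sum_const, Finset.card_univ, Fintype.card_fin, nsmul_eq_mul]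
  have hK : ∀ l, L.e (Y l) ∈ L.K := fun l => by
    have := e_mem_K L (hYmem l) (hYt l) 1
    rwa [one_smul] at this
  refine ⟨Fintype.card T, fun i => L.e (Y ((Fintype.equivFin T).symm i)), fun i => hK _, ?_, ?_⟩
  · rw [hcard]
    push_cast
    have h1 : ∀ j : Fin m, r / 4 * Real.exp (a j) ≤ ((⌊r / η j⌋₊ : ℕ) : ℝ) + 1 := by
      intro j
      have h2 : r / 4 * Real.exp (a j) = r / η j := by
        change r / 4 * Real.exp (a j) = r / (4 * Real.exp (-a j))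
        rw [Real.exp_neg]
        have := (Real.exp_pos (a j)).ne'
        field_simp
      rw [h2]
      exact (Nat.lt_floor_add_one _).le
    have h3 : (r / 4) ^ m * Real.exp (∑ j, a j) ≤ ∏ j : Fin m, (((⌊r / η j⌋₊ : ℕ) : ℝ) + 1) := by
      calc (r / 4) ^ m * Real.exp (∑ j, a j) = ∏ j : Fin m, (r / 4 * Real.exp (a j)) := by
            rw [Finset.prod_mul_distrib, Finset.prod_const, Finset.card_univ, Fintype.card_fin,
              Real.exp_sum]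
        _ ≤ _ := Finset.prod_le_prod (fun j _ => by positivity) fun j _ => h1 j
    calc (r / 4) ^ m / 2 ^ (B.m + B.n) * dl B (L.e X)
        ≤ (r / 4) ^ m / 2 ^ (B.m + B.n) * (2 ^ (B.m + B.n) * Real.exp (∑ j, a j)) :=
          mul_le_mul_of_nonneg_left hdl (by positivity)
      _ = (r / 4) ^ m * Real.exp (∑ j, a j) := by
          field_simp
      _ ≤ _ := h3
  · intro i j hij hmem
    set l := (Fintype.equivFin T).symm i with hl
    set l' := (Fintype.equivFin T).symm j with hl'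
    have hll : l ≠ l' := fun h => hij ((Fintype.equivFin T).symm.injective h)
    have hmem' : fsq (L.ι (k₀ * L.e X * L.e (Y l) * (L.e (Y l'))⁻¹ * (k₀ * L.e X)⁻¹) - 1) < 1 / 4 :=
      hmem
    have hre : k₀ * L.e X * L.e (Y l) * (L.e (Y l'))⁻¹ * (k₀ * L.e X)⁻¹ =
        k₀ * (L.e X * (L.e (Y l) * (L.e (Y l'))⁻¹) * (L.e X)⁻¹) * k₀⁻¹ := by group
    rw [hre, V10_fsq_K hk₀'] at hmem'
    obtain ⟨Z, hZ, hZρ, hZe⟩ := hmul (Y l) (hYmem l) (-Y l') (L.𝔤.neg_mem (hYmem l'))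
      ((hYfsq l).trans hr1) (by
        have : fsq (-Y l') = fsq (Y l') := by
          unfold fsq
          rw [P01_fip_neg, P01_fip_neg_left, neg_neg]
        rw [this]
        exact (hYfsq l').trans hr1)
    rw [e_neg L (hYmem l')] at hZe
    have hZK : L.e Z ∈ L.K := by
      rw [hZe]
      exact L.K.mul_mem (hK l) (L.K.inv_mem (hK l'))
    have hZt : Zᵀ = -Z := by
      refine hskew Z (hZρ.trans ((min_le_right _ _).trans (min_le_left _ _))) ?_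
      have : L.ι (L.e Z) * (L.ι (L.e Z))ᵀ = 1 := hZK
      rwa [L.ι_e Z hZ] at this
    have hιX : L.ι (L.e X) = NormedSpace.exp X := L.ι_e X hX
    have hιX' : L.ι (L.e X)⁻¹ = NormedSpace.exp (-X) := by
      rw [← e_neg L hX]
      exact L.ι_e _ (L.𝔤.neg_mem hX)
    have hXX1 : NormedSpace.exp X * NormedSpace.exp (-X) = 1 := by
      rw [← hιX, ← hιX', ← map_mul, mul_inv_cancel, map_one]
    have hXX2 : NormedSpace.exp (-X) * NormedSpace.exp X = 1 := by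
      rw [← hιX, ← hιX', ← map_mul, inv_mul_cancel, map_one]
    have h5 : fsq (NormedSpace.exp X * Z * NormedSpace.exp (-X)) ≤ 1 := by
      refine hlog Z _ _ (hZρ.trans (min_le_left _ _)) hXX1 hXX2 ?_
      rw [← hZe, map_mul, map_mul, L.ι_e Z hZ, hιX, hιX'] at hmem'
      exact hmem'.le
    have hZE : Z = ∑ j, fip (E j) Z • E j := hE3 Z hZ hZt
    have h6 : ∑ j, Real.cosh (2 * a j) * (fip (E j) Z) ^ 2 ≤ 1 := by
      rw [← hfs fun j => fip (E j) Z, ← hZE]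
      exact h5
    have hexpZ : NormedSpace.exp Z = NormedSpace.exp (Y l) * NormedSpace.exp (-Y l') := by
      rw [← L.ι_e Z hZ, hZe, map_mul, L.ι_e _ (hYmem l), ← e_neg L (hYmem l'),
        L.ι_e _ (L.𝔤.neg_mem (hYmem l'))]
    have h7 := hprod Z (Y l) (Y l') (hZρ.trans ((min_le_right _ _).trans (min_le_right _ _)))
      ((hYfsq l).trans hr2) ((hYfsq l').trans hr2) hexpZ
    have hYY : Y l - Y l' = ∑ j, ((((l j : ℕ) : ℝ) - ((l' j : ℕ) : ℝ)) * η j) • E j := by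
      change (∑ j, (((l j : ℕ) : ℝ) * η j) • E j) - (∑ j, (((l' j : ℕ) : ℝ) * η j) • E j) = _
      rw [← Finset.sum_sub_distrib]
      refine Finset.sum_congr rfl fun j _ => ?_
      rw [← sub_smul, sub_mul]
    have hZYY : Z - (Y l - Y l') =
        ∑ j, (fip (E j) Z - (((l j : ℕ) : ℝ) - ((l' j : ℕ) : ℝ)) * η j) • E j := by
      rw [hYY]
      conv_lhs => rw [hZE]
      rw [← Finset.sum_sub_distrib]
      refine Finset.sum_congr rfl fun j _ => ?_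
      rw [sub_smul]
    have hf1 := V10_fsq_comb E hE2
      fun j => fip (E j) Z - (((l j : ℕ) : ℝ) - ((l' j : ℕ) : ℝ)) * η j
    have hf2 := V10_fsq_comb E hE2 fun j => (((l j : ℕ) : ℝ) - ((l' j : ℕ) : ℝ)) * η j
    rw [hZYY, hYY] at h7
    rw [hf1, hf2] at h7
    have hs : 0 ≤ ∑ j, ((((l j : ℕ) : ℝ) - ((l' j : ℕ) : ℝ)) * η j) ^ 2 :=
      Finset.sum_nonneg fun j _ => sq_nonneg _
    refine V10_arith a (fun j => fip (E j) Z) (fun j => (l j : ℕ)) (fun j => (l' j : ℕ)) ?_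
      (C * (2 * (m * r ^ 2))) hr3 h6 ?_ (by positivity)
    · intro h
      apply hll
      funext j
      exact Fin.ext (congrFun h j)
    · refine h7.trans (mul_le_mul_of_nonneg_right (mul_le_mul_of_nonneg_left ?_ hC.le) hs)
      have h8 := hYfsq l
      have h9 := hYfsq l'
      linarith

end SBD
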