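import Pool.Agent.SBX.WDefs
import Pool.Agent.SBD.M04

/-!
# Row SBX-W01 : the weighted form `B_W`

Everything is dominated by the case `W = Θ^{-κ}` of M04: `W ≤ C Θ^{-κ}` (`hW.le`), so the integrands are
dominated by `C Θ^{-κ}‖m_u‖‖m_v‖` (`Bf_integrable_norm`), continuous functions (`mc` is continuous in `g` by
`hP.cont`).
* `BW_self` : `conj(z) z = ‖z‖²`.
* `BW_pos` : the integrand is continuous, `≥ 0`; if the integral were `0`, `mc π w v = 0` everywhere, so
  `w ⊥ π(g)v` for all `g`; the closed span of `π(G)v` is invariant, nonzero, so `H` (`hP.irr`), and `w = 0`.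
  (As `Bf_pos` of M04.)
* `BW_abs_le` : Cauchy–Schwarz in `L²(W)`.
-/

open MeasureTheory Filter Topology
open scoped ENNReal NNReal Matrix

noncomputable section

namespace SBD

variable {N : ℕ} {G : Type} [Group G] [TopologicalSpace G] [IsTopologicalGroup G]
  [LocallyCompactSpace G] [T2Space G]
variable [SecondCountableTopology G] [MeasurableSpace G] [BorelSpace G]
variable {H : Type} [NormedAddCommGroup H] [InnerProductSpace ℂ H] [CompleteSpace H]

section w01helpers

omit [IsTopologicalGroup G] [LocallyCompactSpace G] [T2Space G] [SecondCountableTopology G]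
  [MeasurableSpace G] [BorelSpace G] [CompleteSpace H] in
private theorem w01_mc_cont (π : G →* (H ≃ₗᵢ[ℂ] H)) (hc : ∀ v : H, Continuous fun g => π g v)
    (w v : H) : Continuous (mc π w v) := by
  unfold mc
  exact continuous_const.inner (hc v)

end w01helpers

variable (L : LieData N G) (π : G →* (H ≃ₗᵢ[ℂ] H)) (A : LieRep N (KFin L π)) (hP : IsPkg L π A)
  (μ : Measure G) [μ.IsHaarMeasure] (ht : Tempered L π μ) {W : G → ℝ} {c κ : ℝ} (hκ : 0 < κ)
  (hW : IsWt L W c κ) {w : H} (hw : w ∈ KFin L π)

include hP ht hκ hW hw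

theorem BW_integrable (u v : KFin L π) :
    Integrable (fun g => ((W g : ℝ) : ℂ) *
      ((starRingEnd ℂ) (mc π w (u : H) g) * mc π w (v : H) g)) μ := by
  obtain ⟨C, hC, hle⟩ := hW.le
  refine ((Bf_integrable_norm L π A hP μ ht hκ hw u v).const_mul C).mono' ?_ ?_
  · exact ((Complex.continuous_ofReal.comp hW.cont).mul
      ((RCLike.continuous_conj.comp (w01_mc_cont π hP.cont w u)).mul
        (w01_mc_cont π hP.cont w v))).aestronglyMeasurable
  · refine Eventually.of_forall fun g => ?_
    rw [norm_mul, norm_mul, Complex.norm_real, Real.norm_of_nonneg (hW.pos g).le,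
      RCLike.norm_conj]
    have h1 := mul_le_mul_of_nonneg_right (hle g)
      (mul_nonneg (norm_nonneg (mc π w (u : H) g)) (norm_nonneg (mc π w (v : H) g)))
    linarith [h1, mul_assoc C (Th L g ^ (-κ)) (‖mc π w (u : H) g‖ * ‖mc π w (v : H) g‖)]

theorem BW_integrable_norm (u v : KFin L π) :
    Integrable (fun g => W g * (‖mc π w (u : H) g‖ * ‖mc π w (v : H) g‖)) μ := by
  have h := (BW_integrable L π A hP μ ht hκ hW hw u v).norm
  refine h.congr (Eventually.of_forall fun g => ?_)
  simp only
  rw [norm_mul, norm_mul, Complex.norm_real, Real.norm_of_nonneg (hW.pos g).le, RCLike.norm_conj]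

theorem BW_self (v : KFin L π) : BW L π μ W w v v =
    ((∫ g, W g * ‖mc π w (v : H) g‖ ^ 2 ∂μ : ℝ) : ℂ) := by
  unfold BW
  rw [← integral_complex_ofReal]
  refine integral_congr_ae (Eventually.of_forall fun g => ?_)
  simp only
  rw [Complex.conj_mul']
  push_cast
  ring

theorem BW_pos (hw0 : w ≠ 0) (v : KFin L π) (hv : v ≠ 0) : 0 < (BW L π μ W w v v).re := by
  rw [BW_self L π A hP μ ht hκ hW hw v, Complex.ofReal_re]
  have hint : Integrable (fun g => W g * ‖mc π w (v : H) g‖ ^ 2) μ := by
    refine (BW_integrable_norm L π A hP μ ht hκ hW hw v v).congr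
      (Eventually.of_forall fun g => ?_)
    simp only
    ring
  have hnn : 0 ≤ fun g => W g * ‖mc π w (v : H) g‖ ^ 2 := fun g =>
    mul_nonneg (hW.pos g).le (sq_nonneg _)
  rw [integral_pos_iff_support_of_nonneg hnn hint]
  have hcont : Continuous fun g => W g * ‖mc π w (v : H) g‖ ^ 2 :=
    hW.cont.mul ((w01_mc_cont π hP.cont w v).norm.pow 2)
  refine (hcont.isOpen_support).measure_pos μ ?_
  by_contra hne
  rw [Set.not_nonempty_iff_eq_empty, Function.support_eq_empty_iff] at hne
  have hz : ∀ g, inner ℂ w (π g (v : H)) = 0 := by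
    intro g
    have h1 := congrFun hne g
    simp only [Pi.zero_apply, mul_eq_zero, (hW.pos g).ne',
      false_or, pow_eq_zero_iff, ne_eq, OfNat.ofNat_ne_zero, not_false_eq_true, norm_eq_zero] at h1
    exact h1
  let Y : Submodule ℂ H :=
    { carrier := {x | ∀ g, inner ℂ w (π g x) = 0}
      add_mem' := by
        intro a b ha hb g
        rw [map_add, inner_add_right, ha g, hb g, add_zero]
      zero_mem' := by intro g; rw [map_zero, inner_zero_right]
      smul_mem' := by
        intro c x hx g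
        rw [map_smul, inner_smul_right, hx g, mul_zero] }
  have hYc : IsClosed (Y : Set H) := by
    have : (Y : Set H) = ⋂ g, {x | inner ℂ w (π g x) = 0} := by
      ext x
      simp only [Set.mem_iInter]
      rfl
    rw [this]
    refine isClosed_iInter fun g => ?_
    exact isClosed_eq (continuous_const.inner (π g).continuous) continuous_const
  have hYi : ∀ g : G, ∀ x ∈ Y, π g x ∈ Y := by
    intro g x hx g'
    have := hx (g' * g)
    rwa [map_mul] at this
  have hvY : (v : H) ∈ Y := hz
  rcases hP.irr Y hYc hYi with h | h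
  · rw [h, Submodule.mem_bot] at hvY
    exact hv (Subtype.ext hvY)
  · have hwY : w ∈ Y := by rw [h]; trivial
    have := hwY 1
    rw [map_one] at this
    exact hw0 (inner_self_eq_zero.1 this)

theorem BW_abs_le (u v : KFin L π) :
    ∫ g, W g * (‖mc π w (u : H) g‖ * ‖mc π w (v : H) g‖) ∂μ ≤
      Real.sqrt (BW L π μ W w u u).re * Real.sqrt (BW L π μ W w v v).re := by
  have hiuv := BW_integrable_norm L π A hP μ ht hκ hW hw u v
  have hiuu := BW_integrable_norm L π A hP μ ht hκ hW hw u u
  have hivv := BW_integrable_norm L π A hP μ ht hκ hW hw v v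
  have huu : (BW L π μ W w u u).re =
      ∫ g, W g * (‖mc π w (u : H) g‖ * ‖mc π w (u : H) g‖) ∂μ := by
    rw [BW_self L π A hP μ ht hκ hW hw u, Complex.ofReal_re]
    simp only [sq]
  have hvv : (BW L π μ W w v v).re =
      ∫ g, W g * (‖mc π w (v : H) g‖ * ‖mc π w (v : H) g‖) ∂μ := by
    rw [BW_self L π A hP μ ht hκ hW hw v, Complex.ofReal_re]
    simp only [sq]
  rw [huu, hvv]
  set Iuu := ∫ g, W g * (‖mc π w (u : H) g‖ * ‖mc π w (u : H) g‖) ∂μ with hIuu
  set Ivv := ∫ g, W g * (‖mc π w (v : H) g‖ * ‖mc π w (v : H) g‖) ∂μ with hIvv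
  set Iuv := ∫ g, W g * (‖mc π w (u : H) g‖ * ‖mc π w (v : H) g‖) ∂μ with hIuv
  have hnn : ∀ (x : G), 0 ≤ W x := fun g => (hW.pos g).le
  have hu0 : 0 ≤ Iuu := integral_nonneg fun g => mul_nonneg (hnn g) (mul_self_nonneg _)
  have hv0 : 0 ≤ Ivv := integral_nonneg fun g => mul_nonneg (hnn g) (mul_self_nonneg _)
  have key : ∀ t : ℝ, 0 ≤ Iuu * (t * t) + (-2 * Iuv) * t + Ivv := by
    intro t
    have h1 : ∫ g, W g * ((t * ‖mc π w (u : H) g‖ - ‖mc π w (v : H) g‖) *
        (t * ‖mc π w (u : H) g‖ - ‖mc π w (v : H) g‖)) ∂μ =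
        Iuu * (t * t) + (-2 * Iuv) * t + Ivv := by
      have h2 : (fun g => W g * ((t * ‖mc π w (u : H) g‖ - ‖mc π w (v : H) g‖) *
        (t * ‖mc π w (u : H) g‖ - ‖mc π w (v : H) g‖))) = fun g =>
          ((t * t) * (W g * (‖mc π w (u : H) g‖ * ‖mc π w (u : H) g‖)) +
          (-2 * t) * (W g * (‖mc π w (u : H) g‖ * ‖mc π w (v : H) g‖))) +
          W g * (‖mc π w (v : H) g‖ * ‖mc π w (v : H) g‖) := by
        funext g; ring
      have e1 : Integrable (fun g => (t * t) *
          (W g * (‖mc π w (u : H) g‖ * ‖mc π w (u : H) g‖))) μ := hiuu.const_mul _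
      have e2 : Integrable (fun g => (-2 * t) *
          (W g * (‖mc π w (u : H) g‖ * ‖mc π w (v : H) g‖))) μ := hiuv.const_mul _
      have e3 : Integrable (fun g => (t * t) *
          (W g * (‖mc π w (u : H) g‖ * ‖mc π w (u : H) g‖)) + (-2 * t) *
          (W g * (‖mc π w (u : H) g‖ * ‖mc π w (v : H) g‖))) μ := e1.add e2
      rw [h2, integral_add e3 hivv, integral_add e1 e2, integral_const_mul,
        integral_const_mul]
      ring
    rw [← h1]
    exact integral_nonneg fun g => mul_nonneg (hnn g) (mul_self_nonneg _)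
  have hd := discrim_le_zero key
  rw [discrim] at hd
  rw [← Real.sqrt_mul hu0]
  apply Real.le_sqrt_of_sq_le
  nlinarith

/-- `Q_W(v) = B_W(v,v)` for `K`-finite `v`. -/
theorem QW_eq (v : KFin L π) :
    QW π μ W w (v : H) = ENNReal.ofReal (BW L π μ W w v v).re := by
  have hint : Integrable (fun g => W g * ‖mc π w (v : H) g‖ ^ 2) μ := by
    refine (BW_integrable_norm L π A hP μ ht hκ hW hw v v).congr
      (Eventually.of_forall fun g => ?_)
    simp only
    ring
  rw [BW_self L π A hP μ ht hκ hW hw v, Complex.ofReal_re, QW]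
  exact (ofReal_integral_eq_lintegral_ofReal hint
    (Eventually.of_forall fun g => mul_nonneg (hW.pos g).le (sq_nonneg _))).symm

end SBD
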